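import Pool.Agent.TH882.GP

/-! The bilinear estimate along polynomials. -/

set_option autoImplicit false

open Finset Filter Topology Polynomial

namespace Pool.Agent.TH882.PG

open Pool.Agent.H373R2.T7
open Pool.Agent.TH882.UB (ev_pow)

/-- the weight of the primes -/
noncomputable def thI (k : ℤ) : ℝ := if k.toNat.Prime then Real.log k.toNat else 0

lemma thI_nonneg (k : ℤ) : 0 ≤ thI k := by
  unfold thI
  split_ifs
  · exact Real.log_natCast_nonneg _
  · exact le_rfl

lemma lamI_sub_thI (k : ℤ) (hk : 1 ≤ k) : lamI k - thI k =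
    if k.toNat.Prime then 0 else ArithmeticFunction.vonMangoldt k.toNat := by
  unfold lamI thI
  rw [if_pos hk]
  split_ifs with h
  · rw [ArithmeticFunction.vonMangoldt_apply_prime h, sub_self]
  · rw [sub_zero]

lemma pp_sum (V : ℕ) (hV : 1 ≤ V) (I : Finset ℕ) (f : ℕ → ℤ) (hf : Set.InjOn f I)
    (h : ∀ N ∈ I, 1 ≤ f N ∧ f N ≤ V) :
    ∑ N ∈ I, (lamI (f N) - thI (f N)) ≤ 2 * √V * Real.log V := by
  classical
  have hV1 : (1 : ℝ) ≤ V := by exact_mod_cast hV
  have e1 := Chebyshev.psi_sub_theta_le hV1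
  rw [Chebyshev.psi_sub_theta_eq_sum_not_prime, Nat.floor_natCast] at e1
  refine le_trans ?_ e1
  have e2 : ∑ N ∈ I, (lamI (f N) - thI (f N)) =
      ∑ N ∈ I.filter (fun N => ¬ (f N).toNat.Prime), ArithmeticFunction.vonMangoldt (f N).toNat := by
    rw [sum_filter]
    apply sum_congr rfl
    intro N hN
    rw [lamI_sub_thI _ (h N hN).1]
    split_ifs <;> simp_all
  rw [e2, ← sum_image (s := I.filter (fun N => ¬ (f N).toNat.Prime)) (g := fun N => (f N).toNat)
    (f := fun n => ArithmeticFunction.vonMangoldt n)]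
  · apply sum_le_sum_of_subset_of_nonneg
    · intro n hn
      rw [mem_image] at hn
      obtain ⟨k, hk, rfl⟩ := hn
      rw [mem_filter] at hk
      have := h k hk.1
      rw [mem_filter, mem_Ioc]
      exact ⟨⟨by omega, by omega⟩, hk.2⟩
    · intro _ _ _
      exact ArithmeticFunction.vonMangoldt_nonneg
  · intro k hk k' hk' he
    rw [mem_coe, mem_filter] at hk hk'
    apply hf hk.1 hk'.1
    have h1 := h k hk.1
    have h2 := h k' hk'.1
    simp only at he
    omega

theorem bilG (g : ℤ[X]) (hd : 1 ≤ g.natDegree) (hl : 0 < g.leadingCoeff) (B : ℕ) (hB : 1 ≤ B) (U : ℕ) :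
    ∃ B0 : ℕ, ∀ E : ℕ, ∃ X0 : ℕ, ∀ X : ℕ, X0 ≤ X → ∀ z : ℕ, Real.log X ^ B0 ≤ z →
    (z : ℝ) ≤ Real.log X ^ E → ∀ σ : ℤ, (σ = 1 ∨ σ = -1) → ∀ I K : Finset ℕ,
    (∀ N ∈ I, 1 ≤ N ∧ N ≤ B * X ^ g.natDegree) → (∀ n ∈ K, 1 ≤ n ∧ n ≤ 3 * X) →
    (∀ N ∈ I, ∀ n ∈ K, 1 ≤ (N : ℤ) + σ * g.eval (n : ℤ) ∧
      (N : ℤ) + σ * g.eval (n : ℤ) ≤ ((B * X ^ g.natDegree : ℕ) : ℤ)) →
    ∑ N ∈ I, |∑ n ∈ K, (thI (N + σ * g.eval (n : ℤ)) - lamz z ((N : ℤ) + σ * g.eval (n : ℤ)).toNat)| ≤
      (X : ℝ) ^ g.natDegree * X / Real.log X ^ U := by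
  classical
  set d := g.natDegree with hdd
  obtain ⟨B0, hB0⟩ := bil_lam g hd hl (max (3 ^ d) B) (hB.trans (le_max_right _ _)) (U + 1)
  refine ⟨B0 + 1, fun E => ?_⟩
  obtain ⟨N0, hN0⟩ := hB0 E
  obtain ⟨X1, h1⟩ := ev_pow (1 / 2) (12 * √B * (Real.log B + d) ) (by norm_num) (U + 1)
  have hlogt : Tendsto (fun X : ℕ => Real.log (X : ℝ)) atTop atTop :=
    Real.tendsto_log_atTop.comp tendsto_natCast_atTop_atTop
  obtain ⟨X2, h2⟩ := eventually_atTop.1 (hlogt.eventually_ge_atTop (max ((d : ℝ) ^ B0) 6))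
  refine ⟨max (max N0 X1) (max X2 3), ?_⟩
  intro X hX z hz1 hz2 σ hσ I K hI hK hIK
  have hXN0 : N0 ≤ X := by omega
  have hX1 : X1 ≤ X := by omega
  have hX2 : X2 ≤ X := by omega
  have hX3 : 3 ≤ X := by omega
  have hXr : (3 : ℝ) ≤ X := by exact_mod_cast hX3
  have hl2 := h2 X hX2
  set ℓ := Real.log X with hℓ
  have hl3 : (d : ℝ) ^ B0 ≤ ℓ := (le_max_left _ _).trans hl2
  have hl4 : 6 ≤ ℓ := (le_max_right _ _).trans hl2
  have hd1 : (1 : ℝ) ≤ d := by exact_mod_cast hd
  have hlogN : Real.log ((X ^ d : ℕ) : ℝ) = d * ℓ := by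
    push_cast
    rw [Real.log_pow]
  have hXd : X ≤ X ^ d := by
    calc X = X ^ 1 := (pow_one _).symm
      _ ≤ X ^ d := Nat.pow_le_pow_right (by omega) hd
  set F : ℕ → ℝ := fun N => ∑ n ∈ K, (lamI (N + σ * g.eval (n : ℤ)) -
    lamzI z (N + σ * g.eval (n : ℤ))) with hF
  set G : ℕ → ℂ := fun a => if a ∈ I then ((if 0 ≤ F a then (1 : ℝ) else -1 : ℝ) : ℂ) else 0 with hG
  set c : ℕ → ℂ := fun m => if m ∈ K then 1 else 0 with hc
  have h := hN0 (X ^ d) (by omega) (3 * X) (by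
      rw [mul_pow]
      calc X ^ d ≤ 3 ^ d * X ^ d := Nat.le_mul_of_pos_left _ (by positivity)
        _ = 1 * (3 ^ d * X ^ d) := (one_mul _).symm
        _ ≤ _ := Nat.mul_le_mul_right _ (hB.trans (le_max_right _ _))) (by
      rw [mul_pow]
      exact Nat.mul_le_mul_right _ (le_max_left _ _)) (B * X ^ d) (Nat.mul_le_mul_right _ (le_max_right _ _))
      z (by
        rw [hlogN, mul_pow]
        calc (d : ℝ) ^ B0 * ℓ ^ B0 ≤ ℓ * ℓ ^ B0 := mul_le_mul_of_nonneg_right hl3 (by positivity)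
          _ = ℓ ^ (B0 + 1) := by ring
          _ ≤ z := hz1) (by
        rw [hlogN]
        refine hz2.trans ?_
        apply pow_le_pow_left₀ (by linarith)
        nlinarith) σ hσ G c
    (by
      intro a
      rw [hG]
      simp only
      split_ifs <;> simp)
    (by
      intro m
      rw [hc]
      simp only
      split_ifs <;> simp)
  have e0 : ∀ a ∈ Icc 1 (B * X ^ d), ∑ m ∈ Icc 1 (3 * X), G a * c m *
      ((lamI (a + σ * g.eval (m : ℤ)) - lamzI z (a + σ * g.eval (m : ℤ)) : ℝ) : ℂ) =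
      if a ∈ I then ((|F a| : ℝ) : ℂ) else 0 := by
    intro a _
    by_cases ha : a ∈ I
    · rw [if_pos ha]
      have e1 : ∑ m ∈ Icc 1 (3 * X), G a * c m *
          ((lamI (a + σ * g.eval (m : ℤ)) -
            lamzI z (a + σ * g.eval (m : ℤ)) : ℝ) : ℂ) =
          ∑ m ∈ K, G a * ((lamI (a + σ * g.eval (m : ℤ)) -
            lamzI z (a + σ * g.eval (m : ℤ)) : ℝ) : ℂ) := by
        have e2 : ∀ m ∈ Icc 1 (3 * X), G a * c m *
            ((lamI (a + σ * g.eval (m : ℤ)) -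
              lamzI z (a + σ * g.eval (m : ℤ)) : ℝ) : ℂ) =
            if m ∈ K then G a *
              ((lamI (a + σ * g.eval (m : ℤ)) -
            lamzI z (a + σ * g.eval (m : ℤ)) : ℝ) : ℂ) else 0 := by
          intro m _
          rw [hc]
          simp only
          by_cases hm : m ∈ K
          · rw [if_pos hm, if_pos hm, mul_one]
          · rw [if_neg hm, if_neg hm, mul_zero, zero_mul]
        rw [sum_congr rfl e2, ← sum_filter]
        congr 1
        ext m
        rw [mem_filter, mem_Icc]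
        constructor
        · exact fun h => h.2
        · exact fun h => ⟨hK m h, h⟩
      rw [e1, ← mul_sum, ← Complex.ofReal_sum]
      have e5 : G a = ((if 0 ≤ F a then (1 : ℝ) else -1 : ℝ) : ℂ) := by
        rw [hG]
        simp only
        rw [if_pos ha]
      rw [e5, ← Complex.ofReal_mul]
      congr 1
      have e6 : ∑ i ∈ K, (lamI (a + σ * g.eval (i : ℤ)) -
            lamzI z (a + σ * g.eval (i : ℤ))) = F a := rfl
      rw [e6]
      split_ifs with h0
      · rw [one_mul, abs_of_nonneg h0]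
      · push Not at h0
        rw [abs_of_neg h0]
        ring
    · rw [if_neg ha]
      have e5 : G a = 0 := by
        rw [hG]
        simp only
        rw [if_neg ha]
      simp [e5]
  rw [sum_congr rfl e0, ← sum_filter] at h
  have e1 : (Icc 1 (B * X ^ d)).filter (fun a => a ∈ I) = I := by
    ext a
    rw [mem_filter, mem_Icc]
    constructor
    · exact fun h => h.2
    · exact fun h => ⟨hI a h, h⟩
  rw [e1, ← Complex.ofReal_sum, Complex.norm_real, Real.norm_of_nonneg (sum_nonneg fun _ _ => abs_nonneg _),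
    hlogN] at h
  -- the prime powers
  have hV0 : 0 < B * X ^ d := Nat.mul_pos (by omega) (by positivity)
  have hpp : ∑ N ∈ I, ∑ n ∈ K, (lamI (N + σ * g.eval (n : ℤ)) - thI (N + σ * g.eval (n : ℤ))) ≤
      3 * X * (2 * √((B * X ^ d : ℕ) : ℝ) * Real.log ((B * X ^ d : ℕ) : ℝ)) := by
    rw [sum_comm]
    calc ∑ n ∈ K, ∑ N ∈ I, (lamI (N + σ * g.eval (n : ℤ)) - thI (N + σ * g.eval (n : ℤ))) ≤
        ∑ _n ∈ K, 2 * √((B * X ^ d : ℕ) : ℝ) * Real.log ((B * X ^ d : ℕ) : ℝ) := by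
          apply sum_le_sum
          intro n hn
          apply pp_sum (B * X ^ d) hV0 I (fun N => (N : ℤ) + σ * g.eval (n : ℤ))
          · intro N _ N' _ h
            simp only at h
            omega
          · intro N hN
            exact hIK N hN n hn
      _ = (K.card : ℝ) * (2 * √((B * X ^ d : ℕ) : ℝ) * Real.log ((B * X ^ d : ℕ) : ℝ)) := by
          rw [sum_const, nsmul_eq_mul]
      _ ≤ _ := by
          apply mul_le_mul_of_nonneg_right
          · have hKc : K.card ≤ 3 * X := by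
              calc K.card ≤ (Icc 1 (3 * X)).card := card_le_card fun n hn => mem_Icc.2 (hK n hn)
                _ = 3 * X := by simp
            exact_mod_cast hKc
          · have : 0 ≤ Real.log ((B * X ^ d : ℕ) : ℝ) := Real.log_natCast_nonneg _
            positivity
  have hmain : ∑ N ∈ I, |∑ n ∈ K, (thI (N + σ * g.eval (n : ℤ)) -
      lamz z ((N : ℤ) + σ * g.eval (n : ℤ)).toNat)| ≤
      ∑ N ∈ I, |F N| + ∑ N ∈ I, ∑ n ∈ K, (lamI (N + σ * g.eval (n : ℤ)) -
        thI (N + σ * g.eval (n : ℤ))) := by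
    rw [← sum_add_distrib]
    apply sum_le_sum
    intro N hN
    have e2 : ∑ n ∈ K, (thI (N + σ * g.eval (n : ℤ)) -
        lamz z ((N : ℤ) + σ * g.eval (n : ℤ)).toNat) = F N -
        ∑ n ∈ K, (lamI (N + σ * g.eval (n : ℤ)) - thI (N + σ * g.eval (n : ℤ))) := by
      rw [hF]
      simp only
      rw [← sum_sub_distrib]
      apply sum_congr rfl
      intro n hn
      have e3 : lamzI z ((N : ℤ) + σ * g.eval (n : ℤ)) =
          lamz z ((N : ℤ) + σ * g.eval (n : ℤ)).toNat := by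
        unfold lamzI
        rw [if_pos (hIK N hN n hn).1]
      rw [e3]
      ring
    have e4 : 0 ≤ ∑ n ∈ K, (lamI (N + σ * g.eval (n : ℤ)) - thI (N + σ * g.eval (n : ℤ))) := by
      apply sum_nonneg
      intro n hn
      rw [lamI_sub_thI _ (hIK N hN n hn).1]
      split_ifs
      · exact le_rfl
      · exact ArithmeticFunction.vonMangoldt_nonneg
    rw [e2]
    refine (abs_sub _ _).trans ?_
    rw [abs_of_nonneg e4]
  refine hmain.trans ?_
  have hXd0 : (0 : ℝ) < (X : ℝ) ^ d := by positivity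
  have f1 : ∑ N ∈ I, |F N| ≤ (X : ℝ) ^ d * X / ℓ ^ U / 2 := by
    refine h.trans ?_
    push_cast
    have e5 : (X : ℝ) ^ d * (3 * X) / (d * ℓ) ^ (U + 1) ≤ (X : ℝ) ^ d * (3 * X) / ℓ ^ (U + 1) := by
      apply div_le_div_of_nonneg_left (by positivity) (by positivity)
      apply pow_le_pow_left₀ (by linarith)
      nlinarith
    refine e5.trans ?_
    rw [div_div, div_le_div_iff₀ (by positivity) (by positivity), pow_succ]
    have : 0 ≤ (X : ℝ) ^ d * X * ℓ ^ U := by positivity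
    nlinarith
  have f2 : 3 * X * (2 * √((B * X ^ d : ℕ) : ℝ) * Real.log ((B * X ^ d : ℕ) : ℝ)) ≤
      (X : ℝ) ^ d * X / ℓ ^ U / 2 := by
    have hBr : (1 : ℝ) ≤ B := by exact_mod_cast hB
    have e5 : Real.log ((B * X ^ d : ℕ) : ℝ) ≤ (Real.log B + d) * ℓ := by
      push_cast
      rw [Real.log_mul (by linarith) hXd0.ne', Real.log_pow]
      have : 0 ≤ Real.log B := Real.log_nonneg hBr
      nlinarith
    have e6 : √((B * X ^ d : ℕ) : ℝ) = √B * √((X : ℝ) ^ d) := by
      push_cast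
      rw [Real.sqrt_mul (by linarith)]
    have e7 := h1 X hX1
    have e8 : (X : ℝ) ^ (1 / 2 : ℝ) ≤ √((X : ℝ) ^ d) := by
      rw [← Real.sqrt_eq_rpow]
      apply Real.sqrt_le_sqrt
      calc (X : ℝ) = X ^ 1 := (pow_one _).symm
        _ ≤ X ^ d := pow_le_pow_right₀ (by linarith) hd
    rw [e6, div_div, le_div_iff₀ (by positivity)]
    have hlB : 0 ≤ Real.log B + d := by
      have : 0 ≤ Real.log B := Real.log_nonneg hBr
      linarith
    calc 3 * X * (2 * (√B * √((X : ℝ) ^ d)) * Real.log ((B * X ^ d : ℕ) : ℝ)) * (ℓ ^ U * 2) ≤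
        3 * X * (2 * (√B * √((X : ℝ) ^ d)) * ((Real.log B + d) * ℓ)) * (ℓ ^ U * 2) := by
          apply mul_le_mul_of_nonneg_right _ (by positivity)
          apply mul_le_mul_of_nonneg_left _ (by positivity)
          exact mul_le_mul_of_nonneg_left e5 (by positivity)
      _ = X * √((X : ℝ) ^ d) * (12 * √B * (Real.log B + d) * ℓ ^ (U + 1)) := by ring
      _ ≤ X * √((X : ℝ) ^ d) * √((X : ℝ) ^ d) :=
          mul_le_mul_of_nonneg_left (e7.trans e8) (by positivity)
      _ = (X : ℝ) ^ d * X := by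
          rw [mul_assoc, Real.mul_self_sqrt hXd0.le]
          ring
  linarith [hpp.trans f2]

end Pool.Agent.TH882.PG
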