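import Pool.Agent.TH882.D1

/-! The upper bound sieve for pairs `n`, `N - n`. -/

set_option autoImplicit false

open Finset Filter Topology

namespace Pool.Agent.TH882.DD

open Pool.Agent.H361R2.PP
open Pool.Agent.W70.HR
open Pool.Agent.TH882.UB
open Pool.Agent.TH882.PC (cnt_Ico one_sub_pos)

/-- all the numbers `n + u` have no prime factor below `2 ^ 2 ^ J` -/
def Ro (δ : ℝ) (X : ℕ) (U : Finset ℕ) (n : ℕ) : Prop :=
  ∀ u ∈ U, ∀ p : ℕ, p.Prime → p < 2 ^ 2 ^ JJ δ X → ¬ p ∣ n + u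

/-- the number of pairs of positions with `p ∣ N + u + u'` -/
def gp (U : Finset ℕ) (N p : ℕ) : ℕ := ((U ×ˢ U).filter (fun x => p ∣ N + x.1 + x.2)).card

/-- the singular factor -/
noncomputable def hh (P : Finset ℕ) (U : Finset ℕ) (N : ℕ) : ℝ :=
  ∏ p ∈ P, (1 + 2 * (gp U N p : ℝ) / p)

/-- the excluded classes -/
def Ex (U : Finset ℕ) (N p : ℕ) : Finset ℕ := cls U p ∪ U.image (fun u => (N + u) % p)

lemma Ex_card (U : Finset ℕ) (N p : ℕ) (hp : p.Prime) (hU : ∀ u ∈ U, u < p) :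
    2 * U.card ≤ (Ex U N p).card + gp U N p := by
  classical
  unfold Ex
  have h1 : (cls U p).card = U.card := card_cls hp.pos U hU
  have h2 : (U.image (fun u => (N + u) % p)).card = U.card := by
    apply card_image_of_injOn
    intro u hu v hv he
    have h3 : N + u ≡ N + v [MOD p] := he
    have h4 := Nat.ModEq.add_left_cancel' N h3
    unfold Nat.ModEq at h4
    rwa [Nat.mod_eq_of_lt (hU u hu), Nat.mod_eq_of_lt (hU v hv)] at h4
  have h3 := card_union_add_card_inter (cls U p) (U.image (fun u => (N + u) % p))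
  have h4 : (cls U p ∩ U.image (fun u => (N + u) % p)).card ≤ gp U N p := by
    unfold gp
    have h5 : cls U p ∩ U.image (fun u => (N + u) % p) ⊆
        ((U ×ˢ U).filter (fun x => p ∣ N + x.1 + x.2)).image (fun x => (N + x.1) % p) := by
      intro r hr
      rw [mem_inter, mem_image] at hr
      obtain ⟨hr1, u, hu, rfl⟩ := hr
      unfold cls at hr1
      rw [mem_image] at hr1
      obtain ⟨v, hv, hve⟩ := hr1
      have h6 : p ∣ (N + u) + v := (mod_eq_iff hp.pos (N + u) v).1 hve.symm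
      rw [mem_image]
      exact ⟨(u, v), mem_filter.2 ⟨mem_product.2 ⟨hu, hv⟩, h6⟩, rfl⟩
    exact (card_le_card h5).trans card_image_le
  omega

lemma Ex_card_le (U : Finset ℕ) (N p : ℕ) : (Ex U N p).card ≤ 2 * U.card := by
  unfold Ex
  refine (card_union_le _ _).trans ?_
  have h1 : (cls U p).card ≤ U.card := by
    unfold cls
    exact card_image_le
  have h2 : (U.image (fun u => (N + u) % p)).card ≤ U.card := card_image_le
  omega

lemma Ex_lt (U : Finset ℕ) (N p : ℕ) (hp : 0 < p) (r : ℕ) (hr : r ∈ Ex U N p) : r < p := by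
  unfold Ex at hr
  rw [mem_union] at hr
  rcases hr with h | h
  · unfold cls at h
    rw [mem_image] at h
    obtain ⟨u, -, rfl⟩ := h
    exact Nat.mod_lt _ hp
  · rw [mem_image] at h
    obtain ⟨u, -, rfl⟩ := h
    exact Nat.mod_lt _ hp

lemma notMem_Ex (U : Finset ℕ) (N p n : ℕ) (hp : 0 < p) (hn : n ≤ N)
    (h1 : ∀ u ∈ U, ¬ p ∣ n + u) (h2 : ∀ u ∈ U, ¬ p ∣ (N - n) + u) : n % p ∉ Ex U N p := by
  unfold Ex
  rw [mem_union, not_or]
  refine ⟨(notMem_cls hp U n).2 h1, ?_⟩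
  rw [mem_image]
  rintro ⟨u, hu, he⟩
  apply h2 u hu
  have h3 : n ≡ N + u [MOD p] := he.symm
  have h4 := (Nat.modEq_iff_dvd' (by omega : n ≤ N + u)).1 h3
  have h5 : N + u - n = (N - n) + u := by omega
  rwa [h5] at h4

lemma hh_one (P U : Finset ℕ) (N : ℕ) : 1 ≤ hh P U N := by
  unfold hh
  calc (1 : ℝ) = ∏ _p ∈ P, (1 : ℝ) := by rw [prod_const_one]
    _ ≤ _ := by
        apply Finset.prod_le_prod (fun _ _ => zero_le_one)
        intro p _
        have : 0 ≤ 2 * (gp U N p : ℝ) / p := by positivity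
        linarith

/-- the upper bound for the number of pairs -/
theorem R_upper (L A0 : ℕ) (δ : ℝ) (hδ : 0 < δ) (hδ1 : δ ≤ 1) : ∃ w0 : ℕ, ∃ δ' : ℝ, 0 < δ' ∧
    δ' ≤ 1 ∧ ∃ C : ℝ, 0 < C ∧ ∃ X₀ : ℕ, ∀ X : ℕ, X₀ ≤ X → 0 < FF δ X ∧
    1 / Real.log X ≤ C * FF δ X ∧
    ∀ U : Finset ℕ, U.card = L → (∀ u ∈ U, u ≤ A0) → ∀ N : ℕ, 2 * X ≤ N →
    ∀ S ⊆ Ico X (2 * X), (∀ n ∈ S, Ro δ X U n ∧ Ro δ X U (N - n)) →
    (S.card : ℝ) ≤ C * (X * FF δ X ^ (2 * L) * hh (P1 w0 (JJ δ' X)) U N) := by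
  classical
  obtain ⟨C0, hC0, hfl⟩ := Pool.Agent.TH882.FL.fl1 (2 * L)
  set w0 : ℕ := C0 + A0 + 4 * L + 2 with hw0
  set δ' : ℝ := min δ (1 / (16 * (C0 : ℝ) * C0)) with hδ'
  have hC0r : (1 : ℝ) ≤ C0 := by exact_mod_cast hC0
  have hδ'0 : 0 < δ' := by
    rw [hδ']
    exact lt_min hδ (by positivity)
  have hδ'δ : δ' ≤ δ := min_le_left _ _
  have hδ'1 : δ' ≤ 1 := hδ'δ.trans hδ1
  have hδ'M : δ' * ((C0 * C0 * 2 : ℕ) : ℝ) ≤ 1 / 8 := by
    have h1 : δ' ≤ 1 / (16 * (C0 : ℝ) * C0) := min_le_right _ _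
    push_cast
    calc δ' * ((C0 : ℝ) * C0 * 2) ≤ 1 / (16 * (C0 : ℝ) * C0) * ((C0 : ℝ) * C0 * 2) :=
          mul_le_mul_of_nonneg_right h1 (by positivity)
      _ = 1 / 8 := by field_simp; norm_num
  obtain ⟨C1, hC1, X1, hVV⟩ := VV_comp δ δ' hδ hδ1 hδ'0 hδ'1
  obtain ⟨X2, hJ⟩ := JJ_size δ' hδ'0 hδ'1 (C0 * C0 * 2) (1 / 8) hδ'M
  obtain ⟨c, hc, hmv⟩ := mv
  obtain ⟨X3, hV⟩ := hmv δ hδ hδ1
  obtain ⟨X5, hev⟩ := ev_pow (1 / 2) (4 * (1 / c) ^ (2 * L)) (by norm_num) (2 * L + 1)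
  set K0 : ℝ := (∏ p ∈ (range (w0 + 1)).filter Nat.Prime, (1 - 1 / (p : ℝ)))⁻¹ with hK0
  have hK00 : 0 < K0 := by
    rw [hK0]
    apply inv_pos.2
    exact prod_pos fun p hp => one_sub_pos (mem_filter.1 hp).2
  refine ⟨w0, δ', hδ'0, hδ'1, max (2 * (K0 * C1) ^ (2 * L) + 1) (1 / c),
    lt_of_lt_of_le (by positivity) (le_max_right _ _), max (max X1 X2) (max X3 (max X5 16)), ?_⟩
  intro X hX
  have hX1 : X1 ≤ X := by omega
  have hX2 : X2 ≤ X := by omega
  have hX3 : X3 ≤ X := by omega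
  have hX5 : X5 ≤ X := by omega
  have hX16 : 16 ≤ X := by omega
  have hXr : (16 : ℝ) ≤ X := by exact_mod_cast hX16
  have hX0 : (0 : ℝ) < X := by linarith
  obtain ⟨hl1, hWl⟩ := X16 hX16
  obtain ⟨hφ1, hφ2⟩ := phi_low hX16
  have hφ0 : 0 < (Nat.totient (Wm X) : ℝ) / Wm X := lt_of_lt_of_le (by positivity) hφ1
  obtain ⟨hJ1, hJ2, hJ3, -⟩ := hJ X hX2
  have hV1 := hVV X hX1
  have hV3 := hV X hX3
  have hFl : c / Real.log X ≤ FF δ X := by
    unfold FF
    rw [div_le_iff₀ (by linarith)]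
    have hpos : 0 < VV δ X * ((Nat.totient (Wm X) : ℝ) / Wm X) := by
      by_contra hcon
      push Not at hcon
      have : VV δ X * ((Nat.totient (Wm X) : ℝ) / Wm X) * (δ * Real.log X) ≤ 0 :=
        mul_nonpos_of_nonpos_of_nonneg hcon (by positivity)
      linarith
    calc c ≤ VV δ X * ((Nat.totient (Wm X) : ℝ) / Wm X) * (δ * Real.log X) := hV3
      _ ≤ VV δ X * ((Nat.totient (Wm X) : ℝ) / Wm X) * (1 * Real.log X) := by
          apply mul_le_mul_of_nonneg_left _ hpos.le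
          exact mul_le_mul_of_nonneg_right hδ1 (by linarith)
      _ = _ := by ring
  have hF0 : 0 < FF δ X := lt_of_lt_of_le (by positivity) hFl
  refine ⟨hF0, ?_, ?_⟩
  · calc 1 / Real.log X = 1 / c * (c / Real.log X) := by field_simp
      _ ≤ 1 / c * FF δ X := mul_le_mul_of_nonneg_left hFl (by positivity)
      _ ≤ _ := mul_le_mul_of_nonneg_right (le_max_right _ _) hF0.le
  intro U hUc hUA N hN S hS hSR
  set J := JJ δ' X with hJdef
  set P : Finset ℕ := P1 w0 J with hP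
  have hPp : ∀ p ∈ P, p.Prime ∧ w0 < p ∧ p ≤ 2 ^ 2 ^ J := by
    intro p hp
    rw [hP, mem_P1] at hp
    exact ⟨hp.2.1, hp.2.2, hp.1.le⟩
  have hkey := hfl C0 J w0 P (Ex U N) le_rfl (by omega) hPp (by
      intro p _
      rw [← hUc]
      exact Ex_card_le U N p) (Ico X (2 * X)) X hX0.le (by
      intro T hT c hc
      have h1 := cntT X (2 * X) 1 0 (by omega) one_pos T
        (fun p hp => ⟨(hPp p (hT hp)).1, Nat.coprime_one_right _⟩) c (by
          intro p hp
          exact Ex_lt U N p (hPp p (hT hp)).1.pos _ (hc p hp))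
      have e1 : (((2 * X : ℕ) : ℝ) - X) / ((1 : ℕ) : ℝ) = X := by
        push_cast
        ring
      rw [e1] at h1
      simp only [Nat.mod_one, true_and] at h1
      exact h1)
  have hp4 : ∀ p ∈ P, (4 : ℝ) * L + 2 ≤ p := by
    intro p hp
    have : 4 * L + 2 ≤ p := by
      have := (hPp p hp).2.1
      omega
    exact_mod_cast this
  -- the factors
  have hfac0 : ∀ p ∈ P, 0 ≤ 1 - ((Ex U N p).card : ℝ) / p := by
    intro p hp
    have h1 := hp4 p hp
    have h2 : ((Ex U N p).card : ℝ) ≤ 2 * L := by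
      have := Ex_card_le U N p
      rw [hUc] at this
      exact_mod_cast this
    have hL0 : (0 : ℝ) ≤ L := Nat.cast_nonneg L
    have : ((Ex U N p).card : ℝ) / p ≤ 1 := by
      rw [div_le_one (by linarith)]
      linarith
    linarith
  have hfac : ∀ p ∈ P, 1 - ((Ex U N p).card : ℝ) / p ≤
      (1 - 1 / (p : ℝ)) ^ (2 * L) * (1 + 2 * (gp U N p : ℝ) / p) := by
    intro p hp
    have h1 := hp4 p hp
    have hL0 : (0 : ℝ) ≤ L := Nat.cast_nonneg L
    have hp0 : (0 : ℝ) < p := by linarith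
    have h2 : 2 * (L : ℝ) ≤ ((Ex U N p).card : ℝ) + gp U N p := by
      have := Ex_card U N p (hPp p hp).1 (fun u hu => by
        have h3 := hUA u hu
        have h4 := (hPp p hp).2.1
        omega)
      rw [hUc] at this
      exact_mod_cast this
    have h3 := one_add_mul_le_pow (a := -(1 / (p : ℝ))) (by
      have : 1 / (p : ℝ) ≤ 1 := by
        rw [div_le_one hp0]
        linarith
      linarith) (2 * L)
    have h4 : 1 - (2 * L : ℝ) / p ≤ (1 - 1 / (p : ℝ)) ^ (2 * L) := by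
      calc 1 - (2 * L : ℝ) / p = 1 + ((2 * L : ℕ) : ℝ) * -(1 / (p : ℝ)) := by push_cast; ring
        _ ≤ (1 + -(1 / (p : ℝ))) ^ (2 * L) := h3
        _ = _ := by ring
    have h5 : 1 / 2 ≤ 1 - (2 * L : ℝ) / p := by
      have : (2 * L : ℝ) / p ≤ 1 / 2 := by
        rw [div_le_div_iff₀ hp0 (by norm_num)]
        linarith
      linarith
    have h6 : 0 ≤ (gp U N p : ℝ) / p := by positivity
    calc 1 - ((Ex U N p).card : ℝ) / p ≤ 1 - (2 * L : ℝ) / p + (gp U N p : ℝ) / p := by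
          have : (2 * L : ℝ) / p ≤ (((Ex U N p).card : ℝ) + gp U N p) / p :=
            div_le_div_of_nonneg_right h2 hp0.le
          rw [add_div] at this
          linarith
      _ ≤ (1 - 1 / (p : ℝ)) ^ (2 * L) + (1 - 1 / (p : ℝ)) ^ (2 * L) * (2 * ((gp U N p : ℝ) / p)) := by
          apply add_le_add h4
          nlinarith
      _ = _ := by ring
  have hprod : ∏ p ∈ P, (1 - ((Ex U N p).card : ℝ) / p) ≤
      (∏ p ∈ P, (1 - 1 / (p : ℝ))) ^ (2 * L) * hh P U N := by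
    unfold hh
    rw [← prod_pow, ← prod_mul_distrib]
    exact Finset.prod_le_prod hfac0 hfac
  have hPP : ∏ p ∈ P, (1 - 1 / (p : ℝ)) ≤ K0 * C1 * FF δ X := by
    have h1 : ∏ p ∈ (range (2 ^ 2 ^ J)).filter Nat.Prime, (1 - 1 / (p : ℝ)) ≤
        C1 * FF δ X := by
      obtain ⟨C, hC, hM⟩ := mer
      have h2 : ∏ p ∈ (range (2 ^ 2 ^ J)).filter Nat.Prime, (1 - 1 / (p : ℝ)) =
          VV δ' X * ((Nat.totient (Wm X) : ℝ) / Wm X) := by
        rw [phi_prod]
        unfold VV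
        rw [← hJdef]
        rw [← prod_union]
        · apply prod_congr _ fun _ _ => rfl
          ext p
          simp only [mem_union, mem_filter, mem_range, mem_P1]
          constructor
          · rintro ⟨h3, h4⟩
            by_cases h5 : HH X < p
            · exact Or.inl ⟨h3, h4, h5⟩
            · exact Or.inr ⟨by omega, h4⟩
          · rintro (⟨h3, h4, h5⟩ | ⟨h3, h4⟩)
            · exact ⟨h3, h4⟩
            · exact ⟨by omega, h4⟩
        · rw [disjoint_left]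
          intro p hp hp2
          rw [mem_P1] at hp
          rw [mem_filter, mem_range] at hp2
          omega
      rw [h2]
      unfold FF
      calc VV δ' X * ((Nat.totient (Wm X) : ℝ) / Wm X) ≤
          C1 * VV δ X * ((Nat.totient (Wm X) : ℝ) / Wm X) :=
            mul_le_mul_of_nonneg_right hV1 hφ0.le
        _ = _ := by ring
    have h2 : (∏ p ∈ P, (1 - 1 / (p : ℝ))) *
        ∏ p ∈ (range (w0 + 1)).filter Nat.Prime, (1 - 1 / (p : ℝ)) ≤
        ∏ p ∈ (range (2 ^ 2 ^ J)).filter Nat.Prime, (1 - 1 / (p : ℝ)) := by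
      rw [← prod_union]
      · have hsub : (range (2 ^ 2 ^ J)).filter Nat.Prime ⊆
            P ∪ (range (w0 + 1)).filter Nat.Prime := by
          intro p hp
          rw [mem_filter, mem_range] at hp
          rw [mem_union, hP, mem_P1, mem_filter, mem_range]
          by_cases h3 : w0 < p
          · exact Or.inl ⟨hp.1, hp.2, h3⟩
          · exact Or.inr ⟨by omega, hp.2⟩
        rw [← prod_sdiff hsub]
        have h3 : ∏ p ∈ (P ∪ (range (w0 + 1)).filter Nat.Prime) \ (range (2 ^ 2 ^ J)).filter Nat.Prime,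
            (1 - 1 / (p : ℝ)) ≤ 1 := by
          apply prod_le_one
          · intro p hp
            have h4 := (mem_sdiff.1 hp).1
            rw [mem_union] at h4
            rcases h4 with h4 | h4
            · exact (one_sub_pos (hPp p h4).1).le
            · exact (one_sub_pos (mem_filter.1 h4).2).le
          · intro p _
            have : 0 ≤ 1 / (p : ℝ) := by positivity
            linarith
        have h4 : 0 ≤ ∏ p ∈ (range (2 ^ 2 ^ J)).filter Nat.Prime, (1 - 1 / (p : ℝ)) :=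
          prod_nonneg fun p hp => (one_sub_pos (mem_filter.1 hp).2).le
        nlinarith
      · rw [disjoint_left]
        intro p hp hp2
        have h3 := (hPp p hp).2.1
        rw [mem_filter, mem_range] at hp2
        omega
    have h3 := h2.trans h1
    have h4 : 0 < ∏ p ∈ (range (w0 + 1)).filter Nat.Prime, (1 - 1 / (p : ℝ)) :=
      prod_pos fun p hp => one_sub_pos (mem_filter.1 hp).2
    rw [← le_div_iff₀ h4] at h3
    refine h3.trans (le_of_eq ?_)
    rw [hK0]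
    field_simp
  have hP0 : 0 ≤ ∏ p ∈ P, (1 - 1 / (p : ℝ)) :=
    prod_nonneg fun p hp => (one_sub_pos (hPp p hp).1).le
  have hh1 := hh_one P U N
  have hprod2 : ∏ p ∈ P, (1 - ((Ex U N p).card : ℝ) / p) ≤
      (K0 * C1) ^ (2 * L) * FF δ X ^ (2 * L) * hh P U N := by
    refine hprod.trans ?_
    apply mul_le_mul_of_nonneg_right _ (by linarith)
    rw [← mul_pow]
    exact pow_le_pow_left₀ hP0 hPP _
  have herr : ((J : ℝ) + 2) * (((2 ^ 2 ^ J : ℕ) : ℝ) ^ (C0 * C0)) ^ 2 ≤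
      X * FF δ X ^ (2 * L) * hh P U N := by
    have h1 : (((2 ^ 2 ^ J : ℕ) : ℝ) ^ (C0 * C0)) ^ 2 ≤ (X : ℝ) ^ (1 / 8 : ℝ) := by
      rw [← pow_mul]
      exact hJ2
    have h5 := hev X hX5
    have h6 : (c / Real.log X) ^ (2 * L) ≤ FF δ X ^ (2 * L) :=
      pow_le_pow_left₀ (by positivity) hFl _
    have h7 : (X : ℝ) ^ (1 / 2 : ℝ) * (X : ℝ) ^ (1 / 8 : ℝ) ≤ X := by
      rw [← Real.rpow_add hX0]
      calc (X : ℝ) ^ (1 / 2 + 1 / 8 : ℝ) ≤ (X : ℝ) ^ (1 : ℝ) :=
            Real.rpow_le_rpow_of_exponent_le (by linarith) (by norm_num)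
        _ = X := Real.rpow_one _
    calc ((J : ℝ) + 2) * (((2 ^ 2 ^ J : ℕ) : ℝ) ^ (C0 * C0)) ^ 2 ≤
        (4 * Real.log X) * (X : ℝ) ^ (1 / 8 : ℝ) := by
          apply mul_le_mul hJ1 h1 (by positivity) (by positivity)
      _ = (4 * (1 / c) ^ (2 * L) * Real.log X ^ (2 * L + 1)) * (X : ℝ) ^ (1 / 8 : ℝ) *
          (c / Real.log X) ^ (2 * L) := by
          rw [div_pow, div_pow, one_pow]
          field_simp
          ring
      _ ≤ (X : ℝ) ^ (1 / 2 : ℝ) * (X : ℝ) ^ (1 / 8 : ℝ) * (c / Real.log X) ^ (2 * L) := by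
          gcongr
      _ ≤ X * FF δ X ^ (2 * L) := by
          gcongr
      _ = X * FF δ X ^ (2 * L) * 1 := (mul_one _).symm
      _ ≤ _ := mul_le_mul_of_nonneg_left hh1 (by positivity)
  have hsub : (S.card : ℝ) ≤
      (((Ico X (2 * X)).filter (fun n => ∀ p ∈ P, n % p ∉ Ex U N p)).card : ℝ) := by
    apply Nat.cast_le.2
    apply card_le_card
    intro n hn
    have h1 := hS hn
    rw [mem_filter]
    refine ⟨h1, ?_⟩
    intro p hp
    rw [mem_Ico] at h1
    have h2 : p < 2 ^ 2 ^ JJ δ X := by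
      have h3 : p ∈ P1 w0 (JJ δ X) := P1_mono (JJ_mono hδ'δ X (by omega)) hp
      rw [mem_P1] at h3
      exact h3.1
    apply notMem_Ex U N p n (hPp p hp).1.pos (by omega)
    · intro u hu
      exact (hSR n hn).1 u hu p (hPp p hp).1 h2
    · intro u hu
      exact (hSR n hn).2 u hu p (hPp p hp).1 h2
  have h1 := (abs_le.1 hkey).2
  have h2 : (1 / 2 : ℝ) ^ C0 ≤ 1 := pow_le_one₀ (by norm_num) (by norm_num)
  have h3 : (1 / 2 : ℝ) ^ C0 * (X * ∏ p ∈ P, (1 - ((Ex U N p).card : ℝ) / p)) ≤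
      X * ∏ p ∈ P, (1 - ((Ex U N p).card : ℝ) / p) := by
    have : 0 ≤ X * ∏ p ∈ P, (1 - ((Ex U N p).card : ℝ) / p) :=
      mul_nonneg hX0.le (prod_nonneg hfac0)
    nlinarith
  have h4 : (X : ℝ) * ∏ p ∈ P, (1 - ((Ex U N p).card : ℝ) / p) ≤
      (K0 * C1) ^ (2 * L) * (X * FF δ X ^ (2 * L) * hh P U N) := by
    calc (X : ℝ) * ∏ p ∈ P, (1 - ((Ex U N p).card : ℝ) / p) ≤
        X * ((K0 * C1) ^ (2 * L) * FF δ X ^ (2 * L) * hh P U N) :=
          mul_le_mul_of_nonneg_left hprod2 hX0.le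
      _ = _ := by ring
  calc (S.card : ℝ) ≤ _ := hsub
    _ ≤ (2 * (K0 * C1) ^ (2 * L) + 1) * (X * FF δ X ^ (2 * L) * hh P U N) := by
        linarith
    _ ≤ _ := by
        apply mul_le_mul_of_nonneg_right (le_max_left _ _)
        positivity

end Pool.Agent.TH882.DD
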