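import Pool.Agent.TH882.WtE
import Pool.Agent.W67.HR.MT
import Pool.Agent.W70.HR.Asm

/-! The coloured Maynard-Tao theorem with the right order of magnitude and additional rough
positions. -/

set_option autoImplicit false

open Finset

namespace Pool.Agent.TH882.HE

open Pool.Agent.H361R2.PP
open Pool.Agent.W70.HR

theorem wte : S_WTE :=
  wte_of sm pt par Pool.Agent.H872R2.PPCol.col Pool.Agent.H872R2.PPCol.cob
    Pool.Agent.H433R2.PPMni.mni Pool.Agent.H325R2.wtx

open Classical in
/-- the `n` of the class `b` for which all positions of `U` are rough and a quarter of the classes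
contains a prime -/
noncomputable def HS (δ : ℝ) (X b : ℕ) {T K : ℕ} (H : Fin T → Fin K → ℕ) (U : Finset ℕ) :
    Finset ℕ :=
  (SI X b).filter (fun n => (∀ u ∈ U, rg (P1 (HH X) (JJ δ X)) u n = 1) ∧
    T ≤ 4 * ((univ : Finset (Fin T)).filter (fun g => ∃ i, (n + H g i).Prime)).card)

theorem mte (T : ℕ) (hT : 1 ≤ T) : ∃ K : ℕ, 1 ≤ K ∧ ∀ (Λ : ℝ) (M : ℕ), 0 < Λ →
    ∃ δ c : ℝ, 0 < δ ∧ δ ≤ 1 / 8 ∧ 0 < c ∧ ∃ X₀ : ℕ, ∀ X : ℕ, X₀ ≤ X → ∀ b : ℕ, b < Wm X →
    0 < VV δ X ∧ ∀ (H : Fin T → Fin K → ℕ) (U : Finset ℕ), (∀ g i, H g i ∈ U) →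
      Function.Injective (fun x : Fin T × Fin K => H x.1 x.2) → U ⊆ Bw Λ X b →
      U.card ≤ T * K + M → c * Om δ X U.card ≤ ((HS δ X b H U).card : ℝ) := by
  classical
  have hT0 : (0 : ℝ) < (T : ℝ) := by exact_mod_cast hT
  obtain ⟨K, hK, hW⟩ := wte T (16 * (T : ℝ)) (1 / (100 * (T : ℝ))) hT (by positivity)
    (by positivity)
  refine ⟨K, hK, ?_⟩
  intro Λ M hΛ
  obtain ⟨δ, hδ, hδ8, M₀, X₀, hM₀, hX⟩ := hW Λ M hΛ
  refine ⟨δ, 1 / (8 * (T : ℝ) * M₀), hδ, hδ8, by positivity, max X₀ 1, ?_⟩
  intro X hXX b hb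
  have hX1 : 1 ≤ X := le_trans (le_max_right _ _) hXX
  obtain ⟨hV, hB⟩ := hX X (le_trans (le_max_left _ _) hXX) b hb
  refine ⟨hV, ?_⟩
  intro H U hHU hinj hUs hUc
  have hWm := Pool.Agent.W67.HR.Wm_pos X b hb
  have hXpos : (0 : ℝ) < (X : ℝ) := by exact_mod_cast hX1
  set B : Finset ℕ := (univ : Finset (Fin T × Fin K)).image (fun x => H x.1 x.2) with hBdef
  have hBU : B ⊆ U := by
    intro a ha
    rw [hBdef, Finset.mem_image] at ha
    obtain ⟨x, _, rfl⟩ := ha
    exact hHU x.1 x.2
  have hBcard : B.card = T * K := by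
    rw [hBdef, Finset.card_image_of_injective _ hinj]
    simp
  have hmem : ∀ g i, H g i ∈ B := fun g i => by
    rw [hBdef, Finset.mem_image]
    exact ⟨(g, i), Finset.mem_univ _, rfl⟩
  obtain ⟨w, A, hw, hOm, hsum, h1, h2⟩ := hB B U hBU hUs hBcard hUc
  have hOmpos : 0 < Om δ X U.card := by
    unfold Om
    positivity
  have hA : 0 < A := lt_of_lt_of_le hOmpos hOm
  have hSP : ∀ a, SP X b a = (SI X b).filter (fun n => (n + a).Prime) := fun a => SP_eq
  have hcs := Pool.Agent.W168.HR.cs T K (SI X b) w (fun g i n => (n + H g i).Prime) A (16 * (T : ℝ))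
    (1 / (100 * (T : ℝ))) hT hK (fun n hn => (hw n hn).1) hA le_rfl (by positivity)
    (by
      rw [mul_one_div, div_self (by positivity)])
    hsum
    (by
      intro g i
      have := h1 (H g i) (hmem g i)
      rw [hSP] at this
      convert this using 4)
    (by
      intro g i j hij
      have hne : H g i ≠ H g j := by
        intro he
        have := @hinj (g, i) (g, j) he
        exact hij (Prod.ext_iff.mp this).2
      have := h2 (H g i) (hmem g i) (H g j) (hmem g j) hne
      rw [hSP, Finset.filter_filter] at this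
      convert this using 4)
  -- upper bound of the sum by the number of hits
  have hub : ∑ n ∈ (SI X b).filter (fun n =>
      T ≤ 4 * ((univ : Finset (Fin T)).filter (fun g => ∃ i, (n + H g i).Prime)).card), w n ≤
      M₀ * ((HS δ X b H U).card : ℝ) := by
    have e1 : ∑ n ∈ (SI X b).filter (fun n =>
        T ≤ 4 * ((univ : Finset (Fin T)).filter (fun g => ∃ i, (n + H g i).Prime)).card), w n ≤
        ∑ n ∈ (SI X b).filter (fun n =>
        T ≤ 4 * ((univ : Finset (Fin T)).filter (fun g => ∃ i, (n + H g i).Prime)).card),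
          (if (∀ u ∈ U, rg (P1 (HH X) (JJ δ X)) u n = 1) then M₀ else 0) := by
      apply Finset.sum_le_sum
      intro n hn
      have hnS := (Finset.mem_filter.mp hn).1
      have hwn := (hw n hnS).2
      split_ifs with hr
      · calc w n ≤ M₀ * rU δ X U n := hwn
          _ ≤ M₀ * 1 := mul_le_mul_of_nonneg_left (Pool.Agent.W67.HR.rU_le δ X U n) hM₀.le
          _ = M₀ := mul_one _
      · have : rU δ X U n = 0 := Pool.Agent.W67.HR.rU_zero _ _ _ _ hr
        rw [this, mul_zero] at hwn
        exact hwn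
    refine le_trans e1 ?_
    rw [← Finset.sum_filter, Finset.sum_const, nsmul_eq_mul, mul_comm]
    apply le_of_eq
    congr 2
    unfold HS
    rw [Finset.filter_filter]
    congr 1
    ext n
    simp only [Finset.mem_filter]
    tauto
  have hcs' : A / (8 * (T : ℝ)) ≤ M₀ * ((HS δ X b H U).card : ℝ) := by
    refine le_trans (le_of_le_of_eq hcs (Finset.sum_congr ?_ (fun _ _ => rfl))) hub
    ext n
    simp only [Finset.mem_filter]
    refine and_congr_right (fun _ => ?_)
    constructor
    · intro h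
      convert h using 3
      ext g
      simp only [Finset.mem_filter]
    · intro h
      convert h using 3
      ext g
      simp only [Finset.mem_filter]
  calc 1 / (8 * (T : ℝ) * M₀) * Om δ X U.card ≤ 1 / (8 * (T : ℝ) * M₀) * A :=
        mul_le_mul_of_nonneg_left hOm (by positivity)
    _ = A / (8 * (T : ℝ)) / M₀ := by field_simp
    _ ≤ _ := by
        rw [div_le_iff₀ hM₀]
        linarith

end Pool.Agent.TH882.HE
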