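import Pool.Agent.TH882.WM10

/-! Greedy sums with indices in a relatively dense set; k-th powers changed on a thin set. -/

set_option autoImplicit false

namespace Pool.Agent.TH882.WM

open MeasureTheory ProbabilityTheory Filter

/-- E meets every interval (x, x + L] in every class mod m. -/
def Dense (m L : ℕ) (E : Set ℕ) : Prop :=
  ∀ r, r < m → ∀ x, ∃ n ∈ E, n ≡ r [MOD m] ∧ x < n ∧ n ≤ x + L

lemma greedyE (k m L : ℕ) (hk : 2 ≤ k) (hL : 1 ≤ L) {E : Set ℕ} (hE : Dense m L E) :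
    ∀ j : ℕ, ∃ C : ℝ, 1 ≤ C ∧
    ∀ rg : ℕ → ℕ, (∀ l, rg l < m) → ∀ R : ℕ, j * L ^ k ≤ R →
      ∃ f : Fin j → ℕ, (∀ l, f l ∈ E ∧ 1 ≤ f l ∧ f l ≡ rg l [MOD m]) ∧
        (∑ l, f l ^ k) ≤ R ∧
        ((R : ℝ) - (∑ l, f l ^ k : ℕ)) ≤ C * (R : ℝ) ^ ((1 - 1 / (k : ℝ)) ^ j) := by
  classical
  intro j
  induction j with
  | zero =>
    refine ⟨1, le_rfl, fun rg hrg R hR => ⟨Fin.elim0, fun l => l.elim0, by simp, ?_⟩⟩
    simp
  | succ j ih =>
    obtain ⟨C, hC, ih⟩ := ih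
    set K0 := L ^ k with hK0
    set C1 : ℝ := k * L * (1 + L) ^ (k - 1) + j * K0 with hC1
    have hkr : (2 : ℝ) ≤ k := by exact_mod_cast hk
    have hLr : (1 : ℝ) ≤ L := by exact_mod_cast hL
    have hK0r : (1 : ℝ) ≤ (1 + L : ℝ) ^ (k - 1) := one_le_pow₀ (by linarith)
    have hC1' : 1 ≤ C1 := by
      rw [hC1]
      have e0 : (0 : ℝ) ≤ j * K0 := by positivity
      have e1 : (1 : ℝ) ≤ k * L := by nlinarith
      nlinarith
    refine ⟨C * C1, by nlinarith, fun rg hrg R hR => ?_⟩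
    have hR' : j * K0 + K0 ≤ R := by
      have : (j + 1) * K0 = j * K0 + K0 := by ring
      omega
    set r := R - j * K0 with hr
    have hrK : K0 ≤ r := by omega
    obtain ⟨n1, hn1E, hn1m, hn1a, hn1b⟩ := hE (rg 0) (hrg 0) 0
    have hn1r : n1 ^ k ≤ r := le_trans (Nat.pow_le_pow_left (by omega) _) hrK
    have hn1r' : n1 ≤ r := le_trans (Nat.le_self_pow (by omega) _) hn1r
    set Pn : ℕ → Prop := fun t => t ∈ E ∧ t ≡ rg 0 [MOD m] ∧ t ^ k ≤ r with hPn
    have hP1 : Pn n1 := ⟨hn1E, hn1m, hn1r⟩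
    set n := Nat.findGreatest Pn r with hn
    have hn1n : n1 ≤ n := Nat.le_findGreatest hn1r' hP1
    have hspec : Pn n := Nat.findGreatest_spec (P := Pn) hn1r' hP1
    obtain ⟨hnE, hnm, hnr⟩ := hspec
    have hn0 : 1 ≤ n := by omega
    obtain ⟨n', hn'E, hn'm, hn'a, hn'b⟩ := hE (rg 0) (hrg 0) n
    have ht3 : r < (n + L) ^ k := by
      have h1 : r < n' ^ k := by
        by_contra hcon
        push Not at hcon
        have h2 : n' ≤ r := le_trans (Nat.le_self_pow (by omega) _) hcon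
        exact Nat.findGreatest_is_greatest (P := Pn) (n := r) (k := n') hn'a h2 ⟨hn'E, hn'm, hcon⟩
      exact h1.trans_le (Nat.pow_le_pow_left hn'b _)
    set X := n ^ k with hX
    have hXr : X ≤ r := hnr
    have hR1 : j * K0 ≤ R - X := by omega
    obtain ⟨f', hf1, hf2, hf3⟩ := ih (fun l => rg (l + 1)) (fun l => hrg _) (R - X) hR1
    refine ⟨Fin.cons n f', ?_, ?_, ?_⟩
    · intro l
      refine Fin.cases ?_ ?_ l
      · simp only [Fin.cons_zero, Fin.val_zero]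
        exact ⟨hnE, hn0, hnm⟩
      · intro l
        simp only [Fin.cons_succ, Fin.val_succ]
        exact hf1 l
    · rw [Fin.sum_univ_succ]
      simp only [Fin.cons_zero, Fin.cons_succ]
      omega
    · rw [Fin.sum_univ_succ]
      simp only [Fin.cons_zero, Fin.cons_succ]
      have hXR : X ≤ R := by omega
      have e1 : ((R - X : ℕ) : ℝ) = (R : ℝ) - X := by
        rw [Nat.cast_sub hXR]
      rw [e1] at hf3
      have hg0 : (0 : ℝ) ≤ 1 - 1 / (k : ℝ) := by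
        rw [sub_nonneg, div_le_one (by linarith)]
        linarith
      have hg1 : 1 - 1 / (k : ℝ) ≤ 1 := by
        have : 0 ≤ 1 / (k : ℝ) := by positivity
        linarith
      have hRpos : (1 : ℝ) ≤ R := by
        have : 1 ≤ R := by omega
        exact_mod_cast this
      -- the remainder after one step
      have hrem : (R : ℝ) - X ≤ C1 * (R : ℝ) ^ (1 - 1 / (k : ℝ)) := by
        obtain ⟨k', rfl⟩ : ∃ k', k = k' + 1 := ⟨k - 1, by omega⟩
        have h1 := pow_add_le n L k'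
        have h3 : n + L ≤ (1 + L) * n := by
          have e3 : (1 + L) * n = n + L * n := by ring
          have e4 : L * 1 ≤ L * n := Nat.mul_le_mul_left _ hn0
          omega
        have h4 : (n + L) ^ k' ≤ (1 + L) ^ k' * n ^ k' := by
          rw [← mul_pow]
          exact Nat.pow_le_pow_left h3 _
        have h5 : R ≤ X + ((k' + 1) * L * ((1 + L) ^ k' * n ^ k') + j * K0) := by
          have h6 : (k' + 1) * L * (n + L) ^ k' ≤
              (k' + 1) * L * ((1 + L) ^ k' * n ^ k') := Nat.mul_le_mul_left _ h4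
          omega
        have h7 : (R : ℝ) ≤ X + ((k' + 1) * L * ((1 + L) ^ k' * n ^ k') + j * K0) := by
          exact_mod_cast h5
        have h8 : ((n : ℝ)) ^ k' ≤ (R : ℝ) ^ (1 - 1 / ((k' + 1 : ℕ) : ℝ)) := by
          have h9 : ((n : ℝ)) ^ (k' + 1) ≤ R := by
            have : n ^ (k' + 1) ≤ R := by omega
            exact_mod_cast this
          have h10 : ((n : ℝ)) ^ k' = (((n : ℝ)) ^ (k' + 1)) ^ (1 - 1 / ((k' + 1 : ℕ) : ℝ)) := by
            rw [← Real.rpow_natCast, ← Real.rpow_natCast, ← Real.rpow_mul (by positivity)]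
            congr 1
            push_cast
            field_simp
            ring
          rw [h10]
          exact Real.rpow_le_rpow (by positivity) h9 hg0
        have h11 : (1 : ℝ) ≤ (R : ℝ) ^ (1 - 1 / ((k' + 1 : ℕ) : ℝ)) := Real.one_le_rpow hRpos hg0
        have h12 : (0 : ℝ) ≤ (k' + 1) * L * (1 + L) ^ k' := by positivity
        have h13 : (0 : ℝ) ≤ j * K0 := by positivity
        rw [hC1]
        simp only [Nat.add_sub_cancel]
        push_cast at h11 h8 ⊢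
        push_cast at h13
        calc (R : ℝ) - X ≤ (k' + 1) * L * ((1 + L) ^ k' * n ^ k') + j * K0 := by linarith
          _ = ((k' + 1) * L * (1 + L) ^ k') * n ^ k' + j * K0 := by ring
          _ ≤ ((k' + 1) * L * (1 + L) ^ k') * (R : ℝ) ^ (1 - 1 / ((k' : ℝ) + 1)) +
              (j * K0) * (R : ℝ) ^ (1 - 1 / ((k' : ℝ) + 1)) := by
              refine add_le_add (mul_le_mul_of_nonneg_left h8 h12) ?_
              exact le_mul_of_one_le_right (by positivity) h11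
          _ = _ := by rw [hK0]; push_cast; ring
      have hnn : (0 : ℝ) ≤ (R : ℝ) - X := by
        have : (X : ℝ) ≤ R := by exact_mod_cast hXR
        linarith
      have hgj0 : (0 : ℝ) ≤ (1 - 1 / (k : ℝ)) ^ j := pow_nonneg hg0 j
      have hgj1 : (1 - 1 / (k : ℝ)) ^ j ≤ 1 := pow_le_one₀ hg0 hg1
      have h14 : ((R : ℝ) - X) ^ ((1 - 1 / (k : ℝ)) ^ j) ≤ C1 * (R : ℝ) ^ ((1 - 1 / (k : ℝ)) ^ (j + 1)) := by
        calc ((R : ℝ) - X) ^ ((1 - 1 / (k : ℝ)) ^ j)
            ≤ (C1 * (R : ℝ) ^ (1 - 1 / (k : ℝ))) ^ ((1 - 1 / (k : ℝ)) ^ j) :=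
              Real.rpow_le_rpow hnn hrem hgj0
          _ = C1 ^ ((1 - 1 / (k : ℝ)) ^ j) * (R : ℝ) ^ ((1 - 1 / (k : ℝ)) * (1 - 1 / (k : ℝ)) ^ j) := by
              rw [Real.mul_rpow (by linarith) (by positivity), ← Real.rpow_mul (by positivity)]
          _ ≤ C1 * (R : ℝ) ^ ((1 - 1 / (k : ℝ)) ^ (j + 1)) := by
              rw [pow_succ, mul_comm ((1 - 1 / (k : ℝ)) ^ j)]
              refine mul_le_mul_of_nonneg_right ?_ (by positivity)
              calc C1 ^ ((1 - 1 / (k : ℝ)) ^ j) ≤ C1 ^ (1 : ℝ) :=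
                    Real.rpow_le_rpow_of_exponent_le hC1' hgj1
                _ = C1 := Real.rpow_one _
      have hC0 : 0 ≤ C := by linarith
      push_cast at hf3 ⊢
      have hXX : (X : ℝ) = (n : ℝ) ^ k := by rw [hX]; push_cast; rfl
      rw [hXX] at hf3 h14
      calc (R : ℝ) - ((n : ℝ) ^ k + ∑ l, (f' l : ℝ) ^ k)
            = (R : ℝ) - (n : ℝ) ^ k - ∑ l, (f' l : ℝ) ^ k := by ring
        _ ≤ C * ((R : ℝ) - (n : ℝ) ^ k) ^ ((1 - 1 / (k : ℝ)) ^ j) := hf3
        _ ≤ C * (C1 * (R : ℝ) ^ ((1 - 1 / (k : ℝ)) ^ (j + 1))) := mul_le_mul_of_nonneg_left h14 hC0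
        _ = C * C1 * (R : ℝ) ^ ((1 - 1 / (k : ℝ)) ^ (j + 1)) := by ring

/-- the theorem for perturbations supported on Q, for one number of summands. -/
theorem thin_one {k m j a : ℕ} (hk : 2 ≤ k) (hm1 : 1 ≤ m) {θ η : ℝ} (hθ : θ ≤ k - 1) (hη : 0 < η)
    (h1 : (k : ℝ) * (1 - 1 / (k : ℝ)) ^ j < θ) (h2 : (k : ℝ) * (1 - 1 / (k : ℝ)) ^ j < η * a)
    {L : ℕ} {Q : Set ℕ} (hL : 1 ≤ L) (hQ : Rich m η Q) (hE : Dense m L Qᶜ) :
    ∀ᵐ u ∂(pert θ), ∀ᶠ N in atTop, (Rep k m (j + a) (Q.indicator u) N ↔ Loc k m (j + a) N) := by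
  have hkr : (2 : ℝ) ≤ k := by exact_mod_cast hk
  have hbase : (0 : ℝ) < 1 - 1 / (k : ℝ) := by
    rw [sub_pos, div_lt_one (by linarith)]
    linarith
  have hbase1 : 1 - 1 / (k : ℝ) ≤ 1 := by
    have : 0 ≤ 1 / (k : ℝ) := by positivity
    linarith
  have hg0 : 0 < (1 - 1 / (k : ℝ)) ^ j := pow_pos hbase j
  have hg1 : (1 - 1 / (k : ℝ)) ^ j ≤ 1 := pow_le_one₀ hbase.le hbase1
  have hind : iIndepFun (fun (n : ℕ) (u : ℕ → ℕ) => u n) (pert θ) :=
    iIndepFun_infinitePi (P := law θ) (X := fun _ x => x) (fun _ => measurable_id)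
  obtain ⟨C, hC, hgr⟩ := greedyE k m L hk hL hE j
  have key : ∀ (rg : Fin j → Fin m) (rb : Fin a → Fin m), ∀ᵐ u ∂(pert θ), ∀ᶠ N in atTop,
      N ≡ ∑ l, (rg l : ℕ) ^ k + ∑ l, (rb l : ℕ) ^ k [MOD m] →
        Rep k m (j + a) (Q.indicator u) N := by
    intro rg rb
    set rg' : ℕ → ℕ := fun l => if h : l < j then (rg ⟨l, h⟩ : ℕ) else 0 with hrg'
    set rb' : ℕ → ℕ := fun l => if h : l < a then (rb ⟨l, h⟩ : ℕ) else 0 with hrb'
    have hrg'm : ∀ l, rg' l < m := by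
      intro l
      simp only [hrg']
      split_ifs
      · exact (rg _).2
      · exact hm1
    have hrb'm : ∀ l, rb' l < m := by
      intro l
      simp only [hrb']
      split_ifs
      · exact (rb _).2
      · exact hm1
    have h3 := mainC hind (fun n => measurable_pi_apply n) hk hm1 hθ hg0 hg1 h1 hη h2 (unif_pert θ)
      (Bs := {h | ∃ x : Fin j → ℕ, (∀ l, x l ∈ Qᶜ ∧ 1 ≤ x l) ∧ h = ∑ l, x l ^ k}) (Q := Q)
      (ρ0 := ∑ l, (rg l : ℕ) ^ k) (Z := j * L ^ k) hQ hC (by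
        intro R hR
        obtain ⟨f, hf1, hf2, hf3⟩ := hgr rg' hrg'm R hR
        refine ⟨∑ l, f l ^ k, ⟨f, fun l => ⟨(hf1 l).1, (hf1 l).2.1⟩, rfl⟩, hf2, ?_, hf3⟩
        apply Nat.ModEq.sum
        intro l _
        apply Nat.ModEq.pow
        have h4 := (hf1 l).2.2
        simp only [hrg', Fin.is_lt, dif_pos] at h4
        exact h4) rb' hrb'm
    have e1 : ∑ l ∈ Finset.range a, rb' l ^ k = ∑ l, (rb l : ℕ) ^ k := by
      rw [Finset.sum_range]
      refine Finset.sum_congr rfl fun l _ => ?_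
      simp [hrb']
    rw [e1] at h3
    filter_upwards [h3] with u hu
    filter_upwards [hu] with N hN hNm
    obtain ⟨b, ⟨x, hx, rfl⟩, y, hy, rfl⟩ := hN hNm
    refine ⟨Fin.append x y, ?_, ?_⟩
    · intro l
      refine Fin.addCases (fun i => ?_) (fun i => ?_) l
      · rw [Fin.append_left]
        exact (hx i).2
      · rw [Fin.append_right]
        exact (hy i).2
    · rw [Fin.sum_univ_add]
      simp only [Fin.append_left, Fin.append_right]
      congr 1
      · refine Finset.sum_congr rfl fun l _ => ?_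
        rw [Set.indicator_of_notMem (hx l).1, mul_zero, add_zero]
      · refine Finset.sum_congr rfl fun l _ => ?_
        rw [Set.indicator_of_mem (hy l).1]
  have key' : ∀ᵐ u ∂(pert θ), ∀ (rg : Fin j → Fin m) (rb : Fin a → Fin m), ∀ᶠ N in atTop,
      N ≡ ∑ l, (rg l : ℕ) ^ k + ∑ l, (rb l : ℕ) ^ k [MOD m] →
        Rep k m (j + a) (Q.indicator u) N := by
    rw [ae_all_iff]
    intro rg
    rw [ae_all_iff]
    intro rb
    exact key rg rb
  filter_upwards [key'] with u hu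
  have h4 : ∀ᶠ N in atTop, ∀ (rg : Fin j → Fin m) (rb : Fin a → Fin m),
      N ≡ ∑ l, (rg l : ℕ) ^ k + ∑ l, (rb l : ℕ) ^ k [MOD m] →
        Rep k m (j + a) (Q.indicator u) N := by
    rw [eventually_all]
    intro rg
    rw [eventually_all]
    intro rb
    exact hu rg rb
  filter_upwards [h4] with N hN
  refine ⟨loc_of_rep, ?_⟩
  rintro ⟨r, hr⟩
  refine hN (fun l => ⟨r (Fin.castAdd a l) % m, Nat.mod_lt _ hm1⟩)
    (fun l => ⟨r (Fin.natAdd j l) % m, Nat.mod_lt _ hm1⟩) ?_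
  refine hr.trans ?_
  rw [Fin.sum_univ_add]
  apply Nat.ModEq.add
  · apply Nat.ModEq.sum
    intro l _
    exact ((Nat.mod_modEq _ _).pow k).symm
  · apply Nat.ModEq.sum
    intro l _
    exact ((Nat.mod_modEq _ _).pow k).symm

/-- the theorem for perturbations supported on Q, for all numbers of summands at once. -/
theorem thin_all {k m j a : ℕ} (hk : 2 ≤ k) (hm1 : 1 ≤ m) {θ η : ℝ} (hθ : θ ≤ k - 1) (hη : 0 < η)
    (h1 : (k : ℝ) * (1 - 1 / (k : ℝ)) ^ j < θ) (h2 : (k : ℝ) * (1 - 1 / (k : ℝ)) ^ j < η * a)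
    {L : ℕ} {Q : Set ℕ} (hL : 1 ≤ L) (hQ : Rich m η Q) (hE : Dense m L Qᶜ) :
    ∀ᵐ u ∂(pert θ), ∀ s, j + a ≤ s →
      ∀ᶠ N in atTop, (Rep k m s (Q.indicator u) N ↔ Loc k m s N) := by
  rw [ae_all_iff]
  intro s
  by_cases hs : j + a ≤ s
  · have hkr : (2 : ℝ) ≤ k := by exact_mod_cast hk
    have hbase : (0 : ℝ) ≤ 1 - 1 / (k : ℝ) := by
      rw [sub_nonneg, div_le_one (by linarith)]
      linarith
    have hbase1 : 1 - 1 / (k : ℝ) ≤ 1 := by
      have : 0 ≤ 1 / (k : ℝ) := by positivity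
      linarith
    have hle : (k : ℝ) * (1 - 1 / (k : ℝ)) ^ (s - a) ≤ k * (1 - 1 / (k : ℝ)) ^ j :=
      mul_le_mul_of_nonneg_left (pow_le_pow_of_le_one hbase hbase1 (by omega)) (by positivity)
    have h3 := thin_one (j := s - a) (a := a) hk hm1 hθ hη (hle.trans_lt h1) (hle.trans_lt h2) hL hQ hE
    have e1 : s - a + a = s := by omega
    rw [e1] at h3
    filter_upwards [h3] with u hu _
    exact hu
  · exact Eventually.of_forall fun u h => absurd h hs

end Pool.Agent.TH882.WM
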