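import Pool.Agent.TH882.J4

/-! Primes with several close neighbours in the same residue class: all but few reduced classes. -/

set_option autoImplicit false

open Finset

namespace Pool.Agent.TH882.JS

open Pool.Agent.H361R2.PP
open Pool.Agent.W70.HR
open Pool.Agent.TH882.UB (ev_pow)

open Classical in
/-- the number of the other primes at distance at most `N` from `p` in the class of `p` modulo `q` -/
noncomputable def nbq (q N p : ℕ) : ℕ :=
  ((Icc (p - N) (p + N)).filter (fun r => r.Prime ∧ r ≠ p ∧ r % q = p % q)).card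

open Classical in
/-- the primes of a class with at least `m` close neighbours in the same class modulo `q` -/
noncomputable def KQ (q m : ℕ) (ε : ℝ) (X b : ℕ) : Finset ℕ :=
  (SI X b).filter (fun p => p.Prime ∧ m ≤ nbq q ⌊ε * Real.log X⌋₊ p)

theorem dens_Q (q m : ℕ) (hq : 1 ≤ q) (ε η : ℝ) (hε : 0 < ε) (hη : 0 < η) : ∃ c : ℝ, 0 < c ∧ ∃ X₀ : ℕ,
    ∀ X : ℕ, X₀ ≤ X → ∀ C ⊆ Rd X, η * Nat.totient (Wm X) ≤ (C.card : ℝ) →
    c * ((X : ℝ) / Real.log X) ≤ ∑ b ∈ C, ((KQ q m ε X b).card : ℝ) := by
  classical
  have hq0 : (0 : ℝ) < q := by exact_mod_cast hq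
  obtain ⟨c1, hc1, X1, h1⟩ := one_class m ε (η * ε / (4 * q)) hε (by positivity)
  obtain ⟨X2, h2⟩ := Pool.Agent.H363R2.PPCnt.cnt 1 ε ε one_pos hε hε
  obtain ⟨X3, h3⟩ := ev_pow 1 (16 * ε / (η * c1)) (by norm_num) 1
  have hlogt : Filter.Tendsto (fun X : ℕ => Real.log (X : ℝ)) Filter.atTop Filter.atTop :=
    Real.tendsto_log_atTop.comp tendsto_natCast_atTop_atTop
  obtain ⟨X4, h4⟩ := Filter.eventually_atTop.1 (hlogt.eventually_ge_atTop (2 / ε))
  refine ⟨η * c1 / (16 * ε), by positivity, max (max X1 X2) (max X3 (max X4 16)), ?_⟩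
  intro X hX C hC hCc
  have hX1 : X1 ≤ X := by omega
  have hX2 : X2 ≤ X := by omega
  have hX3 : X3 ≤ X := by omega
  have hX4 : X4 ≤ X := by omega
  have hX16 : 16 ≤ X := by omega
  have hXr : (16 : ℝ) ≤ X := by exact_mod_cast hX16
  have hX0 : (0 : ℝ) < X := by linarith
  set L := Real.log X with hLd
  have hL : 0 < L := Real.log_pos (by linarith)
  have hL2 : 2 ≤ ε * L := by
    have := h4 X hX4
    rw [div_le_iff₀ hε] at this
    linarith
  have hWp := Wm_pos X
  have hW0 : (0 : ℝ) < Wm X := by exact_mod_cast hWp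
  set φ : ℝ := (Nat.totient (Wm X) : ℝ) with hφ
  have hφ0 : 0 < φ := by
    rw [hφ]
    exact_mod_cast Nat.totient_pos.2 hWp
  set N := ⌊ε * L⌋₊ with hN
  have hNle : (N : ℝ) ≤ ε * L := Nat.floor_le (by positivity)
  have hNlt : ε * L < N + 1 := Nat.lt_floor_add_one _
  have hNN : ⌊ε * Real.log (X : ℝ)⌋₊ = N := rfl
  have hNp : 1 ≤ N := by
    have : (1 : ℝ) < N + 1 := by linarith
    have : (0 : ℝ) < N := by linarith
    exact_mod_cast this
  have hCR : C ⊆ range (Wm X) := hC.trans (filter_subset _ _)
  set Bg := (range (Wm X)).filter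
    (fun b => η * ε / 4 * (L * (φ / Wm X)) ≤ ((VC ε X b C).card : ℝ)) with hBg
  have hup : ∀ b, ((VC ε X b C).card : ℝ) ≤ 2 * (ε * L * (φ / Wm X)) := by
    intro b
    have e1 : ((VC ε X b C).card : ℝ) ≤ ((Bw ε X b).card : ℝ) := by
      exact_mod_cast card_le_card (filter_subset _ _)
    refine e1.trans ?_
    have h5 := h2 X hX2 b 0 (ε * L) le_rfl (by rw [zero_add]) le_rfl
    rw [sub_zero, one_mul] at h5
    have h6 : (BB X b ⌊ε * Real.log X⌋₊).filter
        (fun a : ℕ => (0 : ℝ) < a ∧ (a : ℝ) ≤ ε * L) = BB X b ⌊ε * Real.log X⌋₊ := by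
      apply filter_true_of_mem
      intro a ha
      rw [mem_BB] at ha
      refine ⟨by exact_mod_cast ha.1, ?_⟩
      exact (Nat.le_floor_iff (by positivity)).1 ha.2.1
    rw [h6] at h5
    unfold Bw
    linarith [(abs_le.1 h5).2]
  have hsum := sum_VC ε X C hC
  have hBgc : η / 8 * Wm X ≤ (Bg.card : ℝ) := by
    have e1 : (N : ℝ) * C.card = ∑ b ∈ range (Wm X), ((VC ε X b C).card : ℝ) := by
      exact_mod_cast hsum.symm
    have e2 : ε * L / 2 * (η * φ) ≤ (N : ℝ) * C.card :=
      mul_le_mul (by linarith) hCc (by positivity) (Nat.cast_nonneg _)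
    have e3 : ∑ b ∈ range (Wm X), ((VC ε X b C).card : ℝ) ≤
        (Bg.card : ℝ) * (2 * (ε * L * (φ / Wm X))) + Wm X * (η * ε / 4 * (L * (φ / Wm X))) := by
      rw [← sum_filter_add_sum_filter_not (range (Wm X))
        (fun b => η * ε / 4 * (L * (φ / Wm X)) ≤ ((VC ε X b C).card : ℝ))]
      apply add_le_add
      · rw [← nsmul_eq_mul, ← sum_const]
        exact sum_le_sum fun b _ => hup b
      · calc ∑ b ∈ (range (Wm X)).filter
              (fun b => ¬ η * ε / 4 * (L * (φ / Wm X)) ≤ ((VC ε X b C).card : ℝ)),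
              ((VC ε X b C).card : ℝ) ≤ ∑ _b ∈ (range (Wm X)).filter
              (fun b => ¬ η * ε / 4 * (L * (φ / Wm X)) ≤ ((VC ε X b C).card : ℝ)),
              (η * ε / 4 * (L * (φ / Wm X))) := by
                apply sum_le_sum
                intro b hb
                rw [mem_filter] at hb
                push Not at hb
                exact hb.2.le
          _ ≤ _ := by
                rw [sum_const, nsmul_eq_mul]
                apply mul_le_mul_of_nonneg_right _ (by positivity)
                have : ((range (Wm X)).filter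
                  (fun b => ¬ η * ε / 4 * (L * (φ / Wm X)) ≤ ((VC ε X b C).card : ℝ))).card ≤ Wm X := by
                  refine (card_filter_le _ _).trans ?_
                  rw [card_range]
                exact_mod_cast this
    have e4 : (Wm X : ℝ) * (η * ε / 4 * (L * (φ / Wm X))) = η * ε / 4 * L * φ := by
      field_simp
    have e5 : η * ε / 4 * L * φ ≤ (Bg.card : ℝ) * (2 * (ε * L * (φ / Wm X))) := by
      rw [e4] at e3
      have e6 : ε * L / 2 * (η * φ) = 2 * (η * ε / 4 * L * φ) := by ring
      linarith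
    have e6 : η * ε / 4 * L * φ = (η / 8 * Wm X) * (2 * (ε * L * (φ / Wm X))) := by
      field_simp
      ring
    rw [e6] at e5
    exact le_of_mul_le_mul_right e5 (by positivity)
  -- a class modulo `q` with many shifts
  have hcl : ∀ b : ℕ, ∃ a0 : ℕ, ((VC ε X b C).card : ℝ) / q ≤
      (((VC ε X b C).filter (fun a => a % q = a0)).card : ℝ) := by
    intro b
    by_contra hcon
    push Not at hcon
    have e1 : (VC ε X b C).card = ∑ a0 ∈ range q,
        ((VC ε X b C).filter (fun a => a % q = a0)).card := by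
      rw [← card_eq_sum_card_fiberwise (f := fun a => a % q)]
      intro a _
      exact mem_coe.2 (mem_range.2 (Nat.mod_lt _ hq))
    have e2 : ((VC ε X b C).card : ℝ) = ∑ a0 ∈ range q,
        (((VC ε X b C).filter (fun a => a % q = a0)).card : ℝ) := by exact_mod_cast e1
    have e3 : ∑ a0 ∈ range q, (((VC ε X b C).filter (fun a => a % q = a0)).card : ℝ) <
        ∑ _a0 ∈ range q, ((VC ε X b C).card : ℝ) / q :=
      sum_lt_sum_of_nonempty ⟨0, mem_range.2 hq⟩ fun a0 _ => hcon a0
    rw [sum_const, card_range, nsmul_eq_mul, mul_div_cancel₀ _ hq0.ne'] at e3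
    linarith
  choose a0 ha0 using hcl
  set Vb : ℕ → Finset ℕ := fun b => (VC ε X b C).filter (fun a => a % q = a0 b) with hVb
  set Gb : ℕ → Finset ℕ := fun b =>
    (SI X b).filter (fun n => m + 1 ≤ ((Vb b).filter (fun a => (n + a).Prime)).card) with hGb
  set S := Bg.biUnion Gb with hS
  have hScard : η / 8 * c1 * X ≤ (S.card : ℝ) := by
    have e1 : S.card = ∑ b ∈ Bg, (Gb b).card := by
      rw [hS]
      apply card_biUnion
      intro b hb b' hb' hne
      change Disjoint _ _
      rw [Finset.disjoint_left]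
      intro n hn hn'
      rw [hGb] at hn hn'
      simp only [mem_filter] at hn hn'
      apply hne
      rw [← (mem_SI.1 hn.1).2.2, ← (mem_SI.1 hn'.1).2.2]
    rw [e1]
    push_cast
    calc η / 8 * c1 * X = (η / 8 * Wm X) * (c1 * (X / Wm X)) := by field_simp
      _ ≤ (Bg.card : ℝ) * (c1 * (X / Wm X)) := mul_le_mul_of_nonneg_right hBgc (by positivity)
      _ = ∑ _b ∈ Bg, (c1 * ((X : ℝ) / Wm X)) := by rw [sum_const, nsmul_eq_mul]
      _ ≤ _ := by
          apply sum_le_sum
          intro b hb
          rw [hBg, mem_filter, mem_range] at hb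
          refine h1 X hX1 b hb.1 (Vb b) ((filter_subset _ _).trans (filter_subset _ _)) ?_
          refine le_trans ?_ (ha0 b)
          rw [le_div_iff₀ hq0]
          refine le_trans (le_of_eq ?_) hb.2
          have e8 : η * ε / (4 * (q : ℝ)) = η * ε / 4 / q := by rw [div_div]
          rw [e8]
          calc η * ε / 4 / q * (L * (φ / Wm X)) * q = η * ε / 4 * (L * (φ / Wm X)) * (q / q) := by
                ring
            _ = _ := by rw [div_self hq0.ne', mul_one]
  -- the prime attached to a point
  have hch : ∀ n : ℕ, ∃ a : ℕ, n ∈ S → (1 ≤ a ∧ a ≤ N ∧ (n + a).Prime ∧ (n + a) % Wm X ∈ C ∧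
      m ≤ nbq q N (n + a)) := by
    intro n
    by_cases hn : n ∈ S
    · rw [hS, mem_biUnion] at hn
      obtain ⟨b, hb, hn⟩ := hn
      rw [hGb] at hn
      simp only [mem_filter] at hn
      obtain ⟨hnS, hnT⟩ := hn
      have hne : ((Vb b).filter (fun a => (n + a).Prime)).Nonempty := by
        rw [← card_pos]
        omega
      obtain ⟨a, ha⟩ := hne
      refine ⟨a, fun _ => ?_⟩
      have ha' : (a ∈ VC ε X b C ∧ a % q = a0 b) ∧ (n + a).Prime := by
        rw [hVb] at ha
        simp only [mem_filter] at ha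
        exact ha
      have haq := ha'.1.2
      have ha' : a ∈ VC ε X b C ∧ (n + a).Prime := ⟨ha'.1.1, ha'.2⟩
      have ha3 := ha'
      unfold VC Bw at ha'
      rw [mem_filter, mem_BB] at ha'
      have hnb := (mem_SI.1 hnS).2.2
      refine ⟨ha'.1.1.1, ha'.1.1.2.1, ha'.2, ?_, ?_⟩
      · have e1 : (n + a) % Wm X = (b + a) % Wm X := by
          have : n ≡ b [MOD Wm X] := by
            rw [hBg, mem_filter, mem_range] at hb
            rw [Nat.ModEq, hnb, Nat.mod_eq_of_lt hb.1]
          exact this.add_right a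
        rw [e1]
        exact ha'.1.2
      · unfold nbq
        have e2 : m ≤ (((Vb b).filter (fun a => (n + a).Prime)).erase a).card := by
          rw [card_erase_of_mem ha]
          omega
        refine e2.trans ?_
        apply card_le_card_of_injOn (fun a' => n + a')
        · intro a' ha'
          rw [mem_coe, mem_erase, mem_filter, hVb] at ha'
          simp only [mem_filter] at ha'
          have h9 := ha'.2.1.1
          have h9q := ha'.2.1.2
          unfold VC Bw at h9
          rw [mem_filter, mem_BB] at h9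
          rw [mem_coe]
          change n + a' ∈ _
          unfold VC Bw at ha3
          rw [mem_filter, mem_BB, hNN] at ha3
          rw [hNN] at h9
          rw [mem_filter, mem_Icc]
          refine ⟨⟨?_, ?_⟩, ha'.2.2, ?_, ?_⟩
          · omega
          · omega
          · intro h
            apply ha'.1
            omega
          · rw [Nat.add_mod, h9q, ← haq, ← Nat.add_mod]
        · intro x _ y _ h
          simp only at h
          omega
    · exact ⟨0, fun h => absurd h hn⟩
  choose f hf using hch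
  set P := C.biUnion (fun b => KQ q m ε X b) with hP
  have hPc : (P.card : ℝ) ≤ ∑ b ∈ C, ((KQ q m ε X b).card : ℝ) := by
    exact_mod_cast card_biUnion_le
  set S' := S.filter (fun n => n + N < 2 * X) with hS'
  have hSr : ∀ n ∈ S, X ≤ n ∧ n < 2 * X := by
    intro n hn
    rw [hS, mem_biUnion] at hn
    obtain ⟨b, hb, hn⟩ := hn
    rw [hGb] at hn
    simp only [mem_filter] at hn
    have := mem_SI.1 hn.1
    exact ⟨this.1, this.2.1⟩
  have hS'c : S.card ≤ S'.card + N := by
    have e1 : S'.card + (S.filter (fun n => ¬ n + N < 2 * X)).card = S.card :=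
      card_filter_add_card_filter_not _
    have e2 : (S.filter (fun n => ¬ n + N < 2 * X)).card ≤ N := by
      calc _ ≤ (Ico (2 * X - N) (2 * X)).card := by
            apply card_le_card
            intro n hn
            rw [mem_filter] at hn
            have := hSr n hn.1
            rw [mem_Ico]
            omega
        _ ≤ N := by
            rw [Nat.card_Ico]
            omega
    omega
  have hS'P : S'.card ≤ N * P.card := by
    have e1 : S'.card ≤ N * (S'.image (fun n => n + f n)).card := by
      apply card_le_mul_card_image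
      intro p hp
      calc (S'.filter (fun n => n + f n = p)).card ≤ (Ico (p - N) p).card := by
            apply card_le_card
            intro n hn
            rw [mem_filter, hS', mem_filter] at hn
            have := hf n hn.1.1
            rw [mem_Ico]
            omega
        _ ≤ N := by
            rw [Nat.card_Ico]
            omega
    refine e1.trans (Nat.mul_le_mul_left _ (card_le_card ?_))
    intro p hp
    rw [mem_image] at hp
    obtain ⟨n, hn, rfl⟩ := hp
    rw [hS', mem_filter] at hn
    have h9 := hf n hn.1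
    have h10 := hSr n hn.1
    rw [hP, mem_biUnion]
    refine ⟨(n + f n) % Wm X, h9.2.2.2.1, ?_⟩
    unfold KQ
    rw [mem_filter, mem_SI]
    exact ⟨⟨by omega, by omega, rfl⟩, h9.2.2.1, h9.2.2.2.2⟩
  have hfin : (S.card : ℝ) ≤ N * (P.card + 1) := by
    have : S.card ≤ N * (P.card + 1) := by
      rw [mul_add, mul_one]
      omega
    exact_mod_cast this
  have hPn : (0 : ℝ) ≤ (P.card : ℝ) + 1 := by
    have : (0 : ℝ) ≤ (P.card : ℝ) := Nat.cast_nonneg _
    linarith
  have e1 : η / 8 * c1 * X ≤ ε * L * (P.card + 1) := by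
    refine hScard.trans (hfin.trans ?_)
    exact mul_le_mul_of_nonneg_right hNle hPn
  have e2 : 2 * (η * c1 / (16 * ε) * (X / L)) ≤ P.card + 1 := by
    have e3 : 2 * (η * c1 / (16 * ε) * (X / L)) = (η / 8 * c1 * X) / (ε * L) := by
      field_simp
      ring
    rw [e3, div_le_iff₀ (by positivity)]
    linarith
  have e3 : 1 ≤ η * c1 / (16 * ε) * (X / L) := by
    have e4 := h3 X hX3
    rw [Real.rpow_one, pow_one] at e4
    have e5 : η * c1 / (16 * ε) * (X / L) = X / (16 * ε / (η * c1) * L) := by
      field_simp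
    rw [e5, one_le_div (by positivity)]
    exact e4
  linarith

/-- all but few reduced classes contain many such primes -/
theorem most_classesQ (q m : ℕ) (hq : 1 ≤ q) (ε η : ℝ) (hε : 0 < ε) (hη : 0 < η) : ∃ c : ℝ, 0 < c ∧ ∃ X₀ : ℕ,
    ∀ X : ℕ, X₀ ≤ X → (((Rd X).filter (fun b =>
      ((KQ q m ε X b).card : ℝ) < c * (X / (Nat.totient (Wm X) * Real.log X)))).card : ℝ) ≤
      η * Nat.totient (Wm X) := by
  classical
  obtain ⟨c, hc, X1, h1⟩ := dens_Q q m hq ε η hε hη
  refine ⟨c / 2, by positivity, max X1 16, ?_⟩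
  intro X hX
  have hX1 : X1 ≤ X := by omega
  have hX16 : 16 ≤ X := by omega
  have hXr : (16 : ℝ) ≤ X := by exact_mod_cast hX16
  have hX0 : (0 : ℝ) < X := by linarith
  have hL : 0 < Real.log X := Real.log_pos (by linarith)
  have hφ0 : (0 : ℝ) < Nat.totient (Wm X) := by exact_mod_cast Nat.totient_pos.2 (Wm_pos X)
  set C := (Rd X).filter (fun b =>
      ((KQ q m ε X b).card : ℝ) < c / 2 * (X / (Nat.totient (Wm X) * Real.log X))) with hC
  by_contra hcon
  push Not at hcon
  have h2 := h1 X hX1 C (filter_subset _ _) hcon.le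
  have h3 : ∑ b ∈ C, ((KQ q m ε X b).card : ℝ) ≤ (C.card : ℝ) *
      (c / 2 * (X / (Nat.totient (Wm X) * Real.log X))) := by
    rw [← nsmul_eq_mul, ← sum_const]
    apply sum_le_sum
    intro b hb
    rw [hC, mem_filter] at hb
    exact hb.2.le
  have h4 : (C.card : ℝ) ≤ Nat.totient (Wm X) := by
    rw [← Rd_card]
    exact_mod_cast card_le_card (filter_subset _ _)
  have h5 : (C.card : ℝ) * (c / 2 * (X / (Nat.totient (Wm X) * Real.log X))) ≤
      Nat.totient (Wm X) * (c / 2 * (X / (Nat.totient (Wm X) * Real.log X))) :=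
    mul_le_mul_of_nonneg_right h4 (by positivity)
  have h6 : (Nat.totient (Wm X) : ℝ) * (c / 2 * (X / (Nat.totient (Wm X) * Real.log X))) =
      c / 2 * (X / Real.log X) := by
    field_simp
  have h7 : 0 < c * (X / Real.log X) := by positivity
  linarith

lemma KQ_most (q m : ℕ) (hq : 1 ≤ q) (ε : ℝ) (hε : 0 < ε) : MostDense (KQ q m ε) := by
  classical
  refine ⟨?_, fun η hη => most_classesQ q m hq ε η hε hη⟩
  intro X b n hn
  unfold KQ at hn
  rw [mem_filter] at hn ⊢
  exact ⟨hn.1, hn.2.1⟩

end Pool.Agent.TH882.JS
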