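import Pool.Agent.TH882.T1

/-! The four basic theorems (isolated primes or primes with neighbours, sums or differences) in
a form ready for use. -/

set_option autoImplicit false

open Finset Filter Topology Polynomial

namespace Pool.Agent.TH882.TS

open Pool.Agent.H361R2.PP
open Pool.Agent.TH882.JS (MostDense Rd KQ nbq KQ_most)
open Pool.Agent.TH882.IS (IP isoD)
open Pool.Agent.TH882.KS (rl rl_low sys_most sys_mostG SysA SysG LocV)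

/-- isolation -/
def Iso (R : ℝ) (p : ℕ) : Prop := ∀ q : ℕ, q.Prime → |(q : ℝ) - p| ≤ R → q = p

open Classical in
/-- neighbours in the same class -/
noncomputable def nbs (q : ℕ) (R : ℝ) (p : ℕ) : Finset ℕ :=
  (Icc 1 (p + ⌊R⌋₊)).filter (fun p' => p'.Prime ∧ p' ≠ p ∧ p' % q = p % q ∧ |(p' : ℝ) - p| ≤ R)

lemma mem_nbs (q : ℕ) (R : ℝ) (hR : 0 ≤ R) (n p : ℕ) (hp1 : p.Prime) (hp2 : p ≠ n)
    (hp3 : p % q = n % q) (hp4 : |(p : ℝ) - n| ≤ R) : p ∈ nbs q R n := by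
  classical
  unfold nbs
  rw [mem_filter, mem_Icc]
  refine ⟨⟨hp1.pos, ?_⟩, hp1, hp2, hp3, hp4⟩
  have h7 := (abs_le.1 hp4).2
  by_contra hcon
  push Not at hcon
  have h8 : ((n + ⌊R⌋₊ + 1 : ℕ) : ℝ) ≤ p := by exact_mod_cast hcon
  push_cast at h8
  have h9 := Nat.lt_floor_add_one R
  linarith

/-- no local obstruction -/
def Adm {r : ℕ} (g : Fin r → ℤ[X]) (k : Fin r → ℕ) : Prop :=
  ∀ l : ℕ, l.Prime → ∃ n : ℤ, ¬ (l : ℤ) ∣ n ∧ ∀ j, ¬ (l : ℤ) ∣ (k j : ℤ) + (g j).eval n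

/-- no local obstruction, differences -/
def AdmG {r : ℕ} (g : Fin r → ℤ[X]) (k : Fin r → ℕ) : Prop :=
  ∀ l : ℕ, l.Prime → ∃ n : ℤ, ¬ (l : ℤ) ∣ n ∧ ∀ j, ¬ (l : ℤ) ∣ (k j : ℤ) - (g j).eval n

open Classical in
/-- a general condition -/
noncomputable def cnt {r : ℕ} (P : ℕ → Prop) (g : Fin r → ℤ[X]) (k : Fin r → ℕ) (x : ℕ) :
    Finset ℕ :=
  (Icc 1 x).filter (fun n => n.Prime ∧ P n ∧ ∀ j, ((k j : ℤ) + (g j).eval (n : ℤ)).toNat.Prime)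

open Classical in
/-- a general condition, differences -/
noncomputable def cntG {r : ℕ} (P : ℕ → Prop) (g : Fin r → ℤ[X]) (k : Fin r → ℕ) (x : ℕ) :
    Finset ℕ :=
  (Icc 1 x).filter (fun n => n.Prime ∧ P n ∧ ∀ j, ((k j : ℤ) - (g j).eval (n : ℤ)).toNat.Prime)

open Classical in
/-- the exceptions -/
noncomputable def exc {r : ℕ} (P : ℕ → ℕ → Prop) (g : Fin r → ℤ[X]) (c : ℝ) (K x : ℕ) :
    Finset (Fin r → ℕ) :=
  (Fintype.piFinset (fun j : Fin r => Icc 1 (K * x ^ (g j).natDegree))).filter (fun k =>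
    Adm g k ∧ ((cnt (P x) g k x).card : ℝ) < c * (x / Real.log x ^ (r + 1)))

open Classical in
/-- the exceptions, differences -/
noncomputable def excG {r : ℕ} (P : ℕ → ℕ → Prop) (g : Fin r → ℤ[X]) (c : ℝ) (K x : ℕ) :
    Finset (Fin r → ℕ) :=
  (Fintype.piFinset (fun j : Fin r => Icc 1 (K * x ^ (g j).natDegree))).filter (fun k =>
    AdmG g k ∧ ((cntG (P x) g k x).card : ℝ) < c * (x / Real.log x ^ (r + 1)))

open Classical in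
theorem base {r : ℕ} (g : Fin r → ℤ[X]) (hd : ∀ j, 1 ≤ (g j).natDegree)
    (hl : ∀ j, 0 < (g j).leadingCoeff) (A : ℕ → ℕ → Finset ℕ) (hA : MostDense A)
    (P : ℕ → ℕ → Prop) (x1 : ℕ)
    (hP : ∀ x : ℕ, x1 ≤ x → ∀ b n : ℕ, n ∈ A (x / 3) b → n.Prime ∧ P x n) (K : ℕ)
    (κ : ℝ) (hκ : 0 < κ) : ∃ c : ℝ, 0 < c ∧ ∃ x₀ : ℕ, ∀ x : ℕ, x₀ ≤ x →
      ((exc P g c K x).card : ℝ) ≤ κ * ∏ j, (x : ℝ) ^ (g j).natDegree := by
  obtain ⟨c, hc, x₀, h⟩ := sys_most g hd hl A hA K κ hκ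
  refine ⟨c, hc, max x₀ (max x1 3), fun x hx => ?_⟩
  have hx0 : x₀ ≤ x := (le_max_left _ _).trans hx
  have hx1 : x1 ≤ x := ((le_max_left _ _).trans (le_max_right _ _)).trans hx
  have hx2 : 3 ≤ x := ((le_max_right _ _).trans (le_max_right _ _)).trans hx
  refine le_trans ?_ (h x hx0)
  apply Nat.cast_le.2
  apply card_le_card
  intro k hk
  unfold exc at hk
  rw [mem_filter] at hk ⊢
  obtain ⟨hc1, hc2, hc3⟩ := hk
  refine ⟨hc1, ?_, lt_of_le_of_lt ?_ hc3⟩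
  · intro l hlp
    obtain ⟨n, hn1, hn2⟩ := hc2 l hlp
    refine ⟨n, hn1, fun j h => hn2 j ?_⟩
    rwa [one_mul] at h
  · apply Nat.cast_le.2
    apply card_le_card
    intro n hn
    unfold SysA at hn
    rw [mem_filter, mem_Ico] at hn
    obtain ⟨⟨hn1, hn2⟩, hn3, hn4⟩ := hn
    obtain ⟨h5, h6⟩ := hP x hx1 _ n hn3
    unfold cnt
    rw [mem_filter, mem_Icc]
    exact ⟨⟨h5.pos, by omega⟩, h5, h6, hn4⟩

open Classical in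
theorem baseG {r : ℕ} (g : Fin r → ℤ[X]) (hd : ∀ j, 1 ≤ (g j).natDegree)
    (hl : ∀ j, 0 < (g j).leadingCoeff) (A : ℕ → ℕ → Finset ℕ) (hA : MostDense A)
    (P : ℕ → ℕ → Prop)
    (hP : ∀ M : ℕ, 3 ≤ M → ∃ x1 : ℕ, ∀ x : ℕ, x1 ≤ x → ∀ b n : ℕ, n ∈ A (x / M) b →
      n.Prime ∧ P x n) (K : ℕ) (κ : ℝ) (hκ : 0 < κ) :
    ∃ c : ℝ, 0 < c ∧ ∃ x₀ : ℕ, ∀ x : ℕ, x₀ ≤ x →
      ((excG P g c K x).card : ℝ) ≤ κ * ∏ j, (x : ℝ) ^ (g j).natDegree := by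
  obtain ⟨M, hM, c, hc, x₀, h⟩ := sys_mostG g hd hl A hA K κ hκ
  obtain ⟨x1, hx1P⟩ := hP M hM
  refine ⟨c, hc, max x₀ x1, fun x hx => ?_⟩
  have hx0 : x₀ ≤ x := (le_max_left _ _).trans hx
  have hx1 : x1 ≤ x := (le_max_right _ _).trans hx
  refine le_trans ?_ (h x hx0)
  apply Nat.cast_le.2
  apply card_le_card
  intro k hk
  unfold excG at hk
  rw [mem_filter] at hk ⊢
  obtain ⟨hc1, hc2, hc3⟩ := hk
  refine ⟨hc1, ?_, lt_of_le_of_lt ?_ hc3⟩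
  · intro l hlp
    obtain ⟨n, hn1, hn2⟩ := hc2 l hlp
    refine ⟨n, hn1, fun j h => hn2 j ?_⟩
    have e1 : (k j : ℤ) + -1 * (g j).eval n = k j - (g j).eval n := by ring
    rwa [e1] at h
  · apply Nat.cast_le.2
    apply card_le_card
    intro n hn
    unfold SysG at hn
    rw [mem_filter, mem_Ico] at hn
    obtain ⟨⟨hn1, hn2⟩, hn3, hn4⟩ := hn
    obtain ⟨h5, h6⟩ := hx1P x hx1 _ n hn3
    have hXM : M * (x / M) ≤ x := Nat.mul_div_le x M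
    have hXx : 3 * (x / M) ≤ x := (Nat.mul_le_mul_right _ hM).trans hXM
    unfold cntG
    rw [mem_filter, mem_Icc]
    exact ⟨⟨h5.pos, by omega⟩, h5, h6, hn4⟩

theorem iso_main {r : ℕ} (g : Fin r → ℤ[X]) (hd : ∀ j, 1 ≤ (g j).natDegree)
    (hl : ∀ j, 0 < (g j).leadingCoeff) (L : ℝ) (K : ℕ) (κ : ℝ) (hκ : 0 < κ) :
    ∃ c : ℝ, 0 < c ∧ ∃ x₀ : ℕ, ∀ x : ℕ, x₀ ≤ x →
      ((exc (fun x => Iso (L * Real.log x)) g c K x).card : ℝ) ≤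
        κ * ∏ j, (x : ℝ) ^ (g j).natDegree := by
  have hΛ0 : (0 : ℝ) < 2 * max L 1 := by
    have : (1 : ℝ) ≤ max L 1 := le_max_right _ _
    linarith
  exact base g hd hl (IP (2 * max L 1)) (IP_most _ hΛ0) _ (4 * 3 ^ 2)
    (fun x hx b n hn => iso_of L 3 x (by omega) hx b n hn) K κ hκ

theorem iso_mainG {r : ℕ} (g : Fin r → ℤ[X]) (hd : ∀ j, 1 ≤ (g j).natDegree)
    (hl : ∀ j, 0 < (g j).leadingCoeff) (L : ℝ) (K : ℕ) (κ : ℝ) (hκ : 0 < κ) :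
    ∃ c : ℝ, 0 < c ∧ ∃ x₀ : ℕ, ∀ x : ℕ, x₀ ≤ x →
      ((excG (fun x => Iso (L * Real.log x)) g c K x).card : ℝ) ≤
        κ * ∏ j, (x : ℝ) ^ (g j).natDegree := by
  have hΛ0 : (0 : ℝ) < 2 * max L 1 := by
    have : (1 : ℝ) ≤ max L 1 := le_max_right _ _
    linarith
  exact baseG g hd hl (IP (2 * max L 1)) (IP_most _ hΛ0) _ 
    (fun M hM => ⟨4 * M ^ 2, fun x hx b n hn => iso_of L M x (by omega) hx b n hn⟩) K κ hκ

theorem nb_main {r : ℕ} (g : Fin r → ℤ[X]) (hd : ∀ j, 1 ≤ (g j).natDegree)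
    (hl : ∀ j, 0 < (g j).leadingCoeff) (q m : ℕ) (hq : 1 ≤ q) (ε : ℝ) (hε : 0 < ε) (K : ℕ)
    (κ : ℝ) (hκ : 0 < κ) : ∃ c : ℝ, 0 < c ∧ ∃ x₀ : ℕ, ∀ x : ℕ, x₀ ≤ x →
      ((exc (fun x p => m ≤ (nbs q (ε * Real.log x) p).card) g c K x).card : ℝ) ≤
        κ * ∏ j, (x : ℝ) ^ (g j).natDegree := by
  exact base g hd hl (KQ q m ε) (KQ_most q m hq ε hε) _ 3
    (fun x hx b n hn => nb_of q m ε hε 3 x (by omega) hx b n hn (nbs q (ε * Real.log x) n)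
      (fun p h1 h2 h3 h4 => mem_nbs q _ (mul_nonneg hε.le (Real.log_natCast_nonneg x)) n p
        h1 h2 h3 h4)) K κ hκ

theorem nb_mainG {r : ℕ} (g : Fin r → ℤ[X]) (hd : ∀ j, 1 ≤ (g j).natDegree)
    (hl : ∀ j, 0 < (g j).leadingCoeff) (q m : ℕ) (hq : 1 ≤ q) (ε : ℝ) (hε : 0 < ε) (K : ℕ)
    (κ : ℝ) (hκ : 0 < κ) : ∃ c : ℝ, 0 < c ∧ ∃ x₀ : ℕ, ∀ x : ℕ, x₀ ≤ x →
      ((excG (fun x p => m ≤ (nbs q (ε * Real.log x) p).card) g c K x).card : ℝ) ≤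
        κ * ∏ j, (x : ℝ) ^ (g j).natDegree := by
  exact baseG g hd hl (KQ q m ε) (KQ_most q m hq ε hε) _
    (fun M hM => ⟨M, fun x hx b n hn => nb_of q m ε hε M x (by omega) hx b n hn
      (nbs q (ε * Real.log x) n)
      (fun p h1 h2 h3 h4 => mem_nbs q _ (mul_nonneg hε.le (Real.log_natCast_nonneg x)) n p
        h1 h2 h3 h4)⟩) K κ hκ

open Classical in
lemma mem_cnt {r : ℕ} (P : ℕ → Prop) (g : Fin r → ℤ[X]) (k : Fin r → ℕ) (x n : ℕ) :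
    n ∈ cnt P g k x ↔ n ∈ Icc 1 x ∧ n.Prime ∧ P n ∧
      ∀ j, ((k j : ℤ) + (g j).eval (n : ℤ)).toNat.Prime := by
  unfold cnt
  rw [mem_filter]

open Classical in
lemma mem_cntG {r : ℕ} (P : ℕ → Prop) (g : Fin r → ℤ[X]) (k : Fin r → ℕ) (x n : ℕ) :
    n ∈ cntG P g k x ↔ n ∈ Icc 1 x ∧ n.Prime ∧ P n ∧
      ∀ j, ((k j : ℤ) - (g j).eval (n : ℤ)).toNat.Prime := by
  unfold cntG
  rw [mem_filter]

open Classical in
lemma mem_exc {r : ℕ} (P : ℕ → ℕ → Prop) (g : Fin r → ℤ[X]) (c : ℝ) (K x : ℕ) (k : Fin r → ℕ) :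
    k ∈ exc P g c K x ↔ (∀ j, k j ∈ Icc 1 (K * x ^ (g j).natDegree)) ∧ Adm g k ∧
      ((cnt (P x) g k x).card : ℝ) < c * (x / Real.log x ^ (r + 1)) := by
  unfold exc
  rw [mem_filter, Fintype.mem_piFinset]

open Classical in
lemma mem_excG {r : ℕ} (P : ℕ → ℕ → Prop) (g : Fin r → ℤ[X]) (c : ℝ) (K x : ℕ) (k : Fin r → ℕ) :
    k ∈ excG P g c K x ↔ (∀ j, k j ∈ Icc 1 (K * x ^ (g j).natDegree)) ∧ AdmG g k ∧
      ((cntG (P x) g k x).card : ℝ) < c * (x / Real.log x ^ (r + 1)) := by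
  unfold excG
  rw [mem_filter, Fintype.mem_piFinset]

/-- `exc` contains a given set -/
lemma sub_exc {r : ℕ} (P : ℕ → ℕ → Prop) (g : Fin r → ℤ[X]) (c : ℝ) (K x : ℕ)
    (E : Finset (Fin r → ℕ)) (S : (Fin r → ℕ) → Finset ℕ)
    (h1 : ∀ k ∈ E, ∀ j, k j ∈ Icc 1 (K * x ^ (g j).natDegree)) (h2 : ∀ k ∈ E, Adm g k)
    (h3 : ∀ k ∈ E, ((S k).card : ℝ) < c * (x / Real.log x ^ (r + 1)))
    (h4 : ∀ k ∈ E, ∀ n ∈ Icc 1 x, n.Prime → P x n →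
      (∀ j, ((k j : ℤ) + (g j).eval (n : ℤ)).toNat.Prime) → n ∈ S k) :
    (E.card : ℝ) ≤ ((exc P g c K x).card : ℝ) := by
  apply Nat.cast_le.2
  apply card_le_card
  intro k hk
  rw [mem_exc]
  refine ⟨h1 k hk, h2 k hk, lt_of_le_of_lt (Nat.cast_le.2 (card_le_card ?_)) (h3 k hk)⟩
  intro n hn
  rw [mem_cnt] at hn
  exact h4 k hk n hn.1 hn.2.1 hn.2.2.1 hn.2.2.2

/-- `excG` contains a given set -/
lemma sub_excG {r : ℕ} (P : ℕ → ℕ → Prop) (g : Fin r → ℤ[X]) (c : ℝ) (K x : ℕ)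
    (E : Finset (Fin r → ℕ)) (S : (Fin r → ℕ) → Finset ℕ)
    (h1 : ∀ k ∈ E, ∀ j, k j ∈ Icc 1 (K * x ^ (g j).natDegree)) (h2 : ∀ k ∈ E, AdmG g k)
    (h3 : ∀ k ∈ E, ((S k).card : ℝ) < c * (x / Real.log x ^ (r + 1)))
    (h4 : ∀ k ∈ E, ∀ n ∈ Icc 1 x, n.Prime → P x n →
      (∀ j, ((k j : ℤ) - (g j).eval (n : ℤ)).toNat.Prime) → n ∈ S k) :
    (E.card : ℝ) ≤ ((excG P g c K x).card : ℝ) := by
  apply Nat.cast_le.2
  apply card_le_card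
  intro k hk
  rw [mem_excG]
  refine ⟨h1 k hk, h2 k hk, lt_of_le_of_lt (Nat.cast_le.2 (card_le_card ?_)) (h3 k hk)⟩
  intro n hn
  rw [mem_cntG] at hn
  exact h4 k hk n hn.1 hn.2.1 hn.2.2.1 hn.2.2.2

/-- large primes are never obstructions, sums -/
lemma witA {r : ℕ} (g : Fin r → ℤ[X]) (hd : ∀ j, 1 ≤ (g j).natDegree) (p : ℕ) (hp : p.Prime)
    (hl : ∀ j, ¬ (p : ℤ) ∣ (g j).leadingCoeff) (hb : 1 + ∑ j, (g j).natDegree < p)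
    (k : Fin r → ℕ) :
    ∃ n : ℤ, ¬ (p : ℤ) ∣ n ∧ ∀ j, ¬ (p : ℤ) ∣ (k j : ℤ) + (g j).eval n := by
  obtain ⟨n, h1, h2⟩ := wit (fun _ : Fin r => (1 : ℤ)) (fun _ => Or.inl rfl) g hd p hp hl hb k
  refine ⟨n, h1, fun j h => h2 j ?_⟩
  rwa [one_mul]

end Pool.Agent.TH882.TS
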