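import Pool.Agent.TH882.WM6

/-! Sums of k-th powers modulo m: 4 k suffice for all m, and 2 k + 1 if k is not a power of two
greater than two. -/

set_option autoImplicit false

namespace Pool.Agent.TH882.WM

lemma kernel_odd {p h k : ℕ} (hp : p.Prime) (hp2 : p ≠ 2) (hk : 1 ≤ k)
    (S : Finset (ZMod (p ^ h))ˣ) (hS : ∀ z ∈ S, z ^ k = 1) : S.card ≤ k := by
  classical
  haveI : NeZero (p ^ h) := ⟨pow_ne_zero _ hp.ne_zero⟩
  haveI := ZMod.isCyclic_units_of_prime_pow p hp hp2 h
  calc S.card ≤ (Finset.univ.filter (fun z : (ZMod (p ^ h))ˣ => z ^ k = 1)).card :=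
        Finset.card_le_card (fun z hz => by simp [hS z hz])
    _ ≤ k := IsCyclic.card_pow_eq_one_le (by omega)

lemma kernel_two {h k : ℕ} (hk : 1 ≤ k)
    (S : Finset (ZMod (2 ^ h))ˣ) (hS : ∀ z ∈ S, z ^ k = 1) : S.card ≤ 2 * k := by
  classical
  haveI : NeZero (2 ^ h) := ⟨pow_ne_zero _ (by norm_num)⟩
  have hle : S.card ≤ (2 ^ h).totient := by
    rw [← ZMod.card_units_eq_totient]
    exact Finset.card_le_univ S
  rcases lt_or_ge h 2 with hh | hh
  · have : (2 ^ h).totient ≤ 1 := by
      interval_cases h <;> simp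
    omega
  · obtain ⟨n, rfl⟩ := Nat.exists_eq_add_of_le' hh
    have h5 : IsUnit (5 : ZMod (2 ^ (n + 2))) := by
      have : (5 : ZMod (2 ^ (n + 2))) = ((5 : ℕ) : ZMod (2 ^ (n + 2))) := by norm_num
      rw [this, ZMod.isUnit_iff_coprime]
      exact Nat.Coprime.pow_right _ (by norm_num)
    set g : (ZMod (2 ^ (n + 2)))ˣ := h5.unit with hg
    have hord : orderOf g = 2 ^ n := by
      rw [← orderOf_units, hg, IsUnit.unit_spec]
      exact ZMod.orderOf_five n
    set C := Subgroup.zpowers g with hC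
    have hCcard : Nat.card C = 2 ^ n := by rw [hC, Nat.card_zpowers, hord]
    have hGcard : Nat.card (ZMod (2 ^ (n + 2)))ˣ = 2 ^ (n + 1) := by
      rw [Nat.card_eq_fintype_card, ZMod.card_units_eq_totient, Nat.totient_prime_pow Nat.prime_two (by omega)]
      simp
    have hidx : C.index = 2 := by
      have h1 := C.card_mul_index
      rw [hCcard, hGcard] at h1
      exact Nat.eq_of_mul_eq_mul_left (by positivity) (h1.trans (pow_succ 2 n))
    have hsub : ∀ T : Finset (ZMod (2 ^ (n + 2)))ˣ, (∀ z ∈ T, z ∈ C ∧ z ^ k = 1) → T.card ≤ k := by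
      intro T hT
      have h1 : (T.subtype (· ∈ C)).card = T.card := by
        rw [Finset.card_subtype, Finset.filter_true_of_mem]
        intro z hz
        exact (hT z hz).1
      rw [← h1]
      calc (T.subtype (· ∈ C)).card ≤ (Finset.univ.filter (fun z : C => z ^ k = 1)).card := by
            apply Finset.card_le_card
            intro z hz
            rw [Finset.mem_subtype] at hz
            rw [Finset.mem_filter]
            refine ⟨Finset.mem_univ _, ?_⟩
            apply Subtype.ext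
            rw [SubgroupClass.coe_pow]
            exact (hT z hz).2
        _ ≤ k := IsCyclic.card_pow_eq_one_le (by omega)
    have hsplit : S.card = (S.filter (· ∈ C)).card + (S.filter (fun z => ¬ z ∈ C)).card :=
      (Finset.card_filter_add_card_filter_not (· ∈ C)).symm
    have hA : (S.filter (· ∈ C)).card ≤ k := by
      apply hsub
      intro z hz
      rw [Finset.mem_filter] at hz
      exact ⟨hz.2, hS z hz.1⟩
    have hB : (S.filter (fun z => ¬ z ∈ C)).card ≤ k := by
      rcases (S.filter (fun z => ¬ z ∈ C)).eq_empty_or_nonempty with he | ⟨z0, hz0⟩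
      · rw [he]; simp
      · rw [← Finset.card_image_of_injective (f := fun z => z * z0) _ (mul_left_injective _)]
        apply hsub
        intro z hz
        rw [Finset.mem_image] at hz
        obtain ⟨w, hw, rfl⟩ := hz
        rw [Finset.mem_filter] at hw hz0
        constructor
        · rw [Subgroup.mul_mem_iff_of_index_two hidx]
          exact ⟨fun h => absurd h hw.2, fun h => absurd h hz0.2⟩
        · rw [_root_.mul_pow, hS w hw.1, hS z0 hz0.1, one_mul]
    omega

/-- if k is not a power of two, the kernel mod 2^h has at most k elements. -/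
lemma kernel_two' {h k : ℕ} (hk : 1 ≤ k) (hk2 : ∀ a, k ≠ 2 ^ a)
    (S : Finset (ZMod (2 ^ h))ˣ) (hS : ∀ z ∈ S, z ^ k = 1) : S.card ≤ k := by
  classical
  haveI : NeZero (2 ^ h) := ⟨pow_ne_zero _ (by norm_num)⟩
  obtain ⟨a, b, hb, hab⟩ : ∃ a b, ¬ 2 ∣ b ∧ k = 2 ^ a * b := by
    obtain ⟨a, b, h1, h2⟩ := Nat.exists_eq_pow_mul_and_not_dvd (show k ≠ 0 by omega) 2 (by norm_num)
    exact ⟨a, b, h1, h2⟩
  have hb3 : 3 ≤ b := by
    rcases Nat.lt_or_ge b 3 with h1 | h1
    · interval_cases b
      · omega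
      · exact absurd (by rw [hab, mul_one]) (hk2 a)
      · omega
    · exact h1
  have hS' : ∀ z ∈ S, z ^ (2 ^ a) = 1 := by
    intro z hz
    have h1 := hS z hz
    have h2 : z ^ (2 ^ (h - 1)) = 1 := by
      rcases Nat.eq_zero_or_pos h with rfl | hh
      · apply Subsingleton.elim (h := ?_)
        exact inferInstanceAs (Subsingleton (ZMod 1)ˣ)
      · have h3 : Nat.card (ZMod (2 ^ h))ˣ = 2 ^ (h - 1) := by
          rw [Nat.card_eq_fintype_card, ZMod.card_units_eq_totient, Nat.totient_prime_pow Nat.prime_two hh]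
          simp
        rw [← h3]
        exact pow_card_eq_one'
    have h4 : orderOf z ∣ k := orderOf_dvd_of_pow_eq_one h1
    have h5 : orderOf z ∣ 2 ^ (h - 1) := orderOf_dvd_of_pow_eq_one h2
    have h6 : Nat.Coprime (orderOf z) b := by
      apply Nat.Coprime.coprime_dvd_left h5
      apply Nat.Coprime.pow_left
      exact (Nat.prime_two.coprime_iff_not_dvd).2 hb
    rw [hab] at h4
    exact orderOf_dvd_iff_pow_eq_one.1 (h6.dvd_of_dvd_mul_right h4)
  have h7 := kernel_two (h := h) (k := 2 ^ a) Nat.one_le_two_pow S hS'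
  calc S.card ≤ 2 * 2 ^ a := h7
    _ ≤ b * 2 ^ a := Nat.mul_le_mul_right _ (by omega)
    _ = k := by rw [hab]; ring

/-- passage from prime powers to all moduli. -/
lemma loc_of_prime_pow {k s : ℕ}
    (H : ∀ p h : ℕ, p.Prime → 0 < h → ∀ x : ZMod (p ^ h), RS k s x) (m : ℕ) (hm : 1 ≤ m) :
    ∀ N, Loc k m s N := by
  induction m using Nat.recOnPosPrimePosCoprime with
  | prime_pow p n hp hn =>
    intro N
    haveI : NeZero (p ^ n) := ⟨pow_ne_zero _ hp.ne_zero⟩
    obtain ⟨f, hf⟩ := H p n hp hn (N : ZMod (p ^ n))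
    refine ⟨fun l => (f l).val, ?_⟩
    rw [← ZMod.natCast_eq_natCast_iff, hf, Nat.cast_sum]
    refine Finset.sum_congr rfl fun l _ => ?_
    rw [Nat.cast_pow, ZMod.natCast_zmod_val]
  | zero => omega
  | one =>
    intro N
    exact ⟨fun _ => 0, Nat.modEq_one⟩
  | coprime a b ha hb hab iha ihb =>
    intro N
    obtain ⟨f, hf⟩ := iha (by omega) N
    obtain ⟨g, hg⟩ := ihb (by omega) N
    refine ⟨fun l => (Nat.chineseRemainder hab (f l) (g l) : ℕ), ?_⟩
    rw [← Nat.modEq_and_modEq_iff_modEq_mul hab]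
    constructor
    · refine hf.trans (Nat.ModEq.sum fun l _ => ?_)
      exact ((Nat.chineseRemainder hab (f l) (g l)).2.1.pow k).symm
    · refine hg.trans (Nat.ModEq.sum fun l _ => ?_)
      exact ((Nat.chineseRemainder hab (f l) (g l)).2.2.pow k).symm

lemma Loc.mono {k m s t N : ℕ} (hk : 1 ≤ k) (hst : s ≤ t) (h : Loc k m s N) : Loc k m t N := by
  obtain ⟨i, rfl⟩ := Nat.exists_eq_add_of_le hst
  obtain ⟨r, hr⟩ := h
  refine ⟨Fin.append r (fun _ => 0), ?_⟩
  rw [Fin.sum_univ_add]
  simpa [Fin.append_left, Fin.append_right, zero_pow (show k ≠ 0 by omega)] using hr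

/-- 4 k k-th powers suffice modulo every m. -/
theorem loc_four {k m s : ℕ} (hk : 1 ≤ k) (hm : 1 ≤ m) (hs : 4 * k ≤ s) (N : ℕ) : Loc k m s N := by
  refine Loc.mono hk hs (loc_of_prime_pow ?_ m hm N)
  intro p h hp hh x
  by_cases hp2 : p = 2
  · subst hp2
    have := rs_prime_pow hp hh hk (d := 2 * k) (fun S hS => kernel_two hk S hS) x
    exact this.mono hk (by omega)
  · have := rs_prime_pow hp hh hk (d := k) (fun S hS => kernel_odd hp hp2 hk S hS) x
    exact this.mono hk (by omega)

/-- 2 k + 1 k-th powers suffice modulo every m unless k = 4, 8, 16, …. -/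
theorem loc_two {k m s : ℕ} (hk : 1 ≤ k) (hm : 1 ≤ m) (hpow : ∀ a, 2 ≤ a → k ≠ 2 ^ a)
    (hs : 2 * k + 1 ≤ s) (N : ℕ) : Loc k m s N := by
  refine Loc.mono hk hs ?_
  by_cases h1 : k = 1
  · subst h1
    refine ⟨fun l => if l = 0 then N else 0, ?_⟩
    have : ∑ l : Fin (2 * 1 + 1), (if l = 0 then N else 0) ^ 1 = N := by simp
    rw [this]
  by_cases h2 : k = 2
  · subst h2
    obtain ⟨a, b, c, d, habcd⟩ := Nat.sum_four_squares N
    refine ⟨![a, b, c, d, 0], ?_⟩
    have : ∑ l : Fin (2 * 2 + 1), (![a, b, c, d, 0] : Fin 5 → ℕ) l ^ 2 = N := by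
      rw [← habcd]
      simp [Fin.sum_univ_succ]
      ring
    rw [this]
  have hk2 : ∀ a, k ≠ 2 ^ a := by
    intro a
    rcases Nat.lt_or_ge a 2 with ha | ha
    · interval_cases a
      · simpa using h1
      · simpa using h2
    · exact hpow a ha
  refine loc_of_prime_pow ?_ m hm N
  intro p h hp hh x
  by_cases hp2 : p = 2
  · subst hp2
    have := rs_prime_pow hp hh hk (d := k) (fun S hS => kernel_two' hk hk2 S hS) x
    exact this.mono hk (by omega)
  · have := rs_prime_pow hp hh hk (d := k) (fun S hS => kernel_odd hp hp2 hk S hS) x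
    exact this.mono hk (by omega)

end Pool.Agent.TH882.WM
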