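import Pool.Agent.TH882.WM2

/-! Perturbed k-th powers: greedy sums, the chain, representations (residues mod m). -/

set_option autoImplicit false

namespace Pool.Agent.TH882.WM

open MeasureTheory ProbabilityTheory

lemma pow_add_le (n m : ℕ) : ∀ k : ℕ, (n + m) ^ (k + 1) ≤ n ^ (k + 1) + (k + 1) * m * (n + m) ^ k := by
  intro k
  induction k with
  | zero => simp
  | succ k ih =>
    have h1 : (n + m) ^ (k + 2) = n * (n + m) ^ (k + 1) + m * (n + m) ^ (k + 1) := by ring
    have h2 : n * (n + m) ^ (k + 1) ≤ n * (n ^ (k + 1) + (k + 1) * m * (n + m) ^ k) :=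
      Nat.mul_le_mul_left _ ih
    have h3 : n * ((k + 1) * m * (n + m) ^ k) ≤ (n + m) * ((k + 1) * m * (n + m) ^ k) :=
      Nat.mul_le_mul_right _ (by omega)
    calc (n + m) ^ (k + 2) = n * (n + m) ^ (k + 1) + m * (n + m) ^ (k + 1) := h1
      _ ≤ n * (n ^ (k + 1) + (k + 1) * m * (n + m) ^ k) + m * (n + m) ^ (k + 1) := by omega
      _ = n ^ (k + 2) + n * ((k + 1) * m * (n + m) ^ k) + m * (n + m) ^ (k + 1) := by ring
      _ ≤ n ^ (k + 2) + (n + m) * ((k + 1) * m * (n + m) ^ k) + m * (n + m) ^ (k + 1) := by omega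
      _ = n ^ (k + 1 + 1) + (k + 1 + 1) * m * (n + m) ^ (k + 1) := by ring

lemma greedy (k m q : ℕ) (hk : 2 ≤ k) (hm : 1 ≤ m) (hq : 1 ≤ q) : ∀ j : ℕ, ∃ C : ℝ, 1 ≤ C ∧
    ∀ u : ℕ → ℕ, (∀ n, u n ≤ n ^ (k - 1)) → ∀ rg : ℕ → ℕ, (∀ l, rg l < m) →
    ∀ R : ℕ, j * (m * q + 2 * m) ^ k ≤ R →
      ∃ f : Fin j → ℕ, (∀ l, 1 ≤ f l ∧ m * q * f l + rg l ≤ R) ∧
        (∑ l, val k m u (m * q * f l + rg l)) ≤ R ∧
        ((R : ℝ) - (∑ l, val k m u (m * q * f l + rg l) : ℕ)) ≤
          C * (R : ℝ) ^ ((1 - 1 / (k : ℝ)) ^ j) := by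
  set Q := m * q with hQ
  have hQ1 : 1 ≤ Q := Nat.mul_pos hm hq
  intro j
  induction j with
  | zero =>
    refine ⟨1, le_rfl, fun u hu rg hrg R hR => ⟨Fin.elim0, fun l => l.elim0, by simp, ?_⟩⟩
    simp
  | succ j ih =>
    obtain ⟨C, hC, ih⟩ := ih
    set K0 := (Q + 2 * m) ^ k with hK0
    set C1 : ℝ := k * (Q + m) ^ k + j * K0 with hC1
    have hkr : (2 : ℝ) ≤ k := by exact_mod_cast hk
    have hQr : (1 : ℝ) ≤ Q := by exact_mod_cast hQ1
    have hmr : (1 : ℝ) ≤ m := by exact_mod_cast hm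
    have hK0r : (1 : ℝ) ≤ (Q + m : ℝ) ^ k := one_le_pow₀ (by linarith)
    have hC1' : 1 ≤ C1 := by
      rw [hC1]
      have : (0 : ℝ) ≤ j * K0 := by positivity
      nlinarith
    refine ⟨C * C1, by nlinarith, fun u hu rg hrg R hR => ?_⟩
    have hR' : j * K0 + K0 ≤ R := by
      have : (j + 1) * K0 = j * K0 + K0 := by ring
      omega
    set r := R - j * K0 with hr
    have hK0pos : 1 ≤ K0 := Nat.one_le_pow _ _ (by omega)
    have hrK : K0 ≤ r := by omega
    set c := rg 0 with hc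
    have hcm : c < m := hrg 0
    have hP1 : (Q * 1 + c + m) ^ k ≤ r := by
      refine le_trans (Nat.pow_le_pow_left ?_ _) hrK
      omega
    set t := Nat.findGreatest (fun t => (Q * t + c + m) ^ k ≤ r) r with ht
    have ht1 : 1 ≤ t := Nat.le_findGreatest (by omega) hP1
    have ht2 : (Q * t + c + m) ^ k ≤ r := by
      have := Nat.findGreatest_spec (P := fun t => (Q * t + c + m) ^ k ≤ r) (m := 1) (n := r)
        (by omega) hP1
      exact this
    have ht3 : r < (Q * (t + 1) + c + m) ^ k := by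
      by_contra hcon
      push Not at hcon
      have htr : t + 1 ≤ r := by
        have h1 : Q * (t + 1) + c + m ≤ (Q * (t + 1) + c + m) ^ k := Nat.le_self_pow (by omega) _
        have h2 : t + 1 ≤ Q * (t + 1) := Nat.le_mul_of_pos_left _ hQ1
        omega
      exact Nat.findGreatest_is_greatest (P := fun t => (Q * t + c + m) ^ k ≤ r) (n := r)
        (k := t + 1) (by omega) htr hcon
    set n := Q * t + c with hn
    set X := val k m u n with hX
    have hX1 : X ≤ (n + m) ^ k := by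
      obtain ⟨k', rfl⟩ : ∃ k', k = k' + 1 := ⟨k - 1, by omega⟩
      have h1 := hu n
      simp only [Nat.add_sub_cancel] at h1
      have h2 : n ^ k' ≤ (n + m) ^ k' := Nat.pow_le_pow_left (by omega) _
      have h3 : (n + m) ^ (k' + 1) = (n + m) * (n + m) ^ k' := by ring
      have h4 : (n + m) * n ^ k' ≤ (n + m) * (n + m) ^ k' := Nat.mul_le_mul_left _ h2
      have h5 : (n + m) * n ^ k' = n ^ (k' + 1) + m * n ^ k' := by ring
      have h6 : m * u n ≤ m * n ^ k' := Nat.mul_le_mul_left _ h1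
      rw [hX]
      unfold val
      omega
    have hXr : X ≤ r := hX1.trans ht2
    have hXge : n ^ k ≤ X := by rw [hX]; unfold val; omega
    have hR1 : j * K0 ≤ R - X := by omega
    obtain ⟨f', hf1, hf2, hf3⟩ := ih u hu (fun l => rg (l + 1)) (fun l => hrg _) (R - X) hR1
    refine ⟨Fin.cons t f', ?_, ?_, ?_⟩
    · intro l
      refine Fin.cases ?_ ?_ l
      · simp only [Fin.cons_zero, Fin.val_zero]
        refine ⟨ht1, ?_⟩
        have h1 : n + m ≤ (n + m) ^ k := Nat.le_self_pow (by omega) _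
        have h2 : Q * t + rg 0 = n := rfl
        omega
      · intro l
        simp only [Fin.cons_succ, Fin.val_succ]
        refine ⟨(hf1 l).1, ?_⟩
        have := (hf1 l).2
        omega
    · rw [Fin.sum_univ_succ]
      simp only [Fin.cons_zero, Fin.cons_succ, Fin.val_zero, Fin.val_succ]
      have : val k m u (Q * t + rg 0) = X := rfl
      omega
    · rw [Fin.sum_univ_succ]
      simp only [Fin.cons_zero, Fin.cons_succ, Fin.val_zero, Fin.val_succ]
      have hXR : X ≤ R := by omega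
      have e1 : ((R - X : ℕ) : ℝ) = (R : ℝ) - X := by
        rw [Nat.cast_sub hXR]
      rw [e1] at hf3
      have hg0 : (0 : ℝ) ≤ 1 - 1 / (k : ℝ) := by
        rw [sub_nonneg, div_le_one (by linarith)]
        linarith
      have hg1 : 1 - 1 / (k : ℝ) ≤ 1 := by
        have : 0 ≤ 1 / (k : ℝ) := by positivity
        linarith
      have hRpos : (1 : ℝ) ≤ R := by
        have : 1 ≤ R := by omega
        exact_mod_cast this
      -- the remainder after one step
      have hrem : (R : ℝ) - X ≤ C1 * (R : ℝ) ^ (1 - 1 / (k : ℝ)) := by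
        obtain ⟨k', rfl⟩ : ∃ k', k = k' + 1 := ⟨k - 1, by omega⟩
        have h1 := pow_add_le n (Q + m) k'
        have h2 : Q * (t + 1) + c + m = n + (Q + m) := by rw [hn]; ring
        rw [h2] at ht3
        have h3 : n + (Q + m) ≤ (Q + m) * (n + m) := by
          have e3 : (Q + m) * (n + m) = (Q * n + m * n) + (Q + m) * m := by ring
          have e4 : (Q + m) * 1 ≤ (Q + m) * m := Nat.mul_le_mul_left _ hm
          have e5 : 1 * n ≤ Q * n := Nat.mul_le_mul_right _ hQ1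
          omega
        have h4 : (n + (Q + m)) ^ k' ≤ (Q + m) ^ k' * (n + m) ^ k' := by
          rw [← mul_pow]
          exact Nat.pow_le_pow_left h3 _
        have h5 : R ≤ X + ((k' + 1) * (Q + m) * ((Q + m) ^ k' * (n + m) ^ k') + j * K0) := by
          have h6 : (k' + 1) * (Q + m) * (n + (Q + m)) ^ k' ≤
              (k' + 1) * (Q + m) * ((Q + m) ^ k' * (n + m) ^ k') := Nat.mul_le_mul_left _ h4
          omega
        have h7 : (R : ℝ) ≤ X + ((k' + 1) * (Q + m) * ((Q + m) ^ k' * (n + m) ^ k') + j * K0) := by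
          exact_mod_cast h5
        have h8 : ((n + m : ℝ)) ^ k' ≤ (R : ℝ) ^ (1 - 1 / ((k' + 1 : ℕ) : ℝ)) := by
          have h9 : ((n + m : ℝ)) ^ (k' + 1) ≤ R := by
            have : (n + m) ^ (k' + 1) ≤ R := by omega
            exact_mod_cast this
          have h10 : ((n + m : ℝ)) ^ k' = (((n + m : ℝ)) ^ (k' + 1)) ^ (1 - 1 / ((k' + 1 : ℕ) : ℝ)) := by
            rw [← Real.rpow_natCast, ← Real.rpow_natCast, ← Real.rpow_mul (by positivity)]
            congr 1
            push_cast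
            field_simp
            ring
          rw [h10]
          exact Real.rpow_le_rpow (by positivity) h9 hg0
        have h11 : (1 : ℝ) ≤ (R : ℝ) ^ (1 - 1 / ((k' + 1 : ℕ) : ℝ)) := Real.one_le_rpow hRpos hg0
        have h12 : (0 : ℝ) ≤ (k' + 1) * (Q + m) * (Q + m) ^ k' := by positivity
        have h13 : (0 : ℝ) ≤ j * K0 := by positivity
        rw [hC1]
        push_cast at h11 h8 ⊢
        calc (R : ℝ) - X ≤ (k' + 1) * (Q + m) * ((Q + m) ^ k' * (n + m) ^ k') + j * K0 := by linarith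
          _ = ((k' + 1) * (Q + m) * (Q + m) ^ k') * (n + m) ^ k' + j * K0 := by ring
          _ ≤ ((k' + 1) * (Q + m) * (Q + m) ^ k') * (R : ℝ) ^ (1 - 1 / ((k' : ℝ) + 1)) +
              (j * K0) * (R : ℝ) ^ (1 - 1 / ((k' : ℝ) + 1)) := by
              refine add_le_add (mul_le_mul_of_nonneg_left h8 h12) ?_
              nlinarith
          _ = ((k' + 1) * (Q + m) ^ (k' + 1) + j * K0) * (R : ℝ) ^ (1 - 1 / ((k' : ℝ) + 1)) := by ring
      have hnn : (0 : ℝ) ≤ (R : ℝ) - X := by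
        have : (X : ℝ) ≤ R := by exact_mod_cast hXR
        linarith
      have hgj0 : (0 : ℝ) ≤ (1 - 1 / (k : ℝ)) ^ j := pow_nonneg hg0 j
      have hgj1 : (1 - 1 / (k : ℝ)) ^ j ≤ 1 := pow_le_one₀ hg0 hg1
      have h14 : ((R : ℝ) - X) ^ ((1 - 1 / (k : ℝ)) ^ j) ≤ C1 * (R : ℝ) ^ ((1 - 1 / (k : ℝ)) ^ (j + 1)) := by
        calc ((R : ℝ) - X) ^ ((1 - 1 / (k : ℝ)) ^ j)
            ≤ (C1 * (R : ℝ) ^ (1 - 1 / (k : ℝ))) ^ ((1 - 1 / (k : ℝ)) ^ j) :=
              Real.rpow_le_rpow hnn hrem hgj0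
          _ = C1 ^ ((1 - 1 / (k : ℝ)) ^ j) * (R : ℝ) ^ ((1 - 1 / (k : ℝ)) * (1 - 1 / (k : ℝ)) ^ j) := by
              rw [Real.mul_rpow (by linarith) (by positivity), ← Real.rpow_mul (by positivity)]
          _ ≤ C1 * (R : ℝ) ^ ((1 - 1 / (k : ℝ)) ^ (j + 1)) := by
              rw [pow_succ, mul_comm ((1 - 1 / (k : ℝ)) ^ j)]
              refine mul_le_mul_of_nonneg_right ?_ (by positivity)
              calc C1 ^ ((1 - 1 / (k : ℝ)) ^ j) ≤ C1 ^ (1 : ℝ) :=
                    Real.rpow_le_rpow_of_exponent_le hC1' hgj1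
                _ = C1 := Real.rpow_one _
      have hC0 : 0 ≤ C := by linarith
      push_cast at hf3 ⊢
      have hXX : (val k m u (Q * t + rg 0) : ℝ) = X := rfl
      rw [hXX]
      calc (R : ℝ) - (X + ∑ l, (val k m u (Q * f' l + rg (l + 1)) : ℝ))
            = (R : ℝ) - X - ∑ l, (val k m u (Q * f' l + rg (l + 1)) : ℝ) := by ring
        _ ≤ C * ((R : ℝ) - X) ^ ((1 - 1 / (k : ℝ)) ^ j) := hf3
        _ ≤ C * (C1 * (R : ℝ) ^ ((1 - 1 / (k : ℝ)) ^ (j + 1))) := mul_le_mul_of_nonneg_left h14 hC0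
        _ = C * C1 * (R : ℝ) ^ ((1 - 1 / (k : ℝ)) ^ (j + 1)) := by ring

/-- N is a sum of s perturbed powers with positive indices. -/
def Rep (k m s : ℕ) (u : ℕ → ℕ) (N : ℕ) : Prop :=
  ∃ f : Fin s → ℕ, (∀ l, 1 ≤ f l) ∧ N = ∑ l, (f l ^ k + m * u (f l))

lemma rep_of_sums {k m q K j T : ℕ} {rg rb : ℕ → ℕ} (hm : 1 ≤ m) (hq : 1 ≤ q) {u : ℕ → ℕ} :
    ∀ (i : ℕ) {h : ℕ}, h ∈ Sums k m q K j T rg rb u i → Rep k m (j + i) u h := by
  have hQ1 : 1 ≤ m * q := Nat.mul_pos hm hq
  intro i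
  induction i with
  | zero =>
    rintro h ⟨f, hf, rfl⟩
    refine ⟨fun l => m * q * f l + rg l, fun l => ?_, rfl⟩
    have := Nat.mul_pos hQ1 (hf l).1
    show 1 ≤ m * q * f l + rg l
    omega
  | succ i ih =>
    rintro h ⟨h0, hh, t, ht1, ht2, rfl⟩
    obtain ⟨f, hf, rfl⟩ := ih hh
    refine ⟨Fin.cons (m * q * t + (m * (i + 1) + rb i)) f, ?_, ?_⟩
    · intro l
      refine Fin.cases ?_ ?_ l
      · simp only [Fin.cons_zero]
        have : 1 ≤ m * (i + 1) := Nat.mul_pos hm (by omega)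
        omega
      · intro l
        simp only [Fin.cons_succ]
        exact hf l
    · show _ = ∑ l : Fin (j + i + 1), _
      rw [Fin.sum_univ_succ]
      simp only [Fin.cons_zero, Fin.cons_succ, val]
      ring

lemma chain {Ω : Type*} [MeasurableSpace Ω] {P : Measure Ω} [IsProbabilityMeasure P]
    {U : ℕ → Ω → ℕ} (hU : iIndepFun U P) (hm : ∀ n, Measurable (U n)) (W : ℕ → ℕ)
    (hW : ∀ n, Unif P (U n) (W n)) {k m a K j T : ℕ} {rg rb : ℕ → ℕ} (hm1 : 1 ≤ m)
    (hrg : ∀ l, rg l < m) (hrb : ∀ l, rb l < m) (hK : 2 * (m * (a + 1) * T) ≤ K)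
    {D Z N E : ℕ} (hD : 1 ≤ D) (Full : Set Ω)
    (h0 : ∀ ω ∈ Full, Net m (Sums k m (a + 1) K j T rg rb (fun n => U n ω) 0) (D ^ a) Z N
      (∑ l ∈ Finset.range j, rg l ^ k))
    (hWG : ∀ n, m * (a + 1) * T ≤ n → 2 * D ^ a ≤ W n)
    (hE : ∀ n, n < 2 * (m * (a + 1) * T) → n ^ k + m * W n ≤ E) (hEN : Z + a * E ≤ N)
    (hN : N ≡ (∑ l ∈ Finset.range j, rg l ^ k) + ∑ l ∈ Finset.range a, rb l ^ k [MOD m]) :
    P {ω | ω ∈ Full ∧ ¬ Rep k m (j + a) (fun n => U n ω) N} ≤
      ENNReal.ofReal (a * ((N + 1) * Real.exp (-(T : ℝ) / (8 * D)))) := by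
  have key : ∀ i, i ≤ a → P {ω | ω ∈ Full ∧
      ¬ Net m (Sums k m (a + 1) K j T rg rb (fun n => U n ω) i) (D ^ (a - i)) (Z + i * E) N
        ((∑ l ∈ Finset.range j, rg l ^ k) + ∑ l ∈ Finset.range i, rb l ^ k)} ≤
      ENNReal.ofReal (i * ((N + 1) * Real.exp (-(T : ℝ) / (8 * D)))) := by
    intro i
    induction i with
    | zero =>
      intro _
      have : {ω | ω ∈ Full ∧
          ¬ Net m (Sums k m (a + 1) K j T rg rb (fun n => U n ω) 0) (D ^ (a - 0)) (Z + 0 * E) N
            ((∑ l ∈ Finset.range j, rg l ^ k) + ∑ l ∈ Finset.range 0, rb l ^ k)} = ∅ := by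
        ext ω
        simp only [Set.mem_setOf_eq, Set.mem_empty_iff_false, iff_false, not_and, not_not]
        intro hω
        simpa using h0 ω hω
      rw [this]
      simp
    | succ i ih =>
      intro hi
      have ih' := ih (by omega)
      have e1 : D * D ^ (a - (i + 1)) = D ^ (a - i) := by
        rw [← pow_succ']
        congr 1
        omega
      have hst := step hU hm W hW (k := k) (q := a + 1) (K := K) (j := j) (T := T) hm1 hrg hrb hK (i := i)
        (by omega) (D := D) (G' := D ^ (a - (i + 1))) (Z := Z + i * E) (Z' := Z + (i + 1) * E)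
        (R := N) (ρ := (∑ l ∈ Finset.range j, rg l ^ k) + ∑ l ∈ Finset.range i, rb l ^ k)
        hD (Nat.one_le_pow _ _ hD) (by
          intro n hn
          rw [e1]
          have : D ^ (a - i) ≤ D ^ a := Nat.pow_le_pow_right hD (by omega)
          have := hWG n hn
          omega) (by
          intro n hn
          have h1 := hE n hn
          have e1 : (i + 1) * E = i * E + E := by ring
          rw [e1]
          omega)
      rw [e1] at hst
      have e2 : (∑ l ∈ Finset.range j, rg l ^ k) + ∑ l ∈ Finset.range (i + 1), rb l ^ k =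
          (∑ l ∈ Finset.range j, rg l ^ k) + (∑ l ∈ Finset.range i, rb l ^ k) + rb i ^ k := by
        rw [Finset.sum_range_succ, add_assoc]
      rw [e2]
      have hsub : {ω | ω ∈ Full ∧ ¬ Net m (Sums k m (a + 1) K j T rg rb (fun n => U n ω) (i + 1))
            (D ^ (a - (i + 1))) (Z + (i + 1) * E) N
            ((∑ l ∈ Finset.range j, rg l ^ k) + (∑ l ∈ Finset.range i, rb l ^ k) + rb i ^ k)} ⊆
          {ω | ω ∈ Full ∧ ¬ Net m (Sums k m (a + 1) K j T rg rb (fun n => U n ω) i)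
            (D ^ (a - i)) (Z + i * E) N
            ((∑ l ∈ Finset.range j, rg l ^ k) + ∑ l ∈ Finset.range i, rb l ^ k)} ∪
          {ω | Net m (Sums k m (a + 1) K j T rg rb (fun n => U n ω) i) (D ^ (a - i)) (Z + i * E) N
            ((∑ l ∈ Finset.range j, rg l ^ k) + ∑ l ∈ Finset.range i, rb l ^ k) ∧
            ¬ Net m (Sums k m (a + 1) K j T rg rb (fun n => U n ω) (i + 1))
              (D ^ (a - (i + 1))) (Z + (i + 1) * E) N
            ((∑ l ∈ Finset.range j, rg l ^ k) + (∑ l ∈ Finset.range i, rb l ^ k) + rb i ^ k)} := by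
        rintro ω ⟨h1, h2⟩
        by_cases h3 : Net m (Sums k m (a + 1) K j T rg rb (fun n => U n ω) i) (D ^ (a - i)) (Z + i * E) N
            ((∑ l ∈ Finset.range j, rg l ^ k) + ∑ l ∈ Finset.range i, rb l ^ k)
        · exact Or.inr ⟨h3, h2⟩
        · exact Or.inl ⟨h1, h3⟩
      refine (measure_mono hsub).trans ((measure_union_le _ _).trans ((add_le_add ih' hst).trans ?_))
      rw [← ENNReal.ofReal_add (by positivity) (by positivity)]
      apply ENNReal.ofReal_le_ofReal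
      push_cast
      apply le_of_eq
      ring
  refine le_trans (measure_mono ?_) (key a le_rfl)
  rintro ω ⟨h1, h2⟩
  refine ⟨h1, fun hnet => h2 ?_⟩
  obtain ⟨e, he, hh⟩ := hnet N hEN le_rfl hN
  simp only [Nat.sub_self, pow_zero] at he
  have : e = 0 := by omega
  subst this
  rw [mul_zero, add_zero] at hh
  exact rep_of_sums hm1 (by omega) a hh

end Pool.Agent.TH882.WM
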