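import Pool.Agent.TH882.WM8

/-! Sums of j exact k-th powers and a perturbed k-th powers. -/

set_option autoImplicit false

namespace Pool.Agent.TH882.WM

open MeasureTheory ProbabilityTheory Filter

/-- N is a sum of j exact k-th powers and a perturbed ones, all of positive indices. -/
def Mix (k m j a : ℕ) (u : ℕ → ℕ) (N : ℕ) : Prop :=
  ∃ x : Fin j → ℕ, ∃ y : Fin a → ℕ, (∀ l, 1 ≤ x l) ∧ (∀ l, 1 ≤ y l) ∧
    N = ∑ l, x l ^ k + ∑ l, (y l ^ k + m * u (y l))

lemma loc_of_mix {k m j a N : ℕ} {u : ℕ → ℕ} (h : Mix k m j a u N) : Loc k m (j + a) N := by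
  obtain ⟨x, y, -, -, rfl⟩ := h
  refine ⟨Fin.append x y, ?_⟩
  rw [Fin.sum_univ_add]
  simp only [Fin.append_left, Fin.append_right]
  apply Nat.ModEq.add_left
  apply Nat.ModEq.sum
  intro l _
  unfold Nat.ModEq
  rw [Nat.add_mul_mod_self_left]

lemma sum_dite_fin {M : Type*} [AddCommMonoid M] {j : ℕ} (r : Fin j → ℕ) (F : ℕ → M) :
    ∑ l ∈ Finset.range j, F (if h : l < j then r ⟨l, h⟩ else 0) = ∑ l, F (r l) := by
  rw [Finset.sum_range]
  refine Finset.sum_congr rfl fun l _ => ?_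
  simp

/-- the a.s. theorem for j exact and a perturbed powers. -/
theorem mixed {k m j a : ℕ} (hk : 2 ≤ k) (hm1 : 1 ≤ m) {θ : ℝ} (hθ : θ ≤ k - 1)
    (h1 : (k : ℝ) * (1 - 1 / (k : ℝ)) ^ j < θ) (h2 : (k : ℝ) * (1 - 1 / (k : ℝ)) ^ j < a) :
    ∀ᵐ u ∂(pert θ), ∀ᶠ N in atTop, (Mix k m j a u N ↔ Loc k m (j + a) N) := by
  have hkr : (2 : ℝ) ≤ k := by exact_mod_cast hk
  have hbase : (0 : ℝ) < 1 - 1 / (k : ℝ) := by
    rw [sub_pos, div_lt_one (by linarith)]
    linarith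
  have hbase1 : 1 - 1 / (k : ℝ) ≤ 1 := by
    have : 0 ≤ 1 / (k : ℝ) := by positivity
    linarith
  have hg0 : 0 < (1 - 1 / (k : ℝ)) ^ j := pow_pos hbase j
  have hg1 : (1 - 1 / (k : ℝ)) ^ j ≤ 1 := pow_le_one₀ hbase.le hbase1
  have hind : iIndepFun (fun (n : ℕ) (u : ℕ → ℕ) => u n) (pert θ) :=
    iIndepFun_infinitePi (P := law θ) (X := fun _ x => x) (fun _ => measurable_id)
  have key : ∀ (rg : Fin j → Fin m) (rb : Fin a → Fin m), ∀ᵐ u ∂(pert θ), ∀ᶠ N in atTop,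
      N ≡ ∑ l, (rg l : ℕ) ^ k + ∑ l, (rb l : ℕ) ^ k [MOD m] → Mix k m j a u N := by
    intro rg rb
    obtain ⟨C, hC, hgr⟩ := greedy k m 1 hk hm1 le_rfl j
    set rg' : ℕ → ℕ := fun l => if h : l < j then (rg ⟨l, h⟩ : ℕ) else 0 with hrg'
    set rb' : ℕ → ℕ := fun l => if h : l < a then (rb ⟨l, h⟩ : ℕ) else 0 with hrb'
    have hrg'm : ∀ l, rg' l < m := by
      intro l
      simp only [hrg']
      split_ifs
      · exact (rg _).2
      · exact hm1
    have hrb'm : ∀ l, rb' l < m := by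
      intro l
      simp only [hrb']
      split_ifs
      · exact (rb _).2
      · exact hm1
    have h3 := mainB hind (fun n => measurable_pi_apply n) hk hm1 hθ hg0 hg1 h1 h2 (unif_pert θ)
      (Bs := {h | ∃ x : Fin j → ℕ, (∀ l, 1 ≤ x l) ∧ h = ∑ l, x l ^ k})
      (ρ0 := ∑ l, (rg l : ℕ) ^ k) (Z := j * (m * 1 + 2 * m) ^ k) hC (by
        intro R hR
        obtain ⟨f, hf1, hf2, hf3⟩ := hgr (fun _ => 0) (fun _ => Nat.zero_le _) rg' hrg'm R hR
        have hval : ∀ l : Fin j, val k m (fun _ => 0) (m * 1 * f l + rg' l) = (m * f l + rg l) ^ k := by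
          intro l
          simp [val, hrg']
        simp only [hval] at hf2 hf3
        refine ⟨∑ l, (m * f l + rg l) ^ k, ⟨fun l => m * f l + rg l, ?_, rfl⟩, hf2, ?_, hf3⟩
        · intro l
          have := Nat.mul_pos hm1 (hf1 l).1
          show 1 ≤ m * f l + rg l
          omega
        · apply Nat.ModEq.sum
          intro l _
          apply Nat.ModEq.pow
          unfold Nat.ModEq
          rw [add_comm, Nat.add_mul_mod_self_left]) rb' hrb'm
    have e1 : ∑ l ∈ Finset.range a, rb' l ^ k = ∑ l, (rb l : ℕ) ^ k := by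
      rw [Finset.sum_range]
      refine Finset.sum_congr rfl fun l _ => ?_
      simp [hrb']
    rw [e1] at h3
    filter_upwards [h3] with u hu
    filter_upwards [hu] with N hN hNm
    obtain ⟨b, ⟨x, hx, rfl⟩, y, hy, rfl⟩ := hN hNm
    exact ⟨x, y, hx, hy, rfl⟩
  have key' : ∀ᵐ u ∂(pert θ), ∀ (rg : Fin j → Fin m) (rb : Fin a → Fin m), ∀ᶠ N in atTop,
      N ≡ ∑ l, (rg l : ℕ) ^ k + ∑ l, (rb l : ℕ) ^ k [MOD m] → Mix k m j a u N := by
    rw [ae_all_iff]
    intro rg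
    rw [ae_all_iff]
    intro rb
    exact key rg rb
  filter_upwards [key'] with u hu
  have h4 : ∀ᶠ N in atTop, ∀ (rg : Fin j → Fin m) (rb : Fin a → Fin m),
      N ≡ ∑ l, (rg l : ℕ) ^ k + ∑ l, (rb l : ℕ) ^ k [MOD m] → Mix k m j a u N := by
    rw [eventually_all]
    intro rg
    rw [eventually_all]
    intro rb
    exact hu rg rb
  filter_upwards [h4] with N hN
  refine ⟨loc_of_mix, ?_⟩
  rintro ⟨r, hr⟩
  refine hN (fun l => ⟨r (Fin.castAdd a l) % m, Nat.mod_lt _ hm1⟩)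
    (fun l => ⟨r (Fin.natAdd j l) % m, Nat.mod_lt _ hm1⟩) ?_
  refine hr.trans ?_
  rw [Fin.sum_univ_add]
  apply Nat.ModEq.add
  · apply Nat.ModEq.sum
    intro l _
    exact ((Nat.mod_modEq _ _).pow k).symm
  · apply Nat.ModEq.sum
    intro l _
    exact ((Nat.mod_modEq _ _).pow k).symm

end Pool.Agent.TH882.WM
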