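import Pool.Agent.TH882.I8

/-! Goldbach representations with an isolated prime: the right order of magnitude. -/

set_option autoImplicit false

open Finset Filter Topology

namespace Pool.Agent.TH882.IS

open Pool.Agent.H361R2.PP
open Pool.Agent.TH882.PC (wX wX_one wX_pos)
open Pool.Agent.TH882.UB (HH_tendsto)

/-- from dyadic blocks to natural density -/
lemma dyadic (E : ℕ → Prop) [DecidablePred E]
    (h : ∀ η : ℝ, 0 < η → ∃ X₀ : ℕ, ∀ X : ℕ, X₀ ≤ X →
      (((Ico (4 * X) (9 * X)).filter E).card : ℝ) ≤ η * X) :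
    Tendsto (fun x : ℕ => (((Icc 1 x).filter E).card : ℝ) / x) atTop (𝓝 0) := by
  have key : ∀ η : ℝ, 0 < η → ∃ C : ℝ, ∀ x : ℕ, (((Icc 1 x).filter E).card : ℝ) ≤ η * x + C := by
    intro η hη
    obtain ⟨X₀, h0⟩ := h η hη
    refine ⟨8 * X₀ + 64, ?_⟩
    intro x
    induction x using Nat.strong_induction_on with
    | _ x ih =>
      by_cases hx : x < 8 * X₀ + 64
      · have h1 : ((Icc 1 x).filter E).card ≤ 8 * X₀ + 64 := by
          refine (card_filter_le _ _).trans ?_
          rw [Nat.card_Icc]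
          omega
        have h2 : (((Icc 1 x).filter E).card : ℝ) ≤ 8 * X₀ + 64 := by exact_mod_cast h1
        have : 0 ≤ η * x := by positivity
        linarith
      · push Not at hx
        set X := x / 8 with hX
        have hXX : X₀ ≤ X := by omega
        have h1 : ((Icc 1 x).filter E).card ≤ ((Icc 1 (4 * X)).filter E).card +
            ((Ico (4 * X) (9 * X)).filter E).card := by
          refine le_trans (card_le_card ?_) (card_union_le _ _)
          intro n hn
          rw [mem_filter, mem_Icc] at hn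
          rw [mem_union, mem_filter, mem_filter, mem_Icc, mem_Ico]
          by_cases hn4 : n ≤ 4 * X
          · left
            exact ⟨⟨hn.1.1, hn4⟩, hn.2⟩
          · right
            exact ⟨⟨by omega, by omega⟩, hn.2⟩
        have h2 : (((Icc 1 x).filter E).card : ℝ) ≤ (((Icc 1 (4 * X)).filter E).card : ℝ) +
            (((Ico (4 * X) (9 * X)).filter E).card : ℝ) := by exact_mod_cast h1
        have h3 := ih (4 * X) (by omega)
        have h4 := h0 X hXX
        have h5 : (8 * X : ℝ) ≤ x := by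
          have : 8 * X ≤ x := by omega
          exact_mod_cast this
        have hX0 : (0 : ℝ) ≤ X := Nat.cast_nonneg X
        push_cast at h3
        have h6 : η * (8 * X) ≤ η * x := mul_le_mul_of_nonneg_left h5 hη.le
        have h7 : 0 ≤ η * X := by positivity
        linarith
  rw [Metric.tendsto_atTop]
  intro ε hε
  obtain ⟨C, hC⟩ := key (ε / 2) (by positivity)
  obtain ⟨n0, hn0⟩ := exists_nat_gt (2 * |C| / ε)
  refine ⟨n0 + 1, fun x hx => ?_⟩
  have hx0 : (0 : ℝ) < x := by
    have : 0 < x := by omega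
    exact_mod_cast this
  rw [Real.dist_eq, sub_zero, abs_of_nonneg (by positivity), div_lt_iff₀ hx0]
  have h1 := hC x
  have h2 : (n0 : ℝ) ≤ x := by
    have : n0 ≤ x := by omega
    exact_mod_cast this
  have h3 : 2 * |C| / ε < x := lt_of_lt_of_le hn0 h2
  rw [div_lt_iff₀ hε] at h3
  have h4 := le_abs_self C
  nlinarith

/-- the contribution of the primes above `H` -/
noncomputable def tl (H N : ℕ) : ℝ := ∑ p ∈ N.primeFactors.filter (fun p => H < p), 1 / (p : ℝ)

/-- few integers have a large contribution of the primes above `H` -/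
lemma tail_few (H M : ℕ) (hH : 1 ≤ H) :
    (((Icc 1 M).filter (fun N => (1 : ℝ) / 4 < tl H N)).card : ℝ) ≤ 4 * M / H := by
  classical
  set S := (range (M + 1)).filter (fun p => p.Prime ∧ H < p) with hS
  set t : ℕ → ℝ := fun N => tl H N with ht
  have ht0 : ∀ N, 0 ≤ t N := by
    intro N
    rw [ht]
    unfold tl
    exact sum_nonneg fun p _ => by positivity
  have h1 : ∑ N ∈ Icc 1 M, t N ≤ M / H := by
    have e1 : ∀ N ∈ Icc 1 M, t N = ∑ p ∈ S, if p ∣ N then 1 / (p : ℝ) else 0 := by
      intro N hN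
      rw [mem_Icc] at hN
      rw [ht]
      simp only
      unfold tl
      rw [← sum_filter]
      apply sum_congr _ (fun _ _ => rfl)
      ext p
      rw [mem_filter, mem_filter, hS, mem_filter, mem_range, Nat.mem_primeFactors]
      constructor
      · rintro ⟨⟨h1, h2, h3⟩, h4⟩
        have := Nat.le_of_dvd (by omega) h2
        exact ⟨⟨by omega, h1, h4⟩, h2⟩
      · rintro ⟨⟨h1, h2, h3⟩, h4⟩
        exact ⟨⟨h2, h4, by omega⟩, h3⟩
    rw [sum_congr rfl e1, Finset.sum_comm]
    have e2 : ∀ p ∈ S, (∑ N ∈ Icc 1 M, if p ∣ N then 1 / (p : ℝ) else 0) ≤ M * (1 / (p : ℝ) ^ 2) := by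
      intro p hp
      rw [hS, mem_filter] at hp
      have hp0 : (0 : ℝ) < p := by exact_mod_cast hp.2.1.pos
      rw [← sum_filter, sum_const, nsmul_eq_mul]
      have e3 : ((Icc 1 M).filter (fun N => p ∣ N)).card = M / p := by
        have := Nat.Ioc_filter_dvd_card_eq_div M p
        rw [← this]
        congr 1
      rw [e3]
      calc ((M / p : ℕ) : ℝ) * (1 / p) ≤ (M / p : ℝ) * (1 / p) :=
            mul_le_mul_of_nonneg_right Nat.cast_div_le (by positivity)
        _ = _ := by field_simp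
    refine (sum_le_sum e2).trans ?_
    rw [← mul_sum]
    have e4 := Pool.Agent.TH882.PC.tail_sum H hH S (fun p hp => by
      rw [hS, mem_filter] at hp
      exact hp.2.2)
    have e5 : ∑ p ∈ S, 1 / (p : ℝ) ^ 2 ≤ ∑ p ∈ S, 1 / ((p : ℝ) * ((p : ℝ) - 1)) := by
      apply sum_le_sum
      intro p hp
      rw [hS, mem_filter] at hp
      have hp2 : (2 : ℝ) ≤ p := by exact_mod_cast hp.2.1.two_le
      apply one_div_le_one_div_of_le
      · nlinarith
      · nlinarith
    calc (M : ℝ) * ∑ p ∈ S, 1 / (p : ℝ) ^ 2 ≤ M * (1 / H) :=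
          mul_le_mul_of_nonneg_left (e5.trans e4) (Nat.cast_nonneg M)
      _ = _ := by ring
  have h2 : (((Icc 1 M).filter (fun N => (1 : ℝ) / 4 < t N)).card : ℝ) * (1 / 4) ≤ M / H := by
    refine le_trans ?_ h1
    rw [← nsmul_eq_mul, ← sum_const]
    calc _ ≤ ∑ N ∈ (Icc 1 M).filter (fun N => (1 : ℝ) / 4 < t N), t N := by
          apply sum_le_sum
          intro N hN
          exact (mem_filter.1 hN).2.le
      _ ≤ _ := sum_le_sum_of_subset_of_nonneg (filter_subset _ _) fun N _ _ => ht0 N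
  have h3 : (((Icc 1 M).filter (fun N => (1 : ℝ) / 4 < t N)).card : ℝ) ≤ 4 * (M / H) := by linarith
  have h4 : 4 * (M : ℝ) / H = 4 * (M / H) := by ring
  rw [h4]
  exact h3

/-- the ratio `N / φ(N)` and its part coming from the small primes -/
lemma phi_ratio (H N : ℕ) (hN : 1 ≤ N) (ht : tl H N ≤ 1 / 4) :
    (N : ℝ) / Nat.totient N ≤
      2 * ∏ p ∈ N.primeFactors.filter (fun p : ℕ => ¬ H < p), ((p : ℝ) / (p - 1)) := by
  have hN0 : (0 : ℝ) < N := by exact_mod_cast hN
  have hφ0 : (0 : ℝ) < Nat.totient N := by exact_mod_cast Nat.totient_pos.2 hN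
  have hp : ∀ p ∈ N.primeFactors, (2 : ℝ) ≤ p := by
    intro p hp
    exact_mod_cast (Nat.prime_of_mem_primeFactors hp).two_le
  have h1 : (Nat.totient N : ℝ) = N * ∏ p ∈ N.primeFactors, (1 - (p : ℝ)⁻¹) := by
    have h := congrArg (fun q : ℚ => (q : ℝ)) (Nat.totient_eq_mul_prod_factors N)
    push_cast at h
    exact h
  have h2 : ∏ p ∈ N.primeFactors, ((p : ℝ) / (p - 1)) = (∏ p ∈ N.primeFactors, (1 - (p : ℝ)⁻¹))⁻¹ := by
    rw [← prod_inv_distrib]
    apply prod_congr rfl
    intro p hp'
    have := hp p hp'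
    have h3 : (p : ℝ) - 1 ≠ 0 := by
      intro h
      linarith
    have h4 : (p : ℝ) ≠ 0 := by linarith
    have h5 : 1 - (p : ℝ)⁻¹ = ((p : ℝ) - 1) / p := by field_simp
    rw [h5, inv_div]
  have h3 : (N : ℝ) / Nat.totient N = ∏ p ∈ N.primeFactors, ((p : ℝ) / (p - 1)) := by
    rw [h2, h1]
    rw [div_mul_eq_div_div, div_self hN0.ne', one_div]
  rw [h3, ← prod_filter_mul_prod_filter_not N.primeFactors (fun p => H < p)]
  have h4 : ∏ p ∈ N.primeFactors.filter (fun p => H < p), ((p : ℝ) / (p - 1)) ≤ 2 := by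
    calc ∏ p ∈ N.primeFactors.filter (fun p => H < p), ((p : ℝ) / (p - 1)) ≤
        ∏ p ∈ N.primeFactors.filter (fun p => H < p), Real.exp (2 * (1 / (p : ℝ))) := by
          apply Finset.prod_le_prod
          · intro p hp'
            have := hp p (mem_filter.1 hp').1
            apply div_nonneg <;> linarith
          · intro p hp'
            have h5 := hp p (mem_filter.1 hp').1
            have h6 : (p : ℝ) / (p - 1) ≤ 1 + 2 * (1 / (p : ℝ)) := by
              rw [div_le_iff₀ (by linarith)]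
              have h7 : (1 + 2 * (1 / (p : ℝ))) * (p - 1) = p + 1 - 2 / p := by
                field_simp
                ring
              rw [h7]
              have h8 : 2 / (p : ℝ) ≤ 1 := by
                rw [div_le_one (by linarith)]
                exact h5
              linarith
            refine h6.trans ?_
            have := Real.add_one_le_exp (2 * (1 / (p : ℝ)))
            linarith
      _ = Real.exp (2 * ∑ p ∈ N.primeFactors.filter (fun p => H < p), 1 / (p : ℝ)) := by
          rw [← Real.exp_sum, mul_sum]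
      _ ≤ Real.exp (1 / 2) := by
          apply Real.exp_le_exp.2
          unfold tl at ht
          linarith
      _ ≤ 2 := by
          have h9 : Real.exp (1 / 2) * Real.exp (1 / 2) = Real.exp 1 := by
            rw [← Real.exp_add]
            norm_num
          have h10 := Real.exp_one_lt_d9
          have h11 := Real.exp_pos (1 / 2)
          nlinarith
  have h5 : 0 ≤ ∏ p ∈ N.primeFactors.filter (fun p => ¬ H < p), ((p : ℝ) / (p - 1)) := by
    apply prod_nonneg
    intro p hp'
    have := hp p (mem_filter.1 hp').1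
    apply div_nonneg <;> linarith
  exact mul_le_mul_of_nonneg_right h4 h5

open Classical in
/-- the isolated primes `p < N` with `N - p` prime -/
noncomputable def RG (Λ : ℝ) (N : ℕ) : Finset ℕ :=
  (range N).filter (fun p => p.Prime ∧ (N - p).Prime ∧ Isol (Λ * Real.log N) p)

open Classical in
theorem goldbach_iso (Λ : ℝ) (hΛ : 0 < Λ) : ∃ c : ℝ, 0 < c ∧
    Tendsto (fun x : ℕ => (((Icc 1 x).filter (fun N => Even N ∧
      ((RG Λ N).card : ℝ) < c * ((N : ℝ) ^ 2 / (Nat.totient N * Real.log N ^ 2)))).card : ℝ) / x)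
      atTop (𝓝 0) := by
  obtain ⟨c0, hc0, X00, hX00⟩ := isoD (2 * Λ) (by positivity)
  refine ⟨c0 / 576, by positivity, ?_⟩
  apply dyadic
  intro η hη
  have hDn : ∀ X, X00 ≤ X → Dn (IP (2 * Λ)) c0 X := by
    intro X hX b hb hbc
    refine ⟨?_, hX00 X hX b hb hbc⟩
    intro n hn
    unfold IP at hn
    rw [mem_filter] at hn ⊢
    exact ⟨hn.1, hn.2.1⟩
  obtain ⟨X1, h1⟩ := clsT (fun _ : Fin 1 => (-1 : ℤ)) (fun _ => Or.inr rfl)
    (fun _ => Polynomial.X) (fun _ => by simp) (fun _ => by simp) 9 (η / 2) (by positivity) c0 hc0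
    (IP (2 * Λ)) X00 hDn
  obtain ⟨X3, hHH⟩ := eventually_atTop.1 (HH_tendsto.eventually_ge_atTop (⌈72 / η⌉₊ + 2))
  refine ⟨max X1 (max X3 16), ?_⟩
  intro X hX
  have hX1 : X1 ≤ X := by omega
  have hX3 : X3 ≤ X := by omega
  have hX16 : 16 ≤ X := by omega
  have hXr : (16 : ℝ) ≤ X := by exact_mod_cast hX16
  have hX0 : (0 : ℝ) < X := by linarith
  have hHX := hHH X hX3
  have hH1 : 1 ≤ HH X := by omega
  have hHη : 72 / η ≤ HH X := by
    have e1 : (⌈72 / η⌉₊ : ℝ) ≤ HH X := by
      have : ⌈72 / η⌉₊ ≤ HH X := by omega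
      exact_mod_cast this
    exact (Nat.le_ceil _).trans e1
  have hH0 : (0 : ℝ) < HH X := by exact_mod_cast hH1
  obtain ⟨Bd, hB1, hB2⟩ := h1 X hX1 (fun _ => 0) (fun _ => 3 * X + 1) (fun _ => 9 * X) (by
      intro j n hn1 hn2
      simp only [Polynomial.eval_X]
      push_cast
      constructor
      · omega
      · omega) (fun _ => by omega) (fun _ => by omega) (fun _ => by simp)
  -- the exceptional set
  set Ex1 := (Icc 1 (9 * X)).filter (fun N => (1 : ℝ) / 4 < tl (HH X) N) with hEx1
  have hEx1c : (Ex1.card : ℝ) ≤ η / 2 * X := by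
    refine (tail_few (HH X) (9 * X) hH1).trans ?_
    push_cast
    rw [div_le_iff₀ hH0]
    rw [div_le_iff₀ hη] at hHη
    nlinarith
  have hsub : (Ico (4 * X) (9 * X)).filter (fun N => Even N ∧
      ((RG Λ N).card : ℝ) < c0 / 576 * ((N : ℝ) ^ 2 / (Nat.totient N * Real.log N ^ 2))) ⊆
      (Bd.image (fun N => N 0)) ∪ Ex1 := by
    intro N hN
    rw [mem_filter, mem_Ico] at hN
    obtain ⟨⟨hN1, hN2⟩, hNe, hNl⟩ := hN
    rw [mem_union, mem_image]
    by_contra hcon
    push Not at hcon
    obtain ⟨hc1, hc2⟩ := hcon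
    have hNB : (fun _ : Fin 1 => N) ∉ Bd := fun h => hc1 _ h rfl
    have htail : tl (HH X) N ≤ 1 / 4 := by
      by_contra h
      push Not at h
      apply hc2
      rw [hEx1, mem_filter, mem_Icc]
      exact ⟨⟨by omega, by omega⟩, h⟩
    have h2 := hB2 (fun _ => N) (by
      rw [Fintype.mem_piFinset]
      intro j
      rw [mem_Ico]
      omega) hNB
    have hNr : (16 : ℝ) ≤ N := by
      have : 16 ≤ N := by omega
      exact_mod_cast this
    have hN0 : (0 : ℝ) < N := by linarith
    have hN9 : (N : ℝ) ≤ 9 * X := by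
      have : N ≤ 9 * X := by omega
      exact_mod_cast this
    have hXN : (X : ℝ) ≤ N := by
      have : X ≤ N := by omega
      exact_mod_cast this
    set ℓ := Real.log X with hℓ
    have hℓ1 : 1 ≤ ℓ := by
      rw [hℓ, Real.le_log_iff_exp_le hX0]
      have := Real.exp_one_lt_d9
      linarith
    have hlN1 : ℓ ≤ Real.log N := Real.log_le_log hX0 hXN
    have hlN2 : Real.log N ≤ 2 * ℓ := by
      calc Real.log N ≤ Real.log ((X : ℝ) ^ 2) := by
            apply Real.log_le_log hN0
            nlinarith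
        _ = 2 * ℓ := by
            rw [Real.log_pow]
            push_cast
            ring
    have hφN : (0 : ℝ) < Nat.totient N := by
      have : 0 < N := by omega
      exact_mod_cast Nat.totient_pos.2 this
    -- the representations
    have h3 : ((RepA (fun _ : Fin 1 => (-1 : ℤ)) (fun _ => Polynomial.X) (IP (2 * Λ)) X
        (fun _ => ((N : ℕ) : ℤ) - ((0 : ℕ) : ℤ))).card : ℝ) ≤ ((RG Λ N).card : ℝ) := by
      apply Nat.cast_le.2
      apply card_le_card
      intro n hn
      unfold RepA at hn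
      rw [mem_filter, mem_Ico] at hn
      obtain ⟨⟨g1, g2⟩, g3, g4⟩ := hn
      unfold IP at g3
      rw [mem_filter] at g3
      unfold RG
      rw [mem_filter, mem_range]
      refine ⟨by omega, g3.2.1, ?_, ?_⟩
      · have e1 := g4 0
        have e2 : (((N : ℕ) : ℤ) - ((0 : ℕ) : ℤ) + -1 * (Polynomial.X : Polynomial ℤ).eval (n : ℤ)).toNat
            = N - n := by
          rw [Polynomial.eval_X]
          omega
        rw [e2] at e1
        exact e1
      · intro q hq h5 h6
        have e1 : Λ * Real.log N ≤ 2 * Λ * ℓ := by nlinarith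
        exact g3.2.2 q hq (by linarith) (by linarith)
    have h4 := h2.trans h3
    have e5 : (fun _ : Fin 1 => ((N : ℕ) : ℤ) - ((0 : ℕ) : ℤ)) = fun _ : Fin 1 => (N : ℤ) := by
      funext j
      simp
    rw [e5] at h4
    have h5 := sing_low X N (by omega) (even_iff_two_dvd.1 hNe)
    set ρ : ℝ := ((rhoS (fun _ : Fin 1 => (-1 : ℤ)) (fun _ => Polynomial.X) X
        (fun _ => (N : ℤ))).card : ℝ) with hρ
    have hφ0 : (0 : ℝ) < Nat.totient (Wm X) := by exact_mod_cast Nat.totient_pos.2 (Wm_pos X)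
    have e6 : ρ / 2 * (wX X ^ 1 * (c0 * (X / (Nat.totient (Wm X) * ℓ))) / 4 /
        (((((∑ _j : Fin 1, (Polynomial.X : Polynomial ℤ).natDegree : ℕ) : ℝ) + 1) * ℓ) ^ 1)) =
        (ρ * wX X / Nat.totient (Wm X)) * (c0 * X / (16 * ℓ ^ 2)) := by
      have hs1 : ((∑ _j : Fin 1, (Polynomial.X : Polynomial ℤ).natDegree : ℕ) : ℝ) = 1 := by simp
      have hℓ0 : ℓ ≠ 0 := by linarith
      rw [hs1, pow_one, pow_one]
      field_simp
      ring
    have h6 : (ρ * wX X / Nat.totient (Wm X)) * (c0 * X / (16 * ℓ ^ 2)) ≤ ((RG Λ N).card : ℝ) := by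
      rw [← e6]
      exact h4
    have h7 := phi_ratio (HH X) N (by omega) htail
    have e7 : N.primeFactors.filter (fun p => ¬ HH X < p) = (PH X).filter (fun p => p ∣ N) := by
      ext p
      unfold PH
      rw [mem_filter, mem_filter, mem_filter, mem_range, Nat.mem_primeFactors]
      constructor
      · rintro ⟨⟨h1, h2, h3⟩, h4⟩
        exact ⟨⟨by omega, h1⟩, h2⟩
      · rintro ⟨⟨h1, h2⟩, h3⟩
        exact ⟨⟨h2, h3, by omega⟩, by omega⟩
    rw [e7] at h7
    set Pq := ∏ p ∈ (PH X).filter (fun p => p ∣ N), ((p : ℝ) / (p - 1)) with hPq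
    have hPq0 : 0 ≤ Pq := by
      rw [hPq]
      apply prod_nonneg
      intro p hp
      rw [mem_filter] at hp
      have : (2 : ℝ) ≤ p := by exact_mod_cast (mem_filter.1 hp.1).2.two_le
      apply div_nonneg <;> linarith
    have h8 : c0 / 576 * ((N : ℝ) ^ 2 / (Nat.totient N * Real.log N ^ 2)) ≤
        (1 / 2 * Pq) * (c0 * X / (16 * ℓ ^ 2)) := by
      have e8 : (N : ℝ) ^ 2 / (Nat.totient N * Real.log N ^ 2) =
          (N / Nat.totient N) * N / Real.log N ^ 2 := by
        field_simp
      rw [e8]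
      have e9 : (N / Nat.totient N : ℝ) * N / Real.log N ^ 2 ≤ (2 * Pq) * (9 * X) / ℓ ^ 2 := by
        have f1 : (N / Nat.totient N : ℝ) * N ≤ (2 * Pq) * (9 * X) :=
          mul_le_mul h7 hN9 hN0.le (by positivity)
        have f2 : ℓ ^ 2 ≤ Real.log N ^ 2 := pow_le_pow_left₀ (by linarith) hlN1 2
        exact div_le_div₀ (by positivity) f1 (by positivity) f2
      calc c0 / 576 * ((N / Nat.totient N : ℝ) * N / Real.log N ^ 2) ≤
          c0 / 576 * ((2 * Pq) * (9 * X) / ℓ ^ 2) := mul_le_mul_of_nonneg_left e9 (by positivity)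
        _ = _ := by
            field_simp
            ring
    have h9 : (1 / 2 * Pq) * (c0 * X / (16 * ℓ ^ 2)) ≤
        (ρ * wX X / Nat.totient (Wm X)) * (c0 * X / (16 * ℓ ^ 2)) :=
      mul_le_mul_of_nonneg_right h5 (by positivity)
    linarith
  have h3 := card_le_card hsub
  have h4 : (((Bd.image (fun N => N 0)) ∪ Ex1).card : ℝ) ≤ (Bd.card : ℝ) + Ex1.card := by
    have e1 := card_union_le (Bd.image (fun N => N 0)) Ex1
    have e2 : (Bd.image (fun N => N 0)).card ≤ Bd.card := card_image_le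
    exact_mod_cast e1.trans (Nat.add_le_add_right e2 _)
  have h5 : (Bd.card : ℝ) ≤ η / 2 * X := by
    refine hB1.trans (le_of_eq ?_)
    simp
  have h6 : (((Ico (4 * X) (9 * X)).filter (fun N => Even N ∧
      ((RG Λ N).card : ℝ) < c0 / 576 * ((N : ℝ) ^ 2 / (Nat.totient N * Real.log N ^ 2)))).card : ℝ) ≤
      (((Bd.image (fun N => N 0)) ∪ Ex1).card : ℝ) := by exact_mod_cast h3
  linarith

end Pool.Agent.TH882.IS
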