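import Pool.Agent.TH882.J4
import Pool.Agent.TH882.I9

/-! Goldbach representations with one summand in a set of primes which is dense in most classes. -/

set_option autoImplicit false

open Finset Filter Topology

namespace Pool.Agent.TH882.JS

open Pool.Agent.H361R2.PP
open Pool.Agent.TH882.PC (wX wX_one wX_pos)
open Pool.Agent.TH882.UB (HH_tendsto)
open Pool.Agent.TH882.IS (rhoS RepA sing_low phi_ratio tl tail_few PH phi_Wm Wm_eq)

/-- from dyadic blocks to an upper density bound -/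
lemma dyadic2 (E : ℕ → Prop) [DecidablePred E] (η : ℝ) (hη : 0 < η)
    (h : ∃ X₀ : ℕ, ∀ X : ℕ, X₀ ≤ X →
      (((Ico (4 * X) (9 * X)).filter E).card : ℝ) ≤ η / 2 * X) :
    ∃ x₀ : ℕ, ∀ x : ℕ, x₀ ≤ x → (((Icc 1 x).filter E).card : ℝ) ≤ η * x := by
  obtain ⟨X₀, h0⟩ := h
  have key : ∀ x : ℕ, (((Icc 1 x).filter E).card : ℝ) ≤ η / 2 * x + (8 * X₀ + 64) := by
    intro x
    induction x using Nat.strong_induction_on with
    | _ x ih =>
      by_cases hx : x < 8 * X₀ + 64
      · have h1 : ((Icc 1 x).filter E).card ≤ 8 * X₀ + 64 := by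
          refine (card_filter_le _ _).trans ?_
          rw [Nat.card_Icc]
          omega
        have h2 : (((Icc 1 x).filter E).card : ℝ) ≤ 8 * X₀ + 64 := by exact_mod_cast h1
        have : 0 ≤ η / 2 * x := by positivity
        linarith
      · push Not at hx
        set X := x / 8 with hX
        have hXX : X₀ ≤ X := by omega
        have h1 : ((Icc 1 x).filter E).card ≤ ((Icc 1 (4 * X)).filter E).card +
            ((Ico (4 * X) (9 * X)).filter E).card := by
          refine le_trans (card_le_card ?_) (card_union_le _ _)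
          intro n hn
          rw [mem_filter, mem_Icc] at hn
          rw [mem_union, mem_filter, mem_filter, mem_Icc, mem_Ico]
          by_cases hn4 : n ≤ 4 * X
          · left
            exact ⟨⟨hn.1.1, hn4⟩, hn.2⟩
          · right
            exact ⟨⟨by omega, by omega⟩, hn.2⟩
        have h2 : (((Icc 1 x).filter E).card : ℝ) ≤ (((Icc 1 (4 * X)).filter E).card : ℝ) +
            (((Ico (4 * X) (9 * X)).filter E).card : ℝ) := by exact_mod_cast h1
        have h3 := ih (4 * X) (by omega)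
        have h4 := h0 X hXX
        have h5 : (8 * X : ℝ) ≤ x := by
          have : 8 * X ≤ x := by omega
          exact_mod_cast this
        have hX0 : (0 : ℝ) ≤ X := Nat.cast_nonneg X
        push_cast at h3
        have h6 : η * (8 * X) ≤ η * x := mul_le_mul_of_nonneg_left h5 hη.le
        have h7 : 0 ≤ η * X := by positivity
        linarith
  obtain ⟨n0, hn0⟩ := exists_nat_gt (2 * (8 * (X₀ : ℝ) + 64) / η)
  refine ⟨n0, fun x hx => ?_⟩
  have h1 := key x
  have h2 : (n0 : ℝ) ≤ x := by exact_mod_cast hx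
  have h3 : 2 * (8 * (X₀ : ℝ) + 64) / η < x := lt_of_lt_of_le hn0 h2
  rw [div_lt_iff₀ hη] at h3
  linarith

open Classical in
/-- the elements `p` of `A` with `N - p` prime -/
noncomputable def GA (A : ℕ → ℕ → Finset ℕ) (X N : ℕ) : Finset ℕ :=
  (Ico X (2 * X)).filter (fun n => n ∈ A X (n % Wm X) ∧ (N - n).Prime)

open Classical in
theorem goldbach_most (A : ℕ → ℕ → Finset ℕ) (hA : MostDense A) (η : ℝ) (hη : 0 < η) :
    ∃ c : ℝ, 0 < c ∧ ∃ X₀ : ℕ, ∀ X : ℕ, X₀ ≤ X →
      (((Ico (4 * X) (9 * X)).filter (fun N => Even N ∧ ((GA A X N).card : ℝ) <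
        c * ((N : ℝ) ^ 2 / (Nat.totient N * Real.log N ^ 2)))).card : ℝ) ≤ η * X := by
  obtain ⟨c0, hc0, X1, h1⟩ := clsM (fun _ : Fin 1 => (-1 : ℤ)) (fun _ => Or.inr rfl)
    (fun _ => Polynomial.X) (fun _ => by simp) (fun _ => by simp) 9 (η / 2) (1 / 2)
    (by positivity) (by positivity) A hA
  obtain ⟨X3, hHH⟩ := eventually_atTop.1 (HH_tendsto.eventually_ge_atTop (⌈72 / η⌉₊ + 2))
  refine ⟨c0 / 36, by positivity, max X1 (max X3 16), ?_⟩
  intro X hX
  have hX1 : X1 ≤ X := by omega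
  have hX3 : X3 ≤ X := by omega
  have hX16 : 16 ≤ X := by omega
  have hXr : (16 : ℝ) ≤ X := by exact_mod_cast hX16
  have hX0 : (0 : ℝ) < X := by linarith
  have hHX := hHH X hX3
  have hH1 : 1 ≤ HH X := by omega
  have hHη : 72 / η ≤ HH X := by
    have e1 : (⌈72 / η⌉₊ : ℝ) ≤ HH X := by
      have : ⌈72 / η⌉₊ ≤ HH X := by omega
      exact_mod_cast this
    exact (Nat.le_ceil _).trans e1
  have hH0 : (0 : ℝ) < HH X := by exact_mod_cast hH1
  obtain ⟨Bd, hB1, hB2⟩ := h1 X hX1 (fun _ => 0) (fun _ => 3 * X + 1) (fun _ => 9 * X) (by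
      intro j n hn1 hn2
      simp only [Polynomial.eval_X]
      push_cast
      constructor
      · omega
      · omega) (fun _ => by omega) (fun _ => by omega) (fun _ => by simp)
  -- the exceptional set
  set Ex1 := (Icc 1 (9 * X)).filter (fun N => (1 : ℝ) / 4 < tl (HH X) N) with hEx1
  have hEx1c : (Ex1.card : ℝ) ≤ η / 2 * X := by
    refine (tail_few (HH X) (9 * X) hH1).trans ?_
    push_cast
    rw [div_le_iff₀ hH0]
    rw [div_le_iff₀ hη] at hHη
    nlinarith
  have hsub : (Ico (4 * X) (9 * X)).filter (fun N => Even N ∧ ((GA A X N).card : ℝ) <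
        c0 / 36 * ((N : ℝ) ^ 2 / (Nat.totient N * Real.log N ^ 2))) ⊆
      (Bd.image (fun N => N 0)) ∪ Ex1 := by
    intro N hN
    rw [mem_filter, mem_Ico] at hN
    obtain ⟨⟨hN1, hN2⟩, hNe, hNl⟩ := hN
    rw [mem_union, mem_image]
    by_contra hcon
    push Not at hcon
    obtain ⟨hc1, hc2⟩ := hcon
    have hNB : (fun _ : Fin 1 => N) ∉ Bd := fun h => hc1 _ h rfl
    have htail : tl (HH X) N ≤ 1 / 4 := by
      by_contra h
      push Not at h
      apply hc2
      rw [hEx1, mem_filter, mem_Icc]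
      exact ⟨⟨by omega, by omega⟩, h⟩
    have hNr : (16 : ℝ) ≤ N := by
      have : 16 ≤ N := by omega
      exact_mod_cast this
    have hN0 : (0 : ℝ) < N := by linarith
    have hN9 : (N : ℝ) ≤ 9 * X := by
      have : N ≤ 9 * X := by omega
      exact_mod_cast this
    have hXN : (X : ℝ) ≤ N := by
      have : X ≤ N := by omega
      exact_mod_cast this
    set ℓ := Real.log X with hℓ
    have hℓ1 : 1 ≤ ℓ := by
      rw [hℓ, Real.le_log_iff_exp_le hX0]
      have := Real.exp_one_lt_d9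
      linarith
    have hlN1 : ℓ ≤ Real.log N := Real.log_le_log hX0 hXN
    have hφN : (0 : ℝ) < Nat.totient N := by
      have : 0 < N := by omega
      exact_mod_cast Nat.totient_pos.2 this
    have hφ0 : (0 : ℝ) < Nat.totient (Wm X) := by exact_mod_cast Nat.totient_pos.2 (Wm_pos X)
    have hW0 : (0 : ℝ) < Wm X := by exact_mod_cast Wm_pos X
    have e5 : (fun _ : Fin 1 => ((N : ℕ) : ℤ) - ((0 : ℕ) : ℤ)) = fun _ : Fin 1 => (N : ℤ) := by
      funext j
      simp
    have h5 := sing_low X N (by omega) (even_iff_two_dvd.1 hNe)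
    set ρ : ℝ := ((rhoS (fun _ : Fin 1 => (-1 : ℤ)) (fun _ => Polynomial.X) X
        (fun _ => (N : ℤ))).card : ℝ) with hρ
    set Pq := ∏ p ∈ (PH X).filter (fun p => p ∣ N), ((p : ℝ) / (p - 1)) with hPq
    have hPq1 : 1 ≤ Pq := by
      rw [hPq]
      apply prod_induction _ (fun x : ℝ => 1 ≤ x) (fun a b ha hb => by nlinarith) le_rfl
      intro p hp
      rw [mem_filter] at hp
      have : (2 : ℝ) ≤ p := by exact_mod_cast (mem_filter.1 hp.1).2.two_le
      rw [le_div_iff₀ (by linarith)]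
      linarith
    have hPq0 : 0 ≤ Pq := by linarith
    have h2 := hB2 (fun _ => N) (by
      rw [Fintype.mem_piFinset]
      intro j
      rw [mem_Ico]
      omega) hNB (by
      rw [e5, ← hρ]
      have e6 : (1 : ℝ) / 2 ≤ ρ * wX X / Nat.totient (Wm X) := by linarith
      unfold wX at e6
      have e7 : (1 : ℝ) / 2 * ((Nat.totient (Wm X) : ℝ) ^ (1 + 1) / (Wm X : ℝ) ^ 1) ≤
          (ρ * ((Wm X : ℝ) / Nat.totient (Wm X)) / Nat.totient (Wm X)) *
            ((Nat.totient (Wm X) : ℝ) ^ (1 + 1) / (Wm X : ℝ) ^ 1) :=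
        mul_le_mul_of_nonneg_right e6 (by positivity)
      refine e7.trans (le_of_eq ?_)
      rw [pow_one, one_add_one_eq_two]
      field_simp)
    -- the representations
    have h3 : ((RepA (fun _ : Fin 1 => (-1 : ℤ)) (fun _ => Polynomial.X) A X
        (fun _ => ((N : ℕ) : ℤ) - ((0 : ℕ) : ℤ))).card : ℝ) ≤ ((GA A X N).card : ℝ) := by
      apply Nat.cast_le.2
      apply card_le_card
      intro n hn
      unfold RepA at hn
      rw [mem_filter, mem_Ico] at hn
      obtain ⟨⟨g1, g2⟩, g3, g4⟩ := hn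
      unfold GA
      rw [mem_filter, mem_Ico]
      refine ⟨⟨g1, g2⟩, g3, ?_⟩
      have e1 := g4 0
      have e2 : (((N : ℕ) : ℤ) - ((0 : ℕ) : ℤ) + -1 * (Polynomial.X : Polynomial ℤ).eval (n : ℤ)).toNat
          = N - n := by
        rw [Polynomial.eval_X]
        omega
      rw [e2] at e1
      exact e1
    have h4 := h2.trans h3
    rw [e5, ← hρ, one_add_one_eq_two, pow_one] at h4
    have h6 : c0 * ((ρ * wX X / Nat.totient (Wm X)) * (X / ℓ ^ 2)) ≤ ((GA A X N).card : ℝ) := by
      refine le_trans (le_of_eq ?_) h4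
      field_simp
    have h7 := phi_ratio (HH X) N (by omega) htail
    have e7 : N.primeFactors.filter (fun p => ¬ HH X < p) = (PH X).filter (fun p => p ∣ N) := by
      ext p
      unfold PH
      rw [mem_filter, mem_filter, mem_filter, mem_range, Nat.mem_primeFactors]
      constructor
      · rintro ⟨⟨h1, h2, h3⟩, h4⟩
        exact ⟨⟨by omega, h1⟩, h2⟩
      · rintro ⟨⟨h1, h2⟩, h3⟩
        exact ⟨⟨h2, h3, by omega⟩, by omega⟩
    rw [e7, ← hPq] at h7
    have h8 : c0 / 36 * ((N : ℝ) ^ 2 / (Nat.totient N * Real.log N ^ 2)) ≤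
        c0 * ((1 / 2 * Pq) * (X / ℓ ^ 2)) := by
      have e8 : (N : ℝ) ^ 2 / (Nat.totient N * Real.log N ^ 2) =
          (N / Nat.totient N) * N / Real.log N ^ 2 := by
        field_simp
      rw [e8]
      have e9 : (N / Nat.totient N : ℝ) * N / Real.log N ^ 2 ≤ (2 * Pq) * (9 * X) / ℓ ^ 2 := by
        have f1 : (N / Nat.totient N : ℝ) * N ≤ (2 * Pq) * (9 * X) :=
          mul_le_mul h7 hN9 hN0.le (by positivity)
        have f2 : ℓ ^ 2 ≤ Real.log N ^ 2 := pow_le_pow_left₀ (by linarith) hlN1 2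
        exact div_le_div₀ (by positivity) f1 (by positivity) f2
      calc c0 / 36 * ((N / Nat.totient N : ℝ) * N / Real.log N ^ 2) ≤
          c0 / 36 * ((2 * Pq) * (9 * X) / ℓ ^ 2) := mul_le_mul_of_nonneg_left e9 (by positivity)
        _ = _ := by
            ring
    have h9 : c0 * ((1 / 2 * Pq) * (X / ℓ ^ 2)) ≤
        c0 * ((ρ * wX X / Nat.totient (Wm X)) * (X / ℓ ^ 2)) :=
      mul_le_mul_of_nonneg_left (mul_le_mul_of_nonneg_right h5 (by positivity)) hc0.le
    linarith
  have h3 := card_le_card hsub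
  have h4 : (((Bd.image (fun N => N 0)) ∪ Ex1).card : ℝ) ≤ (Bd.card : ℝ) + Ex1.card := by
    have e1 := card_union_le (Bd.image (fun N => N 0)) Ex1
    have e2 : (Bd.image (fun N => N 0)).card ≤ Bd.card := card_image_le
    exact_mod_cast e1.trans (Nat.add_le_add_right e2 _)
  have h5 : (Bd.card : ℝ) ≤ η / 2 * X := by
    refine hB1.trans (le_of_eq ?_)
    simp
  have h6 : (((Ico (4 * X) (9 * X)).filter (fun N => Even N ∧ ((GA A X N).card : ℝ) <
        c0 / 36 * ((N : ℝ) ^ 2 / (Nat.totient N * Real.log N ^ 2)))).card : ℝ) ≤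
      (((Bd.image (fun N => N 0)) ∪ Ex1).card : ℝ) := by exact_mod_cast h3
  linarith

lemma KP_most (m : ℕ) (ε : ℝ) (hε : 0 < ε) : MostDense (KP m ε) := by
  classical
  refine ⟨?_, fun η hη => most_classes m ε η hε hη⟩
  intro X b n hn
  unfold KP at hn
  rw [mem_filter] at hn ⊢
  exact ⟨hn.1, hn.2.1⟩

end Pool.Agent.TH882.JS
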