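import Pool.Agent.TH882.Cls

/-! The exceptional set of the model. -/

set_option autoImplicit false

open Finset Filter Topology

namespace Pool.Agent.TH882.AG

open Pool.Agent.H361R2.PP
open Pool.Agent.W70.HR
open Pool.Agent.TH882.UB
open Pool.Agent.TH882.PC
open Pool.Agent.H373R2.T7 (lamz Vz pz lamz_nonneg)

lemma Gk_transfer (X z h : ℕ) (A : Finset ℕ) :
    ∑ k ∈ A.image (· + h), ∑ k' ∈ (A.image (· + h)).erase k, (Gk X z k k' - 1) =
      ∑ n ∈ A, ∑ n' ∈ A.erase n, (Gk X z n n' - 1) := by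
  have hinj : Function.Injective (fun n : ℕ => n + h) := fun a b hab => by
    simpa using hab
  rw [sum_image (fun a _ b _ hab => hinj hab)]
  apply sum_congr rfl
  intro n _
  have : (A.image (· + h)).erase (n + h) = (A.erase n).image (· + h) := by
    rw [image_erase hinj]
  rw [this, sum_image (fun a _ b _ hab => hinj hab)]
  apply sum_congr rfl
  intro n' _
  rw [Gk_add]

theorem bad2 (L A0 : ℕ) (δ c η : ℝ) (hδ : 0 < δ) (hδ1 : δ ≤ 1) (hc : 0 < c) (hη : 0 < η) (E : ℕ) :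
    ∃ X₀ : ℕ, ∀ X : ℕ, X₀ ≤ X → ∀ b : ℕ, b < Wm X → ∀ U : Finset ℕ, U.card = L →
    (∀ u ∈ U, u ≤ A0) → ∀ z : ℕ, HH X ≤ z → (z : ℝ) ≤ Real.log X ^ E →
    ∀ A ⊆ (SI X b).filter (fun n => ∀ u ∈ U, rg (P1 (HH X) (JJ δ X)) u n = 1),
    c * Om δ X L ≤ (A.card : ℝ) → ∀ h : ℕ, h ≤ A0 → ∀ Z s : ℕ, 6 * X ≤ Z → s < Wm X →
    (∀ N ∈ IN X Z s, ∀ n ∈ A, (N - (n + h)).Coprime (Wm X)) →
    (((IN X Z s).filter (fun N => ∑ k ∈ A.image (· + h), lamz z (N - k) <
      (A.card : ℝ) / 2)).card : ℝ) ≤ η * (Z / Wm X) := by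
  classical
  set β : ℝ := min 1 η / 28 with hβ
  have hmin : 0 < min 1 η := lt_min one_pos hη
  have hβ0 : 0 < β := by rw [hβ]; positivity
  have hβ1 : β ≤ 1 := by
    rw [hβ]
    have : min 1 η ≤ 1 := min_le_left _ _
    linarith
  have hβη : 28 * β ≤ η := by
    rw [hβ]
    have : min 1 η ≤ η := min_le_right _ _
    linarith
  obtain ⟨X1, h1⟩ := var β hβ0 hβ1 E
  obtain ⟨X2, h2⟩ := gsum L A0 δ c β hδ hδ1 hc hβ0
  obtain ⟨X3, h3⟩ := Om_lower δ hδ hδ1 L
  obtain ⟨X4, h4⟩ := ev_pow (1 / 2) (4 / β) (by norm_num) 3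
  obtain ⟨X5, h5⟩ := ev_pow 1 (2 / (c * β)) (by norm_num) (2 * L + 3)
  refine ⟨max (max X1 X2) (max (max X3 X4) (max (max X5 16) (max A0 1))), ?_⟩
  intro X hX b hb U hU hUA z hz1 hz2 A hA hAc h hh Z s hZ hs hcop
  have hX1 : X1 ≤ X := le_trans (le_trans (le_max_left _ _) (le_max_left _ _)) hX
  have hX2 : X2 ≤ X := le_trans (le_trans (le_max_right _ _) (le_max_left _ _)) hX
  have hX3 : X3 ≤ X := le_trans (le_trans (le_trans (le_max_left _ _) (le_max_left _ _))
    (le_max_right _ _)) hX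
  have hX4 : X4 ≤ X := le_trans (le_trans (le_trans (le_max_right _ _) (le_max_left _ _))
    (le_max_right _ _)) hX
  have hX5 : X5 ≤ X := le_trans (le_trans (le_trans (le_max_left _ _) (le_max_left _ _))
    (le_trans (le_max_right _ _) (le_max_right _ _))) hX
  have hX16 : 16 ≤ X := le_trans (le_trans (le_trans (le_max_right _ _) (le_max_left _ _))
    (le_trans (le_max_right _ _) (le_max_right _ _))) hX
  have hXA : A0 ≤ X := le_trans (le_trans (le_trans (le_max_left _ _) (le_max_right _ _))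
    (le_trans (le_max_right _ _) (le_max_right _ _))) hX
  have hXr : (16 : ℝ) ≤ X := by exact_mod_cast hX16
  have hX0 : (0 : ℝ) < X := by linarith
  have hlog : 1 ≤ Real.log X := by
    rw [← Real.log_exp 1]
    apply Real.log_le_log (Real.exp_pos _)
    have := Real.exp_one_lt_d9
    linarith
  have hW0 : (0 : ℝ) < Wm X := by exact_mod_cast Wm_pos X
  have hWl : (Wm X : ℝ) ≤ Real.log X := by
    have e1 := Pool.Agent.H325R2.wtx1 X hX16
    refine e1.trans ?_
    calc Real.log X ^ (7 / 20 : ℝ) ≤ Real.log X ^ (1 : ℝ) :=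
          Real.rpow_le_rpow_of_exponent_le hlog (by norm_num)
      _ = Real.log X := Real.rpow_one _
  obtain ⟨hV0, hOm⟩ := h3 X hX3
  have hZr : 6 * (X : ℝ) ≤ Z := by exact_mod_cast hZ
  set Y : ℝ := ((Z : ℝ) - 5 * X) / Wm X with hY
  have hYX : (X : ℝ) / Real.log X ≤ Y := by
    rw [hY]
    calc (X : ℝ) / Real.log X ≤ (X : ℝ) / Wm X :=
          div_le_div_of_nonneg_left hX0.le hW0 hWl
      _ ≤ _ := by
          apply div_le_div_of_nonneg_right _ hW0.le
          linarith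
  have hYZ : Y ≤ Z / Wm X := by
    rw [hY]
    apply div_le_div_of_nonneg_right _ hW0.le
    linarith
  have hlogX : Real.log X ≤ X := (Real.log_le_sub_one_of_pos hX0).trans (by linarith)
  have hY1 : 1 ≤ Y := by
    refine le_trans ?_ hYX
    rw [le_div_iff₀ (by linarith)]
    linarith
  set a : ℝ := (A.card : ℝ) with ha
  have haX : c * (X / Real.log X ^ (2 * L + 1)) ≤ a :=
    (mul_le_mul_of_nonneg_left hOm hc.le).trans hAc
  have ha0 : 0 < a := lt_of_lt_of_le (by positivity) haX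
  set w : ℝ := wX X with hw
  have hw1 : 1 ≤ w := wX_one X
  set K : Finset ℕ := A.image (· + h) with hK
  have hKc : (K.card : ℝ) = a := by
    rw [hK, card_image_of_injective _ (fun x y hxy => by simpa using hxy)]
  have hAm : ∀ n ∈ A, X ≤ n ∧ n < 2 * X := by
    intro n hn
    have := mem_of_subset hA hn
    rw [mem_filter] at this
    have h6 := this.1
    unfold SI at h6
    rw [mem_filter, mem_Ico] at h6
    exact h6.1
  have hK5 : ∀ k ∈ K, k ≤ 5 * X := by
    intro k hk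
    rw [hK, mem_image] at hk
    obtain ⟨n, hn, rfl⟩ := hk
    have := hAm n hn
    omega
  have hKcop : ∀ N ∈ IN X Z s, ∀ k ∈ K, (N - k).Coprime (Wm X) := by
    intro N hN k hk
    rw [hK, mem_image] at hk
    obtain ⟨n, hn, rfl⟩ := hk
    exact hcop N hN n hn
  have hvar := h1 X hX1 Z s z (by omega) hs hz1 hz2 K hK5 hKcop
  have hg := h2 X hX2 b hb U hU hUA z A hA hAc
  rw [hKc, Gk_transfer] at hvar
  rw [← hY, ← hw] at hvar
  set G := ∑ n ∈ A, ∑ n' ∈ A.erase n, (Gk X z n n' - 1) with hG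
  set Bd := (IN X Z s).filter (fun N => ∑ k ∈ K, lamz z (N - k) < a / 2) with hBd
  -- lower bound of the variance
  have hlow : (Bd.card : ℝ) * (w * a / 2) ^ 2 ≤
      ∑ N ∈ IN X Z s, (∑ k ∈ K, (lamz z (N - k) - w)) ^ 2 := by
    calc (Bd.card : ℝ) * (w * a / 2) ^ 2 = ∑ N ∈ Bd, (w * a / 2) ^ 2 := by
          rw [sum_const, nsmul_eq_mul]
      _ ≤ ∑ N ∈ Bd, (∑ k ∈ K, (lamz z (N - k) - w)) ^ 2 := by
          apply sum_le_sum
          intro N hN
          rw [hBd, mem_filter] at hN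
          have e1 := hN.2
          rw [sum_sub_distrib, sum_const, nsmul_eq_mul, hKc]
          have e2 : a / 2 ≤ w * a / 2 := by nlinarith
          have e3 : 0 ≤ w * a / 2 := by positivity
          have e4 : w * a / 2 ≤ a * w - ∑ k ∈ K, lamz z (N - k) := by nlinarith
          nlinarith
      _ ≤ _ := by
          apply sum_le_sum_of_subset_of_nonneg (filter_subset _ _)
          intro _ _ _
          positivity
  have hup : Y * w ^ 2 * ((1 + β) * G + 3 * β * a ^ 2) +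
      4 * Real.log X ^ 2 * (X : ℝ) ^ (1 / 4 : ℝ) * a ^ 2 +
      Real.log X ^ 2 * (Y + 1) * a ≤ 7 * β * (Y * (w ^ 2 * a ^ 2)) := by
    have f1 : (1 + β) * G ≤ 2 * (β * a ^ 2) := by
      calc (1 + β) * G ≤ (1 + β) * (β * a ^ 2) := mul_le_mul_of_nonneg_left hg (by linarith)
        _ ≤ 2 * (β * a ^ 2) := mul_le_mul_of_nonneg_right (by linarith) (by positivity)
    have f2 : Y * w ^ 2 * ((1 + β) * G + 3 * β * a ^ 2) ≤ 5 * β * (Y * (w ^ 2 * a ^ 2)) := by
      calc Y * w ^ 2 * ((1 + β) * G + 3 * β * a ^ 2) ≤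
            Y * w ^ 2 * (2 * (β * a ^ 2) + 3 * β * a ^ 2) := by
            apply mul_le_mul_of_nonneg_left _ (by positivity)
            linarith
        _ = _ := by ring
    have f3 : 4 * Real.log X ^ 2 * (X : ℝ) ^ (1 / 4 : ℝ) * a ^ 2 ≤ β * (Y * (w ^ 2 * a ^ 2)) := by
      have e1 := h4 X hX4
      have e2 : (X : ℝ) ^ (1 / 4 : ℝ) * (X : ℝ) ^ (1 / 2 : ℝ) ≤ X := by
        rw [← Real.rpow_add hX0]
        calc (X : ℝ) ^ (1 / 4 + 1 / 2 : ℝ) ≤ (X : ℝ) ^ (1 : ℝ) :=
              Real.rpow_le_rpow_of_exponent_le (by linarith) (by norm_num)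
          _ = X := Real.rpow_one _
      have e3 : 4 * Real.log X ^ 2 * (X : ℝ) ^ (1 / 4 : ℝ) ≤ β * Y := by
        have e4 : 4 / β * Real.log X ^ 3 * (X : ℝ) ^ (1 / 4 : ℝ) ≤ X := by
          refine le_trans ?_ e2
          rw [mul_comm ((X : ℝ) ^ (1 / 4 : ℝ))]
          exact mul_le_mul_of_nonneg_right e1 (by positivity)
        have e5 : 4 * Real.log X ^ 2 * (X : ℝ) ^ (1 / 4 : ℝ) =
            β * (4 / β * Real.log X ^ 3 * (X : ℝ) ^ (1 / 4 : ℝ) / Real.log X) := by
          field_simp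
        rw [e5]
        apply mul_le_mul_of_nonneg_left _ hβ0.le
        refine le_trans ?_ hYX
        apply div_le_div_of_nonneg_right e4 (by linarith)
      calc 4 * Real.log X ^ 2 * (X : ℝ) ^ (1 / 4 : ℝ) * a ^ 2 ≤ β * Y * a ^ 2 :=
            mul_le_mul_of_nonneg_right e3 (by positivity)
        _ ≤ β * Y * (w ^ 2 * a ^ 2) := by
            apply mul_le_mul_of_nonneg_left _ (by positivity)
            have : 1 ≤ w ^ 2 := one_le_pow₀ hw1
            nlinarith [sq_nonneg a]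
        _ = _ := by ring
    have f4 : Real.log X ^ 2 * (Y + 1) * a ≤ β * (Y * (w ^ 2 * a ^ 2)) := by
      have e1 := h5 X hX5
      rw [Real.rpow_one] at e1
      have e2 : 2 * Real.log X ^ 2 ≤ β * a := by
        have e3 : 2 * Real.log X ^ 2 = β * (c * ((2 / (c * β) * Real.log X ^ (2 * L + 3)) /
            Real.log X ^ (2 * L + 1))) := by
          field_simp
          ring
        rw [e3]
        apply mul_le_mul_of_nonneg_left _ hβ0.le
        refine le_trans ?_ haX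
        apply mul_le_mul_of_nonneg_left _ hc.le
        apply div_le_div_of_nonneg_right e1 (by positivity)
      calc Real.log X ^ 2 * (Y + 1) * a ≤ Real.log X ^ 2 * (2 * Y) * a := by
            apply mul_le_mul_of_nonneg_right _ ha0.le
            apply mul_le_mul_of_nonneg_left _ (by positivity)
            linarith
        _ = (2 * Real.log X ^ 2) * (Y * a) := by ring
        _ ≤ β * a * (Y * a) := mul_le_mul_of_nonneg_right e2 (by positivity)
        _ = β * Y * (1 * a ^ 2) := by ring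
        _ ≤ β * Y * (w ^ 2 * a ^ 2) := by
            apply mul_le_mul_of_nonneg_left _ (by positivity)
            apply mul_le_mul_of_nonneg_right (one_le_pow₀ hw1) (by positivity)
        _ = _ := by ring
    calc _ ≤ 5 * β * (Y * (w ^ 2 * a ^ 2)) + β * (Y * (w ^ 2 * a ^ 2)) +
          β * (Y * (w ^ 2 * a ^ 2)) := add_le_add (add_le_add f2 f3) f4
      _ = _ := by ring
  have hfin : (Bd.card : ℝ) * (w * a / 2) ^ 2 ≤ 7 * β * (Y * (w ^ 2 * a ^ 2)) :=
    hlow.trans (hvar.trans hup)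
  have hpos : 0 < w ^ 2 * a ^ 2 := by positivity
  have hfin2 : (Bd.card : ℝ) * (w ^ 2 * a ^ 2) ≤ (28 * β * Y) * (w ^ 2 * a ^ 2) := by
    nlinarith
  have hfin3 : (Bd.card : ℝ) ≤ 28 * β * Y := le_of_mul_le_mul_right hfin2 hpos
  calc (Bd.card : ℝ) ≤ 28 * β * Y := hfin3
    _ ≤ η * Y := mul_le_mul_of_nonneg_right hβη (by linarith)
    _ ≤ _ := mul_le_mul_of_nonneg_left hYZ hη.le

end Pool.Agent.TH882.AG
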