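import Pool.Agent.H373R2.T7.BilLam

/-! The bilinear estimate for sums of two primes. -/

set_option autoImplicit false

open Finset Polynomial

namespace Pool.Agent.TH882.AG

open Pool.Agent.H373R2.T7

theorem bilK (U : ℕ) : ∃ B0 : ℕ, ∀ E : ℕ, ∃ Z0 : ℕ, ∀ Z : ℕ, Z0 ≤ Z → ∀ z : ℕ,
    Real.log Z ^ B0 ≤ z → (z : ℝ) ≤ Real.log Z ^ E → ∀ I K : Finset ℕ, (∀ N ∈ I, N ≤ Z) →
    (∀ k ∈ K, 1 ≤ k ∧ k ≤ Z) → (∀ N ∈ I, ∀ k ∈ K, k < N) →
    ∑ N ∈ I, |∑ k ∈ K, (ArithmeticFunction.vonMangoldt (N - k) - lamz z (N - k))| ≤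
      (Z : ℝ) * Z / Real.log Z ^ U := by
  classical
  obtain ⟨B0, hB⟩ := bil_lam (X : ℤ[X]) (by simp) (by simp) 1 le_rfl U
  refine ⟨B0, fun E => ?_⟩
  obtain ⟨N0, hN⟩ := hB E
  refine ⟨N0, ?_⟩
  intro Z hZ z hz1 hz2 I K hI hK hIK
  set F : ℕ → ℝ := fun N => ∑ k ∈ K, (ArithmeticFunction.vonMangoldt (N - k) - lamz z (N - k)) with hF
  set G : ℕ → ℂ := fun a => if a ∈ I then ((if 0 ≤ F a then (1 : ℝ) else -1 : ℝ) : ℂ) else 0 with hG
  set c : ℕ → ℂ := fun m => if m ∈ K then 1 else 0 with hc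
  have h := hN Z hZ Z (by simp) (by simp) Z (by simp) z hz1 hz2 (-1) (Or.inr rfl) G c
    (by
      intro a
      rw [hG]
      simp only
      split_ifs <;> simp)
    (by
      intro m
      rw [hc]
      simp only
      split_ifs <;> simp)
  have e0 : ∀ a ∈ Icc 1 Z, ∑ m ∈ Icc 1 Z, G a * c m *
      ((lamI (a + -1 * (X : ℤ[X]).eval (m : ℤ)) - lamzI z (a + -1 * (X : ℤ[X]).eval (m : ℤ)) : ℝ) : ℂ) =
      if a ∈ I then ((|F a| : ℝ) : ℂ) else 0 := by
    intro a _
    by_cases ha : a ∈ I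
    · rw [if_pos ha]
      have e1 : ∑ m ∈ Icc 1 Z, G a * c m *
          ((lamI (a + -1 * (X : ℤ[X]).eval (m : ℤ)) -
            lamzI z (a + -1 * (X : ℤ[X]).eval (m : ℤ)) : ℝ) : ℂ) =
          ∑ m ∈ K, G a * ((ArithmeticFunction.vonMangoldt (a - m) - lamz z (a - m) : ℝ) : ℂ) := by
        have e2 : ∀ m ∈ Icc 1 Z, G a * c m *
            ((lamI (a + -1 * (X : ℤ[X]).eval (m : ℤ)) -
              lamzI z (a + -1 * (X : ℤ[X]).eval (m : ℤ)) : ℝ) : ℂ) =
            if m ∈ K then G a *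
              ((ArithmeticFunction.vonMangoldt (a - m) - lamz z (a - m) : ℝ) : ℂ) else 0 := by
          intro m _
          rw [hc]
          simp only
          by_cases hm : m ∈ K
          · rw [if_pos hm, if_pos hm, mul_one]
            have hlt := hIK a ha m hm
            have e3 : (a : ℤ) + -1 * (X : ℤ[X]).eval (m : ℤ) = ((a - m : ℕ) : ℤ) := by
              rw [eval_X, Nat.cast_sub hlt.le]
              ring
            rw [e3]
            unfold lamI lamzI
            have e4 : (1 : ℤ) ≤ ((a - m : ℕ) : ℤ) := by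
              have : 1 ≤ a - m := by omega
              exact_mod_cast this
            rw [if_pos e4, if_pos e4, Int.toNat_natCast]
          · rw [if_neg hm, if_neg hm, mul_zero, zero_mul]
        rw [sum_congr rfl e2, ← sum_filter]
        congr 1
        ext m
        rw [mem_filter, mem_Icc]
        constructor
        · exact fun h => h.2
        · exact fun h => ⟨hK m h, h⟩
      rw [e1, ← mul_sum, ← Complex.ofReal_sum]
      have e5 : G a = ((if 0 ≤ F a then (1 : ℝ) else -1 : ℝ) : ℂ) := by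
        rw [hG]
        simp only
        rw [if_pos ha]
      rw [e5, ← Complex.ofReal_mul]
      congr 1
      have e6 : ∑ i ∈ K, (ArithmeticFunction.vonMangoldt (a - i) - lamz z (a - i)) = F a := rfl
      rw [e6]
      split_ifs with h0
      · rw [one_mul, abs_of_nonneg h0]
      · push Not at h0
        rw [abs_of_neg h0]
        ring
    · rw [if_neg ha]
      have e5 : G a = 0 := by
        rw [hG]
        simp only
        rw [if_neg ha]
      simp [e5]
  rw [sum_congr rfl e0, ← sum_filter] at h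
  have e1 : (∑ a ∈ (Icc 1 Z).filter (fun a => a ∈ I), ((|F a| : ℝ) : ℂ)) =
      ((∑ a ∈ I.filter (fun a => 1 ≤ a), |F a| : ℝ) : ℂ) := by
    rw [Complex.ofReal_sum]
    congr 1
    ext a
    rw [mem_filter, mem_filter, mem_Icc]
    constructor
    · exact fun h => ⟨h.2, h.1.1⟩
    · exact fun h => ⟨⟨h.2, hI a h.1⟩, h.1⟩
  rw [e1, Complex.norm_real, Real.norm_of_nonneg (sum_nonneg fun _ _ => abs_nonneg _)] at h
  refine le_trans (le_of_eq ?_) h
  symm
  apply sum_subset (filter_subset _ _)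
  intro a ha ha2
  rw [mem_filter, not_and] at ha2
  have h0 : a = 0 := by
    have := ha2 ha
    omega
  have hKe : K = ∅ := by
    rw [eq_empty_iff_forall_notMem]
    intro k hk
    have := hIK a ha k hk
    omega
  have : F a = 0 := by
    rw [hF, hKe]
    simp
  change |F a| = 0
  rw [this, abs_zero]

end Pool.Agent.TH882.AG
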