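import Pool.Agent.TH882.GSum

/-! The tuple and the choice of the residue class. -/

set_option autoImplicit false

open Finset

namespace Pool.Agent.TH882.AG

open Pool.Agent.H361R2.PP

/-- the local condition -/
def Loc (S : Finset ℤ) (N : ℕ) : Prop := ∀ l : ℕ, l.Prime → ∃ r : ℤ,
  ¬ (l : ℤ) ∣ r ∧ ¬ (l : ℤ) ∣ N - r ∧ ∀ a ∈ S, ¬ (l : ℤ) ∣ r + a

/-- size of the shifts -/
def n0 (S : Finset ℤ) : ℕ := ∑ a ∈ S, a.natAbs + 1

lemma n0_gt (S : Finset ℤ) (a : ℤ) (ha : a ∈ S) : |a| < n0 S := by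
  unfold n0
  have h1 : a.natAbs ≤ ∑ a ∈ S, a.natAbs := single_le_sum (f := fun a : ℤ => a.natAbs)
    (fun _ _ => Nat.zero_le _) ha
  rw [Int.abs_eq_natAbs]
  have h2 : (a.natAbs : ℤ) ≤ ((∑ a ∈ S, a.natAbs : ℕ) : ℤ) := Int.ofNat_le.2 h1
  rw [Nat.cast_add]
  have h3 : ((1 : ℕ) : ℤ) = 1 := rfl
  rw [h3]
  linarith

/-- the number of residue classes to be avoided -/
def l0 (S : Finset ℤ) (T K : ℕ) : ℕ := T * K * (S.card + 2)

/-- the positions of the primes -/
def Hp (S : Finset ℤ) (T K : ℕ) (g : Fin T) (i : Fin K) : ℕ :=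
  primorial (l0 S T K) * (n0 S + (g * K + i))

lemma Hp_inj (S : Finset ℤ) (T K : ℕ) :
    Function.Injective (fun x : Fin T × Fin K => Hp S T K x.1 x.2) := by
  rintro ⟨g, i⟩ ⟨g', i'⟩ h
  simp only [Hp] at h
  have hp : 0 < primorial (l0 S T K) := primorial_pos _
  have h1 := Nat.eq_of_mul_eq_mul_left hp h
  have h2 : (g : ℕ) * K + i = g' * K + i' := by omega
  have hi := i.2
  have hi' := i'.2
  have hK : 0 < K := by omega
  have h3 : ((g : ℕ) * K + i) / K = g := by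
    rw [mul_comm, Nat.mul_add_div hK, Nat.div_eq_of_lt hi, Nat.add_zero]
  have h4 : ((g' : ℕ) * K + i') / K = g' := by
    rw [mul_comm, Nat.mul_add_div hK, Nat.div_eq_of_lt hi', Nat.add_zero]
  have h5 : (g : ℕ) = g' := by rw [← h3, ← h4, h2]
  have h6 : (i : ℕ) = i' := by rw [h5] at h2; omega
  exact Prod.ext (Fin.ext h5) (Fin.ext h6)

lemma Hp_ge (S : Finset ℤ) (T K : ℕ) (g : Fin T) (i : Fin K) : n0 S ≤ Hp S T K g i := by
  unfold Hp
  have hp : 0 < primorial (l0 S T K) := primorial_pos _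
  calc n0 S ≤ n0 S + (g * K + i) := Nat.le_add_right _ _
    _ = 1 * (n0 S + (g * K + i)) := (one_mul _).symm
    _ ≤ _ := Nat.mul_le_mul_right _ hp

/-- all positions -/
def Up (S : Finset ℤ) (T K : ℕ) : Finset ℕ :=
  (univ : Finset (Fin T × Fin K)).image (fun x => Hp S T K x.1 x.2) ∪
  ((univ : Finset (Fin T × Fin K)) ×ˢ S).image (fun x => ((Hp S T K x.1.1 x.1.2 : ℤ) + x.2).toNat)

lemma Hp_mem (S : Finset ℤ) (T K : ℕ) (g : Fin T) (i : Fin K) : Hp S T K g i ∈ Up S T K := by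
  unfold Up
  rw [mem_union, mem_image]
  exact Or.inl ⟨(g, i), mem_univ _, rfl⟩

lemma Hpa_mem (S : Finset ℤ) (T K : ℕ) (g : Fin T) (i : Fin K) (a : ℤ) (ha : a ∈ S) :
    ((Hp S T K g i : ℤ) + a).toNat ∈ Up S T K := by
  unfold Up
  rw [mem_union, mem_image, mem_image]
  exact Or.inr ⟨((g, i), a), mem_product.2 ⟨mem_univ _, ha⟩, rfl⟩

lemma Hpa_pos (S : Finset ℤ) (T K : ℕ) (g : Fin T) (i : Fin K) (a : ℤ) (ha : a ∈ S) :
    0 < (Hp S T K g i : ℤ) + a := by
  have h1 := n0_gt S a ha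
  have h2 := Hp_ge S T K g i
  have h3 := neg_abs_le a
  omega

lemma Up_card (S : Finset ℤ) (T K : ℕ) : (Up S T K).card ≤ T * K + T * K * S.card := by
  unfold Up
  refine (card_union_le _ _).trans ?_
  apply add_le_add
  · refine card_image_le.trans ?_
    simp
  · refine card_image_le.trans ?_
    rw [card_product]
    simp

lemma Up_pos (S : Finset ℤ) (T K : ℕ) (u : ℕ) (hu : u ∈ Up S T K) : 1 ≤ u := by
  unfold Up at hu
  rw [mem_union, mem_image, mem_image] at hu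
  rcases hu with ⟨x, -, rfl⟩ | ⟨x, hx, rfl⟩
  · have := Hp_ge S T K x.1 x.2
    have h2 : 1 ≤ n0 S := by unfold n0; omega
    omega
  · rw [mem_product] at hx
    have := Hpa_pos S T K x.1.1 x.1.2 x.2 hx.2
    omega

/-- a residue class modulo one prime -/
lemma one_prime (S : Finset ℤ) (T K N : ℕ) (hN : Loc S N) (l : ℕ) (hl : l.Prime) :
    ∃ r : ℕ, ∀ g i, ¬ (l : ℤ) ∣ r + Hp S T K g i ∧ ¬ (l : ℤ) ∣ N - r - Hp S T K g i ∧
      ∀ a ∈ S, ¬ (l : ℤ) ∣ r + (Hp S T K g i + a) := by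
  classical
  have hl0 : (0 : ℤ) < l := by exact_mod_cast hl.pos
  by_cases h : l ≤ l0 S T K
  · obtain ⟨r, h1, h2, h3⟩ := hN l hl
    refine ⟨(r % l).toNat, fun g i => ?_⟩
    have hr : (((r % l).toNat : ℕ) : ℤ) = r % l := Int.toNat_of_nonneg (Int.emod_nonneg _ hl0.ne')
    have hd : (l : ℤ) ∣ Hp S T K g i := by
      have h4 : l ∣ primorial (l0 S T K) := hl.dvd_primorial_iff.2 h
      have h5 : l ∣ Hp S T K g i := by
        unfold Hp
        exact h4.mul_right _
      exact_mod_cast h5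
    have hrr : (l : ℤ) ∣ r - r % l := Int.dvd_self_sub_emod
    rw [hr]
    refine ⟨fun h4 => h1 ?_, fun h4 => h2 ?_, fun a ha h4 => h3 a ha ?_⟩
    · have : r = (r % l + Hp S T K g i) - Hp S T K g i + (r - r % l) := by ring
      rw [this]
      exact ((h4.sub hd).add hrr)
    · have : (N : ℤ) - r = (N - r % l - Hp S T K g i) + Hp S T K g i - (r - r % l) := by ring
      rw [this]
      exact ((h4.add hd).sub hrr)
    · have : r + a = (r % l + (Hp S T K g i + a)) - Hp S T K g i + (r - r % l) := by ring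
      rw [this]
      exact ((h4.sub hd).add hrr)
  · have : Fact l.Prime := ⟨hl⟩
    push Not at h
    set bad : Finset (ZMod l) :=
      ((univ : Finset (Fin T × Fin K)).image (fun x => -((Hp S T K x.1 x.2 : ℤ) : ZMod l)) ∪
      (univ : Finset (Fin T × Fin K)).image (fun x => (((N : ℤ) - Hp S T K x.1 x.2 : ℤ) : ZMod l))) ∪
      ((univ : Finset (Fin T × Fin K)) ×ˢ S).image
        (fun x => -(((Hp S T K x.1.1 x.1.2 : ℤ) + x.2 : ℤ) : ZMod l)) with hbad
    have hcard : bad.card < Fintype.card (ZMod l) := by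
      rw [ZMod.card]
      refine lt_of_le_of_lt ?_ h
      rw [hbad]
      refine (card_union_le _ _).trans ?_
      have h1 : ((univ : Finset (Fin T × Fin K)).image (fun x => -((Hp S T K x.1 x.2 : ℤ) : ZMod l)) ∪
        (univ : Finset (Fin T × Fin K)).image
          (fun x => (((N : ℤ) - Hp S T K x.1 x.2 : ℤ) : ZMod l))).card ≤ T * K + T * K := by
        refine (card_union_le _ _).trans ?_
        apply add_le_add <;>
        · refine card_image_le.trans ?_
          simp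
      have h2 : (((univ : Finset (Fin T × Fin K)) ×ˢ S).image
        (fun x => -(((Hp S T K x.1.1 x.1.2 : ℤ) + x.2 : ℤ) : ZMod l))).card ≤ T * K * S.card := by
        refine card_image_le.trans ?_
        rw [card_product]
        simp
      unfold l0
      nlinarith
    obtain ⟨x, hx⟩ : ∃ x : ZMod l, x ∉ bad := by
      by_contra hcon
      push Not at hcon
      have : bad = univ := by
        ext y
        simp [hcon y]
      rw [this, card_univ] at hcard
      exact lt_irrefl _ hcard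
    refine ⟨x.val, fun g i => ?_⟩
    have hxv : (((x.val : ℕ) : ℤ) : ZMod l) = x := by
      push_cast
      exact ZMod.natCast_zmod_val x
    rw [hbad, mem_union, mem_union, mem_image, mem_image, mem_image] at hx
    push Not at hx
    obtain ⟨⟨h1, h2⟩, h3⟩ := hx
    refine ⟨fun h4 => ?_, fun h4 => ?_, fun a ha h4 => ?_⟩
    · rw [← ZMod.intCast_zmod_eq_zero_iff_dvd, Int.cast_add, hxv] at h4
      apply h1 (g, i) (mem_univ _)
      linear_combination -h4
    · rw [← ZMod.intCast_zmod_eq_zero_iff_dvd] at h4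
      apply h2 (g, i) (mem_univ _)
      have h5 : (((N : ℤ) - (x.val : ℕ) - Hp S T K g i : ℤ) : ZMod l) =
          (((N : ℤ) - Hp S T K g i : ℤ) : ZMod l) - (((x.val : ℕ) : ℤ) : ZMod l) := by
        push_cast
        ring
      rw [h5, hxv] at h4
      exact sub_eq_zero.1 h4
    · rw [← ZMod.intCast_zmod_eq_zero_iff_dvd, Int.cast_add, hxv] at h4
      apply h3 ((g, i), a) (mem_product.2 ⟨mem_univ _, ha⟩)
      linear_combination -h4

/-- a residue class modulo `W` -/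
lemma exists_class (S : Finset ℤ) (T K N X : ℕ) (hN : Loc S N) :
    ∃ b : ℕ, b < Wm X ∧ (∀ u ∈ Up S T K, (b + u).Coprime (Wm X)) ∧
      ∀ g i, ∀ l : ℕ, l.Prime → l ∣ Wm X → ¬ (l : ℤ) ∣ N - b - Hp S T K g i := by
  classical
  choose! r hr using fun (l : ℕ) (hl : l.Prime) => one_prime S T K N hN l hl
  obtain ⟨b0, -, hb0⟩ := Pool.Agent.TH882.UB.crt ∅ ((range (HH X + 1)).filter Nat.Prime) (by simp)
    (fun p hp => (mem_filter.1 hp).2) (disjoint_empty_left _) 0 r
  have hW := Wm_pos X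
  refine ⟨b0 % Wm X, Nat.mod_lt _ hW, ?_, ?_⟩
  · intro u hu
    rw [Nat.coprime_iff_gcd_eq_one]
    by_contra hcon
    obtain ⟨l, hl, hlg⟩ := Nat.exists_prime_and_dvd hcon
    have h1 : l ∣ b0 % Wm X + u := hlg.trans (Nat.gcd_dvd_left _ _)
    have h2 : l ∣ Wm X := hlg.trans (Nat.gcd_dvd_right _ _)
    have h3 : l ≤ HH X := by
      unfold Wm at h2
      exact hl.dvd_primorial_iff.1 h2
    have h4 : b0 % Wm X ≡ b0 [MOD l] := (Nat.mod_modEq _ _).of_dvd h2
    have h5 : b0 ≡ r l [MOD l] := hb0 l (mem_filter.2 ⟨mem_range.2 (by omega), hl⟩)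
    have h6 : r l + u ≡ b0 % Wm X + u [MOD l] := (h4.trans h5).symm.add_right u
    have h7 : l ∣ r l + u := (h6.dvd_iff dvd_rfl).2 h1
    unfold Up at hu
    rw [mem_union, mem_image, mem_image] at hu
    rcases hu with ⟨x, -, rfl⟩ | ⟨x, hx, rfl⟩
    · exact (hr l hl x.1 x.2).1 (by exact_mod_cast h7)
    · rw [mem_product] at hx
      have h8 := Hpa_pos S T K x.1.1 x.1.2 x.2 hx.2
      apply (hr l hl x.1.1 x.1.2).2.2 x.2 hx.2
      have h9 : (l : ℤ) ∣ (r l : ℤ) + ((((Hp S T K x.1.1 x.1.2 : ℤ) + x.2).toNat : ℕ) : ℤ) := by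
        exact_mod_cast h7
      rwa [Int.toNat_of_nonneg h8.le] at h9
  · intro g i l hl hlW hd
    have h3 : l ≤ HH X := by
      unfold Wm at hlW
      exact hl.dvd_primorial_iff.1 hlW
    have h4 : b0 % Wm X ≡ b0 [MOD l] := (Nat.mod_modEq _ _).of_dvd hlW
    have h5 : b0 ≡ r l [MOD l] := hb0 l (mem_filter.2 ⟨mem_range.2 (by omega), hl⟩)
    have h6 := Nat.modEq_iff_dvd.1 (h4.trans h5)
    apply (hr l hl g i).2.1
    have : (N : ℤ) - (r l : ℕ) - Hp S T K g i =
        (N - (b0 % Wm X : ℕ) - Hp S T K g i) - ((r l : ℤ) - (b0 % Wm X : ℕ)) := by ring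
    rw [this]
    exact hd.sub h6

/-- coprimality of the differences -/
lemma coprime_diff (S : Finset ℤ) (T K N N' X b n : ℕ) (g : Fin T) (i : Fin K)
    (hb : ∀ l : ℕ, l.Prime → l ∣ Wm X → ¬ (l : ℤ) ∣ N - b - Hp S T K g i)
    (hN' : N' % Wm X = N % Wm X) (hn : n % Wm X = b) (hle : n + Hp S T K g i ≤ N') :
    (N' - (n + Hp S T K g i)).Coprime (Wm X) := by
  rw [Nat.coprime_iff_gcd_eq_one]
  by_contra hcon
  obtain ⟨l, hl, hlg⟩ := Nat.exists_prime_and_dvd hcon
  have h1 : l ∣ N' - (n + Hp S T K g i) := hlg.trans (Nat.gcd_dvd_left _ _)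
  have h2 : l ∣ Wm X := hlg.trans (Nat.gcd_dvd_right _ _)
  apply hb l hl h2
  have h3 : (l : ℤ) ∣ (N' : ℤ) - (n + Hp S T K g i) := by
    have h4 : ((N' - (n + Hp S T K g i) : ℕ) : ℤ) = (N' : ℤ) - (n + Hp S T K g i) := by
      rw [Nat.cast_sub hle]
      push_cast
      ring
    rw [← h4]
    exact_mod_cast h1
  have h5 : (l : ℤ) ∣ (N' : ℤ) - N := by
    have h6 : N ≡ N' [MOD l] := Nat.ModEq.of_dvd h2 hN'.symm
    exact Nat.modEq_iff_dvd.1 h6
  have h7 : (l : ℤ) ∣ (n : ℤ) - b := by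
    have h8 : b ≡ n [MOD l] := by
      rw [← hn]
      exact (Nat.mod_modEq _ _).of_dvd h2
    exact Nat.modEq_iff_dvd.1 h8
  have : (N : ℤ) - b - Hp S T K g i = ((N' : ℤ) - (n + Hp S T K g i)) - (N' - N) + (n - b) := by
    ring
  rw [this]
  exact (h3.sub h5).add h7

end Pool.Agent.TH882.AG
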