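import Pool.Agent.TH882.Cls
import Pool.Agent.TH882.MtE

/-! Clusters of primes with almost prime companions. -/

set_option autoImplicit false

open Finset Filter Topology

namespace Pool.Agent.TH882.AG

open Pool.Agent.H361R2.PP
open Pool.Agent.W70.HR
open Pool.Agent.TH882.UB
open Pool.Agent.TH882.HE

/-- all the shifts of `q` have at most `r` prime factors -/
def AP (S : Finset ℤ) (r q : ℕ) : Prop :=
  ∀ a ∈ S, 0 < (q : ℤ) + a ∧ ArithmeticFunction.cardFactors ((q : ℤ) + a).toNat ≤ r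

open Classical in
/-- the primes `q ≠ p` near `p` with almost prime shifts -/
noncomputable def Nb (S : Finset ℤ) (r C p : ℕ) : Finset ℕ :=
  (Icc (p - C) (p + C)).filter (fun q => q.Prime ∧ q ≠ p ∧ AP S r q)

open Classical in
/-- the representations -/
noncomputable def Rep (S : Finset ℤ) (m r C N : ℕ) : Finset ℕ :=
  (range N).filter (fun p => p.Prime ∧ (N - p).Prime ∧ AP S r p ∧ m ≤ (Nb S r C p).card)

lemma pow_cardFactors_le (y : ℝ) (hy : 0 ≤ y) (n : ℕ) (hn : n ≠ 0)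
    (h : ∀ l : ℕ, l.Prime → l ∣ n → y ≤ l) :
    y ^ (ArithmeticFunction.cardFactors n) ≤ n := by
  rw [ArithmeticFunction.cardFactors_apply]
  have h1 : ((n.primeFactorsList.map (fun l : ℕ => (l : ℝ))).prod) = n := by
    have : ((n.primeFactorsList.prod : ℕ) : ℝ) = n := by rw [Nat.prod_primeFactorsList hn]
    rw [← this, Nat.cast_list_prod]
  rw [← h1]
  have h2 : ∀ L : List ℕ, (∀ l ∈ L, y ≤ l) → y ^ L.length ≤ (L.map (fun l : ℕ => (l : ℝ))).prod := by
    intro L
    induction L with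
    | nil => intro _; simp
    | cons a L ih =>
      intro hL
      rw [List.length_cons, pow_succ, List.map_cons, List.prod_cons, mul_comm]
      apply mul_le_mul (hL a (by simp)) (ih (fun l hl => hL l (by simp [hl]))) (by positivity)
      exact Nat.cast_nonneg _
  apply h2
  intro l hl
  rw [Nat.mem_primeFactorsList hn] at hl
  exact h l hl.1 hl.2

/-- rough numbers have few prime factors -/
lemma rough_ap (δ : ℝ) (hδ : 0 < δ) (hδ1 : δ ≤ 1) : ∃ X₀ : ℕ, ∀ X : ℕ, X₀ ≤ X → ∀ b n u : ℕ,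
    b < Wm X → n ∈ SI X b → (b + u).Coprime (Wm X) → u ≤ X →
    rg (P1 (HH X) (JJ δ X)) u n = 1 → ArithmeticFunction.cardFactors (n + u) ≤ ⌊4 / δ⌋₊ := by
  obtain ⟨X1, h1⟩ := JJ_size δ hδ hδ1 0 0 (by simp)
  refine ⟨max X1 3, ?_⟩
  intro X hX b n u hb hn hcop hu hr
  have hX1 : X1 ≤ X := le_trans (le_max_left _ _) hX
  have hX3 : 3 ≤ X := le_trans (le_max_right _ _) hX
  obtain ⟨-, -, hHJ, hsz⟩ := h1 X hX1
  have hXr : (3 : ℝ) ≤ X := by exact_mod_cast hX3
  have hX0 : (0 : ℝ) < X := by linarith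
  unfold SI at hn
  rw [mem_filter, mem_Ico] at hn
  obtain ⟨⟨hn1, hn2⟩, hnb⟩ := hn
  have hne : n + u ≠ 0 := by omega
  rw [rg_one] at hr
  have hpf : ∀ l : ℕ, l.Prime → l ∣ n + u → (X : ℝ) ^ (δ / 2) ≤ l := by
    intro l hl hd
    by_contra hcon
    push Not at hcon
    have e1 : (l : ℝ) < ((2 ^ 2 ^ JJ δ X : ℕ) : ℝ) := lt_of_lt_of_le hcon hsz
    have e2 : l < 2 ^ 2 ^ JJ δ X := by exact_mod_cast e1
    by_cases hlH : HH X < l
    · apply hr l _ hd
      unfold P1
      rw [mem_filter, mem_range]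
      exact ⟨e2, hl, hlH⟩
    · push Not at hlH
      have e3 : l ∣ Wm X := by
        unfold Wm
        exact hl.dvd_primorial_iff.2 hlH
      have e4 : n ≡ b [MOD l] := by
        have : b ≡ n [MOD l] := by
          rw [← hnb]
          exact (Nat.mod_modEq _ _).of_dvd e3
        exact this.symm
      have e5 : l ∣ b + u := ((e4.add_right u).dvd_iff dvd_rfl).1 hd
      have e6 := Nat.dvd_gcd e5 e3
      rw [Nat.coprime_iff_gcd_eq_one] at hcop
      rw [hcop] at e6
      exact hl.one_lt.ne' (Nat.dvd_one.1 e6)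
  have h2 := pow_cardFactors_le ((X : ℝ) ^ (δ / 2)) (by positivity) (n + u) hne hpf
  have h3 : ((n + u : ℕ) : ℝ) ≤ (X : ℝ) ^ (2 : ℝ) := by
    have e1 : ((n + u : ℕ) : ℝ) ≤ 3 * X := by
      have : n + u ≤ 3 * X := by omega
      exact_mod_cast this
    rw [show (2 : ℝ) = ((2 : ℕ) : ℝ) by norm_num, Real.rpow_natCast]
    nlinarith
  have h4 := h2.trans h3
  rw [← Real.rpow_natCast, ← Real.rpow_mul hX0.le] at h4
  have h5 := (Real.rpow_le_rpow_left_iff (by linarith)).1 h4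
  apply Nat.le_floor
  rw [le_div_iff₀ hδ]
  linarith

/-- the pigeonhole for the position of a prime -/
lemma pigeon {T K : ℕ} (hT : 1 ≤ T) (hK : 1 ≤ K) (B : Finset ℕ) (P : Fin T → Fin K → ℕ → Prop)
    [∀ g i n, Decidable (P g i n)]
    (h : ∀ n ∈ B, ∃ g i, P g i n) : ∃ g i, (B.card : ℝ) / (T * K) ≤ ((B.filter (P g i)).card : ℝ) := by
  classical
  by_contra hcon
  push Not at hcon
  have h1 : (B.card : ℝ) ≤ ∑ x : Fin T × Fin K, ((B.filter (P x.1 x.2)).card : ℝ) := by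
    have e1 : B ⊆ (univ : Finset (Fin T × Fin K)).biUnion (fun x => B.filter (P x.1 x.2)) := by
      intro n hn
      obtain ⟨g, i, hgi⟩ := h n hn
      rw [mem_biUnion]
      exact ⟨(g, i), mem_univ _, mem_filter.2 ⟨hn, hgi⟩⟩
    have e2 := (card_le_card e1).trans card_biUnion_le
    exact_mod_cast e2
  have : Nonempty (Fin T × Fin K) := ⟨(⟨0, by omega⟩, ⟨0, by omega⟩)⟩
  have h2 : ∑ x : Fin T × Fin K, ((B.filter (P x.1 x.2)).card : ℝ) <
      ∑ x : Fin T × Fin K, (B.card : ℝ) / (T * K) := by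
    apply sum_lt_sum_of_nonempty univ_nonempty
    intro x _
    exact hcon x.1 x.2
  rw [sum_const, card_univ, Fintype.card_prod, Fintype.card_fin, Fintype.card_fin, nsmul_eq_mul] at h2
  have hTK : ((T * K : ℕ) : ℝ) ≠ 0 := by
    have : 0 < T * K := Nat.mul_pos hT hK
    positivity
  have h3 : ((T * K : ℕ) : ℝ) * ((B.card : ℝ) / (T * K)) = B.card := by
    push_cast at hTK ⊢
    field_simp
  rw [h3] at h2
  linarith

/-- the cluster around a prime -/
lemma cluster (S : Finset ℤ) (m K X b r A0 : ℕ) (δ : ℝ) (hA0 : ∀ u ∈ Up S (4 * (m + 1)) K, u ≤ A0)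
    (hr : ∀ n ∈ SI X b, ∀ u ∈ Up S (4 * (m + 1)) K, rg (P1 (HH X) (JJ δ X)) u n = 1 →
      ArithmeticFunction.cardFactors (n + u) ≤ r)
    (n : ℕ) (hn : n ∈ HS δ X b (Hp S (4 * (m + 1)) K) (Up S (4 * (m + 1)) K)) :
    (∀ g i, AP S r (n + Hp S (4 * (m + 1)) K g i)) ∧
    ∀ g i, m ≤ (Nb S r A0 (n + Hp S (4 * (m + 1)) K g i)).card := by
  classical
  unfold HS at hn
  rw [mem_filter] at hn
  obtain ⟨hnS, hru, hT⟩ := hn
  have hap : ∀ g i, AP S r (n + Hp S (4 * (m + 1)) K g i) := by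
    intro g i a ha
    have e1 := Hpa_pos S (4 * (m + 1)) K g i a ha
    have e2 := Hpa_mem S (4 * (m + 1)) K g i a ha
    have e3 : ((n + Hp S (4 * (m + 1)) K g i : ℕ) : ℤ) + a =
        ((n + ((Hp S (4 * (m + 1)) K g i : ℤ) + a).toNat : ℕ) : ℤ) := by
      push_cast
      rw [Int.toNat_of_nonneg e1.le]
      ring
    refine ⟨?_, ?_⟩
    · push_cast
      omega
    · rw [e3, Int.toNat_natCast]
      exact hr n hnS _ e2 (hru _ e2)
  refine ⟨hap, ?_⟩
  intro g0 i0
  set G := (univ : Finset (Fin (4 * (m + 1)))).filter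
    (fun g => ∃ i, (n + Hp S (4 * (m + 1)) K g i).Prime) with hG
  have hG2 : m + 1 ≤ G.card := by
    have : 4 * (m + 1) ≤ 4 * G.card := by
      convert hT
    omega
  have hex : ∀ g : Fin (4 * (m + 1)), ∃ i : Fin K, g ∈ G → (n + Hp S (4 * (m + 1)) K g i).Prime := by
    intro g
    by_cases hg : g ∈ G
    · have e1 := hg
      rw [hG, mem_filter] at e1
      obtain ⟨i, hi⟩ := e1.2
      exact ⟨i, fun _ => hi⟩
    · exact ⟨i0, fun h => absurd h hg⟩
  choose j hj using hex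
  set Q := G.image (fun g => n + Hp S (4 * (m + 1)) K g (j g)) with hQ
  have hQc : Q.card = G.card := by
    rw [hQ]
    apply card_image_of_injOn
    intro g _ g' _ h
    simp only at h
    have e1 : Hp S (4 * (m + 1)) K g (j g) = Hp S (4 * (m + 1)) K g' (j g') := by omega
    have e2 := @Hp_inj S (4 * (m + 1)) K (g, j g) (g', j g') e1
    exact (Prod.ext_iff.1 e2).1
  have hsub : Q.erase (n + Hp S (4 * (m + 1)) K g0 i0) ⊆ Nb S r A0 (n + Hp S (4 * (m + 1)) K g0 i0) := by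
    intro q hq
    rw [mem_erase, hQ, mem_image] at hq
    obtain ⟨hne, g, hg, rfl⟩ := hq
    unfold Nb
    rw [mem_filter, mem_Icc]
    have e1 := hA0 _ (Hp_mem S (4 * (m + 1)) K g (j g))
    have e2 := hA0 _ (Hp_mem S (4 * (m + 1)) K g0 i0)
    refine ⟨⟨by omega, by omega⟩, hj g hg, hne, hap g (j g)⟩
  have h1 := card_le_card hsub
  have h2 := pred_card_le_card_erase (s := Q) (a := n + Hp S (4 * (m + 1)) K g0 i0)
  omega

end Pool.Agent.TH882.AG
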