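import Pool.Agent.TH882.PolyAux
import Pool.Agent.TH882.Clu

/-! The tuple and the choice of the residue class, for a polynomial. -/

set_option autoImplicit false

open Finset Polynomial

namespace Pool.Agent.TH882.PG

open Pool.Agent.H361R2.PP
open Pool.Agent.TH882.AG (n0 n0_gt)
open Pool.Agent.TH882.UB

/-- the local condition -/
def LocP (g : ℤ[X]) (σ : ℤ) (S : Finset ℤ) (N : ℤ) : Prop := ∀ l : ℕ, l.Prime → ∃ r : ℤ,
  ¬ (l : ℤ) ∣ r ∧ ¬ (l : ℤ) ∣ N + σ * g.eval r ∧ ∀ a ∈ S, ¬ (l : ℤ) ∣ r + a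

/-- the number of residue classes to be avoided -/
def l1 (S : Finset ℤ) (T K e : ℕ) : ℕ := T * K * (S.card + 1 + e) + e

/-- the positions of the primes -/
def Hq (S : Finset ℤ) (T K e : ℕ) (g : Fin T) (i : Fin K) : ℕ :=
  primorial (l1 S T K e) * (n0 S + (g * K + i))

lemma Hq_inj (S : Finset ℤ) (T K e : ℕ) :
    Function.Injective (fun x : Fin T × Fin K => Hq S T K e x.1 x.2) := by
  rintro ⟨g, i⟩ ⟨g', i'⟩ h
  simp only [Hq] at h
  have hp : 0 < primorial (l1 S T K e) := primorial_pos _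
  have h1 := Nat.eq_of_mul_eq_mul_left hp h
  have h2 : (g : ℕ) * K + i = g' * K + i' := by omega
  have hi := i.2
  have hi' := i'.2
  have hK : 0 < K := by omega
  have h3 : ((g : ℕ) * K + i) / K = g := by
    rw [mul_comm, Nat.mul_add_div hK, Nat.div_eq_of_lt hi, Nat.add_zero]
  have h4 : ((g' : ℕ) * K + i') / K = g' := by
    rw [mul_comm, Nat.mul_add_div hK, Nat.div_eq_of_lt hi', Nat.add_zero]
  have h5 : (g : ℕ) = g' := by rw [← h3, ← h4, h2]
  have h6 : (i : ℕ) = i' := by rw [h5] at h2; omega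
  exact Prod.ext (Fin.ext h5) (Fin.ext h6)

lemma Hq_ge (S : Finset ℤ) (T K e : ℕ) (g : Fin T) (i : Fin K) : n0 S ≤ Hq S T K e g i := by
  unfold Hq
  have hp : 0 < primorial (l1 S T K e) := primorial_pos _
  calc n0 S ≤ n0 S + (g * K + i) := Nat.le_add_right _ _
    _ = 1 * (n0 S + (g * K + i)) := (one_mul _).symm
    _ ≤ _ := Nat.mul_le_mul_right _ hp

/-- all positions -/
def Uq (S : Finset ℤ) (T K e : ℕ) : Finset ℕ :=
  (univ : Finset (Fin T × Fin K)).image (fun x => Hq S T K e x.1 x.2) ∪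
  ((univ : Finset (Fin T × Fin K)) ×ˢ S).image (fun x => ((Hq S T K e x.1.1 x.1.2 : ℤ) + x.2).toNat)

lemma Hq_mem (S : Finset ℤ) (T K e : ℕ) (g : Fin T) (i : Fin K) : Hq S T K e g i ∈ Uq S T K e := by
  unfold Uq
  rw [mem_union, mem_image]
  exact Or.inl ⟨(g, i), mem_univ _, rfl⟩

lemma Hqa_mem (S : Finset ℤ) (T K e : ℕ) (g : Fin T) (i : Fin K) (a : ℤ) (ha : a ∈ S) :
    ((Hq S T K e g i : ℤ) + a).toNat ∈ Uq S T K e := by
  unfold Uq
  rw [mem_union, mem_image, mem_image]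
  exact Or.inr ⟨((g, i), a), mem_product.2 ⟨mem_univ _, ha⟩, rfl⟩

lemma Hqa_pos (S : Finset ℤ) (T K e : ℕ) (g : Fin T) (i : Fin K) (a : ℤ) (ha : a ∈ S) :
    0 < (Hq S T K e g i : ℤ) + a := by
  have h1 := n0_gt S a ha
  have h2 := Hq_ge S T K e g i
  have h3 := neg_abs_le a
  omega

lemma Uq_card (S : Finset ℤ) (T K e : ℕ) : (Uq S T K e).card ≤ T * K + T * K * S.card := by
  unfold Uq
  refine (card_union_le _ _).trans ?_
  apply add_le_add
  · refine card_image_le.trans ?_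
    simp
  · refine card_image_le.trans ?_
    rw [card_product]
    simp

lemma Uq_pos (S : Finset ℤ) (T K e : ℕ) (u : ℕ) (hu : u ∈ Uq S T K e) : 1 ≤ u := by
  unfold Uq at hu
  rw [mem_union, mem_image, mem_image] at hu
  rcases hu with ⟨x, -, rfl⟩ | ⟨x, hx, rfl⟩
  · have := Hq_ge S T K e x.1 x.2
    have h2 : 1 ≤ n0 S := by unfold n0; omega
    omega
  · rw [mem_product] at hx
    have := Hqa_pos S T K e x.1.1 x.1.2 x.2 hx.2
    omega

lemma lin_card (l : ℕ) (hl : l.Prime) (c : ℤ) :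
    ((range l).filter (fun r : ℕ => (l : ℤ) ∣ r + c)).card ≤ 1 := by
  have h := Pool.Agent.TH882.PA.roots_card (X : ℤ[X]) (by simp) l hl (by
    rw [leadingCoeff_X]
    intro h
    have h1 := Int.le_of_dvd one_pos h
    have := hl.two_le
    omega) (-c)
  simpa using h

lemma pol_card (g : ℤ[X]) (hd : 1 ≤ g.natDegree) (σ : ℤ) (hσ : σ = 1 ∨ σ = -1) (l : ℕ) (hl : l.Prime)
    (hpl : ¬ (l : ℤ) ∣ g.leadingCoeff) (c : ℤ) (h : ℕ) :
    ((range l).filter (fun r : ℕ => (l : ℤ) ∣ c + σ * g.eval ((r : ℤ) + h))).card ≤ g.natDegree := by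
  set q : ℤ[X] := g.comp (X + C (h : ℤ)) with hq
  have hqd : q.natDegree = g.natDegree := by
    rw [hq, natDegree_comp, natDegree_X_add_C, mul_one]
  have hql : q.leadingCoeff = g.leadingCoeff := by
    rw [hq, leadingCoeff_comp (by rw [natDegree_X_add_C]; norm_num), leadingCoeff_X_add_C, one_pow,
      mul_one]
  have h1 := Pool.Agent.TH882.PA.roots_card q (by omega) l hl (by rwa [hql]) (-(σ * c))
  rw [hqd] at h1
  refine le_trans (card_le_card ?_) h1
  intro r hr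
  rw [mem_filter] at hr ⊢
  refine ⟨hr.1, ?_⟩
  have e1 : q.eval (r : ℤ) - -(σ * c) = σ * (c + σ * g.eval ((r : ℤ) + h)) := by
    rw [hq, eval_comp, eval_add, eval_X, eval_C]
    rcases hσ with h2 | h2 <;> rw [h2] <;> ring
  rw [e1]
  exact hr.2.mul_left _

/-- a residue class modulo one prime -/
lemma one_primeP (g : ℤ[X]) (hd : 1 ≤ g.natDegree) (hlc : 0 < g.leadingCoeff)
    (σ : ℤ) (hσ : σ = 1 ∨ σ = -1) (S : Finset ℤ) (T K e : ℕ)
    (he : g.natDegree ≤ e) (hel : g.leadingCoeff.natAbs ≤ e) (N : ℤ) (hN : LocP g σ S N) (l : ℕ)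
    (hl : l.Prime) :
    ∃ r : ℕ, ∀ j i, ¬ (l : ℤ) ∣ r + Hq S T K e j i ∧
      ¬ (l : ℤ) ∣ N + σ * g.eval ((r : ℤ) + Hq S T K e j i) ∧
      ∀ a ∈ S, ¬ (l : ℤ) ∣ r + (Hq S T K e j i + a) := by
  classical
  have hl0 : (0 : ℤ) < l := by exact_mod_cast hl.pos
  by_cases h : l ≤ l1 S T K e
  · obtain ⟨r, h1, h2, h3⟩ := hN l hl
    refine ⟨(r % l).toNat, fun j i => ?_⟩
    have hr : (((r % l).toNat : ℕ) : ℤ) = r % l := Int.toNat_of_nonneg (Int.emod_nonneg _ hl0.ne')
    have hd : (l : ℤ) ∣ Hq S T K e j i := by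
      have h4 : l ∣ primorial (l1 S T K e) := hl.dvd_primorial_iff.2 h
      have h5 : l ∣ Hq S T K e j i := by
        unfold Hq
        exact h4.mul_right _
      exact_mod_cast h5
    have hrr : (l : ℤ) ∣ r - r % l := Int.dvd_self_sub_emod
    rw [hr]
    refine ⟨fun h4 => h1 ?_, fun h4 => h2 ?_, fun a ha h4 => h3 a ha ?_⟩
    · have : r = (r % l + Hq S T K e j i) - Hq S T K e j i + (r - r % l) := by ring
      rw [this]
      exact ((h4.sub hd).add hrr)
    · have e1 : (l : ℤ) ∣ g.eval r - g.eval (r % l + Hq S T K e j i) := by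
        refine dvd_trans ?_ (sub_dvd_eval_sub r (r % l + Hq S T K e j i) g)
        have : r - (r % l + Hq S T K e j i) = (r - r % l) - Hq S T K e j i := by ring
        rw [this]
        exact hrr.sub hd
      have : N + σ * g.eval r = (N + σ * g.eval (r % l + Hq S T K e j i)) +
          σ * (g.eval r - g.eval (r % l + Hq S T K e j i)) := by ring
      rw [this]
      exact h4.add (e1.mul_left _)
    · have : r + a = (r % l + (Hq S T K e j i + a)) - Hq S T K e j i + (r - r % l) := by ring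
      rw [this]
      exact ((h4.sub hd).add hrr)
  · push Not at h
    have hpl : ¬ (l : ℤ) ∣ g.leadingCoeff := by
      intro hdv
      have h2 : l ∣ g.leadingCoeff.natAbs := Int.natCast_dvd.1 hdv
      have h3 := Nat.le_of_dvd (Int.natAbs_pos.2 hlc.ne') h2
      unfold l1 at h
      omega
    set bad : Finset ℕ := (univ : Finset (Fin T × Fin K)).biUnion (fun x =>
      ((range l).filter (fun r : ℕ => (l : ℤ) ∣ r + (Hq S T K e x.1 x.2 : ℤ)) ∪
      (range l).filter (fun r : ℕ => (l : ℤ) ∣ N + σ * g.eval ((r : ℤ) + Hq S T K e x.1 x.2))) ∪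
      S.biUnion (fun a => (range l).filter (fun r : ℕ => (l : ℤ) ∣ r + (Hq S T K e x.1 x.2 + a))))
      with hbad
    have hcard : bad.card < (range l).card := by
      rw [card_range]
      refine lt_of_le_of_lt ?_ h
      calc bad.card ≤ ∑ _x : Fin T × Fin K, (1 + g.natDegree + S.card) := by
            rw [hbad]
            refine card_biUnion_le.trans ?_
            apply sum_le_sum
            intro x _
            refine (card_union_le _ _).trans ?_
            apply add_le_add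
            · refine (card_union_le _ _).trans ?_
              exact add_le_add (lin_card l hl _) (pol_card g hd σ hσ l hl hpl N _)
            · refine card_biUnion_le.trans ?_
              calc ∑ a ∈ S, ((range l).filter
                    (fun r : ℕ => (l : ℤ) ∣ r + (Hq S T K e x.1 x.2 + a))).card ≤ ∑ _a ∈ S, 1 :=
                    sum_le_sum fun a _ => lin_card l hl _
                _ = S.card := by simp
        _ = T * K * (1 + g.natDegree + S.card) := by simp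
        _ ≤ T * K * (S.card + 1 + e) := Nat.mul_le_mul_left _ (by omega)
        _ ≤ _ := Nat.le_add_right _ _
    obtain ⟨r, hr1, hr2⟩ := exists_mem_notMem_of_card_lt_card hcard
    refine ⟨r, fun j i => ?_⟩
    rw [hbad, mem_biUnion] at hr2
    push Not at hr2
    have h1 := hr2 (j, i) (mem_univ _)
    rw [mem_union, mem_union, mem_biUnion, not_or, not_or] at h1
    obtain ⟨⟨h2, h3⟩, h4⟩ := h1
    rw [mem_filter, not_and] at h2 h3
    push Not at h4
    refine ⟨h2 hr1, h3 hr1, fun a ha => ?_⟩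
    have h5 := h4 a ha
    rw [mem_filter, not_and] at h5
    exact h5 hr1

/-- a residue class modulo `W` -/
lemma exists_classP (g : ℤ[X]) (hd : 1 ≤ g.natDegree) (hlc : 0 < g.leadingCoeff)
    (σ : ℤ) (hσ : σ = 1 ∨ σ = -1) (S : Finset ℤ) (T K e : ℕ)
    (he : g.natDegree ≤ e) (hel : g.leadingCoeff.natAbs ≤ e) (N : ℤ) (X : ℕ) (hN : LocP g σ S N) :
    ∃ b : ℕ, b < Wm X ∧ (∀ u ∈ Uq S T K e, (b + u).Coprime (Wm X)) ∧
      ∀ j i, ∀ l : ℕ, l.Prime → l ∣ Wm X → ¬ (l : ℤ) ∣ N + σ * g.eval ((b : ℤ) + Hq S T K e j i) := by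
  classical
  choose! r hr using fun (l : ℕ) (hl : l.Prime) =>
    one_primeP g hd hlc σ hσ S T K e he hel N hN l hl
  obtain ⟨b0, -, hb0⟩ := Pool.Agent.TH882.UB.crt ∅ ((range (HH X + 1)).filter Nat.Prime) (by simp)
    (fun p hp => (mem_filter.1 hp).2) (disjoint_empty_left _) 0 r
  have hW := Wm_pos X
  refine ⟨b0 % Wm X, Nat.mod_lt _ hW, ?_, ?_⟩
  · intro u hu
    rw [Nat.coprime_iff_gcd_eq_one]
    by_contra hcon
    obtain ⟨l, hl, hlg⟩ := Nat.exists_prime_and_dvd hcon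
    have h1 : l ∣ b0 % Wm X + u := hlg.trans (Nat.gcd_dvd_left _ _)
    have h2 : l ∣ Wm X := hlg.trans (Nat.gcd_dvd_right _ _)
    have h3 : l ≤ HH X := by
      unfold Wm at h2
      exact hl.dvd_primorial_iff.1 h2
    have h4 : b0 % Wm X ≡ b0 [MOD l] := (Nat.mod_modEq _ _).of_dvd h2
    have h5 : b0 ≡ r l [MOD l] := hb0 l (mem_filter.2 ⟨mem_range.2 (by omega), hl⟩)
    have h6 : r l + u ≡ b0 % Wm X + u [MOD l] := (h4.trans h5).symm.add_right u
    have h7 : l ∣ r l + u := (h6.dvd_iff dvd_rfl).2 h1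
    unfold Uq at hu
    rw [mem_union, mem_image, mem_image] at hu
    rcases hu with ⟨x, -, rfl⟩ | ⟨x, hx, rfl⟩
    · exact (hr l hl x.1 x.2).1 (by exact_mod_cast h7)
    · rw [mem_product] at hx
      have h8 := Hqa_pos S T K e x.1.1 x.1.2 x.2 hx.2
      apply (hr l hl x.1.1 x.1.2).2.2 x.2 hx.2
      have h9 : (l : ℤ) ∣ (r l : ℤ) + ((((Hq S T K e x.1.1 x.1.2 : ℤ) + x.2).toNat : ℕ) : ℤ) := by
        exact_mod_cast h7
      rwa [Int.toNat_of_nonneg h8.le] at h9
  · intro j i l hl hlW hdv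
    have h3 : l ≤ HH X := by
      unfold Wm at hlW
      exact hl.dvd_primorial_iff.1 hlW
    have h4 : b0 % Wm X ≡ b0 [MOD l] := (Nat.mod_modEq _ _).of_dvd hlW
    have h5 : b0 ≡ r l [MOD l] := hb0 l (mem_filter.2 ⟨mem_range.2 (by omega), hl⟩)
    have h6 := Nat.modEq_iff_dvd.1 (h4.trans h5)
    apply (hr l hl j i).2.1
    have e1 : (l : ℤ) ∣ g.eval ((r l : ℤ) + Hq S T K e j i) -
        g.eval (((b0 % Wm X : ℕ) : ℤ) + Hq S T K e j i) := by
      refine dvd_trans ?_ (sub_dvd_eval_sub _ _ g)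
      have : ((r l : ℤ) + Hq S T K e j i) - (((b0 % Wm X : ℕ) : ℤ) + Hq S T K e j i) =
          (r l : ℤ) - ((b0 % Wm X : ℕ) : ℤ) := by ring
      rw [this]
      exact h6
    have : N + σ * g.eval ((r l : ℤ) + Hq S T K e j i) =
        (N + σ * g.eval (((b0 % Wm X : ℕ) : ℤ) + Hq S T K e j i)) +
        σ * (g.eval ((r l : ℤ) + Hq S T K e j i) -
          g.eval (((b0 % Wm X : ℕ) : ℤ) + Hq S T K e j i)) := by ring
    rw [this]
    exact hdv.add (e1.mul_left _)

/-- coprimality of the values -/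
lemma coprime_val (g : ℤ[X]) (σ : ℤ) (S : Finset ℤ) (T K e : ℕ) (N N' : ℤ) (X b n v : ℕ)
    (j : Fin T) (i : Fin K)
    (hb : ∀ l : ℕ, l.Prime → l ∣ Wm X → ¬ (l : ℤ) ∣ N + σ * g.eval ((b : ℤ) + Hq S T K e j i))
    (hN' : ((Wm X : ℕ) : ℤ) ∣ N' - N) (hn : n % Wm X = b)
    (hv : (v : ℤ) = N' + σ * g.eval (((n + Hq S T K e j i : ℕ) : ℤ))) :
    v.Coprime (Wm X) := by
  rw [Nat.coprime_iff_gcd_eq_one]
  by_contra hcon
  obtain ⟨l, hl, hlg⟩ := Nat.exists_prime_and_dvd hcon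
  have h1 : l ∣ v := hlg.trans (Nat.gcd_dvd_left _ _)
  have h2 : l ∣ Wm X := hlg.trans (Nat.gcd_dvd_right _ _)
  apply hb l hl h2
  have h3 : (l : ℤ) ∣ N' + σ * g.eval (((n + Hq S T K e j i : ℕ) : ℤ)) := by
    rw [← hv]
    exact_mod_cast h1
  have h5 : (l : ℤ) ∣ N' - N := dvd_trans (by exact_mod_cast h2) hN'
  have h7 : (l : ℤ) ∣ (b : ℤ) - n := by
    have h8 : n ≡ b [MOD l] := by
      rw [← hn]
      exact ((Nat.mod_modEq _ _).of_dvd h2).symm
    exact Nat.modEq_iff_dvd.1 h8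
  have e1 : (l : ℤ) ∣ g.eval ((b : ℤ) + Hq S T K e j i) -
      g.eval (((n + Hq S T K e j i : ℕ) : ℤ)) := by
    refine dvd_trans ?_ (sub_dvd_eval_sub _ _ g)
    have : ((b : ℤ) + Hq S T K e j i) - ((n + Hq S T K e j i : ℕ) : ℤ) = (b : ℤ) - n := by
      push_cast
      ring
    rw [this]
    exact h7
  have : N + σ * g.eval ((b : ℤ) + Hq S T K e j i) =
      (N' + σ * g.eval (((n + Hq S T K e j i : ℕ) : ℤ))) - (N' - N) +
      σ * (g.eval ((b : ℤ) + Hq S T K e j i) - g.eval (((n + Hq S T K e j i : ℕ) : ℤ))) := by ring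
  rw [this]
  exact (h3.sub h5).add (e1.mul_left _)

open Pool.Agent.TH882.HE Pool.Agent.TH882.AG in
/-- the cluster around a prime -/
lemma clusterP (S : Finset ℤ) (m K e X b r A0 : ℕ) (δ : ℝ)
    (hA0 : ∀ u ∈ Uq S (4 * (m + 1)) K e, u ≤ A0)
    (hr : ∀ n ∈ SI X b, ∀ u ∈ Uq S (4 * (m + 1)) K e, rg (P1 (HH X) (JJ δ X)) u n = 1 →
      ArithmeticFunction.cardFactors (n + u) ≤ r)
    (n : ℕ) (hn : n ∈ HS δ X b (Hq S (4 * (m + 1)) K e) (Uq S (4 * (m + 1)) K e)) :
    (∀ g i, AP S r (n + Hq S (4 * (m + 1)) K e g i)) ∧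
    ∀ g i, m ≤ (Nb S r A0 (n + Hq S (4 * (m + 1)) K e g i)).card := by
  classical
  unfold HS at hn
  rw [mem_filter] at hn
  obtain ⟨hnS, hru, hT⟩ := hn
  have hap : ∀ g i, AP S r (n + Hq S (4 * (m + 1)) K e g i) := by
    intro g i a ha
    have e1 := Hqa_pos S (4 * (m + 1)) K e g i a ha
    have e2 := Hqa_mem S (4 * (m + 1)) K e g i a ha
    have e3 : ((n + Hq S (4 * (m + 1)) K e g i : ℕ) : ℤ) + a =
        ((n + ((Hq S (4 * (m + 1)) K e g i : ℤ) + a).toNat : ℕ) : ℤ) := by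
      push_cast
      rw [Int.toNat_of_nonneg e1.le]
      ring
    refine ⟨?_, ?_⟩
    · push_cast
      omega
    · rw [e3, Int.toNat_natCast]
      exact hr n hnS _ e2 (hru _ e2)
  refine ⟨hap, ?_⟩
  intro g0 i0
  set G := (univ : Finset (Fin (4 * (m + 1)))).filter
    (fun g => ∃ i, (n + Hq S (4 * (m + 1)) K e g i).Prime) with hG
  have hG2 : m + 1 ≤ G.card := by
    have : 4 * (m + 1) ≤ 4 * G.card := by
      convert hT
    omega
  have hex : ∀ g : Fin (4 * (m + 1)), ∃ i : Fin K, g ∈ G → (n + Hq S (4 * (m + 1)) K e g i).Prime := by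
    intro g
    by_cases hg : g ∈ G
    · have e1 := hg
      rw [hG, mem_filter] at e1
      obtain ⟨i, hi⟩ := e1.2
      exact ⟨i, fun _ => hi⟩
    · exact ⟨i0, fun h => absurd h hg⟩
  choose j hj using hex
  set Q := G.image (fun g => n + Hq S (4 * (m + 1)) K e g (j g)) with hQ
  have hQc : Q.card = G.card := by
    rw [hQ]
    apply card_image_of_injOn
    intro g _ g' _ h
    simp only at h
    have e1 : Hq S (4 * (m + 1)) K e g (j g) = Hq S (4 * (m + 1)) K e g' (j g') := by omega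
    have e2 := @Hq_inj S (4 * (m + 1)) K e (g, j g) (g', j g') e1
    exact (Prod.ext_iff.1 e2).1
  have hsub : Q.erase (n + Hq S (4 * (m + 1)) K e g0 i0) ⊆
      Nb S r A0 (n + Hq S (4 * (m + 1)) K e g0 i0) := by
    intro q hq
    rw [mem_erase, hQ, mem_image] at hq
    obtain ⟨hne, g, hg, rfl⟩ := hq
    unfold Nb
    rw [mem_filter, mem_Icc]
    have e1 := hA0 _ (Hq_mem S (4 * (m + 1)) K e g (j g))
    have e2 := hA0 _ (Hq_mem S (4 * (m + 1)) K e g0 i0)
    refine ⟨⟨by omega, by omega⟩, hj g hg, hne, hap g (j g)⟩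
  have h1 := card_le_card hsub
  have h2 := pred_card_le_card_erase (s := Q) (a := n + Hq S (4 * (m + 1)) K e g0 i0)
  omega

end Pool.Agent.TH882.PG
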