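import Pool.Agent.TH882.Bad2
import Pool.Agent.TH882.Bil
import Pool.Agent.TH882.Clu

/-! Sums of two primes, one of them in a cluster. -/

set_option autoImplicit false

open Finset Filter Topology

namespace Pool.Agent.TH882.AG

open Pool.Agent.H361R2.PP
open Pool.Agent.W70.HR
open Pool.Agent.TH882.UB
open Pool.Agent.TH882.PC
open Pool.Agent.TH882.HE
open Pool.Agent.H373R2.T7 (lamz Vz pz lamz_nonneg)

/-- from von Mangoldt to primes -/
lemma prime_part (N : ℕ) (hN : 1 ≤ N) (K : Finset ℕ) (hK : ∀ k ∈ K, k < N) (a : ℝ)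
    (h : a ≤ ∑ k ∈ K, ArithmeticFunction.vonMangoldt (N - k)) :
    a - 2 * √N * Real.log N ≤ Real.log N * ((K.filter (fun k => (N - k).Prime)).card : ℝ) := by
  classical
  have hN1 : (1 : ℝ) ≤ N := by exact_mod_cast hN
  have h1 : ∑ k ∈ K.filter (fun k => ¬ (N - k).Prime), ArithmeticFunction.vonMangoldt (N - k) ≤
      2 * √N * Real.log N := by
    have e1 := Chebyshev.psi_sub_theta_le hN1
    rw [Chebyshev.psi_sub_theta_eq_sum_not_prime, Nat.floor_natCast] at e1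
    refine le_trans ?_ e1
    rw [← sum_image (s := K.filter (fun k => ¬ (N - k).Prime)) (g := fun k => N - k)
      (f := fun n => ArithmeticFunction.vonMangoldt n)]
    · apply sum_le_sum_of_subset_of_nonneg
      · intro n hn
        rw [mem_image] at hn
        obtain ⟨k, hk, rfl⟩ := hn
        rw [mem_filter] at hk
        have := hK k hk.1
        rw [mem_filter, mem_Ioc]
        exact ⟨⟨by omega, by omega⟩, hk.2⟩
      · intro _ _ _
        exact ArithmeticFunction.vonMangoldt_nonneg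
    · intro k hk k' hk' he
      rw [mem_coe, mem_filter] at hk hk'
      have e2 := hK k hk.1
      have e3 := hK k' hk'.1
      simp only at he
      omega
  have h2 : ∑ k ∈ K.filter (fun k => (N - k).Prime), ArithmeticFunction.vonMangoldt (N - k) ≤
      Real.log N * ((K.filter (fun k => (N - k).Prime)).card : ℝ) := by
    rw [mul_comm, ← nsmul_eq_mul]
    apply sum_le_card_nsmul
    intro k hk
    rw [mem_filter] at hk
    rw [ArithmeticFunction.vonMangoldt_apply_prime hk.2]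
    apply Real.log_le_log (by exact_mod_cast hk.2.pos)
    exact_mod_cast Nat.sub_le _ _
  rw [← sum_filter_add_sum_filter_not K (fun k => (N - k).Prime)] at h
  linarith

set_option maxHeartbeats 4000000 in
theorem clsl (S : Finset ℤ) (m : ℕ) : ∃ r C D : ℕ, ∀ κ : ℕ, ∀ η : ℝ, 0 < η →
    ∃ X₀ : ℕ, ∀ X : ℕ, X₀ ≤ X → ∀ Z : ℕ, 6 * X ≤ Z → Z ≤ κ * X → ∀ s : ℕ, s < Wm X →
    ∃ Bd : Finset ℕ, (Bd.card : ℝ) ≤ η * (Z / Wm X) + Z / Real.log X ^ 2 ∧
      ∀ N ∈ IN X Z s, N ∉ Bd → Loc S N →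
        (X : ℝ) / Real.log X ^ D ≤ ((Rep S m r C N).card : ℝ) := by
  classical
  set T : ℕ := 4 * (m + 1) with hTd
  have hT1 : 1 ≤ T := by omega
  obtain ⟨K, hK, hmte⟩ := mte T hT1
  obtain ⟨δ, c, hδ, hδ8, hc, X1, h1⟩ := hmte 1 (T * K * S.card) one_pos
  have hδ1 : δ ≤ 1 := by linarith
  set U := Up S T K with hU
  set L : ℕ := U.card with hL
  set A0 : ℕ := U.sup id with hA0
  have hUA : ∀ u ∈ U, u ≤ A0 := fun u hu => Finset.le_sup (f := id) hu
  have hTK0 : (0 : ℝ) < (T : ℝ) * K := by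
    have : 0 < T * K := Nat.mul_pos hT1 hK
    exact_mod_cast this
  set c' : ℝ := c / (T * K) with hc'
  have hc'0 : 0 < c' := by rw [hc']; positivity
  refine ⟨⌊4 / δ⌋₊, A0, 2 * L + 3, ?_⟩
  intro κ η hη
  obtain ⟨B0, hbil⟩ := bilK (2 * L + 4)
  obtain ⟨X2, h2⟩ := bad2 L A0 δ c' η hδ hδ1 hc'0 hη (B0 + 2)
  obtain ⟨Z3, h3⟩ := hbil (B0 + 2)
  obtain ⟨X4, h4⟩ := rough_ap δ hδ hδ1
  obtain ⟨X5, h5⟩ := Om_lower δ hδ hδ1 L
  obtain ⟨X6, h6⟩ := ev_pow (1 / 2) (32 * √κ / c') (by norm_num) (2 * L + 2)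
  have hlogt : Tendsto (fun X : ℕ => Real.log (X : ℝ)) atTop atTop :=
    Real.tendsto_log_atTop.comp tendsto_natCast_atTop_atTop
  obtain ⟨X7, h7⟩ := eventually_atTop.1 (hlogt.eventually_ge_atTop
    (max (max (Real.log κ) (2 ^ (B0 + 1) + 1)) (max (max (4 * κ / c') (16 / c')) (A0 + 1))))
  refine ⟨max (max (max X1 X2) (max Z3 X4)) (max (max X5 X6) (max X7 16)), ?_⟩
  intro X hX Z hZ6 hZκ s hs
  have hX1 : X1 ≤ X := by omega
  have hX2 : X2 ≤ X := by omega
  have hZ3 : Z3 ≤ Z := by omega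
  have hX4 : X4 ≤ X := by omega
  have hX5 : X5 ≤ X := by omega
  have hX6 : X6 ≤ X := by omega
  have hX16 : 16 ≤ X := by omega
  have hl := h7 X (by omega)
  have hl1 : Real.log κ ≤ Real.log X :=
    ((le_max_left _ _).trans (le_max_left _ _)).trans hl
  have hl2 : (2 : ℝ) ^ (B0 + 1) + 1 ≤ Real.log X :=
    ((le_max_right _ _).trans (le_max_left _ _)).trans hl
  have hl3 : 4 * κ / c' ≤ Real.log X :=
    (((le_max_left _ _).trans (le_max_left _ _)).trans (le_max_right _ _)).trans hl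
  have hl4 : 16 / c' ≤ Real.log X :=
    (((le_max_right _ _).trans (le_max_left _ _)).trans (le_max_right _ _)).trans hl
  have hl5 : (A0 : ℝ) + 1 ≤ Real.log X :=
    ((le_max_right _ _).trans (le_max_right _ _)).trans hl
  clear hl
  have hXr : (16 : ℝ) ≤ X := by exact_mod_cast hX16
  have hX0 : (0 : ℝ) < X := by linarith
  set ℓ := Real.log X with hℓ
  have hℓ1 : 1 ≤ ℓ := by
    have : (0 : ℝ) < 2 ^ (B0 + 1) := by positivity
    linarith
  have hℓX : ℓ ≤ X := (Real.log_le_sub_one_of_pos hX0).trans (by linarith)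
  have hZr : 6 * (X : ℝ) ≤ Z := by exact_mod_cast hZ6
  have hZκr : (Z : ℝ) ≤ κ * X := by exact_mod_cast hZκ
  have hZ0 : (0 : ℝ) < Z := by linarith
  have hκ0 : (0 : ℝ) < κ := by
    by_contra hcon
    push Not at hcon
    have : (κ : ℝ) * X ≤ 0 := mul_nonpos_of_nonpos_of_nonneg hcon hX0.le
    linarith
  have hW0 : (0 : ℝ) < Wm X := by exact_mod_cast Wm_pos X
  have hlZ1 : ℓ ≤ Real.log Z := Real.log_le_log hX0 (by linarith)
  have hlZ2 : Real.log Z ≤ 2 * ℓ := by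
    calc Real.log Z ≤ Real.log (κ * X) := Real.log_le_log hZ0 hZκr
      _ = Real.log κ + ℓ := Real.log_mul hκ0.ne' hX0.ne'
      _ ≤ _ := by linarith
  by_cases hex : ∃ N ∈ IN X Z s, Loc S N
  swap
  · refine ⟨∅, ?_, ?_⟩
    · rw [card_empty, Nat.cast_zero]
      positivity
    · intro N hN _ hLoc
      exact absurd ⟨N, hN, hLoc⟩ hex
  obtain ⟨N1, hN1, hLoc1⟩ := hex
  obtain ⟨b, hb, hcop, hdiff⟩ := exists_class S T K N1 X hLoc1
  obtain ⟨hV0, hHS⟩ := h1 X hX1 b hb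
  have hUB : U ⊆ Bw 1 X b := by
    intro u hu
    unfold Bw BB
    rw [mem_filter, mem_Icc]
    refine ⟨⟨Up_pos S T K u hu, ?_⟩, hcop u hu⟩
    apply Nat.le_floor
    have e1 : (u : ℝ) ≤ A0 := by exact_mod_cast hUA u hu
    rw [one_mul]
    linarith
  have hHS2 := hHS (Hp S T K) U (fun g i => Hp_mem S T K g i) (Hp_inj S T K) hUB (Up_card S T K)
  -- pigeonhole
  obtain ⟨g, i, hgi⟩ := pigeon hT1 hK (HS δ X b (Hp S T K) U) (fun g i n => (n + Hp S T K g i).Prime)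
    (by
      intro n hn
      unfold HS at hn
      rw [mem_filter] at hn
      have e1 := hn.2.2
      have e2 : 0 < ((univ : Finset (Fin T)).filter (fun g => ∃ i, (n + Hp S T K g i).Prime)).card := by
        have : 1 ≤ 4 * ((univ : Finset (Fin T)).filter
            (fun g => ∃ i, (n + Hp S T K g i).Prime)).card := by
          refine le_trans hT1 ?_
          convert e1
        omega
      obtain ⟨g, hg⟩ := card_pos.1 e2
      rw [mem_filter] at hg
      exact ⟨g, hg.2⟩)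
  set h : ℕ := Hp S T K g i with hh
  set A := (HS δ X b (Hp S T K) U).filter (fun n => (n + h).Prime) with hA
  have hAc : c' * Om δ X L ≤ (A.card : ℝ) := by
    refine le_trans ?_ hgi
    rw [hc', div_mul_eq_mul_div]
    exact div_le_div_of_nonneg_right hHS2 hTK0.le
  have hAsub : A ⊆ (SI X b).filter (fun n => ∀ u ∈ U, rg (P1 (HH X) (JJ δ X)) u n = 1) := by
    intro n hn
    rw [hA, mem_filter] at hn
    have e1 := hn.1
    unfold HS at e1
    rw [mem_filter] at e1 ⊢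
    exact ⟨e1.1, e1.2.1⟩
  have hhA : h ≤ A0 := hUA h (Hp_mem S T K g i)
  have hA0X : A0 ≤ X := by
    have : (A0 : ℝ) ≤ X := by linarith
    exact_mod_cast this
  have hAm : ∀ n ∈ A, X ≤ n ∧ n < 2 * X ∧ n % Wm X = b := by
    intro n hn
    have := hAsub hn
    rw [mem_filter] at this
    have h6 := this.1
    unfold SI at h6
    rw [mem_filter, mem_Ico] at h6
    exact ⟨h6.1.1, h6.1.2, h6.2⟩
  have hINm : ∀ N ∈ IN X Z s, 5 * X ≤ N ∧ N < Z ∧ N % Wm X = s := by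
    intro N hN
    unfold IN at hN
    rw [mem_filter, mem_Ico] at hN
    exact ⟨hN.1.1, hN.1.2, hN.2⟩
  have hcopr : ∀ N ∈ IN X Z s, ∀ n ∈ A, (N - (n + h)).Coprime (Wm X) := by
    intro N hN n hn
    obtain ⟨e1, e2, e3⟩ := hINm N hN
    obtain ⟨e4, e5, e6⟩ := hAm n hn
    exact coprime_diff S T K N1 N X b n g i (fun l hl hlW => hdiff g i l hl hlW)
      (by rw [e3, (hINm N1 hN1).2.2]) e6 (by omega)
  -- the sifting limit
  set z : ℕ := ⌈Real.log Z ^ (B0 + 1)⌉₊ with hz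
  have hlZ0 : 1 ≤ Real.log Z := by linarith
  have hz1 : Real.log Z ^ (B0 + 1) ≤ z := Nat.le_ceil _
  have hz2 : (z : ℝ) ≤ Real.log X ^ (B0 + 2) := by
    have e1 : (z : ℝ) < Real.log Z ^ (B0 + 1) + 1 := Nat.ceil_lt_add_one (by positivity)
    have e2 : Real.log Z ^ (B0 + 1) ≤ (2 * ℓ) ^ (B0 + 1) := pow_le_pow_left₀ (by linarith) hlZ2 _
    rw [mul_pow] at e2
    have e3 : 1 ≤ ℓ ^ (B0 + 1) := one_le_pow₀ hℓ1
    calc (z : ℝ) ≤ 2 ^ (B0 + 1) * ℓ ^ (B0 + 1) + 1 * ℓ ^ (B0 + 1) := by linarith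
      _ = (2 ^ (B0 + 1) + 1) * ℓ ^ (B0 + 1) := by ring
      _ ≤ ℓ * ℓ ^ (B0 + 1) := mul_le_mul_of_nonneg_right hl2 (by positivity)
      _ = ℓ ^ (B0 + 2) := by ring
  have hHz : HH X ≤ z := by
    have e1 : (HH X : ℝ) ≤ ℓ := by
      unfold HH
      have e2 : Real.log ℓ ≤ ℓ := (Real.log_le_sub_one_of_pos (by linarith)).trans (by linarith)
      have e3 : 0 ≤ Real.log ℓ := Real.log_nonneg hℓ1
      calc ((⌊Real.log (Real.log X) / 4⌋₊ : ℕ) : ℝ) ≤ Real.log ℓ / 4 :=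
            Nat.floor_le (by positivity)
        _ ≤ ℓ := by linarith
    have e2 : ℓ ≤ z := by
      calc ℓ ≤ Real.log Z := hlZ1
        _ = Real.log Z ^ 1 := (pow_one _).symm
        _ ≤ Real.log Z ^ (B0 + 1) := pow_le_pow_right₀ hlZ0 (by omega)
        _ ≤ z := hz1
    exact_mod_cast e1.trans e2
  have hb2 := h2 X hX2 b hb U rfl hUA z hHz hz2 A hAsub hAc h hhA Z s hZ6 hs hcopr
  set Kk := A.image (· + h) with hKk
  set Bd2 := (IN X Z s).filter (fun N => ∑ k ∈ Kk, lamz z (N - k) < (A.card : ℝ) / 2) with hBd2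
  have hKkm : ∀ k ∈ Kk, X ≤ k ∧ k ≤ 3 * X := by
    intro k hk
    rw [hKk, mem_image] at hk
    obtain ⟨n, hn, rfl⟩ := hk
    have := hAm n hn
    omega
  have hb1 := h3 Z hZ3 z (le_trans (pow_le_pow_right₀ hlZ0 (by omega)) hz1)
    (hz2.trans (pow_le_pow_left₀ (by linarith) hlZ1 _)) (IN X Z s) Kk
    (fun N hN => (hINm N hN).2.1.le) (fun k hk => by have := hKkm k hk; omega)
    (fun N hN k hk => by have := hKkm k hk; have := hINm N hN; omega)
  have haX : c' * (X / ℓ ^ (2 * L + 1)) ≤ (A.card : ℝ) :=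
    (mul_le_mul_of_nonneg_left (h5 X hX5).2 hc'0.le).trans hAc
  set a : ℝ := (A.card : ℝ) with ha
  have ha0 : 0 < a := lt_of_lt_of_le (by positivity) haX
  set Bd1 := (IN X Z s).filter (fun N => a / 4 <
    |∑ k ∈ Kk, (ArithmeticFunction.vonMangoldt (N - k) - lamz z (N - k))|) with hBd1
  have hBd1c : (Bd1.card : ℝ) ≤ Z / ℓ ^ 2 := by
    have e1 : (Bd1.card : ℝ) * (a / 4) ≤ (Z : ℝ) * Z / Real.log Z ^ (2 * L + 4) := by
      refine le_trans ?_ hb1
      calc (Bd1.card : ℝ) * (a / 4) = ∑ N ∈ Bd1, a / 4 := by rw [sum_const, nsmul_eq_mul]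
        _ ≤ ∑ N ∈ Bd1, |∑ k ∈ Kk, (ArithmeticFunction.vonMangoldt (N - k) - lamz z (N - k))| := by
            apply sum_le_sum
            intro N hN
            rw [hBd1, mem_filter] at hN
            exact hN.2.le
        _ ≤ _ := sum_le_sum_of_subset_of_nonneg (filter_subset _ _) (fun _ _ _ => abs_nonneg _)
    have e2 : (Z : ℝ) * Z / Real.log Z ^ (2 * L + 4) ≤ Z * (κ * X) / ℓ ^ (2 * L + 4) := by
      apply div_le_div₀ (by positivity) _ (by positivity) (pow_le_pow_left₀ (by linarith) hlZ1 _)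
      exact mul_le_mul_of_nonneg_left hZκr hZ0.le
    have e3 : Z * (κ * X) / ℓ ^ (2 * L + 4) ≤ (Z / ℓ ^ 2) * (a / 4) := by
      have e4 : Z * (κ * X) / ℓ ^ (2 * L + 4) =
          (Z / ℓ ^ 2) * ((4 * κ / c') / ℓ * (c' * (X / ℓ ^ (2 * L + 1))) / 4) := by
        field_simp
        ring
      rw [e4]
      apply mul_le_mul_of_nonneg_left _ (by positivity)
      apply div_le_div_of_nonneg_right _ (by norm_num)
      calc (4 * κ / c') / ℓ * (c' * (X / ℓ ^ (2 * L + 1))) ≤ 1 * (c' * (X / ℓ ^ (2 * L + 1))) := by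
            apply mul_le_mul_of_nonneg_right _ (by positivity)
            rw [div_le_one (by linarith)]
            exact hl3
        _ ≤ a := by rw [one_mul]; exact haX
    exact le_of_mul_le_mul_right (e1.trans (e2.trans e3)) (by positivity)
  refine ⟨Bd2 ∪ Bd1, ?_, ?_⟩
  · calc ((Bd2 ∪ Bd1).card : ℝ) ≤ (Bd2.card : ℝ) + Bd1.card := by
          exact_mod_cast card_union_le _ _
      _ ≤ _ := add_le_add hb2 hBd1c
  intro N hN hNB hLoc
  rw [mem_union, not_or] at hNB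
  obtain ⟨hn2, hn1⟩ := hNB
  rw [hBd2, mem_filter, not_and] at hn2
  rw [hBd1, mem_filter, not_and] at hn1
  have hn2' := hn2 hN
  have hn1' := hn1 hN
  push Not at hn2' hn1'
  rw [sum_sub_distrib] at hn1'
  have hsum : a / 4 ≤ ∑ k ∈ Kk, ArithmeticFunction.vonMangoldt (N - k) := by
    have := (abs_le.1 hn1').1
    linarith
  obtain ⟨hN5, hNZ, hNs⟩ := hINm N hN
  have hpp := prime_part N (by omega) Kk (fun k hk => by have := hKkm k hk; omega) (a / 4) hsum
  have hN0 : (0 : ℝ) < N := by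
    have : 0 < N := by omega
    exact_mod_cast this
  have hNZr : (N : ℝ) ≤ Z := by exact_mod_cast hNZ.le
  have hlN : Real.log N ≤ 2 * ℓ := (Real.log_le_log hN0 hNZr).trans hlZ2
  have hlN0 : 0 ≤ Real.log N := Real.log_nonneg (by
    have : 1 ≤ N := by omega
    exact_mod_cast this)
  have hsq : 2 * √N * Real.log N ≤ a / 8 := by
    have e1 : √(N : ℝ) ≤ √κ * (X : ℝ) ^ (1 / 2 : ℝ) := by
      rw [← Real.sqrt_eq_rpow, ← Real.sqrt_mul hκ0.le]
      exact Real.sqrt_le_sqrt (hNZr.trans hZκr)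
    have e2 := h6 X hX6
    have e3 : (X : ℝ) ^ (1 / 2 : ℝ) * (X : ℝ) ^ (1 / 2 : ℝ) = X := by
      rw [← Real.rpow_add hX0]
      norm_num
    have e4 : 4 * √κ * (X : ℝ) ^ (1 / 2 : ℝ) * ℓ ≤ (c' * (X / ℓ ^ (2 * L + 1))) / 8 := by
      have e5 : (c' * (X / ℓ ^ (2 * L + 1))) / 8 =
          (X : ℝ) ^ (1 / 2 : ℝ) * (c' * (X : ℝ) ^ (1 / 2 : ℝ)) / ℓ ^ (2 * L + 1) / 8 := by
        calc (c' * (X / ℓ ^ (2 * L + 1))) / 8 =
            (c' * (((X : ℝ) ^ (1 / 2 : ℝ) * (X : ℝ) ^ (1 / 2 : ℝ)) / ℓ ^ (2 * L + 1))) / 8 := by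
              rw [e3]
          _ = _ := by ring
      rw [e5]
      have e6 : 4 * √κ * (X : ℝ) ^ (1 / 2 : ℝ) * ℓ =
          (X : ℝ) ^ (1 / 2 : ℝ) * (c' * (32 * √κ / c' * ℓ ^ (2 * L + 2))) / ℓ ^ (2 * L + 1) / 8 := by
        field_simp
        ring
      rw [e6]
      apply div_le_div_of_nonneg_right _ (by norm_num)
      apply div_le_div_of_nonneg_right _ (by positivity)
      apply mul_le_mul_of_nonneg_left _ (by positivity)
      exact mul_le_mul_of_nonneg_left e2 hc'0.le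
    calc 2 * √N * Real.log N ≤ 2 * (√κ * (X : ℝ) ^ (1 / 2 : ℝ)) * (2 * ℓ) := by
          apply mul_le_mul _ hlN hlN0 (by positivity)
          linarith
      _ = 4 * √κ * (X : ℝ) ^ (1 / 2 : ℝ) * ℓ := by ring
      _ ≤ _ := e4
      _ ≤ a / 8 := div_le_div_of_nonneg_right haX (by norm_num)
  have hcnt : X / ℓ ^ (2 * L + 3) ≤ ((Kk.filter (fun k => (N - k).Prime)).card : ℝ) := by
    set q : ℝ := ((Kk.filter (fun k => (N - k).Prime)).card : ℝ) with hq
    have hq0 : 0 ≤ q := by positivity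
    have e1 : a / 8 ≤ 2 * ℓ * q := by
      calc a / 8 ≤ Real.log N * q := by linarith
        _ ≤ 2 * ℓ * q := mul_le_mul_of_nonneg_right hlN hq0
    have e2 : (c' * (X / ℓ ^ (2 * L + 1))) / 8 ≤ 2 * ℓ * q :=
      (div_le_div_of_nonneg_right haX (by norm_num)).trans e1
    have e3 : X / ℓ ^ (2 * L + 3) =
        (16 / c') / ℓ * ((c' * (X / ℓ ^ (2 * L + 1))) / 8 / (2 * ℓ)) := by
      field_simp
      ring
    rw [e3]
    calc (16 / c') / ℓ * ((c' * (X / ℓ ^ (2 * L + 1))) / 8 / (2 * ℓ)) ≤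
          1 * ((c' * (X / ℓ ^ (2 * L + 1))) / 8 / (2 * ℓ)) := by
          apply mul_le_mul_of_nonneg_right _ (by positivity)
          rw [div_le_one (by linarith)]
          exact hl4
      _ ≤ q := by
          rw [one_mul, div_le_iff₀ (by linarith)]
          linarith
  refine hcnt.trans ?_
  have hsub : Kk.filter (fun k => (N - k).Prime) ⊆ Rep S m ⌊4 / δ⌋₊ A0 N := by
    intro k hk
    rw [mem_filter] at hk
    obtain ⟨hk1, hk2⟩ := hk
    have e1 := hKkm k hk1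
    rw [hKk, mem_image] at hk1
    obtain ⟨n, hn, rfl⟩ := hk1
    rw [hA, mem_filter] at hn
    have hclu := cluster S m K X b ⌊4 / δ⌋₊ A0 δ hUA
      (fun n hn u hu hr => h4 X hX4 b n u hb hn (hcop u hu) ((hUA u hu).trans hA0X) hr) n hn.1
    unfold Rep
    rw [mem_filter, mem_range]
    refine ⟨by omega, hn.2, hk2, hclu.1 g i, hclu.2 g i⟩
  exact_mod_cast card_le_card hsub

end Pool.Agent.TH882.AG
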