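import Pool.Agent.TH882.Bad3
import Pool.Agent.TH882.BilG
import Pool.Agent.TH882.Cls2

/-! Prime values of a shifted polynomial at the primes of clusters, one residue class. -/

set_option autoImplicit false

open Finset Filter Topology Polynomial

namespace Pool.Agent.TH882.PG

open Pool.Agent.H361R2.PP
open Pool.Agent.W70.HR
open Pool.Agent.TH882.UB
open Pool.Agent.TH882.HE
open Pool.Agent.TH882.AG (AP Nb rough_ap pigeon)
open Pool.Agent.H373R2.T7 (lamz Vz pz lamz_nonneg)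

open Classical in
/-- the primes `p` of clusters between `X` and `3X` with `N + σ g(p)` prime -/
noncomputable def RepP (g : ℤ[X]) (σ : ℤ) (S : Finset ℤ) (m r C X : ℕ) (N : ℤ) : Finset ℕ :=
  (Icc X (3 * X)).filter (fun p => p.Prime ∧ (N + σ * g.eval (p : ℤ)).toNat.Prime ∧ AP S r p ∧
    m ≤ (Nb S r C p).card)

set_option maxHeartbeats 4000000 in
theorem clsG (g : ℤ[X]) (hd : 1 ≤ g.natDegree) (hl : 0 < g.leadingCoeff) (σ : ℤ)
    (hσ : σ = 1 ∨ σ = -1) (S : Finset ℤ) (m : ℕ) : ∃ r C D : ℕ, ∀ κ : ℕ, ∀ η : ℝ, 0 < η →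
    ∃ X₀ : ℕ, ∀ X : ℕ, X₀ ≤ X → ∀ Y a0 Z : ℕ,
    (∀ n : ℕ, X ≤ n → n ≤ 3 * X → 0 ≤ (Y : ℤ) - σ * g.eval (n : ℤ) ∧
      (Y : ℤ) - σ * g.eval (n : ℤ) < a0) → Y < a0 →
    a0 + X ≤ Z → Z ≤ κ * X ^ g.natDegree → ∀ s : ℕ, s < Wm X →
    ∃ Bd : Finset ℕ, (Bd.card : ℝ) ≤ η * (Z / Wm X) + (X : ℝ) ^ g.natDegree / Real.log X ^ 2 ∧
      ∀ N ∈ IA X a0 Z s, N ∉ Bd → LocP g σ S ((N : ℤ) - Y) →
        (X : ℝ) / Real.log X ^ D ≤ ((RepP g σ S m r C X ((N : ℤ) - Y)).card : ℝ) := by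
  classical
  set d := g.natDegree with hdd
  set e : ℕ := max d g.leadingCoeff.natAbs with he
  set T : ℕ := 4 * (m + 1) with hTd
  have hT1 : 1 ≤ T := by omega
  obtain ⟨K, hK, hmte⟩ := mte T hT1
  obtain ⟨δ, c, hδ, hδ8, hc, X1, h1⟩ := hmte 1 (T * K * S.card) one_pos
  have hδ1 : δ ≤ 1 := by linarith
  set U := Uq S T K e with hU
  set L : ℕ := U.card with hL
  set A0 : ℕ := U.sup id with hA0
  have hUA : ∀ u ∈ U, u ≤ A0 := fun u hu => Finset.le_sup (f := id) hu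
  have hTK0 : (0 : ℝ) < (T : ℝ) * K := by
    have : 0 < T * K := Nat.mul_pos hT1 hK
    exact_mod_cast this
  set c' : ℝ := c / (T * K) with hc'
  have hc'0 : 0 < c' := by rw [hc']; positivity
  refine ⟨⌊4 / δ⌋₊, A0, 2 * L + 3, ?_⟩
  intro κ η hη
  obtain ⟨B0, hbil⟩ := bilG g hd hl (κ + 1) (by omega) (2 * L + 4)
  have hcomp : ∀ h : ℕ, (g.comp (X + C (h : ℤ))).natDegree = d ∧
      (g.comp (X + C (h : ℤ))).leadingCoeff = g.leadingCoeff ∧
      ∀ n : ℤ, (g.comp (X + C (h : ℤ))).eval n = g.eval (n + h) := by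
    intro h
    refine ⟨?_, ?_, ?_⟩
    · rw [natDegree_comp, natDegree_X_add_C, mul_one]
    · rw [leadingCoeff_comp (by rw [natDegree_X_add_C]; norm_num), leadingCoeff_X_add_C, one_pow,
        mul_one]
    · intro n
      rw [eval_comp, eval_add, eval_X, eval_C]
  have hb2 : ∀ x : Fin T × Fin K, ∃ X₀ : ℕ, ∀ X : ℕ, X₀ ≤ X → ∀ b : ℕ, b < Wm X →
      ∀ U : Finset ℕ, U.card = L →
      (∀ u ∈ U, u ≤ A0) → ∀ z : ℕ, HH X ≤ z → (z : ℝ) ≤ Real.log X ^ (B0 + 2) →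
      ∀ A ⊆ (SI X b).filter (fun n => ∀ u ∈ U, rg (P1 (HH X) (JJ δ X)) u n = 1),
      c' * Om δ X L ≤ (A.card : ℝ) → ∀ k : ℕ → ℕ,
      (∀ n ∈ A, ∀ n' ∈ A, |(k n : ℤ) - k n'| =
        |g.eval ((n : ℤ) + Hq S T K e x.1 x.2) - g.eval ((n' : ℤ) + Hq S T K e x.1 x.2)|) →
      ∀ a0 Z s : ℕ, (∀ n ∈ A, k n ≤ a0) → a0 + X ≤ Z → s < Wm X →
      (∀ N ∈ IA X a0 Z s, ∀ n ∈ A, (N - k n).Coprime (Wm X)) →
      (((IA X a0 Z s).filter (fun N => ∑ n ∈ A, lamz z (N - k n) <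
        (A.card : ℝ) / 2)).card : ℝ) ≤ η * (Z / Wm X) := by
    intro x
    obtain ⟨e1, e2, e3⟩ := hcomp (Hq S T K e x.1 x.2)
    obtain ⟨X₀, hX₀⟩ := bad2G (g.comp (X + C ((Hq S T K e x.1 x.2 : ℕ) : ℤ))) (by rw [e1]; exact hd)
      (by rw [e2]; exact hl) L A0 δ c' η hδ hδ1 hc'0 hη (B0 + 2)
    refine ⟨X₀, ?_⟩
    intro X hX b hb U hU hUA z hz1 hz2 A hA hAc k hk
    apply hX₀ X hX b hb U hU hUA z hz1 hz2 A hA hAc k
    intro n hn n' hn'
    rw [e3, e3]
    exact hk n hn n' hn'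
  choose Xb hXb using hb2
  obtain ⟨X3, h3⟩ := hbil (B0 + 2)
  obtain ⟨X4, h4⟩ := rough_ap δ hδ hδ1
  obtain ⟨X5, h5⟩ := Om_lower δ hδ hδ1 L
  have hlogt : Tendsto (fun X : ℕ => Real.log (X : ℝ)) atTop atTop :=
    Real.tendsto_log_atTop.comp tendsto_natCast_atTop_atTop
  obtain ⟨X7, h7⟩ := eventually_atTop.1 (hlogt.eventually_ge_atTop
    (max (max (Real.log κ) 2) (max (max (4 / c') (4 * (d + 1) / c')) (A0 + 1))))
  refine ⟨max (max (max X1 (univ.sup Xb)) (max X3 X4)) (max X5 (max X7 16)), ?_⟩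
  intro X hX Y a0 Z hYa hYa0 hZ6 hZκ s hs
  have hX1 : X1 ≤ X := by omega
  have hX2 : univ.sup Xb ≤ X := by omega
  have hX3 : X3 ≤ X := by omega
  have hX4 : X4 ≤ X := by omega
  have hX5 : X5 ≤ X := by omega
  have hX16 : 16 ≤ X := by omega
  have hll := h7 X (by omega)
  have hl1 : Real.log κ ≤ Real.log X :=
    ((le_max_left _ _).trans (le_max_left _ _)).trans hll
  have hl2 : (2 : ℝ) ≤ Real.log X :=
    ((le_max_right _ _).trans (le_max_left _ _)).trans hll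
  have hl3 : 4 / c' ≤ Real.log X :=
    (((le_max_left _ _).trans (le_max_left _ _)).trans (le_max_right _ _)).trans hll
  have hl4 : 4 * (d + 1) / c' ≤ Real.log X :=
    (((le_max_right _ _).trans (le_max_left _ _)).trans (le_max_right _ _)).trans hll
  have hl5 : (A0 : ℝ) + 1 ≤ Real.log X :=
    ((le_max_right _ _).trans (le_max_right _ _)).trans hll
  clear hll
  have hXr : (16 : ℝ) ≤ X := by exact_mod_cast hX16
  have hX0 : (0 : ℝ) < X := by linarith
  set ℓ := Real.log X with hℓ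
  have hℓ1 : 1 ≤ ℓ := by linarith
  have hℓX : ℓ ≤ X := (Real.log_le_sub_one_of_pos hX0).trans (by linarith)
  have hZ0' : 0 < Z := by omega
  have hZ0 : (0 : ℝ) < Z := by exact_mod_cast hZ0'
  have hZκr : (Z : ℝ) ≤ κ * (X : ℝ) ^ d := by exact_mod_cast hZκ
  have hXd0 : (0 : ℝ) < (X : ℝ) ^ d := by positivity
  have hκ0 : (0 : ℝ) < κ := by
    by_contra hcon
    push Not at hcon
    have : (κ : ℝ) * (X : ℝ) ^ d ≤ 0 := mul_nonpos_of_nonpos_of_nonneg hcon hXd0.le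
    linarith
  have hW0 : (0 : ℝ) < Wm X := by exact_mod_cast Wm_pos X
  by_cases hex : ∃ N ∈ IA X a0 Z s, LocP g σ S ((N : ℤ) - Y)
  swap
  · refine ⟨∅, ?_, ?_⟩
    · rw [card_empty, Nat.cast_zero]
      positivity
    · intro N hN _ hLoc
      exact absurd ⟨N, hN, hLoc⟩ hex
  obtain ⟨N1, hN1, hLoc1⟩ := hex
  obtain ⟨b, hb, hcop, hdiff⟩ := exists_classP g hd hl σ hσ S T K e (le_max_left _ _)
    (le_max_right _ _) ((N1 : ℤ) - Y) X hLoc1
  obtain ⟨hV0, hHS⟩ := h1 X hX1 b hb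
  have hUB : U ⊆ Bw 1 X b := by
    intro u hu
    unfold Bw BB
    rw [mem_filter, mem_Icc]
    refine ⟨⟨Uq_pos S T K e u hu, ?_⟩, hcop u hu⟩
    apply Nat.le_floor
    have e1 : (u : ℝ) ≤ A0 := by exact_mod_cast hUA u hu
    rw [one_mul]
    linarith
  have hHS2 := hHS (Hq S T K e) U (fun g i => Hq_mem S T K e g i) (Hq_inj S T K e) hUB
    (Uq_card S T K e)
  -- pigeonhole
  obtain ⟨j, i, hgi⟩ := pigeon hT1 hK (HS δ X b (Hq S T K e) U)
    (fun g i n => (n + Hq S T K e g i).Prime)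
    (by
      intro n hn
      unfold HS at hn
      rw [mem_filter] at hn
      have e1 := hn.2.2
      have e2 : 0 < ((univ : Finset (Fin T)).filter
          (fun g => ∃ i, (n + Hq S T K e g i).Prime)).card := by
        have : 1 ≤ 4 * ((univ : Finset (Fin T)).filter
            (fun g => ∃ i, (n + Hq S T K e g i).Prime)).card := by
          refine le_trans hT1 ?_
          convert e1
        omega
      obtain ⟨g, hg⟩ := card_pos.1 e2
      rw [mem_filter] at hg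
      exact ⟨g, hg.2⟩)
  set h : ℕ := Hq S T K e j i with hh
  set A := (HS δ X b (Hq S T K e) U).filter (fun n => (n + h).Prime) with hA
  have hAc : c' * Om δ X L ≤ (A.card : ℝ) := by
    refine le_trans ?_ hgi
    rw [hc', div_mul_eq_mul_div]
    exact div_le_div_of_nonneg_right hHS2 hTK0.le
  have hAsub : A ⊆ (SI X b).filter (fun n => ∀ u ∈ U, rg (P1 (HH X) (JJ δ X)) u n = 1) := by
    intro n hn
    rw [hA, mem_filter] at hn
    have e1 := hn.1
    unfold HS at e1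
    rw [mem_filter] at e1 ⊢
    exact ⟨e1.1, e1.2.1⟩
  have hhA : h ≤ A0 := hUA h (Hq_mem S T K e j i)
  have hA0X : A0 ≤ X := by
    have : (A0 : ℝ) ≤ X := by linarith
    exact_mod_cast this
  have hAm : ∀ n ∈ A, X ≤ n ∧ n < 2 * X ∧ n % Wm X = b := by
    intro n hn
    have := hAsub hn
    rw [mem_filter] at this
    have h6 := this.1
    unfold SI at h6
    rw [mem_filter, mem_Ico] at h6
    exact ⟨h6.1.1, h6.1.2, h6.2⟩
  have hINm : ∀ N ∈ IA X a0 Z s, a0 ≤ N ∧ N < Z ∧ N % Wm X = s := by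
    intro N hN
    unfold IA at hN
    rw [mem_filter, mem_Ico] at hN
    exact ⟨hN.1.1, hN.1.2, hN.2⟩
  -- the function `k`
  set k : ℕ → ℕ := fun n => ((Y : ℤ) - σ * g.eval ((n : ℤ) + h)).toNat with hk
  have hkn : ∀ n ∈ A, ((k n : ℕ) : ℤ) = (Y : ℤ) - σ * g.eval ((n : ℤ) + h) ∧ k n < a0 := by
    intro n hn
    have e1 := hAm n hn
    have e2 := hYa (n + h) (by omega) (by omega)
    push_cast at e2
    have e3 : ((k n : ℕ) : ℤ) = (Y : ℤ) - σ * g.eval ((n : ℤ) + h) := by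
      rw [hk]
      exact Int.toNat_of_nonneg e2.1
    refine ⟨e3, ?_⟩
    have : ((k n : ℕ) : ℤ) < a0 := by rw [e3]; exact e2.2
    exact_mod_cast this
  have hkk : ∀ n ∈ A, ∀ n' ∈ A, |(k n : ℤ) - k n'| =
      |g.eval ((n : ℤ) + h) - g.eval ((n' : ℤ) + h)| := by
    intro n hn n' hn'
    rw [(hkn n hn).1, (hkn n' hn').1]
    have e1 : (Y : ℤ) - σ * g.eval ((n : ℤ) + h) - ((Y : ℤ) - σ * g.eval ((n' : ℤ) + h)) =
        -(σ * (g.eval ((n : ℤ) + h) - g.eval ((n' : ℤ) + h))) := by ring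
    rw [e1, abs_neg, abs_mul]
    rcases hσ with h8 | h8 <;> rw [h8] <;> simp
  have hval : ∀ N ∈ IA X a0 Z s, ∀ n ∈ A, ((N - k n : ℕ) : ℤ) =
      ((N : ℤ) - Y) + σ * g.eval ((n + h : ℕ) : ℤ) := by
    intro N hN n hn
    have e1 := (hINm N hN).1
    have e2 := hkn n hn
    rw [Nat.cast_sub (by omega), e2.1]
    push_cast
    ring
  have hcopr : ∀ N ∈ IA X a0 Z s, ∀ n ∈ A, (N - k n).Coprime (Wm X) := by
    intro N hN n hn
    apply coprime_val g σ S T K e ((N1 : ℤ) - Y) ((N : ℤ) - Y) X b n (N - k n) j i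
      (fun l hl hlW => hdiff j i l hl hlW) _ (hAm n hn).2.2 (hval N hN n hn)
    have e3 : ((N : ℤ) - Y) - ((N1 : ℤ) - Y) = (N : ℤ) - N1 := by ring
    rw [e3]
    have e4 : N1 ≡ N [MOD Wm X] := by
      unfold Nat.ModEq
      rw [(hINm N hN).2.2, (hINm N1 hN1).2.2]
    exact Nat.modEq_iff_dvd.1 e4
  -- the sifting limit
  set z : ℕ := ⌈ℓ ^ (B0 + 1)⌉₊ with hz
  have hz1 : ℓ ^ (B0 + 1) ≤ z := Nat.le_ceil _
  have hz2 : (z : ℝ) ≤ ℓ ^ (B0 + 2) := by
    have e1 : (z : ℝ) < ℓ ^ (B0 + 1) + 1 := Nat.ceil_lt_add_one (by positivity)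
    have e3 : 1 ≤ ℓ ^ (B0 + 1) := one_le_pow₀ hℓ1
    calc (z : ℝ) ≤ 2 * ℓ ^ (B0 + 1) := by linarith
      _ ≤ ℓ * ℓ ^ (B0 + 1) := mul_le_mul_of_nonneg_right hl2 (by positivity)
      _ = ℓ ^ (B0 + 2) := by ring
  have hHz : HH X ≤ z := by
    have e1 : (HH X : ℝ) ≤ ℓ := by
      unfold HH
      have e2 : Real.log ℓ ≤ ℓ := (Real.log_le_sub_one_of_pos (by linarith)).trans (by linarith)
      have e3 : 0 ≤ Real.log ℓ := Real.log_nonneg hℓ1
      calc ((⌊Real.log (Real.log X) / 4⌋₊ : ℕ) : ℝ) ≤ Real.log ℓ / 4 :=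
            Nat.floor_le (by positivity)
        _ ≤ ℓ := by linarith
    have e2 : ℓ ≤ z := by
      calc ℓ = ℓ ^ 1 := (pow_one _).symm
        _ ≤ ℓ ^ (B0 + 1) := pow_le_pow_right₀ hℓ1 (by omega)
        _ ≤ z := hz1
    exact_mod_cast e1.trans e2
  have hXbX : Xb (j, i) ≤ X := (Finset.le_sup (f := Xb) (mem_univ (j, i))).trans hX2
  have hb2 := hXb (j, i) X hXbX b hb U rfl hUA z hHz hz2 A hAsub hAc k hkk a0 Z s
    (fun n hn => (hkn n hn).2.le) hZ6 hs hcopr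
  set Bd2 := (IA X a0 Z s).filter (fun N => ∑ n ∈ A, lamz z (N - k n) < (A.card : ℝ) / 2) with hBd2
  -- the bilinear estimate
  set I : Finset ℕ := (IA X a0 Z s).image (fun N => N - Y) with hI
  have hIinj : Set.InjOn (fun N : ℕ => N - Y) (IA X a0 Z s) := by
    intro N hN N' hN' he
    have e1 := hINm N hN
    have e2 := hINm N' hN'
    simp only at he
    omega
  have hb1 := h3 X hX3 z (le_trans (pow_le_pow_right₀ hℓ1 (by omega)) hz1) hz2 σ hσ I
    (A.image (· + h)) (by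
      intro N hN
      rw [hI, mem_image] at hN
      obtain ⟨N', hN', rfl⟩ := hN
      have e1 := hINm N' hN'
      refine ⟨by omega, ?_⟩
      calc N' - Y ≤ Z := by omega
        _ ≤ κ * X ^ d := hZκ
        _ ≤ (κ + 1) * X ^ d := Nat.mul_le_mul_right _ (by omega)) (by
      intro n hn
      rw [mem_image] at hn
      obtain ⟨n', hn', rfl⟩ := hn
      have e1 := hAm n' hn'
      omega) (by
      intro N hN n hn
      rw [hI, mem_image] at hN
      obtain ⟨N', hN', rfl⟩ := hN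
      rw [mem_image] at hn
      obtain ⟨n', hn', rfl⟩ := hn
      have e1 := hINm N' hN'
      have e2 := hkn n' hn'
      have e3 := hval N' hN' n' hn'
      have e4 : ((N' - Y : ℕ) : ℤ) = (N' : ℤ) - Y := by
        rw [Nat.cast_sub (by omega)]
      rw [e4, ← e3]
      constructor
      · have : 1 ≤ N' - k n' := by omega
        exact_mod_cast this
      · have : N' - k n' ≤ (κ + 1) * X ^ d := by
          calc N' - k n' ≤ Z := by omega
            _ ≤ κ * X ^ d := hZκ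
            _ ≤ (κ + 1) * X ^ d := Nat.mul_le_mul_right _ (by omega)
        exact_mod_cast this)
  rw [hI, sum_image hIinj] at hb1
  have hhinj : Function.Injective (fun n : ℕ => n + h) := fun a b hab => by simpa using hab
  have hin : ∀ N ∈ IA X a0 Z s, ∑ n ∈ A.image (· + h),
      (thI (((N - Y : ℕ) : ℤ) + σ * g.eval (n : ℤ)) -
        lamz z (((N - Y : ℕ) : ℤ) + σ * g.eval (n : ℤ)).toNat) =
      ∑ n ∈ A, ((if (N - k n).Prime then Real.log (N - k n : ℕ) else 0) - lamz z (N - k n)) := by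
    intro N hN
    rw [sum_image (fun a _ b _ hab => hhinj hab)]
    apply sum_congr rfl
    intro n hn
    have e1 := hINm N hN
    have e4 : ((N - Y : ℕ) : ℤ) = (N : ℤ) - Y := by
      rw [Nat.cast_sub (by omega)]
    rw [e4, ← hval N hN n hn]
    unfold thI
    rw [Int.toNat_natCast]
  rw [sum_congr rfl fun N hN => by rw [hin N hN]] at hb1
  have haX : c' * (X / ℓ ^ (2 * L + 1)) ≤ (A.card : ℝ) :=
    (mul_le_mul_of_nonneg_left (h5 X hX5).2 hc'0.le).trans hAc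
  set a : ℝ := (A.card : ℝ) with ha
  have ha0 : 0 < a := lt_of_lt_of_le (by positivity) haX
  set Bd1 := (IA X a0 Z s).filter (fun N => a / 4 <
    |∑ n ∈ A, ((if (N - k n).Prime then Real.log (N - k n : ℕ) else 0) - lamz z (N - k n))|) with hBd1
  have hBd1c : (Bd1.card : ℝ) ≤ (X : ℝ) ^ d / ℓ ^ 2 := by
    have e1 : (Bd1.card : ℝ) * (a / 4) ≤ (X : ℝ) ^ d * X / ℓ ^ (2 * L + 4) := by
      refine le_trans ?_ hb1
      calc (Bd1.card : ℝ) * (a / 4) = ∑ N ∈ Bd1, a / 4 := by rw [sum_const, nsmul_eq_mul]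
        _ ≤ ∑ N ∈ Bd1, |∑ n ∈ A, ((if (N - k n).Prime then Real.log (N - k n : ℕ) else 0) -
              lamz z (N - k n))| := by
            apply sum_le_sum
            intro N hN
            rw [hBd1, mem_filter] at hN
            exact hN.2.le
        _ ≤ _ := sum_le_sum_of_subset_of_nonneg (filter_subset _ _) (fun _ _ _ => abs_nonneg _)
    have e3 : (X : ℝ) ^ d * X / ℓ ^ (2 * L + 4) ≤ ((X : ℝ) ^ d / ℓ ^ 2) * (a / 4) := by
      have e4 : (X : ℝ) ^ d * X / ℓ ^ (2 * L + 4) =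
          ((X : ℝ) ^ d / ℓ ^ 2) * ((4 / c') / ℓ * (c' * (X / ℓ ^ (2 * L + 1))) / 4) := by
        field_simp
        ring
      rw [e4]
      apply mul_le_mul_of_nonneg_left _ (by positivity)
      apply div_le_div_of_nonneg_right _ (by norm_num)
      calc (4 / c') / ℓ * (c' * (X / ℓ ^ (2 * L + 1))) ≤ 1 * (c' * (X / ℓ ^ (2 * L + 1))) := by
            apply mul_le_mul_of_nonneg_right _ (by positivity)
            rw [div_le_one (by linarith)]
            exact hl3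
        _ ≤ a := by rw [one_mul]; exact haX
    exact le_of_mul_le_mul_right (e1.trans e3) (by positivity)
  refine ⟨Bd2 ∪ Bd1, ?_, ?_⟩
  · calc ((Bd2 ∪ Bd1).card : ℝ) ≤ (Bd2.card : ℝ) + Bd1.card := by
          exact_mod_cast card_union_le _ _
      _ ≤ _ := add_le_add hb2 hBd1c
  intro N hN hNB hLoc
  rw [mem_union, not_or] at hNB
  obtain ⟨hn2, hn1⟩ := hNB
  rw [hBd2, mem_filter, not_and] at hn2
  rw [hBd1, mem_filter, not_and] at hn1
  have hn2' := hn2 hN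
  have hn1' := hn1 hN
  push Not at hn2' hn1'
  rw [sum_sub_distrib] at hn1'
  have hsum : a / 4 ≤ ∑ n ∈ A, (if (N - k n).Prime then Real.log (N - k n : ℕ) else 0) := by
    have := (abs_le.1 hn1').1
    linarith
  obtain ⟨hN5, hNZ, hNs⟩ := hINm N hN
  have hlZ : Real.log Z ≤ (d + 1) * ℓ := by
    calc Real.log Z ≤ Real.log (κ * (X : ℝ) ^ d) := Real.log_le_log hZ0 hZκr
      _ = Real.log κ + d * ℓ := by rw [Real.log_mul hκ0.ne' hXd0.ne', Real.log_pow]
      _ ≤ _ := by linarith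
  have hcnt : X / ℓ ^ (2 * L + 3) ≤ ((A.filter (fun n => (N - k n).Prime)).card : ℝ) := by
    set q : ℝ := ((A.filter (fun n => (N - k n).Prime)).card : ℝ) with hq
    have hq0 : 0 ≤ q := by positivity
    have e1 : a / 4 ≤ (d + 1) * ℓ * q := by
      refine hsum.trans ?_
      rw [← sum_filter, mul_comm, ← nsmul_eq_mul]
      apply sum_le_card_nsmul
      intro n hn
      rw [mem_filter] at hn
      refine le_trans ?_ hlZ
      apply Real.log_le_log (by exact_mod_cast hn.2.pos)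
      have : N - k n ≤ Z := by omega
      exact_mod_cast this
    have e2 : (c' * (X / ℓ ^ (2 * L + 1))) / 4 ≤ (d + 1) * ℓ * q :=
      (div_le_div_of_nonneg_right haX (by norm_num)).trans e1
    have e3 : X / ℓ ^ (2 * L + 3) =
        (4 * (d + 1) / c') / ℓ * ((c' * (X / ℓ ^ (2 * L + 1))) / 4 / ((d + 1) * ℓ)) := by
      field_simp
      ring
    rw [e3]
    calc (4 * (d + 1) / c') / ℓ * ((c' * (X / ℓ ^ (2 * L + 1))) / 4 / ((d + 1) * ℓ)) ≤
          1 * ((c' * (X / ℓ ^ (2 * L + 1))) / 4 / ((d + 1) * ℓ)) := by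
          apply mul_le_mul_of_nonneg_right _ (by positivity)
          rw [div_le_one (by linarith)]
          exact hl4
      _ ≤ q := by
          rw [one_mul, div_le_iff₀ (by positivity)]
          linarith
  refine hcnt.trans ?_
  have hsub : (A.filter (fun n => (N - k n).Prime)).image (· + h) ⊆
      RepP g σ S m ⌊4 / δ⌋₊ A0 X ((N : ℤ) - Y) := by
    intro p hp
    rw [mem_image] at hp
    obtain ⟨n, hn, rfl⟩ := hp
    rw [mem_filter] at hn
    obtain ⟨hn1, hn2⟩ := hn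
    have e1 := hAm n hn1
    have e2 := hval N hN n hn1
    have e3 := hn1
    rw [hA, mem_filter] at e3
    have hclu := clusterP S m K e X b ⌊4 / δ⌋₊ A0 δ hUA
      (fun n hn u hu hr => h4 X hX4 b n u hb hn (hcop u hu) ((hUA u hu).trans hA0X) hr) n e3.1
    unfold RepP
    rw [mem_filter, mem_Icc]
    refine ⟨by omega, e3.2, ?_, hclu.1 j i, hclu.2 j i⟩
    rw [← e2, Int.toNat_natCast]
    exact hn2
  have hcard : (A.filter (fun n => (N - k n).Prime)).card ≤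
      (RepP g σ S m ⌊4 / δ⌋₊ A0 X ((N : ℤ) - Y)).card := by
    rw [← card_image_of_injective (A.filter (fun n => (N - k n).Prime)) hhinj]
    exact card_le_card hsub
  exact_mod_cast hcard

end Pool.Agent.TH882.PG
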