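import Pool.Agent.TH882.GSum

/-! Sieving by all primes beyond a constant. -/

set_option autoImplicit false

open Finset Filter Topology

namespace Pool.Agent.TH882.DD

open Pool.Agent.H361R2.PP
open Pool.Agent.W70.HR
open Pool.Agent.TH882.UB
open Pool.Agent.TH882.PC (cnt_Ico)

/-- counting in residue classes -/
lemma cntT (a b M0 s : ℕ) (hab : a ≤ b) (hs : s < M0) (T : Finset ℕ)
    (hT : ∀ p ∈ T, p.Prime ∧ p.Coprime M0) (c : ℕ → ℕ) (hc : ∀ p ∈ T, c p < p) :
    |(((Ico a b).filter (fun n => n % M0 = s ∧ ∀ p ∈ T, n % p = c p)).card : ℝ) -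
      ((b : ℝ) - a) / M0 / ∏ p ∈ T, (p : ℝ)| ≤ 1 := by
  classical
  have hcop : Nat.Coprime M0 (∏ p ∈ T, p) := by
    apply Nat.Coprime.prod_right
    intro p hp
    exact (hT p hp).2.symm
  have hWpos : 0 < M0 := by omega
  have hDpos : 0 < ∏ p ∈ T, p := Finset.prod_pos (fun p hp => (hT p hp).1.pos)
  obtain ⟨r, -, hr⟩ := crt ∅ T (by simp) (fun p hp => (hT p hp).1) (disjoint_empty_left _) 0 c
  obtain ⟨v, hv1, hv2⟩ := Nat.chineseRemainder hcop s r
  have hset : (Ico a b).filter (fun n => n % M0 = s ∧ ∀ p ∈ T, n % p = c p) =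
      (Ico a b).filter (fun n => n ≡ v [MOD M0 * ∏ p ∈ T, p]) := by
    apply filter_congr
    intro n _
    have e1 : (∀ p ∈ T, n % p = c p) ↔ ∀ p ∈ T, n % p = r % p := by
      constructor
      · intro h p hp
        rw [h p hp, hr p hp, Nat.mod_eq_of_lt (hc p hp)]
      · intro h p hp
        rw [h p hp, hr p hp, Nat.mod_eq_of_lt (hc p hp)]
    rw [e1, Pool.Agent.H20R2.EQI.modD T (fun p hp => (hT p hp).1) n r,
      ← Nat.modEq_and_modEq_iff_modEq_mul hcop]
    have hbb : s % M0 = s := Nat.mod_eq_of_lt hs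
    constructor
    · rintro ⟨h1, h2⟩
      refine ⟨?_, h2.trans hv2.symm⟩
      have : n ≡ s [MOD M0] := by unfold Nat.ModEq; rw [h1, hbb]
      exact this.trans hv1.symm
    · rintro ⟨h1, h2⟩
      refine ⟨?_, h2.trans hv2⟩
      have : n ≡ s [MOD M0] := h1.trans hv1
      unfold Nat.ModEq at this
      rw [this, hbb]
  rw [hset]
  have h := cnt_Ico a b (M0 * ∏ p ∈ T, p) v hab (Nat.mul_pos hWpos hDpos)
  rw [div_div]
  push_cast at h ⊢
  exact h

/-- the number of classes modulo `W` that are prime to `W` at the positions `U` -/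
noncomputable def BC (X : ℕ) (U : Finset ℕ) : Finset ℕ :=
  (range (Wm X)).filter (fun b => ∀ u ∈ U, (b + u).Coprime (Wm X))

/-- the density of the numbers without prime factors below `2 ^ 2 ^ J` -/
noncomputable def FF (δ : ℝ) (X : ℕ) : ℝ := VV δ X * ((Nat.totient (Wm X) : ℝ) / Wm X)

/-- the proportion of reduced classes -/
lemma phi_prod (X : ℕ) : (Nat.totient (Wm X) : ℝ) / Wm X =
    ∏ p ∈ (range (HH X + 1)).filter Nat.Prime, (1 - 1 / (p : ℝ)) := by
  have := Pool.Agent.TH882.PC.inv_wX X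
  unfold Pool.Agent.TH882.PC.wX at this
  rw [inv_div] at this
  exact this

/-- Bernoulli, in the other direction -/
lemma bern (L : ℕ) (x : ℝ) (hx0 : 0 ≤ x) (hx : x ≤ 1 / (2 * (L + 1))) :
    (1 - x) ^ L ≤ (1 - L * x) * (1 + 2 * (L : ℝ) ^ 2 * x ^ 2) := by
  have hL0 : (0 : ℝ) ≤ L := Nat.cast_nonneg L
  have h0 : (L : ℝ) * x ≤ 1 / 2 := by
    calc (L : ℝ) * x ≤ L * (1 / (2 * (L + 1))) := mul_le_mul_of_nonneg_left hx hL0
      _ ≤ 1 / 2 := by
          rw [mul_one_div, div_le_div_iff₀ (by positivity) (by norm_num)]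
          linarith
  have h1 : ∀ j : ℕ, j ≤ L → (1 - x) ^ j ≤ 1 - j * x + (j : ℝ) ^ 2 * x ^ 2 / 2 := by
    intro j
    induction j with
    | zero => intro _; simp
    | succ j ih =>
      intro hj
      have hjL : (j : ℝ) + 1 ≤ L := by exact_mod_cast hj
      have hx1 : x ≤ 1 := by
        refine hx.trans ?_
        rw [div_le_one (by positivity)]
        linarith
      have h2 := ih (by omega)
      have hj0 : (0 : ℝ) ≤ j := Nat.cast_nonneg j
      have h3 : (1 - x) ^ (j + 1) ≤ (1 - j * x + (j : ℝ) ^ 2 * x ^ 2 / 2) * (1 - x) := by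
        rw [pow_succ]
        exact mul_le_mul_of_nonneg_right h2 (by linarith)
      refine h3.trans ?_
      push_cast
      have h4 : (1 - (j : ℝ) * x + (j : ℝ) ^ 2 * x ^ 2 / 2) * (1 - x) =
          1 - (j + 1) * x + (j * x ^ 2 + (j : ℝ) ^ 2 * x ^ 2 / 2) - (j : ℝ) ^ 2 * x ^ 3 / 2 := by ring
      rw [h4]
      have h5 : 0 ≤ (j : ℝ) ^ 2 * x ^ 3 / 2 := by positivity
      have h6 : ((j : ℝ) * x ^ 2 + (j : ℝ) ^ 2 * x ^ 2 / 2) ≤ ((j : ℝ) + 1) ^ 2 * x ^ 2 / 2 := by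
        have : 0 ≤ x ^ 2 := by positivity
        nlinarith
      linarith
  have h2 := h1 L le_rfl
  refine h2.trans ?_
  have h3 : (1 - (L : ℝ) * x) * (1 + 2 * (L : ℝ) ^ 2 * x ^ 2) =
      1 - L * x + 2 * ((L : ℝ) ^ 2 * x ^ 2) * (1 - L * x) := by ring
  rw [h3]
  have h4 : (L : ℝ) ^ 2 * x ^ 2 / 2 ≤ 2 * ((L : ℝ) ^ 2 * x ^ 2) * (1 - L * x) := by
    have h5 : 0 ≤ (L : ℝ) ^ 2 * x ^ 2 := by positivity
    nlinarith
  linarith

lemma X16 {X : ℕ} (hX : 16 ≤ X) : 1 ≤ Real.log X ∧ (Wm X : ℝ) ≤ Real.log X := by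
  have hXr : (16 : ℝ) ≤ X := by exact_mod_cast hX
  have hlog : 1 ≤ Real.log X := by
    rw [← Real.log_exp 1]
    apply Real.log_le_log (Real.exp_pos _)
    have := Real.exp_one_lt_d9
    linarith
  refine ⟨hlog, ?_⟩
  have e1 := Pool.Agent.H325R2.wtx1 X hX
  refine e1.trans ?_
  calc Real.log X ^ (7 / 20 : ℝ) ≤ Real.log X ^ (1 : ℝ) :=
        Real.rpow_le_rpow_of_exponent_le hlog (by norm_num)
    _ = Real.log X := Real.rpow_one _

lemma phi_low {X : ℕ} (hX : 16 ≤ X) : 1 / Real.log X ≤ (Nat.totient (Wm X) : ℝ) / Wm X ∧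
    (Nat.totient (Wm X) : ℝ) / Wm X ≤ 1 := by
  obtain ⟨h1, h2⟩ := X16 hX
  have ha : (0 : ℝ) < Wm X := by exact_mod_cast Wm_pos X
  have hb : (1 : ℝ) ≤ Nat.totient (Wm X) := by exact_mod_cast Nat.totient_pos.2 (Wm_pos X)
  constructor
  · rw [div_le_div_iff₀ (by linarith) ha]
    nlinarith
  · rw [div_le_one ha]
    exact_mod_cast Nat.totient_le _

/-- the product over the primes between two bounds -/
lemma prod_low (L w0 : ℕ) (hw : 2 * (L + 1) ≤ w0) (P : Finset ℕ) (hP : ∀ p ∈ P, p.Prime ∧ w0 < p) :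
    Real.exp (-(2 * (L : ℝ) ^ 2)) * (∏ p ∈ P, (1 - 1 / (p : ℝ))) ^ L ≤
      ∏ p ∈ P, (1 - (L : ℝ) / p) := by
  have hfac : ∀ p ∈ P, (1 - 1 / (p : ℝ)) ^ L ≤
      (1 - (L : ℝ) / p) * Real.exp (2 * (L : ℝ) ^ 2 * (1 / ((p : ℝ) * (p - 1)))) := by
    intro p hp
    have h1 := (hP p hp).2
    have h2 : (2 * ((L : ℝ) + 1)) ≤ p := by
      have : 2 * (L + 1) ≤ p := by omega
      exact_mod_cast this
    have hL0 : (0 : ℝ) ≤ L := Nat.cast_nonneg L
    have hp0 : (0 : ℝ) < p := by linarith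
    have hp1 : (0 : ℝ) < (p : ℝ) - 1 := by linarith
    have h3 := bern L (1 / (p : ℝ)) (by positivity)
      (one_div_le_one_div_of_le (by positivity) h2)
    have h4 : 0 ≤ 1 - (L : ℝ) / p := by
      have : (L : ℝ) / p ≤ 1 := by
        rw [div_le_one hp0]
        linarith
      linarith
    have h5 : (1 - (L : ℝ) * (1 / p)) = 1 - (L : ℝ) / p := by ring
    rw [h5] at h3
    refine h3.trans (mul_le_mul_of_nonneg_left ?_ h4)
    have h6 := Real.add_one_le_exp (2 * (L : ℝ) ^ 2 * (1 / ((p : ℝ) * (p - 1))))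
    have h7 : 2 * (L : ℝ) ^ 2 * (1 / (p : ℝ)) ^ 2 ≤ 2 * (L : ℝ) ^ 2 * (1 / ((p : ℝ) * (p - 1))) := by
      apply mul_le_mul_of_nonneg_left _ (by positivity)
      rw [div_pow, one_pow]
      apply one_div_le_one_div_of_le (by positivity)
      nlinarith
    linarith
  have h1 : (∏ p ∈ P, (1 - 1 / (p : ℝ))) ^ L ≤
      (∏ p ∈ P, (1 - (L : ℝ) / p)) * Real.exp (2 * (L : ℝ) ^ 2) := by
    rw [← prod_pow]
    have h2 : ∏ p ∈ P, (1 - 1 / (p : ℝ)) ^ L ≤
        ∏ p ∈ P, ((1 - (L : ℝ) / p) * Real.exp (2 * (L : ℝ) ^ 2 * (1 / ((p : ℝ) * (p - 1))))) := by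
      apply Finset.prod_le_prod
      · intro p hp
        exact pow_nonneg (Pool.Agent.TH882.PC.one_sub_pos (hP p hp).1).le L
      · exact hfac
    refine h2.trans ?_
    rw [prod_mul_distrib, ← Real.exp_sum, ← mul_sum]
    apply mul_le_mul_of_nonneg_left
    · apply Real.exp_le_exp.2
      have h3 := Pool.Agent.TH882.PC.tail_sum w0 (by omega) P (fun p hp => (hP p hp).2)
      have h4 : 1 / (w0 : ℝ) ≤ 1 := by
        have : (1 : ℝ) ≤ w0 := by
          have : 1 ≤ w0 := by omega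
          exact_mod_cast this
        rw [div_le_one (by linarith)]
        exact this
      have h5 : 0 ≤ 2 * (L : ℝ) ^ 2 := by positivity
      nlinarith
    · apply prod_nonneg
      intro p hp
      have h1 := (hP p hp).2
      have h2 : (2 * ((L : ℝ) + 1)) ≤ p := by
        have : 2 * (L + 1) ≤ p := by omega
        exact_mod_cast this
      have hL0 : (0 : ℝ) ≤ L := Nat.cast_nonneg L
      have : (L : ℝ) / p ≤ 1 := by
        rw [div_le_one (by linarith)]
        linarith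
      linarith
  rw [Real.exp_neg, inv_mul_le_iff₀ (Real.exp_pos _), mul_comm]
  rw [mul_comm] at h1
  linarith [h1]

lemma primorial_cop {w p : ℕ} (hp : p.Prime) (h : w < p) : p.Coprime (primorial w) := by
  rw [hp.coprime_iff_not_dvd]
  intro hd
  have := hp.dvd_primorial_iff.1 hd
  omega

/-- many classes -/
theorem B_lower (L A0 : ℕ) : ∃ w0 : ℕ, ∃ c : ℝ, 0 < c ∧ ∃ X₀ : ℕ, ∀ X : ℕ, X₀ ≤ X →
    ∀ U : Finset ℕ, U.card = L → (∀ u ∈ U, u ≤ A0) → ∀ b0 : ℕ,
    (∀ u ∈ U, (b0 + u).Coprime (primorial w0)) →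
    c * (Wm X * ((Nat.totient (Wm X) : ℝ) / Wm X) ^ L) ≤ ((BC X U).card : ℝ) := by
  classical
  obtain ⟨C0, hC0, hfl⟩ := Pool.Agent.TH882.FL.fl1 L
  set w0 : ℕ := C0 + A0 + 2 * (L + 1) with hw0
  set δ' : ℝ := 1 / (16 * (C0 : ℝ) * C0) with hδ'
  have hC0r : (1 : ℝ) ≤ C0 := by exact_mod_cast hC0
  have hδ'0 : 0 < δ' := by
    rw [hδ']
    positivity
  have hδ'1 : δ' ≤ 1 := by
    rw [hδ', div_le_one (by positivity)]
    nlinarith
  have hδ'M : δ' * ((C0 * C0 * 2 : ℕ) : ℝ) ≤ 1 / 8 := by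
    push_cast
    rw [hδ']
    have : 1 / (16 * (C0 : ℝ) * C0) * ((C0 : ℝ) * C0 * 2) = 1 / 8 := by field_simp; norm_num
    exact this.le
  obtain ⟨X2, hJ⟩ := JJ_size δ' hδ'0 hδ'1 (C0 * C0 * 2) (1 / 8) hδ'M
  set M0 : ℕ := primorial w0 with hM0
  have hM00 : 0 < M0 := primorial_pos _
  have hM0r : (0 : ℝ) < M0 := by exact_mod_cast hM00
  set e0 : ℝ := Real.exp (-(2 * (L : ℝ) ^ 2)) with he0
  have he00 : 0 < e0 := Real.exp_pos _
  obtain ⟨X4, hev⟩ := ev_pow (1 / 2) (16 * M0 / e0) (by norm_num) (L + 1)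
  refine ⟨w0, e0 / (8 * M0), by positivity, max (max X2 X4) 16, ?_⟩
  intro X hX U hUc hUA b0 hb0
  have hX2 : X2 ≤ X := by omega
  have hX4 : X4 ≤ X := by omega
  have hX16 : 16 ≤ X := by omega
  have hXr : (16 : ℝ) ≤ X := by exact_mod_cast hX16
  have hX0 : (0 : ℝ) < X := by linarith
  obtain ⟨hl1, hWl⟩ := X16 hX16
  obtain ⟨hφ1, hφ2⟩ := phi_low hX16
  set f : ℝ := (Nat.totient (Wm X) : ℝ) / Wm X with hf
  have hf0 : 0 < f := lt_of_lt_of_le (by positivity) hφ1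
  obtain ⟨hJ1, hJ2, hJ3, -⟩ := hJ X hX2
  set J := JJ δ' X with hJdef
  set P : Finset ℕ := (range (HH X + 1)).filter (fun p => p.Prime ∧ w0 < p) with hP
  have hPp : ∀ p ∈ P, p.Prime ∧ w0 < p ∧ p ≤ HH X := by
    intro p hp
    rw [hP, mem_filter, mem_range] at hp
    exact ⟨hp.2.1, hp.2.2, by omega⟩
  set A : ℝ := (X : ℝ) / M0 with hA
  have hA0 : 0 < A := by positivity
  set S : Finset ℕ := (Ico X (2 * X)).filter (fun n => n % M0 = b0 % M0) with hS
  have hkey := hfl C0 J w0 P (cls U) le_rfl (by omega)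
    (fun p hp => ⟨(hPp p hp).1, (hPp p hp).2.1, by have := (hPp p hp).2.2; omega⟩) (by
      intro p _
      unfold cls
      exact card_image_le.trans hUc.le) S A hA0.le (by
      intro T hT c hc
      have h1 := cntT X (2 * X) M0 (b0 % M0) (by omega) (Nat.mod_lt _ hM00) T
        (fun p hp => ⟨(hPp p (hT hp)).1, primorial_cop (hPp p (hT hp)).1 (hPp p (hT hp)).2.1⟩) c (by
          intro p hp
          have h2 := hc p hp
          unfold cls at h2
          rw [mem_image] at h2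
          obtain ⟨u, -, h3⟩ := h2
          rw [← h3]
          exact Nat.mod_lt _ (hPp p (hT hp)).1.pos)
      have e1 : (((2 * X : ℕ) : ℝ) - X) / M0 = A := by
        rw [hA]
        push_cast
        ring
      rw [e1] at h1
      rw [hS, filter_filter]
      exact h1)
  have hcard : ∀ p ∈ P, ((cls U p).card : ℝ) = L := by
    intro p hp
    rw [card_cls (hPp p hp).1.pos U (fun u hu => by
      have h1 := hUA u hu
      have h2 := (hPp p hp).2.1
      omega), hUc]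
  have e1 : ∏ p ∈ P, (1 - ((cls U p).card : ℝ) / p) = ∏ p ∈ P, (1 - (L : ℝ) / p) :=
    prod_congr rfl fun p hp => by rw [hcard p hp]
  rw [e1] at hkey
  have hpl := prod_low L w0 (by omega) P (fun p hp => ⟨(hPp p hp).1, (hPp p hp).2.1⟩)
  have hfP : f ≤ ∏ p ∈ P, (1 - 1 / (p : ℝ)) := by
    rw [hf, phi_prod]
    have hsub : P ⊆ (range (HH X + 1)).filter Nat.Prime := by
      intro p hp
      rw [hP, mem_filter] at hp
      exact mem_filter.2 ⟨hp.1, hp.2.1⟩
    rw [← prod_sdiff hsub]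
    have h1 : ∏ p ∈ (range (HH X + 1)).filter Nat.Prime \ P, (1 - 1 / (p : ℝ)) ≤ 1 := by
      apply prod_le_one
      · intro p hp
        exact (Pool.Agent.TH882.PC.one_sub_pos (mem_filter.1 (mem_sdiff.1 hp).1).2).le
      · intro p _
        have : 0 ≤ 1 / (p : ℝ) := by positivity
        linarith
    have h2 : 0 ≤ ∏ p ∈ P, (1 - 1 / (p : ℝ)) :=
      prod_nonneg fun p hp => (Pool.Agent.TH882.PC.one_sub_pos (hPp p hp).1).le
    nlinarith
  have hfL : e0 * f ^ L ≤ ∏ p ∈ P, (1 - (L : ℝ) / p) := by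
    refine le_trans ?_ hpl
    exact mul_le_mul_of_nonneg_left (pow_le_pow_left₀ hf0.le hfP L) he00.le
  have herr : ((J : ℝ) + 2) * (((2 ^ 2 ^ J : ℕ) : ℝ) ^ (C0 * C0)) ^ 2 ≤
      A * (e0 * f ^ L) / 4 := by
    have h1 : (((2 ^ 2 ^ J : ℕ) : ℝ) ^ (C0 * C0)) ^ 2 ≤ (X : ℝ) ^ (1 / 8 : ℝ) := by
      rw [← pow_mul]
      exact hJ2
    have h5 := hev X hX4
    have h6 : (1 / Real.log X) ^ L ≤ f ^ L := pow_le_pow_left₀ (by positivity) hφ1 L
    have h7 : (X : ℝ) ^ (1 / 2 : ℝ) * (X : ℝ) ^ (1 / 8 : ℝ) ≤ X := by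
      rw [← Real.rpow_add hX0]
      calc (X : ℝ) ^ (1 / 2 + 1 / 8 : ℝ) ≤ (X : ℝ) ^ (1 : ℝ) :=
            Real.rpow_le_rpow_of_exponent_le (by linarith) (by norm_num)
        _ = X := Real.rpow_one _
    calc ((J : ℝ) + 2) * (((2 ^ 2 ^ J : ℕ) : ℝ) ^ (C0 * C0)) ^ 2 ≤
        (4 * Real.log X) * (X : ℝ) ^ (1 / 8 : ℝ) := by
          apply mul_le_mul hJ1 h1 (by positivity) (by positivity)
      _ = (16 * M0 / e0 * Real.log X ^ (L + 1)) * (X : ℝ) ^ (1 / 8 : ℝ) *
          (e0 * (1 / Real.log X) ^ L) / M0 / 4 := by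
          rw [div_pow, one_pow]
          field_simp
          ring
      _ ≤ (X : ℝ) ^ (1 / 2 : ℝ) * (X : ℝ) ^ (1 / 8 : ℝ) *
          (e0 * (1 / Real.log X) ^ L) / M0 / 4 := by
          gcongr
      _ ≤ X * (e0 * f ^ L) / M0 / 4 := by
          gcongr
      _ = _ := by
          rw [hA]
          ring
  have hlow : A * (e0 * f ^ L) / 4 ≤
      ((S.filter (fun n => ∀ p ∈ P, n % p ∉ cls U p)).card : ℝ) := by
    have h1 := (abs_le.1 hkey).1
    have h2 : (1 / 2 : ℝ) ^ C0 ≤ 1 / 2 := by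
      calc (1 / 2 : ℝ) ^ C0 ≤ (1 / 2 : ℝ) ^ 1 :=
            pow_le_pow_of_le_one (by norm_num) (by norm_num) hC0
        _ = 1 / 2 := pow_one _
    have h3 : A * (e0 * f ^ L) ≤ A * ∏ p ∈ P, (1 - (L : ℝ) / p) :=
      mul_le_mul_of_nonneg_left hfL hA0.le
    have h4 : 0 ≤ A * ∏ p ∈ P, (1 - (L : ℝ) / p) := le_trans (by positivity) h3
    have h5 : (1 / 2 : ℝ) ^ C0 * (A * ∏ p ∈ P, (1 - (L : ℝ) / p)) ≤
        1 / 2 * (A * ∏ p ∈ P, (1 - (L : ℝ) / p)) := mul_le_mul_of_nonneg_right h2 h4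
    linarith
  have hup : ((S.filter (fun n => ∀ p ∈ P, n % p ∉ cls U p)).card : ℝ) ≤
      ((BC X U).card : ℝ) * (2 * (X / Wm X)) := by
    have hsub : S.filter (fun n => ∀ p ∈ P, n % p ∉ cls U p) ⊆ (BC X U).biUnion (SI X) := by
      intro n hn
      rw [mem_filter, hS, mem_filter, mem_Ico] at hn
      obtain ⟨⟨hn1, hn2⟩, hn3⟩ := hn
      rw [mem_biUnion]
      refine ⟨n % Wm X, ?_, ?_⟩
      · unfold BC
        rw [mem_filter, mem_range]
        refine ⟨Nat.mod_lt _ (Wm_pos X), ?_⟩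
        intro u hu
        rw [Nat.coprime_iff_gcd_eq_one]
        by_contra hcon
        obtain ⟨l, hl, hlg⟩ := Nat.exists_prime_and_dvd hcon
        have h1 : l ∣ n % Wm X + u := hlg.trans (Nat.gcd_dvd_left _ _)
        have h2 : l ∣ Wm X := hlg.trans (Nat.gcd_dvd_right _ _)
        have h3 : l ≤ HH X := by
          unfold Wm at h2
          exact hl.dvd_primorial_iff.1 h2
        have h4 : n % Wm X ≡ n [MOD l] := (Nat.mod_modEq _ _).of_dvd h2
        have h5 : l ∣ n + u := ((h4.add_right u).dvd_iff dvd_rfl).1 h1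
        by_cases hlw : w0 < l
        · have h6 := hn3 l (by
            rw [hP, mem_filter, mem_range]
            exact ⟨by omega, hl, hlw⟩)
          rw [notMem_cls hl.pos] at h6
          exact h6 u hu h5
        · have h6 : l ∣ M0 := hl.dvd_primorial_iff.2 (by omega)
          have h7 : n ≡ b0 [MOD l] := by
            have : n ≡ b0 [MOD M0] := hn2
            exact this.of_dvd h6
          have h8 : l ∣ b0 + u := ((h7.add_right u).dvd_iff dvd_rfl).1 h5
          have h9 := Nat.dvd_gcd h8 h6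
          have h10 := hb0 u hu
          rw [Nat.coprime_iff_gcd_eq_one] at h10
          rw [h10] at h9
          exact hl.one_lt.ne' (Nat.dvd_one.1 h9)
      · unfold SI
        rw [mem_filter, mem_Ico]
        exact ⟨hn1, rfl⟩
    have h1 : ((S.filter (fun n => ∀ p ∈ P, n % p ∉ cls U p)).card : ℝ) ≤
        ∑ b ∈ BC X U, ((SI X b).card : ℝ) := by
      exact_mod_cast (card_le_card hsub).trans card_biUnion_le
    refine h1.trans ?_
    rw [← nsmul_eq_mul]
    apply sum_le_card_nsmul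
    intro b hb
    unfold BC at hb
    rw [mem_filter, mem_range] at hb
    have h2 := cntT X (2 * X) (Wm X) b (by omega) hb.1 ∅ (by simp) (fun _ => 0) (by simp)
    simp only [notMem_empty, false_imp_iff, implies_true, and_true, prod_empty, div_one] at h2
    have h3 : (((2 * X : ℕ) : ℝ) - X) / Wm X = X / Wm X := by
      push_cast
      ring
    rw [h3] at h2
    have h4 := (abs_le.1 h2).2
    have h5 : (1 : ℝ) ≤ X / Wm X := by
      have hW0 : (0 : ℝ) < Wm X := by exact_mod_cast Wm_pos X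
      rw [le_div_iff₀ hW0, one_mul]
      have := (Real.log_le_sub_one_of_pos hX0)
      linarith
    unfold SI
    linarith
  have hfin := hlow.trans hup
  have hW0 : (0 : ℝ) < Wm X := by exact_mod_cast Wm_pos X
  have h1 : e0 / (8 * M0) * (Wm X * f ^ L) = A * (e0 * f ^ L) / 4 / (2 * (X / Wm X)) := by
    rw [hA]
    field_simp
    ring
  rw [h1, div_le_iff₀ (by positivity)]
  exact hfin

end Pool.Agent.TH882.DD
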