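import Pool.Agent.TH882.D2

/-! The average of the square of the singular factor. -/

set_option autoImplicit false

open Finset Filter Topology

namespace Pool.Agent.TH882.DD

open Pool.Agent.H361R2.PP
open Pool.Agent.W70.HR
open Pool.Agent.TH882.UB
open Pool.Agent.TH882.PC (cnt_Ico one_sub_pos tail_sum)

lemma pw (x : ℝ) (hx0 : 0 ≤ x) (hx1 : x ≤ 1) (j : ℕ) : (1 + 2 * x) ^ j ≤ 1 + (3 ^ j - 1) * x := by
  induction j with
  | zero => simp
  | succ j ih =>
    have h1 : (1 : ℝ) ≤ 3 ^ j := one_le_pow₀ (by norm_num)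
    calc (1 + 2 * x) ^ (j + 1) = (1 + 2 * x) ^ j * (1 + 2 * x) := pow_succ _ _
      _ ≤ (1 + (3 ^ j - 1) * x) * (1 + 2 * x) := mul_le_mul_of_nonneg_right ih (by linarith)
      _ = 1 + (3 ^ j + 1) * x + 2 * (3 ^ j - 1) * (x * x) := by ring
      _ ≤ 1 + (3 ^ j + 1) * x + 2 * (3 ^ j - 1) * (x * 1) := by
          have h2 : x * x ≤ x * 1 := mul_le_mul_of_nonneg_left hx1 hx0
          have h3 : 0 ≤ 2 * ((3 : ℝ) ^ j - 1) := by linarith
          have := mul_le_mul_of_nonneg_left h2 h3
          linarith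
      _ = 1 + (3 ^ (j + 1) - 1) * x := by rw [pow_succ]; ring

/-- the factor of a linear form -/
noncomputable def Fm (P : Finset ℕ) (C : ℝ) (n : ℕ) : ℝ :=
  ∏ p ∈ P.filter (fun p => p ∣ n), (1 + C / (p : ℝ))

lemma prod_le_sum_pow {ι : Type*} (V : Finset ι) (hV : V.Nonempty) (y : ι → ℝ)
    (hy : ∀ x ∈ V, 0 ≤ y x) : ∏ x ∈ V, y x ≤ ∑ x ∈ V, y x ^ V.card := by
  obtain ⟨x0, hx0, hmax⟩ := exists_max_image V y hV
  calc ∏ x ∈ V, y x ≤ ∏ _x ∈ V, y x0 := Finset.prod_le_prod hy hmax
    _ = y x0 ^ V.card := by rw [prod_const]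
    _ ≤ _ := single_le_sum (f := fun x => y x ^ V.card) (fun x hx => pow_nonneg (hy x hx) _) hx0

lemma hh_sq (P U : Finset ℕ) (N : ℕ) (hU : U.Nonempty) (hP : ∀ p ∈ P, p.Prime) :
    hh P U N ^ 2 ≤ ∑ x ∈ U ×ˢ U, Fm P (3 ^ (2 * (U.card * U.card))) (N + x.1 + x.2) := by
  classical
  have h1 : hh P U N ≤ ∏ x ∈ U ×ˢ U, Fm P 2 (N + x.1 + x.2) := by
    unfold hh
    calc ∏ p ∈ P, (1 + 2 * (gp U N p : ℝ) / p) ≤ ∏ p ∈ P, (1 + 2 / (p : ℝ)) ^ (gp U N p) := by
          apply Finset.prod_le_prod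
          · intro p _
            have : 0 ≤ 2 * (gp U N p : ℝ) / p := by positivity
            linarith
          · intro p _
            have h2 := one_add_mul_le_pow (a := 2 / (p : ℝ)) (by
              have : 0 ≤ 2 / (p : ℝ) := by positivity
              linarith) (gp U N p)
            calc 1 + 2 * (gp U N p : ℝ) / p = 1 + (gp U N p : ℝ) * (2 / p) := by ring
              _ ≤ _ := h2
      _ = ∏ p ∈ P, ∏ x ∈ U ×ˢ U, (if p ∣ N + x.1 + x.2 then (1 + 2 / (p : ℝ)) else 1) := by
          apply prod_congr rfl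
          intro p _
          rw [← prod_filter, prod_const]
          rfl
      _ = ∏ x ∈ U ×ˢ U, ∏ p ∈ P, (if p ∣ N + x.1 + x.2 then (1 + 2 / (p : ℝ)) else 1) := prod_comm
      _ = _ := by
          apply prod_congr rfl
          intro x _
          unfold Fm
          rw [prod_filter]
  have h2 : hh P U N ^ 2 ≤ ∏ x ∈ U ×ˢ U, (Fm P 2 (N + x.1 + x.2)) ^ 2 := by
    rw [prod_pow]
    exact pow_le_pow_left₀ (by linarith [hh_one P U N]) h1 2
  refine h2.trans ?_
  refine (prod_le_sum_pow (U ×ˢ U) (hU.product hU) _ (fun x _ => sq_nonneg _)).trans ?_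
  apply sum_le_sum
  intro x _
  rw [card_product, ← pow_mul]
  unfold Fm
  rw [← prod_pow]
  apply Finset.prod_le_prod
  · intro p _
    positivity
  · intro p hp
    have hp1 : (1 : ℝ) ≤ p := by exact_mod_cast (hP p (mem_filter.1 hp).1).one_lt.le
    have h3 := pw (1 / (p : ℝ)) (by positivity) (by rw [div_le_one (by linarith)]; exact hp1)
      (2 * (U.card * U.card))
    calc (1 + 2 / (p : ℝ)) ^ (2 * (U.card * U.card)) =
        (1 + 2 * (1 / (p : ℝ))) ^ (2 * (U.card * U.card)) := by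
          congr 1
          ring
      _ ≤ 1 + (3 ^ (2 * (U.card * U.card)) - 1) * (1 / (p : ℝ)) := h3
      _ ≤ 1 + 3 ^ (2 * (U.card * U.card)) / (p : ℝ) := by
          have : 0 ≤ 1 / (p : ℝ) := by positivity
          have e : (3 : ℝ) ^ (2 * (U.card * U.card)) / (p : ℝ) =
            3 ^ (2 * (U.card * U.card)) * (1 / (p : ℝ)) := by ring
          rw [e]
          nlinarith

/-- the large primes -/
lemma bigp (C : ℝ) (hC : 0 ≤ C) : ∃ X₀ : ℕ, ∀ X : ℕ, X₀ ≤ X → ∀ N : ℕ, 0 < N → N ≤ 5 * X →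
    ∀ B : Finset ℕ, (∀ p ∈ B, p.Prime ∧ ¬ (p : ℝ) ≤ Real.log X / 20 ∧ p ∣ N) →
    ∏ p ∈ B, (1 + C / (p : ℝ)) ≤ 2 := by
  classical
  have ht : Tendsto (fun X : ℕ => Real.log (Real.log (X : ℝ) / 20)) atTop atTop :=
    Real.tendsto_log_atTop.comp ((Real.tendsto_log_atTop.comp
      tendsto_natCast_atTop_atTop).atTop_div_const (by norm_num))
  have hl2 : 0 < Real.log 2 := Real.log_pos (by norm_num)
  obtain ⟨X1, h1⟩ := eventually_atTop.1 (ht.eventually_ge_atTop (max 1 (40 * C / Real.log 2)))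
  refine ⟨max X1 5, ?_⟩
  intro X hX N hN0 hN B hB
  have hX1 : X1 ≤ X := (le_max_left _ _).trans hX
  have hX5 : 5 ≤ X := (le_max_right _ _).trans hX
  have hXr : (5 : ℝ) ≤ X := by exact_mod_cast hX5
  have hl1 : 1 ≤ Real.log X := by
    rw [Real.le_log_iff_exp_le (by linarith)]
    have := Real.exp_one_lt_d9
    linarith
  have h2 := h1 X hX1
  set y : ℝ := Real.log X / 20 with hy
  have hy0 : 0 < y := by rw [hy]; positivity
  have hly1 : 1 ≤ Real.log y := (le_max_left _ _).trans h2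
  have hly2 : 40 * C / Real.log 2 ≤ Real.log y := (le_max_right _ _).trans h2
  have hdvd : (∏ p ∈ B, p) ∣ N :=
    Finset.prod_primes_dvd N (fun p hp => Nat.prime_iff.1 (hB p hp).1) (fun p hp => (hB p hp).2.2)
  have hle : (∏ p ∈ B, p : ℕ) ≤ 5 * X := (Nat.le_of_dvd hN0 hdvd).trans hN
  have hpow : y ^ B.card ≤ 5 * X := by
    calc y ^ B.card = ∏ _p ∈ B, y := by rw [prod_const]
      _ ≤ ∏ p ∈ B, (p : ℝ) := by
          apply Finset.prod_le_prod (fun _ _ => hy0.le)
          intro p hp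
          exact (not_le.1 (hB p hp).2.1).le
      _ ≤ 5 * X := by
          have h3 := (Nat.cast_le (α := ℝ)).2 hle
          push_cast at h3
          exact h3
  have hcard : (B.card : ℝ) * Real.log y ≤ 2 * Real.log X := by
    have h3 := Real.log_le_log (by positivity) hpow
    rw [Real.log_pow, Real.log_mul (by norm_num) (by linarith)] at h3
    have h4 : Real.log 5 ≤ Real.log X := Real.log_le_log (by norm_num) hXr
    linarith
  calc ∏ p ∈ B, (1 + C / (p : ℝ)) ≤ ∏ _p ∈ B, Real.exp (C / y) := by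
        apply Finset.prod_le_prod
        · intro p _
          positivity
        · intro p hp
          have h3 := Real.add_one_le_exp (C / (p : ℝ))
          have h4 : Real.exp (C / (p : ℝ)) ≤ Real.exp (C / y) := by
            apply Real.exp_le_exp.2
            exact div_le_div_of_nonneg_left hC hy0 (not_le.1 (hB p hp).2.1).le
          linarith
    _ = Real.exp (B.card * (C / y)) := by
        rw [prod_const, ← Real.exp_nat_mul]
    _ ≤ Real.exp (Real.log 2) := by
        apply Real.exp_le_exp.2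
        have h3 : (B.card : ℝ) * (C / y) * Real.log y ≤ 40 * C := by
          calc (B.card : ℝ) * (C / y) * Real.log y = (B.card : ℝ) * Real.log y * (C / y) := by ring
            _ ≤ 2 * Real.log X * (C / y) := mul_le_mul_of_nonneg_right hcard (by positivity)
            _ = 40 * C := by
                rw [hy]
                field_simp
                ring
        have h4 : 40 * C ≤ Real.log 2 * Real.log y := by
          rw [div_le_iff₀ hl2] at hly2
          linarith
        have h5 : (B.card : ℝ) * (C / y) * Real.log y ≤ Real.log 2 * Real.log y := h3.trans h4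
        exact le_of_mul_le_mul_right h5 (by linarith)
    _ = 2 := Real.exp_log (by norm_num)

/-- the average of the factor of a linear form -/
lemma avgF (C : ℝ) (hC : 0 ≤ C) (A0 : ℕ) : ∃ X₀ : ℕ, ∀ X : ℕ, X₀ ≤ X → ∀ v : ℕ, v ≤ A0 →
    ∀ P : Finset ℕ, (∀ p ∈ P, p.Prime) →
    ∑ N ∈ Ico (2 * X) (4 * X), Fm P C (N + v) ≤ 6 * Real.exp C * X := by
  classical
  obtain ⟨X1, h1⟩ := bigp C hC
  refine ⟨max (max X1 A0) 1, ?_⟩
  intro X hX v hv P hP
  have hX1 : X1 ≤ X := by omega
  have hXA : A0 ≤ X := by omega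
  have hX1' : 1 ≤ X := by omega
  have hXr : (1 : ℝ) ≤ X := by exact_mod_cast hX1'
  set S := P.filter (fun p : ℕ => (p : ℝ) ≤ Real.log X / 20) with hS
  have hSp : ∀ p ∈ S, p.Prime ∧ (p : ℝ) ≤ Real.log X / 20 := by
    intro p hp
    rw [hS, mem_filter] at hp
    exact ⟨hP p hp.1, hp.2⟩
  have hF : ∀ N ∈ Ico (2 * X) (4 * X), Fm P C (N + v) ≤ 2 * Fm S C (N + v) := by
    intro N hN
    rw [mem_Ico] at hN
    unfold Fm
    rw [← prod_filter_mul_prod_filter_not (P.filter (fun p => p ∣ N + v))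
      (fun p : ℕ => (p : ℝ) ≤ Real.log X / 20), mul_comm]
    have e1 : (P.filter (fun p => p ∣ N + v)).filter (fun p : ℕ => (p : ℝ) ≤ Real.log X / 20) =
        S.filter (fun p => p ∣ N + v) := by
      rw [hS]
      ext p
      simp only [mem_filter]
      tauto
    rw [e1]
    apply mul_le_mul_of_nonneg_right
    · apply h1 X hX1 (N + v) (by omega) (by omega)
      intro p hp
      rw [mem_filter, mem_filter] at hp
      exact ⟨hP p hp.1.1, hp.2, hp.1.2⟩
    · apply prod_nonneg
      intro p _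
      positivity
  have hexp : ∀ n, Fm S C n = ∑ D ∈ S.powerset,
      (∏ p ∈ D, C / (p : ℝ)) * (if ∀ p ∈ D, p ∣ n then 1 else 0) := by
    intro n
    unfold Fm
    rw [prod_one_add]
    have h2 : (S.filter (fun p => p ∣ n)).powerset =
        S.powerset.filter (fun D => ∀ p ∈ D, p ∣ n) := by
      ext D
      rw [mem_powerset, mem_filter, mem_powerset]
      constructor
      · intro h
        exact ⟨h.trans (filter_subset _ _), fun p hp => (mem_filter.1 (h hp)).2⟩
      · rintro ⟨h3, h4⟩ p hp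
        exact mem_filter.2 ⟨h3 hp, h4 p hp⟩
    rw [h2, sum_filter]
    apply sum_congr rfl
    intro D _
    split_ifs <;> simp
  have hcnt : ∀ D ∈ S.powerset, (((Ico (2 * X) (4 * X)).filter
      (fun N => ∀ p ∈ D, p ∣ N + v)).card : ℝ) ≤ 3 * X / ∏ p ∈ D, (p : ℝ) := by
    intro D hD
    rw [mem_powerset] at hD
    have h2 := cntT (2 * X) (4 * X) 1 0 (by omega) one_pos D
      (fun p hp => ⟨(hSp p (hD hp)).1, Nat.coprime_one_right _⟩) (fun p => (p - v % p) % p)
      (fun p hp => Nat.mod_lt _ (hSp p (hD hp)).1.pos)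
    have e1 : (((4 * X : ℕ) : ℝ) - ((2 * X : ℕ) : ℝ)) / ((1 : ℕ) : ℝ) = 2 * X := by
      push_cast
      ring
    rw [e1] at h2
    simp only [Nat.mod_one, true_and] at h2
    have e2 : (Ico (2 * X) (4 * X)).filter (fun N => ∀ p ∈ D, p ∣ N + v) =
        (Ico (2 * X) (4 * X)).filter (fun N => ∀ p ∈ D, N % p = (p - v % p) % p) := by
      apply filter_congr
      intro N _
      constructor
      · intro h p hp
        exact (mod_eq_iff (hSp p (hD hp)).1.pos N v).2 (h p hp)
      · intro h p hp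
        exact (mod_eq_iff (hSp p (hD hp)).1.pos N v).1 (h p hp)
    rw [e2]
    have h3 := (abs_le.1 h2).2
    have hDpos : 0 < ∏ p ∈ D, (p : ℝ) := prod_pos fun p hp => by exact_mod_cast (hSp p (hD hp)).1.pos
    have h4 := prod_small D hX1' (fun p hp => hSp p (hD hp))
    have h5 : (X : ℝ) ^ (1 / 10 : ℝ) ≤ X := by
      calc (X : ℝ) ^ (1 / 10 : ℝ) ≤ (X : ℝ) ^ (1 : ℝ) :=
            Real.rpow_le_rpow_of_exponent_le hXr (by norm_num)
        _ = X := Real.rpow_one _
    have h6 : 1 ≤ (X : ℝ) / ∏ p ∈ D, (p : ℝ) := by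
      rw [le_div_iff₀ hDpos, one_mul]
      exact h4.trans h5
    have h7 : 3 * (X : ℝ) / ∏ p ∈ D, (p : ℝ) = 2 * X / (∏ p ∈ D, (p : ℝ)) +
        X / ∏ p ∈ D, (p : ℝ) := by ring
    rw [h7]
    linarith
  have hsum : ∑ N ∈ Ico (2 * X) (4 * X), Fm S C (N + v) ≤ 3 * Real.exp C * X := by
    calc ∑ N ∈ Ico (2 * X) (4 * X), Fm S C (N + v) =
        ∑ D ∈ S.powerset, (∏ p ∈ D, C / (p : ℝ)) *
          (((Ico (2 * X) (4 * X)).filter (fun N => ∀ p ∈ D, p ∣ N + v)).card : ℝ) := by
          rw [sum_congr rfl fun N _ => hexp (N + v), sum_comm]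
          apply sum_congr rfl
          intro D _
          rw [← mul_sum, sum_boole]
      _ ≤ ∑ D ∈ S.powerset, (∏ p ∈ D, C / (p : ℝ)) * (3 * X / ∏ p ∈ D, (p : ℝ)) := by
          apply sum_le_sum
          intro D hD
          apply mul_le_mul_of_nonneg_left (hcnt D hD)
          apply prod_nonneg
          intro p _
          positivity
      _ = 3 * X * ∑ D ∈ S.powerset, ∏ p ∈ D, (C * (1 / (p : ℝ) ^ 2)) := by
          rw [mul_sum]
          apply sum_congr rfl
          intro D _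
          have : ∏ p ∈ D, (C * (1 / (p : ℝ) ^ 2)) = (∏ p ∈ D, C / (p : ℝ)) * (1 / ∏ p ∈ D, (p : ℝ)) := by
            rw [one_div, ← prod_inv_distrib, ← prod_mul_distrib]
            apply prod_congr rfl
            intro p _
            ring
          rw [this]
          ring
      _ = 3 * X * ∏ p ∈ S, (1 + C * (1 / (p : ℝ) ^ 2)) := by rw [prod_one_add]
      _ ≤ 3 * X * Real.exp C := by
          apply mul_le_mul_of_nonneg_left _ (by positivity)
          calc ∏ p ∈ S, (1 + C * (1 / (p : ℝ) ^ 2)) ≤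
              ∏ p ∈ S, Real.exp (C * (1 / ((p : ℝ) * (p - 1)))) := by
                apply Finset.prod_le_prod
                · intro p _
                  positivity
                · intro p hp
                  have h2 : (2 : ℝ) ≤ p := by exact_mod_cast (hSp p hp).1.two_le
                  have h3 := Real.add_one_le_exp (C * (1 / ((p : ℝ) * (p - 1))))
                  have h4 : C * (1 / (p : ℝ) ^ 2) ≤ C * (1 / ((p : ℝ) * (p - 1))) := by
                    apply mul_le_mul_of_nonneg_left _ hC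
                    apply one_div_le_one_div_of_le
                    · apply mul_pos <;> linarith
                    · nlinarith
                  linarith
            _ = Real.exp (C * ∑ p ∈ S, 1 / ((p : ℝ) * (p - 1))) := by
                rw [← Real.exp_sum, mul_sum]
            _ ≤ Real.exp C := by
                apply Real.exp_le_exp.2
                have h2 := tail_sum 1 le_rfl S (fun p hp => (hSp p hp).1.one_lt)
                push_cast at h2
                nlinarith
      _ = _ := by ring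
  calc ∑ N ∈ Ico (2 * X) (4 * X), Fm P C (N + v) ≤
      ∑ N ∈ Ico (2 * X) (4 * X), 2 * Fm S C (N + v) := sum_le_sum hF
    _ = 2 * ∑ N ∈ Ico (2 * X) (4 * X), Fm S C (N + v) := by rw [mul_sum]
    _ ≤ 2 * (3 * Real.exp C * X) := mul_le_mul_of_nonneg_left hsum (by norm_num)
    _ = _ := by ring

/-- the average of the square of the singular factor -/
theorem avg (L A0 : ℕ) : ∃ C : ℝ, 0 < C ∧ ∃ X₀ : ℕ, ∀ X : ℕ, X₀ ≤ X → ∀ U : Finset ℕ,
    U.card = L → U.Nonempty → (∀ u ∈ U, u ≤ A0) → ∀ P : Finset ℕ, (∀ p ∈ P, p.Prime) →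
    ∑ N ∈ Ico (2 * X) (4 * X), hh P U N ^ 2 ≤ C * X := by
  classical
  obtain ⟨X1, h1⟩ := avgF (3 ^ (2 * (L * L))) (by positivity) (A0 + A0)
  refine ⟨(L * L : ℕ) * (6 * Real.exp (3 ^ (2 * (L * L)))) + 1, by positivity, X1, ?_⟩
  intro X hX U hUc hU hUA P hP
  calc ∑ N ∈ Ico (2 * X) (4 * X), hh P U N ^ 2 ≤
      ∑ N ∈ Ico (2 * X) (4 * X), ∑ x ∈ U ×ˢ U, Fm P (3 ^ (2 * (U.card * U.card))) (N + x.1 + x.2) :=
        sum_le_sum fun N _ => hh_sq P U N hU hP
    _ = ∑ x ∈ U ×ˢ U, ∑ N ∈ Ico (2 * X) (4 * X),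
          Fm P (3 ^ (2 * (L * L))) (N + (x.1 + x.2)) := by
        rw [sum_comm, hUc]
        apply sum_congr rfl
        intro x _
        apply sum_congr rfl
        intro N _
        rw [add_assoc]
    _ ≤ ∑ _x ∈ U ×ˢ U, 6 * Real.exp (3 ^ (2 * (L * L))) * X := by
        apply sum_le_sum
        intro x hx
        rw [mem_product] at hx
        exact h1 X hX (x.1 + x.2) (add_le_add (hUA _ hx.1) (hUA _ hx.2)) P hP
    _ = (L * L : ℕ) * (6 * Real.exp (3 ^ (2 * (L * L)))) * X := by
        rw [sum_const, card_product, hUc, nsmul_eq_mul]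
        ring
    _ ≤ _ := by
        have : (0 : ℝ) ≤ X := Nat.cast_nonneg X
        linarith

end Pool.Agent.TH882.DD
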