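import Pool.Agent.TH882.D3
import Pool.Agent.TH882.Clu

/-! Sums of two primes that start the same pattern of primes. -/

set_option autoImplicit false

open Finset Filter Topology

namespace Pool.Agent.TH882.DD

open Pool.Agent.H361R2.PP
open Pool.Agent.W70.HR
open Pool.Agent.TH882.UB
open Pool.Agent.TH882.HE
open Pool.Agent.TH882.AG

/-- admissible sets of shifts -/
def Adm (S : Finset ℤ) : Prop := ∀ l : ℕ, l.Prime → ∃ r : ℤ,
  ¬ (l : ℤ) ∣ r ∧ ∀ a ∈ S, ¬ (l : ℤ) ∣ r + a

lemma adm_loc (S : Finset ℤ) (h : Adm S) : ∃ N : ℕ, Loc S N := by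
  classical
  choose! r hr using h
  obtain ⟨N, -, hN⟩ := crt ∅ ((range (S.card + 3)).filter Nat.Prime) (by simp)
    (fun p hp => (mem_filter.1 hp).2) (disjoint_empty_left _) 0 (fun l => ((2 * r l) % l).toNat)
  refine ⟨N, ?_⟩
  intro l hl
  have hl0 : (0 : ℤ) < l := by exact_mod_cast hl.pos
  by_cases hls : l < S.card + 3
  · refine ⟨r l, (hr l hl).1, ?_, (hr l hl).2⟩
    intro hd
    apply (hr l hl).1
    have h1 := hN l (mem_filter.2 ⟨mem_range.2 hls, hl⟩)
    have h2 : (l : ℤ) ∣ (N : ℤ) - 2 * r l := by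
      have h3 : (((2 * r l) % l).toNat : ℤ) = (2 * r l) % l :=
        Int.toNat_of_nonneg (Int.emod_nonneg _ hl0.ne')
      have h4 : (N : ℤ) % l = (2 * r l) % l := by
        have h5 : ((N % l : ℕ) : ℤ) = ((((2 * r l) % l).toNat % l : ℕ) : ℤ) := by rw [h1]
        push_cast at h5
        rw [h5, h3, Int.emod_emod]
      exact Int.ModEq.dvd h4.symm
    have h3 : r l = ((N : ℤ) - r l) - (N - 2 * r l) := by ring
    rw [h3]
    exact hd.sub h2
  · have : Fact l.Prime := ⟨hl⟩
    set bad : Finset (ZMod l) := insert 0 (insert ((N : ℤ) : ZMod l) (S.image (fun a => -((a : ℤ) : ZMod l)))) with hbad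
    have hcard : bad.card < Fintype.card (ZMod l) := by
      rw [ZMod.card]
      have h1 : bad.card ≤ S.card + 2 := by
        rw [hbad]
        refine (card_insert_le _ _).trans ?_
        have h2 := card_insert_le ((N : ℤ) : ZMod l) (S.image (fun a => -((a : ℤ) : ZMod l)))
        have h3 : (S.image (fun a => -((a : ℤ) : ZMod l))).card ≤ S.card := card_image_le
        omega
      omega
    obtain ⟨x, hx⟩ : ∃ x : ZMod l, x ∉ bad := by
      by_contra hcon
      push Not at hcon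
      have : bad = univ := by
        ext y
        simp [hcon y]
      rw [this, card_univ] at hcard
      exact lt_irrefl _ hcard
    have hxv : (((x.val : ℕ) : ℤ) : ZMod l) = x := by
      push_cast
      exact ZMod.natCast_zmod_val x
    rw [hbad, mem_insert, mem_insert, mem_image] at hx
    push Not at hx
    obtain ⟨h1, h2, h3⟩ := hx
    refine ⟨(x.val : ℤ), ?_, ?_, ?_⟩
    · intro hd
      rw [← ZMod.intCast_zmod_eq_zero_iff_dvd, hxv] at hd
      exact h1 hd
    · intro hd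
      rw [← ZMod.intCast_zmod_eq_zero_iff_dvd, Int.cast_sub, hxv] at hd
      exact h2 (sub_eq_zero.1 hd).symm
    · intro a ha hd
      rw [← ZMod.intCast_zmod_eq_zero_iff_dvd, Int.cast_add, hxv] at hd
      apply h3 a ha
      linear_combination -hd

lemma base_class (S : Finset ℤ) (T K w0 : ℕ) (h : Adm S) :
    ∃ b0 : ℕ, ∀ u ∈ Up S T K, (b0 + u).Coprime (primorial w0) := by
  obtain ⟨N, hN⟩ := adm_loc S h
  obtain ⟨X, hX⟩ := eventually_atTop.1 (HH_tendsto.eventually_ge_atTop w0)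
  obtain ⟨b, -, hb, -⟩ := exists_class S T K N X hN
  refine ⟨b, fun u hu => ?_⟩
  have h1 : primorial w0 ∣ Wm X := by
    unfold Wm
    exact primorial_dvd_primorial (hX X le_rfl)
  exact (hb u hu).coprime_dvd_right h1

open Classical in
/-- the integers with a prescribed pattern of primes -/
noncomputable def AQ (δ : ℝ) (X : ℕ) {T K : ℕ} (H : Fin T → Fin K → ℕ) (U Q : Finset ℕ) : Finset ℕ :=
  (Ico X (2 * X)).filter (fun n => n % Wm X ∈ BC X U ∧ n ∈ HS δ X (n % Wm X) H U ∧
    ∀ h ∈ Q, (n + h).Prime)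

/-- the integers of `AQ` are rough -/
lemma AQ_Ro {δ : ℝ} {X : ℕ} {T K : ℕ} {H : Fin T → Fin K → ℕ} {U Q : Finset ℕ} {n : ℕ}
    (hn : n ∈ AQ δ X H U Q) : Ro δ X U n := by
  unfold AQ at hn
  rw [mem_filter] at hn
  obtain ⟨-, hb, hH, -⟩ := hn
  unfold HS at hH
  rw [mem_filter] at hH
  unfold BC at hb
  rw [mem_filter] at hb
  intro u hu p hp hlt hd
  by_cases hpH : HH X < p
  · have h1 := rg_one.1 (hH.2.1 u hu) p
    exact h1 (mem_P1.2 ⟨hlt, hp, hpH⟩) hd
  · have h2 : p ∣ Wm X := by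
      unfold Wm
      exact hp.dvd_primorial_iff.2 (by omega)
    have h3 : n % Wm X ≡ n [MOD p] := (Nat.mod_modEq _ _).of_dvd h2
    have h4 : p ∣ n % Wm X + u := ((h3.add_right u).dvd_iff dvd_rfl).2 hd
    have h5 := Nat.dvd_gcd h4 h2
    have h6 := hb.2 u hu
    rw [Nat.coprime_iff_gcd_eq_one] at h6
    rw [h6] at h5
    exact hp.one_lt.ne' (Nat.dvd_one.1 h5)

/-- the patterns of `m + 1` positions -/
noncomputable def Pat (S : Finset ℤ) (m K : ℕ) : Finset (Finset ℕ) :=
  (((univ : Finset (Fin (4 * (m + 1)) × Fin K)).image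
    (fun x => Hp S (4 * (m + 1)) K x.1 x.2)).powerset).filter (fun Q => Q.card = m + 1)

lemma Pat_card (S : Finset ℤ) (m K : ℕ) : (Pat S m K).card ≤ 2 ^ (4 * (m + 1) * K) := by
  unfold Pat
  refine (card_filter_le _ _).trans ?_
  rw [card_powerset]
  apply Nat.pow_le_pow_right (by norm_num)
  refine card_image_le.trans ?_
  simp

lemma Pat_cover (S : Finset ℤ) (m K : ℕ) (δ : ℝ) (X b : ℕ) (U : Finset ℕ) (n : ℕ)
    (hn : n ∈ HS δ X b (Hp S (4 * (m + 1)) K) U) :
    ∃ Q ∈ Pat S m K, ∀ h ∈ Q, (n + h).Prime := by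
  classical
  unfold HS at hn
  rw [mem_filter] at hn
  obtain ⟨hnS, hru, hT⟩ := hn
  set G := (univ : Finset (Fin (4 * (m + 1)))).filter
    (fun g => ∃ i, (n + Hp S (4 * (m + 1)) K g i).Prime) with hG
  have hG2 : m + 1 ≤ G.card := by
    have : 4 * (m + 1) ≤ 4 * G.card := by
      convert hT
    omega
  have hex : ∀ g : Fin (4 * (m + 1)), g ∈ G → ∃ i : Fin K, (n + Hp S (4 * (m + 1)) K g i).Prime := by
    intro g hg
    rw [hG, mem_filter] at hg
    exact hg.2
  have hGe : G.Nonempty := by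
    rw [← card_pos]
    omega
  have hne : Nonempty (Fin K) := by
    obtain ⟨g, hg⟩ := hGe
    obtain ⟨i, -⟩ := hex g hg
    exact ⟨i⟩
  choose! j hj using hex
  have hQc : (G.image (fun g => Hp S (4 * (m + 1)) K g (j g))).card = G.card := by
    apply card_image_of_injOn
    intro g _ g' _ h
    have e2 := @Hp_inj S (4 * (m + 1)) K (g, j g) (g', j g') h
    exact (Prod.ext_iff.1 e2).1
  obtain ⟨Q, hQ1, hQ2⟩ := exists_subset_card_eq (hQc.symm ▸ hG2 :
    m + 1 ≤ (G.image (fun g => Hp S (4 * (m + 1)) K g (j g))).card)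
  refine ⟨Q, ?_, ?_⟩
  · unfold Pat
    rw [mem_filter, mem_powerset]
    refine ⟨?_, hQ2⟩
    intro h hh
    have h1 := hQ1 hh
    rw [mem_image] at h1
    obtain ⟨g, -, rfl⟩ := h1
    rw [mem_image]
    exact ⟨(g, j g), mem_univ _, rfl⟩
  · intro h hh
    have h1 := hQ1 hh
    rw [mem_image] at h1
    obtain ⟨g, hg, rfl⟩ := h1
    exact hj g hg

/-- a popular pattern -/
theorem popular (S : Finset ℤ) (hS : Adm S) (m : ℕ) : ∃ K : ℕ, 1 ≤ K ∧ ∃ δ : ℝ, 0 < δ ∧ δ ≤ 1 ∧
    ∃ c : ℝ, 0 < c ∧ ∃ X₀ : ℕ, ∀ X : ℕ, X₀ ≤ X → ∃ Q ∈ Pat S m K,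
    c * (X * FF δ X ^ (Up S (4 * (m + 1)) K).card) ≤
      ((AQ δ X (Hp S (4 * (m + 1)) K) (Up S (4 * (m + 1)) K) Q).card : ℝ) := by
  classical
  set T : ℕ := 4 * (m + 1) with hTd
  have hT1 : 1 ≤ T := by omega
  obtain ⟨K, hK, hmte⟩ := mte T hT1
  obtain ⟨δ, c, hδ, hδ8, hc, X1, h1⟩ := hmte 1 (T * K * S.card) one_pos
  have hδ1 : δ ≤ 1 := by linarith
  set U := Up S T K with hU
  set L : ℕ := U.card with hL
  set A0 : ℕ := U.sup id with hA0
  have hUA : ∀ u ∈ U, u ≤ A0 := fun u hu => Finset.le_sup (f := id) hu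
  obtain ⟨w0, c1, hc1, X2, h2⟩ := B_lower L A0
  obtain ⟨b0, hb0⟩ := base_class S T K w0 hS
  have hlogt : Tendsto (fun X : ℕ => Real.log (X : ℝ)) atTop atTop :=
    Real.tendsto_log_atTop.comp tendsto_natCast_atTop_atTop
  obtain ⟨X3, h3⟩ := eventually_atTop.1 (hlogt.eventually_ge_atTop ((A0 : ℝ) + 1))
  set M : ℝ := 2 ^ (T * K) with hM
  have hM0 : 0 < M := by rw [hM]; positivity
  refine ⟨K, hK, δ, hδ, hδ1, c1 * c / M, by positivity, max (max X1 X2) (max X3 1), ?_⟩
  intro X hX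
  have hX1 : X1 ≤ X := by omega
  have hX2 : X2 ≤ X := by omega
  have hX3 : X3 ≤ X := by omega
  have hl := h3 X hX3
  have hB := h2 X hX2 U rfl hUA b0 hb0
  have hW0 : (0 : ℝ) < Wm X := by exact_mod_cast Wm_pos X
  have hHS : ∀ b ∈ BC X U, c * Om δ X L ≤ ((HS δ X b (Hp S T K) U).card : ℝ) := by
    intro b hb
    unfold BC at hb
    rw [mem_filter, mem_range] at hb
    have hUB : U ⊆ Bw 1 X b := by
      intro u hu
      unfold Bw BB
      rw [mem_filter, mem_Icc]
      refine ⟨⟨Up_pos S T K u hu, ?_⟩, hb.2 u hu⟩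
      apply Nat.le_floor
      have e1 : (u : ℝ) ≤ A0 := by exact_mod_cast hUA u hu
      rw [one_mul]
      linarith
    exact (h1 X hX1 b hb.1).2 (Hp S T K) U (fun g i => Hp_mem S T K g i) (Hp_inj S T K) hUB
      (Up_card S T K)
  have hV0 : 0 < VV δ X := (h1 X hX1 0 (Wm_pos X)).1
  by_contra hcon
  push Not at hcon
  have hsum : ∑ b ∈ BC X U, ((HS δ X b (Hp S T K) U).card : ℝ) ≤
      ∑ Q ∈ Pat S m K, ((AQ δ X (Hp S T K) U Q).card : ℝ) := by
    have e1 : (BC X U).biUnion (fun b => HS δ X b (Hp S T K) U) ⊆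
        (Pat S m K).biUnion (fun Q => AQ δ X (Hp S T K) U Q) := by
      intro n hn
      rw [mem_biUnion] at hn
      obtain ⟨b, hb, hn⟩ := hn
      obtain ⟨Q, hQ, hQp⟩ := Pat_cover S m K δ X b U n hn
      rw [mem_biUnion]
      refine ⟨Q, hQ, ?_⟩
      have hn2 := hn
      unfold HS at hn2
      rw [mem_filter] at hn2
      have hn3 := hn2.1
      unfold SI at hn3
      rw [mem_filter] at hn3
      unfold AQ
      rw [mem_filter, hn3.2]
      exact ⟨hn3.1, hb, hn, hQp⟩
    have e2 := (card_le_card e1).trans card_biUnion_le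
    rw [card_biUnion] at e2
    · exact_mod_cast e2
    · intro b _ b' _ hne
      rw [Function.onFun, disjoint_left]
      intro n hn hn'
      unfold HS at hn hn'
      rw [mem_filter] at hn hn'
      have e3 := hn.1
      have e4 := hn'.1
      unfold SI at e3 e4
      rw [mem_filter] at e3 e4
      exact hne (e3.2.symm.trans e4.2)
  have hlow : ((BC X U).card : ℝ) * (c * Om δ X L) ≤
      ∑ b ∈ BC X U, ((HS δ X b (Hp S T K) U).card : ℝ) := by
    rw [← nsmul_eq_mul]
    exact card_nsmul_le_sum _ _ _ hHS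
  have hOm0 : 0 ≤ c * Om δ X L := by
    unfold Om
    positivity
  have hlow2 : c1 * c * (X * FF δ X ^ L) ≤ ((BC X U).card : ℝ) * (c * Om δ X L) := by
    refine le_trans (le_of_eq ?_) (mul_le_mul_of_nonneg_right hB hOm0)
    unfold FF Om
    rw [mul_pow]
    field_simp
  have hPne : (Pat S m K).Nonempty := by
    by_contra hne
    rw [not_nonempty_iff_eq_empty] at hne
    rw [hne, sum_empty] at hsum
    have hφ : 0 < (Nat.totient (Wm X) : ℝ) / Wm X := by
      have hb : (0 : ℝ) < Nat.totient (Wm X) := by exact_mod_cast Nat.totient_pos.2 (Wm_pos X)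
      positivity
    have hX0 : (0 : ℝ) < X := by
      have : 0 < X := by omega
      exact_mod_cast this
    have : 0 < c1 * c * (X * FF δ X ^ L) := by
      unfold FF
      positivity
    linarith
  have hup : ∑ Q ∈ Pat S m K, ((AQ δ X (Hp S T K) U Q).card : ℝ) < c1 * c * (X * FF δ X ^ L) := by
    calc ∑ Q ∈ Pat S m K, ((AQ δ X (Hp S T K) U Q).card : ℝ) <
        ∑ _Q ∈ Pat S m K, c1 * c / M * (X * FF δ X ^ L) :=
          sum_lt_sum_of_nonempty hPne (fun Q hQ => hcon Q hQ)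
      _ = ((Pat S m K).card : ℝ) * (c1 * c / M * (X * FF δ X ^ L)) := by
          rw [sum_const, nsmul_eq_mul]
      _ ≤ M * (c1 * c / M * (X * FF δ X ^ L)) := by
          apply mul_le_mul_of_nonneg_right
          · have := Pat_card S m K
            rw [hM]
            exact_mod_cast this
          · have : 0 ≤ FF δ X := by
              unfold FF
              positivity
            positivity
      _ = _ := by field_simp
  linarith

end Pool.Agent.TH882.DD
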