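import Pool.Agent.TH882.D4

/-! A positive proportion of the integers are sums of two primes starting the same pattern. -/

set_option autoImplicit false

open Finset Filter Topology

namespace Pool.Agent.TH882.DD

open Pool.Agent.H361R2.PP
open Pool.Agent.W70.HR
open Pool.Agent.TH882.UB
open Pool.Agent.TH882.HE
open Pool.Agent.TH882.AG

/-- the representations of `N` -/
noncomputable def PS (A : Finset ℕ) (N : ℕ) : Finset ℕ := A.filter (fun n => n ≤ N ∧ N - n ∈ A)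

lemma sum_PS (X : ℕ) (A : Finset ℕ) (hA : A ⊆ Ico X (2 * X)) :
    (A.card : ℝ) ^ 2 ≤ ∑ N ∈ Ico (2 * X) (4 * X), ((PS A N).card : ℝ) := by
  classical
  have h1 : (A ×ˢ A).card = ∑ N ∈ Ico (2 * X) (4 * X),
      ((A ×ˢ A).filter (fun x => x.1 + x.2 = N)).card := by
    apply card_eq_sum_card_fiberwise
    intro x hx
    rw [mem_coe, mem_product] at hx
    have h2 := hA hx.1
    have h3 := hA hx.2
    rw [mem_Ico] at h2 h3
    rw [mem_coe, mem_Ico]
    show 2 * X ≤ x.1 + x.2 ∧ x.1 + x.2 < 4 * X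
    omega
  have h2 : ∀ N ∈ Ico (2 * X) (4 * X), ((A ×ˢ A).filter (fun x => x.1 + x.2 = N)).card ≤
      (PS A N).card := by
    intro N _
    apply card_le_card_of_injOn (fun x => x.1)
    · intro x hx
      rw [mem_coe, mem_filter, mem_product] at hx
      unfold PS
      rw [mem_coe, mem_filter]
      show x.1 ∈ A ∧ x.1 ≤ N ∧ N - x.1 ∈ A
      refine ⟨hx.1.1, by omega, ?_⟩
      have : N - x.1 = x.2 := by omega
      rw [this]
      exact hx.1.2
    · intro x hx y hy he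
      rw [mem_coe, mem_filter, mem_product] at hx hy
      simp only at he
      exact Prod.ext he (by omega)
  rw [card_product] at h1
  have h3 : A.card * A.card ≤ ∑ N ∈ Ico (2 * X) (4 * X), (PS A N).card := by
    rw [h1]
    exact sum_le_sum h2
  rw [sq]
  exact_mod_cast h3

/-- Paley-Zygmund -/
lemma pz (X : ℕ) (hX : 1 ≤ X) (A : Finset ℕ) (hA : A ⊆ Ico X (2 * X)) (E : ℝ) (hE : 0 ≤ E)
    (h : ∑ N ∈ Ico (2 * X) (4 * X), ((PS A N).card : ℝ) ^ 2 ≤ E) :
    (A.card : ℝ) ^ 4 / 4 ≤ E * (((Ico (2 * X) (4 * X)).filter (fun N =>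
      (A.card : ℝ) ^ 2 / (4 * X) ≤ ((PS A N).card : ℝ))).card : ℝ) := by
  classical
  have hX0 : (0 : ℝ) < X := by exact_mod_cast hX
  set a : ℝ := (A.card : ℝ) with ha
  set I := Ico (2 * X) (4 * X) with hI
  have hIc : (I.card : ℝ) = 2 * X := by
    rw [hI, Nat.card_Ico]
    have : 4 * X - 2 * X = 2 * X := by omega
    rw [this]
    push_cast
    ring
  set G := I.filter (fun N => a ^ 2 / (4 * X) ≤ ((PS A N).card : ℝ)) with hG
  have h1 := sum_PS X A hA
  rw [← ha, ← hI, ← sum_filter_add_sum_filter_not I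
    (fun N => a ^ 2 / (4 * X) ≤ ((PS A N).card : ℝ)), ← hG] at h1
  have h2 : ∑ N ∈ I.filter (fun N => ¬ a ^ 2 / (4 * X) ≤ ((PS A N).card : ℝ)), ((PS A N).card : ℝ) ≤
      a ^ 2 / 2 := by
    calc ∑ N ∈ I.filter (fun N => ¬ a ^ 2 / (4 * X) ≤ ((PS A N).card : ℝ)), ((PS A N).card : ℝ) ≤
        ∑ _N ∈ I.filter (fun N => ¬ a ^ 2 / (4 * X) ≤ ((PS A N).card : ℝ)), a ^ 2 / (4 * X) := by
          apply sum_le_sum
          intro N hN
          exact (not_le.1 (mem_filter.1 hN).2).le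
      _ ≤ ∑ _N ∈ I, a ^ 2 / (4 * X) := by
          apply sum_le_sum_of_subset_of_nonneg (filter_subset _ _)
          intro _ _ _
          positivity
      _ = a ^ 2 / 2 := by
          rw [sum_const, nsmul_eq_mul, hIc]
          field_simp
          ring
  have h3 : a ^ 2 / 2 ≤ ∑ N ∈ G, ((PS A N).card : ℝ) := by linarith
  have h4 := sq_sum_le_card_mul_sum_sq (s := G) (f := fun N => ((PS A N).card : ℝ))
  have h5 : ∑ N ∈ G, ((PS A N).card : ℝ) ^ 2 ≤ E := by
    refine le_trans ?_ h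
    apply sum_le_sum_of_subset_of_nonneg (filter_subset _ _)
    intro _ _ _
    positivity
  calc a ^ 4 / 4 = (a ^ 2 / 2) ^ 2 := by ring
    _ ≤ (∑ N ∈ G, ((PS A N).card : ℝ)) ^ 2 := pow_le_pow_left₀ (by positivity) h3 2
    _ ≤ (G.card : ℝ) * ∑ N ∈ G, ((PS A N).card : ℝ) ^ 2 := h4
    _ ≤ (G.card : ℝ) * E := mul_le_mul_of_nonneg_left h5 (by positivity)
    _ = _ := mul_comm _ _

/-- the core -/
theorem core (S : Finset ℤ) (hS : Adm S) (m : ℕ) : ∃ K : ℕ, 1 ≤ K ∧ ∃ δ : ℝ, 0 < δ ∧ δ ≤ 1 ∧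
    ∃ c : ℝ, 0 < c ∧ ∃ X₀ : ℕ, ∀ X : ℕ, X₀ ≤ X → ∃ Q ∈ Pat S m K,
    c * X ≤ (((Ico (2 * X) (4 * X)).filter (fun N =>
      (X : ℝ) / Real.log X ^ (2 * (Up S (4 * (m + 1)) K).card + 1) ≤
      ((PS (AQ δ X (Hp S (4 * (m + 1)) K) (Up S (4 * (m + 1)) K) Q) N).card : ℝ))).card : ℝ) := by
  classical
  obtain ⟨K, hK, δ, hδ, hδ1, c, hc, X1, h1⟩ := popular S hS m
  set T : ℕ := 4 * (m + 1) with hTd
  set U := Up S T K with hU
  set L : ℕ := U.card with hL
  set A0 : ℕ := U.sup id with hA0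
  have hUA : ∀ u ∈ U, u ≤ A0 := fun u hu => Finset.le_sup (f := id) hu
  have hUne : U.Nonempty := by
    have hT0 : 0 < T := by omega
    exact ⟨_, Hp_mem S T K ⟨0, hT0⟩ ⟨0, hK⟩⟩
  obtain ⟨w0, δ', hδ', hδ1', C, hC, X2, h2⟩ := R_upper L A0 δ hδ hδ1
  obtain ⟨C3, hC3, X3, h3⟩ := avg L A0
  have hlogt : Tendsto (fun X : ℕ => Real.log (X : ℝ)) atTop atTop :=
    Real.tendsto_log_atTop.comp tendsto_natCast_atTop_atTop
  obtain ⟨X4, h4⟩ := eventually_atTop.1 (hlogt.eventually_ge_atTop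
    (max 1 (4 * C ^ (2 * L) / c ^ 2)))
  refine ⟨K, hK, δ, hδ, hδ1, c ^ 4 / (4 * (C ^ 2 * C3)), by positivity,
    max (max X1 X2) (max X3 (max X4 1)), ?_⟩
  intro X hX
  have hX1 : X1 ≤ X := by omega
  have hX2 : X2 ≤ X := by omega
  have hX3 : X3 ≤ X := by omega
  have hX4 : X4 ≤ X := by omega
  have hX1' : 1 ≤ X := by omega
  have hX0 : (0 : ℝ) < X := by exact_mod_cast hX1'
  have hl := h4 X hX4
  have hl1 : 1 ≤ Real.log X := (le_max_left _ _).trans hl
  have hl2 : 4 * C ^ (2 * L) / c ^ 2 ≤ Real.log X := (le_max_right _ _).trans hl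
  obtain ⟨Q, hQ, hQc⟩ := h1 X hX1
  obtain ⟨hF0, hFl, hR⟩ := h2 X hX2
  set F := FF δ X with hF
  refine ⟨Q, hQ, ?_⟩
  set A := AQ δ X (Hp S T K) U Q with hA
  have hAI : A ⊆ Ico X (2 * X) := by
    rw [hA]
    unfold AQ
    exact filter_subset _ _
  set P := P1 w0 (JJ δ' X) with hP
  have hPp : ∀ p ∈ P, p.Prime := fun p hp => (mem_P1.1 hp).2.1
  have hPS : ∀ N ∈ Ico (2 * X) (4 * X), ((PS A N).card : ℝ) ≤ C * (X * F ^ (2 * L) * hh P U N) := by
    intro N hN
    rw [mem_Ico] at hN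
    apply hR U rfl hUA N hN.1 (PS A N) ((filter_subset _ _).trans hAI)
    intro n hn
    unfold PS at hn
    rw [mem_filter] at hn
    exact ⟨AQ_Ro hn.1, AQ_Ro hn.2.2⟩
  have hE : ∑ N ∈ Ico (2 * X) (4 * X), ((PS A N).card : ℝ) ^ 2 ≤
      C ^ 2 * C3 * (X ^ 3 * F ^ (4 * L)) := by
    calc ∑ N ∈ Ico (2 * X) (4 * X), ((PS A N).card : ℝ) ^ 2 ≤
        ∑ N ∈ Ico (2 * X) (4 * X), (C * (X * F ^ (2 * L))) ^ 2 * hh P U N ^ 2 := by
          apply sum_le_sum
          intro N hN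
          calc ((PS A N).card : ℝ) ^ 2 ≤ (C * (X * F ^ (2 * L) * hh P U N)) ^ 2 :=
                pow_le_pow_left₀ (by positivity) (hPS N hN) 2
            _ = _ := by ring
      _ = (C * (X * F ^ (2 * L))) ^ 2 * ∑ N ∈ Ico (2 * X) (4 * X), hh P U N ^ 2 := by
          rw [mul_sum]
      _ ≤ (C * (X * F ^ (2 * L))) ^ 2 * (C3 * X) :=
          mul_le_mul_of_nonneg_left (h3 X hX3 U rfl hUne hUA P hPp) (by positivity)
      _ = C ^ 2 * C3 * (X ^ 3 * (F ^ (2 * L)) ^ 2) := by ring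
      _ = _ := by
          rw [← pow_mul]
          congr 3
          ring
  have hpz := pz X hX1' A hAI _ (by positivity) hE
  set a : ℝ := (A.card : ℝ) with ha
  have haL : (c * (X * F ^ L)) ^ 4 ≤ a ^ 4 := pow_le_pow_left₀ (by positivity) hQc 4
  have haL2 : (c * (X * F ^ L)) ^ 2 ≤ a ^ 2 := pow_le_pow_left₀ (by positivity) hQc 2
  set G := (Ico (2 * X) (4 * X)).filter (fun N => a ^ 2 / (4 * X) ≤ ((PS A N).card : ℝ)) with hG
  have hGc : c ^ 4 / (4 * (C ^ 2 * C3)) * X ≤ (G.card : ℝ) := by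
    have h5 : (c * (X * F ^ L)) ^ 4 / 4 ≤ C ^ 2 * C3 * (X ^ 3 * F ^ (4 * L)) * (G.card : ℝ) :=
      (div_le_div_of_nonneg_right haL (by norm_num)).trans hpz
    have h6 : (c * (X * F ^ L)) ^ 4 / 4 =
        (c ^ 4 / (4 * (C ^ 2 * C3)) * X) * (C ^ 2 * C3 * (X ^ 3 * F ^ (4 * L))) := by
      have h7 : F ^ (4 * L) = (F ^ L) ^ 4 := by
        rw [← pow_mul]
        congr 1
        ring
      rw [h7]
      field_simp
    rw [h6, mul_comm (C ^ 2 * C3 * (X ^ 3 * F ^ (4 * L))) (G.card : ℝ)] at h5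
    exact le_of_mul_le_mul_right h5 (by positivity)
  refine hGc.trans ?_
  apply Nat.cast_le.2
  apply card_le_card
  intro N hN
  rw [hG, mem_filter] at hN
  rw [mem_filter]
  refine ⟨hN.1, le_trans ?_ hN.2⟩
  have h5 : (c * (X * F ^ L)) ^ 2 / (4 * X) ≤ a ^ 2 / (4 * X) :=
    div_le_div_of_nonneg_right haL2 (by positivity)
  refine le_trans ?_ h5
  have h6 : (1 / Real.log X) ^ (2 * L) ≤ (C * F) ^ (2 * L) :=
    pow_le_pow_left₀ (by positivity) hFl _
  have h7 : (c * (X * F ^ L)) ^ 2 / (4 * X) = X * (c ^ 2 / (4 * C ^ (2 * L))) * (C * F) ^ (2 * L) := by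
    have h8 : (C * F) ^ (2 * L) = C ^ (2 * L) * (F ^ L) ^ 2 := by
      rw [mul_pow]
      congr 1
      rw [← pow_mul]
      congr 1
      ring
    rw [h8]
    field_simp
  rw [h7]
  have h9 : 1 / Real.log X ≤ c ^ 2 / (4 * C ^ (2 * L)) := by
    rw [div_le_div_iff₀ (by linarith) (by positivity)]
    rw [div_le_iff₀ (by positivity)] at hl2
    linarith
  calc (X : ℝ) / Real.log X ^ (2 * L + 1) = X * (1 / Real.log X) * (1 / Real.log X) ^ (2 * L) := by
        rw [pow_succ, div_pow, one_pow]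
        field_simp
    _ ≤ _ := by
        apply mul_le_mul _ h6 (by positivity) (by positivity)
        exact mul_le_mul_of_nonneg_left h9 hX0.le

open Classical in
/-- the primes `p` such that all `p + h`, `h = 0` or `h ∈ D`, are primes with almost prime shifts -/
noncomputable def GP (S : Finset ℤ) (r : ℕ) (D : Finset ℕ) (p : ℕ) : Prop :=
  ∀ h ∈ insert 0 D, (p + h).Prime ∧ AP S r (p + h)

open Classical in
/-- the representations -/
noncomputable def Rp (S : Finset ℤ) (r : ℕ) (D : Finset ℕ) (N : ℕ) : Finset ℕ :=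
  (range N).filter (fun p => GP S r D p ∧ GP S r D (N - p))

set_option maxHeartbeats 4000000 in
theorem fin (S : Finset ℤ) (hS : Adm S) (m : ℕ) : ∃ r C E : ℕ, ∃ c : ℝ, 0 < c ∧ ∃ x₀ : ℕ,
    ∀ x : ℕ, x₀ ≤ x → ∃ D : Finset ℕ, D ⊆ Icc 1 C ∧ D.card = m ∧
    c * x ≤ (((range x).filter (fun N : ℕ => (N : ℝ) / Real.log N ^ E ≤
      ((Rp S r D N).card : ℝ))).card : ℝ) := by
  classical
  obtain ⟨K, hK, δ, hδ, hδ1, c, hc, X1, h1⟩ := core S hS m
  set T : ℕ := 4 * (m + 1) with hTd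
  set U := Up S T K with hU
  set L : ℕ := U.card with hL
  set A0 : ℕ := U.sup id with hA0
  have hUA : ∀ u ∈ U, u ≤ A0 := fun u hu => Finset.le_sup (f := id) hu
  obtain ⟨X2, h2⟩ := rough_ap δ hδ hδ1
  have hlogt : Tendsto (fun X : ℕ => Real.log (X : ℝ)) atTop atTop :=
    Real.tendsto_log_atTop.comp tendsto_natCast_atTop_atTop
  obtain ⟨X3, h3⟩ := eventually_atTop.1 (hlogt.eventually_ge_atTop (5 : ℝ))
  refine ⟨⌊4 / δ⌋₊, A0, 2 * L + 2, c / 10, by positivity, 10 * (X1 + X2 + X3 + A0 + 1), ?_⟩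
  intro x hx
  set X : ℕ := x / 5 with hXd
  have hX1 : X1 ≤ X := by omega
  have hX2 : X2 ≤ X := by omega
  have hX3 : X3 ≤ X := by omega
  have hXA : 2 * A0 ≤ X := by omega
  have hX1' : 1 ≤ X := by omega
  have hX0 : (0 : ℝ) < X := by exact_mod_cast hX1'
  have h5X : 5 * X ≤ x := by omega
  have hxX : x ≤ 10 * X := by omega
  have hl := h3 X hX3
  obtain ⟨Q, hQ, hQc⟩ := h1 X hX1
  unfold Pat at hQ
  rw [mem_filter, mem_powerset] at hQ
  obtain ⟨hQs, hQcard⟩ := hQ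
  have hQne : Q.Nonempty := by
    rw [← card_pos]
    omega
  have hQH : ∀ h ∈ Q, ∃ g i, h = Hp S T K g i := by
    intro h hh
    have := hQs hh
    rw [mem_image] at this
    obtain ⟨y, -, rfl⟩ := this
    exact ⟨y.1, y.2, rfl⟩
  set h0 : ℕ := Q.min' hQne with hh0
  have hh0Q : h0 ∈ Q := min'_mem Q hQne
  have hh0A : h0 ≤ A0 := by
    obtain ⟨g, i, he⟩ := hQH h0 hh0Q
    rw [he]
    exact hUA _ (Hp_mem S T K g i)
  set D : Finset ℕ := (Q.erase h0).image (fun h => h - h0) with hD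
  have hDlt : ∀ h ∈ Q.erase h0, h0 < h := by
    intro h hh
    have h4 := min'_le Q h (mem_of_mem_erase hh)
    have h5 := ne_of_mem_erase hh
    omega
  refine ⟨D, ?_, ?_, ?_⟩
  · intro d hd
    rw [hD, mem_image] at hd
    obtain ⟨h, hh, rfl⟩ := hd
    rw [mem_Icc]
    have h4 := hDlt h hh
    obtain ⟨g, i, he⟩ := hQH h (mem_of_mem_erase hh)
    have h5 : h ≤ A0 := by
      rw [he]
      exact hUA _ (Hp_mem S T K g i)
    omega
  · rw [hD, card_image_of_injOn, card_erase_of_mem hh0Q, hQcard]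
    · omega
    · intro h hh h' hh' he
      rw [mem_coe] at hh hh'
      have h4 := hDlt h hh
      have h5 := hDlt h' hh'
      simp only at he
      omega
  -- members of the set of patterns
  have hgp : ∀ n ∈ AQ δ X (Hp S T K) U Q, GP S ⌊4 / δ⌋₊ D (n + h0) := by
    intro n hn h hh
    have hn2 := hn
    unfold AQ at hn2
    rw [mem_filter] at hn2
    obtain ⟨-, hb, hH, hQp⟩ := hn2
    have hclu := cluster S m K X (n % Wm X) ⌊4 / δ⌋₊ A0 δ hUA (fun n' hn' u hu hr =>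
      h2 X hX2 (n % Wm X) n' u (Nat.mod_lt _ (Wm_pos X)) hn'
        (by
          unfold BC at hb
          rw [mem_filter] at hb
          exact hb.2 u hu) (by have := hUA u hu; omega) hr) n hH
    have hcase : ∃ q ∈ Q, n + h0 + h = n + q := by
      rw [mem_insert] at hh
      rcases hh with rfl | hh
      · exact ⟨h0, hh0Q, rfl⟩
      · rw [hD, mem_image] at hh
        obtain ⟨q, hq, rfl⟩ := hh
        have := hDlt q hq
        exact ⟨q, mem_of_mem_erase hq, by omega⟩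
    obtain ⟨q, hq, he⟩ := hcase
    rw [he]
    obtain ⟨g, i, hgi⟩ := hQH q hq
    refine ⟨hQp q hq, ?_⟩
    rw [hgi]
    exact hclu.1 g i
  have hxr : (x : ℝ) ≤ 10 * X := by exact_mod_cast hxX
  refine le_trans (by nlinarith : c / 10 * (x : ℝ) ≤ c * X) (hQc.trans ?_)
  apply Nat.cast_le.2
  apply card_le_card_of_injOn (fun N => N + 2 * h0)
  · intro N hN
    rw [mem_coe, mem_filter, mem_Ico] at hN
    obtain ⟨⟨hN1, hN2⟩, hN3⟩ := hN
    rw [mem_coe, mem_filter, mem_range]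
    refine ⟨by show N + 2 * h0 < x; omega, ?_⟩
    have hcard : ((PS (AQ δ X (Hp S T K) U Q) N).card : ℝ) ≤
        ((Rp S ⌊4 / δ⌋₊ D (N + 2 * h0)).card : ℝ) := by
      apply Nat.cast_le.2
      apply card_le_card_of_injOn (fun n => n + h0)
      · intro n hn
        rw [mem_coe] at hn
        unfold PS at hn
        rw [mem_filter] at hn
        obtain ⟨hn1, hn2, hn3⟩ := hn
        have hn4 : N - n ∈ Ico X (2 * X) := by
          unfold AQ at hn3
          exact (mem_filter.1 hn3).1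
        rw [mem_Ico] at hn4
        unfold Rp
        rw [mem_coe, mem_filter, mem_range]
        refine ⟨by show n + h0 < N + 2 * h0; omega, hgp n hn1, ?_⟩
        show GP S ⌊4 / δ⌋₊ D (N + 2 * h0 - (n + h0))
        have he : N + 2 * h0 - (n + h0) = (N - n) + h0 := by omega
        rw [he]
        exact hgp _ hn3
      · intro n _ n' _ he
        simp only at he
        omega
    refine le_trans ?_ (hN3.trans hcard)
    have hNX : X ≤ N + 2 * h0 := by omega
    have hN5 : N + 2 * h0 ≤ 5 * X := by omega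
    have hNXr : (X : ℝ) ≤ ((N + 2 * h0 : ℕ) : ℝ) := by exact_mod_cast hNX
    have hN5r : ((N + 2 * h0 : ℕ) : ℝ) ≤ 5 * X := by exact_mod_cast hN5
    have hlog : Real.log X ≤ Real.log ((N + 2 * h0 : ℕ) : ℝ) := Real.log_le_log hX0 hNXr
    calc ((N + 2 * h0 : ℕ) : ℝ) / Real.log ((N + 2 * h0 : ℕ) : ℝ) ^ (2 * L + 2) ≤
        (5 * X) / Real.log X ^ (2 * L + 2) := by
          apply div_le_div₀ (by positivity) hN5r (by positivity)
          exact pow_le_pow_left₀ (by linarith) hlog _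
      _ ≤ (Real.log X * X) / Real.log X ^ (2 * L + 2) := by
          apply div_le_div_of_nonneg_right _ (by positivity)
          exact mul_le_mul_of_nonneg_right hl hX0.le
      _ = (X : ℝ) / Real.log X ^ (2 * L + 1) := by
          rw [show 2 * L + 2 = (2 * L + 1) + 1 by ring, pow_succ (Real.log X) (2 * L + 1)]
          field_simp
  · intro N _ N' _ he
    simp only at he
    omega

end Pool.Agent.TH882.DD
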