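import Pool.Agent.W45.UNFLA
import Pool.Agent.H20R2.EN.FLem

/-! The fundamental lemma for sets that are equidistributed up to a bounded error. -/

set_option autoImplicit false

open Finset

namespace Pool.Agent.TH882.FL

theorem fla : Pool.Agent.W25.UN.FLA := Pool.Agent.W45.UNFLA.main Pool.Agent.H20R2.fLem

/-- the number of sets of primes with bounded product -/
lemma card_le (P : Finset ℕ) (hP : ∀ p ∈ P, p.Prime) (Y : ℕ) :
    (P.powerset.filter (fun T : Finset ℕ => ∏ p ∈ T, p ≤ Y)).card ≤ Y := by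
  have h1 : (P.powerset.filter (fun T : Finset ℕ => ∏ p ∈ T, p ≤ Y)).card ≤ (Icc 1 Y).card := by
    apply card_le_card_of_injOn (fun T => ∏ p ∈ T, p)
    · intro T hT
      rw [mem_coe, mem_filter, mem_powerset] at hT
      rw [mem_coe, mem_Icc]
      exact ⟨Nat.one_le_iff_ne_zero.2 (prod_ne_zero_iff.2 fun p hp => (hP p (hT.1 hp)).ne_zero), hT.2⟩
    · intro T hT T' hT' he
      rw [mem_coe, mem_filter, mem_powerset] at hT hT'
      have h2 := Nat.primeFactors_prod (fun p hp => hP p (hT.1 hp))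
      have h3 := Nat.primeFactors_prod (fun p hp => hP p (hT'.1 hp))
      rw [← h2, ← h3]
      exact congrArg Nat.primeFactors he
  rwa [Nat.card_Icc, Nat.add_sub_cancel] at h1

theorem fl1 (κ : ℕ) : ∃ C0 : ℕ, 1 ≤ C0 ∧ ∀ (b J z0 : ℕ) (P : Finset ℕ) (Om : ℕ → Finset ℕ),
    C0 ≤ b → C0 ≤ z0 → (∀ p ∈ P, p.Prime ∧ z0 < p ∧ p ≤ 2 ^ 2 ^ J) →
    (∀ p ∈ P, (Om p).card ≤ κ) → ∀ (S : Finset ℕ) (A : ℝ), 0 ≤ A →
    (∀ T ⊆ P, ∀ c : ℕ → ℕ, (∀ p ∈ T, c p ∈ Om p) →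
      |((S.filter (fun n => ∀ p ∈ T, n % p = c p)).card : ℝ) - A / ∏ p ∈ T, (p : ℝ)| ≤ 1) →
    |((S.filter (fun n => ∀ p ∈ P, n % p ∉ Om p)).card : ℝ) -
        A * ∏ p ∈ P, (1 - ((Om p).card : ℝ) / p)| ≤
      (1 / 2 : ℝ) ^ b * (A * ∏ p ∈ P, (1 - ((Om p).card : ℝ) / p)) +
        ((J : ℝ) + 2) * (((2 ^ 2 ^ J : ℕ) : ℝ) ^ (C0 * b)) ^ 2 := by
  obtain ⟨C0, hC0, h⟩ := fla κ
  refine ⟨max C0 κ, le_max_of_le_left hC0, ?_⟩
  intro b J z0 P Om hb hz hP hOm S A hA hS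
  have hpp : ∀ p ∈ P, p.Prime := fun p hp => (hP p hp).1
  have h1 := h b J z0 P (fun p => 1 / (p : ℝ)) Om ((le_max_left _ _).trans hb)
    ((le_max_left _ _).trans hz) hP hOm (by
      intro p hp
      have hp2 : (2 : ℝ) ≤ p := by exact_mod_cast (hpp p hp).two_le
      refine ⟨by positivity, ?_⟩
      apply one_div_le_one_div_of_le (by linarith)
      linarith) S (fun _ => 1) A (fun _ => 1) (fun _ _ => zero_le_one) hA (fun _ => zero_le_one)
    (by
      intro T hT _ c hc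
      have := hS T hT c hc
      rw [sum_const, nsmul_eq_mul, mul_one]
      convert this using 3
      rw [div_eq_mul_inv, ← prod_inv_distrib]
      simp only [one_div])
  have e1 : ∏ p ∈ P, (1 - ((Om p).card : ℝ) * (1 / (p : ℝ))) = ∏ p ∈ P, (1 - ((Om p).card : ℝ) / p) := by
    apply prod_congr rfl
    intro p _
    rw [mul_one_div]
  rw [e1] at h1
  rw [sum_const, nsmul_eq_mul, mul_one] at h1
  refine h1.trans ?_
  apply add_le_add le_rfl
  apply mul_le_mul_of_nonneg_left _ (by positivity)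
  set Y : ℕ := (2 ^ 2 ^ J) ^ (C0 * b) with hY
  have hterm : ∀ T ∈ P.powerset.filter (fun T : Finset ℕ => ∏ p ∈ T, p ≤ Y),
      ((κ : ℝ) ^ T.card * 1) ≤ (Y : ℝ) := by
    intro T hT
    rw [mem_filter, mem_powerset] at hT
    rw [mul_one]
    have h2 : κ ^ T.card ≤ ∏ p ∈ T, p := by
      rw [← prod_const]
      apply prod_le_prod' 
      intro p hp
      have := (hP p (hT.1 hp)).2.1
      have h3 : κ ≤ z0 := (le_max_right _ _).trans hz
      omega
    exact_mod_cast h2.trans hT.2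
  have hYY : (Y : ℝ) ≤ ((2 ^ 2 ^ J : ℕ) : ℝ) ^ (max C0 κ * b) := by
    rw [hY]
    push_cast
    apply pow_le_pow_right₀
    · exact one_le_pow₀ (by norm_num)
    · exact Nat.mul_le_mul_right _ (le_max_left _ _)
  calc ∑ T ∈ P.powerset.filter (fun T : Finset ℕ => ∏ p ∈ T, p ≤ Y), (κ : ℝ) ^ T.card * 1 ≤
      ∑ _T ∈ P.powerset.filter (fun T : Finset ℕ => ∏ p ∈ T, p ≤ Y), (Y : ℝ) := sum_le_sum hterm
    _ = ((P.powerset.filter (fun T : Finset ℕ => ∏ p ∈ T, p ≤ Y)).card : ℝ) * Y := by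
        rw [sum_const, nsmul_eq_mul]
    _ ≤ (Y : ℝ) * Y := by
        apply mul_le_mul_of_nonneg_right _ (by positivity)
        exact_mod_cast card_le P hpp Y
    _ = (Y : ℝ) ^ 2 := by ring
    _ ≤ _ := pow_le_pow_left₀ (by positivity) hYY 2

end Pool.Agent.TH882.FL
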