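import Pool.Agent.TH882.Core

/-! Almost all integers subject to the local conditions are sums of two primes, one of them in a
cluster. -/

set_option autoImplicit false

open Finset Filter Topology

namespace Pool.Agent.TH882.AG

open Pool.Agent.H361R2.PP
open Pool.Agent.W70.HR
open Pool.Agent.TH882.UB
open Pool.Agent.TH882.PC

theorem core (S : Finset ℤ) (m : ℕ) : ∃ r C D : ℕ, ∀ κ : ℕ, ∀ η : ℝ, 0 < η →
    ∃ X₀ : ℕ, ∀ X : ℕ, X₀ ≤ X → ∀ Z : ℕ, 6 * X ≤ Z → Z ≤ κ * X →
    ∃ Bd : Finset ℕ, (Bd.card : ℝ) ≤ η * Z ∧ ∀ N ∈ Ico (5 * X) Z, N ∉ Bd → Loc S N →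
      (X : ℝ) / Real.log X ^ D ≤ ((Rep S m r C N).card : ℝ) := by
  classical
  obtain ⟨r, C, D, h⟩ := clsl S m
  refine ⟨r, C, D, ?_⟩
  intro κ η hη
  obtain ⟨X1, h1⟩ := h κ (η / 2) (by positivity)
  have hlogt : Tendsto (fun X : ℕ => Real.log (X : ℝ)) atTop atTop :=
    Real.tendsto_log_atTop.comp tendsto_natCast_atTop_atTop
  obtain ⟨X2, h2⟩ := eventually_atTop.1 (hlogt.eventually_ge_atTop (max 1 (2 / η)))
  refine ⟨max X1 (max X2 16), ?_⟩
  intro X hX Z hZ6 hZκ
  have hX1 : X1 ≤ X := by omega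
  have hX16 : 16 ≤ X := by omega
  have hl := h2 X (by omega)
  have hl1 : 1 ≤ Real.log X := (le_max_left _ _).trans hl
  have hl2 : 2 / η ≤ Real.log X := (le_max_right _ _).trans hl
  have hW0 : (0 : ℝ) < Wm X := by exact_mod_cast Wm_pos X
  have hWl : (Wm X : ℝ) ≤ Real.log X := by
    have e1 := Pool.Agent.H325R2.wtx1 X hX16
    refine e1.trans ?_
    calc Real.log X ^ (7 / 20 : ℝ) ≤ Real.log X ^ (1 : ℝ) :=
          Real.rpow_le_rpow_of_exponent_le hl1 (by norm_num)
      _ = Real.log X := Real.rpow_one _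
  have hs : ∀ s : ℕ, ∃ Bd : Finset ℕ, s < Wm X →
      ((Bd.card : ℝ) ≤ η / 2 * (Z / Wm X) + Z / Real.log X ^ 2 ∧
      ∀ N ∈ IN X Z s, N ∉ Bd → Loc S N →
        (X : ℝ) / Real.log X ^ D ≤ ((Rep S m r C N).card : ℝ)) := by
    intro s
    by_cases hs : s < Wm X
    · obtain ⟨Bd, hB⟩ := h1 X hX1 Z hZ6 hZκ s hs
      exact ⟨Bd, fun _ => hB⟩
    · exact ⟨∅, fun h => absurd h hs⟩
  choose Bd hBd using hs
  refine ⟨(range (Wm X)).biUnion Bd, ?_, ?_⟩
  · have e1 : (((range (Wm X)).biUnion Bd).card : ℝ) ≤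
        ∑ s ∈ range (Wm X), (η / 2 * (Z / Wm X) + Z / Real.log X ^ 2) := by
      have e2 : (((range (Wm X)).biUnion Bd).card : ℝ) ≤ ∑ s ∈ range (Wm X), ((Bd s).card : ℝ) := by
        exact_mod_cast card_biUnion_le
      refine e2.trans ?_
      apply sum_le_sum
      intro s hs
      exact (hBd s (mem_range.1 hs)).1
    refine e1.trans ?_
    rw [sum_const, card_range, nsmul_eq_mul]
    have hZ0 : (0 : ℝ) ≤ Z := Nat.cast_nonneg _
    have e3 : (Wm X : ℝ) * (η / 2 * (Z / Wm X) + Z / Real.log X ^ 2) =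
        η / 2 * Z + Z * (Wm X / Real.log X ^ 2) := by
      field_simp
    rw [e3]
    have e4 : (Wm X : ℝ) / Real.log X ^ 2 ≤ η / 2 := by
      rw [div_le_iff₀ (by positivity)]
      have e5 : 1 ≤ η / 2 * Real.log X := by
        rw [div_le_iff₀ hη] at hl2
        linarith
      calc (Wm X : ℝ) ≤ Real.log X := hWl
        _ = 1 * Real.log X := (one_mul _).symm
        _ ≤ η / 2 * Real.log X * Real.log X := mul_le_mul_of_nonneg_right e5 (by linarith)
        _ = _ := by ring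
    nlinarith
  · intro N hN hNB hLoc
    have hs : N % Wm X < Wm X := Nat.mod_lt _ (Wm_pos X)
    refine (hBd (N % Wm X) hs).2 N ?_ ?_ hLoc
    · unfold IN
      rw [mem_filter]
      exact ⟨hN, rfl⟩
    · intro hcon
      exact hNB (mem_biUnion.2 ⟨_, mem_range.2 hs, hcon⟩)

open Classical in
theorem fin (S : Finset ℤ) (m : ℕ) : ∃ r C D : ℕ,
    Tendsto (fun x : ℕ => (((range x).filter (fun N => Loc S N ∧
      ((Rep S m r C N).card : ℝ) < N / Real.log N ^ D)).card : ℝ) / x) atTop (𝓝 0) := by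
  obtain ⟨r, C, D, h⟩ := core S m
  refine ⟨r, C, D + 1, ?_⟩
  rw [Metric.tendsto_atTop]
  intro ε' hε'
  set ε := min ε' 1 with hε
  have hε0 : 0 < ε := lt_min hε' one_pos
  have hε1 : ε ≤ 1 := min_le_right _ _
  set κ : ℕ := ⌈40 / ε⌉₊ with hκ
  have hκ1 : 40 / ε ≤ κ := Nat.le_ceil _
  obtain ⟨X1, h1⟩ := h κ (ε / 2) (by positivity)
  have hlogt : Tendsto (fun X : ℕ => Real.log (X : ℝ)) atTop atTop :=
    Real.tendsto_log_atTop.comp tendsto_natCast_atTop_atTop
  obtain ⟨X2, h2⟩ := eventually_atTop.1 (hlogt.eventually_ge_atTop (max 1 (κ : ℝ)))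
  refine ⟨⌈40 / ε⌉₊ * (X1 + X2 + 2), ?_⟩
  intro x hx
  have hxr : (40 / ε) * ((X1 : ℝ) + X2 + 2) ≤ x := by
    have e1 : ((⌈40 / ε⌉₊ * (X1 + X2 + 2) : ℕ) : ℝ) ≤ x := by exact_mod_cast hx
    push_cast at e1
    exact le_trans (mul_le_mul_of_nonneg_right hκ1 (by positivity)) e1
  have hx2 : 40 * ((X1 : ℝ) + X2 + 2) ≤ ε * x := by
    rw [div_mul_eq_mul_div, div_le_iff₀ hε0] at hxr
    linarith
  have hX1n : (0 : ℝ) ≤ X1 := Nat.cast_nonneg _
  have hX2n : (0 : ℝ) ≤ X2 := Nat.cast_nonneg _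
  have hx0 : (0 : ℝ) < x := by
    by_contra hcon
    push Not at hcon
    nlinarith
  set X : ℕ := ⌊ε * x / 20⌋₊ with hX
  have hXle : (X : ℝ) ≤ ε * x / 20 := Nat.floor_le (by positivity)
  have hXge : ε * x / 20 < X + 1 := Nat.lt_floor_add_one _
  have hXX1 : X1 ≤ X := by
    apply Nat.le_floor
    linarith
  have hXX2 : X2 ≤ X := by
    apply Nat.le_floor
    linarith
  have hXpos : (2 : ℝ) ≤ X := by
    have : 2 ≤ X := by
      apply Nat.le_floor
      push_cast
      linarith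
    exact_mod_cast this
  have h6X : 6 * X ≤ x := by
    have : (6 : ℝ) * X ≤ x := by nlinarith
    exact_mod_cast this
  have hxκ : x ≤ κ * X := by
    have e1 : ε * x / 40 ≤ X := by linarith
    have e2 : (x : ℝ) ≤ κ * X := by
      calc (x : ℝ) = (40 / ε) * (ε * x / 40) := by field_simp
        _ ≤ κ * X := mul_le_mul hκ1 e1 (by positivity) (by positivity)
    exact_mod_cast e2
  obtain ⟨Bd, hB1, hB2⟩ := h1 X hXX1 x h6X hxκ
  have hl := h2 X hXX2
  have hl1 : 1 ≤ Real.log X := (le_max_left _ _).trans hl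
  have hl2 : (κ : ℝ) ≤ Real.log X := (le_max_right _ _).trans hl
  set F := (range x).filter (fun N => Loc S N ∧
      ((Rep S m r C N).card : ℝ) < N / Real.log N ^ (D + 1)) with hF
  have hsub : F ⊆ range (5 * X) ∪ Bd := by
    intro N hN
    rw [hF, mem_filter, mem_range] at hN
    obtain ⟨hNx, hLoc, hlt⟩ := hN
    rw [mem_union, mem_range]
    by_contra hcon
    rw [not_or, not_lt] at hcon
    have e1 := hB2 N (mem_Ico.2 ⟨hcon.1, hNx⟩) hcon.2 hLoc
    have hXN : (X : ℝ) ≤ N := by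
      have : X ≤ N := by omega
      exact_mod_cast this
    have hNκ : (N : ℝ) ≤ κ * X := by
      have : N ≤ κ * X := by omega
      exact_mod_cast this
    have e2 : (N : ℝ) / Real.log N ^ (D + 1) ≤ (X : ℝ) / Real.log X ^ D := by
      have e3 : Real.log X ≤ Real.log N := Real.log_le_log (by linarith) hXN
      calc (N : ℝ) / Real.log N ^ (D + 1) ≤ (κ * X) / Real.log X ^ (D + 1) := by
            apply div_le_div₀ (by positivity) hNκ (by positivity)
            exact pow_le_pow_left₀ (by linarith) e3 _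
        _ ≤ (Real.log X * X) / Real.log X ^ (D + 1) := by
            apply div_le_div_of_nonneg_right _ (by positivity)
            exact mul_le_mul_of_nonneg_right hl2 (by linarith)
        _ = _ := by
            rw [pow_succ]
            field_simp
    linarith
  have hcard : (F.card : ℝ) ≤ ε * x / 4 + ε / 2 * x := by
    have e1 : (F.card : ℝ) ≤ ((5 * X : ℕ) : ℝ) + Bd.card := by
      have := (card_le_card hsub).trans (card_union_le _ _)
      rw [card_range] at this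
      exact_mod_cast this
    push_cast at e1
    linarith
  rw [Real.dist_eq, sub_zero, abs_of_nonneg (by positivity), div_lt_iff₀ hx0]
  have : ε ≤ ε' := min_le_left _ _
  nlinarith

end Pool.Agent.TH882.AG
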