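import Pool.Agent.TH882.CoreG

/-! Prime values of a shifted polynomial at the primes of clusters. -/

set_option autoImplicit false

open Finset Filter Topology Polynomial

namespace Pool.Agent.TH882.PG

open Pool.Agent.H361R2.PP
open Pool.Agent.W70.HR
open Pool.Agent.TH882.UB
open Pool.Agent.TH882.AG (AP Nb)
open Pool.Agent.H373R2.T7 (cf abs_eval_le)

theorem coreG (g : ℤ[X]) (hd : 1 ≤ g.natDegree) (hl : 0 < g.leadingCoeff) (σ : ℤ)
    (hσ : σ = 1 ∨ σ = -1) (S : Finset ℤ) (m : ℕ) : ∃ r C D : ℕ, ∀ κ : ℕ, ∀ η : ℝ, 0 < η →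
    ∃ X₀ : ℕ, ∀ X : ℕ, X₀ ≤ X → ∀ Y a0 Z : ℕ,
    (∀ n : ℕ, X ≤ n → n ≤ 3 * X → 0 ≤ (Y : ℤ) - σ * g.eval (n : ℤ) ∧
      (Y : ℤ) - σ * g.eval (n : ℤ) < a0) → Y < a0 →
    a0 + X ≤ Z → Z ≤ κ * X ^ g.natDegree →
    ∃ Bd : Finset ℕ, (Bd.card : ℝ) ≤ η * (X : ℝ) ^ g.natDegree ∧
      ∀ N ∈ Ico a0 Z, N ∉ Bd → LocP g σ S ((N : ℤ) - Y) →
        (X : ℝ) / Real.log X ^ D ≤ ((RepP g σ S m r C X ((N : ℤ) - Y)).card : ℝ) := by
  classical
  set d := g.natDegree with hdd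
  obtain ⟨r, C, D, h⟩ := clsG g hd hl σ hσ S m
  refine ⟨r, C, D, ?_⟩
  intro κ η hη
  obtain ⟨X1, h1⟩ := h κ (η / (2 * (κ + 1))) (by positivity)
  have hlogt : Tendsto (fun X : ℕ => Real.log (X : ℝ)) atTop atTop :=
    Real.tendsto_log_atTop.comp tendsto_natCast_atTop_atTop
  obtain ⟨X2, h2⟩ := eventually_atTop.1 (hlogt.eventually_ge_atTop (max 1 (2 / η)))
  refine ⟨max X1 (max X2 16), ?_⟩
  intro X hX Y a0 Z hYa hYa0 hZ6 hZκ
  have hX1 : X1 ≤ X := by omega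
  have hX16 : 16 ≤ X := by omega
  have hll := h2 X (by omega)
  have hl1 : 1 ≤ Real.log X := (le_max_left _ _).trans hll
  have hl2 : 2 / η ≤ Real.log X := (le_max_right _ _).trans hll
  have hW0 : (0 : ℝ) < Wm X := by exact_mod_cast Wm_pos X
  have hWl : (Wm X : ℝ) ≤ Real.log X := by
    have e1 := Pool.Agent.H325R2.wtx1 X hX16
    refine e1.trans ?_
    calc Real.log X ^ (7 / 20 : ℝ) ≤ Real.log X ^ (1 : ℝ) :=
          Real.rpow_le_rpow_of_exponent_le hl1 (by norm_num)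
      _ = Real.log X := Real.rpow_one _
  have hs : ∀ s : ℕ, ∃ Bd : Finset ℕ, s < Wm X →
      ((Bd.card : ℝ) ≤ η / (2 * (κ + 1)) * (Z / Wm X) + (X : ℝ) ^ d / Real.log X ^ 2 ∧
      ∀ N ∈ IA X a0 Z s, N ∉ Bd → LocP g σ S ((N : ℤ) - Y) →
        (X : ℝ) / Real.log X ^ D ≤ ((RepP g σ S m r C X ((N : ℤ) - Y)).card : ℝ)) := by
    intro s
    by_cases hs : s < Wm X
    · obtain ⟨Bd, hB⟩ := h1 X hX1 Y a0 Z hYa hYa0 hZ6 hZκ s hs
      exact ⟨Bd, fun _ => hB⟩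
    · exact ⟨∅, fun h => absurd h hs⟩
  choose Bd hBd using hs
  refine ⟨(range (Wm X)).biUnion Bd, ?_, ?_⟩
  · have e1 : (((range (Wm X)).biUnion Bd).card : ℝ) ≤
        ∑ s ∈ range (Wm X), (η / (2 * (κ + 1)) * (Z / Wm X) + (X : ℝ) ^ d / Real.log X ^ 2) := by
      have e2 : (((range (Wm X)).biUnion Bd).card : ℝ) ≤ ∑ s ∈ range (Wm X), ((Bd s).card : ℝ) := by
        exact_mod_cast card_biUnion_le
      refine e2.trans ?_
      apply sum_le_sum
      intro s hs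
      exact (hBd s (mem_range.1 hs)).1
    refine e1.trans ?_
    rw [sum_const, card_range, nsmul_eq_mul]
    have hZ0 : (0 : ℝ) ≤ Z := Nat.cast_nonneg _
    have hXd0 : (0 : ℝ) ≤ (X : ℝ) ^ d := by positivity
    have hZκr : (Z : ℝ) ≤ κ * (X : ℝ) ^ d := by exact_mod_cast hZκ
    have e3 : (Wm X : ℝ) * (η / (2 * (κ + 1)) * (Z / Wm X) + (X : ℝ) ^ d / Real.log X ^ 2) =
        η / (2 * (κ + 1)) * Z + (X : ℝ) ^ d * (Wm X / Real.log X ^ 2) := by
      field_simp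
    rw [e3]
    have e4 : (Wm X : ℝ) / Real.log X ^ 2 ≤ η / 2 := by
      rw [div_le_iff₀ (by positivity)]
      have e5 : 1 ≤ η / 2 * Real.log X := by
        rw [div_le_iff₀ hη] at hl2
        linarith
      calc (Wm X : ℝ) ≤ Real.log X := hWl
        _ = 1 * Real.log X := (one_mul _).symm
        _ ≤ η / 2 * Real.log X * Real.log X := mul_le_mul_of_nonneg_right e5 (by linarith)
        _ = _ := by ring
    have e6 : η / (2 * (κ + 1)) * Z ≤ η / 2 * (X : ℝ) ^ d := by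
      have hκ0 : (0 : ℝ) ≤ κ := Nat.cast_nonneg _
      have e7 : (Z : ℝ) ≤ (κ + 1) * (X : ℝ) ^ d := by nlinarith
      calc η / (2 * (κ + 1)) * Z ≤ η / (2 * (κ + 1)) * ((κ + 1) * (X : ℝ) ^ d) :=
            mul_le_mul_of_nonneg_left e7 (by positivity)
        _ = _ := by field_simp
    have e8 : (X : ℝ) ^ d * (Wm X / Real.log X ^ 2) ≤ (X : ℝ) ^ d * (η / 2) :=
      mul_le_mul_of_nonneg_left e4 hXd0
    linarith
  · intro N hN hNB hLoc
    have hs : N % Wm X < Wm X := Nat.mod_lt _ (Wm_pos X)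
    refine (hBd (N % Wm X) hs).2 N ?_ ?_ hLoc
    · unfold IA
      rw [mem_filter]
      exact ⟨hN, rfl⟩
    · intro hcon
      exact hNB (mem_biUnion.2 ⟨_, mem_range.2 hs, hcon⟩)

/-- the primes of one pattern -/
lemma pattern (m C : ℕ) (P : Finset ℕ) (hP : P.Nonempty) (Q : ℕ → ℕ → Prop)
    [∀ p q, Decidable (Q p q)]
    (h : ∀ p ∈ P, m ≤ ((Icc (p - C) (p + C)).filter (fun q => q ≠ p ∧ Q p q)).card) :
    ∃ H : Finset ℤ, H.card = m ∧ (∀ h ∈ H, h ≠ 0 ∧ |h| ≤ C) ∧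
      (P.card : ℝ) / 2 ^ (2 * C + 1) ≤ ((P.filter (fun p : ℕ => ∀ h ∈ H, 0 ≤ (p : ℤ) + h ∧
        Q p ((p : ℤ) + h).toNat)).card : ℝ) := by
  classical
  have hex : ∀ p : ℕ, ∃ H : Finset ℤ, p ∈ P → (H.card = m ∧ (∀ h ∈ H, h ≠ 0 ∧ |h| ≤ C) ∧
      ∀ h ∈ H, 0 ≤ (p : ℤ) + h ∧ Q p ((p : ℤ) + h).toNat) := by
    intro p
    by_cases hp : p ∈ P
    · obtain ⟨R, hR1, hR2⟩ := exists_subset_card_eq (h p hp)
      refine ⟨R.image (fun q : ℕ => (q : ℤ) - p), fun _ => ⟨?_, ?_, ?_⟩⟩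
      · rw [card_image_of_injective, hR2]
        intro a b hab
        simp only at hab
        omega
      · intro h hh
        rw [mem_image] at hh
        obtain ⟨q, hq, rfl⟩ := hh
        have e1 := hR1 hq
        rw [mem_filter, mem_Icc] at e1
        refine ⟨?_, ?_⟩
        · have := e1.2.1
          omega
        · rw [abs_le]
          omega
      · intro h hh
        rw [mem_image] at hh
        obtain ⟨q, hq, rfl⟩ := hh
        have e1 := hR1 hq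
        rw [mem_filter, mem_Icc] at e1
        have e2 : (p : ℤ) + ((q : ℤ) - p) = (q : ℤ) := by ring
        rw [e2, Int.toNat_natCast]
        exact ⟨Int.natCast_nonneg _, e1.2.2⟩
    · exact ⟨∅, fun h => absurd h hp⟩
  choose f hf using hex
  have hmaps : ∀ p ∈ P, f p ∈ (Icc (-(C : ℤ)) C).powerset := by
    intro p hp
    rw [mem_powerset]
    intro h hh
    have e1 := ((hf p hp).2.1 h hh).2
    rw [mem_Icc]
    exact abs_le.1 e1
  have hcard : (((Icc (-(C : ℤ)) C).powerset).card : ℝ) = 2 ^ (2 * C + 1) := by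
    rw [card_powerset, Int.card_Icc]
    have : ((C : ℤ) + 1 - -(C : ℤ)).toNat = 2 * C + 1 := by omega
    rw [this]
    push_cast
    ring
  obtain ⟨H, hH1, hH2⟩ := exists_le_card_fiber_of_nsmul_le_card_of_maps_to hmaps
    ⟨_, empty_mem_powerset _⟩ (b := (P.card : ℝ) / 2 ^ (2 * C + 1)) (by
      rw [nsmul_eq_mul, hcard]
      apply le_of_eq
      field_simp)
  have hne : (P.filter (fun p => f p = H)).Nonempty := by
    rw [← card_pos]
    have e1 : (0 : ℝ) < P.card := by exact_mod_cast hP.card_pos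
    have e2 : (0 : ℝ) < (P.card : ℝ) / 2 ^ (2 * C + 1) := by positivity
    exact_mod_cast e2.trans_le hH2
  obtain ⟨p0, hp0⟩ := hne
  rw [mem_filter] at hp0
  refine ⟨H, ?_, ?_, ?_⟩
  · rw [← hp0.2]
    exact (hf p0 hp0.1).1
  · rw [← hp0.2]
    exact (hf p0 hp0.1).2.1
  · refine hH2.trans ?_
    apply Nat.cast_le.2
    apply card_le_card
    intro p hp
    rw [mem_filter] at hp ⊢
    refine ⟨hp.1, ?_⟩
    have e1 := (hf p hp.1).2.2
    rw [hp.2] at e1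
    exact e1

/-- the integers of one system -/
noncomputable def Sys (g : ℤ[X]) (σ : ℤ) (S : Finset ℤ) (r : ℕ) (H : Finset ℤ) (N : ℤ) (x : ℕ) :
    Finset ℕ := by
  classical
  exact (Icc 1 x).filter (fun n : ℕ => (N + σ * g.eval (n : ℤ)).toNat.Prime ∧
    ∀ h ∈ insert 0 H, 0 ≤ (n : ℤ) + h ∧ ((n : ℤ) + h).toNat.Prime ∧
      ∀ a ∈ S, 0 < (n : ℤ) + h + a ∧ ArithmeticFunction.cardFactors ((n : ℤ) + h + a).toNat ≤ r)

lemma sys_of_rep (g : ℤ[X]) (σ : ℤ) (S : Finset ℤ) (m r C X x : ℕ) (N : ℤ) (hX : 1 ≤ X)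
    (hx : 3 * X ≤ x) (hne : (RepP g σ S m r C X N).Nonempty) :
    ∃ H : Finset ℤ, H.card = m ∧ (∀ h ∈ H, h ≠ 0 ∧ |h| ≤ C) ∧
      ((RepP g σ S m r C X N).card : ℝ) / 2 ^ (2 * C + 1) ≤ ((Sys g σ S r H N x).card : ℝ) := by
  classical
  obtain ⟨H, h1, h2, h3⟩ := pattern m C (RepP g σ S m r C X N) hne
    (fun _ q => q.Prime ∧ AP S r q) (by
      intro p hp
      unfold RepP at hp
      rw [mem_filter] at hp
      refine hp.2.2.2.2.trans (card_le_card ?_)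
      intro q hq
      unfold Nb at hq
      rw [mem_filter] at hq ⊢
      exact ⟨hq.1, hq.2.2.1, hq.2.1, hq.2.2.2⟩)
  refine ⟨H, h1, h2, h3.trans ?_⟩
  apply Nat.cast_le.2
  apply card_le_card
  intro p hp
  rw [mem_filter] at hp
  obtain ⟨hp1, hp2⟩ := hp
  unfold RepP at hp1
  rw [mem_filter, mem_Icc] at hp1
  unfold Sys
  rw [mem_filter, mem_Icc]
  refine ⟨by omega, hp1.2.2.1, ?_⟩
  intro h hh
  rw [mem_insert] at hh
  rcases hh with rfl | hh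
  · rw [add_zero, Int.toNat_natCast]
    exact ⟨Int.natCast_nonneg _, hp1.2.1, hp1.2.2.2.1⟩
  · obtain ⟨e1, e2, e3⟩ := hp2 h hh
    refine ⟨e1, e2, ?_⟩
    intro a ha
    have e4 := e3 a ha
    rw [Int.toNat_of_nonneg e1] at e4
    exact e4

end Pool.Agent.TH882.PG
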