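import Pool.Agent.TH882.FinG

/-! Density statements for the two signs. -/

set_option autoImplicit false

open Finset Filter Topology Polynomial

namespace Pool.Agent.TH882.PG

open Pool.Agent.TH882.AG (AP Nb)
open Pool.Agent.H373R2.T7 (cf abs_eval_le)

open Classical in
/-- the exceptional constant terms -/
noncomputable def ExP (g : ℤ[X]) (S : Finset ℤ) (m r C D κ x : ℕ) : Finset ℕ :=
  (Icc 1 (κ * x ^ g.natDegree)).filter (fun k : ℕ => LocP g 1 S k ∧
    ¬ ∃ H : Finset ℤ, H.card = m ∧ (∀ h ∈ H, h ≠ 0 ∧ |h| ≤ C) ∧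
      (x : ℝ) / Real.log x ^ D ≤ ((Sys g 1 S r H k x).card : ℝ))

theorem finPlus (g : ℤ[X]) (hd : 1 ≤ g.natDegree) (hl : 0 < g.leadingCoeff) (S : Finset ℤ) (m : ℕ) :
    ∃ r C D : ℕ, ∀ κ : ℕ, Tendsto (fun x : ℕ =>
      ((ExP g S m r C D κ x).card : ℝ) / (x : ℝ) ^ g.natDegree) atTop (𝓝 0) := by
  classical
  set d := g.natDegree with hdd
  obtain ⟨r, C, D, h⟩ := coreG g hd hl 1 (Or.inl rfl) S m
  refine ⟨r, C, D + 1, ?_⟩
  intro κ
  rw [Metric.tendsto_atTop]
  intro ε hε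
  obtain ⟨X1, h1⟩ := h (cf g * 3 ^ d + κ * 4 ^ d + 2) (ε / 2) (by positivity)
  obtain ⟨n0, hn0⟩ := Pool.Agent.TH882.PA.pos g hd hl 0
  have hlogt : Tendsto (fun X : ℕ => Real.log (X : ℝ)) atTop atTop :=
    Real.tendsto_log_atTop.comp tendsto_natCast_atTop_atTop
  obtain ⟨X2, h2⟩ := eventually_atTop.1 (hlogt.eventually_ge_atTop (max 1 (4 * 2 ^ (2 * C + 1) : ℝ)))
  refine ⟨3 * (X1 + X2 + n0 + 3), ?_⟩
  intro x hx
  set X : ℕ := x / 3 with hX
  have hX3 : 3 * X ≤ x := by omega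
  have hXX : X1 + X2 + n0 + 3 ≤ X := by omega
  have hx4 : x ≤ 4 * X := by omega
  have hll := h2 X (by omega)
  have hl1 : 1 ≤ Real.log X := (le_max_left _ _).trans hll
  have hl2 : 4 * 2 ^ (2 * C + 1) ≤ Real.log X := (le_max_right _ _).trans hll
  have hXr : (3 : ℝ) ≤ X := by
    have : 3 ≤ X := by omega
    exact_mod_cast this
  have hxr : (0 : ℝ) < x := by
    have : 0 < x := by omega
    exact_mod_cast this
  set Y : ℕ := cf g * (3 * X) ^ d with hY
  have hXd : X ≤ X ^ d := by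
    calc X = X ^ 1 := (pow_one _).symm
      _ ≤ X ^ d := Nat.pow_le_pow_right (by omega) hd
  obtain ⟨Bd, hB1, hB2⟩ := h1 X (by omega) Y (Y + 1) (Y + 1 + κ * x ^ d + X) (by
      intro n hn1 hn2
      have e1 := hn0 n (by omega)
      have e2 := abs_eval_le g n (by omega)
      rw [← hdd] at e2
      have e3 : g.eval (n : ℤ) ≤ Y := by
        calc g.eval (n : ℤ) ≤ |g.eval (n : ℤ)| := le_abs_self _
          _ ≤ (cf g : ℤ) * (n : ℤ) ^ d := e2
          _ ≤ (Y : ℤ) := by
              have : cf g * n ^ d ≤ Y := Nat.mul_le_mul_left _ (Nat.pow_le_pow_left hn2 _)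
              exact_mod_cast this
      constructor
      · linarith
      · push_cast
        linarith) (by omega) (by omega) (by
      have e1 : Y = cf g * 3 ^ d * X ^ d := by rw [hY, mul_pow]; ring
      have e2 : κ * x ^ d ≤ κ * 4 ^ d * X ^ d := by
        calc κ * x ^ d ≤ κ * (4 * X) ^ d := Nat.mul_le_mul_left _ (Nat.pow_le_pow_left hx4 _)
          _ = _ := by rw [mul_pow]; ring
      have e3 : (cf g * 3 ^ d + κ * 4 ^ d + 2) * X ^ d =
          cf g * 3 ^ d * X ^ d + κ * 4 ^ d * X ^ d + 2 * X ^ d := by ring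
      rw [e3, e1]
      have e4 : 1 ≤ X ^ d := Nat.one_le_pow _ _ (by omega)
      omega)
  have hsub : (ExP g S m r C (D + 1) κ x).image (fun k => k + Y) ⊆ Bd := by
    intro N hN
    rw [mem_image] at hN
    obtain ⟨k, hk, rfl⟩ := hN
    unfold ExP at hk
    rw [mem_filter, mem_Icc, ← hdd] at hk
    obtain ⟨⟨hk1, hk2⟩, hLoc, hno⟩ := hk
    by_contra hcon
    have e0 : ((k + Y : ℕ) : ℤ) - Y = k := by push_cast; ring
    have e1 := hB2 (k + Y) (mem_Ico.2 ⟨by omega, by omega⟩) hcon (by rw [e0]; exact hLoc)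
    rw [e0] at e1
    have hne : (RepP g 1 S m r C X (k : ℤ)).Nonempty := by
      rw [← card_pos]
      have e2 : (0 : ℝ) < (X : ℝ) / Real.log X ^ D := by positivity
      exact_mod_cast e2.trans_le e1
    obtain ⟨H, hH1, hH2, hH3⟩ := sys_of_rep g 1 S m r C X x k (by omega) hX3 hne
    apply hno
    refine ⟨H, hH1, hH2, le_trans ?_ hH3⟩
    have e3 : Real.log X ≤ Real.log x := by
      apply Real.log_le_log (by linarith)
      have : X ≤ x := by omega
      exact_mod_cast this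
    have e4 : (x : ℝ) ≤ 4 * X := by exact_mod_cast hx4
    calc (x : ℝ) / Real.log x ^ (D + 1) ≤ 4 * X / Real.log X ^ (D + 1) :=
          div_le_div₀ (by positivity) e4 (by positivity) (pow_le_pow_left₀ (by linarith) e3 _)
      _ ≤ (X : ℝ) / Real.log X ^ D / 2 ^ (2 * C + 1) := by
          rw [div_div, div_le_div_iff₀ (by positivity) (by positivity), pow_succ (Real.log X) D]
          have e5 : 0 ≤ (X : ℝ) * Real.log X ^ D := by positivity
          have e6 := mul_le_mul_of_nonneg_left hl2 e5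
          linarith
      _ ≤ ((RepP g 1 S m r C X (k : ℤ)).card : ℝ) / 2 ^ (2 * C + 1) :=
          div_le_div_of_nonneg_right e1 (by positivity)
  have hcard : ((ExP g S m r C (D + 1) κ x).card : ℝ) ≤ ε / 2 * (X : ℝ) ^ d := by
    refine le_trans ?_ hB1
    have e1 := card_le_card hsub
    rw [card_image_of_injective _ (fun a b hab => by simpa using hab)] at e1
    exact_mod_cast e1
  rw [Real.dist_eq, sub_zero, abs_of_nonneg (by positivity), div_lt_iff₀ (by positivity)]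
  have e1 : (X : ℝ) ^ d ≤ (x : ℝ) ^ d := by
    apply pow_le_pow_left₀ (by linarith)
    have : X ≤ x := by omega
    exact_mod_cast this
  have e2 : (0 : ℝ) < (x : ℝ) ^ d := by positivity
  nlinarith

/-- the values of `g` are large -/
lemma lower (g : ℤ[X]) (hd : 1 ≤ g.natDegree) (hl : 0 < g.leadingCoeff) :
    ∃ n1 : ℕ, ∀ n : ℕ, n1 ≤ n → ((n : ℤ)) ^ g.natDegree ≤ 2 * g.eval (n : ℤ) := by
  -- the polynomial `2 g - X ^ d` has positive leading coefficient
  set q : ℤ[X] := C 2 * g - X ^ g.natDegree with hq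
  have hdeg : q.natDegree ≤ g.natDegree := by
    rw [hq]
    refine (natDegree_sub_le _ _).trans ?_
    rw [natDegree_X_pow]
    exact max_le (natDegree_C_mul_le _ _) le_rfl
  have hco : q.coeff g.natDegree = 2 * g.leadingCoeff - 1 := by
    rw [hq, coeff_sub, coeff_C_mul, coeff_X_pow, if_pos rfl]
    rfl
  have hpos : 0 < q.coeff g.natDegree := by
    rw [hco]
    omega
  have hqd : q.natDegree = g.natDegree := le_antisymm hdeg (le_natDegree_of_ne_zero hpos.ne')
  obtain ⟨n1, h1⟩ := Pool.Agent.TH882.PA.pos q (by rw [hqd]; exact hd) (by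
    rw [leadingCoeff, hqd]
    exact hpos) 0
  refine ⟨n1, fun n hn => ?_⟩
  have h2 := h1 n hn
  rw [hq, eval_sub, eval_mul, eval_C, eval_pow, eval_X] at h2
  linarith

/-- the number of positive integers `n` with `N - g(n) > 0` -/
noncomputable def X1 (g : ℤ[X]) (N : ℕ) : ℕ := {n : ℕ | 1 ≤ n ∧ 0 < (N : ℤ) - g.eval (n : ℤ)}.ncard

/-- the number of the integers of one system -/
noncomputable def Q1 (g : ℤ[X]) (S : Finset ℤ) (r : ℕ) (H : Finset ℤ) (N : ℕ) : ℕ :=
  {n : ℕ | 1 ≤ n ∧ ((N : ℤ) - g.eval (n : ℤ)).toNat.Prime ∧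
    ∀ h ∈ insert 0 H, 0 ≤ (n : ℤ) + h ∧ ((n : ℤ) + h).toNat.Prime ∧
      ∀ a ∈ S, 0 < (n : ℤ) + h + a ∧
        ArithmeticFunction.cardFactors ((n : ℤ) + h + a).toNat ≤ r}.ncard

open Classical in
/-- the exceptional integers -/
noncomputable def ExM (g : ℤ[X]) (S : Finset ℤ) (m r C D M : ℕ) : Finset ℕ :=
  (range M).filter (fun N : ℕ => LocP g (-1) S N ∧
    ¬ ∃ H : Finset ℤ, H.card = m ∧ (∀ h ∈ H, h ≠ 0 ∧ |h| ≤ C) ∧
      (X1 g N : ℝ) / Real.log (X1 g N) ^ D ≤ (Q1 g S r H N : ℝ))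

theorem finMinus (g : ℤ[X]) (hd : 1 ≤ g.natDegree) (hl : 0 < g.leadingCoeff) (S : Finset ℤ) (m : ℕ) :
    ∃ r C D : ℕ, Tendsto (fun M : ℕ => ((ExM g S m r C D M).card : ℝ) / M) atTop (𝓝 0) := by
  classical
  set d := g.natDegree with hdd
  obtain ⟨r, C, D, h⟩ := coreG g hd hl (-1) (Or.inr rfl) S m
  refine ⟨r, C, D + 1, ?_⟩
  rw [Metric.tendsto_atTop]
  intro ε' hε'
  set ε := min ε' 1 with hε
  have hε0 : 0 < ε := lt_min hε' one_pos
  have hε1 : ε ≤ 1 := min_le_right _ _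
  have hcf : 1 ≤ cf g := by
    unfold cf
    have h1 : (g.coeff g.natDegree).natAbs ≤ ∑ i ∈ range (g.natDegree + 1), (g.coeff i).natAbs :=
      single_le_sum (f := fun i => (g.coeff i).natAbs) (fun _ _ => Nat.zero_le _)
        (mem_range.2 (by omega))
    have h2 : 0 < (g.coeff g.natDegree).natAbs := Int.natAbs_pos.2 hl.ne'
    omega
  have hcfr : (1 : ℝ) ≤ cf g := by exact_mod_cast hcf
  set A : ℝ := 8 * cf g * 3 ^ d with hA
  have hA1 : 8 ≤ A := by
    rw [hA]
    have : (1 : ℝ) ≤ 3 ^ d := one_le_pow₀ (by norm_num)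
    nlinarith
  set κ : ℕ := ⌈A / ε * 2 ^ d⌉₊ with hκ
  have hκ1 : A / ε * 2 ^ d ≤ κ := Nat.le_ceil _
  have hκ0 : 1 ≤ κ := by
    have : (1 : ℝ) ≤ κ := by
      refine le_trans ?_ hκ1
      have e1 : 1 ≤ A / ε := by
        rw [le_div_iff₀ hε0]
        linarith
      have e2 : (1 : ℝ) ≤ 2 ^ d := one_le_pow₀ (by norm_num)
      nlinarith
    exact_mod_cast this
  obtain ⟨X₁, h1⟩ := h κ 1 one_pos
  obtain ⟨n1, hn1⟩ := lower g hd hl
  have hlogt : Tendsto (fun X : ℕ => Real.log (X : ℝ)) atTop atTop :=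
    Real.tendsto_log_atTop.comp tendsto_natCast_atTop_atTop
  obtain ⟨X₂, h2⟩ := eventually_atTop.1 (hlogt.eventually_ge_atTop
    (max 1 (2 * κ * 2 ^ (2 * C + 1) : ℝ)))
  refine ⟨⌈A / ε * ((X₁ + X₂ + n1 + 4 : ℕ) : ℝ) ^ d⌉₊, ?_⟩
  intro M hM
  have hMr : A / ε * ((X₁ + X₂ + n1 + 4 : ℕ) : ℝ) ^ d ≤ M :=
    (Nat.le_ceil _).trans (by exact_mod_cast hM)
  have hA0 : 0 < A := by linarith
  have hd0 : (d : ℝ) ≠ 0 := by
    have : (1 : ℝ) ≤ d := by exact_mod_cast hd
    linarith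
  set t : ℝ := ε * M / A with ht
  have htb : ((X₁ + X₂ + n1 + 4 : ℕ) : ℝ) ^ d ≤ t := by
    rw [ht, le_div_iff₀ hA0]
    have e1 := mul_le_mul_of_nonneg_left hMr hε0.le
    have e2 : ε * (A / ε * ((X₁ + X₂ + n1 + 4 : ℕ) : ℝ) ^ d) =
        ((X₁ + X₂ + n1 + 4 : ℕ) : ℝ) ^ d * A := by
      field_simp
    rw [e2] at e1
    exact e1
  have ht0 : 0 < t := lt_of_lt_of_le (by positivity) htb
  set X : ℕ := ⌊t ^ (1 / (d : ℝ))⌋₊ with hX
  have htd : (t ^ (1 / (d : ℝ))) ^ d = t := by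
    rw [← Real.rpow_natCast, ← Real.rpow_mul ht0.le, one_div, inv_mul_cancel₀ hd0, Real.rpow_one]
  have hXle : (X : ℝ) ≤ t ^ (1 / (d : ℝ)) := Nat.floor_le (by positivity)
  have hXge : t ^ (1 / (d : ℝ)) < X + 1 := Nat.lt_floor_add_one _
  have hXX : X₁ + X₂ + n1 + 4 ≤ X := by
    apply Nat.le_floor
    by_contra hcon
    push Not at hcon
    have e1 : (t ^ (1 / (d : ℝ))) ^ d < ((X₁ + X₂ + n1 + 4 : ℕ) : ℝ) ^ d :=
      pow_lt_pow_left₀ hcon (by positivity) (by omega)
    rw [htd] at e1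
    linarith
  have hXr : (4 : ℝ) ≤ X := by
    have : 4 ≤ X := by omega
    exact_mod_cast this
  have hXt : (X : ℝ) ^ d ≤ t := by
    rw [← htd]
    exact pow_le_pow_left₀ (by linarith) hXle d
  have htX : t ≤ 2 ^ d * (X : ℝ) ^ d := by
    rw [← htd, ← mul_pow]
    apply pow_le_pow_left₀ (by positivity)
    linarith
  have hMt : (M : ℝ) = A / ε * t := by
    rw [ht]
    field_simp
  have hMκ : M ≤ κ * X ^ d := by
    have : (M : ℝ) ≤ κ * (X : ℝ) ^ d := by
      rw [hMt]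
      calc A / ε * t ≤ A / ε * (2 ^ d * (X : ℝ) ^ d) :=
            mul_le_mul_of_nonneg_left htX (by positivity)
        _ = A / ε * 2 ^ d * (X : ℝ) ^ d := by ring
        _ ≤ _ := mul_le_mul_of_nonneg_right hκ1 (by positivity)
    exact_mod_cast this
  have hXd : X ≤ X ^ d := by
    calc X = X ^ 1 := (pow_one _).symm
      _ ≤ X ^ d := Nat.pow_le_pow_right (by omega) hd
  have hM0 : (0 : ℝ) < M := by
    rw [hMt]
    positivity
  set a0 : ℕ := cf g * (3 * X) ^ d + 1 with ha0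
  have hXd1 : 1 ≤ X ^ d := Nat.one_le_pow _ _ (by omega)
  have ha0r : (a0 : ℝ) ≤ ε * M / 4 := by
    have e1 : (a0 : ℝ) ≤ 2 * (cf g * 3 ^ d * (X : ℝ) ^ d) := by
      have : a0 ≤ 2 * (cf g * 3 ^ d * X ^ d) := by
        rw [ha0, mul_pow]
        have e2 : 1 ≤ cf g * 3 ^ d * X ^ d := by
          have : 1 ≤ 3 ^ d := Nat.one_le_pow _ _ (by norm_num)
          exact Nat.one_le_iff_ne_zero.2 (by positivity)
        have e3 : cf g * (3 ^ d * X ^ d) = cf g * 3 ^ d * X ^ d := by ring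
        omega
      exact_mod_cast this
    have e2 : 2 * (cf g * 3 ^ d * (X : ℝ) ^ d) ≤ 2 * (cf g * 3 ^ d * t) := by
      apply mul_le_mul_of_nonneg_left _ (by norm_num)
      exact mul_le_mul_of_nonneg_left hXt (by positivity)
    have e3 : 2 * (cf g * 3 ^ d * t) = ε * M / 4 := by
      have : cf g * 3 ^ d = A / 8 := by rw [hA]; ring
      rw [this, ht]
      field_simp
      ring
    linarith
  have ha0X : a0 + X ≤ M := by
    have e1 : ((a0 + X : ℕ) : ℝ) ≤ M := by
      push_cast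
      have e2 : (X : ℝ) ≤ ε * M / 8 := by
        have e3 : (X : ℝ) ≤ (X : ℝ) ^ d := by exact_mod_cast hXd
        have e4 : t ≤ ε * M / 8 := by
          rw [ht]
          exact div_le_div_of_nonneg_left (by positivity) (by norm_num) hA1
        linarith
      nlinarith
    exact_mod_cast e1
  have hgle : ∀ n : ℕ, 1 ≤ n → n ≤ 3 * X → g.eval (n : ℤ) < a0 := by
    intro n hn1 hn2
    have e2 := abs_eval_le g n hn1
    rw [← hdd] at e2
    calc g.eval (n : ℤ) ≤ |g.eval (n : ℤ)| := le_abs_self _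
      _ ≤ (cf g : ℤ) * (n : ℤ) ^ d := e2
      _ < (a0 : ℤ) := by
          have : cf g * n ^ d < a0 := by
            rw [ha0]
            exact Nat.lt_succ_of_le (Nat.mul_le_mul_left _ (Nat.pow_le_pow_left hn2 _))
          exact_mod_cast this
  obtain ⟨Bd, hB1, hB2⟩ := h1 X (by omega) 0 a0 M (by
      intro n hn1' hn2
      have e1 := hn1 n (by omega)
      have e3 := hgle n (by omega) hn2
      have e4 : (0 : ℤ) ≤ (n : ℤ) ^ g.natDegree := by positivity
      push_cast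
      constructor
      · linarith
      · linarith) (by omega) ha0X hMκ
  have hll := h2 X (by omega)
  have hl1 : 1 ≤ Real.log X := (le_max_left _ _).trans hll
  have hl2 : 2 * κ * 2 ^ (2 * C + 1) ≤ Real.log X := (le_max_right _ _).trans hll
  have hsub : ExM g S m r C (D + 1) M ⊆ range a0 ∪ Bd := by
    intro N hN
    unfold ExM at hN
    rw [mem_filter, mem_range] at hN
    obtain ⟨hNM, hLoc, hno⟩ := hN
    rw [mem_union, mem_range]
    by_contra hcon
    rw [not_or, not_lt] at hcon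
    have e0 : ((N : ℕ) : ℤ) - ((0 : ℕ) : ℤ) = N := by push_cast; ring
    have e1 := hB2 N (mem_Ico.2 ⟨hcon.1, hNM⟩) hcon.2 (by rw [e0]; exact hLoc)
    rw [e0] at e1
    have hne : (RepP g (-1) S m r C X (N : ℤ)).Nonempty := by
      rw [← card_pos]
      have e2 : (0 : ℝ) < (X : ℝ) / Real.log X ^ D := by positivity
      exact_mod_cast e2.trans_le e1
    obtain ⟨H, hH1, hH2, hH3⟩ := sys_of_rep g (-1) S m r C X (3 * X) N (by omega) le_rfl hne
    apply hno
    refine ⟨H, hH1, hH2, ?_⟩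
    -- the set of all `n`
    have hfin : {n : ℕ | 1 ≤ n ∧ 0 < (N : ℤ) - g.eval (n : ℤ)} ⊆ ((Icc 1 (2 * κ * X) : Finset ℕ) : Set ℕ) := by
      intro n hn
      rw [Set.mem_setOf_eq] at hn
      rw [mem_coe, mem_Icc]
      refine ⟨hn.1, ?_⟩
      by_cases hnn : n1 ≤ n
      · have e2 := hn1 n hnn
        by_contra hcon2
        push Not at hcon2
        have e3 : (2 * κ * X) ^ d < n ^ d := Nat.pow_lt_pow_left hcon2 (by omega)
        have e4 : 2 * κ * X ^ d ≤ (2 * κ * X) ^ d := by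
          rw [mul_pow (2 * κ) X]
          apply Nat.mul_le_mul_right
          calc 2 * κ = (2 * κ) ^ 1 := (pow_one _).symm
            _ ≤ (2 * κ) ^ d := Nat.pow_le_pow_right (by omega) hd
        have e5 : ((n ^ d : ℕ) : ℤ) < 2 * N := by
          push_cast
          rw [← hdd] at e2
          linarith [hn.2]
        have e6 : n ^ d < 2 * N := by exact_mod_cast e5
        have e7 : 2 * M ≤ 2 * (κ * X ^ d) := Nat.mul_le_mul_left _ hMκ
        have e8 : 2 * (κ * X ^ d) = 2 * κ * X ^ d := by ring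
        omega
      · push Not at hnn
        have : 1 * X ≤ 2 * κ * X := Nat.mul_le_mul_right _ (by omega)
        omega
    have hX1u : X1 g N ≤ 2 * κ * X := by
      unfold X1
      have e2 := Set.ncard_le_ncard hfin (finite_toSet _)
      rw [Set.ncard_coe_finset, Nat.card_Icc] at e2
      simpa using e2
    have hX1l : X ≤ X1 g N := by
      unfold X1
      have e2 : ((Icc 1 X : Finset ℕ) : Set ℕ) ⊆ {n : ℕ | 1 ≤ n ∧ 0 < (N : ℤ) - g.eval (n : ℤ)} := by
        intro n hn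
        rw [mem_coe, mem_Icc] at hn
        rw [Set.mem_setOf_eq]
        have e3 := hgle n hn.1 (by omega)
        have e4 : (a0 : ℤ) ≤ N := by exact_mod_cast hcon.1
        exact ⟨hn.1, by linarith⟩
      have e3 := Set.ncard_le_ncard e2 ((finite_toSet _).subset hfin)
      rw [Set.ncard_coe_finset, Nat.card_Icc] at e3
      simpa using e3
    have hQ : ((Sys g (-1) S r H N (3 * X)).card : ℝ) ≤ (Q1 g S r H N : ℝ) := by
      unfold Q1
      apply Nat.cast_le.2
      rw [← Set.ncard_coe_finset]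
      apply Set.ncard_le_ncard
      · intro n hn
        unfold Sys at hn
        rw [mem_coe, mem_filter, mem_Icc] at hn
        rw [Set.mem_setOf_eq]
        refine ⟨hn.1.1, ?_, hn.2.2⟩
        have e2 := hn.2.1
        have e3 : (N : ℤ) + -1 * g.eval (n : ℤ) = (N : ℤ) - g.eval (n : ℤ) := by ring
        rwa [e3] at e2
      · apply (finite_toSet (Icc 1 (2 * κ * X))).subset
        refine subset_trans ?_ hfin
        intro n hn
        rw [Set.mem_setOf_eq] at hn ⊢
        refine ⟨hn.1, ?_⟩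
        have e2 := hn.2.1.pos
        omega
    refine le_trans ?_ (hH3.trans hQ)
    have hX1r : (X : ℝ) ≤ X1 g N := by exact_mod_cast hX1l
    have e3 : Real.log X ≤ Real.log (X1 g N) := Real.log_le_log (by linarith) hX1r
    have e4 : (X1 g N : ℝ) ≤ 2 * κ * X := by exact_mod_cast hX1u
    calc (X1 g N : ℝ) / Real.log (X1 g N) ^ (D + 1) ≤ 2 * κ * X / Real.log X ^ (D + 1) :=
          div_le_div₀ (by positivity) e4 (by positivity) (pow_le_pow_left₀ (by linarith) e3 _)
      _ ≤ (X : ℝ) / Real.log X ^ D / 2 ^ (2 * C + 1) := by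
          rw [div_div, div_le_div_iff₀ (by positivity) (by positivity), pow_succ (Real.log X) D]
          have e5 : 0 ≤ (X : ℝ) * Real.log X ^ D := by positivity
          have e6 := mul_le_mul_of_nonneg_left hl2 e5
          linarith
      _ ≤ ((RepP g (-1) S m r C X (N : ℤ)).card : ℝ) / 2 ^ (2 * C + 1) :=
          div_le_div_of_nonneg_right e1 (by positivity)
  have hcard : ((ExM g S m r C (D + 1) M).card : ℝ) ≤ ε * M / 4 + ε * M / 8 := by
    have e1 := (card_le_card hsub).trans (card_union_le _ _)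
    rw [card_range] at e1
    have e2 : ((ExM g S m r C (D + 1) M).card : ℝ) ≤ (a0 : ℝ) + (Bd.card : ℝ) := by
      rw [← Nat.cast_add]
      exact Nat.cast_le.2 e1
    have e4 : t ≤ ε * M / 8 := by
      rw [ht]
      exact div_le_div_of_nonneg_left (by positivity) (by norm_num) hA1
    rw [one_mul] at hB1
    linarith
  rw [Real.dist_eq, sub_zero, abs_of_nonneg (div_nonneg (Nat.cast_nonneg _) (Nat.cast_nonneg _)),
    div_lt_iff₀ hM0]
  have e1 : ε ≤ ε' := min_le_left _ _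
  have e2 : ε * M ≤ ε' * M := mul_le_mul_of_nonneg_right e1 hM0.le
  have e3 : 0 < ε * M := mul_pos hε0 hM0
  linarith

end Pool.Agent.TH882.PG
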