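import Mathlib

/-! Elementary facts on integer polynomials. -/

set_option autoImplicit false

open Finset Filter Topology Polynomial

namespace Pool.Agent.TH882.PA

lemma real_mono (g : ℤ[X]) (hd : 1 ≤ g.natDegree) (hl : 0 < g.leadingCoeff) :
    ∃ x0 : ℝ, StrictMonoOn (fun x : ℝ => (g.map (Int.castRingHom ℝ)).eval x) (Set.Ici x0) := by
  set G := g.map (Int.castRingHom ℝ) with hG
  have hinj : Function.Injective (Int.castRingHom ℝ) := Int.cast_injective
  have hGd : G.natDegree = g.natDegree := natDegree_map_eq_of_injective hinj g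
  set d := g.natDegree with hdd
  have hc : 0 < (derivative G).coeff (d - 1) := by
    rw [coeff_derivative]
    have h1 : d - 1 + 1 = d := by omega
    rw [h1, hG, coeff_map]
    have h2 : (0 : ℝ) < (g.coeff d : ℤ) := by exact_mod_cast hl
    have h3 : (0 : ℝ) < ((d - 1 : ℕ) : ℝ) + 1 := by positivity
    exact mul_pos h2 h3
  have hdeg : (derivative G).natDegree = d - 1 := by
    apply natDegree_eq_of_le_of_coeff_ne_zero
    · have := natDegree_derivative_le G
      rwa [hGd] at this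
    · exact hc.ne'
  have hlc : 0 < (derivative G).leadingCoeff := by
    rw [leadingCoeff, hdeg]
    exact hc
  have hev : ∀ᶠ x : ℝ in atTop, 0 < (derivative G).eval x := by
    rcases Nat.eq_zero_or_pos (d - 1) with h0 | h0
    · have h1 : derivative G = C ((derivative G).coeff 0) := by
        apply eq_C_of_natDegree_eq_zero
        rw [hdeg, h0]
      filter_upwards with x
      rw [h1, eval_C]
      rw [h0] at hc
      exact hc
    · have h1 := Polynomial.tendsto_atTop_of_leadingCoeff_nonneg (derivative G) (by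
        rw [degree_eq_natDegree (by
          intro h2
          rw [h2] at hlc
          simp at hlc), hdeg]
        exact_mod_cast h0) hlc.le
      exact h1.eventually_gt_atTop 0
  obtain ⟨x0, hx0⟩ := eventually_atTop.1 hev
  refine ⟨x0, ?_⟩
  apply strictMonoOn_of_deriv_pos (convex_Ici x0) G.continuous.continuousOn
  intro x hx
  rw [interior_Ici, Set.mem_Ioi] at hx
  rw [Polynomial.deriv]
  exact hx0 x hx.le

lemma eval_cast (g : ℤ[X]) (n : ℕ) :
    (g.map (Int.castRingHom ℝ)).eval (n : ℝ) = ((g.eval (n : ℤ) : ℤ) : ℝ) := by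
  have := Polynomial.eval_intCast_map (Int.castRingHom ℝ) g (n : ℤ)
  rw [Int.cast_natCast] at this
  rw [this]
  rfl

lemma mono (g : ℤ[X]) (hd : 1 ≤ g.natDegree) (hl : 0 < g.leadingCoeff) :
    ∃ n0 : ℕ, ∀ n n' : ℕ, n0 ≤ n → n < n' → g.eval (n : ℤ) < g.eval (n' : ℤ) := by
  obtain ⟨x0, hx0⟩ := real_mono g hd hl
  obtain ⟨n0, hn0⟩ := exists_nat_ge x0
  refine ⟨n0, fun n n' hn hlt => ?_⟩
  have h1 : x0 ≤ (n : ℝ) := hn0.trans (by exact_mod_cast hn)
  have h2 : (n : ℝ) < n' := by exact_mod_cast hlt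
  have h3 := hx0 (Set.mem_Ici.2 h1) (Set.mem_Ici.2 (h1.trans h2.le)) h2
  simp only [eval_cast] at h3
  exact_mod_cast h3

lemma pos (g : ℤ[X]) (hd : 1 ≤ g.natDegree) (hl : 0 < g.leadingCoeff) (B : ℤ) :
    ∃ n0 : ℕ, ∀ n : ℕ, n0 ≤ n → B ≤ g.eval (n : ℤ) := by
  obtain ⟨n0, h0⟩ := mono g hd hl
  refine ⟨n0 + (B - g.eval (n0 : ℤ)).toNat, ?_⟩
  have h1 : ∀ j : ℕ, g.eval (n0 : ℤ) + j ≤ g.eval ((n0 + j : ℕ) : ℤ) := by
    intro j
    induction j with
    | zero => simp
    | succ j ih =>
      have h2 := h0 (n0 + j) (n0 + (j + 1)) (by omega) (by omega)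
      push_cast at ih h2 ⊢
      linarith
  intro n hn
  have h2 := h1 (n - n0)
  have h3 : n0 + (n - n0) = n := by omega
  rw [h3] at h2
  have h4 : (B - g.eval (n0 : ℤ)) ≤ ((B - g.eval (n0 : ℤ)).toNat : ℤ) := Int.self_le_toNat _
  omega

/-- the number of residues with a prescribed value -/
lemma roots_card (g : ℤ[X]) (hd : 1 ≤ g.natDegree) (p : ℕ) (hp : p.Prime)
    (hpl : ¬ (p : ℤ) ∣ g.leadingCoeff) (c : ℤ) :
    ((range p).filter (fun r : ℕ => (p : ℤ) ∣ g.eval (r : ℤ) - c)).card ≤ g.natDegree := by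
  classical
  have hf : Fact p.Prime := ⟨hp⟩
  set F : (ZMod p)[X] := (g - C c).map (Int.castRingHom (ZMod p)) with hF
  have hdeg : (g - C c).natDegree = g.natDegree := natDegree_sub_C
  have hlc : (Int.castRingHom (ZMod p)) g.leadingCoeff ≠ 0 := by
    intro h
    apply hpl
    rw [← ZMod.intCast_zmod_eq_zero_iff_dvd]
    exact h
  have hF0 : F ≠ 0 := by
    intro h
    have h1 : F.coeff g.natDegree = 0 := by rw [h, coeff_zero]
    rw [hF, coeff_map, coeff_sub, coeff_C, if_neg (by omega), sub_zero] at h1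
    exact hlc h1
  have h1 : F.roots.toFinset.card ≤ g.natDegree := by
    calc F.roots.toFinset.card ≤ F.roots.card := Multiset.toFinset_card_le _
      _ ≤ F.natDegree := card_roots' F
      _ ≤ (g - C c).natDegree := natDegree_map_le
      _ = g.natDegree := hdeg
  refine le_trans ?_ h1
  apply card_le_card_of_injOn (fun r : ℕ => (r : ZMod p))
  · intro r hr
    rw [mem_coe, mem_filter, mem_range] at hr
    rw [mem_coe, Multiset.mem_toFinset, mem_roots hF0, IsRoot.def, hF]
    have h2 := Polynomial.eval_intCast_map (Int.castRingHom (ZMod p)) (g - C c) (r : ℤ)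
    rw [Int.cast_natCast] at h2
    show ((g - C c).map (Int.castRingHom (ZMod p))).eval (r : ZMod p) = 0
    rw [h2, eval_sub, eval_C]
    show ((g.eval (r : ℤ) - c : ℤ) : ZMod p) = 0
    rw [ZMod.intCast_zmod_eq_zero_iff_dvd]
    exact hr.2
  · intro r hr r' hr' he
    rw [mem_coe, mem_filter, mem_range] at hr hr'
    simp only at he
    rw [ZMod.natCast_eq_natCast_iff] at he
    unfold Nat.ModEq at he
    rwa [Nat.mod_eq_of_lt hr.1, Nat.mod_eq_of_lt hr'.1] at he

/-- congruent arguments give congruent values -/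
lemma eval_congr (g : ℤ[X]) (p n : ℕ) : (p : ℤ) ∣ g.eval (n : ℤ) - g.eval ((n % p : ℕ) : ℤ) := by
  have h1 : ((n : ℤ) - ((n % p : ℕ) : ℤ)) ∣ g.eval (n : ℤ) - g.eval ((n % p : ℕ) : ℤ) :=
    sub_dvd_eval_sub _ _ g
  refine dvd_trans ?_ h1
  push_cast
  exact Int.dvd_self_sub_emod

end Pool.Agent.TH882.PA
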