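import Pool.Agent.TH882.PG
import Pool.Agent.TH882.PolyAux
import Pool.Agent.TH882.Bil

/-! The average of the correlation factor along polynomials. -/

set_option autoImplicit false

open Finset Filter Topology Polynomial

namespace Pool.Agent.TH882.PG

open Pool.Agent.H361R2.PP
open Pool.Agent.W70.HR
open Pool.Agent.TH882.UB
open Pool.Agent.TH882.PC (cnt_Ico PZ mem_PZ dvd_sub_iff wX wX_pos wX_one Vz_split one_sub_pos Vz_pos Gk
  prod_pair Gk_one prod_inv_one inv_le_exp tail_sum)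
open Pool.Agent.H373R2.T7 (lamz Vz pz cf abs_eval_le)

/-- the part of the small primes -/
noncomputable def Gsp (X z : ℕ) (g : ℤ[X]) (n n' : ℕ) : ℝ :=
  ∏ p ∈ ((PZ X z).filter (fun p : ℕ => (p : ℝ) ≤ Real.log X / 20)).filter
    (fun p : ℕ => (p : ℤ) ∣ g.eval (n : ℤ) - g.eval (n' : ℤ)), (1 - 1 / (p : ℝ))⁻¹

/-- the part of the large primes -/
noncomputable def Gbp (X z : ℕ) (g : ℤ[X]) (n n' : ℕ) : ℝ :=
  ∏ p ∈ ((PZ X z).filter (fun p : ℕ => ¬ (p : ℝ) ≤ Real.log X / 20)).filter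
    (fun p : ℕ => (p : ℤ) ∣ g.eval (n : ℤ) - g.eval (n' : ℤ)), (1 - 1 / (p : ℝ))⁻¹

lemma mod_iff (a b p : ℕ) (c : ℤ) (h : |(a : ℤ) - b| = |c|) : a % p = b % p ↔ (p : ℤ) ∣ c := by
  have h1 : (p : ℤ) ∣ c ↔ (p : ℤ) ∣ (a : ℤ) - b := by
    rw [← dvd_abs, ← h, dvd_abs]
  rw [h1]
  constructor
  · intro h2
    have h3 : b ≡ a [MOD p] := h2.symm
    exact Nat.modEq_iff_dvd.1 h3
  · intro h2
    have h3 : b ≡ a [MOD p] := Nat.modEq_iff_dvd.2 h2
    exact h3.symm

lemma Gk_poly (X z : ℕ) (g : ℤ[X]) (n n' k k' : ℕ)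
    (h : |(k : ℤ) - k'| = |g.eval (n : ℤ) - g.eval (n' : ℤ)|) :
    Gk X z k k' = Gsp X z g n n' * Gbp X z g n n' := by
  unfold Gk Gsp Gbp
  have e1 : (PZ X z).filter (fun p => k % p = k' % p) =
      (PZ X z).filter (fun p : ℕ => (p : ℤ) ∣ g.eval (n : ℤ) - g.eval (n' : ℤ)) := by
    apply filter_congr
    intro p _
    exact mod_iff k k' p _ h
  rw [e1, ← prod_filter_mul_prod_filter_not
    ((PZ X z).filter (fun p : ℕ => (p : ℤ) ∣ g.eval (n : ℤ) - g.eval (n' : ℤ)))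
    (fun p : ℕ => (p : ℝ) ≤ Real.log X / 20)]
  congr 1 <;>
  · apply prod_congr _ fun _ _ => rfl
    ext p
    simp only [mem_filter]
    tauto

/-- the large primes do not matter -/
lemma Gbp_le (g : ℤ[X]) (hd : 1 ≤ g.natDegree) (hl : 0 < g.leadingCoeff) (η : ℝ) (hη : 0 < η) :
    ∃ X₀ : ℕ, ∀ X : ℕ, X₀ ≤ X → ∀ z n n' : ℕ, X ≤ n → n < 2 * X → X ≤ n' → n' < 2 * X → n ≠ n' →
    Gbp X z g n n' ≤ 1 + η := by
  classical
  set d := g.natDegree with hdd
  obtain ⟨n0, hmono⟩ := Pool.Agent.TH882.PA.mono g hd hl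
  have ht : Tendsto (fun X : ℕ => Real.log (Real.log (X : ℝ) / 20)) atTop atTop :=
    Real.tendsto_log_atTop.comp ((Real.tendsto_log_atTop.comp
      tendsto_natCast_atTop_atTop).atTop_div_const (by norm_num))
  have hlη : 0 < Real.log (1 + η) := Real.log_pos (by linarith)
  obtain ⟨X1, h1⟩ := eventually_atTop.1 (ht.eventually_ge_atTop
    (max 1 (40 * (d + 1) / Real.log (1 + η))))
  refine ⟨max (max X1 3) (max n0 (2 * cf g * 2 ^ d)), ?_⟩
  intro X hX z n n' hn1 hn2 hn1' hn2' hne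
  have hX1 : X1 ≤ X := by omega
  have hX3 : 3 ≤ X := by omega
  have hXn0 : n0 ≤ X := by omega
  have hXc : 2 * cf g * 2 ^ d ≤ X := by
    exact (le_max_right n0 _).trans ((le_max_right _ _).trans hX)
  have hXr : (3 : ℝ) ≤ X := by exact_mod_cast hX3
  have hl1 : 1 ≤ Real.log X := by
    rw [Real.le_log_iff_exp_le (by linarith)]
    have := Real.exp_one_lt_d9
    linarith
  have h2 := h1 X hX1
  set y : ℝ := Real.log X / 20 with hy
  have hy0 : 0 < y := by rw [hy]; positivity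
  have hly1 : 1 ≤ Real.log y := (le_max_left _ _).trans h2
  have hly2 : 40 * (d + 1) / Real.log (1 + η) ≤ Real.log y := (le_max_right _ _).trans h2
  set B := ((PZ X z).filter (fun p : ℕ => ¬ (p : ℝ) ≤ Real.log X / 20)).filter
    (fun p : ℕ => (p : ℤ) ∣ g.eval (n : ℤ) - g.eval (n' : ℤ)) with hB
  have hBp : ∀ p ∈ B, p.Prime ∧ y < p ∧ (p : ℤ) ∣ g.eval (n : ℤ) - g.eval (n' : ℤ) := by
    intro p hp
    rw [hB, mem_filter, mem_filter, mem_PZ, not_le] at hp
    exact ⟨hp.1.1.1, hp.1.2, hp.2⟩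
  have hdvd : (((∏ p ∈ B, p : ℕ) : ℤ)) ∣ g.eval (n : ℤ) - g.eval (n' : ℤ) := by
    push_cast
    apply Finset.prod_dvd_of_coprime
    · intro p hp q hq hpq
      exact Nat.isCoprime_iff_coprime.2 ((Nat.coprime_primes (hBp p hp).1 (hBp q hq).1).2 hpq)
    · intro p hp
      exact (hBp p hp).2.2
  have hne' : g.eval (n : ℤ) - g.eval (n' : ℤ) ≠ 0 := by
    rcases Nat.lt_or_gt_of_ne hne with h3 | h3
    · have := hmono n n' (by omega) h3
      omega
    · have := hmono n' n (by omega) h3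
      omega
  have hsz : ∀ j : ℕ, 1 ≤ j → j < 2 * X → |g.eval (j : ℤ)| ≤ ((cf g * (2 * X) ^ d : ℕ) : ℤ) := by
    intro j hj1 hj2
    refine (abs_eval_le g j hj1).trans ?_
    rw [← hdd]
    have h3 : cf g * j ^ d ≤ cf g * (2 * X) ^ d :=
      Nat.mul_le_mul_left _ (Nat.pow_le_pow_left hj2.le _)
    exact_mod_cast h3
  have hle : (∏ p ∈ B, p : ℕ) ≤ X ^ (d + 1) := by
    have h3 := Int.le_of_dvd (abs_pos.2 hne') ((dvd_abs _ _).2 hdvd)
    have h4 : |g.eval (n : ℤ) - g.eval (n' : ℤ)| ≤ ((X ^ (d + 1) : ℕ) : ℤ) := by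
      have h5 := hsz n (by omega) hn2
      have h6 := hsz n' (by omega) hn2'
      have h7 : 2 * (cf g * (2 * X) ^ d) ≤ X ^ (d + 1) := by
        rw [mul_pow, pow_succ]
        calc 2 * (cf g * (2 ^ d * X ^ d)) = (2 * cf g * 2 ^ d) * X ^ d := by ring
          _ ≤ X * X ^ d := Nat.mul_le_mul_right _ hXc
          _ = _ := by ring
      have h8 : ((2 * (cf g * (2 * X) ^ d) : ℕ) : ℤ) ≤ ((X ^ (d + 1) : ℕ) : ℤ) := by exact_mod_cast h7
      calc |g.eval (n : ℤ) - g.eval (n' : ℤ)| ≤ |g.eval (n : ℤ)| + |g.eval (n' : ℤ)| := abs_sub _ _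
        _ ≤ ((cf g * (2 * X) ^ d : ℕ) : ℤ) + ((cf g * (2 * X) ^ d : ℕ) : ℤ) := add_le_add h5 h6
        _ = ((2 * (cf g * (2 * X) ^ d) : ℕ) : ℤ) := by push_cast; ring
        _ ≤ _ := h8
    exact_mod_cast h3.trans h4
  have hpow : y ^ B.card ≤ (X : ℝ) ^ (d + 1) := by
    calc y ^ B.card = ∏ _p ∈ B, y := by rw [prod_const]
      _ ≤ ∏ p ∈ B, (p : ℝ) := by
          apply Finset.prod_le_prod (fun _ _ => hy0.le)
          intro p hp
          exact (hBp p hp).2.1.le
      _ ≤ (X : ℝ) ^ (d + 1) := by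
          have h3 := (Nat.cast_le (α := ℝ)).2 hle
          push_cast at h3
          exact h3
  have hcard : (B.card : ℝ) * Real.log y ≤ (d + 1) * Real.log X := by
    have h3 := Real.log_le_log (by positivity) hpow
    rw [Real.log_pow, Real.log_pow] at h3
    push_cast at h3
    exact h3
  unfold Gbp
  rw [← hB]
  calc ∏ p ∈ B, (1 - 1 / (p : ℝ))⁻¹ ≤ ∏ _p ∈ B, Real.exp (2 / y) := by
        apply Finset.prod_le_prod
        · intro p hp
          exact (inv_pos.2 (one_sub_pos (hBp p hp).1)).le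
        · intro p hp
          refine (inv_le_exp (hBp p hp).1).trans ?_
          apply Real.exp_le_exp.2
          exact div_le_div_of_nonneg_left (by norm_num) hy0 (hBp p hp).2.1.le
    _ = Real.exp (B.card * (2 / y)) := by
        rw [prod_const, ← Real.exp_nat_mul]
    _ ≤ Real.exp (Real.log (1 + η)) := by
        apply Real.exp_le_exp.2
        have h3 : (B.card : ℝ) * (2 / y) * Real.log y ≤ 40 * (d + 1) := by
          calc (B.card : ℝ) * (2 / y) * Real.log y = (B.card : ℝ) * Real.log y * (2 / y) := by ring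
            _ ≤ (d + 1) * Real.log X * (2 / y) := mul_le_mul_of_nonneg_right hcard (by positivity)
            _ = 40 * (d + 1) := by
                rw [hy]
                field_simp
                ring
        have h4 : 40 * ((d : ℝ) + 1) ≤ Real.log (1 + η) * Real.log y := by
          rw [div_le_iff₀ hlη] at hly2
          linarith
        have h5 : (B.card : ℝ) * (2 / y) * Real.log y ≤ Real.log (1 + η) * Real.log y := h3.trans h4
        exact le_of_mul_le_mul_right h5 (by linarith)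
    _ = 1 + η := Real.exp_log (by linarith)

/-- the average of the part of the small primes -/
lemma Gsp_sum (g : ℤ[X]) (hd : 1 ≤ g.natDegree) (hl : 0 < g.leadingCoeff)
    (L A0 : ℕ) (δ : ℝ) (hδ : 0 < δ) (hδ1 : δ ≤ 1) : ∃ C : ℝ, 0 < C ∧ ∃ X₀ : ℕ,
    ∀ X : ℕ, X₀ ≤ X → ∀ b : ℕ, b < Wm X → ∀ U : Finset ℕ, U.card = L → (∀ u ∈ U, u ≤ A0) →
    ∀ z : ℕ, ∀ A ⊆ (SI X b).filter (fun n => ∀ u ∈ U, rg (P1 (HH X) (JJ δ X)) u n = 1),
    ∀ n : ℕ, ∑ n' ∈ A, (Gsp X z g n n' - 1) ≤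
      C * Om δ X L * (Real.exp (2 * g.natDegree / HH X) - 1) := by
  classical
  obtain ⟨C, hC, X1, hub⟩ := ub L A0 δ hδ hδ1
  obtain ⟨X2, hHH⟩ := eventually_atTop.1 (HH_tendsto.eventually_ge_atTop
    (g.leadingCoeff.natAbs + 1))
  obtain ⟨X3, hOm⟩ := Om_lower δ hδ hδ1 L
  set d := g.natDegree with hdd
  refine ⟨C, hC, max (max X1 X2) X3, ?_⟩
  intro X hX b hb U hU hUA z A hA n
  have hX1 : X1 ≤ X := ((le_max_left _ _).trans (le_max_left _ _)).trans hX
  have hX2 : X2 ≤ X := ((le_max_right _ _).trans (le_max_left _ _)).trans hX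
  have hX3 : X3 ≤ X := (le_max_right _ _).trans hX
  have hH1 := hHH X hX2
  have hOm0 : 0 ≤ Om δ X L := by
    have := (hOm X hX3).1
    unfold Om
    positivity
  set S : Finset ℕ := (PZ X z).filter (fun p : ℕ => (p : ℝ) ≤ Real.log X / 20) with hS
  have hSp : ∀ p ∈ S, p.Prime ∧ HH X < p ∧ (p : ℝ) ≤ Real.log X / 20 := by
    intro p hp
    rw [hS, mem_filter, mem_PZ] at hp
    exact ⟨hp.1.1, hp.1.2.2, hp.2⟩
  have hSl : ∀ p ∈ S, ¬ (p : ℤ) ∣ g.leadingCoeff := by
    intro p hp hdv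
    have h1 := (hSp p hp).2.1
    have h2 : p ∣ g.leadingCoeff.natAbs := Int.natCast_dvd.1 hdv
    have h3 := Nat.le_of_dvd (Int.natAbs_pos.2 hl.ne') h2
    omega
  have hexp : ∀ n', Gsp X z g n n' = ∑ D ∈ S.powerset, (∏ p ∈ D, 1 / ((p : ℝ) - 1)) *
      (if ∀ p ∈ D, ((p : ℕ) : ℤ) ∣ g.eval (n : ℤ) - g.eval (n' : ℤ) then 1 else 0) := by
    intro n'
    unfold Gsp
    rw [← hS]
    have h1 : ∀ p ∈ S.filter (fun p : ℕ => (p : ℤ) ∣ g.eval (n : ℤ) - g.eval (n' : ℤ)),
        (1 - 1 / (p : ℝ))⁻¹ = 1 + 1 / ((p : ℝ) - 1) := by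
      intro p hp
      have h2 : (2 : ℝ) ≤ p := by exact_mod_cast (hSp p (mem_filter.1 hp).1).1.two_le
      have h3 : (p : ℝ) ≠ 0 := by linarith
      have h4 : (p : ℝ) - 1 ≠ 0 := by
        have : (0 : ℝ) < (p : ℝ) - 1 := by linarith
        exact this.ne'
      have h5 : 1 - 1 / (p : ℝ) = ((p : ℝ) - 1) / p := by field_simp
      have h6 : 1 + 1 / ((p : ℝ) - 1) = p / ((p : ℝ) - 1) := by
        field_simp
        ring
      rw [h5, h6, inv_div]
    rw [prod_congr rfl h1, prod_one_add]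
    have h2 : (S.filter (fun p : ℕ => (p : ℤ) ∣ g.eval (n : ℤ) - g.eval (n' : ℤ))).powerset =
        S.powerset.filter (fun D : Finset ℕ => ∀ p ∈ D, ((p : ℕ) : ℤ) ∣ g.eval (n : ℤ) - g.eval (n' : ℤ)) := by
      ext D
      rw [mem_powerset, mem_filter, mem_powerset]
      constructor
      · intro h
        exact ⟨h.trans (filter_subset _ _), fun p hp => (mem_filter.1 (h hp)).2⟩
      · rintro ⟨h3, h4⟩ p hp
        exact mem_filter.2 ⟨h3 hp, h4 p hp⟩
    rw [h2, sum_filter]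
    apply sum_congr rfl
    intro D _
    split_ifs <;> simp
  have hsum : ∑ n' ∈ A, Gsp X z g n n' = ∑ D ∈ S.powerset, (∏ p ∈ D, 1 / ((p : ℝ) - 1)) *
      ((A.filter (fun n' : ℕ => ∀ p ∈ D, ((p : ℕ) : ℤ) ∣ g.eval (n : ℤ) - g.eval (n' : ℤ))).card : ℝ) := by
    rw [sum_congr rfl fun n' _ => hexp n', sum_comm]
    apply sum_congr rfl
    intro D _
    rw [← mul_sum, sum_boole]
  have hcnt : ∀ D ∈ S.powerset,
      ((A.filter (fun n' : ℕ => ∀ p ∈ D, ((p : ℕ) : ℤ) ∣ g.eval (n : ℤ) - g.eval (n' : ℤ))).card : ℝ) ≤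
      (d : ℝ) ^ D.card * (C * (Om δ X L * ∏ p ∈ D, (2 / (p : ℝ)))) := by
    intro D hD
    rw [mem_powerset] at hD
    set R : ℕ → Finset ℕ := fun p =>
      (range p).filter (fun r : ℕ => (p : ℤ) ∣ g.eval (r : ℤ) - g.eval (n : ℤ)) with hR
    have hRc : ∀ p ∈ D, (R p).card ≤ d := fun p hp =>
      Pool.Agent.TH882.PA.roots_card g hd p (hSp p (hD hp)).1 (hSl p (hD hp)) _
    have hcov : A.filter (fun n' : ℕ => ∀ p ∈ D, ((p : ℕ) : ℤ) ∣ g.eval (n : ℤ) - g.eval (n' : ℤ)) ⊆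
        (D.pi R).biUnion (fun c => A.filter (fun n' => ∀ p, ∀ hp : p ∈ D, n' % p = c p hp)) := by
      intro n' hn'
      rw [mem_filter] at hn'
      rw [mem_biUnion]
      refine ⟨fun p _ => n' % p, ?_, ?_⟩
      · rw [Finset.mem_pi]
        intro p hp
        rw [hR]
        simp only [mem_filter, mem_range]
        refine ⟨Nat.mod_lt _ (hSp p (hD hp)).1.pos, ?_⟩
        have h1 := Pool.Agent.TH882.PA.eval_congr g p n'
        have h2 := hn'.2 p hp
        have h3 : g.eval ((n' % p : ℕ) : ℤ) - g.eval (n : ℤ) =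
            -(g.eval (n : ℤ) - g.eval (n' : ℤ)) - (g.eval (n' : ℤ) - g.eval ((n' % p : ℕ) : ℤ)) := by ring
        rw [h3]
        exact ((Int.dvd_neg.2 h2).sub h1)
      · rw [mem_filter]
        exact ⟨hn'.1, fun p hp => rfl⟩
    have h1 : ((A.filter (fun n' : ℕ => ∀ p ∈ D,
        (p : ℤ) ∣ g.eval (n : ℤ) - g.eval (n' : ℤ))).card : ℝ) ≤
        ∑ c ∈ D.pi R, ((A.filter (fun n' => ∀ p, ∀ hp : p ∈ D, n' % p = c p hp)).card : ℝ) := by
      exact_mod_cast (card_le_card hcov).trans card_biUnion_le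
    refine h1.trans ?_
    have h2 : ∀ c ∈ D.pi R, ((A.filter (fun n' => ∀ p, ∀ hp : p ∈ D, n' % p = c p hp)).card : ℝ) ≤
        C * (Om δ X L * ∏ p ∈ D, (2 / (p : ℝ))) := by
      intro c hc
      rw [Finset.mem_pi] at hc
      obtain ⟨r, -, hr⟩ := crt ∅ D (by simp) (fun p hp => (hSp p (hD hp)).1)
        (disjoint_empty_left _) 0 (fun p => if hp : p ∈ D then c p hp else 0)
      refine le_trans ?_ (hub X hX1 b hb U hU hUA D (fun p hp => hSp p (hD hp)) r)
      apply Nat.cast_le.2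
      apply card_le_card
      intro n' hn'
      rw [mem_filter] at hn' ⊢
      have h3 := mem_filter.1 (hA hn'.1)
      refine ⟨h3.1, h3.2, fun p hp => ?_⟩
      have h4 := hr p hp
      rw [dif_pos hp] at h4
      have h5 := hc p hp
      rw [hR] at h5
      simp only [mem_filter, mem_range] at h5
      rw [Nat.mod_eq_of_lt h5.1] at h4
      rw [h4, hn'.2 p hp]
    have h0 : 0 ≤ C * (Om δ X L * ∏ p ∈ D, (2 / (p : ℝ))) := by
      have : 0 ≤ ∏ p ∈ D, (2 / (p : ℝ)) := prod_nonneg fun p _ => by positivity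
      positivity
    calc ∑ c ∈ D.pi R, ((A.filter (fun n' => ∀ p, ∀ hp : p ∈ D, n' % p = c p hp)).card : ℝ) ≤
        ∑ _c ∈ D.pi R, C * (Om δ X L * ∏ p ∈ D, (2 / (p : ℝ))) := sum_le_sum h2
      _ = ((D.pi R).card : ℝ) * (C * (Om δ X L * ∏ p ∈ D, (2 / (p : ℝ)))) := by
          rw [sum_const, nsmul_eq_mul]
      _ ≤ _ := by
          apply mul_le_mul_of_nonneg_right _ h0
          rw [Finset.card_pi]
          have h4 : ∏ p ∈ D, (R p).card ≤ ∏ _p ∈ D, d := Finset.prod_le_prod' hRc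
          rw [prod_const] at h4
          exact_mod_cast h4
  have hpos : ∀ D ∈ S.powerset, 0 ≤ ∏ p ∈ D, 1 / ((p : ℝ) - 1) := by
    intro D hD
    apply prod_nonneg
    intro p hp
    have h2 : (2 : ℝ) ≤ p := by exact_mod_cast (hSp p (mem_powerset.1 hD hp)).1.two_le
    apply div_nonneg zero_le_one
    linarith
  have hmain : ∑ n' ∈ A, Gsp X z g n n' ≤ (A.card : ℝ) +
      C * Om δ X L * (∏ p ∈ S, (1 + 2 * d / ((p : ℝ) * (p - 1))) - 1) := by
    rw [hsum, ← add_sum_erase _ _ (empty_mem_powerset S)]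
    apply add_le_add
    · simp
    · have h1 : ∑ D ∈ S.powerset.erase ∅, (∏ p ∈ D, 1 / ((p : ℝ) - 1)) *
          ((A.filter (fun n' : ℕ => ∀ p ∈ D,
            (p : ℤ) ∣ g.eval (n : ℤ) - g.eval (n' : ℤ))).card : ℝ) ≤
          ∑ D ∈ S.powerset.erase ∅, C * Om δ X L * ∏ p ∈ D, (2 * d / ((p : ℝ) * (p - 1))) := by
        apply sum_le_sum
        intro D hD
        have hD' := mem_of_mem_erase hD
        calc (∏ p ∈ D, 1 / ((p : ℝ) - 1)) * ((A.filter (fun n' : ℕ => ∀ p ∈ D,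
              (p : ℤ) ∣ g.eval (n : ℤ) - g.eval (n' : ℤ))).card : ℝ) ≤
            (∏ p ∈ D, 1 / ((p : ℝ) - 1)) *
              ((d : ℝ) ^ D.card * (C * (Om δ X L * ∏ p ∈ D, (2 / (p : ℝ))))) :=
              mul_le_mul_of_nonneg_left (hcnt D hD') (hpos D hD')
          _ = C * Om δ X L * ((∏ p ∈ D, 1 / ((p : ℝ) - 1)) * ((d : ℝ) ^ D.card *
                ∏ p ∈ D, (2 / (p : ℝ)))) := by ring
          _ = _ := by
              congr 1
              rw [← prod_const, ← prod_mul_distrib, ← prod_mul_distrib]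
              apply prod_congr rfl
              intro p _
              rw [mul_comm ((p : ℝ)), ← div_mul_div_comm]
              ring
      refine h1.trans (le_of_eq ?_)
      rw [← mul_sum]
      congr 1
      have h2 := add_sum_erase S.powerset (fun D => ∏ p ∈ D, (2 * d / ((p : ℝ) * (p - 1))))
        (empty_mem_powerset S)
      rw [prod_one_add, ← h2]
      simp
  have hprod : ∏ p ∈ S, (1 + 2 * d / ((p : ℝ) * (p - 1))) ≤ Real.exp (2 * d / HH X) := by
    calc ∏ p ∈ S, (1 + 2 * d / ((p : ℝ) * (p - 1))) ≤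
        ∏ p ∈ S, Real.exp (2 * d / ((p : ℝ) * (p - 1))) := by
          apply Finset.prod_le_prod
          · intro p hp
            have h2 : (2 : ℝ) ≤ p := by exact_mod_cast (hSp p hp).1.two_le
            have : 0 ≤ 2 * d / ((p : ℝ) * (p - 1)) := by
              apply div_nonneg (by positivity)
              apply mul_nonneg <;> linarith
            linarith
          · intro p _
            have := Real.add_one_le_exp (2 * d / ((p : ℝ) * (p - 1)))
            linarith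
      _ = Real.exp (∑ p ∈ S, 2 * d / ((p : ℝ) * (p - 1))) := (Real.exp_sum _ _).symm
      _ ≤ Real.exp (2 * d / HH X) := by
          apply Real.exp_le_exp.2
          have h1 := tail_sum (HH X) (by omega) S (fun p hp => (hSp p hp).2.1)
          calc ∑ p ∈ S, 2 * d / ((p : ℝ) * (p - 1)) = 2 * d * ∑ p ∈ S, 1 / ((p : ℝ) * (p - 1)) := by
                rw [mul_sum]
                apply sum_congr rfl
                intro p _
                ring
            _ ≤ 2 * d * (1 / HH X) := mul_le_mul_of_nonneg_left h1 (by positivity)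
            _ = _ := by ring
  rw [sum_sub_distrib, sum_const, nsmul_eq_mul, mul_one]
  have h1 : C * Om δ X L * (∏ p ∈ S, (1 + 2 * d / ((p : ℝ) * (p - 1))) - 1) ≤
      C * Om δ X L * (Real.exp (2 * d / HH X) - 1) := by
    apply mul_le_mul_of_nonneg_left _ (by positivity)
    linarith
  linarith

theorem gsumP (g : ℤ[X]) (hd : 1 ≤ g.natDegree) (hl : 0 < g.leadingCoeff) (L A0 : ℕ) (δ c η : ℝ)
    (hδ : 0 < δ) (hδ1 : δ ≤ 1) (hc : 0 < c) (hη : 0 < η) :
    ∃ X₀ : ℕ, ∀ X : ℕ, X₀ ≤ X → ∀ b : ℕ, b < Wm X → ∀ U : Finset ℕ, U.card = L →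
    (∀ u ∈ U, u ≤ A0) → ∀ z : ℕ,
    ∀ A ⊆ (SI X b).filter (fun n => ∀ u ∈ U, rg (P1 (HH X) (JJ δ X)) u n = 1),
    c * Om δ X L ≤ (A.card : ℝ) → ∀ k : ℕ → ℕ,
    (∀ n ∈ A, ∀ n' ∈ A, |(k n : ℤ) - k n'| = |g.eval (n : ℤ) - g.eval (n' : ℤ)|) →
    ∑ n ∈ A, ∑ n' ∈ A.erase n, (Gk X z (k n) (k n') - 1) ≤ η * (A.card : ℝ) ^ 2 := by
  classical
  obtain ⟨C, hC, X1, hs⟩ := Gsp_sum g hd hl L A0 δ hδ hδ1
  set d := g.natDegree with hdd
  set η1 : ℝ := min (η / 2) 1 with hη1
  have hη10 : 0 < η1 := by rw [hη1]; positivity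
  obtain ⟨X2, hb'⟩ := Gbp_le g hd hl η1 hη10
  have ht : Tendsto (fun X : ℕ => C / c * (Real.exp (2 * d / (HH X : ℝ)) - 1)) atTop (𝓝 0) := by
    have h1 : Tendsto (fun X : ℕ => 2 * (d : ℝ) / (HH X : ℝ)) atTop (𝓝 0) :=
      (tendsto_natCast_atTop_atTop.comp HH_tendsto).const_div_atTop (2 * (d : ℝ))
    have h2 : Tendsto (fun X : ℕ => Real.exp (2 * d / (HH X : ℝ))) atTop (𝓝 (Real.exp 0)) :=
      (Real.continuous_exp.tendsto 0).comp h1
    have h3 := (h2.sub_const 1).const_mul (C / c)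
    simpa using h3
  obtain ⟨X3, h3⟩ := eventually_atTop.1 (ht.eventually (gt_mem_nhds (show (0 : ℝ) < η / 4 by positivity)))
  refine ⟨max (max X1 X2) X3, ?_⟩
  intro X hX b hb U hU hUA z A hA hcA k hk
  have hX1 : X1 ≤ X := ((le_max_left _ _).trans (le_max_left _ _)).trans hX
  have hX2 : X2 ≤ X := ((le_max_right _ _).trans (le_max_left _ _)).trans hX
  have hX3 : X3 ≤ X := (le_max_right _ _).trans hX
  have hsmall := h3 X hX3
  have hAX : ∀ n ∈ A, X ≤ n ∧ n < 2 * X := by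
    intro n hn
    have h1 := (mem_filter.1 (hA hn)).1
    rw [mem_SI] at h1
    exact ⟨h1.1, h1.2.1⟩
  have hA0 : (0 : ℝ) ≤ A.card := by positivity
  have hexp1 : 0 ≤ Real.exp (2 * d / (HH X : ℝ)) - 1 := by
    have := Real.add_one_le_exp (2 * d / (HH X : ℝ))
    have h2 : 0 ≤ 2 * d / (HH X : ℝ) := by positivity
    linarith
  have hinner : ∀ n ∈ A, ∑ n' ∈ A.erase n, (Gk X z (k n) (k n') - 1) ≤ η * A.card := by
    intro n hn
    have hGs1 : ∀ n', 1 ≤ Gsp X z g n n' := by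
      intro n'
      unfold Gsp
      apply prod_inv_one
      intro p hp
      exact (mem_PZ.1 (mem_filter.1 (mem_filter.1 hp).1).1).1
    have h4 : ∀ n' ∈ A.erase n, Gk X z (k n) (k n') - 1 ≤
        (1 + η1) * (Gsp X z g n n' - 1) + η1 := by
      intro n' hn'
      have hne : n ≠ n' := (ne_of_mem_erase hn').symm
      have h5 := hAX n hn
      have h6 := hAX n' (mem_of_mem_erase hn')
      have h7 := hb' X hX2 z n n' h5.1 h5.2 h6.1 h6.2 hne
      rw [Gk_poly X z g n n' (k n) (k n') (hk n hn n' (mem_of_mem_erase hn'))]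
      have h8 := hGs1 n'
      calc Gsp X z g n n' * Gbp X z g n n' - 1 ≤ Gsp X z g n n' * (1 + η1) - 1 := by
            have := mul_le_mul_of_nonneg_left h7 (by linarith : 0 ≤ Gsp X z g n n')
            linarith
        _ = _ := by ring
    have h5 := hs X hX1 b hb U hU hUA z A hA n
    have h6 : C * Om δ X L * (Real.exp (2 * d / HH X) - 1) ≤ η / 4 * A.card := by
      calc C * Om δ X L * (Real.exp (2 * d / HH X) - 1) =
          C / c * (Real.exp (2 * d / HH X) - 1) * (c * Om δ X L) := by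
            field_simp
        _ ≤ C / c * (Real.exp (2 * d / HH X) - 1) * A.card :=
            mul_le_mul_of_nonneg_left hcA (by positivity)
        _ ≤ _ := mul_le_mul_of_nonneg_right hsmall.le hA0
    have hη11 : η1 ≤ 1 := min_le_right _ _
    have hη12 : η1 ≤ η / 2 := min_le_left _ _
    calc ∑ n' ∈ A.erase n, (Gk X z (k n) (k n') - 1) ≤
        ∑ n' ∈ A.erase n, ((1 + η1) * (Gsp X z g n n' - 1) + η1) := sum_le_sum h4
      _ ≤ ∑ n' ∈ A, ((1 + η1) * (Gsp X z g n n' - 1) + η1) := by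
          apply sum_le_sum_of_subset_of_nonneg (erase_subset _ _)
          intro n' _ _
          have h8 := hGs1 n'
          have : 0 ≤ (1 + η1) * (Gsp X z g n n' - 1) := mul_nonneg (by linarith) (by linarith)
          linarith
      _ = (1 + η1) * ∑ n' ∈ A, (Gsp X z g n n' - 1) + η1 * A.card := by
          rw [sum_add_distrib, ← mul_sum, sum_const, nsmul_eq_mul]
          ring
      _ ≤ (1 + η1) * (η / 4 * A.card) + η / 2 * A.card := by
          apply add_le_add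
          · exact mul_le_mul_of_nonneg_left (h5.trans h6) (by linarith)
          · exact mul_le_mul_of_nonneg_right hη12 hA0
      _ ≤ η * A.card := by
          have : (1 + η1) * (η / 4 * A.card) ≤ 2 * (η / 4 * A.card) :=
            mul_le_mul_of_nonneg_right (by linarith) (by positivity)
          linarith
  calc ∑ n ∈ A, ∑ n' ∈ A.erase n, (Gk X z (k n) (k n') - 1) ≤ ∑ _n ∈ A, η * (A.card : ℝ) :=
        sum_le_sum hinner
    _ = _ := by
        rw [sum_const, nsmul_eq_mul]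
        ring

end Pool.Agent.TH882.PG
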