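import Pool.Agent.TH882.Var

/-! The average of the correlation factor. -/

set_option autoImplicit false

open Finset Filter Topology

namespace Pool.Agent.TH882.PC

open Pool.Agent.H361R2.PP
open Pool.Agent.W70.HR
open Pool.Agent.TH882.UB
open Pool.Agent.H373R2.T7 (lamz Vz pz)

lemma Gk_add (X z k k' h : ℕ) : Gk X z (k + h) (k' + h) = Gk X z k k' := by
  unfold Gk
  apply prod_congr _ fun _ _ => rfl
  apply filter_congr
  intro p _
  constructor
  · intro h1
    exact Nat.ModEq.add_right_cancel' h h1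
  · intro h1
    exact Nat.ModEq.add_right h h1

/-- the part of the small primes -/
noncomputable def Gs (X z k k' : ℕ) : ℝ :=
  ∏ p ∈ ((PZ X z).filter (fun p : ℕ => (p : ℝ) ≤ Real.log X / 20)).filter
    (fun p => k % p = k' % p), (1 - 1 / (p : ℝ))⁻¹

/-- the part of the large primes -/
noncomputable def Gb (X z k k' : ℕ) : ℝ :=
  ∏ p ∈ ((PZ X z).filter (fun p : ℕ => ¬ (p : ℝ) ≤ Real.log X / 20)).filter
    (fun p => k % p = k' % p), (1 - 1 / (p : ℝ))⁻¹

lemma Gk_eq (X z k k' : ℕ) : Gk X z k k' = Gs X z k k' * Gb X z k k' := by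
  unfold Gk Gs Gb
  rw [← prod_filter_mul_prod_filter_not ((PZ X z).filter (fun p => k % p = k' % p))
    (fun p : ℕ => (p : ℝ) ≤ Real.log X / 20)]
  congr 1 <;>
  · apply prod_congr _ fun _ _ => rfl
    ext p
    simp only [mem_filter]
    tauto

lemma prod_inv_one {B : Finset ℕ} (hB : ∀ p ∈ B, p.Prime) :
    1 ≤ ∏ p ∈ B, (1 - 1 / (p : ℝ))⁻¹ := by
  calc (1 : ℝ) = ∏ _p ∈ B, (1 : ℝ) := by rw [prod_const_one]
    _ ≤ _ := by
        apply Finset.prod_le_prod (fun _ _ => zero_le_one)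
        intro p hp
        have h1 := one_sub_pos (hB p hp)
        rw [one_le_inv₀ h1]
        have : 0 ≤ 1 / (p : ℝ) := by positivity
        linarith

lemma inv_le_exp {p : ℕ} (hp : p.Prime) : (1 - 1 / (p : ℝ))⁻¹ ≤ Real.exp (2 / p) := by
  have h2 : (2 : ℝ) ≤ p := by exact_mod_cast hp.two_le
  have h1 := one_sub_pos hp
  have h3 : (1 - 1 / (p : ℝ))⁻¹ ≤ 1 + 2 / p := by
    rw [inv_le_iff_one_le_mul₀ h1]
    have h4 : (1 + 2 / (p : ℝ)) * (1 - 1 / p) = 1 + (1 / p) * (1 - 2 / p) := by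
      field_simp
      ring
    rw [h4]
    have h5 : 2 / (p : ℝ) ≤ 1 := by
      rw [div_le_one (by linarith)]
      exact h2
    have h6 : 0 ≤ 1 / (p : ℝ) * (1 - 2 / p) := mul_nonneg (by positivity) (by linarith)
    linarith
  have h4 := Real.add_one_le_exp (2 / (p : ℝ))
  linarith

/-- the large primes do not matter -/
lemma Gb_le (η : ℝ) (hη : 0 < η) : ∃ X₀ : ℕ, ∀ X : ℕ, X₀ ≤ X → ∀ z k k' : ℕ, X ≤ k → k < 2 * X →
    X ≤ k' → k' < 2 * X → k ≠ k' → Gb X z k k' ≤ 1 + η := by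
  classical
  have ht : Tendsto (fun X : ℕ => Real.log (Real.log (X : ℝ) / 20)) atTop atTop :=
    Real.tendsto_log_atTop.comp ((Real.tendsto_log_atTop.comp
      tendsto_natCast_atTop_atTop).atTop_div_const (by norm_num))
  have hlη : 0 < Real.log (1 + η) := Real.log_pos (by linarith)
  obtain ⟨X1, h1⟩ := eventually_atTop.1 (ht.eventually_ge_atTop (max 1 (40 / Real.log (1 + η))))
  refine ⟨max X1 3, ?_⟩
  intro X hX z k k' hk1 hk2 hk1' hk2' hne
  have hX1 : X1 ≤ X := (le_max_left _ _).trans hX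
  have hX3 : 3 ≤ X := (le_max_right _ _).trans hX
  have hXr : (3 : ℝ) ≤ X := by exact_mod_cast hX3
  have hl1 : 1 ≤ Real.log X := by
    rw [Real.le_log_iff_exp_le (by linarith)]
    have := Real.exp_one_lt_d9
    linarith
  have h2 := h1 X hX1
  set y : ℝ := Real.log X / 20 with hy
  have hy0 : 0 < y := by rw [hy]; positivity
  have hly1 : 1 ≤ Real.log y := (le_max_left _ _).trans h2
  have hly2 : 40 / Real.log (1 + η) ≤ Real.log y := (le_max_right _ _).trans h2
  have hy1 : 1 < y := by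
    by_contra hcon
    push Not at hcon
    have := Real.log_nonpos hy0.le hcon
    linarith
  set B := ((PZ X z).filter (fun p : ℕ => ¬ (p : ℝ) ≤ Real.log X / 20)).filter
    (fun p => k % p = k' % p) with hB
  have hBp : ∀ p ∈ B, p.Prime ∧ y < p ∧ k % p = k' % p := by
    intro p hp
    rw [hB, mem_filter, mem_filter, mem_PZ, not_le] at hp
    exact ⟨hp.1.1.1, hp.1.2, hp.2⟩
  -- number of the primes
  have hdvd : (((∏ p ∈ B, p : ℕ) : ℤ)) ∣ ((k : ℤ) - k') := by
    push_cast
    apply Finset.prod_dvd_of_coprime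
    · intro p hp q hq hpq
      exact Nat.isCoprime_iff_coprime.2 ((Nat.coprime_primes (hBp p hp).1 (hBp q hq).1).2 hpq)
    · intro p hp
      have h3 : k' ≡ k [MOD p] := (hBp p hp).2.2.symm
      exact (Nat.modEq_iff_dvd.1 h3)
  have hne' : (k : ℤ) - k' ≠ 0 := by omega
  have hle : (∏ p ∈ B, p : ℕ) ≤ X := by
    have h3 := Int.le_of_dvd (abs_pos.2 hne') ((dvd_abs _ _).2 hdvd)
    have h4 : |(k : ℤ) - k'| ≤ X := by
      rw [abs_le]
      omega
    exact_mod_cast h3.trans h4
  have hpow : y ^ B.card ≤ X := by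
    calc y ^ B.card = ∏ _p ∈ B, y := by rw [prod_const]
      _ ≤ ∏ p ∈ B, (p : ℝ) := by
          apply Finset.prod_le_prod (fun _ _ => hy0.le)
          intro p hp
          exact (hBp p hp).2.1.le
      _ ≤ X := by
          have h3 := (Nat.cast_le (α := ℝ)).2 hle
          push_cast at h3
          exact h3
  have hcard : (B.card : ℝ) * Real.log y ≤ Real.log X := by
    have h3 := Real.log_le_log (by positivity) hpow
    rwa [Real.log_pow] at h3
  unfold Gb
  rw [← hB]
  calc ∏ p ∈ B, (1 - 1 / (p : ℝ))⁻¹ ≤ ∏ _p ∈ B, Real.exp (2 / y) := by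
        apply Finset.prod_le_prod
        · intro p hp
          exact (inv_pos.2 (one_sub_pos (hBp p hp).1)).le
        · intro p hp
          refine (inv_le_exp (hBp p hp).1).trans ?_
          apply Real.exp_le_exp.2
          exact div_le_div_of_nonneg_left (by norm_num) hy0 (hBp p hp).2.1.le
    _ = Real.exp (B.card * (2 / y)) := by
        rw [prod_const, ← Real.exp_nat_mul]
    _ ≤ Real.exp (Real.log (1 + η)) := by
        apply Real.exp_le_exp.2
        have h3 : (B.card : ℝ) * (2 / y) * Real.log y ≤ 40 := by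
          calc (B.card : ℝ) * (2 / y) * Real.log y = (B.card : ℝ) * Real.log y * (2 / y) := by ring
            _ ≤ Real.log X * (2 / y) := mul_le_mul_of_nonneg_right hcard (by positivity)
            _ = 40 := by
                rw [hy]
                field_simp
                norm_num
        have h4 : 40 ≤ Real.log (1 + η) * Real.log y := by
          rw [div_le_iff₀ hlη] at hly2
          linarith
        have h5 : (B.card : ℝ) * (2 / y) * Real.log y ≤ Real.log (1 + η) * Real.log y := h3.trans h4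
        exact le_of_mul_le_mul_right h5 (by linarith)
    _ = 1 + η := Real.exp_log (by linarith)

/-- sum of `1 / (p (p - 1))` over primes beyond `H` -/
lemma tail_sum (H : ℕ) (hH : 1 ≤ H) (B : Finset ℕ) (hB : ∀ p ∈ B, H < p) :
    ∑ p ∈ B, 1 / ((p : ℝ) * (p - 1)) ≤ 1 / H := by
  classical
  have h1 : ∀ M : ℕ, H ≤ M → ∑ p ∈ Ioc H M, 1 / ((p : ℝ) * (p - 1)) = 1 / H - 1 / M := by
    intro M hM
    induction M, hM using Nat.le_induction with
    | base => simp
    | succ M hM ih =>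
      rw [← insert_Ioc_right_eq_Ioc_add_one hM, sum_insert (by simp), ih]
      have hM0 : (0 : ℝ) < M := by
        have : 0 < M := by omega
        exact_mod_cast this
      push_cast
      rw [show (M : ℝ) + 1 - 1 = M by ring]
      field_simp
      ring
  obtain ⟨M, hM⟩ : ∃ M : ℕ, ∀ p ∈ B, p ≤ M := ⟨B.sup id, fun p hp => le_sup (f := id) hp⟩
  have hsub : B ⊆ Ioc H (max H M) := by
    intro p hp
    rw [mem_Ioc]
    exact ⟨hB p hp, (hM p hp).trans (le_max_right _ _)⟩
  calc ∑ p ∈ B, 1 / ((p : ℝ) * (p - 1)) ≤ ∑ p ∈ Ioc H (max H M), 1 / ((p : ℝ) * (p - 1)) := by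
        apply sum_le_sum_of_subset_of_nonneg hsub
        intro p hp _
        rw [mem_Ioc] at hp
        have : (1 : ℝ) ≤ p := by
          have : 1 ≤ p := by omega
          exact_mod_cast this
        apply div_nonneg zero_le_one
        apply mul_nonneg <;> linarith
    _ = 1 / H - 1 / ((max H M : ℕ) : ℝ) := h1 _ (le_max_left _ _)
    _ ≤ _ := by
        have : 0 ≤ 1 / ((max H M : ℕ) : ℝ) := by positivity
        linarith

/-- the average of the part of the small primes -/
lemma Gs_sum (L A0 : ℕ) (δ : ℝ) (hδ : 0 < δ) (hδ1 : δ ≤ 1) : ∃ C : ℝ, 0 < C ∧ ∃ X₀ : ℕ,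
    ∀ X : ℕ, X₀ ≤ X → ∀ b : ℕ, b < Wm X → ∀ U : Finset ℕ, U.card = L → (∀ u ∈ U, u ≤ A0) →
    ∀ z : ℕ, ∀ A ⊆ (SI X b).filter (fun n => ∀ u ∈ U, rg (P1 (HH X) (JJ δ X)) u n = 1),
    ∀ n : ℕ, ∑ n' ∈ A, (Gs X z n n' - 1) ≤ C * Om δ X L * (Real.exp (2 / HH X) - 1) := by
  classical
  obtain ⟨C, hC, X1, hub⟩ := ub L A0 δ hδ hδ1
  obtain ⟨X2, hHH⟩ := eventually_atTop.1 (HH_tendsto.eventually_ge_atTop 1)
  obtain ⟨X3, hOm⟩ := Om_lower δ hδ hδ1 L
  refine ⟨C, hC, max (max X1 X2) X3, ?_⟩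
  intro X hX b hb U hU hUA z A hA n
  have hX1 : X1 ≤ X := ((le_max_left _ _).trans (le_max_left _ _)).trans hX
  have hX2 : X2 ≤ X := ((le_max_right _ _).trans (le_max_left _ _)).trans hX
  have hX3 : X3 ≤ X := (le_max_right _ _).trans hX
  have hH1 := hHH X hX2
  have hOm0 : 0 ≤ Om δ X L := by
    have := (hOm X hX3).1
    unfold Om
    positivity
  set S : Finset ℕ := (PZ X z).filter (fun p : ℕ => (p : ℝ) ≤ Real.log X / 20) with hS
  have hSp : ∀ p ∈ S, p.Prime ∧ HH X < p ∧ (p : ℝ) ≤ Real.log X / 20 := by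
    intro p hp
    rw [hS, mem_filter, mem_PZ] at hp
    exact ⟨hp.1.1, hp.1.2.2, hp.2⟩
  have hexp : ∀ n', Gs X z n n' = ∑ D ∈ S.powerset,
      (∏ p ∈ D, 1 / ((p : ℝ) - 1)) * (if ∀ p ∈ D, n' % p = n % p then 1 else 0) := by
    intro n'
    unfold Gs
    rw [← hS]
    have h1 : ∀ p ∈ S.filter (fun p => n % p = n' % p), (1 - 1 / (p : ℝ))⁻¹ = 1 + 1 / ((p : ℝ) - 1) := by
      intro p hp
      have h2 : (2 : ℝ) ≤ p := by exact_mod_cast (hSp p (mem_filter.1 hp).1).1.two_le
      have h3 : (p : ℝ) ≠ 0 := by linarith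
      have h4 : (p : ℝ) - 1 ≠ 0 := by
        have : (0 : ℝ) < (p : ℝ) - 1 := by linarith
        exact this.ne'
      have h5 : 1 - 1 / (p : ℝ) = ((p : ℝ) - 1) / p := by field_simp
      have h6 : 1 + 1 / ((p : ℝ) - 1) = p / ((p : ℝ) - 1) := by
        field_simp
        ring
      rw [h5, h6, inv_div]
    rw [prod_congr rfl h1, prod_one_add]
    have h2 : (S.filter (fun p => n % p = n' % p)).powerset =
        S.powerset.filter (fun D => ∀ p ∈ D, n' % p = n % p) := by
      ext D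
      rw [mem_powerset, mem_filter, mem_powerset]
      constructor
      · intro h
        exact ⟨h.trans (filter_subset _ _), fun p hp => ((mem_filter.1 (h hp)).2).symm⟩
      · rintro ⟨h3, h4⟩ p hp
        exact mem_filter.2 ⟨h3 hp, (h4 p hp).symm⟩
    rw [h2, sum_filter]
    apply sum_congr rfl
    intro D _
    split_ifs <;> simp
  have hsum : ∑ n' ∈ A, Gs X z n n' = ∑ D ∈ S.powerset, (∏ p ∈ D, 1 / ((p : ℝ) - 1)) *
      ((A.filter (fun n' => ∀ p ∈ D, n' % p = n % p)).card : ℝ) := by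
    rw [sum_congr rfl fun n' _ => hexp n', sum_comm]
    apply sum_congr rfl
    intro D _
    rw [← mul_sum, sum_boole]
  have hcnt : ∀ D ∈ S.powerset, ((A.filter (fun n' => ∀ p ∈ D, n' % p = n % p)).card : ℝ) ≤
      C * (Om δ X L * ∏ p ∈ D, (2 / (p : ℝ))) := by
    intro D hD
    rw [mem_powerset] at hD
    refine le_trans ?_ (hub X hX1 b hb U hU hUA D (fun p hp => hSp p (hD hp)) n)
    apply Nat.cast_le.2
    apply card_le_card
    intro n' hn'
    rw [mem_filter] at hn' ⊢
    have h1 := mem_filter.1 (hA hn'.1)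
    exact ⟨h1.1, h1.2, hn'.2⟩
  have hpos : ∀ D ∈ S.powerset, 0 ≤ ∏ p ∈ D, 1 / ((p : ℝ) - 1) := by
    intro D hD
    apply prod_nonneg
    intro p hp
    have h2 : (2 : ℝ) ≤ p := by exact_mod_cast (hSp p (mem_powerset.1 hD hp)).1.two_le
    apply div_nonneg zero_le_one
    linarith
  have hmain : ∑ n' ∈ A, Gs X z n n' ≤ (A.card : ℝ) +
      C * Om δ X L * (∏ p ∈ S, (1 + 2 / ((p : ℝ) * (p - 1))) - 1) := by
    rw [hsum, ← add_sum_erase _ _ (empty_mem_powerset S)]
    apply add_le_add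
    · simp
    · have h1 : ∑ D ∈ S.powerset.erase ∅, (∏ p ∈ D, 1 / ((p : ℝ) - 1)) *
          ((A.filter (fun n' => ∀ p ∈ D, n' % p = n % p)).card : ℝ) ≤
          ∑ D ∈ S.powerset.erase ∅, C * Om δ X L * ∏ p ∈ D, (2 / ((p : ℝ) * (p - 1))) := by
        apply sum_le_sum
        intro D hD
        have hD' := mem_of_mem_erase hD
        calc (∏ p ∈ D, 1 / ((p : ℝ) - 1)) *
            ((A.filter (fun n' => ∀ p ∈ D, n' % p = n % p)).card : ℝ) ≤
            (∏ p ∈ D, 1 / ((p : ℝ) - 1)) * (C * (Om δ X L * ∏ p ∈ D, (2 / (p : ℝ)))) :=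
              mul_le_mul_of_nonneg_left (hcnt D hD') (hpos D hD')
          _ = C * Om δ X L * ((∏ p ∈ D, 1 / ((p : ℝ) - 1)) * ∏ p ∈ D, (2 / (p : ℝ))) := by ring
          _ = _ := by
              rw [← prod_mul_distrib]
              congr 1
              apply prod_congr rfl
              intro p _
              rw [div_mul_div_comm, one_mul, mul_comm ((p : ℝ) - 1)]
      refine h1.trans (le_of_eq ?_)
      rw [← mul_sum]
      congr 1
      have h2 := add_sum_erase S.powerset (fun D => ∏ p ∈ D, (2 / ((p : ℝ) * (p - 1))))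
        (empty_mem_powerset S)
      rw [prod_one_add, ← h2]
      simp
  have hprod : ∏ p ∈ S, (1 + 2 / ((p : ℝ) * (p - 1))) ≤ Real.exp (2 / HH X) := by
    calc ∏ p ∈ S, (1 + 2 / ((p : ℝ) * (p - 1))) ≤ ∏ p ∈ S, Real.exp (2 / ((p : ℝ) * (p - 1))) := by
          apply Finset.prod_le_prod
          · intro p hp
            have h2 : (2 : ℝ) ≤ p := by exact_mod_cast (hSp p hp).1.two_le
            have : 0 ≤ 2 / ((p : ℝ) * (p - 1)) := by
              apply div_nonneg (by norm_num)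
              apply mul_nonneg <;> linarith
            linarith
          · intro p _
            have := Real.add_one_le_exp (2 / ((p : ℝ) * (p - 1)))
            linarith
      _ = Real.exp (∑ p ∈ S, 2 / ((p : ℝ) * (p - 1))) := (Real.exp_sum _ _).symm
      _ ≤ Real.exp (2 / HH X) := by
          apply Real.exp_le_exp.2
          have h1 := tail_sum (HH X) hH1 S (fun p hp => (hSp p hp).2.1)
          calc ∑ p ∈ S, 2 / ((p : ℝ) * (p - 1)) = 2 * ∑ p ∈ S, 1 / ((p : ℝ) * (p - 1)) := by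
                rw [mul_sum]
                apply sum_congr rfl
                intro p _
                ring
            _ ≤ 2 * (1 / HH X) := mul_le_mul_of_nonneg_left h1 (by norm_num)
            _ = _ := by ring
  rw [sum_sub_distrib, sum_const, nsmul_eq_mul, mul_one]
  have h1 : C * Om δ X L * (∏ p ∈ S, (1 + 2 / ((p : ℝ) * (p - 1))) - 1) ≤
      C * Om δ X L * (Real.exp (2 / HH X) - 1) := by
    apply mul_le_mul_of_nonneg_left _ (by positivity)
    linarith
  linarith

theorem gsum (L A0 : ℕ) (δ c η : ℝ) (hδ : 0 < δ) (hδ1 : δ ≤ 1) (hc : 0 < c) (hη : 0 < η) :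
    ∃ X₀ : ℕ, ∀ X : ℕ, X₀ ≤ X → ∀ b : ℕ, b < Wm X → ∀ U : Finset ℕ, U.card = L →
    (∀ u ∈ U, u ≤ A0) → ∀ z : ℕ,
    ∀ A ⊆ (SI X b).filter (fun n => ∀ u ∈ U, rg (P1 (HH X) (JJ δ X)) u n = 1),
    c * Om δ X L ≤ (A.card : ℝ) →
    ∑ n ∈ A, ∑ n' ∈ A.erase n, (Gk X z n n' - 1) ≤ η * (A.card : ℝ) ^ 2 := by
  classical
  obtain ⟨C, hC, X1, hs⟩ := Gs_sum L A0 δ hδ hδ1
  set η1 : ℝ := min (η / 2) 1 with hη1
  have hη10 : 0 < η1 := by rw [hη1]; positivity
  obtain ⟨X2, hb'⟩ := Gb_le η1 hη10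
  have ht : Tendsto (fun X : ℕ => C / c * (Real.exp (2 / (HH X : ℝ)) - 1)) atTop (𝓝 0) := by
    have h1 : Tendsto (fun X : ℕ => 2 / (HH X : ℝ)) atTop (𝓝 0) :=
      (tendsto_natCast_atTop_atTop.comp HH_tendsto).const_div_atTop 2
    have h2 : Tendsto (fun X : ℕ => Real.exp (2 / (HH X : ℝ))) atTop (𝓝 (Real.exp 0)) :=
      (Real.continuous_exp.tendsto 0).comp h1
    have h3 := (h2.sub_const 1).const_mul (C / c)
    simpa using h3
  obtain ⟨X3, h3⟩ := eventually_atTop.1 (ht.eventually (gt_mem_nhds (show (0 : ℝ) < η / 4 by positivity)))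
  refine ⟨max (max X1 X2) X3, ?_⟩
  intro X hX b hb U hU hUA z A hA hcA
  have hX1 : X1 ≤ X := ((le_max_left _ _).trans (le_max_left _ _)).trans hX
  have hX2 : X2 ≤ X := ((le_max_right _ _).trans (le_max_left _ _)).trans hX
  have hX3 : X3 ≤ X := (le_max_right _ _).trans hX
  have hsmall := h3 X hX3
  have hAX : ∀ n ∈ A, X ≤ n ∧ n < 2 * X := by
    intro n hn
    have h1 := (mem_filter.1 (hA hn)).1
    rw [mem_SI] at h1
    exact ⟨h1.1, h1.2.1⟩
  have hA0 : (0 : ℝ) ≤ A.card := by positivity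
  have hexp1 : 0 ≤ Real.exp (2 / (HH X : ℝ)) - 1 := by
    have := Real.add_one_le_exp (2 / (HH X : ℝ))
    have h2 : 0 ≤ 2 / (HH X : ℝ) := by positivity
    linarith
  have hinner : ∀ n ∈ A, ∑ n' ∈ A.erase n, (Gk X z n n' - 1) ≤ η * A.card := by
    intro n hn
    have hGs1 : ∀ n', 1 ≤ Gs X z n n' := by
      intro n'
      unfold Gs
      apply prod_inv_one
      intro p hp
      exact (mem_PZ.1 (mem_filter.1 (mem_filter.1 hp).1).1).1
    have h4 : ∀ n' ∈ A.erase n, Gk X z n n' - 1 ≤ (1 + η1) * (Gs X z n n' - 1) + η1 := by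
      intro n' hn'
      have hne : n ≠ n' := (ne_of_mem_erase hn').symm
      have h5 := hAX n hn
      have h6 := hAX n' (mem_of_mem_erase hn')
      have h7 := hb' X hX2 z n n' h5.1 h5.2 h6.1 h6.2 hne
      rw [Gk_eq]
      have h8 := hGs1 n'
      calc Gs X z n n' * Gb X z n n' - 1 ≤ Gs X z n n' * (1 + η1) - 1 := by
            have := mul_le_mul_of_nonneg_left h7 (by linarith : 0 ≤ Gs X z n n')
            linarith
        _ = _ := by ring
    have h5 := hs X hX1 b hb U hU hUA z A hA n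
    have h6 : C * Om δ X L * (Real.exp (2 / HH X) - 1) ≤ η / 4 * A.card := by
      calc C * Om δ X L * (Real.exp (2 / HH X) - 1) =
          C / c * (Real.exp (2 / HH X) - 1) * (c * Om δ X L) := by
            field_simp
        _ ≤ C / c * (Real.exp (2 / HH X) - 1) * A.card :=
            mul_le_mul_of_nonneg_left hcA (by positivity)
        _ ≤ _ := mul_le_mul_of_nonneg_right hsmall.le hA0
    have hη11 : η1 ≤ 1 := min_le_right _ _
    have hη12 : η1 ≤ η / 2 := min_le_left _ _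
    calc ∑ n' ∈ A.erase n, (Gk X z n n' - 1) ≤
        ∑ n' ∈ A.erase n, ((1 + η1) * (Gs X z n n' - 1) + η1) := sum_le_sum h4
      _ ≤ ∑ n' ∈ A, ((1 + η1) * (Gs X z n n' - 1) + η1) := by
          apply sum_le_sum_of_subset_of_nonneg (erase_subset _ _)
          intro n' _ _
          have h8 := hGs1 n'
          have : 0 ≤ (1 + η1) * (Gs X z n n' - 1) := mul_nonneg (by linarith) (by linarith)
          linarith
      _ = (1 + η1) * ∑ n' ∈ A, (Gs X z n n' - 1) + η1 * A.card := by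
          rw [sum_add_distrib, ← mul_sum, sum_const, nsmul_eq_mul]
          ring
      _ ≤ (1 + η1) * (η / 4 * A.card) + η / 2 * A.card := by
          apply add_le_add
          · exact mul_le_mul_of_nonneg_left (h5.trans h6) (by linarith)
          · exact mul_le_mul_of_nonneg_right hη12 hA0
      _ ≤ η * A.card := by
          have : 0 ≤ η / 4 * A.card := by positivity
          nlinarith
  calc ∑ n ∈ A, ∑ n' ∈ A.erase n, (Gk X z n n' - 1) ≤ ∑ _n ∈ A, η * A.card := sum_le_sum hinner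
    _ = η * (A.card : ℝ) ^ 2 := by
        rw [sum_const, nsmul_eq_mul]
        ring

end Pool.Agent.TH882.PC
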