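import Pool.Agent.H361R2.PP.Asm2

/-! The fourth moment over the integers `n` with `n + a` prime. -/

set_option autoImplicit false

open Finset Filter Topology

namespace Pool.Agent.TH882.IS

open Pool.Agent.H361R2.PP
open Pool.Agent.H410R2
open Pool.Agent.H862R2.PPSm5

/-- the fourth moment over the integers `n` with `n + a` prime -/
def SM4P : Prop := ∀ (t : ℕ) (u : Fin t → ℝ) (c0 Λ θ s : ℝ), (∀ τ, 0 < u τ) → ∑ τ, u τ ≤ θ / 2 →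
  0 < θ → θ ≤ 1 / 32 → 1 ≤ c0 → 0 < Λ → 0 < s → ∃ δ₀ : ℝ, 0 < δ₀ ∧ ∀ δ : ℝ, 0 < δ → δ ≤ δ₀ →
  ∃ (C : ℝ) (X₀ : ℕ), 0 < C ∧ ∀ X : ℕ, X₀ ≤ X → ∀ b : ℕ, b < Wm X → ∀ D : Dat t u c0 δ X,
  ∀ B ⊆ BB X b ⌊Λ * Real.log X⌋₊, ∀ c : (Fin t → Option ℕ) → ℝ, (∀ σ, |c σ| ≤ c0) →
    ∀ a ∈ BB X b ⌊Λ * Real.log X⌋₊ \ B,
      ∑ n ∈ SP X b a, AC.WW B c (xx D n) ^ 4 ≤ C * (Pr X / Nat.totient (Wm X))

theorem sm4P_of : Sm2 → Sm4 → EqInt → EqPrime → Mer → Mrv → Gbd → Wtx → Cnt → SM4P := by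
  intro hSm2 hSm4 hInt hPrime hMer _ hGbd hW hCnt
  intro t u c0 Λ θ s hu hsum hθ hθ1 hc0 hΛ hs
  obtain ⟨K, hK, h4⟩ := sm4_body hSm4 t 1 c0 le_rfl hc0
  obtain ⟨Cm, hCm, hMer⟩ := hMer
  obtain ⟨Cg, hCg, hGbd⟩ := hGbd 1
  obtain ⟨cv, hcv, hcv1, hvv⟩ := vv_lower
  set M : ℕ := Cg + ⌈2 * Λ * Cm⌉₊ with hMdef
  have hM : 1 ≤ M := by omega
  have hMr : (1 : ℝ) ≤ M := by exact_mod_cast hM
  have hM0 : (0 : ℝ) < M := by linarith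
  have hMC : 2 * Λ * Cm ≤ M := by
    rw [hMdef]
    push_cast
    have := Nat.le_ceil (2 * Λ * Cm)
    have h2 : (0 : ℝ) ≤ Cg := Nat.cast_nonneg Cg
    linarith
  have hc00 : 0 < c0 := by linarith
  obtain ⟨δ₀, hδ₀, hδ₀8, hδ⟩ := choose_delta K M θ (s / 3) (c0 ^ (2 * t + 2)) hK hM hθ
    (by positivity) (by positivity)
  refine ⟨δ₀, hδ₀, fun δ hδ0 hδle => ?_⟩
  obtain ⟨b, hKb, hδb, hb⟩ := hδ δ hδ0 hδle
  have hδ8 : δ ≤ 1 / 8 := hδle.trans hδ₀8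
  have hδ1 : δ ≤ 1 := by linarith
  set V : ℝ := (δ / M) ^ M with hV
  have hV0 : 0 < V := by positivity
  have hV1 : V ≤ 1 := by
    apply pow_le_one₀ (by positivity)
    rw [div_le_one hM0]
    linarith
  have hVinv : 1 / V = ((M : ℝ) / δ) ^ M := by
    rw [hV, div_pow, div_pow]
    field_simp
  obtain ⟨d, hd0, hd1, hd⟩ := choose_d K (c0 ^ (2 * t + 2) * (K / V ^ K)) (s / 3)
    (by positivity) (by positivity)
  obtain ⟨X₁, h1⟩ := hSm2 (4 * t + 2) Λ d hΛ hd0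
  obtain ⟨X₂, h2⟩ := hMer δ hδ0 hδ1
  obtain ⟨X₃, h3⟩ := hGbd δ hδ0 hδ8
  obtain ⟨X₄, hw⟩ := hW.2 δ hδ0 hδ1
  obtain ⟨X₅, h5⟩ := hCnt 1 Λ Λ one_pos hΛ hΛ
  obtain ⟨X₆, h6⟩ := hInt K (4 * t + 6) θ hθ
  obtain ⟨X₇, h7⟩ := hPrime K (4 * t + 6) θ Λ hθ hΛ
  have hev : ∀ᶠ X : ℕ in atTop, (max K 2 ≤ HH X) ∧ (Λ * Real.log X ≤ X) ∧
      (2 < (X : ℝ) ^ (δ / 2)) ∧
      (∀ (k J : ℕ), (k : ℝ) ≤ Λ * Real.log X → (J : ℝ) + 2 ≤ 4 * Real.log X →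
      1 ≤ Real.log X ∧
      c0 ^ (2 * t + 2) * (K / V ^ K) *
        (((k : ℝ) + 1) ^ (4 * t + 2) * (((J : ℝ) + 2) * (1 / Real.log X ^ (4 * t + 6)))) ≤
        (s / 3 * cv) / Real.log X) ∧
      (∀ (k J : ℕ), (k : ℝ) ≤ Λ * Real.log X → (J : ℝ) + 2 ≤ 4 * Real.log X →
      1 ≤ Real.log X ∧
      1 * (((k : ℝ) + 1) ^ (4 * t + 2) * (((J : ℝ) + 2) * (1 / Real.log X ^ (4 * t + 6)))) ≤
        1 / Real.log X) := by
    have e1 := HH_tendsto.eventually_ge_atTop (max K 2)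
    have e2 := logs_small Λ
    have e3 : ∀ᶠ X : ℕ in atTop, 2 < (X : ℝ) ^ (δ / 2) :=
      ((tendsto_rpow_atTop (by positivity : 0 < δ / 2)).comp
        tendsto_natCast_atTop_atTop).eventually_gt_atTop 2
    have e4 := absorb t Λ (c0 ^ (2 * t + 2) * (K / V ^ K)) (s / 3 * cv) hΛ (by positivity)
      (by positivity)
    have e5 := absorb t Λ 1 1 hΛ (by norm_num) one_pos
    filter_upwards [e1, e2, e3, e4, e5] with X a1 a2 a3 a4 a5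
    exact ⟨a1, a2, a3, a4, a5⟩
  obtain ⟨X₈, h8⟩ := Filter.eventually_atTop.1 hev
  refine ⟨c0 ^ (4 * t + 4) * ((K / V) ^ K * 2 ^ (4 * t * ⌊4 / δ⌋₊)) * 2,
    max 16 (max X₁ (max X₂ (max X₃ (max X₄ (max X₅ (max X₆ (max X₇ X₈))))))), by positivity, ?_⟩
  intro X hX b0 hb0 D B hB c hc
  simp only [max_le_iff] at hX
  obtain ⟨hX16, hX1, hX2, hX3, hX4, hX5, hX6, hX7, hX8⟩ := hX
  obtain ⟨hHH, hΛX, hrp, hab, hab4⟩ := h8 X hX8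
  obtain ⟨hw1, hw2, hw3⟩ := hw X hX4
  obtain ⟨hVV0, hVVC, _⟩ := h2 X hX2
  have hXr : (16 : ℝ) ≤ X := by exact_mod_cast hX16
  have hL0 : 0 < Real.log X := Real.log_pos (by linarith)
  have hKH : K ≤ HH X := (le_max_left _ _).trans hHH
  have h2H : 2 ≤ HH X := (le_max_right _ _).trans hHH
  have hJ : 1 ≤ JJ δ X := by
    by_contra h
    have h0 : JJ δ X = 0 := by omega
    rw [h0] at hw2
    norm_num at hw2
    linarith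
  have hJ4 : (JJ δ X : ℝ) + 2 ≤ 4 * Real.log X := JJ_le hδ1 hX16 hw1
  have hVVlow : cv / Real.log X ≤ VV δ X := hvv X δ hδ0 hδ1 hX16 h2H hw1 hw3
  have hVVn := vv_nonneg δ X
  have hVV1 := vv_le_one δ X
  have hPi : ∏ p ∈ P2 (JJ δ X) X, (1 + (1 : ℝ) / ((p : ℝ) - 1)) ≤ 1 / V := by
    have h10 := h3 X hX3
    rw [Nat.cast_one] at h10
    refine h10.trans ?_
    rw [hVinv]
    have hCgr : (1 : ℝ) ≤ Cg := by exact_mod_cast hCg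
    have h11 : (1 : ℝ) ≤ Cg / δ := by
      rw [le_div_iff₀ hδ0]
      linarith
    have h12 : (Cg : ℝ) / δ ≤ M / δ := by
      apply div_le_div_of_nonneg_right _ hδ0.le
      rw [hMdef]
      push_cast
      have : (0 : ℝ) ≤ (⌈2 * Λ * Cm⌉₊ : ℝ) := Nat.cast_nonneg _
      linarith
    calc ((Cg : ℝ) / δ) ^ Cg ≤ ((Cg : ℝ) / δ) ^ M := pow_le_pow_right₀ h11 (by omega)
      _ ≤ ((M : ℝ) / δ) ^ M := pow_le_pow_left₀ (by positivity) h12 _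
  have hBBc : ((BB X b0 ⌊Λ * Real.log X⌋₊).card : ℝ) ≤
      2 * (Λ * Real.log X * (Nat.totient (Wm X) / Wm X)) := by
    have h10 := h5 X hX5 b0 0 (Λ * Real.log X) le_rfl (by linarith) le_rfl
    have h11 : (BB X b0 ⌊Λ * Real.log X⌋₊).filter
        (fun a : ℕ => (0 : ℝ) < a ∧ (a : ℝ) ≤ Λ * Real.log X) = BB X b0 ⌊Λ * Real.log X⌋₊ := by
      apply Finset.filter_true_of_mem
      intro a ha
      have h12 := Finset.mem_Icc.1 (Finset.mem_filter.1 ha).1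
      refine ⟨by exact_mod_cast h12.1, (Nat.le_floor_iff (by positivity)).1 h12.2⟩
    rw [h11, sub_zero, one_mul] at h10
    have h13 := (abs_le.1 h10).2
    linarith
  have hBV : ((BB X b0 ⌊Λ * Real.log X⌋₊).card : ℝ) * VV δ X ≤ 1 / V := by
    have h10 : ((BB X b0 ⌊Λ * Real.log X⌋₊).card : ℝ) * VV δ X ≤
        2 * (Λ * Real.log X * (Nat.totient (Wm X) / Wm X)) * VV δ X :=
      mul_le_mul_of_nonneg_right hBBc hVVn
    have h11 : 2 * (Λ * Real.log X * (Nat.totient (Wm X) / Wm X)) * VV δ X =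
        2 * Λ / δ * (VV δ X * ((Nat.totient (Wm X) : ℝ) / Wm X) * (δ * Real.log X)) := by
      field_simp
    have h12 : 2 * Λ / δ * (VV δ X * ((Nat.totient (Wm X) : ℝ) / Wm X) * (δ * Real.log X)) ≤
        2 * Λ / δ * Cm := mul_le_mul_of_nonneg_left hVVC (by positivity)
    have h13 : 2 * Λ / δ * Cm ≤ M / δ := by
      rw [div_mul_eq_mul_div]
      exact div_le_div_of_nonneg_right hMC hδ0.le
    have h14 : (M : ℝ) / δ ≤ ((M : ℝ) / δ) ^ M := by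
      apply le_self_pow₀
      · rw [le_div_iff₀ hδ0]
        linarith
      · omega
    rw [hVinv]
    linarith
  have hcard : ∀ B' ⊆ BB X b0 ⌊Λ * Real.log X⌋₊, (B'.card : ℝ) ≤ Λ * Real.log X := by
    intro B' hB'
    have h10 : B'.card ≤ ⌊Λ * Real.log X⌋₊ := by
      calc B'.card ≤ (BB X b0 ⌊Λ * Real.log X⌋₊).card := Finset.card_le_card hB'
        _ ≤ (Icc 1 ⌊Λ * Real.log X⌋₊).card := Finset.card_filter_le _ _
        _ = ⌊Λ * Real.log X⌋₊ := by rw [Nat.card_Icc]; omega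
    exact (Nat.le_floor_iff (by positivity)).1 h10
  -- the key statement
  have key : ∀ (o : Option ℕ) (S : Finset ℕ) (Ω : ℝ) (Er : Finset ℕ → ℝ), (∀ n ∈ S, n < 2 * X) →
      0 ≤ Ω → Eqd o ((PX X).filter (fun p : ℕ => (p : ℝ) ≤ (X : ℝ) ^ (1 / 2 : ℝ))) S Ω Er →
      ∑ D ∈ (PX X).powerset.filter
        (fun D : Finset ℕ => ∏ p ∈ D, (p : ℝ) ≤ (X : ℝ) ^ (1 / 2 - θ)),
        (K : ℝ) ^ D.card * Er D ≤ Ω / Real.log X ^ (4 * t + 6) →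
      ∀ B' ⊆ BB X b0 ⌊Λ * Real.log X⌋₊,
      (∀ a ∈ o, 1 ≤ a ∧ (a : ℝ) ≤ Λ * Real.log X ∧ a ∉ B') →
      |∑ n ∈ S, AC.WW B' c (xx D n) ^ 2 - Ω * ZZ D B' c| ≤ s * Ω ∧
      (∀ a ∈ B', |∑ n ∈ S, (spec δ θ X a n * AC.WW (B'.erase a) c (xx D n)) ^ 2 -
        Ω * (VV δ X * AC.GG (S1 δ θ X) * ZZ D (B'.erase a) c)| ≤ s * (Ω * VV δ X)) ∧
      ∑ n ∈ S, AC.WW B' c (xx D n) ^ 4 ≤
        c0 ^ (4 * t + 4) * ((K / V) ^ K * 2 ^ (4 * t * ⌊4 / δ⌋₊)) * 2 * Ω := by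
    intro o S Ω Er hS hΩ hEq hEs B' hB' ho
    have hcore := core_pt h4 hu hsum hθ hθ1 hδ0 hδ8 hKb hδb hV0 hV1 hd1 hX16 hKH hw1 hw2 hw3 hJ
      hPi hBV hΛ hΛX (fun P hP U hU hU' o ho => h1 X hX1 P hP U hU hU' o ho) hS hΩ hEq hEs D hB' ho
      c hc
    obtain ⟨hL1, hab1⟩ := hab B'.card (JJ δ X) (hcard B' hB') hJ4
    obtain ⟨_, hab2⟩ := hab4 B'.card (JJ δ X) (hcard B' hB') hJ4
    have hΩV : Ω * (cv / Real.log X) ≤ Ω * VV δ X := mul_le_mul_of_nonneg_left hVVlow hΩ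
    have hΩV1 : Ω * VV δ X ≤ Ω := by nlinarith
    refine ⟨hcore.1.trans ?_, fun a ha => (hcore.2.1 a ha).trans ?_, hcore.2.2.trans ?_⟩
    · have := ef_le hc00.le hV0 hs hΩ hΩ hb hd hab1 (hΩV.trans hΩV1) hL0
      linarith
    · have := ef_le hc00.le hV0 hs hΩ (mul_nonneg hΩ hVVn) hb hd hab1 hΩV hL0
      linarith
    · have h10 := four_le hΩ hL1 hab2
      calc c0 ^ (4 * t + 4) * ((K / V) ^ K * 2 ^ (4 * t * ⌊4 / δ⌋₊) *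
          (Ω + ((B'.card : ℝ) + 1) ^ (4 * t) * (((JJ δ X : ℝ) + 2) *
            (Ω / Real.log X ^ (4 * t + 6)))))
          ≤ c0 ^ (4 * t + 4) * ((K / V) ^ K * 2 ^ (4 * t * ⌊4 / δ⌋₊) * (2 * Ω)) := by
            gcongr
        _ = _ := by ring
  have hSP : ∀ a, ∀ n ∈ SP X b0 a, n < 2 * X := fun a n hn =>
    (Finset.mem_Ico.1 (Finset.mem_filter.1 hn).1).2
  have hΩP : (0 : ℝ) ≤ Pr X / Nat.totient (Wm X) := by
    unfold Pr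
    positivity
  intro a ha
  rw [Finset.mem_sdiff] at ha
  obtain ⟨Er', hEq', hEs'⟩ := h7 X hX7 b0 hb0 a ha.1
  have h12 := Finset.mem_Icc.1 (Finset.mem_filter.1 ha.1).1
  exact (key (some a) (SP X b0 a) (Pr X / Nat.totient (Wm X)) Er' (hSP a) hΩP hEq' hEs' B
    hB (by
      intro a' ha'
      rw [Option.mem_def, Option.some.injEq] at ha'
      subst ha'
      exact ⟨h12.1, (Nat.le_floor_iff (by positivity)).1 h12.2, ha.2⟩)).2.2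

theorem sm4P : SM4P :=
  sm4P_of Pool.Agent.H804R2.PPSm2.sm2 sm4_final Pool.Agent.H20R2.eqInt
    Pool.Agent.H96R2.EQP.eqPrime (Pool.Agent.H488R2.mer Pool.Agent.H325R2.wtx)
    (Pool.Agent.H488R2.mrv Pool.Agent.H325R2.wtx) (Pool.Agent.H488R2.gbd Pool.Agent.H325R2.wtx)
    Pool.Agent.H325R2.wtx Pool.Agent.H363R2.PPCnt.cnt

end Pool.Agent.TH882.IS
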