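import Pool.Agent.TH882.I1

/-! Isolated primes in a class: one class. -/

set_option autoImplicit false

open Finset

namespace Pool.Agent.TH882.IS

open Pool.Agent.H361R2.PP
open Pool.Agent.H410R2.AC (wt GG cfg term WW pos Inj coef)

section

variable {t : ℕ} {u : Fin t → ℝ} {c0 δ : ℝ} {X : ℕ} {Λ θ s C η c : ℝ} {b : ℕ}
    {β : Fin t → ℝ} {D : Dat t u c0 δ X}

/-- one forced prime, one further prime -/
theorem F2 (hCol : Col) (hCob : Cob) (hMni : Mni) (h : Sit Λ θ s C η c b β D) (hX : 1 ≤ X)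
    (hθ : θ ≤ 1 / 32) {a0 a : ℕ} (ha0 : a0 ∈ BB X b ⌊Λ * Real.log X⌋₊)
    (ha : a ∈ (BB X b ⌊Λ * Real.log X⌋₊).erase a0) (hcf : D.cf a = -1) :
    ∑ n ∈ (SP X b a0).filter (fun n => (n + a).Prime),
        WW ((BB X b ⌊Λ * Real.log X⌋₊).erase a0) (fun _ => 1) (xx D n) ^ 2 ≤
      Pr X / Nat.totient (Wm X) * (VV δ X / GG (S1 δ θ X)) *
        ((η + s) * ZZ D ((BB X b ⌊Λ * Real.log X⌋₊).erase a0) (fun _ => 1)) := by
  set BBB := BB X b ⌊Λ * Real.log X⌋₊ with hBBB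
  set B := BBB.erase a0 with hB
  have haB : a ∈ BBB := mem_of_mem_erase ha
  have hane : a ≠ a0 := ne_of_mem_erase ha
  have ha1 : 1 ≤ a := (mem_BB.1 haB).1
  have hc := h.c00
  have hs := h.s0
  set G := GG (S1 δ θ X) with hG
  have hG1 : 1 ≤ G := GG1_ge hX hθ
  have hGy : ∀ y : ℝ, y ^ 2 = 1 / G ^ 2 * (G * y) ^ 2 := by
    intro y
    have : G ≠ 0 := by linarith
    field_simp
  have hcob := (hCob t β h.β0 h.β1)
  set B' := B.erase a with hB'
  have hB's : B' ⊆ B := erase_subset _ _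
  have hB'' : B' ⊆ BBB := hB's.trans (erase_subset _ _)
  have hco : co1 (-1) β = coef β := by
    funext σ
    exact (hcob.1 σ).1
  have hc0 : ∀ σ, |coef β σ| ≤ c0 := by
    intro σ
    obtain ⟨-, h1, h2⟩ := hcob.1 σ
    rw [abs_of_nonneg h1]
    have := h.cc0
    nlinarith
  have h1 : ∑ n ∈ (SP X b a0).filter (fun n => (n + a).Prime), WW B (fun _ => 1) (xx D n) ^ 2 ≤
      1 / G ^ 2 * ∑ n ∈ SP X b a0, (spec δ θ X a n * WW B' (coef β) (xx D n)) ^ 2 := by
    rw [mul_sum]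
    calc ∑ n ∈ (SP X b a0).filter (fun n => (n + a).Prime), WW B (fun _ => 1) (xx D n) ^ 2 =
        ∑ n ∈ (SP X b a0).filter (fun n => (n + a).Prime),
          1 / G ^ 2 * (spec δ θ X a n * WW B' (coef β) (xx D n)) ^ 2 := by
          refine sum_congr rfl fun n hn => ?_
          rw [mem_filter, mem_SP] at hn
          rw [(hCol t B β (xx D n) D.cf).1 a ha (fun τ => xx_prime h hn.1.1 ha1 hn.2 τ), hcf,
            hco, spec_prime h hn.1.1 ha1 hn.2]
          exact hGy _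
      _ ≤ _ := sum_le_sum_of_subset_of_nonneg (filter_subset _ _) fun n _ _ => by positivity
  have h2 := (h.sm B' hB'' (coef β) hc0).2.2.2.1 a0
    (by
      rw [Finset.mem_sdiff]
      exact ⟨ha0, fun h => (mem_erase.1 (mem_erase.1 h).2).1 rfl⟩) a
    (by rw [Finset.mem_sdiff]; exact ⟨haB, notMem_erase a B⟩) hane.symm
  set Ω := Pr X / Nat.totient (Wm X) with hΩ
  have hΩ0 : 0 ≤ Ω := Om'_nonneg X
  have hηB : ∀ τ, ∑ a ∈ B, qq D τ a ≤ η := by
    intro τ
    exact (sum_le_sum_of_subset_of_nonneg (erase_subset _ _)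
      fun x _ _ => qq_nonneg h.v0 τ x).trans (h.hη τ)
  obtain ⟨hM1, -, hM⟩ := hMni t B β (qq D) η h.η0 h.β0 h.β1 (fun τ a => qq_nonneg h.v0 τ a) hηB
  obtain ⟨-, hm2, -, -⟩ := hM B' hB's
  rw [ZZ_one]
  set M := ∑ σ ∈ cfg t B, term (qq D) σ with hMdef
  have hV := h.v0
  have hΩVG : 0 ≤ Ω * (VV δ X * G) :=
    mul_nonneg hΩ0 (mul_nonneg hV (zero_le_one.trans hG1))
  have hup : ZZ D B' (coef β) ≤ η * M := hm2
  have h4 := (abs_le.1 h2).2
  have hM0 : 0 ≤ M := by linarith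
  refine h1.trans ?_
  have h5 : ∑ n ∈ SP X b a0, (spec δ θ X a n * WW B' (coef β) (xx D n)) ^ 2 ≤
      Ω * (VV δ X * G) * ((η + s) * M) := by
    have h6 : s * (Ω * VV δ X) ≤ Ω * (VV δ X * G) * s := by
      have h0 : 0 ≤ s * (Ω * VV δ X) := mul_nonneg hs (mul_nonneg hΩ0 hV)
      calc s * (Ω * VV δ X) = s * (Ω * VV δ X) * 1 := by ring
        _ ≤ s * (Ω * VV δ X) * G := mul_le_mul_of_nonneg_left hG1 h0
        _ = _ := by ring
    have h7 : Ω * (VV δ X * G * ZZ D B' (coef β)) ≤ Ω * (VV δ X * G) * (η * M) := by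
      rw [← mul_assoc]
      exact mul_le_mul_of_nonneg_left hup hΩVG
    have h8 : Ω * (VV δ X * G) * s ≤ Ω * (VV δ X * G) * (s * M) := by
      apply mul_le_mul_of_nonneg_left _ hΩVG
      nlinarith
    have h9 : Ω * (VV δ X * G) * ((η + s) * M) =
      Ω * (VV δ X * G) * (η * M) + Ω * (VV δ X * G) * (s * M) := by
      ring
    rw [h9]
    linarith
  calc 1 / G ^ 2 * ∑ n ∈ SP X b a0, (spec δ θ X a n * WW B' (coef β) (xx D n)) ^ 2
      ≤ 1 / G ^ 2 * (Ω * (VV δ X * G) * ((η + s) * M)) :=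
        mul_le_mul_of_nonneg_left h5 (by positivity)
    _ = _ := by
        have : G ≠ 0 := by linarith
        field_simp

/-- the weighted number of isolated primes in one class -/
theorem isoC (hCol : Col) (hCob : Cob) (hMni : Mni) (hCs : Cs)
    (h : Sit Λ θ s C η c b β D) (hX : 1 ≤ X)
    (hHX : HH X < X) (hL : 0 < Real.log X) (hθ : θ ≤ 1 / 32) (hΛ : 0 < Λ)
    (hcf : ∀ a, D.cf a = -1)
    (hcB : ((BB X b ⌊Λ * Real.log X⌋₊).card : ℝ) ≤
      (1 + s) * (Λ * Real.log X * (Nat.totient (Wm X) / Wm X)))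
    (hVG : VV δ X / GG (S1 δ θ X) * (((Nat.totient (Wm X) : ℝ) / Wm X) *
      ((1 / 4 - 3 * θ) * Real.log X)) ≤ 1)
    (hsΛ : s + 20 * Λ * s ≤ 1 / 2) (hPr : 0 < Pr X) {a0 : ℕ}
    (ha0 : a0 ∈ BB X b ⌊Λ * Real.log X⌋₊) (C' : ℝ) (hC' : 0 < C')
    (h4 : ∑ n ∈ SP X b a0, WW ((BB X b ⌊Λ * Real.log X⌋₊).erase a0) (fun _ => 1) (xx D n) ^ 4 ≤
      C' * (Pr X / Nat.totient (Wm X))) :
    Pr X / Nat.totient (Wm X) / (4 * C') ≤ (((SP X b a0).filter (fun n =>
      ∀ a ∈ Icc 1 ⌊Λ * Real.log X⌋₊, (n + a).Prime → a = a0)).card : ℝ) := by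
  classical
  set N := ⌊Λ * Real.log X⌋₊ with hN
  set BBB := BB X b N with hBBB
  set B := BBB.erase a0 with hB
  set M := ZZ D B (fun _ => 1) with hM
  set Ω := Pr X / Nat.totient (Wm X) with hΩ
  set L := Real.log X with hLd
  set f := (Nat.totient (Wm X) : ℝ) / Wm X with hf
  set V : ℕ → ℝ := fun n => WW B (fun _ => 1) (xx D n) with hV
  have hs0 := h.s0
  have hs1 := h.s1
  have hφ0 : (0 : ℝ) < Nat.totient (Wm X) := by exact_mod_cast Nat.totient_pos.2 (Wm_pos X)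
  have hW0 : (0 : ℝ) < Wm X := by exact_mod_cast Wm_pos X
  have hΩ0 : 0 < Ω := div_pos hPr hφ0
  have hf0 : 0 < f := div_pos hφ0 hW0
  have hηB : ∀ τ, ∑ a ∈ B, qq D τ a ≤ η := by
    intro τ
    exact (sum_le_sum_of_subset_of_nonneg (erase_subset _ _)
      fun x _ _ => qq_nonneg h.v0 τ x).trans (h.hη τ)
  have hM1 : 1 ≤ M := by
    rw [hM, ZZ_one]
    exact (hMni t B β (qq D) η h.η0 h.β0 h.β1 (fun τ a => qq_nonneg h.v0 τ a) hηB).1
  have hsm := (h.sm B (erase_subset _ _) (fun _ => 1) (by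
    intro σ
    rw [abs_one]
    have := h.cc0
    have := h.c00
    nlinarith)).2.2.1 a0 (by rw [Finset.mem_sdiff]; exact ⟨ha0, notMem_erase a0 BBB⟩)
  have h1 : Ω * M - s * Ω ≤ ∑ n ∈ SP X b a0, V n ^ 2 := by
    linarith [(abs_le.1 hsm).1]
  set w4 := 1 / 4 - 3 * θ with hw4
  have hw40 : 0 < w4 := by linarith
  set v := VV δ X / GG (S1 δ θ X) with hv
  have hG1 : 1 ≤ GG (S1 δ θ X) := GG1_ge hX hθ
  have hv0 : 0 ≤ v := div_nonneg h.v0 (by linarith)
  have hvL : v * (f * L) ≤ 1 / w4 := by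
    rw [le_div_iff₀ hw40]
    calc v * (f * L) * w4 = v * (f * (w4 * L)) := by ring
      _ ≤ 1 := hVG
  have h2 : ∑ a ∈ B, ∑ n ∈ (SP X b a0).filter (fun n => (n + a).Prime), V n ^ 2 ≤
      (20 * Λ * s) * (Ω * M) := by
    obtain ⟨T, hT⟩ : ∃ T : ℝ, T = Ω * v * ((η + s) * M) := ⟨_, rfl⟩
    have hη0 := h.η0
    have hT0 : 0 ≤ T := by
      rw [hT]
      exact mul_nonneg (mul_nonneg hΩ0.le hv0) (by positivity)
    have h5 : ∑ a ∈ B, ∑ n ∈ (SP X b a0).filter (fun n => (n + a).Prime), V n ^ 2 ≤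
        ∑ a ∈ BBB, T := by
      refine le_trans ?_ (sum_le_sum_of_subset_of_nonneg (erase_subset a0 _) fun _ _ _ => hT0)
      refine sum_le_sum fun a ha => ?_
      rw [hT]
      exact F2 hCol hCob hMni h hX hθ ha0 ha (hcf a)
    refine h5.trans ?_
    rw [sum_const, nsmul_eq_mul]
    refine (mul_le_mul_of_nonneg_right hcB hT0).trans ?_
    have h6 : (1 + s) * (Λ * L * f) * T = (v * (f * L)) * ((1 + s) * Λ * (η + s) * (Ω * M)) := by
      rw [hT]; ring
    rw [h6]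
    have h7 : v * (f * L) ≤ 32 / 5 := by
      refine hvL.trans ?_
      rw [div_le_iff₀ hw40]
      linarith
    have h8 : 0 ≤ (1 + s) * Λ * (η + s) * (Ω * M) := by positivity
    refine (mul_le_mul_of_nonneg_right h7 h8).trans ?_
    have h9 : (1 + s) * (η + s) ≤ 3 * s := in3 hs0 hs1 h.ηs
    have hA0 : 0 ≤ Ω * M := by positivity
    calc 32 / 5 * ((1 + s) * Λ * (η + s) * (Ω * M)) =
        32 / 5 * (Λ * (Ω * M)) * ((1 + s) * (η + s)) := by ring
      _ ≤ 32 / 5 * (Λ * (Ω * M)) * (3 * s) := mul_le_mul_of_nonneg_left h9 (by positivity)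
      _ = 96 / 5 * (Λ * (Ω * M) * s) := by ring
      _ ≤ 20 * (Λ * (Ω * M) * s) := mul_le_mul_of_nonneg_right (by norm_num) (by positivity)
      _ = _ := by ring
  -- the isolated ones
  have h3 : ∑ n ∈ SP X b a0, V n ^ 2 - ∑ a ∈ B, ∑ n ∈ (SP X b a0).filter (fun n => (n + a).Prime),
      V n ^ 2 ≤ ∑ n ∈ (SP X b a0).filter (fun n =>
      ∀ a ∈ Icc 1 N, (n + a).Prime → a = a0), V n ^ 2 := by
    have e1 : ∑ a ∈ B, ∑ n ∈ (SP X b a0).filter (fun n => (n + a).Prime), V n ^ 2 =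
        ∑ n ∈ SP X b a0, ∑ a ∈ B, if (n + a).Prime then V n ^ 2 else 0 := by
      rw [Finset.sum_comm]
      refine sum_congr rfl fun a _ => ?_
      rw [sum_filter]
    rw [e1, ← sum_sub_distrib, sum_filter]
    refine sum_le_sum fun n hn => ?_
    split_ifs with hg
    · have : 0 ≤ ∑ a ∈ B, if (n + a).Prime then V n ^ 2 else 0 :=
        sum_nonneg fun a _ => by split_ifs <;> positivity
      linarith
    · push Not at hg
      obtain ⟨a, ha, hp, hne⟩ := hg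
      rw [mem_Icc] at ha
      have haB : a ∈ B := by
        rw [hB, mem_erase]
        exact ⟨hne, prime_BB hHX (SP_sub hn) ha.1 ha.2 hp⟩
      have e2 : V n ^ 2 ≤ ∑ a ∈ B, if (n + a).Prime then V n ^ 2 else 0 := by
        have e3 := single_le_sum (f := fun a => if (n + a).Prime then V n ^ 2 else 0)
          (fun a _ => by
            by_cases hpa : (n + a).Prime
            · rw [if_pos hpa]; positivity
            · rw [if_neg hpa]) haB
        rw [if_pos hp] at e3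
        exact e3
      linarith
  have h5 : Ω / 2 ≤ ∑ n ∈ (SP X b a0).filter (fun n =>
      ∀ a ∈ Icc 1 N, (n + a).Prime → a = a0), V n ^ 2 := by
    refine le_trans ?_ h3
    have h6 : s * Ω ≤ s * (Ω * M) := by
      apply mul_le_mul_of_nonneg_left _ hs0
      nlinarith
    have h7 : (s + 20 * Λ * s) * (Ω * M) ≤ 1 / 2 * (Ω * M) :=
      mul_le_mul_of_nonneg_right hsΛ (by positivity)
    nlinarith
  have h6 := hCs (SP X b a0) V (fun n => ∀ a ∈ Icc 1 N, (n + a).Prime → a = a0) (Ω / 2) (C' * Ω)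
    (by positivity) (by positivity) h5 h4
  refine le_trans (le_of_eq ?_) (by convert h6)
  field_simp
  norm_num

end

end Pool.Agent.TH882.IS
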