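import Pool.Agent.TH882.I2

/-! Isolated primes in every class. -/

set_option autoImplicit false

open Finset

namespace Pool.Agent.TH882.IS

open Pool.Agent.H361R2.PP
open Pool.Agent.H410R2.AC (wt GG cfg term WW pos Inj coef)

theorem iso_of (hSM : SM) (hSMP : SM4P) (hTy : Pool.Agent.H410R2.AC.Types) (hGGT : GGTypes)
    (hGGS : GGSharp) (hMer : Mer) (hMrv : Mrv) (hCnt : Cnt) (hPnt : PntX) (hCol : Col)
    (hCob : Cob) (hMni : Mni) (hCs : Cs) (hWtx : Wtx) (Λ : ℝ) (hΛ : 0 < Λ) :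
    ∃ c : ℝ, 0 < c ∧ ∃ X₀ : ℕ, ∀ X : ℕ, X₀ ≤ X → ∀ b : ℕ, b < Wm X →
    ∀ a0 ∈ BB X b ⌊Λ * Real.log X⌋₊,
    c * (Pr X / Nat.totient (Wm X)) ≤ (((SP X b a0).filter (fun n =>
      ∀ a ∈ Icc 1 ⌊Λ * Real.log X⌋₊, (n + a).Prime → a = a0)).card : ℝ) := by
  obtain ⟨s, hs⟩ : ∃ s : ℝ, s = 1 / (100 * (Λ + 1)) := ⟨_, rfl⟩
  obtain ⟨θ, hθ⟩ : ∃ θ : ℝ, θ = 1 / 32 := ⟨_, rfl⟩
  have hs0 : 0 < s := by rw [hs]; positivity
  have hθ0 : 0 < θ := by rw [hθ]; norm_num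
  have hθ1 : θ ≤ 1 / 32 := by rw [hθ]
  have hs1 : s ≤ 1 / 100 := by
    rw [hs]
    apply one_div_le_one_div_of_le (by norm_num)
    linarith
  have hsΛ' : Λ * s ≤ 1 / 100 := by
    rw [hs, mul_one_div, div_le_div_iff₀ (by positivity) (by norm_num)]
    linarith
  have hsΛ : s + 20 * Λ * s ≤ 1 / 2 := by linarith
  obtain ⟨c, hcd⟩ : ∃ c : ℝ, c = 0 := ⟨_, rfl⟩
  have hc : 0 ≤ c := by rw [hcd]
  obtain ⟨CT, hCT1, hCT⟩ := hGGT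
  obtain ⟨CM, hCM1, hCM⟩ := hMer
  obtain ⟨η', hη'⟩ : ∃ η' : ℝ, η' = s / 2 / (2 * (1 + c) ^ 2 * Λ * CM) := ⟨_, rfl⟩
  have h1c : (1 : ℝ) ≤ (1 + c) ^ 2 := by nlinarith
  have hη'0 : 0 < η' := by rw [hη']; positivity
  obtain ⟨t, u, β, V₀, hV₀, huβ, hβ1, hu, hty⟩ := hTy CT η' (θ / 2) hCT1 hη'0 (by linarith)
  obtain ⟨δ₀, hδ₀, hsm⟩ := hSM t u ((1 + c) ^ 2) Λ θ s (fun τ => (huβ τ).1) hu hθ0 hθ1 h1c hΛ hs0
  obtain ⟨δ₁, hδ₁, hsm1⟩ := hSMP t u ((1 + c) ^ 2) Λ θ s (fun τ => (huβ τ).1) hu hθ0 hθ1 h1c hΛ hs0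
  obtain ⟨dβ, hdβ0, hdβ⟩ : ∃ d : ℝ, 0 < d ∧ ∀ τ, d ≤ β τ / η' := by
    refine ⟨1 / (∑ τ, η' / β τ + 1), ?_, fun τ => ?_⟩
    · have : 0 ≤ ∑ τ, η' / β τ := sum_nonneg fun τ _ => (div_pos hη'0 (huβ τ).2).le
      positivity
    · have h1 : η' / β τ ≤ ∑ τ, η' / β τ :=
        single_le_sum (f := fun τ => η' / β τ) (fun τ _ => (div_pos hη'0 (huβ τ).2).le)
          (mem_univ τ)
      have h2 : 0 < η' / β τ := div_pos hη'0 (huβ τ).2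
      calc 1 / (∑ τ, η' / β τ + 1) ≤ 1 / (η' / β τ) :=
            one_div_le_one_div_of_le h2 (by linarith)
        _ = β τ / η' := by rw [one_div_div]
  obtain ⟨δ, hδd⟩ : ∃ δ : ℝ, δ = min (min (min δ₀ δ₁) V₀) (min (1 / 8) dβ) := ⟨_, rfl⟩
  have hδ0 : 0 < δ := by
    rw [hδd]
    exact lt_min (lt_min (lt_min hδ₀ hδ₁) hV₀) (lt_min (by norm_num) hdβ0)
  have hδ1 : δ ≤ δ₀ := by
    rw [hδd]; exact (min_le_left _ _).trans ((min_le_left _ _).trans (min_le_left _ _))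
  have hδ1' : δ ≤ δ₁ := by
    rw [hδd]; exact (min_le_left _ _).trans ((min_le_left _ _).trans (min_le_right _ _))
  have hδ2 : δ ≤ V₀ := by rw [hδd]; exact (min_le_left _ _).trans (min_le_right _ _)
  have hδ3 : δ ≤ 1 / 8 := by rw [hδd]; exact (min_le_right _ _).trans (min_le_left _ _)
  have hδ4 : δ ≤ dβ := by rw [hδd]; exact (min_le_right _ _).trans (min_le_right _ _)
  obtain ⟨C, X1, hC, hSMX⟩ := hsm δ hδ0 hδ1
  obtain ⟨C', X1', hC', hSMX'⟩ := hsm1 δ hδ0 hδ1'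
  obtain ⟨X2, hGX⟩ := hCT δ hδ0 hδ3
  obtain ⟨X3, hMX⟩ := hCM δ hδ0 (by linarith)
  obtain ⟨X4, hVX⟩ := hMrv δ (s / ((1 + c) ^ 2 * η' * δ * t + 1)) hδ0 (by linarith)
    (by positivity)
  obtain ⟨X5, hCX⟩ := hCnt s Λ Λ hs0 hΛ hΛ
  obtain ⟨X6, hPX⟩ := hPnt s hs0
  obtain ⟨X7, hWX⟩ := hWtx.2 δ hδ0 (by linarith)
  obtain ⟨X8, hFX⟩ := log_floor (a := 1 / 4 - 2 * θ) (θ := θ) (by linarith) hθ0
  refine ⟨1 / (4 * C'), by positivity,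
    X1 + X1' + X2 + X3 + X4 + X5 + X6 + X7 + X8 + 2, fun X hX => ?_⟩
  have hX2 : 2 ≤ X := by omega
  have hX1 : 1 ≤ X := by omega
  have hXr : (2 : ℝ) ≤ X := by exact_mod_cast hX2
  have hL : 0 < Real.log X := Real.log_pos (by exact_mod_cast hX2)
  obtain ⟨hw1, -, hw3⟩ := hWX X (by omega)
  have hJ : 2 ^ 2 ^ JJ δ X ≤ X := by
    have h1 : (X : ℝ) ^ δ ≤ (X : ℝ) ^ (1 : ℝ) :=
      Real.rpow_le_rpow_of_exponent_le (by exact_mod_cast hX1) (by linarith)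
    rw [Real.rpow_one] at h1
    exact_mod_cast hw1.trans h1
  have hHX : HH X < X := lt_of_lt_of_le hw3 hJ
  obtain ⟨hV0, hM1, hM2⟩ := hMX X (by omega)
  obtain ⟨hF1, hF2⟩ := hFX X (by omega)
  have hPr : 0 < Pr X := by
    have h1 := (abs_le.1 (hPX X (by omega))).1
    have h2 : 0 < Pr X * Real.log X := by nlinarith
    exact pos_of_mul_pos_left h2 hL.le
  intro b hb a0 ha0
  -- families
  obtain ⟨S, hS1, hS2, hS3, hS4⟩ := fam_of (X := X) (T := θ / 2) hδ0 hL (by linarith)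
    (hty δ · · · hδ0 hδ2) (hGX X (by omega))
  have hBcnt : ((BB X b ⌊Λ * Real.log X⌋₊).card : ℝ) ≤
      (1 + s) * (Λ * Real.log X * (Nat.totient (Wm X) / Wm X)) := by
    have h1 := hCX X (by omega) b 0 (Λ * Real.log X) le_rfl (by
      rw [zero_add]) le_rfl
    rw [sub_zero] at h1
    have h2 : (BB X b ⌊Λ * Real.log X⌋₊).filter
        (fun a : ℕ => (0 : ℝ) < a ∧ (a : ℝ) ≤ Λ * Real.log X) = BB X b ⌊Λ * Real.log X⌋₊ := by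
      apply filter_true_of_mem
      intro a ha
      rw [mem_BB] at ha
      refine ⟨by exact_mod_cast ha.1, ?_⟩
      exact (Nat.le_floor_iff (by positivity)).1 ha.2.1
    rw [h2] at h1
    linarith [(abs_le.1 h1).2]
  obtain ⟨D, hsit, hDcf⟩ := sit_of (CM := CM) (X := X) (b := b) (θ := θ) (C := C) hc hs0
    (by linarith) hδ0 hη'0 hΛ (by linarith) hη' (fun τ => (huβ τ).2) hβ1
    (fun τ => hδ4.trans (hdβ τ)) hL S hS1 hS2 hS3 hS4 (fun _ => -1) (fun _ => Or.inr rfl)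
    (fun D B hB c hc => hSMX X (by omega) b hb D B hB c hc) hBcnt hV0 hM1 (hVX X (by omega)) hJ
  have h4 := hSMX' X (by omega) b hb D ((BB X b ⌊Λ * Real.log X⌋₊).erase a0) (erase_subset _ _)
    (fun _ => 1) (by
      intro σ
      rw [abs_one]
      exact h1c) a0 (by rw [mem_sdiff]; exact ⟨ha0, notMem_erase _ _⟩)
  have h5 := isoC hCol hCob hMni hCs hsit hX1 hHX hL hθ1 hΛ (fun a => by rw [hDcf]) hBcnt
    (VG_le hGGS hθ0 hθ1 hX1 hM2 hV0 hF1 hF2) hsΛ hPr ha0 C' hC' h4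
  refine le_trans (le_of_eq ?_) h5
  ring

theorem iso (Λ : ℝ) (hΛ : 0 < Λ) :
    ∃ c : ℝ, 0 < c ∧ ∃ X₀ : ℕ, ∀ X : ℕ, X₀ ≤ X → ∀ b : ℕ, b < Wm X →
    ∀ a0 ∈ BB X b ⌊Λ * Real.log X⌋₊,
    c * (Pr X / Nat.totient (Wm X)) ≤ (((SP X b a0).filter (fun n =>
      ∀ a ∈ Icc 1 ⌊Λ * Real.log X⌋₊, (n + a).Prime → a = a0)).card : ℝ) :=
  iso_of sm sm4P Pool.Agent.H708R2.types (Pool.Agent.H488R2.ggtypes Pool.Agent.H325R2.wtx)
    Pool.Agent.H633R2.ggSharp (Pool.Agent.H488R2.mer Pool.Agent.H325R2.wtx)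
    (Pool.Agent.H488R2.mrv Pool.Agent.H325R2.wtx) Pool.Agent.H363R2.PPCnt.cnt
    Pool.Agent.H325R2.pnt Pool.Agent.H872R2.PPCol.col Pool.Agent.H872R2.PPCol.cob
    Pool.Agent.H433R2.PPMni.mni Pool.Agent.H909R2.cs_holds
    Pool.Agent.H325R2.wtx Λ hΛ

end Pool.Agent.TH882.IS
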