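import Pool.Agent.TH882.FL
import Pool.Agent.W70.HR.Asm0
import Pool.Agent.H20R2.PP.EQI

/-! Upper bounds for the number of rough tuples in residue classes. -/

set_option autoImplicit false

open Finset Filter Topology

namespace Pool.Agent.TH882.UB

open Pool.Agent.H361R2.PP
open Pool.Agent.W70.HR

/-- powers of the logarithm -/
lemma ev_pow (a C : ℝ) (ha : 0 < a) (k : ℕ) : ∃ X₀ : ℕ, ∀ X : ℕ, X₀ ≤ X →
    C * Real.log X ^ k ≤ (X : ℝ) ^ a := by
  have h1 := isLittleO_log_rpow_rpow_atTop (k : ℝ) ha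
  have h2 : ∀ᶠ x : ℝ in atTop, C * Real.log x ^ k ≤ x ^ a := by
    filter_upwards [h1.def (show (0 : ℝ) < 1 / (|C| + 1) by positivity), eventually_ge_atTop (1 : ℝ)]
      with x hx hx1
    have hl : 0 ≤ Real.log x := Real.log_nonneg hx1
    rw [Real.rpow_natCast, Real.norm_of_nonneg (by positivity), Real.norm_of_nonneg (by positivity)] at hx
    have hC : C ≤ |C| + 1 := (le_abs_self C).trans (by linarith)
    calc C * Real.log x ^ k ≤ (|C| + 1) * Real.log x ^ k :=
          mul_le_mul_of_nonneg_right hC (by positivity)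
      _ ≤ (|C| + 1) * (1 / (|C| + 1) * x ^ a) := mul_le_mul_of_nonneg_left hx (by positivity)
      _ = x ^ a := by field_simp
  obtain ⟨x₀, hx₀⟩ := eventually_atTop.1 h2
  exact ⟨⌈x₀⌉₊, fun X hX => hx₀ X ((Nat.le_ceil _).trans (by exact_mod_cast hX))⟩

/-- the residue classes `-u` -/
def cls (U : Finset ℕ) (p : ℕ) : Finset ℕ := U.image (fun u => (p - u % p) % p)

lemma mod_eq_iff {p : ℕ} (hp : 0 < p) (n u : ℕ) : n % p = (p - u % p) % p ↔ p ∣ n + u := by
  have hu : u % p < p := Nat.mod_lt _ hp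
  constructor
  · intro h
    have h1 : n ≡ p - u % p [MOD p] := h
    have h2 : n + u % p ≡ p - u % p + u % p [MOD p] := Nat.ModEq.add_right _ h1
    rw [Nat.sub_add_cancel hu.le] at h2
    have h3 : n + u ≡ n + u % p [MOD p] := Nat.ModEq.add_left _ (Nat.mod_modEq u p).symm
    have h4 : n + u ≡ 0 [MOD p] := (h3.trans h2).trans (by simp [Nat.ModEq])
    exact (Nat.modEq_zero_iff_dvd).1 h4
  · intro h
    have h0 : n + u ≡ 0 [MOD p] := (Nat.modEq_zero_iff_dvd).2 h
    have h3 : n + u ≡ n + u % p [MOD p] := Nat.ModEq.add_left _ (Nat.mod_modEq u p).symm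
    have h4 : n + u % p ≡ (p - u % p) + u % p [MOD p] := by
      rw [Nat.sub_add_cancel hu.le]
      exact (h3.symm.trans h0).trans (by simp [Nat.ModEq])
    exact Nat.ModEq.add_right_cancel' _ h4

lemma notMem_cls {p : ℕ} (hp : 0 < p) (U : Finset ℕ) (n : ℕ) :
    n % p ∉ cls U p ↔ ∀ u ∈ U, ¬ p ∣ n + u := by
  unfold cls
  rw [mem_image]
  push Not
  constructor
  · intro h u hu hd
    exact h u hu ((mod_eq_iff hp n u).2 hd).symm
  · intro h u hu he
    exact h u hu ((mod_eq_iff hp n u).1 he.symm)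

lemma card_cls {p : ℕ} (hp : 0 < p) (U : Finset ℕ) (hU : ∀ u ∈ U, u < p) :
    (cls U p).card = U.card := by
  unfold cls
  apply card_image_of_injOn
  intro u hu v hv h
  have hu' := hU u hu
  have hv' := hU v hv
  simp only at h
  rw [Nat.mod_eq_of_lt hu', Nat.mod_eq_of_lt hv'] at h
  rcases Nat.eq_zero_or_pos u with h0 | h0 <;> rcases Nat.eq_zero_or_pos v with h1 | h1
  · omega
  · rw [h0, Nat.sub_zero, Nat.mod_self, Nat.mod_eq_of_lt (by omega)] at h
    omega
  · rw [h1, Nat.sub_zero, Nat.mod_self, Nat.mod_eq_of_lt (by omega)] at h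
    omega
  · rw [Nat.mod_eq_of_lt (by omega), Nat.mod_eq_of_lt (by omega)] at h
    omega

lemma rg_one {P : Finset ℕ} {a n : ℕ} : rg P a n = 1 ↔ ∀ p ∈ P, ¬ p ∣ n + a := by
  unfold rg
  split_ifs with h
  · simpa using h
  · simp only [zero_ne_one, false_iff]
    exact h

/-- chinese remainders -/
lemma crt (D T : Finset ℕ) (hD : ∀ p ∈ D, p.Prime) (hT : ∀ p ∈ T, p.Prime) (hd : Disjoint D T)
    (r : ℕ) (c : ℕ → ℕ) :
    ∃ r' : ℕ, (∀ p ∈ D, r' % p = r % p) ∧ ∀ p ∈ T, r' % p = c p % p := by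
  classical
  have hpp : ∀ p ∈ D ∪ T, p.Prime := by
    intro p hp
    rcases mem_union.1 hp with h | h
    · exact hD p h
    · exact hT p h
  obtain ⟨k, hk⟩ := Nat.chineseRemainderOfFinset (fun p => if p ∈ D then r else c p) (fun p => p)
    (D ∪ T) (fun p hp => (hpp p hp).ne_zero) (by
      intro p hp q hq hne
      exact (Nat.coprime_primes (hpp p hp) (hpp q hq)).2 hne)
  refine ⟨k, fun p hp => ?_, fun p hp => ?_⟩
  · have := hk p (mem_union_left _ hp)
    rw [if_pos hp] at this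
    exact this
  · have := hk p (mem_union_right _ hp)
    rw [if_neg (fun h => disjoint_left.1 hd h hp)] at this
    exact this

/-- the count in the residue classes -/
lemma count (X b : ℕ) (hb : b < Wm X) (D T : Finset ℕ) (hD : ∀ p ∈ D, p.Prime ∧ HH X < p)
    (hT : ∀ p ∈ T, p.Prime ∧ HH X < p) (hd : Disjoint D T) (r : ℕ) (c : ℕ → ℕ)
    (hc : ∀ p ∈ T, c p < p) :
    |((((SI X b).filter (fun n => ∀ p ∈ D, n % p = r % p)).filter
      (fun n => ∀ p ∈ T, n % p = c p)).card : ℝ) -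
      (X : ℝ) / Wm X / (∏ p ∈ D, (p : ℝ)) / ∏ p ∈ T, (p : ℝ)| ≤ 1 := by
  classical
  obtain ⟨r', h1, h2⟩ := crt D T (fun p hp => (hD p hp).1) (fun p hp => (hT p hp).1) hd r c
  have h3 := (Pool.Agent.H20R2.EQI.eqd X b hb (D ∪ T) (by
    intro p hp
    rcases mem_union.1 hp with h | h
    · exact hD p h
    · exact hT p h)).2.2 (D ∪ T) subset_rfl r' (by
      intro p _ a ha
      simp at ha)
  have e1 : ∏ p ∈ D ∪ T, ph none p = (∏ p ∈ D, (p : ℝ)) * ∏ p ∈ T, (p : ℝ) := by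
    rw [prod_union hd]
    simp [ph]
  rw [e1, ← div_div] at h3
  convert h3 using 5
  rw [filter_filter]
  unfold SI
  apply filter_congr
  intro n _
  constructor
  · rintro ⟨h4, h5⟩ p hp
    rcases mem_union.1 hp with h | h
    · rw [h4 p h, h1 p h]
    · rw [h5 p h, h2 p h, Nat.mod_eq_of_lt (hc p h)]
  · intro h4
    refine ⟨fun p hp => ?_, fun p hp => ?_⟩
    · rw [h4 p (mem_union_left _ hp), h1 p hp]
    · rw [h4 p (mem_union_right _ hp), h2 p hp, Nat.mod_eq_of_lt (hc p hp)]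

lemma JJ_mono {δ δ' : ℝ} (h : δ' ≤ δ) (X : ℕ) (hX : 1 ≤ X) : JJ δ' X ≤ JJ δ X := by
  unfold JJ
  apply Nat.log_mono_right
  apply Nat.log_mono_right
  apply Nat.floor_le_floor
  exact Real.rpow_le_rpow_of_exponent_le (by exact_mod_cast hX) h

lemma P1_mono {H J J' : ℕ} (h : J' ≤ J) : P1 H J' ⊆ P1 H J := by
  intro p hp
  rw [mem_P1] at hp ⊢
  refine ⟨lt_of_lt_of_le hp.1 ?_, hp.2⟩
  exact Nat.pow_le_pow_right (by norm_num) (Nat.pow_le_pow_right (by norm_num) h)

/-- comparison of the densities of rough numbers -/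
lemma VV_comp (δ δ' : ℝ) (hδ : 0 < δ) (hδ1 : δ ≤ 1) (hδ' : 0 < δ') (hδ1' : δ' ≤ 1) :
    ∃ C : ℝ, 0 < C ∧ ∃ X₀ : ℕ, ∀ X : ℕ, X₀ ≤ X → VV δ' X ≤ C * VV δ X := by
  obtain ⟨C, hC, hM⟩ := mer
  obtain ⟨c, hc, hV⟩ := mv
  obtain ⟨X1, h1⟩ := hM δ' hδ' hδ1'
  obtain ⟨X2, h2⟩ := hV δ hδ hδ1
  refine ⟨C * δ / (c * δ'), by positivity, max (max X1 X2) 3, fun X hX => ?_⟩
  have hX1 : X1 ≤ X := (le_max_left _ _).trans ((le_max_left _ _).trans hX)
  have hX2 : X2 ≤ X := (le_max_right _ _).trans ((le_max_left _ _).trans hX)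
  have hX3 : 3 ≤ X := (le_max_right _ _).trans hX
  have hXr : (3 : ℝ) ≤ X := by exact_mod_cast hX3
  have hl : 0 < Real.log X := Real.log_pos (by linarith)
  have h3 := (h1 X hX1).2.1
  have h4 := h2 X hX2
  have hφ : (0 : ℝ) < (Nat.totient (Wm X) : ℝ) / Wm X := by
    have ha : (0 : ℝ) < Wm X := by exact_mod_cast Wm_pos X
    have hb : (0 : ℝ) < Nat.totient (Wm X) := by exact_mod_cast Nat.totient_pos.2 (Wm_pos X)
    positivity
  set f := (Nat.totient (Wm X) : ℝ) / Wm X with hf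
  have e1 : VV δ' X = ∏ p ∈ P1 (HH X) (JJ δ' X), (1 - 1 / (p : ℝ)) := rfl
  rw [← e1] at h3
  have hfl : 0 < f * Real.log X := by positivity
  have h5 : VV δ' X * (c * δ') * (f * Real.log X) ≤ C * δ * VV δ X * (f * Real.log X) := by
    calc VV δ' X * (c * δ') * (f * Real.log X) = c * (VV δ' X * f * (δ' * Real.log X)) := by ring
      _ ≤ c * C := mul_le_mul_of_nonneg_left h3 hc.le
      _ = C * c := by ring
      _ ≤ C * (VV δ X * f * (δ * Real.log X)) := mul_le_mul_of_nonneg_left h4 (by linarith)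
      _ = _ := by ring
  have h6 := le_of_mul_le_mul_right h5 hfl
  rw [div_mul_eq_mul_div, le_div_iff₀ (by positivity)]
  exact h6

/-- a lower bound for the expected numbers -/
lemma Om_lower (δ : ℝ) (hδ : 0 < δ) (hδ1 : δ ≤ 1) (L : ℕ) : ∃ X₀ : ℕ, ∀ X : ℕ, X₀ ≤ X →
    0 < VV δ X ∧ (X : ℝ) / Real.log X ^ (2 * L + 1) ≤ Om δ X L := by
  obtain ⟨c, hc, hV⟩ := mv
  obtain ⟨X1, h1⟩ := hV δ hδ hδ1
  have h2 : Tendsto (fun X : ℕ => Real.log (X : ℝ)) atTop atTop :=
    Real.tendsto_log_atTop.comp tendsto_natCast_atTop_atTop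
  obtain ⟨X2, h2⟩ := eventually_atTop.1 (h2.eventually_ge_atTop (max (1 / c) 1))
  refine ⟨max (max X1 X2) 16, fun X hX => ?_⟩
  have hX1 : X1 ≤ X := (le_max_left _ _).trans ((le_max_left _ _).trans hX)
  have hX2 : X2 ≤ X := (le_max_right _ _).trans ((le_max_left _ _).trans hX)
  have hX3 : 16 ≤ X := (le_max_right _ _).trans hX
  have hXr : (16 : ℝ) ≤ X := by exact_mod_cast hX3
  have hl1 : 1 ≤ Real.log X := (le_max_right _ _).trans (h2 X hX2)
  have hlc : 1 / c ≤ Real.log X := (le_max_left _ _).trans (h2 X hX2)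
  have h4 := h1 X hX1
  have ha : (0 : ℝ) < Wm X := by exact_mod_cast Wm_pos X
  have hb : (0 : ℝ) < Nat.totient (Wm X) := by exact_mod_cast Nat.totient_pos.2 (Wm_pos X)
  have hf1 : (Nat.totient (Wm X) : ℝ) / Wm X ≤ 1 := by
    rw [div_le_one ha]
    exact_mod_cast Nat.totient_le _
  have hf0 : (0 : ℝ) < (Nat.totient (Wm X) : ℝ) / Wm X := by positivity
  set f := (Nat.totient (Wm X) : ℝ) / Wm X with hf
  have hW1 : (Wm X : ℝ) ≤ Real.log X := by
    have h5 := Pool.Agent.H325R2.wtx1 X hX3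
    have h6 : Real.log X ^ (7 / 20 : ℝ) ≤ Real.log X ^ (1 : ℝ) :=
      Real.rpow_le_rpow_of_exponent_le hl1 (by norm_num)
    rw [Real.rpow_one] at h6
    exact h5.trans h6
  have hVpos : 0 < VV δ X := by
    by_contra hcon
    push Not at hcon
    have : VV δ X * f * (δ * Real.log X) ≤ 0 := by
      have : 0 ≤ f * (δ * Real.log X) := by positivity
      nlinarith
    linarith
  refine ⟨hVpos, ?_⟩
  have hVl : 1 / Real.log X ^ 2 ≤ VV δ X := by
    have h5 : f * (δ * Real.log X) ≤ Real.log X := by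
      have : δ * Real.log X ≤ Real.log X := by nlinarith
      nlinarith [mul_nonneg hδ.le (by linarith : (0 : ℝ) ≤ Real.log X)]
    have h6 : c ≤ VV δ X * Real.log X := by
      calc c ≤ VV δ X * f * (δ * Real.log X) := h4
        _ = VV δ X * (f * (δ * Real.log X)) := by ring
        _ ≤ _ := mul_le_mul_of_nonneg_left h5 hVpos.le
    have h7 : 1 ≤ c * Real.log X := by
      rw [div_le_iff₀ hc] at hlc
      linarith
    rw [div_le_iff₀ (by positivity)]
    calc 1 ≤ c * Real.log X := h7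
      _ ≤ VV δ X * Real.log X * Real.log X := mul_le_mul_of_nonneg_right h6 (by linarith)
      _ = _ := by ring
  unfold Om
  calc (X : ℝ) / Real.log X ^ (2 * L + 1) = (X : ℝ) / Real.log X * (1 / Real.log X ^ 2) ^ L := by
        rw [pow_succ, pow_mul, one_div, inv_pow]
        field_simp
    _ ≤ (X : ℝ) / Wm X * VV δ X ^ L := by
        apply mul_le_mul
        · exact div_le_div_of_nonneg_left (by positivity) ha hW1
        · exact pow_le_pow_left₀ (by positivity) hVl L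
        · positivity
        · positivity

lemma HH_tendsto : Tendsto HH atTop atTop := by
  unfold HH
  have h1 : Tendsto (fun X : ℕ => Real.log (Real.log (X : ℝ)) / 4) atTop atTop := by
    apply Tendsto.atTop_div_const (by norm_num)
    exact Real.tendsto_log_atTop.comp (Real.tendsto_log_atTop.comp tendsto_natCast_atTop_atTop)
  exact tendsto_nat_floor_atTop.comp h1

/-- the product of small primes is small -/
lemma prod_small {X : ℕ} (D : Finset ℕ) (hX : 1 ≤ X)
    (hD : ∀ p ∈ D, p.Prime ∧ (p : ℝ) ≤ Real.log X / 20) :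
    ∏ p ∈ D, (p : ℝ) ≤ (X : ℝ) ^ (1 / 10 : ℝ) := by
  have hX1 : (1 : ℝ) ≤ X := by exact_mod_cast hX
  have hl : 0 ≤ Real.log X := Real.log_nonneg hX1
  set y := ⌊Real.log X / 20⌋₊ with hy
  have h1 : D ⊆ (range (y + 1)).filter Nat.Prime := by
    intro p hp
    rw [mem_filter, mem_range]
    refine ⟨Nat.lt_succ_of_le (Nat.le_floor (hD p hp).2), (hD p hp).1⟩
  have h2 : ∏ p ∈ D, p ≤ primorial y := by
    unfold primorial
    apply prod_le_prod_of_subset_of_one_le' h1
    intro p hp _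
    exact (mem_filter.1 hp).2.one_lt.le
  have h3 : ∏ p ∈ D, p ≤ 4 ^ y := h2.trans (primorial_le_four_pow y)
  have h4 : (∏ p ∈ D, (p : ℝ)) ≤ (4 : ℝ) ^ y := by
    have h5 : ((∏ p ∈ D, p : ℕ) : ℝ) ≤ ((4 ^ y : ℕ) : ℝ) := Nat.cast_le.2 h3
    push_cast at h5
    exact h5
  refine h4.trans ?_
  have hy1 : (y : ℝ) ≤ Real.log X / 20 := Nat.floor_le (by positivity)
  have hlog4 : Real.log 4 ≤ 2 := by
    rw [show (4 : ℝ) = 2 ^ 2 by norm_num, Real.log_pow]
    have := Real.log_two_lt_d9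
    push_cast
    linarith
  calc (4 : ℝ) ^ y = (4 : ℝ) ^ (y : ℝ) := (Real.rpow_natCast _ _).symm
    _ ≤ (4 : ℝ) ^ (Real.log X / 20) := Real.rpow_le_rpow_of_exponent_le (by norm_num) hy1
    _ = Real.exp (Real.log 4 * (Real.log X / 20)) := by rw [Real.rpow_def_of_pos (by norm_num)]
    _ ≤ Real.exp (Real.log X * (1 / 10)) := by
        apply Real.exp_le_exp.2
        nlinarith
    _ = (X : ℝ) ^ (1 / 10 : ℝ) := by rw [Real.rpow_def_of_pos (by linarith)]

end Pool.Agent.TH882.UB
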