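import Pool.Agent.TH882.I3
import Pool.Agent.TH882.UB

/-! Isolated primes are dense in every reduced class. -/

set_option autoImplicit false

open Finset

namespace Pool.Agent.TH882.IS

open Pool.Agent.H361R2.PP
open Pool.Agent.TH882.UB (ev_pow)

/-- `p` is at distance more than `R` from every other prime -/
def Isol (R : ℝ) (p : ℕ) : Prop := ∀ q : ℕ, q.Prime → (q : ℝ) ≤ p + R → (p : ℝ) ≤ q + R → q = p

open Classical in
/-- the isolated primes of a class -/
noncomputable def IP (Λ : ℝ) (X b : ℕ) : Finset ℕ :=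
  (SI X b).filter (fun p => p.Prime ∧ Isol (Λ * Real.log X) p)

theorem isoD (Λ : ℝ) (hΛ : 0 < Λ) : ∃ c : ℝ, 0 < c ∧ ∃ X₀ : ℕ, ∀ X : ℕ, X₀ ≤ X → ∀ b : ℕ,
    b < Wm X → b.Coprime (Wm X) →
    c * (X / (Nat.totient (Wm X) * Real.log X)) ≤ ((IP Λ X b).card : ℝ) := by
  classical
  set Λ' : ℝ := 2 * Λ + 3 with hΛ'
  have hΛ'0 : 0 < Λ' := by positivity
  obtain ⟨c, hc, X1, h1⟩ := iso Λ' hΛ'0
  obtain ⟨X2, h2⟩ := Pool.Agent.H325R2.pnt (1 / 2) (by norm_num)
  obtain ⟨X3, h3⟩ := ev_pow 1 (4 * Λ' / c) (by norm_num) 3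
  refine ⟨c / 4, by positivity, max (max X1 X2) (max X3 16), ?_⟩
  intro X hX b hb hbc
  have hX1 : X1 ≤ X := by omega
  have hX2 : X2 ≤ X := by omega
  have hX3 : X3 ≤ X := by omega
  have hX16 : 16 ≤ X := by omega
  have hXr : (16 : ℝ) ≤ X := by exact_mod_cast hX16
  have hX0 : (0 : ℝ) < X := by linarith
  set L := Real.log X with hL
  have hl2 : 2 ≤ L := by
    rw [hL, Real.le_log_iff_exp_le hX0]
    have h := Real.exp_one_lt_d9
    have h' : Real.exp 2 = Real.exp 1 * Real.exp 1 := by rw [← Real.exp_add]; norm_num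
    have h0 := Real.exp_pos 1
    nlinarith
  have hL0 : 0 < L := by linarith
  have hW0 : (0 : ℝ) < Wm X := by exact_mod_cast Wm_pos X
  have hφ0 : (0 : ℝ) < Nat.totient (Wm X) := by exact_mod_cast Nat.totient_pos.2 (Wm_pos X)
  have hWl : (Wm X : ℝ) ≤ L := by
    have e1 := Pool.Agent.H325R2.wtx1 X hX16
    refine e1.trans ?_
    calc L ^ (7 / 20 : ℝ) ≤ L ^ (1 : ℝ) :=
          Real.rpow_le_rpow_of_exponent_le (by linarith) (by norm_num)
      _ = L := Real.rpow_one _
  have hφW : (Nat.totient (Wm X) : ℝ) ≤ Wm X := by exact_mod_cast Nat.totient_le _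
  set N := ⌊Λ' * L⌋₊ with hN
  have hNle : (N : ℝ) ≤ Λ' * L := Nat.floor_le (by positivity)
  have hNlt : Λ' * L < N + 1 := Nat.lt_floor_add_one _
  set a0 : ℕ := N / 2 with ha0
  have ha0r : (N : ℝ) ≤ 2 * a0 + 1 := by
    have : N ≤ 2 * a0 + 1 := by omega
    exact_mod_cast this
  have ha0r' : 2 * (a0 : ℝ) ≤ N := by
    have : 2 * a0 ≤ N := by omega
    exact_mod_cast this
  have ha0big : Λ * L + 1 ≤ a0 := by
    rw [hΛ'] at hNlt
    nlinarith
  have ha01 : 1 ≤ a0 := by
    have : (1 : ℝ) ≤ a0 := by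
      have : 0 ≤ Λ * L := by positivity
      linarith
    exact_mod_cast this
  have ha0N : a0 ≤ N := by omega
  set b' : ℕ := (b + (Wm X * a0 - a0)) % Wm X with hb'
  have hWp := Wm_pos X
  have hba : (b' + a0) % Wm X = b := by
    rw [hb', Nat.mod_add_mod]
    have e1 : a0 ≤ Wm X * a0 := Nat.le_mul_of_pos_left _ hWp
    have e2 : b + (Wm X * a0 - a0) + a0 = b + Wm X * a0 := by omega
    rw [e2, Nat.add_mul_mod_self_left]
    exact Nat.mod_eq_of_lt hb
  have hBB : a0 ∈ BB X b' N := by
    rw [mem_BB]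
    refine ⟨ha01, ha0N, ?_⟩
    unfold Nat.Coprime at hbc ⊢
    rw [Nat.gcd_comm, Nat.gcd_rec, hba]
    exact hbc
  have h4 := h1 X hX1 b' (Nat.mod_lt _ hWp) a0 hBB
  set S := (SP X b' a0).filter (fun n => ∀ a ∈ Icc 1 N, (n + a).Prime → a = a0) with hS
  -- the number of them
  have hPr : (X : ℝ) / (2 * L) ≤ Pr X := by
    have e1 := (abs_le.1 (h2 X hX2)).1
    rw [div_le_iff₀ (by positivity)]
    linarith
  have hcard : S.card ≤ (IP Λ X b).card + a0 := by
    have e1 : S.card = (S.filter (fun n => n + a0 < 2 * X)).card +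
        (S.filter (fun n => ¬ n + a0 < 2 * X)).card :=
      (card_filter_add_card_filter_not _).symm
    have e2 : (S.filter (fun n => ¬ n + a0 < 2 * X)).card ≤ a0 := by
      calc _ ≤ (Ico (2 * X - a0) (2 * X)).card := by
            apply card_le_card
            intro n hn
            rw [mem_filter, hS, mem_filter, mem_SP] at hn
            rw [mem_Ico]
            omega
        _ ≤ a0 := by
            rw [Nat.card_Ico]
            omega
    have e3 : (S.filter (fun n => n + a0 < 2 * X)).card ≤ (IP Λ X b).card := by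
      apply card_le_card_of_injOn (fun n => n + a0)
      · intro n hn
        rw [mem_coe, mem_filter, hS, mem_filter, mem_SP] at hn
        obtain ⟨⟨⟨g1, g2, g3, g4⟩, g5⟩, g6⟩ := hn
        rw [mem_coe]
        change n + a0 ∈ IP Λ X b
        unfold IP
        rw [mem_filter, mem_SI]
        refine ⟨⟨by omega, g6, ?_⟩, g4, ?_⟩
        · have g7 : n ≡ b' [MOD Wm X] := by
            have : b' % Wm X = b' := Nat.mod_eq_of_lt (Nat.mod_lt _ hWp)
            rw [Nat.ModEq, g3, this]
          have g8 : (n + a0) % Wm X = (b' + a0) % Wm X := g7.add_right a0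
          rw [g8, hba]
        · intro q hq hq1 hq2
          push_cast at hq1 hq2
          have e4 : n < q := by
            have : (n : ℝ) < q := by linarith
            exact_mod_cast this
          have e5 : q - n ∈ Icc 1 N := by
            rw [mem_Icc]
            refine ⟨by omega, ?_⟩
            have e6 : ((q - n : ℕ) : ℝ) = (q : ℝ) - n := by
              rw [Nat.cast_sub e4.le]
            have e7 : ((q - n : ℕ) : ℝ) ≤ N := by
              rw [e6]
              linarith
            exact_mod_cast e7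
          have e8 := g5 (q - n) e5 (by
            have : n + (q - n) = q := by omega
            rw [this]
            exact hq)
          omega
      · intro x _ y _ h
        simp only at h
        omega
    omega
  have hcard' : (S.card : ℝ) ≤ ((IP Λ X b).card : ℝ) + a0 := by exact_mod_cast hcard
  have hsm : (a0 : ℝ) ≤ c / 4 * (X / (Nat.totient (Wm X) * L)) := by
    have e1 := h3 X hX3
    rw [Real.rpow_one] at e1
    have e2 : (a0 : ℝ) ≤ Λ' * L := by linarith [hNle, ha0r']
    have e3 : Λ' * L ≤ c / 4 * (X / (L * L)) := by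
      rw [mul_div_assoc', le_div_iff₀ (by positivity)]
      have e4 : 4 * Λ' / c * L ^ 3 * c = 4 * (Λ' * L * (L * L)) := by
        field_simp
      have e5 := mul_le_mul_of_nonneg_right e1 hc.le
      rw [e4] at e5
      linarith
    refine e2.trans (e3.trans ?_)
    apply mul_le_mul_of_nonneg_left _ (by positivity)
    apply div_le_div_of_nonneg_left hX0.le (by positivity)
    exact mul_le_mul_of_nonneg_right (hφW.trans hWl) hL0.le
  have hmain : c / 2 * (X / (Nat.totient (Wm X) * L)) ≤ c * (Pr X / Nat.totient (Wm X)) := by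
    have e1 : c / 2 * (X / (Nat.totient (Wm X) * L)) = c * ((X / (2 * L)) / Nat.totient (Wm X)) := by
      field_simp
    rw [e1]
    apply mul_le_mul_of_nonneg_left _ hc.le
    exact div_le_div_of_nonneg_right hPr hφ0.le
  linarith

end Pool.Agent.TH882.IS
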