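import Pool.Agent.TH882.R2

/-! The variance for products: the exceptional set for the sharp threshold. -/

set_option autoImplicit false

open Finset Filter Topology Polynomial

namespace Pool.Agent.TH882.IS

open Pool.Agent.H361R2.PP
open Pool.Agent.W70.HR
open Pool.Agent.TH882.UB
open Pool.Agent.TH882.PC (cnt_Ico PZ mem_PZ dvd_sub_iff wX wX_pos wX_one Vz_split one_sub_pos Vz_pos Gk
  prod_pair Gk_one prod_inv_one inv_le_exp tail_sum)
open Pool.Agent.H373R2.T7 (lamz Vz pz cf abs_eval_le lamz_nonneg)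
open Pool.Agent.TH882.PG
open Pool.Agent.TH882.RF

/-- the exceptional set of the model -/
theorem bad2S (r : ℕ) (g : Fin r → ℤ[X]) (hd : ∀ j, 1 ≤ (g j).natDegree)
    (hl : ∀ j, 0 < (g j).leadingCoeff) (L A0 : ℕ) (δ c η : ℝ)
    (hδ : 0 < δ) (hδ1 : δ ≤ 1) (hc : 0 < c) (hη : 0 < η) (E : ℕ) :
    ∃ X₀ : ℕ, ∀ X : ℕ, X₀ ≤ X → ∀ b : ℕ, b < Wm X → ∀ U : Finset ℕ, U.card = L →
    (∀ u ∈ U, u ≤ A0) → ∀ z : ℕ, HH X ≤ z → (z : ℝ) ≤ Real.log X ^ E →
    ∀ A ⊆ (SI X b).filter (fun n => ∀ u ∈ U, rg (P1 (HH X) (JJ δ X)) u n = 1),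
    c * Om δ X L ≤ (A.card : ℝ) → ∀ k : Fin r → ℕ → ℕ,
    (∀ j, ∀ n ∈ A, ∀ n' ∈ A,
      |(k j n : ℤ) - k j n'| = |(g j).eval (n : ℤ) - (g j).eval (n' : ℤ)|) →
    ∀ a0 Z s : Fin r → ℕ, (∀ j, ∀ n ∈ A, k j n ≤ a0 j) → (∀ j, a0 j + X ≤ Z j) →
    (∀ j, s j < Wm X) →
    (∀ j, ∀ N ∈ IA X (a0 j) (Z j) (s j), ∀ n ∈ A, (N - k j n).Coprime (Wm X)) →
    (((Fintype.piFinset fun j => IA X (a0 j) (Z j) (s j)).filter
      (fun N => ∑ n ∈ A, ∏ j, lamz z (N j - k j n) < wX X ^ r * (A.card : ℝ) / 2)).card : ℝ) ≤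
      η * ∏ j, ((Z j : ℝ) / Wm X) := by
  classical
  set β' : ℝ := min 1 η / 28 with hβ'
  have hmin : 0 < min 1 η := lt_min one_pos hη
  have hβ'0 : 0 < β' := by rw [hβ']; positivity
  have hβ'1 : β' ≤ 1 := by
    rw [hβ']
    have : min 1 η ≤ 1 := min_le_left _ _
    linarith
  have hβ'η : 28 * β' ≤ η := by
    rw [hβ']
    have : min 1 η ≤ η := min_le_right _ _
    linarith
  obtain ⟨β, hβ0, hβ1, hβu, hβl⟩ := small_beta r β' hβ'0
  obtain ⟨X1, h1⟩ := coord β hβ0 hβ1 E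
  obtain ⟨X2, h2⟩ := gsumR r g hd hl L A0 δ c β' hδ hδ1 hc hβ'0
  obtain ⟨X3, h3⟩ := Om_lower δ hδ hδ1 L
  obtain ⟨X5, h5⟩ := ev_pow 1 (4 * 2 ^ r / (c * β')) (by norm_num) (2 * L + 1 + 2 * r)
  refine ⟨max (max X1 X2) (max X3 (max X5 16)), ?_⟩
  intro X hX b hb U hU hUA z hz1 hz2 A hA hAc k hk a0 Z s hka hZ hs hcop
  have hX1 : X1 ≤ X := by omega
  have hX2 : X2 ≤ X := by omega
  have hX3 : X3 ≤ X := by omega
  have hX5 : X5 ≤ X := by omega
  have hX16 : 16 ≤ X := by omega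
  have hXr : (16 : ℝ) ≤ X := by exact_mod_cast hX16
  have hX0 : (0 : ℝ) < X := by linarith
  have hlog : 1 ≤ Real.log X := by
    rw [← Real.log_exp 1]
    apply Real.log_le_log (Real.exp_pos _)
    have := Real.exp_one_lt_d9
    linarith
  have hW0 : (0 : ℝ) < Wm X := by exact_mod_cast Wm_pos X
  obtain ⟨hV0, hOm⟩ := h3 X hX3
  set Y : Fin r → ℝ := fun j => ((Z j : ℝ) - a0 j) / Wm X with hY
  have hcoord := fun j => h1 X hX1 (a0 j) (Z j) (s j) z (hZ j) (hs j) hz1 hz2 (A.image (k j)) (by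
    intro x hx
    rw [mem_image] at hx
    obtain ⟨n, hn, rfl⟩ := hx
    exact hka j n hn) (by
    intro N hN x hx
    rw [mem_image] at hx
    obtain ⟨n, hn, rfl⟩ := hx
    exact hcop j N hN n hn)
  have hY1 : ∀ j, 1 ≤ Y j := fun j => (hcoord j).2.2.2.2.2
  have hY0 : ∀ j, 0 ≤ Y j := fun j => by linarith [hY1 j]
  have hYZ : ∀ j, Y j ≤ (Z j : ℝ) / Wm X := by
    intro j
    apply div_le_div_of_nonneg_right _ hW0.le
    have : (0 : ℝ) ≤ a0 j := Nat.cast_nonneg _
    linarith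
  set a : ℝ := (A.card : ℝ) with ha
  have haX : c * (X / Real.log X ^ (2 * L + 1)) ≤ a :=
    (mul_le_mul_of_nonneg_left hOm hc.le).trans hAc
  have ha0 : 0 < a := lt_of_lt_of_le (by positivity) haX
  set w : ℝ := wX X with hw
  have hw1 : 1 ≤ w := wX_one X
  have hw0 : 0 < w := by linarith
  set W : ℝ := w ^ r with hWd
  have hW1 : 1 ≤ W := one_le_pow₀ hw1
  set PY : ℝ := ∏ j, Y j with hPY
  have hPY1 : 1 ≤ PY := by
    rw [hPY]
    calc (1 : ℝ) = ∏ _j : Fin r, (1 : ℝ) := by simp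
      _ ≤ _ := Finset.prod_le_prod (fun _ _ => zero_le_one) (fun j _ => hY1 j)
  set I : Finset (Fin r → ℕ) := Fintype.piFinset fun j => IA X (a0 j) (Z j) (s j) with hI
  set P : (Fin r → ℕ) → ℕ → ℝ := fun N n => ∏ j, lamz z (N j - k j n) with hP
  -- the moments
  have hM1 : ∀ n ∈ A, (1 - β') * (PY * W) ≤ ∑ N ∈ I, P N n := by
    intro n hn
    have e1 : ∑ N ∈ I, P N n = ∏ j, ∑ N ∈ IA X (a0 j) (Z j) (s j), lamz z (N - k j n) := by
      rw [hI, hP]
      exact sum_pi (fun j => IA X (a0 j) (Z j) (s j)) (fun j N => lamz z (N - k j n))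
    rw [e1]
    have e2 : ∏ j, (Y j * w * (1 - β)) = (1 - β) ^ r * (PY * W) := by
      rw [prod_mul_distrib, prod_mul_distrib, ← hPY]
      simp only [prod_const, card_univ, Fintype.card_fin]
      rw [hWd]
      ring
    calc (1 - β') * (PY * W) ≤ (1 - β) ^ r * (PY * W) :=
          mul_le_mul_of_nonneg_right hβl (by positivity)
      _ = ∏ j, (Y j * w * (1 - β)) := e2.symm
      _ ≤ _ := by
          apply Finset.prod_le_prod
          · intro j _
            have := hY0 j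
            have : 0 ≤ 1 - β := by linarith
            positivity
          · intro j _
            exact (hcoord j).1 _ (mem_image_of_mem _ hn)
  have hM2 : ∀ n ∈ A, ∀ n' ∈ A, ∑ N ∈ I, P N n * P N n' ≤
      (1 + β') * (PY * W ^ 2) * ∏ j, Gk X z (k j n) (k j n') := by
    intro n hn n' hn'
    have e1 : ∑ N ∈ I, P N n * P N n' = ∏ j, ∑ N ∈ IA X (a0 j) (Z j) (s j),
        lamz z (N - k j n) * lamz z (N - k j n') := by
      rw [← sum_pi (fun j => IA X (a0 j) (Z j) (s j))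
        (fun j N => lamz z (N - k j n) * lamz z (N - k j n')), hI, hP]
      apply sum_congr rfl
      intro N _
      simp only
      rw [prod_mul_distrib]
    rw [e1]
    have hG1 : 0 ≤ ∏ j, Gk X z (k j n) (k j n') :=
      prod_nonneg fun j _ => zero_le_one.trans (Gk_one _ _ _ _)
    have e2 : ∏ j, ((1 + β) * Y j * w ^ 2 * Gk X z (k j n) (k j n')) =
        (1 + β) ^ r * (PY * W ^ 2) * ∏ j, Gk X z (k j n) (k j n') := by
      rw [prod_mul_distrib, prod_mul_distrib, prod_mul_distrib, ← hPY]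
      simp only [prod_const, card_univ, Fintype.card_fin]
      rw [hWd]
      ring
    calc _ ≤ ∏ j, ((1 + β) * Y j * w ^ 2 * Gk X z (k j n) (k j n')) := by
          apply Finset.prod_le_prod
          · intro j _
            apply sum_nonneg
            intro N _
            exact mul_nonneg (lamz_nonneg _ _) (lamz_nonneg _ _)
          · intro j _
            exact (hcoord j).2.1 _ (mem_image_of_mem _ hn) _ (mem_image_of_mem _ hn')
      _ = _ := e2
      _ ≤ _ := by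
          apply mul_le_mul_of_nonneg_right _ hG1
          exact mul_le_mul_of_nonneg_right hβu (by positivity)
  have hM3 : ∀ n ∈ A, ∑ N ∈ I, P N n * P N n ≤ (2 * Real.log X ^ 2) ^ r * PY := by
    intro n hn
    have e1 : ∑ N ∈ I, P N n * P N n = ∏ j, ∑ N ∈ IA X (a0 j) (Z j) (s j),
        lamz z (N - k j n) * lamz z (N - k j n) := by
      rw [← sum_pi (fun j => IA X (a0 j) (Z j) (s j))
        (fun j N => lamz z (N - k j n) * lamz z (N - k j n)), hI, hP]
      apply sum_congr rfl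
      intro N _
      simp only
      rw [prod_mul_distrib]
    rw [e1]
    calc _ ≤ ∏ j, (2 * Real.log X ^ 2 * Y j) := by
          apply Finset.prod_le_prod
          · intro j _
            apply sum_nonneg
            intro N _
            exact mul_nonneg (lamz_nonneg _ _) (lamz_nonneg _ _)
          · intro j _
            exact (hcoord j).2.2.1 _ (mem_image_of_mem _ hn)
      _ = _ := by
          rw [prod_mul_distrib, ← hPY]
          simp only [prod_const, card_univ, Fintype.card_fin]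
  have hcardI : (I.card : ℝ) ≤ (1 + β') * PY := by
    rw [hI, Fintype.card_piFinset]
    push_cast
    calc ∏ j, ((IA X (a0 j) (Z j) (s j)).card : ℝ) ≤ ∏ j, ((1 + β) * Y j) := by
          apply Finset.prod_le_prod (fun _ _ => Nat.cast_nonneg _)
          intro j _
          exact (hcoord j).2.2.2.1
      _ = (1 + β) ^ r * PY := by
          rw [prod_mul_distrib, ← hPY]
          simp only [prod_const, card_univ, Fintype.card_fin]
      _ ≤ _ := mul_le_mul_of_nonneg_right hβu (by positivity)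
  have hg := h2 X hX2 b hb U hU hUA z A hA hAc k hk
  set G := ∑ n ∈ A, ∑ n' ∈ A.erase n, (∏ j, Gk X z (k j n) (k j n') - 1) with hG
  -- expansion
  have hexp : ∑ N ∈ I, (∑ n ∈ A, (P N n - W)) ^ 2 =
      ∑ n ∈ A, ∑ n' ∈ A, (∑ N ∈ I, P N n * P N n' -
        W * ∑ N ∈ I, P N n - W * ∑ N ∈ I, P N n' + W ^ 2 * (I.card : ℝ)) := by
    have h1 : ∀ N ∈ I, (∑ n ∈ A, (P N n - W)) ^ 2 =
        ∑ n ∈ A, ∑ n' ∈ A, (P N n * P N n' - W * P N n - W * P N n' + W ^ 2) := by
      intro N _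
      rw [sq, sum_mul_sum]
      apply sum_congr rfl
      intro k _
      apply sum_congr rfl
      intro k' _
      ring
    rw [sum_congr rfl h1, Finset.sum_comm]
    apply sum_congr rfl
    intro k _
    rw [Finset.sum_comm]
    apply sum_congr rfl
    intro k' _
    rw [sum_add_distrib, sum_sub_distrib, sum_sub_distrib, ← mul_sum, ← mul_sum, sum_const,
      nsmul_eq_mul]
    ring
  set B : ℝ := PY * W ^ 2 with hB
  have hB0 : 0 ≤ B := by rw [hB]; positivity
  have hcommon : ∀ n ∈ A, ∀ n' ∈ A, - W * ∑ N ∈ I, P N n - W * ∑ N ∈ I, P N n' +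
      W ^ 2 * (I.card : ℝ) ≤ B * (3 * β' - 1) := by
    intro n hn n' hn'
    have h1 := mul_le_mul_of_nonneg_left (hM1 n hn) (by linarith : 0 ≤ W)
    have h2 := mul_le_mul_of_nonneg_left (hM1 n' hn') (by linarith : 0 ≤ W)
    have h3 : W ^ 2 * (I.card : ℝ) ≤ W ^ 2 * ((1 + β') * PY) :=
      mul_le_mul_of_nonneg_left hcardI (by positivity)
    have e1 : W * ((1 - β') * (PY * W)) = B * (1 - β') := by rw [hB]; ring
    have e2 : W ^ 2 * ((1 + β') * PY) = B * (1 + β') := by rw [hB]; ring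
    rw [e1] at h1 h2
    rw [e2] at h3
    nlinarith
  set Dg : ℝ := (2 * Real.log X ^ 2) ^ r * PY + B * 2 with hDg
  have hterm : ∀ n ∈ A, ∑ n' ∈ A, (∑ N ∈ I, P N n * P N n' -
        W * ∑ N ∈ I, P N n - W * ∑ N ∈ I, P N n' + W ^ 2 * (I.card : ℝ)) ≤
      ∑ n' ∈ A.erase n, ((1 + β') * B * (∏ j, Gk X z (k j n) (k j n') - 1)) +
      a * (4 * β' * B) + Dg := by
    intro n hn
    rw [← add_sum_erase A _ hn]
    have hdd : ∑ N ∈ I, P N n * P N n -
        W * ∑ N ∈ I, P N n - W * ∑ N ∈ I, P N n + W ^ 2 * (I.card : ℝ) ≤ Dg := by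
      have h1 := hM3 n hn
      have h2 := hcommon n hn n hn
      have h3 : B * (3 * β' - 1) ≤ B * 2 := mul_le_mul_of_nonneg_left (by linarith) hB0
      rw [hDg]
      linarith
    have ho : ∑ n' ∈ A.erase n, (∑ N ∈ I, P N n * P N n' -
        W * ∑ N ∈ I, P N n - W * ∑ N ∈ I, P N n' + W ^ 2 * (I.card : ℝ)) ≤ ∑ n' ∈ A.erase n,
        ((1 + β') * B * (∏ j, Gk X z (k j n) (k j n') - 1) + 4 * β' * B) := by
      apply sum_le_sum
      intro n' hn'
      have h1 := hM2 n hn n' (mem_of_mem_erase hn')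
      have h2 := hcommon n hn n' (mem_of_mem_erase hn')
      linarith
    have hoR : ∑ n' ∈ A.erase n,
        ((1 + β') * B * (∏ j, Gk X z (k j n) (k j n') - 1) + 4 * β' * B) =
        ∑ n' ∈ A.erase n, ((1 + β') * B * (∏ j, Gk X z (k j n) (k j n') - 1)) +
          ((A.erase n).card : ℝ) * (4 * β' * B) := by
      rw [sum_add_distrib, sum_const, nsmul_eq_mul]
    rw [hoR] at ho
    have hcc : ((A.erase n).card : ℝ) * (4 * β' * B) ≤ a * (4 * β' * B) := by
      apply mul_le_mul_of_nonneg_right _ (by positivity)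
      rw [ha]
      exact_mod_cast card_le_card (erase_subset _ _)
    linarith
  have hvar : ∑ N ∈ I, (∑ n ∈ A, (P N n - W)) ^ 2 ≤
      (1 + β') * B * G + a * (a * (4 * β' * B)) + a * Dg := by
    rw [hexp]
    refine (sum_le_sum hterm).trans ?_
    rw [sum_add_distrib, sum_add_distrib, sum_const, sum_const, nsmul_eq_mul, nsmul_eq_mul, hG,
      mul_sum, ← ha]
    simp only [mul_sum]
    exact le_rfl
  have hGb : (1 + β') * B * G ≤ 2 * β' * (B * a ^ 2) := by
    calc (1 + β') * B * G ≤ 2 * B * (β' * a ^ 2) := by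
          calc (1 + β') * B * G ≤ (1 + β') * B * (β' * a ^ 2) :=
                mul_le_mul_of_nonneg_left hg (by positivity)
            _ ≤ 2 * B * (β' * a ^ 2) := by
                apply mul_le_mul_of_nonneg_right _ (by positivity)
                exact mul_le_mul_of_nonneg_right (by linarith) hB0
      _ = _ := by ring
  -- the diagonal
  have hDa : a * Dg ≤ β' * (B * a ^ 2) := by
    have e1 := h5 X hX5
    rw [Real.rpow_one] at e1
    set ℓ := Real.log X with hℓ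
    have e2 : 4 * 2 ^ r * ℓ ^ (2 * r) ≤ β' * a := by
      have e3 : 4 * 2 ^ r * ℓ ^ (2 * r) = β' * (c * ((4 * 2 ^ r / (c * β') *
          ℓ ^ (2 * L + 1 + 2 * r)) / ℓ ^ (2 * L + 1))) := by
        rw [pow_add]
        field_simp
      rw [e3]
      apply mul_le_mul_of_nonneg_left _ hβ'0.le
      refine le_trans ?_ haX
      apply mul_le_mul_of_nonneg_left _ hc.le
      apply div_le_div_of_nonneg_right e1 (by positivity)
    have hPYB : PY ≤ B := by
      rw [hB]
      have : 1 ≤ W ^ 2 := one_le_pow₀ hW1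
      nlinarith
    have e4 : (2 * ℓ ^ 2) ^ r = 2 ^ r * ℓ ^ (2 * r) := by rw [mul_pow, ← pow_mul]
    have e5 : (1 : ℝ) ≤ 2 ^ r * ℓ ^ (2 * r) := by
      have h6 : (1 : ℝ) ≤ 2 ^ r := one_le_pow₀ (by norm_num)
      have h7 : (1 : ℝ) ≤ ℓ ^ (2 * r) := one_le_pow₀ hlog
      nlinarith
    set K1 : ℝ := 2 ^ r * ℓ ^ (2 * r) with hK1
    have e2' : 4 * K1 ≤ β' * a := by rw [hK1]; linarith
    have e6 : K1 * PY ≤ K1 * B := mul_le_mul_of_nonneg_left hPYB (by linarith)
    have e7 : B ≤ K1 * B := by nlinarith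
    have e8 : Dg ≤ β' * a * B := by
      have h8 : 4 * K1 * B ≤ (β' * a) * B := mul_le_mul_of_nonneg_right e2' hB0
      have h9 : 0 ≤ K1 * B := by positivity
      rw [hDg, e4]
      linarith
    calc a * Dg ≤ a * (β' * a * B) := mul_le_mul_of_nonneg_left e8 ha0.le
      _ = _ := by ring
  set Bd := I.filter (fun N => ∑ n ∈ A, ∏ j, lamz z (N j - k j n) < W * a / 2) with hBd
  have hlow : (Bd.card : ℝ) * (W * a / 2) ^ 2 ≤ ∑ N ∈ I, (∑ n ∈ A, (P N n - W)) ^ 2 := by
    calc (Bd.card : ℝ) * (W * a / 2) ^ 2 = ∑ N ∈ Bd, (W * a / 2) ^ 2 := by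
          rw [sum_const, nsmul_eq_mul]
      _ ≤ ∑ N ∈ Bd, (∑ n ∈ A, (P N n - W)) ^ 2 := by
          apply sum_le_sum
          intro N hN
          rw [hBd, mem_filter] at hN
          have e1 := hN.2
          rw [sum_sub_distrib, sum_const, nsmul_eq_mul, ← ha]
          have e0 : ∑ n ∈ A, P N n < W * a / 2 := e1
          have e3 : 0 ≤ W * a / 2 := by positivity
          have e4 : W * a / 2 ≤ a * W - ∑ n ∈ A, P N n := by nlinarith
          nlinarith
      _ ≤ _ := by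
          apply sum_le_sum_of_subset_of_nonneg (filter_subset _ _)
          intro _ _ _
          positivity
  have hfin : (Bd.card : ℝ) * (W * a / 2) ^ 2 ≤ 7 * β' * (B * a ^ 2) := by
    refine hlow.trans (hvar.trans ?_)
    have : a * (a * (4 * β' * B)) = 4 * β' * (B * a ^ 2) := by ring
    linarith
  have hpos : 0 < W ^ 2 * a ^ 2 := by positivity
  have hfin2 : (Bd.card : ℝ) * (W ^ 2 * a ^ 2) ≤ (28 * β' * PY) * (W ^ 2 * a ^ 2) := by
    have e1 : (Bd.card : ℝ) * (W * a / 2) ^ 2 = (Bd.card : ℝ) * (W ^ 2 * a ^ 2) / 4 := by ring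
    have e2 : 7 * β' * (B * a ^ 2) = (28 * β' * PY) * (W ^ 2 * a ^ 2) / 4 := by rw [hB]; ring
    rw [e1, e2] at hfin
    linarith
  have hfin3 : (Bd.card : ℝ) ≤ 28 * β' * PY := le_of_mul_le_mul_right hfin2 hpos
  have hPYZ : PY ≤ ∏ j, ((Z j : ℝ) / Wm X) :=
    Finset.prod_le_prod (fun j _ => hY0 j) (fun j _ => hYZ j)
  calc (Bd.card : ℝ) ≤ 28 * β' * PY := hfin3
    _ ≤ η * PY := mul_le_mul_of_nonneg_right hβ'η (by linarith)
    _ ≤ _ := mul_le_mul_of_nonneg_left hPYZ hη.le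

end Pool.Agent.TH882.IS
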