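import Pool.Agent.TH882.I6

/-! Prime values of several polynomials with signs at the elements of a set of primes which is dense
in every reduced class. -/

set_option autoImplicit false

open Finset Filter Topology Polynomial

namespace Pool.Agent.TH882.IS

open Pool.Agent.H361R2.PP
open Pool.Agent.W70.HR
open Pool.Agent.TH882.UB
open Pool.Agent.TH882.PG
open Pool.Agent.TH882.PC (wX wX_one wX_pos)

open Classical in
/-- the admissible classes modulo `Wm X` -/
noncomputable def rhoS {r : ℕ} (σ : Fin r → ℤ) (g : Fin r → ℤ[X]) (X : ℕ) (M : Fin r → ℤ) :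
    Finset ℕ :=
  (range (Wm X)).filter (fun b => b.Coprime (Wm X) ∧
    ∀ j, ∀ l : ℕ, l.Prime → l ∣ Wm X → ¬ (l : ℤ) ∣ M j + σ j * (g j).eval (b : ℤ))

/-- the elements of the sets `A X b` are prime and their number has the right order of magnitude -/
def Dn (A : ℕ → ℕ → Finset ℕ) (c0 : ℝ) (X : ℕ) : Prop := ∀ b < Wm X, b.Coprime (Wm X) →
  A X b ⊆ (SI X b).filter Nat.Prime ∧
    c0 * (X / (Nat.totient (Wm X) * Real.log X)) ≤ ((A X b).card : ℝ)

open Classical in
/-- the elements of the set with all values prime -/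
noncomputable def RepA {r : ℕ} (σ : Fin r → ℤ) (g : Fin r → ℤ[X]) (A : ℕ → ℕ → Finset ℕ) (X : ℕ)
    (M : Fin r → ℤ) : Finset ℕ :=
  (Ico X (2 * X)).filter (fun n => n ∈ A X (n % Wm X) ∧
    ∀ j, (M j + σ j * (g j).eval (n : ℤ)).toNat.Prime)

set_option maxHeartbeats 4000000 in
theorem clsT {r : ℕ} (σ : Fin r → ℤ) (hσ : ∀ j, σ j = 1 ∨ σ j = -1)
    (g : Fin r → ℤ[X]) (hd : ∀ j, 1 ≤ (g j).natDegree)
    (hl : ∀ j, 0 < (g j).leadingCoeff) (κ : ℕ) (η : ℝ) (hη : 0 < η) (c0 : ℝ) (hc0 : 0 < c0)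
    (A : ℕ → ℕ → Finset ℕ) (X00 : ℕ) (hA : ∀ X, X00 ≤ X → Dn A c0 X) :
    ∃ X₀ : ℕ, ∀ X : ℕ, X₀ ≤ X → ∀ Y a0 Z : Fin r → ℕ,
    (∀ j, ∀ n : ℕ, X ≤ n → n ≤ 3 * X → 0 ≤ (Y j : ℤ) - σ j * (g j).eval (n : ℤ) ∧
      (Y j : ℤ) - σ j * (g j).eval (n : ℤ) < a0 j) → (∀ j, Y j < a0 j) →
    (∀ j, a0 j + X ≤ Z j) → (∀ j, Z j ≤ κ * X ^ (g j).natDegree) →
    ∃ Bd : Finset (Fin r → ℕ), (Bd.card : ℝ) ≤ η * ∏ j, (X : ℝ) ^ (g j).natDegree ∧
      ∀ N ∈ Fintype.piFinset (fun j => Ico (a0 j) (Z j)), N ∉ Bd →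
        ((rhoS σ g X (fun j => (N j : ℤ) - Y j)).card : ℝ) / 2 * (wX X ^ r *
          (c0 * (X / (Nat.totient (Wm X) * Real.log X))) / 4 /
          ((((∑ j, (g j).natDegree : ℕ) : ℝ) + 1) * Real.log X) ^ r) ≤
        ((RepA σ g A X (fun j => (N j : ℤ) - Y j)).card : ℝ) := by
  classical
  obtain ⟨CM, hCM1, hCM⟩ := Pool.Agent.H488R2.mer Pool.Agent.H325R2.wtx
  obtain ⟨X1, h1⟩ := hCM (1 / 8) (by norm_num) (by norm_num)
  obtain ⟨X2, h2⟩ := clsA σ hσ g hd hl {0} (1 / 8) (c0 / (8 * CM)) (by norm_num) (by norm_num)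
    (by positivity) κ (η / (4 * (κ + 1) ^ r)) (by positivity)
  obtain ⟨X3, hW⟩ := Pool.Agent.H325R2.wtx.2 (1 / 8) (by norm_num) (by norm_num)
  have hlogt : Tendsto (fun X : ℕ => Real.log (X : ℝ)) atTop atTop :=
    Real.tendsto_log_atTop.comp tendsto_natCast_atTop_atTop
  obtain ⟨X4, h4⟩ := eventually_atTop.1 (hlogt.eventually_ge_atTop (max 1 (4 / η)))
  refine ⟨max (max X00 X1) (max (max X2 X3) (max X4 16)), ?_⟩
  intro X hX Y a0 Z hYa hYa0 hZ6 hZκ
  have hX0 : X00 ≤ X := by omega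
  have hX1 : X1 ≤ X := by omega
  have hX2 : X2 ≤ X := by omega
  have hX3 : X3 ≤ X := by omega
  have hX4 : X4 ≤ X := by omega
  have hX16 : 16 ≤ X := by omega
  have hXr : (16 : ℝ) ≤ X := by exact_mod_cast hX16
  have hXp : (0 : ℝ) < X := by linarith
  have hll := h4 X hX4
  set ℓ := Real.log X with hℓ
  have hl1 : 1 ≤ ℓ := (le_max_left _ _).trans hll
  have hl2 : 4 / η ≤ ℓ := (le_max_right _ _).trans hll
  have hWp := Wm_pos X
  have hW0 : (0 : ℝ) < Wm X := by exact_mod_cast hWp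
  have hφ0 : (0 : ℝ) < Nat.totient (Wm X) := by exact_mod_cast Nat.totient_pos.2 hWp
  have hWl : (Wm X : ℝ) ≤ ℓ := by
    have e1 := Pool.Agent.H325R2.wtx1 X hX16
    refine e1.trans ?_
    calc ℓ ^ (7 / 20 : ℝ) ≤ ℓ ^ (1 : ℝ) :=
          Real.rpow_le_rpow_of_exponent_le hl1 (by norm_num)
      _ = ℓ := Real.rpow_one _
  obtain ⟨hV0, hV1, -⟩ := h1 X hX1
  obtain ⟨hw1, -, hw3⟩ := hW X hX3
  have hJ : 2 ^ 2 ^ JJ (1 / 8) X ≤ X := by
    have h1 : (X : ℝ) ^ (1 / 8 : ℝ) ≤ (X : ℝ) ^ (1 : ℝ) :=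
      Real.rpow_le_rpow_of_exponent_le (by linarith) (by norm_num)
    rw [Real.rpow_one] at h1
    exact_mod_cast hw1.trans h1
  have hDn := hA X hX0
  set dd : ℝ := ((∑ j, (g j).natDegree : ℕ) : ℝ) + 1 with hdd
  have hdd0 : 0 < dd := by positivity
  -- the lower bound for one class
  set low : ℝ := wX X ^ r * (c0 * (X / (Nat.totient (Wm X) * ℓ))) / 4 / (dd * ℓ) ^ r with hlow
  have hwp := wX_pos X
  have hlow0 : 0 ≤ low := by rw [hlow]; positivity
  set PX : ℝ := ∏ j, (X : ℝ) ^ (g j).natDegree with hPX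
  have hPX0 : 0 < PX := prod_pos fun j _ => by positivity
  set E : ℝ := η / (4 * (κ + 1) ^ r) * (∏ j, ((Z j : ℝ) / Wm X)) + PX / ℓ ^ (r + 1) with hE
  have hE0 : 0 ≤ E := by rw [hE]; positivity
  set T : (Fin r → ℕ) → Finset ℕ := fun s => (range (Wm X)).filter (fun b => b.Coprime (Wm X) ∧
    ∀ j, ∀ N ∈ IA X (a0 j) (Z j) (s j), ∀ l : ℕ, l.Prime → l ∣ Wm X →
      ¬ (l : ℤ) ∣ ((N : ℤ) - Y j) + σ j * (g j).eval (b : ℤ)) with hT
  have hs : ∀ (s : Fin r → ℕ) (b : ℕ), ∃ Bd : Finset (Fin r → ℕ), (Bd.card : ℝ) ≤ E ∧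
      ((∀ j, s j < Wm X) → b ∈ T s →
      ∀ N ∈ Fintype.piFinset (fun j => IA X (a0 j) (Z j) (s j)), N ∉ Bd →
        low ≤ (((A X b).filter (fun n : ℕ => ∀ j,
          (((N j : ℤ) - Y j) + σ j * (g j).eval (n : ℤ)).toNat.Prime)).card : ℝ)) := by
    intro s b
    by_cases hsb : (∀ j, s j < Wm X) ∧ b ∈ T s
    · obtain ⟨hs, hb⟩ := hsb
      rw [hT] at hb
      simp only at hb
      rw [mem_filter, mem_range] at hb
      obtain ⟨hA1, hA2⟩ := hDn b hb.1 hb.2.1
      obtain ⟨Bd, hB1, hB2⟩ := h2 X hX2 Y a0 Z hYa hYa0 hZ6 hZκ s hs b hb.1 hb.2.2 (A X b) (by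
        intro n hn
        have e1 := hA1 hn
        rw [mem_filter, mem_SI] at e1
        rw [mem_filter, mem_SI]
        refine ⟨e1.1, ?_⟩
        intro u hu
        rw [mem_singleton] at hu
        subst hu
        apply rg_prime
        · intro p hp
          rw [mem_P1] at hp
          refine ⟨hp.2.1, ?_⟩
          have := hp.1
          omega
        · exact e1.2) (by
        refine le_trans ?_ hA2
        change _ ≤ c0 * ((X : ℝ) / (Nat.totient (Wm X) * ℓ))
        rw [card_singleton]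
        unfold Om
        rw [pow_one]
        have e1 : VV (1 / 8) X * ((Nat.totient (Wm X) : ℝ) / Wm X) * (1 / 8 * ℓ) ≤ CM := hV1
        have e2 : c0 / (8 * CM) * ((X : ℝ) / Wm X * VV (1 / 8) X) =
            c0 / CM * (X / (Nat.totient (Wm X) * ℓ)) *
              (VV (1 / 8) X * ((Nat.totient (Wm X) : ℝ) / Wm X) * (1 / 8 * ℓ)) := by
          field_simp
        rw [e2]
        calc c0 / CM * (X / (Nat.totient (Wm X) * ℓ)) *
              (VV (1 / 8) X * ((Nat.totient (Wm X) : ℝ) / Wm X) * (1 / 8 * ℓ)) ≤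
            c0 / CM * (X / (Nat.totient (Wm X) * ℓ)) * CM :=
              mul_le_mul_of_nonneg_left e1 (by positivity)
          _ = _ := by field_simp)
      refine ⟨Bd, hB1, fun _ _ N hN hNB => (le_trans ?_ (hB2 N hN hNB))⟩
      rw [hlow]
      gcongr
    · refine ⟨∅, ?_, ?_⟩
      · rw [card_empty, Nat.cast_zero]
        exact hE0
      · intro h3 h4
        exact absurd ⟨h3, h4⟩ hsb
  choose Bd hBd using hs
  set bad : (Fin r → ℕ) → Finset (Fin r → ℕ) := fun s =>
    (Fintype.piFinset (fun j => IA X (a0 j) (Z j) (s j))).filter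
      (fun N => ((T s).card : ℝ) / 2 < (((T s).filter (fun b => N ∈ Bd s b)).card : ℝ)) with hbad
  have hbadc : ∀ s, ((bad s).card : ℝ) ≤ 2 * E := by
    intro s
    rcases (T s).eq_empty_or_nonempty with h0 | h0
    · have : bad s = ∅ := by
        rw [hbad]
        simp only
        rw [filter_eq_empty_iff]
        intro N _
        rw [h0]
        simp
      rw [this, card_empty, Nat.cast_zero]
      linarith
    · have hTc : (0 : ℝ) < (T s).card := by exact_mod_cast card_pos.2 h0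
      have e1 : ((bad s).card : ℝ) * (((T s).card : ℝ) / 2) ≤
          ∑ N ∈ bad s, (((T s).filter (fun b => N ∈ Bd s b)).card : ℝ) := by
        rw [← nsmul_eq_mul, ← sum_const]
        apply sum_le_sum
        intro N hN
        rw [hbad] at hN
        simp only at hN
        rw [mem_filter] at hN
        exact hN.2.le
      have e2 : ∑ N ∈ bad s, (((T s).filter (fun b => N ∈ Bd s b)).card : ℝ) ≤
          ∑ b ∈ T s, ((Bd s b).card : ℝ) := by
        have e3 : ∀ N, (((T s).filter (fun b => N ∈ Bd s b)).card : ℝ) =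
            ∑ b ∈ T s, if N ∈ Bd s b then (1 : ℝ) else 0 := by
          intro N
          rw [card_filter]
          push_cast
          rfl
        rw [sum_congr rfl fun N _ => e3 N, Finset.sum_comm]
        apply sum_le_sum
        intro b _
        rw [← sum_filter, sum_const, nsmul_eq_mul, mul_one]
        apply Nat.cast_le.2
        apply card_le_card
        intro N hN
        exact (mem_filter.1 hN).2
      have e4 : ∑ b ∈ T s, ((Bd s b).card : ℝ) ≤ ((T s).card : ℝ) * E := by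
        rw [← nsmul_eq_mul, ← sum_const]
        exact sum_le_sum fun b _ => (hBd s b).1
      have e5 : ((bad s).card : ℝ) * (((T s).card : ℝ) / 2) ≤ (2 * E) * (((T s).card : ℝ) / 2) := by
        linarith
      exact le_of_mul_le_mul_right e5 (by positivity)
  set SS := Fintype.piFinset (fun _ : Fin r => range (Wm X)) with hSS
  have hSScard : (SS.card : ℝ) = (Wm X : ℝ) ^ r := by
    rw [hSS, Fintype.card_piFinset]
    simp
  refine ⟨SS.biUnion bad, ?_, ?_⟩
  · have e1 : ((SS.biUnion bad).card : ℝ) ≤ ∑ s ∈ SS, (2 * E) := by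
      have e2 : ((SS.biUnion bad).card : ℝ) ≤ ∑ s ∈ SS, ((bad s).card : ℝ) := by
        exact_mod_cast card_biUnion_le
      exact e2.trans (sum_le_sum fun s _ => hbadc s)
    refine e1.trans ?_
    rw [sum_const, nsmul_eq_mul, hSScard, hE]
    have hZκr : ∀ j, (Z j : ℝ) ≤ κ * (X : ℝ) ^ (g j).natDegree := fun j => by exact_mod_cast hZκ j
    have e3 : ∏ j, ((Z j : ℝ) / Wm X) = (∏ j, (Z j : ℝ)) / (Wm X : ℝ) ^ r := by
      rw [prod_div_distrib]
      simp
    have e4 : ∏ j, (Z j : ℝ) ≤ (κ + 1) ^ r * PX := by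
      calc ∏ j, (Z j : ℝ) ≤ ∏ j, ((κ + 1) * (X : ℝ) ^ (g j).natDegree) := by
            apply Finset.prod_le_prod (fun _ _ => Nat.cast_nonneg _)
            intro j _
            have := hZκr j
            have h0 : 0 ≤ (X : ℝ) ^ (g j).natDegree := by positivity
            nlinarith
        _ = _ := by
            rw [prod_mul_distrib, ← hPX]
            simp only [prod_const, card_univ, Fintype.card_fin]
    have hκp : (0 : ℝ) < (κ + 1) ^ r := by positivity
    rw [e3]
    have e5 : (Wm X : ℝ) ^ r * (η / (4 * (κ + 1) ^ r) * ((∏ j, (Z j : ℝ)) / (Wm X : ℝ) ^ r)) ≤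
        η / 4 * PX := by
      calc (Wm X : ℝ) ^ r * (η / (4 * (κ + 1) ^ r) * ((∏ j, (Z j : ℝ)) / (Wm X : ℝ) ^ r)) =
          η / (4 * (κ + 1) ^ r) * ∏ j, (Z j : ℝ) := by field_simp
        _ ≤ η / (4 * (κ + 1) ^ r) * ((κ + 1) ^ r * PX) :=
            mul_le_mul_of_nonneg_left e4 (by positivity)
        _ = _ := by field_simp
    have e6 : (Wm X : ℝ) ^ r * (PX / ℓ ^ (r + 1)) ≤ η / 4 * PX := by
      have e7 : (Wm X : ℝ) ^ r ≤ ℓ ^ r := pow_le_pow_left₀ hW0.le hWl r
      have e8 : 1 ≤ η / 4 * ℓ := by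
        rw [div_le_iff₀ hη] at hl2
        linarith
      calc (Wm X : ℝ) ^ r * (PX / ℓ ^ (r + 1)) ≤ ℓ ^ r * (PX / ℓ ^ (r + 1)) :=
            mul_le_mul_of_nonneg_right e7 (by positivity)
        _ = PX * (1 / ℓ) := by
            rw [pow_succ]
            field_simp
        _ ≤ PX * (η / 4) := by
            apply mul_le_mul_of_nonneg_left _ hPX0.le
            rw [div_le_iff₀ (by linarith)]
            exact e8
        _ = _ := by ring
    calc (Wm X : ℝ) ^ r * (2 * (η / (4 * (κ + 1) ^ r) * ((∏ j, (Z j : ℝ)) / (Wm X : ℝ) ^ r) +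
          PX / ℓ ^ (r + 1))) =
        2 * ((Wm X : ℝ) ^ r * (η / (4 * (κ + 1) ^ r) * ((∏ j, (Z j : ℝ)) / (Wm X : ℝ) ^ r))) +
          2 * ((Wm X : ℝ) ^ r * (PX / ℓ ^ (r + 1))) := by ring
      _ ≤ 2 * (η / 4 * PX) + 2 * (η / 4 * PX) := by linarith
      _ = _ := by ring
  · intro N hN hNB
    rw [Fintype.mem_piFinset] at hN
    set s : Fin r → ℕ := fun j => N j % Wm X with hsd
    have hs : ∀ j, s j < Wm X := fun j => Nat.mod_lt _ hWp
    have hNs : N ∈ Fintype.piFinset (fun j => IA X (a0 j) (Z j) (s j)) := by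
      rw [Fintype.mem_piFinset]
      intro j
      unfold IA
      rw [mem_filter]
      exact ⟨hN j, rfl⟩
    have hnb : N ∉ bad s := by
      intro hcon
      apply hNB
      rw [mem_biUnion]
      refine ⟨s, ?_, hcon⟩
      rw [hSS, Fintype.mem_piFinset]
      exact fun j => mem_range.2 (hs j)
    have hnb2 : (((T s).filter (fun b => N ∈ Bd s b)).card : ℝ) ≤ ((T s).card : ℝ) / 2 := by
      by_contra hcon
      push Not at hcon
      apply hnb
      rw [hbad]
      simp only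
      rw [mem_filter]
      exact ⟨hNs, hcon⟩
    have hTs : rhoS σ g X (fun j => (N j : ℤ) - Y j) ⊆ T s := by
      intro b hb
      unfold rhoS at hb
      rw [mem_filter] at hb
      rw [hT]
      simp only
      rw [mem_filter]
      refine ⟨hb.1, hb.2.1, ?_⟩
      intro j N' hN' l hl hlW hdv
      apply hb.2.2 j l hl hlW
      unfold IA at hN'
      rw [mem_filter] at hN'
      have h3 : (l : ℤ) ∣ (N j : ℤ) - N' := by
        have h4 : N' ≡ N j [MOD l] := by
          have h5 : N' ≡ N j [MOD Wm X] := hN'.2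
          exact h5.of_dvd hlW
        exact Nat.modEq_iff_dvd.1 h4
      have h6 : ((N j : ℤ) - Y j) + σ j * (g j).eval (b : ℤ) =
          (((N' : ℤ) - Y j) + σ j * (g j).eval (b : ℤ)) + ((N j : ℤ) - N') := by ring
      rw [h6]
      exact hdv.add h3
    set G := (T s).filter (fun b => N ∉ Bd s b) with hG
    have hGc : ((rhoS σ g X (fun j => (N j : ℤ) - Y j)).card : ℝ) / 2 ≤ (G.card : ℝ) := by
      have e1 : ((T s).filter (fun b => N ∈ Bd s b)).card + G.card = (T s).card :=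
        card_filter_add_card_filter_not _
      have e2 : (((T s).filter (fun b => N ∈ Bd s b)).card : ℝ) + (G.card : ℝ) = (T s).card := by
        exact_mod_cast e1
      have e3 : ((rhoS σ g X (fun j => (N j : ℤ) - Y j)).card : ℝ) ≤ (T s).card := by
        exact_mod_cast card_le_card hTs
      linarith
    have hfin : (G.card : ℝ) * low ≤ ((RepA σ g A X (fun j => (N j : ℤ) - Y j)).card : ℝ) := by
      have e1 : (G.card : ℝ) * low ≤ ∑ b ∈ G, (((A X b).filter (fun n : ℕ => ∀ j,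
          (((N j : ℤ) - Y j) + σ j * (g j).eval (n : ℤ)).toNat.Prime)).card : ℝ) := by
        rw [← nsmul_eq_mul, ← sum_const]
        apply sum_le_sum
        intro b hb
        rw [hG, mem_filter] at hb
        exact (hBd s b).2 hs hb.1 N hNs hb.2
      refine e1.trans ?_
      have hmod : ∀ b ∈ G, ∀ n ∈ A X b, n ∈ SI X b := by
        intro b hb n hn
        rw [hG, mem_filter, hT] at hb
        simp only at hb
        rw [mem_filter, mem_range] at hb
        exact (mem_filter.1 ((hDn b hb.1.1 hb.1.2.1).1 hn)).1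
      have e2 : ∑ b ∈ G, ((A X b).filter (fun n : ℕ => ∀ j,
          (((N j : ℤ) - Y j) + σ j * (g j).eval (n : ℤ)).toNat.Prime)).card =
          (G.biUnion (fun b => (A X b).filter (fun n : ℕ => ∀ j,
          (((N j : ℤ) - Y j) + σ j * (g j).eval (n : ℤ)).toNat.Prime))).card := by
        rw [card_biUnion]
        intro b hb b' hb' hne
        change Disjoint _ _
        rw [Finset.disjoint_left]
        intro n hn hn'
        simp only [mem_filter] at hn hn'
        apply hne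
        have e5 := (mem_SI.1 (hmod b hb n hn.1)).2.2
        have e6 := (mem_SI.1 (hmod b' hb' n hn'.1)).2.2
        rw [← e5, ← e6]
      have e3 : (G.biUnion (fun b => (A X b).filter (fun n : ℕ => ∀ j,
          (((N j : ℤ) - Y j) + σ j * (g j).eval (n : ℤ)).toNat.Prime))).card ≤
          (RepA σ g A X (fun j => (N j : ℤ) - Y j)).card := by
        apply card_le_card
        intro n hn
        rw [mem_biUnion] at hn
        obtain ⟨b, hb, hn⟩ := hn
        rw [mem_filter] at hn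
        have e5 := mem_SI.1 (hmod b hb n hn.1)
        unfold RepA
        rw [mem_filter, mem_Ico]
        refine ⟨⟨e5.1, e5.2.1⟩, ?_, hn.2⟩
        rw [e5.2.2]
        exact hn.1
      exact_mod_cast e2.le.trans e3
    exact (mul_le_mul_of_nonneg_right hGc hlow0).trans hfin

end Pool.Agent.TH882.IS
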