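import Pool.Agent.TH882.I7
import Pool.Agent.TH882.I4
import Pool.Agent.H373R2.T7.Crt

/-! Goldbach representations with an isolated prime: the local factors. -/

set_option autoImplicit false

open Finset Filter Topology

namespace Pool.Agent.TH882.IS

open Pool.Agent.H361R2.PP
open Pool.Agent.TH882.PC (wX wX_one wX_pos)

/-- the primes up to `HH X` -/
noncomputable def PH (X : ℕ) : Finset ℕ := (range (HH X + 1)).filter Nat.Prime

lemma Wm_eq (X : ℕ) : Wm X = ∏ p ∈ PH X, p := rfl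

lemma dvd_Wm_iff (X l : ℕ) (hl : l.Prime) : l ∣ Wm X ↔ l ∈ PH X := by
  unfold Wm PH
  rw [hl.dvd_primorial_iff, mem_filter, mem_range]
  constructor
  · intro h
    exact ⟨by omega, hl⟩
  · intro h
    omega

/-- the number of admissible classes for one prime -/
lemma local_count (p N : ℕ) (hp : p.Prime) :
    (((range p).filter (fun a : ℕ => a ≠ 0 ∧ ¬ (p : ℤ) ∣ (N : ℤ) - a)).card : ℝ) =
      if p ∣ N then (p : ℝ) - 1 else (p : ℝ) - 2 := by
  have hp1 := hp.one_lt
  split_ifs with h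
  · have e1 : (range p).filter (fun a : ℕ => a ≠ 0 ∧ ¬ (p : ℤ) ∣ (N : ℤ) - a) = (range p).erase 0 := by
      ext a
      rw [mem_filter, mem_erase, mem_range]
      constructor
      · rintro ⟨h1, h2, -⟩
        exact ⟨h2, h1⟩
      · rintro ⟨h1, h2⟩
        refine ⟨h2, h1, ?_⟩
        intro hd
        have h3 : (p : ℤ) ∣ (N : ℤ) := by exact_mod_cast h
        have h4 : (p : ℤ) ∣ (a : ℤ) := by
          have := h3.sub hd
          simpa using this
        have h5 : p ∣ a := by exact_mod_cast h4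
        have := Nat.le_of_dvd (Nat.pos_of_ne_zero h1) h5
        omega
    rw [e1, card_erase_of_mem (mem_range.2 (by omega)), card_range, Nat.cast_sub (by omega)]
    simp
  · have hN0 : N % p ≠ 0 := fun h' => h (Nat.dvd_of_mod_eq_zero h')
    have e1 : (range p).filter (fun a : ℕ => a ≠ 0 ∧ ¬ (p : ℤ) ∣ (N : ℤ) - a) =
        ((range p).erase 0).erase (N % p) := by
      ext a
      rw [mem_filter, mem_erase, mem_erase, mem_range]
      constructor
      · rintro ⟨h1, h2, h3⟩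
        refine ⟨?_, h2, h1⟩
        intro h4
        apply h3
        rw [h4]
        push_cast
        exact Int.dvd_self_sub_emod
      · rintro ⟨h1, h2, h3⟩
        refine ⟨h3, h2, ?_⟩
        intro hd
        apply h1
        have h4 : N ≡ a [MOD p] := (Nat.modEq_iff_dvd.2 (by
          have : (a : ℤ) - N = -((N : ℤ) - a) := by ring
          rw [this]
          exact hd.neg_right))
        have h5 : N % p = a % p := h4
        rw [h5, Nat.mod_eq_of_lt h3]
    rw [e1, card_erase_of_mem (by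
      rw [mem_erase, mem_range]
      exact ⟨hN0, Nat.mod_lt _ hp.pos⟩), card_erase_of_mem (mem_range.2 (by omega)), card_range]
    have : p - 1 - 1 = p - 2 := by omega
    rw [this, Nat.cast_sub (by omega)]
    simp

lemma rho_G (X N : ℕ) : ((rhoS (fun _ : Fin 1 => (-1 : ℤ)) (fun _ => Polynomial.X) X
    (fun _ => (N : ℤ))).card : ℝ) = ∏ p ∈ PH X, if p ∣ N then (p : ℝ) - 1 else (p : ℝ) - 2 := by
  classical
  have h := Pool.Agent.H373R2.T7.crt_card (fun p a => a ≠ 0 ∧ ¬ (p : ℤ) ∣ (N : ℤ) - a) (PH X)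
    (fun p hp => (mem_filter.1 hp).2)
  have e1 : rhoS (fun _ : Fin 1 => (-1 : ℤ)) (fun _ => Polynomial.X) X (fun _ => (N : ℤ)) =
      (range (∏ p ∈ PH X, p)).filter (fun n => ∀ p ∈ PH X, n % p ≠ 0 ∧
        ¬ (p : ℤ) ∣ (N : ℤ) - ((n % p : ℕ) : ℤ)) := by
    unfold rhoS
    rw [Wm_eq]
    apply filter_congr
    intro b _
    rw [← Wm_eq]
    constructor
    · rintro ⟨h1, h2⟩ p hp
      have hpp := (mem_filter.1 hp).2
      have hpW := (dvd_Wm_iff X p hpp).2 hp
      constructor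
      · intro h3
        have h4 : p ∣ b := Nat.dvd_of_mod_eq_zero h3
        have h5 := Nat.dvd_gcd h4 hpW
        rw [h1] at h5
        exact hpp.one_lt.ne' (Nat.dvd_one.1 h5)
      · intro h3
        apply h2 0 p hpp hpW
        have h4 : (N : ℤ) + -1 * (Polynomial.X : Polynomial ℤ).eval (b : ℤ) =
            ((N : ℤ) - ((b % p : ℕ) : ℤ)) - ((b : ℤ) - (b : ℤ) % p) := by
          rw [Polynomial.eval_X]
          push_cast
          ring
        rw [h4]
        exact h3.sub Int.dvd_self_sub_emod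
    · intro h1
      constructor
      · rw [Nat.coprime_iff_gcd_eq_one]
        by_contra hcon
        obtain ⟨l, hl, hlg⟩ := Nat.exists_prime_and_dvd hcon
        have h2 : l ∣ b := hlg.trans (Nat.gcd_dvd_left _ _)
        have h3 : l ∣ Wm X := hlg.trans (Nat.gcd_dvd_right _ _)
        exact (h1 l ((dvd_Wm_iff X l hl).1 h3)).1 (Nat.mod_eq_zero_of_dvd h2)
      · intro j l hl hlW hd
        apply (h1 l ((dvd_Wm_iff X l hl).1 hlW)).2
        have h4 : (N : ℤ) - ((b % l : ℕ) : ℤ) =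
            ((N : ℤ) + -1 * (Polynomial.X : Polynomial ℤ).eval (b : ℤ)) +
              ((b : ℤ) - (b : ℤ) % l) := by
          rw [Polynomial.eval_X]
          push_cast
          ring
        rw [h4]
        exact hd.add Int.dvd_self_sub_emod
  rw [e1, h]
  push_cast
  apply prod_congr rfl
  intro p hp
  exact local_count p N (mem_filter.1 hp).2

lemma phi_Wm (X : ℕ) : (Nat.totient (Wm X) : ℝ) = ∏ p ∈ PH X, ((p : ℝ) - 1) := by
  rw [Wm_eq, Pool.Agent.H373R2.T7.totient_prod (PH X) (fun p hp => (mem_filter.1 hp).2)]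
  push_cast
  apply prod_congr rfl
  intro p hp
  have := (mem_filter.1 hp).2.one_lt
  rw [Nat.cast_sub (by omega), Nat.cast_one]

/-- a lower bound for the twin prime constant -/
lemma twin_const (H : ℕ) (S : Finset ℕ) (hS : ∀ p ∈ S, 3 ≤ p ∧ p ≤ H) :
    (1 : ℝ) / 2 ≤ ∏ p ∈ S, (1 - 1 / ((p : ℝ) - 1) ^ 2) := by
  have h1 : ∀ n : ℕ, ((n : ℝ) + 2) / (2 * (n + 1)) ≤
      ∏ p ∈ Ico 3 (3 + n), (1 - 1 / ((p : ℝ) - 1) ^ 2) := by
    intro n
    induction n with
    | zero => simp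
    | succ n ih =>
      rw [← add_assoc, prod_Ico_succ_top (by omega)]
      have e1 : (1 - 1 / (((3 + n : ℕ) : ℝ) - 1) ^ 2) = ((n : ℝ) + 1) * (n + 3) / (n + 2) ^ 2 := by
        have e0 : (((3 + n : ℕ) : ℝ) - 1) = (n : ℝ) + 2 := by push_cast; ring
        rw [e0, eq_div_iff (by positivity), sub_mul, one_mul, one_div,
          inv_mul_cancel₀ (by positivity)]
        ring
      rw [e1]
      calc (((n + 1 : ℕ) : ℝ) + 2) / (2 * (((n + 1 : ℕ) : ℝ) + 1)) =
          ((n : ℝ) + 2) / (2 * (n + 1)) * (((n : ℝ) + 1) * (n + 3) / (n + 2) ^ 2) := by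
            push_cast
            field_simp
            ring
        _ ≤ _ := mul_le_mul_of_nonneg_right ih (by positivity)
  have hf : ∀ p : ℕ, 3 ≤ p → 0 ≤ 1 - 1 / ((p : ℝ) - 1) ^ 2 ∧ 1 - 1 / ((p : ℝ) - 1) ^ 2 ≤ 1 := by
    intro p hp
    have hpr : (3 : ℝ) ≤ p := by exact_mod_cast hp
    have h2 : 1 ≤ ((p : ℝ) - 1) ^ 2 := by nlinarith
    constructor
    · rw [sub_nonneg, div_le_one (by linarith)]
      exact h2
    · have : 0 ≤ 1 / ((p : ℝ) - 1) ^ 2 := by positivity
      linarith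
  have h2 : ∏ p ∈ Ico 3 (3 + H), (1 - 1 / ((p : ℝ) - 1) ^ 2) ≤
      ∏ p ∈ S, (1 - 1 / ((p : ℝ) - 1) ^ 2) := by
    have hsub : S ⊆ Ico 3 (3 + H) := by
      intro p hp
      have := hS p hp
      rw [mem_Ico]
      omega
    rw [← prod_sdiff hsub]
    have h3 : ∏ p ∈ Ico 3 (3 + H) \ S, (1 - 1 / ((p : ℝ) - 1) ^ 2) ≤ 1 := by
      apply prod_le_one
      · intro p hp
        exact (hf p (mem_Ico.1 (Finset.mem_sdiff.1 hp).1).1).1
      · intro p hp
        exact (hf p (mem_Ico.1 (Finset.mem_sdiff.1 hp).1).1).2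
    have h4 : 0 ≤ ∏ p ∈ S, (1 - 1 / ((p : ℝ) - 1) ^ 2) :=
      prod_nonneg fun p hp => (hf p (hS p hp).1).1
    nlinarith
  refine le_trans ?_ ((h1 H).trans h2)
  rw [div_le_div_iff₀ (by norm_num) (by positivity)]
  linarith

/-- the truncated singular series -/
lemma sing_low (X N : ℕ) (hX : 2 ≤ HH X) (hN : 2 ∣ N) :
    1 / 2 * ∏ p ∈ (PH X).filter (fun p => p ∣ N), ((p : ℝ) / (p - 1)) ≤
      ((rhoS (fun _ : Fin 1 => (-1 : ℤ)) (fun _ => Polynomial.X) X
        (fun _ => (N : ℤ))).card : ℝ) * wX X / Nat.totient (Wm X) := by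
  have hP : ∀ p ∈ PH X, p.Prime ∧ p ≤ HH X := by
    intro p hp
    unfold PH at hp
    rw [mem_filter, mem_range] at hp
    exact ⟨hp.2, by omega⟩
  have h2 : (2 : ℕ) ∈ PH X := by
    unfold PH
    rw [mem_filter, mem_range]
    exact ⟨by omega, Nat.prime_two⟩
  unfold wX
  rw [rho_G, phi_Wm, Wm_eq]
  push_cast
  have e1 : (∏ p ∈ PH X, if p ∣ N then (p : ℝ) - 1 else (p : ℝ) - 2) *
      ((∏ p ∈ PH X, (p : ℝ)) / ∏ p ∈ PH X, ((p : ℝ) - 1)) / ∏ p ∈ PH X, ((p : ℝ) - 1) =
      ∏ p ∈ PH X, ((if p ∣ N then (p : ℝ) - 1 else (p : ℝ) - 2) * (p / ((p : ℝ) - 1)) /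
        ((p : ℝ) - 1)) := by
    rw [prod_div_distrib, prod_mul_distrib, prod_div_distrib]
  rw [e1, ← prod_filter_mul_prod_filter_not (PH X) (fun p => p ∣ N)]
  have e2 : ∏ p ∈ (PH X).filter (fun p => p ∣ N),
      ((if p ∣ N then (p : ℝ) - 1 else (p : ℝ) - 2) * (p / ((p : ℝ) - 1)) / ((p : ℝ) - 1)) =
      ∏ p ∈ (PH X).filter (fun p => p ∣ N), ((p : ℝ) / (p - 1)) := by
    apply prod_congr rfl
    intro p hp
    rw [mem_filter] at hp
    rw [if_pos hp.2]
    have h3 : (p : ℝ) - 1 ≠ 0 := by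
      have : (2 : ℝ) ≤ p := by exact_mod_cast (hP p hp.1).1.two_le
      intro h
      linarith
    field_simp
  have e3 : ∏ p ∈ (PH X).filter (fun p => ¬ p ∣ N),
      ((if p ∣ N then (p : ℝ) - 1 else (p : ℝ) - 2) * (p / ((p : ℝ) - 1)) / ((p : ℝ) - 1)) =
      ∏ p ∈ (PH X).filter (fun p => ¬ p ∣ N), (1 - 1 / ((p : ℝ) - 1) ^ 2) := by
    apply prod_congr rfl
    intro p hp
    rw [mem_filter] at hp
    rw [if_neg hp.2]
    have h3 : (p : ℝ) - 1 ≠ 0 := by
      have : (2 : ℝ) ≤ p := by exact_mod_cast (hP p hp.1).1.two_le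
      intro h
      linarith
    field_simp
    ring
  rw [e2, e3]
  have h4 := twin_const (HH X) ((PH X).filter (fun p => ¬ p ∣ N)) (by
    intro p hp
    rw [mem_filter] at hp
    have h5 := hP p hp.1
    refine ⟨?_, h5.2⟩
    have h6 := h5.1.two_le
    rcases Nat.lt_or_ge p 3 with h7 | h7
    · have : p = 2 := by omega
      subst this
      exact absurd hN hp.2
    · exact h7)
  have h5 : 0 ≤ ∏ p ∈ (PH X).filter (fun p => p ∣ N), ((p : ℝ) / (p - 1)) := by
    apply prod_nonneg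
    intro p hp
    rw [mem_filter] at hp
    have : (2 : ℝ) ≤ p := by exact_mod_cast (hP p hp.1).1.two_le
    apply div_nonneg <;> linarith
  nlinarith

end Pool.Agent.TH882.IS
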