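import Pool.Agent.W70.HR.Asm
import Pool.Agent.TH882.UB

/-! Primes with several close neighbours, in a positive proportion of the reduced classes. -/

set_option autoImplicit false

open Finset

namespace Pool.Agent.TH882.JS

open Pool.Agent.H361R2.PP
open Pool.Agent.W70.HR
open Pool.Agent.TH882.UB (ev_pow)

open Classical in
/-- the number of the other primes at distance at most `N` from `p` -/
noncomputable def nb (N p : ℕ) : ℕ :=
  ((Icc (p - N) (p + N)).filter (fun q => q.Prime ∧ q ≠ p)).card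

open Classical in
/-- the primes of a class with at least `m` close neighbours -/
noncomputable def KP (m : ℕ) (ε : ℝ) (X b : ℕ) : Finset ℕ :=
  (SI X b).filter (fun p => p.Prime ∧ m ≤ nb ⌊ε * Real.log X⌋₊ p)

open Classical in
/-- the shifts for which the class lies in `C` -/
noncomputable def VC (ε : ℝ) (X b : ℕ) (C : Finset ℕ) : Finset ℕ :=
  (Bw ε X b).filter (fun a => (b + a) % Wm X ∈ C)

/-- one shift, all classes -/
lemma shift_count (X a : ℕ) (C : Finset ℕ) (hC : C ⊆ range (Wm X)) :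
    ((range (Wm X)).filter (fun b => (b + a) % Wm X ∈ C)).card = C.card := by
  have hW := Wm_pos X
  apply card_bij (fun b _ => (b + a) % Wm X)
  · intro b hb
    exact (mem_filter.1 hb).2
  · intro b hb b' hb' h
    rw [mem_filter, mem_range] at hb hb'
    have h1 : b + a ≡ b' + a [MOD Wm X] := h
    have h2 : b ≡ b' [MOD Wm X] := Nat.ModEq.add_right_cancel' a h1
    have h3 : b % Wm X = b' % Wm X := h2
    rwa [Nat.mod_eq_of_lt hb.1, Nat.mod_eq_of_lt hb'.1] at h3
  · intro c hc
    have hc1 := mem_range.1 (hC hc)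
    refine ⟨(c + (Wm X * a - a)) % Wm X, ?_, ?_⟩
    · have e1 : a ≤ Wm X * a := Nat.le_mul_of_pos_left _ hW
      have e2 : c + (Wm X * a - a) + a = c + Wm X * a := by omega
      have e3 : ((c + (Wm X * a - a)) % Wm X + a) % Wm X = c := by
        rw [Nat.mod_add_mod, e2, Nat.add_mul_mod_self_left]
        exact Nat.mod_eq_of_lt hc1
      rw [mem_filter, mem_range]
      refine ⟨Nat.mod_lt _ hW, ?_⟩
      rw [e3]
      exact hc
    · have e1 : a ≤ Wm X * a := Nat.le_mul_of_pos_left _ hW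
      have e2 : c + (Wm X * a - a) + a = c + Wm X * a := by omega
      rw [Nat.mod_add_mod, e2, Nat.add_mul_mod_self_left]
      exact Nat.mod_eq_of_lt hc1

/-- the sum of the numbers of admissible shifts -/
lemma sum_VC (ε : ℝ) (X : ℕ) (C : Finset ℕ)
    (hC : C ⊆ (range (Wm X)).filter (fun b => b.Coprime (Wm X))) :
    ∑ b ∈ range (Wm X), (VC ε X b C).card = ⌊ε * Real.log X⌋₊ * C.card := by
  classical
  have h1 : ∀ b ∈ range (Wm X), (VC ε X b C).card =
      ∑ a ∈ Icc 1 ⌊ε * Real.log X⌋₊, if (b + a) % Wm X ∈ C then 1 else 0 := by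
    intro b _
    rw [← card_filter]
    congr 1
    ext a
    unfold VC Bw BB
    rw [mem_filter, mem_filter, mem_filter]
    constructor
    · rintro ⟨⟨h1, h2⟩, h3⟩
      exact ⟨h1, h3⟩
    · rintro ⟨h1, h3⟩
      refine ⟨⟨h1, ?_⟩, h3⟩
      have h4 := (mem_filter.1 (hC h3)).2
      unfold Nat.Coprime at h4 ⊢
      rw [Nat.gcd_comm, Nat.gcd_rec]
      exact h4
  rw [sum_congr rfl h1, Finset.sum_comm]
  have h2 : ∀ a ∈ Icc 1 ⌊ε * Real.log X⌋₊,
      (∑ b ∈ range (Wm X), if (b + a) % Wm X ∈ C then 1 else 0) = C.card := by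
    intro a _
    rw [← card_filter]
    exact shift_count X a C (fun c hc => (mem_filter.1 (hC hc)).1)
  rw [sum_congr rfl h2, sum_const, smul_eq_mul, Nat.card_Icc]
  simp

/-- from tuples to points with several primes, one class -/
lemma one_class (m : ℕ) (ε η : ℝ) (hε : 0 < ε) (hη : 0 < η) : ∃ c : ℝ, 0 < c ∧ ∃ X₀ : ℕ,
    ∀ X : ℕ, X₀ ≤ X → ∀ b : ℕ, b < Wm X → ∀ V ⊆ Bw ε X b,
    η * (Real.log X * (Nat.totient (Wm X) / Wm X)) ≤ (V.card : ℝ) →
    c * ((X : ℝ) / Wm X) ≤
      (((SI X b).filter (fun n => m + 1 ≤ (V.filter (fun a => (n + a).Prime)).card)).card : ℝ) := by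
  classical
  obtain ⟨K, hK, hMT⟩ := mt_final 1 le_rfl
  obtain ⟨δ, c0, hδ, hδ8, hc0, X1, h1⟩ := hMT ε (2 * (m + 1)) hε
  obtain ⟨Cm, X2, hCm, h2⟩ := rm (2 * (m + 1)) ε δ hε hδ hδ8
  obtain ⟨δ', hδ', X3, h3⟩ := den_final m ε η ((1 / 4 : ℝ) ^ m / 2) hε hη (by positivity)
  obtain ⟨X4, h4⟩ := Pool.Agent.H325R2.wtx.2 δ hδ (by linarith)
  set c1 : ℝ := (1 / 4 : ℝ) ^ m / 2 * δ' * η ^ (m + 1) with hc1
  have hc10 : 0 < c1 := by rw [hc1]; positivity
  refine ⟨c1 ^ 2 / Cm, by positivity, max (max X1 X2) (max X3 (max X4 16)), ?_⟩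
  intro X hX b hb V hV hVc
  have hX1 : X1 ≤ X := by omega
  have hX2 : X2 ≤ X := by omega
  have hX3 : X3 ≤ X := by omega
  have hX4 : X4 ≤ X := by omega
  have hX16 : 16 ≤ X := by omega
  have hXr : (16 : ℝ) ≤ X := by exact_mod_cast hX16
  have hX0 : (0 : ℝ) < X := by linarith
  have hL : 0 < Real.log X := Real.log_pos (by linarith)
  have hW0 : (0 : ℝ) < Wm X := by exact_mod_cast Wm_pos X
  have hφ0 : (0 : ℝ) < Nat.totient (Wm X) := by exact_mod_cast Nat.totient_pos.2 (Wm_pos X)
  obtain ⟨hV0, hU, -⟩ := h1 X hX1 b hb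
  have hmom := h2 X hX2 b hb hU
  have hden := h3 X hX3 b hb V hV hVc
  obtain ⟨hw1, -, hw3⟩ := h4 X hX4
  have hJ : 2 ^ 2 ^ JJ δ X ≤ X := by
    have h1 : (X : ℝ) ^ δ ≤ (X : ℝ) ^ (1 : ℝ) :=
      Real.rpow_le_rpow_of_exponent_le (by linarith) (by linarith)
    rw [Real.rpow_one] at h1
    exact_mod_cast hw1.trans h1
  set T : ℕ → ℕ := fun n => (V.filter (fun a => (n + a).Prime)).card with hT
  set G := (SI X b).filter (fun n => m + 1 ≤ T n) with hG
  -- moments
  have hm2 : ∑ n ∈ SI X b, (T n : ℝ) ^ (2 * (m + 1)) ≤ Cm * ((X : ℝ) / Wm X) := by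
    refine le_trans ?_ hmom
    apply sum_le_sum
    intro n hn
    apply pow_le_pow_left₀ (Nat.cast_nonneg _)
    rw [hT]
    simp only
    rw [card_filter]
    push_cast
    have hrg0 : ∀ a, 0 ≤ rg (P1 (HH X) (JJ δ X)) a n := by
      intro a
      unfold rg
      split_ifs <;> norm_num
    calc ∑ a ∈ V, (if (n + a).Prime then (1 : ℝ) else 0) ≤
        ∑ a ∈ V, rg (P1 (HH X) (JJ δ X)) a n := by
          apply sum_le_sum
          intro a ha
          have ha1 : 1 ≤ a := (mem_BB.1 (hV ha)).1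
          split_ifs with hp
          · rw [rg_prime (P1_lt hJ (mem_SI.1 hn).1 ha1) hp]
          · exact hrg0 a
      _ ≤ _ := sum_le_sum_of_subset_of_nonneg hV fun a _ _ => hrg0 a
  -- tuples
  have hm1 : c1 * ((X : ℝ) / Wm X) ≤ ∑ n ∈ G, (T n : ℝ) ^ (m + 1) := by
    have e1 : ∑ y ∈ goodY m δ' X b V, (cb X b y : ℝ) ≤ ∑ n ∈ G, (T n : ℝ) ^ (m + 1) := by
      have e2 : ∀ y ∈ goodY m δ' X b V, (cb X b y : ℝ) =
          ∑ n ∈ SI X b, if ∀ i, (n + y i).Prime then (1 : ℝ) else 0 := by
        intro y _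
        unfold cb
        rw [card_filter]
        push_cast
        rfl
      rw [sum_congr rfl e2, Finset.sum_comm]
      have e3 : ∀ n ∈ SI X b, (∑ y ∈ goodY m δ' X b V,
          if ∀ i, (n + y i).Prime then (1 : ℝ) else 0) ≤
          if n ∈ G then (T n : ℝ) ^ (m + 1) else 0 := by
        intro n hn
        rw [← sum_filter, sum_const, nsmul_eq_mul, mul_one]
        split_ifs with hnG
        · have e4 : (goodY m δ' X b V).filter (fun y => ∀ i, (n + y i).Prime) ⊆
              Fintype.piFinset (fun _ : Fin (m + 1) => V.filter (fun a => (n + a).Prime)) := by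
            intro y hy
            unfold goodY at hy
            rw [mem_filter, mem_filter, Fintype.mem_piFinset] at hy
            rw [Fintype.mem_piFinset]
            intro i
            rw [mem_filter]
            exact ⟨hy.1.1 i, hy.2 i⟩
          have e5 := card_le_card e4
          rw [Fintype.card_piFinset] at e5
          have e6 : ∏ _i : Fin (m + 1), (V.filter (fun a => (n + a).Prime)).card = T n ^ (m + 1) := by
            rw [prod_const, card_univ, Fintype.card_fin]
          rw [e6] at e5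
          exact_mod_cast e5
        · apply le_of_eq
          rw [Nat.cast_eq_zero, card_eq_zero, filter_eq_empty_iff]
          intro y hy hp
          apply hnG
          rw [hG, mem_filter]
          refine ⟨hn, ?_⟩
          unfold goodY at hy
          rw [mem_filter, Fintype.mem_piFinset] at hy
          rw [hT]
          simp only
          have e7 : (univ.image y).card = m + 1 := by
            rw [card_image_of_injective _ hy.2.1, card_univ, Fintype.card_fin]
          rw [← e7]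
          apply card_le_card
          intro a ha
          rw [mem_image] at ha
          obtain ⟨i, -, rfl⟩ := ha
          rw [mem_filter]
          exact ⟨hy.1 i, hp i⟩
      refine (sum_le_sum e3).trans ?_
      rw [← sum_filter]
      apply le_of_eq
      apply sum_congr _ (fun _ _ => rfl)
      ext n
      rw [mem_filter]
      constructor
      · exact fun h => h.2
      · intro h
        exact ⟨(mem_filter.1 h).1, h⟩
    refine le_trans ?_ e1
    have e2 : ((goodY m δ' X b V).card : ℝ) * (δ' * ex X (m + 1)) ≤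
        ∑ y ∈ goodY m δ' X b V, (cb X b y : ℝ) := by
      rw [← nsmul_eq_mul, ← sum_const]
      apply sum_le_sum
      intro y hy
      unfold goodY at hy
      rw [mem_filter] at hy
      exact hy.2.2
    refine le_trans ?_ e2
    have hex : 0 ≤ ex X (m + 1) := by unfold ex; positivity
    have e3 : (1 / 4 : ℝ) ^ m / 2 * (V.card : ℝ) ^ (m + 1) ≤ ((goodY m δ' X b V).card : ℝ) := by
      refine le_trans (le_of_eq ?_) hden
      ring
    have hAB : η * (Real.log X * (Nat.totient (Wm X) / Wm X)) *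
        ((Wm X : ℝ) / (Nat.totient (Wm X) * Real.log X)) = η := by
      field_simp
    calc c1 * ((X : ℝ) / Wm X) = ((1 / 4 : ℝ) ^ m / 2 *
          (η * (Real.log X * (Nat.totient (Wm X) / Wm X))) ^ (m + 1)) * (δ' * ex X (m + 1)) := by
          unfold ex
          have e4 : (1 / 4 : ℝ) ^ m / 2 *
              (η * (Real.log X * (Nat.totient (Wm X) / Wm X))) ^ (m + 1) * (δ' * ((X : ℝ) / Wm X *
              ((Wm X : ℝ) / (Nat.totient (Wm X) * Real.log X)) ^ (m + 1))) =
              (1 / 4 : ℝ) ^ m / 2 * δ' * (η * (Real.log X * (Nat.totient (Wm X) / Wm X)) *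
              ((Wm X : ℝ) / (Nat.totient (Wm X) * Real.log X))) ^ (m + 1) * ((X : ℝ) / Wm X) := by
            rw [mul_pow (η * (Real.log X * (Nat.totient (Wm X) / Wm X)))]
            ring
          rw [e4, hAB]
      _ ≤ ((1 / 4 : ℝ) ^ m / 2 * (V.card : ℝ) ^ (m + 1)) * (δ' * ex X (m + 1)) := by
          apply mul_le_mul_of_nonneg_right _ (by positivity)
          apply mul_le_mul_of_nonneg_left _ (by positivity)
          exact pow_le_pow_left₀ (by positivity) hVc _
      _ ≤ _ := mul_le_mul_of_nonneg_right e3 (by positivity)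
  -- Cauchy-Schwarz
  have hCS : (∑ n ∈ G, (T n : ℝ) ^ (m + 1)) ^ 2 ≤ (G.card : ℝ) * (Cm * ((X : ℝ) / Wm X)) := by
    have e1 := sum_mul_sq_le_sq_mul_sq G (fun _ => (1 : ℝ)) (fun n => (T n : ℝ) ^ (m + 1))
    simp only [one_mul, one_pow, sum_const, nsmul_eq_mul, mul_one] at e1
    refine e1.trans ?_
    apply mul_le_mul_of_nonneg_left _ (Nat.cast_nonneg _)
    refine le_trans ?_ hm2
    calc ∑ n ∈ G, ((T n : ℝ) ^ (m + 1)) ^ 2 = ∑ n ∈ G, (T n : ℝ) ^ (2 * (m + 1)) := by
          apply sum_congr rfl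
          intro n _
          rw [← pow_mul]
          congr 1
          ring
      _ ≤ _ := sum_le_sum_of_subset_of_nonneg (filter_subset _ _) fun n _ _ => by positivity
  have hXW : 0 < (X : ℝ) / Wm X := by positivity
  have e1 : (c1 * ((X : ℝ) / Wm X)) ^ 2 ≤ (G.card : ℝ) * (Cm * ((X : ℝ) / Wm X)) :=
    (pow_le_pow_left₀ (by positivity) hm1 2).trans hCS
  have e2 : c1 ^ 2 / Cm * ((X : ℝ) / Wm X) * (Cm * ((X : ℝ) / Wm X)) =
      (c1 * ((X : ℝ) / Wm X)) ^ 2 := by
    field_simp
  rw [← e2] at e1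
  exact le_of_mul_le_mul_right e1 (by positivity)

end Pool.Agent.TH882.JS
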