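import Pool.Agent.TH882.J3

/-! Most residue classes have few bad classes of primes. -/

set_option autoImplicit false

open Finset Filter Topology Polynomial

namespace Pool.Agent.TH882.JS

open Pool.Agent.H361R2.PP
open Pool.Agent.W70.HR
open Pool.Agent.TH882.UB
open Pool.Agent.TH882.PG
open Pool.Agent.TH882.PC (wX wX_one wX_pos)
open Pool.Agent.TH882.IS (rhoS RepA clsA)

open Classical in
lemma unit_shift (X : ℕ) (M : ℤ) :
    ((range (Wm X)).filter (fun s : ℕ => ∀ l : ℕ, l.Prime → l ∣ Wm X →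
      ¬ (l : ℤ) ∣ (s : ℤ) + M)).card ≤ Nat.totient (Wm X) := by
  classical
  rw [← Rd_card]
  have hW := Wm_pos X
  have hW' : (0 : ℤ) < Wm X := by exact_mod_cast hW
  apply card_le_card_of_injOn (fun s : ℕ => (((s : ℤ) + M) % (Wm X : ℤ)).toNat)
  · intro s hs
    have hs1 := mem_filter.1 (mem_coe.1 hs)
    have h0 : 0 ≤ ((s : ℤ) + M) % (Wm X : ℤ) := Int.emod_nonneg _ hW'.ne'
    have h1 : ((s : ℤ) + M) % (Wm X : ℤ) < Wm X := Int.emod_lt_of_pos _ hW'
    have h2 : (((((s : ℤ) + M) % (Wm X : ℤ)).toNat : ℕ) : ℤ) = ((s : ℤ) + M) % (Wm X : ℤ) :=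
      Int.toNat_of_nonneg h0
    apply mem_coe.2
    unfold Rd
    rw [mem_filter, mem_range]
    have hgoal : (((s : ℤ) + M) % (Wm X : ℤ)).toNat < Wm X := by omega
    refine ⟨hgoal, ?_⟩
    change Nat.Coprime (((s : ℤ) + M) % (Wm X : ℤ)).toNat (Wm X)
    rw [Nat.coprime_iff_gcd_eq_one]
    by_contra hcon
    obtain ⟨l, hl, hlg⟩ := Nat.exists_prime_and_dvd hcon
    have h3 : l ∣ (((s : ℤ) + M) % (Wm X : ℤ)).toNat := hlg.trans (Nat.gcd_dvd_left _ _)
    have h4 : l ∣ Wm X := hlg.trans (Nat.gcd_dvd_right _ _)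
    apply hs1.2 l hl h4
    have h5 : (l : ℤ) ∣ ((s : ℤ) + M) % (Wm X : ℤ) := by
      rw [← h2]
      exact_mod_cast h3
    have h6 : (l : ℤ) ∣ (Wm X : ℤ) := by exact_mod_cast h4
    exact (Int.dvd_iff_dvd_of_dvd_sub (h6.trans Int.dvd_self_sub_emod)).2 h5
  · intro s hs s' hs' h
    have hs1 := mem_filter.1 (mem_coe.1 hs)
    have hs2 := mem_filter.1 (mem_coe.1 hs')
    rw [mem_range] at hs1 hs2
    simp only at h
    have h0 : 0 ≤ ((s : ℤ) + M) % (Wm X : ℤ) := Int.emod_nonneg _ hW'.ne'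
    have h0' : 0 ≤ ((s' : ℤ) + M) % (Wm X : ℤ) := Int.emod_nonneg _ hW'.ne'
    have h2 : ((s : ℤ) + M) % (Wm X : ℤ) = ((s' : ℤ) + M) % (Wm X : ℤ) := by omega
    have h3 : (s : ℤ) + M ≡ s' + M [ZMOD Wm X] := h2
    have h4 : (s : ℤ) ≡ s' [ZMOD Wm X] := Int.ModEq.add_right_cancel' M h3
    have h5 : s ≡ s' [MOD Wm X] := (Int.natCast_modEq_iff).1 h4
    have h6 : s % Wm X = s' % Wm X := h5
    rwa [Nat.mod_eq_of_lt hs1.1, Nat.mod_eq_of_lt hs2.1] at h6

open Classical in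
/-- the bad classes which are admissible -/
noncomputable def BT {r : ℕ} (σ : Fin r → ℤ) (g : Fin r → ℤ[X]) (X : ℕ) (Y : Fin r → ℕ)
    (Bc : Finset ℕ) (s : Fin r → ℕ) : Finset ℕ :=
  Bc.filter (fun b => ∀ j, ∀ l : ℕ, l.Prime → l ∣ Wm X →
    ¬ (l : ℤ) ∣ (s j : ℤ) + (-(Y j : ℤ) + σ j * (g j).eval (b : ℤ)))

lemma BT_sum {r : ℕ} (σ : Fin r → ℤ) (g : Fin r → ℤ[X]) (X : ℕ) (Y : Fin r → ℕ)
    (Bc : Finset ℕ) :
    ∑ s ∈ Fintype.piFinset (fun _ : Fin r => range (Wm X)), (BT σ g X Y Bc s).card ≤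
      Bc.card * Nat.totient (Wm X) ^ r := by
  classical
  have h1 : ∀ s ∈ Fintype.piFinset (fun _ : Fin r => range (Wm X)), (BT σ g X Y Bc s).card =
      ∑ b ∈ Bc, if (∀ j, ∀ l : ℕ, l.Prime → l ∣ Wm X →
        ¬ (l : ℤ) ∣ (s j : ℤ) + (-(Y j : ℤ) + σ j * (g j).eval (b : ℤ))) then 1 else 0 := by
    intro s _
    unfold BT
    rw [card_filter]
  rw [sum_congr rfl h1, Finset.sum_comm, ← smul_eq_mul, ← sum_const]
  apply sum_le_sum
  intro b _
  rw [← card_filter]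
  calc ((Fintype.piFinset (fun _ : Fin r => range (Wm X))).filter (fun s => ∀ j, ∀ l : ℕ,
        l.Prime → l ∣ Wm X →
        ¬ (l : ℤ) ∣ (s j : ℤ) + (-(Y j : ℤ) + σ j * (g j).eval (b : ℤ)))).card ≤
      (Fintype.piFinset (fun j : Fin r => (range (Wm X)).filter (fun s : ℕ => ∀ l : ℕ, l.Prime →
        l ∣ Wm X → ¬ (l : ℤ) ∣ (s : ℤ) + (-(Y j : ℤ) + σ j * (g j).eval (b : ℤ))))).card := by
        apply card_le_card
        intro s hs
        rw [mem_filter, Fintype.mem_piFinset] at hs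
        rw [Fintype.mem_piFinset]
        intro j
        rw [mem_filter]
        exact ⟨hs.1 j, hs.2 j⟩
    _ = ∏ j : Fin r, ((range (Wm X)).filter (fun s : ℕ => ∀ l : ℕ, l.Prime →
        l ∣ Wm X → ¬ (l : ℤ) ∣ (s : ℤ) + (-(Y j : ℤ) + σ j * (g j).eval (b : ℤ)))).card :=
        Fintype.card_piFinset _
    _ ≤ ∏ _j : Fin r, Nat.totient (Wm X) :=
        Finset.prod_le_prod' fun j _ => unit_shift X _
    _ = _ := by rw [prod_const, card_univ, Fintype.card_fin]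

theorem markov {r : ℕ} (σ : Fin r → ℤ) (g : Fin r → ℤ[X]) (X : ℕ) (Y a0 Z : Fin r → ℕ)
    (haZ : ∀ j, a0 j ≤ Z j) (hZ : ∀ j, Wm X ≤ Z j) (Bc : Finset ℕ) (τ : ℝ) (hτ : 0 < τ) :
    (((Fintype.piFinset (fun j => Ico (a0 j) (Z j))).filter (fun N =>
      τ * ((Nat.totient (Wm X) : ℝ) ^ (r + 1) / (Wm X : ℝ) ^ r) <
        (((rhoS σ g X (fun j => (N j : ℤ) - Y j)).filter (fun b => b ∈ Bc)).card : ℝ))).card : ℝ) ≤
      (Bc.card : ℝ) / (τ * Nat.totient (Wm X)) * ∏ j, (2 * (Z j : ℝ)) := by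
  classical
  have hWp := Wm_pos X
  have hW0 : (0 : ℝ) < Wm X := by exact_mod_cast hWp
  have hφ0 : (0 : ℝ) < Nat.totient (Wm X) := by exact_mod_cast Nat.totient_pos.2 hWp
  set φ : ℝ := (Nat.totient (Wm X) : ℝ) with hφ
  set θ : ℝ := τ * (φ ^ (r + 1) / (Wm X : ℝ) ^ r) with hθ
  have hθ0 : 0 < θ := by rw [hθ]; positivity
  set SS := Fintype.piFinset (fun _ : Fin r => range (Wm X)) with hSS
  set bs := SS.filter (fun s => θ < ((BT σ g X Y Bc s).card : ℝ)) with hbs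
  have hbsc : (bs.card : ℝ) ≤ (Bc.card : ℝ) * φ ^ r / θ := by
    rw [le_div_iff₀ hθ0]
    have h1 : (bs.card : ℝ) * θ ≤ ∑ s ∈ bs, ((BT σ g X Y Bc s).card : ℝ) := by
      rw [← nsmul_eq_mul, ← sum_const]
      apply sum_le_sum
      intro s hs
      rw [hbs, mem_filter] at hs
      exact hs.2.le
    have h2 : ∑ s ∈ bs, ((BT σ g X Y Bc s).card : ℝ) ≤ ∑ s ∈ SS, ((BT σ g X Y Bc s).card : ℝ) :=
      sum_le_sum_of_subset_of_nonneg (filter_subset _ _) fun s _ _ => Nat.cast_nonneg _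
    have h3 : ∑ s ∈ SS, ((BT σ g X Y Bc s).card : ℝ) ≤ (Bc.card : ℝ) * φ ^ r := by
      have h4 : ((∑ s ∈ SS, (BT σ g X Y Bc s).card : ℕ) : ℝ) ≤
          ((Bc.card * Nat.totient (Wm X) ^ r : ℕ) : ℝ) := Nat.cast_le.2 (BT_sum σ g X Y Bc)
      rw [Nat.cast_sum, Nat.cast_mul, Nat.cast_pow] at h4
      exact h4
    linarith
  have hsub : (Fintype.piFinset (fun j => Ico (a0 j) (Z j))).filter (fun N => θ <
        (((rhoS σ g X (fun j => (N j : ℤ) - Y j)).filter (fun b => b ∈ Bc)).card : ℝ)) ⊆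
      bs.biUnion (fun s => Fintype.piFinset (fun j => IA X (a0 j) (Z j) (s j))) := by
    intro N hN
    rw [mem_filter, Fintype.mem_piFinset] at hN
    rw [mem_biUnion]
    refine ⟨fun j => N j % Wm X, ?_, ?_⟩
    · rw [hbs, mem_filter, hSS, Fintype.mem_piFinset]
      refine ⟨fun j => mem_range.2 (Nat.mod_lt _ hWp), lt_of_lt_of_le hN.2 ?_⟩
      apply Nat.cast_le.2
      apply card_le_card
      intro b hb
      rw [mem_filter] at hb
      unfold BT
      rw [mem_filter]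
      refine ⟨hb.2, ?_⟩
      intro j l hl hlW hdv
      have hb1 := hb.1
      unfold rhoS at hb1
      rw [mem_filter] at hb1
      apply hb1.2.2 j l hl hlW
      have h6 : (l : ℤ) ∣ (Wm X : ℤ) := by exact_mod_cast hlW
      have h7 : ((N j : ℤ) - Y j) + σ j * (g j).eval (b : ℤ) =
          (((N j % Wm X : ℕ) : ℤ) + (-(Y j : ℤ) + σ j * (g j).eval (b : ℤ))) +
            ((N j : ℤ) - (N j : ℤ) % Wm X) := by
        push_cast
        ring
      rw [h7]
      exact hdv.add (h6.trans Int.dvd_self_sub_emod)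
    · rw [Fintype.mem_piFinset]
      intro j
      unfold IA
      rw [mem_filter]
      exact ⟨hN.1 j, rfl⟩
  have h1 : (((Fintype.piFinset (fun j => Ico (a0 j) (Z j))).filter (fun N => θ <
        (((rhoS σ g X (fun j => (N j : ℤ) - Y j)).filter (fun b => b ∈ Bc)).card : ℝ))).card : ℝ) ≤
      ∑ s ∈ bs, ((Fintype.piFinset (fun j => IA X (a0 j) (Z j) (s j))).card : ℝ) := by
    exact_mod_cast (card_le_card hsub).trans card_biUnion_le
  refine h1.trans ?_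
  have h2 : ∀ s ∈ bs, ((Fintype.piFinset (fun j => IA X (a0 j) (Z j) (s j))).card : ℝ) ≤
      ∏ j, (2 * (Z j : ℝ) / Wm X) := by
    intro s hs
    rw [hbs, mem_filter, hSS, Fintype.mem_piFinset] at hs
    rw [Fintype.card_piFinset]
    push_cast
    apply Finset.prod_le_prod (fun _ _ => Nat.cast_nonneg _)
    intro j _
    refine (IA_card X (a0 j) (Z j) (s j) (mem_range.1 (hs.1 j)) (haZ j)).trans ?_
    have h3 : (Wm X : ℝ) ≤ Z j := by exact_mod_cast hZ j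
    rw [div_add_one hW0.ne', div_le_div_iff_of_pos_right hW0]
    have h4 : (0 : ℝ) ≤ a0 j := Nat.cast_nonneg _
    linarith
  refine (sum_le_sum h2).trans ?_
  rw [sum_const, nsmul_eq_mul]
  have h3 : ∏ j : Fin r, (2 * (Z j : ℝ) / Wm X) = (∏ j, (2 * (Z j : ℝ))) / (Wm X : ℝ) ^ r := by
    rw [prod_div_distrib]
    simp
  rw [h3]
  have h4 : 0 ≤ ∏ j : Fin r, (2 * (Z j : ℝ)) := prod_nonneg fun j _ => by positivity
  calc (bs.card : ℝ) * ((∏ j, (2 * (Z j : ℝ))) / (Wm X : ℝ) ^ r) ≤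
      ((Bc.card : ℝ) * φ ^ r / θ) * ((∏ j, (2 * (Z j : ℝ))) / (Wm X : ℝ) ^ r) :=
        mul_le_mul_of_nonneg_right hbsc (by positivity)
    _ = _ := by
        rw [hθ, pow_succ]
        field_simp

/-- sets of primes which are dense in most classes -/
def MostDense (A : ℕ → ℕ → Finset ℕ) : Prop :=
  (∀ X b, A X b ⊆ (SI X b).filter Nat.Prime) ∧
  ∀ η : ℝ, 0 < η → ∃ c : ℝ, 0 < c ∧ ∃ X₀ : ℕ, ∀ X : ℕ, X₀ ≤ X →
    (((Rd X).filter (fun b =>
      ((A X b).card : ℝ) < c * (X / (Nat.totient (Wm X) * Real.log X)))).card : ℝ) ≤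
      η * Nat.totient (Wm X)

theorem clsM {r : ℕ} (σ : Fin r → ℤ) (hσ : ∀ j, σ j = 1 ∨ σ j = -1)
    (g : Fin r → ℤ[X]) (hd : ∀ j, 1 ≤ (g j).natDegree)
    (hl : ∀ j, 0 < (g j).leadingCoeff) (κ : ℕ) (η τ : ℝ) (hη : 0 < η) (hτ : 0 < τ)
    (A : ℕ → ℕ → Finset ℕ) (hA : MostDense A) :
    ∃ c : ℝ, 0 < c ∧ ∃ X₀ : ℕ, ∀ X : ℕ, X₀ ≤ X → ∀ Y a0 Z : Fin r → ℕ,
    (∀ j, ∀ n : ℕ, X ≤ n → n ≤ 3 * X → 0 ≤ (Y j : ℤ) - σ j * (g j).eval (n : ℤ) ∧
      (Y j : ℤ) - σ j * (g j).eval (n : ℤ) < a0 j) → (∀ j, Y j < a0 j) →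
    (∀ j, a0 j + X ≤ Z j) → (∀ j, Z j ≤ κ * X ^ (g j).natDegree) →
    ∃ Bd : Finset (Fin r → ℕ), (Bd.card : ℝ) ≤ η * ∏ j, (X : ℝ) ^ (g j).natDegree ∧
      ∀ N ∈ Fintype.piFinset (fun j => Ico (a0 j) (Z j)), N ∉ Bd →
        τ * ((Nat.totient (Wm X) : ℝ) ^ (r + 1) / (Wm X : ℝ) ^ r) ≤
          ((rhoS σ g X (fun j => (N j : ℤ) - Y j)).card : ℝ) →
        c * (((rhoS σ g X (fun j => (N j : ℤ) - Y j)).card : ℝ) * wX X ^ r *
          (X / (Nat.totient (Wm X) * Real.log X ^ (r + 1)))) ≤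
        ((RepA σ g A X (fun j => (N j : ℤ) - Y j)).card : ℝ) := by
  classical
  set η0 : ℝ := η / 2 * (τ / 2) / (2 * (κ + 1)) ^ r with hη0
  have hη00 : 0 < η0 := by rw [hη0]; positivity
  obtain ⟨c0, hc0, X1, h1⟩ := hA.2 η0 hη00
  set Bc : ℕ → Finset ℕ := fun X => (Rd X).filter (fun b =>
      ((A X b).card : ℝ) < c0 * (X / (Nat.totient (Wm X) * Real.log X))) with hBc
  obtain ⟨X2, h2⟩ := clsG σ hσ g hd hl κ (η / 2) (by positivity) c0 hc0 A
    (fun X => Rd X \ Bc X) X1 (by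
      intro X _
      refine ⟨Finset.sdiff_subset, ?_⟩
      intro b hb
      refine ⟨hA.1 X b, ?_⟩
      rw [Finset.mem_sdiff, hBc] at hb
      simp only [mem_filter, not_and, not_lt] at hb
      exact hb.2 hb.1)
  set dd : ℝ := ((∑ j, (g j).natDegree : ℕ) : ℝ) + 1 with hdd
  have hdd0 : 0 < dd := by positivity
  refine ⟨c0 / (16 * dd ^ r), by positivity, max X1 (max X2 16), ?_⟩
  intro X hX Y a0 Z hYa hYa0 hZ6 hZκ
  have hX1 : X1 ≤ X := by omega
  have hX2 : X2 ≤ X := by omega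
  have hX16 : 16 ≤ X := by omega
  have hXr : (16 : ℝ) ≤ X := by exact_mod_cast hX16
  have hXp : (0 : ℝ) < X := by linarith
  set ℓ := Real.log X with hℓ
  have hl1 : 1 ≤ ℓ := by
    rw [hℓ, Real.le_log_iff_exp_le hXp]
    have := Real.exp_one_lt_d9
    linarith
  have hWp := Wm_pos X
  have hW0 : (0 : ℝ) < Wm X := by exact_mod_cast hWp
  have hφ0 : (0 : ℝ) < Nat.totient (Wm X) := by exact_mod_cast Nat.totient_pos.2 hWp
  have hWX : Wm X ≤ X := by
    have e1 := Pool.Agent.H325R2.wtx1 X hX16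
    have e2 : (Wm X : ℝ) ≤ X := by
      refine e1.trans ?_
      calc ℓ ^ (7 / 20 : ℝ) ≤ ℓ ^ (1 : ℝ) :=
            Real.rpow_le_rpow_of_exponent_le hl1 (by norm_num)
        _ = ℓ := Real.rpow_one _
        _ ≤ X := by
            have := Real.log_le_sub_one_of_pos hXp
            linarith
    exact_mod_cast e2
  obtain ⟨Bd, hB1, hB2⟩ := h2 X hX2 Y a0 Z hYa hYa0 hZ6 hZκ
  set Bd2 := (Fintype.piFinset (fun j => Ico (a0 j) (Z j))).filter (fun N =>
      τ / 2 * ((Nat.totient (Wm X) : ℝ) ^ (r + 1) / (Wm X : ℝ) ^ r) <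
        (((rhoS σ g X (fun j => (N j : ℤ) - Y j)).filter (fun b => b ∈ Bc X)).card : ℝ)) with hBd2
  have hm := markov σ g X Y a0 Z (fun j => by have := hZ6 j; omega)
    (fun j => by have := hZ6 j; omega) (Bc X) (τ / 2) (by positivity)
  rw [← hBd2] at hm
  set PX : ℝ := ∏ j, (X : ℝ) ^ (g j).natDegree with hPX
  have hPX0 : 0 < PX := prod_pos fun j _ => by positivity
  have hBd2c : (Bd2.card : ℝ) ≤ η / 2 * PX := by
    refine hm.trans ?_
    have e1 : ∏ j, (2 * (Z j : ℝ)) ≤ (2 * (κ + 1)) ^ r * PX := by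
      calc ∏ j, (2 * (Z j : ℝ)) ≤ ∏ j, ((2 * (κ + 1)) * (X : ℝ) ^ (g j).natDegree) := by
            apply Finset.prod_le_prod (fun _ _ => by positivity)
            intro j _
            have h3 : (Z j : ℝ) ≤ κ * (X : ℝ) ^ (g j).natDegree := by exact_mod_cast hZκ j
            have h0 : 0 ≤ (X : ℝ) ^ (g j).natDegree := by positivity
            nlinarith
        _ = _ := by
            rw [prod_mul_distrib, ← hPX]
            simp only [prod_const, card_univ, Fintype.card_fin]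
    have e2 : ((Bc X).card : ℝ) ≤ η0 * Nat.totient (Wm X) := h1 X hX1
    have e3 : ((Bc X).card : ℝ) / (τ / 2 * Nat.totient (Wm X)) ≤ η0 / (τ / 2) := by
      rw [div_le_div_iff₀ (by positivity) (by positivity)]
      nlinarith
    calc ((Bc X).card : ℝ) / (τ / 2 * Nat.totient (Wm X)) * ∏ j, (2 * (Z j : ℝ)) ≤
        η0 / (τ / 2) * ((2 * (κ + 1)) ^ r * PX) :=
          mul_le_mul e3 e1 (prod_nonneg fun j _ => by positivity) (by positivity)
      _ = _ := by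
          rw [hη0]
          field_simp
  refine ⟨Bd ∪ Bd2, ?_, ?_⟩
  · have e1 : ((Bd ∪ Bd2).card : ℝ) ≤ (Bd.card : ℝ) + Bd2.card := by
      exact_mod_cast card_union_le _ _
    linarith
  · intro N hN hNB hρ
    rw [mem_union, not_or] at hNB
    have e1 := hB2 N hN hNB.1
    set R := rhoS σ g X (fun j => (N j : ℤ) - Y j) with hR
    have e2 : ((R.filter (fun b => b ∈ Bc X)).card : ℝ) ≤
        τ / 2 * ((Nat.totient (Wm X) : ℝ) ^ (r + 1) / (Wm X : ℝ) ^ r) := by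
      by_contra hcon
      push Not at hcon
      apply hNB.2
      rw [hBd2, mem_filter]
      exact ⟨hN, hcon⟩
    have e3 : R.card ≤ (R.filter (fun b => b ∈ Rd X \ Bc X)).card +
        (R.filter (fun b => b ∈ Bc X)).card := by
      refine le_trans (card_le_card ?_) (card_union_le _ _)
      intro b hb
      rw [mem_union, mem_filter, mem_filter]
      by_cases hbB : b ∈ Bc X
      · exact Or.inr ⟨hb, hbB⟩
      · refine Or.inl ⟨hb, ?_⟩
        rw [Finset.mem_sdiff]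
        refine ⟨?_, hbB⟩
        rw [hR] at hb
        unfold rhoS at hb
        rw [mem_filter] at hb
        unfold Rd
        rw [mem_filter]
        exact ⟨hb.1, hb.2.1⟩
    have e4 : (R.card : ℝ) ≤ ((R.filter (fun b => b ∈ Rd X \ Bc X)).card : ℝ) +
        ((R.filter (fun b => b ∈ Bc X)).card : ℝ) := by exact_mod_cast e3
    have e5 : (R.card : ℝ) / 2 ≤ ((R.filter (fun b => b ∈ Rd X \ Bc X)).card : ℝ) := by linarith
    refine le_trans ?_ e1
    have hwp := wX_pos X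
    calc c0 / (16 * dd ^ r) * ((R.card : ℝ) * wX X ^ r *
          (X / (Nat.totient (Wm X) * ℓ ^ (r + 1)))) =
        ((R.card : ℝ) / 2) / 2 * (wX X ^ r *
          (c0 * (X / (Nat.totient (Wm X) * ℓ))) / 4 / (dd * ℓ) ^ r) := by
          rw [mul_pow, pow_succ]
          field_simp
          ring
      _ ≤ _ := by
          apply mul_le_mul_of_nonneg_right _ (by positivity)
          linarith

end Pool.Agent.TH882.JS
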