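import Pool.Agent.TH882.J4
import Pool.Agent.TH882.I8
import Pool.Agent.TH882.Cls2

/-! The truncated singular series of a system is bounded below for most vectors of constant terms. -/

set_option autoImplicit false

open Finset Polynomial

namespace Pool.Agent.TH882.KS

/-- the Chinese remainder theorem for vectors -/
lemma crt_vec {r : ℕ} (f : ℕ → (Fin r → ℕ) → ℝ) (S : Finset ℕ) (hS : ∀ p ∈ S, p.Prime) :
    ∑ k ∈ Fintype.piFinset (fun _ : Fin r => range (∏ p ∈ S, p)), ∏ p ∈ S, f p (fun j => k j % p) =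
      ∏ p ∈ S, ∑ k ∈ Fintype.piFinset (fun _ : Fin r => range p), f p k := by
  classical
  induction S using Finset.induction_on with
  | empty => simp
  | insert q S hq ih =>
    have hqp : q.Prime := hS q (mem_insert_self _ _)
    have hSp : ∀ p ∈ S, p.Prime := fun p hp => hS p (mem_insert_of_mem hp)
    have hcop : q.Coprime (∏ p ∈ S, p) := by
      apply Nat.Coprime.prod_right
      intro p hp
      exact (Nat.coprime_primes hqp (hSp p hp)).2 (fun h => hq (h ▸ hp))
    set Q := ∏ p ∈ S, p with hQd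
    have hQ : 0 < Q := prod_pos fun p hp => (hSp p hp).pos
    rw [prod_insert hq, prod_insert hq, ← ih hSp, sum_mul_sum, ← sum_product']
    apply sum_nbij' (i := fun k : Fin r → ℕ => ((fun j => k j % q, fun j => k j % Q) :
        (Fin r → ℕ) × (Fin r → ℕ)))
      (j := fun uv : (Fin r → ℕ) × (Fin r → ℕ) => fun j =>
        (Nat.chineseRemainder hcop (uv.1 j) (uv.2 j) : ℕ))
    · intro k hk
      rw [mem_product, Fintype.mem_piFinset, Fintype.mem_piFinset]
      exact ⟨fun j => mem_range.2 (Nat.mod_lt _ hqp.pos), fun j => mem_range.2 (Nat.mod_lt _ hQ)⟩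
    · intro uv huv
      rw [Fintype.mem_piFinset]
      intro j
      rw [mem_range]
      exact Nat.chineseRemainder_lt_mul hcop _ _ hqp.pos.ne' hQ.ne'
    · intro k hk
      rw [Fintype.mem_piFinset] at hk
      funext j
      have h1 := Nat.chineseRemainder_modEq_unique hcop (a := k j % q) (b := k j % Q) (z := k j)
        (Nat.mod_modEq _ _).symm (Nat.mod_modEq _ _).symm
      have h2 := Nat.chineseRemainder_lt_mul hcop (k j % q) (k j % Q) hqp.pos.ne' hQ.ne'
      have h3 : k j < q * Q := mem_range.1 (hk j)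
      have h4 : k j % (q * Q) = (Nat.chineseRemainder hcop (k j % q) (k j % Q) : ℕ) % (q * Q) := h1
      rw [Nat.mod_eq_of_lt h3, Nat.mod_eq_of_lt h2] at h4
      exact h4.symm
    · intro uv huv
      rw [mem_product, Fintype.mem_piFinset, Fintype.mem_piFinset] at huv
      have h1 : ∀ j, (Nat.chineseRemainder hcop (uv.1 j) (uv.2 j) : ℕ) % q = uv.1 j := by
        intro j
        have := (Nat.chineseRemainder hcop (uv.1 j) (uv.2 j)).2.1
        have h2 : (Nat.chineseRemainder hcop (uv.1 j) (uv.2 j) : ℕ) % q = uv.1 j % q := this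
        rw [h2, Nat.mod_eq_of_lt (mem_range.1 (huv.1 j))]
      have h2 : ∀ j, (Nat.chineseRemainder hcop (uv.1 j) (uv.2 j) : ℕ) % Q = uv.2 j := by
        intro j
        have := (Nat.chineseRemainder hcop (uv.1 j) (uv.2 j)).2.2
        have h2 : (Nat.chineseRemainder hcop (uv.1 j) (uv.2 j) : ℕ) % Q = uv.2 j % Q := this
        rw [h2, Nat.mod_eq_of_lt (mem_range.1 (huv.2 j))]
      simp only [h1, h2]
    · intro k hk
      rw [prod_insert hq]
      congr 1
      apply prod_congr rfl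
      intro p hp
      congr 1
      funext j
      change k j % p = (k j % Q) % p
      exact (Nat.mod_mod_of_dvd _ (dvd_prod_of_mem (fun p : ℕ => p) hp)).symm

/-- periodic functions on a box -/
lemma box_sum {r : ℕ} (F : (Fin r → ℕ) → ℝ) (hF : ∀ k, 0 ≤ F k) (Q : ℕ) (hQ : 0 < Q)
    (hper : ∀ k : Fin r → ℕ, F k = F (fun j => k j % Q)) (a Z : Fin r → ℕ) (haZ : ∀ j, a j ≤ Z j)
    (hZ : ∀ j, Q ≤ Z j) :
    ∑ k ∈ Fintype.piFinset (fun j => Ico (a j) (Z j)), F k ≤
      (∏ j, (2 * (Z j : ℝ) / Q)) * ∑ k ∈ Fintype.piFinset (fun _ : Fin r => range Q), F k := by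
  classical
  have hQ0 : (0 : ℝ) < Q := by exact_mod_cast hQ
  set B := Fintype.piFinset (fun j => Ico (a j) (Z j)) with hB
  set R := Fintype.piFinset (fun _ : Fin r => range Q) with hR
  have hmap : ∀ k ∈ B, (fun j => k j % Q) ∈ R := by
    intro k _
    rw [hR, Fintype.mem_piFinset]
    exact fun j => mem_range.2 (Nat.mod_lt _ hQ)
  rw [← sum_fiberwise_of_maps_to hmap, mul_sum]
  apply sum_le_sum
  intro s hs
  rw [hR, Fintype.mem_piFinset] at hs
  have h1 : ∑ k ∈ B.filter (fun k => (fun j => k j % Q) = s), F k =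
      ((B.filter (fun k => (fun j => k j % Q) = s)).card : ℝ) * F s := by
    rw [← nsmul_eq_mul, ← sum_const]
    apply sum_congr rfl
    intro k hk
    rw [mem_filter] at hk
    rw [hper k, hk.2]
  rw [h1]
  apply mul_le_mul_of_nonneg_right _ (hF s)
  have h2 : B.filter (fun k => (fun j => k j % Q) = s) ⊆
      Fintype.piFinset (fun j => (Ico (a j) (Z j)).filter (fun n => n ≡ s j [MOD Q])) := by
    intro k hk
    rw [mem_filter, hB, Fintype.mem_piFinset] at hk
    rw [Fintype.mem_piFinset]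
    intro j
    rw [mem_filter]
    refine ⟨hk.1 j, ?_⟩
    have h3 : k j % Q = s j := congrFun hk.2 j
    unfold Nat.ModEq
    rw [h3, Nat.mod_eq_of_lt (mem_range.1 (hs j))]
  have h3 := card_le_card h2
  rw [Fintype.card_piFinset] at h3
  have h4 : ((B.filter (fun k => (fun j => k j % Q) = s)).card : ℝ) ≤
      ∏ j, (((Ico (a j) (Z j)).filter (fun n => n ≡ s j [MOD Q])).card : ℝ) := by exact_mod_cast h3
  refine h4.trans ?_
  apply Finset.prod_le_prod (fun _ _ => Nat.cast_nonneg _)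
  intro j _
  have h5 := Pool.Agent.TH882.PC.cnt_Ico (a j) (Z j) Q (s j) (haZ j) hQ
  have h6 := (abs_le.1 h5).2
  have h7 : (Q : ℝ) ≤ Z j := by exact_mod_cast hZ j
  have h8 : ((Z j : ℝ) - a j) / Q + 1 ≤ 2 * (Z j : ℝ) / Q := by
    rw [div_add_one hQ0.ne', div_le_div_iff_of_pos_right hQ0]
    have h9 : (0 : ℝ) ≤ a j := Nat.cast_nonneg _
    linarith
  linarith

open Classical in
/-- the number of the admissible classes for one prime -/
noncomputable def rl {r : ℕ} (σ : Fin r → ℤ) (g : Fin r → ℤ[X]) (p : ℕ) (k : Fin r → ℕ) : ℕ :=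
  ((range p).filter (fun b : ℕ => b ≠ 0 ∧ ∀ j, ¬ (p : ℤ) ∣ (k j : ℤ) + σ j * (g j).eval (b : ℤ))).card

lemma rl_mod {r : ℕ} (σ : Fin r → ℤ) (g : Fin r → ℤ[X]) (p : ℕ) (k : Fin r → ℕ) :
    rl σ g p k = rl σ g p (fun j => k j % p) := by
  classical
  unfold rl
  congr 1
  apply filter_congr
  intro b _
  have h1 : ∀ j, ((p : ℤ) ∣ (k j : ℤ) + σ j * (g j).eval (b : ℤ) ↔
      (p : ℤ) ∣ ((k j % p : ℕ) : ℤ) + σ j * (g j).eval (b : ℤ)) := by
    intro j
    have h2 : (p : ℤ) ∣ (k j : ℤ) - ((k j % p : ℕ) : ℤ) := by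
      push_cast
      exact Int.dvd_self_sub_emod
    constructor
    · intro h
      have := h.sub h2
      have e : (k j : ℤ) + σ j * (g j).eval (b : ℤ) - ((k j : ℤ) - ((k j % p : ℕ) : ℤ)) =
        ((k j % p : ℕ) : ℤ) + σ j * (g j).eval (b : ℤ) := by ring
      rwa [e] at this
    · intro h
      have := h.add h2
      have e : ((k j % p : ℕ) : ℤ) + σ j * (g j).eval (b : ℤ) + ((k j : ℤ) - ((k j % p : ℕ) : ℤ)) =
        (k j : ℤ) + σ j * (g j).eval (b : ℤ) := by ring
      rwa [e] at this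
  constructor
  · rintro ⟨h2, h3⟩
    exact ⟨h2, fun j h => h3 j ((h1 j).2 h)⟩
  · rintro ⟨h2, h3⟩
    exact ⟨h2, fun j h => h3 j ((h1 j).1 h)⟩

lemma rl_sum {r : ℕ} (σ : Fin r → ℤ) (g : Fin r → ℤ[X]) (p : ℕ) (hp : p.Prime) :
    (p - 1) ^ (r + 1) ≤ ∑ k ∈ Fintype.piFinset (fun _ : Fin r => range p), rl σ g p k := by
  classical
  have h1 : ∀ k : Fin r → ℕ, rl σ g p k = ∑ b ∈ (range p).erase 0,
      if (∀ j, ¬ (p : ℤ) ∣ (k j : ℤ) + σ j * (g j).eval (b : ℤ)) then 1 else 0 := by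
    intro k
    unfold rl
    rw [← card_filter]
    congr 1
    ext b
    rw [mem_filter, mem_filter, mem_erase]
    tauto
  rw [sum_congr rfl fun k _ => h1 k, Finset.sum_comm]
  have h2 : ∀ b ∈ (range p).erase 0, (p - 1) ^ r ≤
      ∑ k ∈ Fintype.piFinset (fun _ : Fin r => range p),
        if (∀ j, ¬ (p : ℤ) ∣ (k j : ℤ) + σ j * (g j).eval (b : ℤ)) then 1 else 0 := by
    intro b _
    rw [← card_filter]
    have h3 : Fintype.piFinset (fun j : Fin r => (range p).filter (fun k : ℕ =>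
        ¬ (p : ℤ) ∣ (k : ℤ) + σ j * (g j).eval (b : ℤ))) ⊆
        (Fintype.piFinset (fun _ : Fin r => range p)).filter (fun k => ∀ j,
          ¬ (p : ℤ) ∣ (k j : ℤ) + σ j * (g j).eval (b : ℤ)) := by
      intro k hk
      rw [Fintype.mem_piFinset] at hk
      rw [mem_filter, Fintype.mem_piFinset]
      exact ⟨fun j => (mem_filter.1 (hk j)).1, fun j => (mem_filter.1 (hk j)).2⟩
    refine le_trans ?_ (card_le_card h3)
    rw [Fintype.card_piFinset]
    calc (p - 1) ^ r = ∏ _j : Fin r, (p - 1) := by rw [prod_const, card_univ, Fintype.card_fin]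
      _ ≤ _ := by
          apply Finset.prod_le_prod'
          intro j _
          have h4 := Pool.Agent.TH882.PG.lin_card p hp (σ j * (g j).eval (b : ℤ))
          have h5 := card_filter_add_card_filter_not (s := range p)
            (fun k : ℕ => (p : ℤ) ∣ (k : ℤ) + σ j * (g j).eval (b : ℤ))
          rw [card_range] at h5
          omega
  calc (p - 1) ^ (r + 1) = ∑ _b ∈ (range p).erase 0, (p - 1) ^ r := by
        rw [sum_const, smul_eq_mul, card_erase_of_mem (mem_range.2 hp.pos), card_range, pow_succ]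
        ring
    _ ≤ _ := sum_le_sum h2

lemma rl_low {r : ℕ} (σ : Fin r → ℤ) (hσ : ∀ j, σ j = 1 ∨ σ j = -1) (g : Fin r → ℤ[X])
    (hd : ∀ j, 1 ≤ (g j).natDegree) (p : ℕ) (hp : p.Prime)
    (hl : ∀ j, ¬ (p : ℤ) ∣ (g j).leadingCoeff) (k : Fin r → ℕ) :
    p ≤ rl σ g p k + 1 + ∑ j, (g j).natDegree := by
  classical
  have h1 : range p ⊆ (range p).filter (fun b : ℕ => b ≠ 0 ∧
      ∀ j, ¬ (p : ℤ) ∣ (k j : ℤ) + σ j * (g j).eval (b : ℤ)) ∪ {0} ∪
      univ.biUnion (fun j : Fin r => (range p).filter (fun b : ℕ =>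
        (p : ℤ) ∣ (k j : ℤ) + σ j * (g j).eval (b : ℤ))) := by
    intro b hb
    rw [mem_union, mem_union, mem_filter, mem_singleton, mem_biUnion]
    by_cases h0 : b = 0
    · exact Or.inl (Or.inr h0)
    · by_cases h2 : ∀ j, ¬ (p : ℤ) ∣ (k j : ℤ) + σ j * (g j).eval (b : ℤ)
      · exact Or.inl (Or.inl ⟨hb, h0, h2⟩)
      · push Not at h2
        obtain ⟨j, hj⟩ := h2
        exact Or.inr ⟨j, mem_univ _, mem_filter.2 ⟨hb, hj⟩⟩
  have h2 := card_le_card h1
  rw [card_range] at h2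
  have h3 := card_union_le ((range p).filter (fun b : ℕ => b ≠ 0 ∧
      ∀ j, ¬ (p : ℤ) ∣ (k j : ℤ) + σ j * (g j).eval (b : ℤ)) ∪ {0})
      (univ.biUnion (fun j : Fin r => (range p).filter (fun b : ℕ =>
        (p : ℤ) ∣ (k j : ℤ) + σ j * (g j).eval (b : ℤ))))
  have h4 := card_union_le ((range p).filter (fun b : ℕ => b ≠ 0 ∧
      ∀ j, ¬ (p : ℤ) ∣ (k j : ℤ) + σ j * (g j).eval (b : ℤ))) {0}
  rw [card_singleton] at h4
  have h5 : (univ.biUnion (fun j : Fin r => (range p).filter (fun b : ℕ =>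
        (p : ℤ) ∣ (k j : ℤ) + σ j * (g j).eval (b : ℤ)))).card ≤ ∑ j, (g j).natDegree := by
    refine card_biUnion_le.trans ?_
    apply sum_le_sum
    intro j _
    have h6 := Pool.Agent.TH882.PG.pol_card (g j) (hd j) (σ j) (hσ j) p hp (hl j) (k j) 0
    simpa using h6
  unfold rl
  omega

end Pool.Agent.TH882.KS
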