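import Pool.Agent.TH882.K1

/-! The truncated singular series of a system: local factors and their means. -/

set_option autoImplicit false

open Finset Polynomial

namespace Pool.Agent.TH882.KS

open Pool.Agent.H361R2.PP
open Pool.Agent.TH882.IS (rhoS PH Wm_eq dvd_Wm_iff phi_Wm)

/-- the normalised local factor -/
noncomputable def Sp {r : ℕ} (σ : Fin r → ℤ) (g : Fin r → ℤ[X]) (p : ℕ) (k : Fin r → ℕ) : ℝ :=
  (p : ℝ) ^ r * (rl σ g p k : ℝ) / ((p : ℝ) - 1) ^ (r + 1)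

lemma rl_up {r : ℕ} (σ : Fin r → ℤ) (g : Fin r → ℤ[X]) (p : ℕ) (hp : p.Prime) (k : Fin r → ℕ) :
    rl σ g p k + 1 ≤ p := by
  classical
  have h1 : rl σ g p k ≤ ((range p).erase 0).card := by
    unfold rl
    apply card_le_card
    intro b hb
    rw [mem_filter] at hb
    rw [mem_erase]
    exact ⟨hb.2.1, hb.1⟩
  rw [card_erase_of_mem (mem_range.2 hp.pos), card_range] at h1
  have := hp.two_le
  omega

/-- the quantity which measures the size of the system -/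
def Ez {r : ℕ} (g : Fin r → ℤ[X]) : ℕ := r + ∑ j, (g j).natDegree

/-- beyond this bound all is regular -/
def Pz {r : ℕ} (g : Fin r → ℤ[X]) : ℕ := 4 * Ez g + 4 + ∑ j, (g j).leadingCoeff.natAbs

lemma Pz_lc {r : ℕ} (g : Fin r → ℤ[X]) (hl : ∀ j, 0 < (g j).leadingCoeff) (p : ℕ) (hp : Pz g ≤ p)
    (j : Fin r) : ¬ (p : ℤ) ∣ (g j).leadingCoeff := by
  intro h
  have h1 := Int.le_of_dvd (hl j) h
  have h2 : (g j).leadingCoeff.natAbs ≤ ∑ j, (g j).leadingCoeff.natAbs :=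
    single_le_sum (f := fun j => (g j).leadingCoeff.natAbs) (fun i _ => Nat.zero_le _) (mem_univ j)
  unfold Pz at hp
  have := hl j
  omega

lemma Sp_facts {r : ℕ} (σ : Fin r → ℤ) (hσ : ∀ j, σ j = 1 ∨ σ j = -1) (g : Fin r → ℤ[X])
    (hd : ∀ j, 1 ≤ (g j).natDegree) (hl : ∀ j, 0 < (g j).leadingCoeff) (p : ℕ) (hp : p.Prime)
    (hP : Pz g ≤ p) (k : Fin r → ℕ) : 1 / 2 ≤ Sp σ g p k ∧
      (Sp σ g p k)⁻¹ ≤ 2 - Sp σ g p k + 8 * (Ez g : ℝ) ^ 2 / (p : ℝ) ^ 2 := by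
  have h1 := rl_up σ g p hp k
  have h2 := rl_low σ hσ g hd p hp (Pz_lc g hl p hP) k
  have h3 : 4 * Ez g + 4 ≤ p := by
    unfold Pz at hP
    omega
  set E := Ez g with hE
  have hEr : r + ∑ j, (g j).natDegree = E := rfl
  have hrE : r ≤ E := by omega
  have hpr : (4 : ℝ) * E + 4 ≤ p := by exact_mod_cast h3
  have hrr : (r : ℝ) ≤ E := by exact_mod_cast hrE
  have hE0 : (0 : ℝ) ≤ E := Nat.cast_nonneg _
  have hr0 : (0 : ℝ) ≤ r := Nat.cast_nonneg _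
  have hp0 : (0 : ℝ) < p := by linarith
  have hp1 : (0 : ℝ) < (p : ℝ) - 1 := by linarith
  have h1r : (rl σ g p k : ℝ) + 1 ≤ p := by exact_mod_cast h1
  have h2r : (p : ℝ) ≤ (rl σ g p k : ℝ) + 1 + ((∑ j, (g j).natDegree : ℕ) : ℝ) := by
    exact_mod_cast h2
  have hDr : (r : ℝ) + ((∑ j, (g j).natDegree : ℕ) : ℝ) = E := by exact_mod_cast hEr
  set A : ℝ := ((p : ℝ) - 1) ^ (r + 1) / (p : ℝ) ^ r with hA
  have hA1 : A ≤ (p : ℝ) - 1 := by
    rw [hA, div_le_iff₀ (by positivity), pow_succ, mul_comm]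
    apply mul_le_mul_of_nonneg_left _ hp1.le
    exact pow_le_pow_left₀ hp1.le (by linarith) r
  have hA2 : (p : ℝ) - (r + 1) ≤ A := by
    have e1 := one_add_mul_le_pow (a := -(1 / (p : ℝ))) (by
      have : 1 / (p : ℝ) ≤ 1 := by
        rw [div_le_one hp0]
        linarith
      linarith) (r + 1)
    have e2 : A = p * (1 + -(1 / (p : ℝ))) ^ (r + 1) := by
      have e3 : (1 + -(1 / (p : ℝ))) = ((p : ℝ) - 1) / p := by
        field_simp
        ring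
      rw [e3, hA, div_pow, pow_succ (p : ℝ) r]
      field_simp
    rw [e2]
    have e4 := mul_le_mul_of_nonneg_left e1 hp0.le
    refine le_trans (le_of_eq ?_) e4
    push_cast
    field_simp
    ring
  have hA3 : (p : ℝ) / 2 ≤ A := by linarith
  have hA0 : 0 < A := by linarith
  set u := Sp σ g p k with hu
  have hu1 : u = (rl σ g p k : ℝ) / A := by
    rw [hu, hA]
    unfold Sp
    field_simp
  have hu2 : u - 1 = ((rl σ g p k : ℝ) - A) / A := by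
    rw [hu1]
    field_simp
  have hdiff : |(rl σ g p k : ℝ) - A| ≤ E := by
    rw [abs_le]
    constructor <;> linarith
  have hu3 : |u - 1| ≤ 2 * E / p := by
    rw [hu2, abs_div, abs_of_pos hA0, div_le_div_iff₀ hA0 hp0]
    have := mul_le_mul hdiff hA3 (by positivity) hE0
    nlinarith [abs_nonneg ((rl σ g p k : ℝ) - A)]
  have hu4 : 2 * (E : ℝ) / p ≤ 1 / 2 := by
    rw [div_le_div_iff₀ hp0 (by norm_num)]
    linarith
  have hu5 : 1 / 2 ≤ u := by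
    have := (abs_le.1 (hu3.trans hu4)).1
    linarith
  refine ⟨hu5, ?_⟩
  have hu6 : (u - 1) ^ 2 ≤ (2 * E / p) ^ 2 := by
    rw [← sq_abs]
    exact pow_le_pow_left₀ (abs_nonneg _) hu3 2
  have hu7 : u⁻¹ ≤ 2 - u + 2 * (u - 1) ^ 2 := by
    rw [inv_le_iff_one_le_mul₀ (by linarith)]
    nlinarith [sq_nonneg (u - 1), mul_nonneg (sq_nonneg (u - 1)) (by linarith : (0 : ℝ) ≤ 2 * u - 1)]
  have hu8 : 2 * (2 * (E : ℝ) / p) ^ 2 = 8 * (E : ℝ) ^ 2 / (p : ℝ) ^ 2 := by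
    rw [div_pow, mul_pow]
    ring
  linarith

lemma Sp_inv_sum {r : ℕ} (σ : Fin r → ℤ) (hσ : ∀ j, σ j = 1 ∨ σ j = -1) (g : Fin r → ℤ[X])
    (hd : ∀ j, 1 ≤ (g j).natDegree) (hl : ∀ j, 0 < (g j).leadingCoeff) (p : ℕ) (hp : p.Prime)
    (hP : Pz g ≤ p) : ∑ k ∈ Fintype.piFinset (fun _ : Fin r => range p), (Sp σ g p k)⁻¹ ≤
      (p : ℝ) ^ r * (1 + 8 * (Ez g : ℝ) ^ 2 / (p : ℝ) ^ 2) := by
  classical
  have hp2 : (2 : ℝ) ≤ p := by exact_mod_cast hp.two_le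
  have hp1 : (0 : ℝ) < (p : ℝ) - 1 := by linarith
  have h1 := rl_sum σ g p hp
  have h1r : ((p : ℝ) - 1) ^ (r + 1) ≤
      ∑ k ∈ Fintype.piFinset (fun _ : Fin r => range p), (rl σ g p k : ℝ) := by
    have h2 : (((p - 1) ^ (r + 1) : ℕ) : ℝ) ≤
      ((∑ k ∈ Fintype.piFinset (fun _ : Fin r => range p), rl σ g p k : ℕ) : ℝ) := Nat.cast_le.2 h1
    rw [Nat.cast_pow, Nat.cast_sub hp.one_lt.le, Nat.cast_one, Nat.cast_sum] at h2
    exact h2
  have hcard : ((Fintype.piFinset (fun _ : Fin r => range p)).card : ℝ) = (p : ℝ) ^ r := by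
    rw [Fintype.card_piFinset]
    simp
  have h3 : (p : ℝ) ^ r ≤ ∑ k ∈ Fintype.piFinset (fun _ : Fin r => range p), Sp σ g p k := by
    unfold Sp
    rw [← sum_div, ← mul_sum, le_div_iff₀ (by positivity)]
    exact mul_le_mul_of_nonneg_left h1r (by positivity)
  calc ∑ k ∈ Fintype.piFinset (fun _ : Fin r => range p), (Sp σ g p k)⁻¹ ≤
      ∑ k ∈ Fintype.piFinset (fun _ : Fin r => range p),
        (2 - Sp σ g p k + 8 * (Ez g : ℝ) ^ 2 / (p : ℝ) ^ 2) :=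
        sum_le_sum fun k _ => (Sp_facts σ hσ g hd hl p hp hP k).2
    _ = (p : ℝ) ^ r * 2 - ∑ k ∈ Fintype.piFinset (fun _ : Fin r => range p), Sp σ g p k +
        (p : ℝ) ^ r * (8 * (Ez g : ℝ) ^ 2 / (p : ℝ) ^ 2) := by
        rw [sum_add_distrib, sum_sub_distrib, sum_const, sum_const, nsmul_eq_mul, nsmul_eq_mul, hcard]
    _ ≤ _ := by
        rw [mul_add]
        linarith

lemma prod_inv {r : ℕ} (σ : Fin r → ℤ) (hσ : ∀ j, σ j = 1 ∨ σ j = -1) (g : Fin r → ℤ[X])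
    (hd : ∀ j, 1 ≤ (g j).natDegree) (hl : ∀ j, 0 < (g j).leadingCoeff) (S : Finset ℕ)
    (hS : ∀ p ∈ S, p.Prime ∧ Pz g ≤ p) :
    ∑ k ∈ Fintype.piFinset (fun _ : Fin r => range (∏ p ∈ S, p)), ∏ p ∈ S, (Sp σ g p k)⁻¹ ≤
      ((∏ p ∈ S, p : ℕ) : ℝ) ^ r * Real.exp (8 * (Ez g : ℝ) ^ 2) := by
  classical
  have h1 := crt_vec (r := r) (fun p k => (Sp σ g p k)⁻¹) S (fun p hp => (hS p hp).1)
  have h2 : ∀ (p : ℕ) (k : Fin r → ℕ), Sp σ g p (fun j => k j % p) = Sp σ g p k := by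
    intro p k
    unfold Sp
    rw [← rl_mod]
  simp only [h2] at h1
  rw [h1]
  have hE0 : 0 ≤ 8 * (Ez g : ℝ) ^ 2 := by positivity
  calc ∏ p ∈ S, ∑ k ∈ Fintype.piFinset (fun _ : Fin r => range p), (Sp σ g p k)⁻¹ ≤
      ∏ p ∈ S, ((p : ℝ) ^ r * Real.exp (8 * (Ez g : ℝ) ^ 2 * (1 / ((p : ℝ) * ((p : ℝ) - 1))))) := by
        apply Finset.prod_le_prod
        · intro p hp
          apply sum_nonneg
          intro k _
          have := (Sp_facts σ hσ g hd hl p (hS p hp).1 (hS p hp).2 k).1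
          apply inv_nonneg.2
          linarith
        · intro p hp
          refine (Sp_inv_sum σ hσ g hd hl p (hS p hp).1 (hS p hp).2).trans ?_
          apply mul_le_mul_of_nonneg_left _ (by positivity)
          have hp2 : (2 : ℝ) ≤ p := by exact_mod_cast (hS p hp).1.two_le
          have e1 : 1 / (p : ℝ) ^ 2 ≤ 1 / ((p : ℝ) * ((p : ℝ) - 1)) := by
            apply one_div_le_one_div_of_le
            · nlinarith
            · nlinarith
          have e2 : 8 * (Ez g : ℝ) ^ 2 / (p : ℝ) ^ 2 ≤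
              8 * (Ez g : ℝ) ^ 2 * (1 / ((p : ℝ) * ((p : ℝ) - 1))) := by
            rw [div_eq_mul_one_div]
            exact mul_le_mul_of_nonneg_left e1 hE0
          have e3 := Real.add_one_le_exp (8 * (Ez g : ℝ) ^ 2 * (1 / ((p : ℝ) * ((p : ℝ) - 1))))
          linarith
    _ = ((∏ p ∈ S, p : ℕ) : ℝ) ^ r *
        Real.exp (8 * (Ez g : ℝ) ^ 2 * ∑ p ∈ S, 1 / ((p : ℝ) * ((p : ℝ) - 1))) := by
        rw [prod_mul_distrib, mul_sum, Real.exp_sum]
        push_cast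
        rw [prod_pow]
    _ ≤ _ := by
        apply mul_le_mul_of_nonneg_left _ (by positivity)
        apply Real.exp_le_exp.2
        have e4 := Pool.Agent.TH882.PC.tail_sum 1 le_rfl S (fun p hp => (hS p hp).1.one_lt)
        rw [Nat.cast_one, div_one] at e4
        nlinarith

lemma few_small {r : ℕ} (σ : Fin r → ℤ) (hσ : ∀ j, σ j = 1 ∨ σ j = -1) (g : Fin r → ℤ[X])
    (hd : ∀ j, 1 ≤ (g j).natDegree) (hl : ∀ j, 0 < (g j).leadingCoeff) (S : Finset ℕ)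
    (hS : ∀ p ∈ S, p.Prime ∧ Pz g ≤ p) (T : ℝ) (hT : 0 < T) (a Z : Fin r → ℕ)
    (haZ : ∀ j, a j ≤ Z j) (hZ : ∀ j, ∏ p ∈ S, p ≤ Z j) :
    (((Fintype.piFinset (fun j => Ico (a j) (Z j))).filter
      (fun k => ∏ p ∈ S, Sp σ g p k < 1 / T)).card : ℝ) ≤
      Real.exp (8 * (Ez g : ℝ) ^ 2) / T * ∏ j, (2 * (Z j : ℝ)) := by
  classical
  have hQ : 0 < ∏ p ∈ S, p := prod_pos fun p hp => (hS p hp).1.pos
  have hQ0 : (0 : ℝ) < ((∏ p ∈ S, p : ℕ) : ℝ) := by exact_mod_cast hQ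
  have hSp0 : ∀ p ∈ S, ∀ k, 0 < Sp σ g p k := by
    intro p hp k
    have := (Sp_facts σ hσ g hd hl p (hS p hp).1 (hS p hp).2 k).1
    linarith
  set F : (Fin r → ℕ) → ℝ := fun k => ∏ p ∈ S, (Sp σ g p k)⁻¹ with hF
  have hF0 : ∀ k, 0 ≤ F k := by
    intro k
    rw [hF]
    exact prod_nonneg fun p hp => (inv_pos.2 (hSp0 p hp k)).le
  have h2 : ∀ (p : ℕ) (k : Fin r → ℕ), Sp σ g p (fun j => k j % p) = Sp σ g p k := by
    intro p k
    unfold Sp
    rw [← rl_mod]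
  have h1 := box_sum F hF0 (∏ p ∈ S, p) hQ (by
    intro k
    rw [hF]
    simp only
    apply prod_congr rfl
    intro p hp
    congr 1
    rw [← h2 p k, ← h2 p (fun j => k j % ∏ p ∈ S, p)]
    congr 1
    funext j
    exact (Nat.mod_mod_of_dvd _ (dvd_prod_of_mem (fun p : ℕ => p) hp)).symm) a Z haZ hZ
  have h3 := prod_inv σ hσ g hd hl S hS
  set B := (Fintype.piFinset (fun j => Ico (a j) (Z j))).filter
      (fun k => ∏ p ∈ S, Sp σ g p k < 1 / T) with hB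
  have h4 : (B.card : ℝ) * T ≤ ∑ k ∈ Fintype.piFinset (fun j => Ico (a j) (Z j)), F k := by
    rw [← nsmul_eq_mul, ← sum_const]
    calc ∑ _k ∈ B, T ≤ ∑ k ∈ B, F k := by
          apply sum_le_sum
          intro k hk
          rw [hB, mem_filter] at hk
          rw [hF]
          simp only
          rw [prod_inv_distrib]
          have h5 : 0 < ∏ p ∈ S, Sp σ g p k := prod_pos fun p hp => hSp0 p hp k
          rw [le_inv_comm₀ hT h5]
          rw [← one_div]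
          exact hk.2.le
      _ ≤ _ := sum_le_sum_of_subset_of_nonneg (filter_subset _ _) fun k _ _ => hF0 k
  have h5 : (∏ j : Fin r, (2 * (Z j : ℝ) / ((∏ p ∈ S, p : ℕ) : ℝ))) *
      (((∏ p ∈ S, p : ℕ) : ℝ) ^ r * Real.exp (8 * (Ez g : ℝ) ^ 2)) =
      Real.exp (8 * (Ez g : ℝ) ^ 2) * ∏ j, (2 * (Z j : ℝ)) := by
    rw [prod_div_distrib]
    simp only [prod_const, card_univ, Fintype.card_fin]
    field_simp
  have h6 : 0 ≤ ∏ j : Fin r, (2 * (Z j : ℝ) / ((∏ p ∈ S, p : ℕ) : ℝ)) :=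
    prod_nonneg fun j _ => by positivity
  have h7 : (B.card : ℝ) * T ≤ Real.exp (8 * (Ez g : ℝ) ^ 2) * ∏ j, (2 * (Z j : ℝ)) := by
    rw [← h5]
    exact h4.trans (h1.trans (mul_le_mul_of_nonneg_left h3 h6))
  rw [div_mul_eq_mul_div, le_div_iff₀ hT]
  exact h7

end Pool.Agent.TH882.KS
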