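import Pool.Agent.TH882.K2

/-! The truncated singular series is bounded below for most vectors without local obstruction. -/

set_option autoImplicit false

open Finset Polynomial

namespace Pool.Agent.TH882.KS

open Pool.Agent.H361R2.PP
open Pool.Agent.TH882.IS (rhoS PH Wm_eq dvd_Wm_iff phi_Wm)

/-- no local obstruction -/
def LocV {r : ℕ} (σ : Fin r → ℤ) (g : Fin r → ℤ[X]) (k : Fin r → ℕ) : Prop :=
  ∀ l : ℕ, l.Prime → ∃ x : ℤ, ¬ (l : ℤ) ∣ x ∧ ∀ j, ¬ (l : ℤ) ∣ (k j : ℤ) + σ j * (g j).eval x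

lemma rho_prod {r : ℕ} (σ : Fin r → ℤ) (g : Fin r → ℤ[X]) (X : ℕ) (k : Fin r → ℕ) :
    (rhoS σ g X (fun j => (k j : ℤ))).card = ∏ p ∈ PH X, rl σ g p k := by
  classical
  have h := Pool.Agent.H373R2.T7.crt_card (fun p a => a ≠ 0 ∧
    ∀ j, ¬ (p : ℤ) ∣ (k j : ℤ) + σ j * (g j).eval (a : ℤ)) (PH X) (fun p hp => (mem_filter.1 hp).2)
  have hev : ∀ (p b : ℕ) (j : Fin r), (p : ℤ) ∣ ((k j : ℤ) + σ j * (g j).eval (b : ℤ)) -
      ((k j : ℤ) + σ j * (g j).eval ((b % p : ℕ) : ℤ)) := by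
    intro p b j
    have e1 : (p : ℤ) ∣ (b : ℤ) - ((b % p : ℕ) : ℤ) := by
      push_cast
      exact Int.dvd_self_sub_emod
    have e2 := e1.trans (Polynomial.sub_dvd_eval_sub (b : ℤ) ((b % p : ℕ) : ℤ) (g j))
    have e3 : ((k j : ℤ) + σ j * (g j).eval (b : ℤ)) -
      ((k j : ℤ) + σ j * (g j).eval ((b % p : ℕ) : ℤ)) =
      σ j * ((g j).eval (b : ℤ) - (g j).eval ((b % p : ℕ) : ℤ)) := by ring
    rw [e3]
    exact e2.mul_left _
  have e1 : rhoS σ g X (fun j => (k j : ℤ)) =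
      (range (∏ p ∈ PH X, p)).filter (fun n => ∀ p ∈ PH X, n % p ≠ 0 ∧
        ∀ j, ¬ (p : ℤ) ∣ (k j : ℤ) + σ j * (g j).eval ((n % p : ℕ) : ℤ)) := by
    unfold rhoS
    rw [Wm_eq]
    apply filter_congr
    intro b _
    rw [← Wm_eq]
    constructor
    · rintro ⟨h1, h2⟩ p hp
      have hpp := (mem_filter.1 hp).2
      have hpW := (dvd_Wm_iff X p hpp).2 hp
      constructor
      · intro h3
        have h4 : p ∣ b := Nat.dvd_of_mod_eq_zero h3
        have h5 := Nat.dvd_gcd h4 hpW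
        rw [h1] at h5
        exact hpp.one_lt.ne' (Nat.dvd_one.1 h5)
      · intro j h3
        apply h2 j p hpp hpW
        exact (Int.dvd_iff_dvd_of_dvd_sub (hev p b j)).2 h3
    · intro h1
      constructor
      · rw [Nat.coprime_iff_gcd_eq_one]
        by_contra hcon
        obtain ⟨l, hl, hlg⟩ := Nat.exists_prime_and_dvd hcon
        have h2 : l ∣ b := hlg.trans (Nat.gcd_dvd_left _ _)
        have h3 : l ∣ Wm X := hlg.trans (Nat.gcd_dvd_right _ _)
        exact (h1 l ((dvd_Wm_iff X l hl).1 h3)).1 (Nat.mod_eq_zero_of_dvd h2)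
      · intro j l hl hlW hd
        apply (h1 l ((dvd_Wm_iff X l hl).1 hlW)).2 j
        exact (Int.dvd_iff_dvd_of_dvd_sub (hev l b j)).1 hd
  rw [e1, h]
  apply prod_congr rfl
  intro p _
  unfold rl
  congr 1

lemma S_prod {r : ℕ} (σ : Fin r → ℤ) (g : Fin r → ℤ[X]) (X : ℕ) (k : Fin r → ℕ) :
    ∏ p ∈ PH X, Sp σ g p k = ((rhoS σ g X (fun j => (k j : ℤ))).card : ℝ) *
      ((Wm X : ℝ) ^ r / (Nat.totient (Wm X) : ℝ) ^ (r + 1)) := by
  rw [rho_prod, phi_Wm, Wm_eq]
  unfold Sp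
  push_cast
  rw [prod_div_distrib, prod_mul_distrib, prod_pow, prod_pow]
  ring

lemma rl_pos {r : ℕ} (σ : Fin r → ℤ) (g : Fin r → ℤ[X]) (p : ℕ) (hp : p.Prime) (k : Fin r → ℕ)
    (h : LocV σ g k) : 1 ≤ rl σ g p k := by
  classical
  obtain ⟨x, hx1, hx2⟩ := h p hp
  have hp0 : (0 : ℤ) < p := by exact_mod_cast hp.pos
  have h0 : 0 ≤ x % (p : ℤ) := Int.emod_nonneg _ hp0.ne'
  have h1 : x % (p : ℤ) < p := Int.emod_lt_of_pos _ hp0
  have h2 : (((x % (p : ℤ)).toNat : ℕ) : ℤ) = x % (p : ℤ) := Int.toNat_of_nonneg h0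
  have h3 : (p : ℤ) ∣ x - x % (p : ℤ) := Int.dvd_self_sub_emod
  unfold rl
  rw [Nat.one_le_iff_ne_zero, ← Nat.pos_iff_ne_zero, card_pos]
  refine ⟨(x % (p : ℤ)).toNat, ?_⟩
  rw [mem_filter, mem_range]
  refine ⟨by omega, ?_, ?_⟩
  · intro h4
    apply hx1
    have h5 : x % (p : ℤ) = 0 := by omega
    exact Int.dvd_of_emod_eq_zero h5
  · intro j h4
    apply hx2 j
    rw [h2] at h4
    have e2 := h3.trans (Polynomial.sub_dvd_eval_sub x (x % (p : ℤ)) (g j))
    have e3 : ((k j : ℤ) + σ j * (g j).eval x) -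
      ((k j : ℤ) + σ j * (g j).eval (x % (p : ℤ))) =
      σ j * ((g j).eval x - (g j).eval (x % (p : ℤ))) := by ring
    have e4 : (p : ℤ) ∣ ((k j : ℤ) + σ j * (g j).eval x) -
      ((k j : ℤ) + σ j * (g j).eval (x % (p : ℤ))) := by
      rw [e3]
      exact e2.mul_left _
    exact (Int.dvd_iff_dvd_of_dvd_sub e4).2 h4

/-- the constant coming from the small primes -/
noncomputable def cz {r : ℕ} (g : Fin r → ℤ[X]) : ℝ :=
  ∏ p ∈ (range (Pz g)).filter Nat.Prime, (1 / (p : ℝ))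

lemma cz_pos {r : ℕ} (g : Fin r → ℤ[X]) : 0 < cz g := by
  unfold cz
  apply prod_pos
  intro p hp
  have : (0 : ℝ) < p := by exact_mod_cast (mem_filter.1 hp).2.pos
  positivity

open Classical in
theorem sing_most {r : ℕ} (σ : Fin r → ℤ) (hσ : ∀ j, σ j = 1 ∨ σ j = -1) (g : Fin r → ℤ[X])
    (hd : ∀ j, 1 ≤ (g j).natDegree) (hl : ∀ j, 0 < (g j).leadingCoeff) (κ : ℝ) (hκ : 0 < κ) :
    ∃ τ : ℝ, 0 < τ ∧ ∀ X : ℕ, Wm X ≤ X → ∀ a Z : Fin r → ℕ, (∀ j, a j ≤ Z j) → (∀ j, X ≤ Z j) →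
    (((Fintype.piFinset (fun j => Ico (a j) (Z j))).filter (fun k => LocV σ g k ∧
      ((rhoS σ g X (fun j => (k j : ℤ))).card : ℝ) <
        τ * ((Nat.totient (Wm X) : ℝ) ^ (r + 1) / (Wm X : ℝ) ^ r))).card : ℝ) ≤
      κ * ∏ j, (Z j : ℝ) := by
  set T : ℝ := Real.exp (8 * (Ez g : ℝ) ^ 2) * 2 ^ r / κ with hT
  have hT0 : 0 < T := by rw [hT]; positivity
  have hcz := cz_pos g
  refine ⟨cz g / T, by positivity, ?_⟩
  intro X hWX a Z haZ hZ
  have hWp := Wm_pos X
  have hW0 : (0 : ℝ) < Wm X := by exact_mod_cast hWp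
  have hφ0 : (0 : ℝ) < Nat.totient (Wm X) := by exact_mod_cast Nat.totient_pos.2 hWp
  set S := (PH X).filter (fun p => Pz g ≤ p) with hS
  have hSp : ∀ p ∈ S, p.Prime ∧ Pz g ≤ p := by
    intro p hp
    rw [hS, mem_filter] at hp
    exact ⟨(mem_filter.1 hp.1).2, hp.2⟩
  have hSW : ∏ p ∈ S, p ≤ Wm X := by
    rw [Wm_eq]
    apply Nat.le_of_dvd (prod_pos fun p hp => (mem_filter.1 hp).2.pos)
    exact prod_dvd_prod_of_subset _ _ _ (filter_subset _ _)
  have h1 := few_small σ hσ g hd hl S hSp T hT0 a Z haZ (fun j => (hSW.trans hWX).trans (hZ j))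
  refine le_trans ?_ (h1.trans (le_of_eq ?_))
  · apply Nat.cast_le.2
    apply card_le_card
    intro k hk
    rw [mem_filter] at hk ⊢
    refine ⟨hk.1, ?_⟩
    obtain ⟨hL, hρ⟩ := hk.2
    have h2 := S_prod σ g X k
    have h3 : ∏ p ∈ PH X, Sp σ g p k < cz g / T := by
      rw [h2]
      calc ((rhoS σ g X (fun j => (k j : ℤ))).card : ℝ) *
            ((Wm X : ℝ) ^ r / (Nat.totient (Wm X) : ℝ) ^ (r + 1)) <
          cz g / T * ((Nat.totient (Wm X) : ℝ) ^ (r + 1) / (Wm X : ℝ) ^ r) *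
            ((Wm X : ℝ) ^ r / (Nat.totient (Wm X) : ℝ) ^ (r + 1)) :=
            mul_lt_mul_of_pos_right hρ (by positivity)
        _ = cz g / T := by field_simp
    rw [← prod_filter_mul_prod_filter_not (PH X) (fun p => Pz g ≤ p), ← hS] at h3
    have h4 : cz g ≤ ∏ p ∈ (PH X).filter (fun p => ¬ Pz g ≤ p), Sp σ g p k := by
      have e1 : ∏ p ∈ (PH X).filter (fun p => ¬ Pz g ≤ p), (1 / (p : ℝ)) ≤
          ∏ p ∈ (PH X).filter (fun p => ¬ Pz g ≤ p), Sp σ g p k := by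
        apply Finset.prod_le_prod
        · intro p _
          positivity
        · intro p hp
          have hpp := (mem_filter.1 (mem_filter.1 hp).1).2
          have hp2 : (2 : ℝ) ≤ p := by exact_mod_cast hpp.two_le
          have hp1 : (0 : ℝ) < (p : ℝ) - 1 := by linarith
          have e2 : (1 : ℝ) ≤ rl σ g p k := by exact_mod_cast rl_pos σ g p hpp k hL
          unfold Sp
          rw [div_le_div_iff₀ (by linarith) (by positivity), one_mul]
          calc ((p : ℝ) - 1) ^ (r + 1) ≤ (p : ℝ) ^ (r + 1) :=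
                pow_le_pow_left₀ hp1.le (by linarith) _
            _ = (p : ℝ) ^ r * 1 * p := by ring
            _ ≤ _ := by
                apply mul_le_mul_of_nonneg_right _ (by linarith)
                exact mul_le_mul_of_nonneg_left e2 (by positivity)
      refine le_trans ?_ e1
      unfold cz
      have hsub : (PH X).filter (fun p => ¬ Pz g ≤ p) ⊆ (range (Pz g)).filter Nat.Prime := by
        intro p hp
        rw [mem_filter] at hp ⊢
        rw [mem_range]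
        exact ⟨by omega, (mem_filter.1 hp.1).2⟩
      rw [← prod_sdiff hsub]
      have e3 : ∏ p ∈ (range (Pz g)).filter Nat.Prime \ (PH X).filter (fun p => ¬ Pz g ≤ p),
          (1 / (p : ℝ)) ≤ 1 := by
        apply prod_le_one
        · intro p _
          positivity
        · intro p hp
          have hpp := (mem_filter.1 (Finset.mem_sdiff.1 hp).1).2
          have hp2 : (2 : ℝ) ≤ p := by exact_mod_cast hpp.two_le
          rw [div_le_one (by linarith)]
          linarith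
      have e4 : 0 ≤ ∏ p ∈ (PH X).filter (fun p => ¬ Pz g ≤ p), (1 / (p : ℝ)) :=
        prod_nonneg fun p _ => by positivity
      nlinarith
    have h5 : 0 ≤ ∏ p ∈ S, Sp σ g p k := by
      apply prod_nonneg
      intro p hp
      have := (Sp_facts σ hσ g hd hl p (hSp p hp).1 (hSp p hp).2 k).1
      linarith
    have h6 : (∏ p ∈ S, Sp σ g p k) * cz g < cz g / T :=
      lt_of_le_of_lt (mul_le_mul_of_nonneg_left h4 h5) h3
    have h7 : cz g / T = 1 / T * cz g := by ring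
    rw [h7] at h6
    exact lt_of_mul_lt_mul_right h6 hcz.le
  · rw [prod_mul_distrib, hT]
    simp only [prod_const, card_univ, Fintype.card_fin]
    field_simp

end Pool.Agent.TH882.KS
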