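import Pool.Agent.TH882.K3
import Pool.Agent.TH882.FinG2

/-! Systems of polynomials with varying constant terms: prime values at the elements of a set of
primes which is dense in most classes. -/

set_option autoImplicit false

open Finset Filter Topology Polynomial

namespace Pool.Agent.TH882.KS

open Pool.Agent.H361R2.PP
open Pool.Agent.TH882.PC (wX wX_one wX_pos)
open Pool.Agent.TH882.IS (rhoS RepA)
open Pool.Agent.TH882.JS (MostDense clsM Rd)
open Pool.Agent.H373R2.T7 (cf abs_eval_le)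

open Classical in
/-- the elements of `A` at which all values are prime -/
noncomputable def SysA {r : ℕ} (A : ℕ → ℕ → Finset ℕ) (g : Fin r → ℤ[X]) (X : ℕ) (k : Fin r → ℕ) :
    Finset ℕ :=
  (Ico X (2 * X)).filter (fun n => n ∈ A X (n % Wm X) ∧
    ∀ j, ((k j : ℤ) + (g j).eval (n : ℤ)).toNat.Prime)

open Classical in
theorem sys_most {r : ℕ} (g : Fin r → ℤ[X]) (hd : ∀ j, 1 ≤ (g j).natDegree)
    (hl : ∀ j, 0 < (g j).leadingCoeff) (A : ℕ → ℕ → Finset ℕ) (hA : MostDense A) (K : ℕ)
    (κ : ℝ) (hκ : 0 < κ) : ∃ c : ℝ, 0 < c ∧ ∃ x₀ : ℕ, ∀ x : ℕ, x₀ ≤ x →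
      (((Fintype.piFinset (fun j : Fin r => Icc 1 (K * x ^ (g j).natDegree))).filter
        (fun k => LocV (fun _ => 1) g k ∧ ((SysA A g (x / 3) k).card : ℝ) <
          c * (x / Real.log x ^ (r + 1)))).card : ℝ) ≤ κ * ∏ j, (x : ℝ) ^ (g j).natDegree := by
  set B : ℕ := ∑ j, (cf (g j) * 3 ^ (g j).natDegree + K * 4 ^ (g j).natDegree) + 3 with hB
  have hB0 : (0 : ℝ) < B := by
    have : 0 < B := by omega
    exact_mod_cast this
  obtain ⟨τ, hτ, hsing⟩ := sing_most (fun _ : Fin r => (1 : ℤ)) (fun _ => Or.inl rfl) g hd hl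
    (κ / 2 / (B : ℝ) ^ r) (by positivity)
  obtain ⟨c0, hc0, X1, h1⟩ := clsM (fun _ : Fin r => (1 : ℤ)) (fun _ => Or.inl rfl) g hd hl B
    (κ / 2) τ (by positivity) hτ A hA
  have hpos : ∀ j, ∃ n0 : ℕ, ∀ n : ℕ, n0 ≤ n → 0 ≤ (g j).eval (n : ℤ) := fun j =>
    Pool.Agent.TH882.PA.pos (g j) (hd j) (hl j) 0
  choose n0 hn0 using hpos
  refine ⟨c0 * τ / 4, by positivity, 3 * (X1 + ∑ j, n0 j + 16), ?_⟩
  intro x hx
  set X : ℕ := x / 3 with hX
  have hX3 : 3 * X ≤ x := by omega
  have hXX : X1 + ∑ j, n0 j + 16 ≤ X := by omega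
  have hx4 : x ≤ 4 * X := by omega
  have hn0j : ∀ j, n0 j ≤ X := by
    intro j
    have : n0 j ≤ ∑ j, n0 j := single_le_sum (f := n0) (fun i _ => Nat.zero_le _) (mem_univ j)
    omega
  have hXr : (16 : ℝ) ≤ X := by
    have : 16 ≤ X := by omega
    exact_mod_cast this
  have hX0 : (0 : ℝ) < X := by linarith
  have hXx : (X : ℝ) ≤ x := by
    have : X ≤ x := by omega
    exact_mod_cast this
  have hx4r : (x : ℝ) ≤ 4 * X := by exact_mod_cast hx4
  have hx0 : (0 : ℝ) < x := by linarith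
  set ℓ := Real.log X with hℓ
  have hl1 : 1 ≤ ℓ := by
    rw [hℓ, Real.le_log_iff_exp_le hX0]
    have := Real.exp_one_lt_d9
    linarith
  have hlx : ℓ ≤ Real.log x := Real.log_le_log hX0 hXx
  have hWp := Wm_pos X
  have hW0 : (0 : ℝ) < Wm X := by exact_mod_cast hWp
  have hφ0 : (0 : ℝ) < Nat.totient (Wm X) := by exact_mod_cast Nat.totient_pos.2 hWp
  have hWX : Wm X ≤ X := by
    have e1 := Pool.Agent.H325R2.wtx1 X (by omega)
    have e2 : (Wm X : ℝ) ≤ X := by
      refine e1.trans ?_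
      calc ℓ ^ (7 / 20 : ℝ) ≤ ℓ ^ (1 : ℝ) :=
            Real.rpow_le_rpow_of_exponent_le hl1 (by norm_num)
        _ = ℓ := Real.rpow_one _
        _ ≤ X := by
            have := Real.log_le_sub_one_of_pos hX0
            linarith
    exact_mod_cast e2
  set Y : Fin r → ℕ := fun j => cf (g j) * (3 * X) ^ (g j).natDegree with hY
  have hXd : ∀ j, X ≤ X ^ (g j).natDegree := fun j => by
    calc X = X ^ 1 := (pow_one _).symm
      _ ≤ X ^ (g j).natDegree := Nat.pow_le_pow_right (by omega) (hd j)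
  have hBj : ∀ j, cf (g j) * 3 ^ (g j).natDegree + K * 4 ^ (g j).natDegree + 3 ≤ B := by
    intro j
    have : cf (g j) * 3 ^ (g j).natDegree + K * 4 ^ (g j).natDegree ≤
        ∑ j, (cf (g j) * 3 ^ (g j).natDegree + K * 4 ^ (g j).natDegree) :=
      single_le_sum (f := fun j => cf (g j) * 3 ^ (g j).natDegree + K * 4 ^ (g j).natDegree)
        (fun i _ => Nat.zero_le _) (mem_univ j)
    omega
  have hZB : ∀ j, Y j + 1 + K * x ^ (g j).natDegree + X ≤ B * X ^ (g j).natDegree := by
    intro j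
    have e1 : Y j = cf (g j) * 3 ^ (g j).natDegree * X ^ (g j).natDegree := by
      rw [hY]
      simp only
      rw [mul_pow]
      ring
    have e2 : K * x ^ (g j).natDegree ≤ K * 4 ^ (g j).natDegree * X ^ (g j).natDegree := by
      calc K * x ^ (g j).natDegree ≤ K * (4 * X) ^ (g j).natDegree :=
            Nat.mul_le_mul_left _ (Nat.pow_le_pow_left hx4 _)
        _ = _ := by rw [mul_pow]; ring
    have e3 := Nat.mul_le_mul_right (X ^ (g j).natDegree) (hBj j)
    have e4 : (cf (g j) * 3 ^ (g j).natDegree + K * 4 ^ (g j).natDegree + 3) *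
        X ^ (g j).natDegree = cf (g j) * 3 ^ (g j).natDegree * X ^ (g j).natDegree +
        K * 4 ^ (g j).natDegree * X ^ (g j).natDegree + 3 * X ^ (g j).natDegree := by ring
    rw [e4] at e3
    have e5 : 1 ≤ X ^ (g j).natDegree := Nat.one_le_pow _ _ (by omega)
    have e6 := hXd j
    omega
  obtain ⟨Bd, hB1, hB2⟩ := h1 X (by omega) Y (fun j => Y j + 1)
    (fun j => Y j + 1 + K * x ^ (g j).natDegree + X) (by
      intro j n hn1 hn2
      have e1 := hn0 j n (by have := hn0j j; omega)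
      have e2 := abs_eval_le (g j) n (by omega)
      have e3 : (g j).eval (n : ℤ) ≤ Y j := by
        calc (g j).eval (n : ℤ) ≤ |(g j).eval (n : ℤ)| := le_abs_self _
          _ ≤ (cf (g j) : ℤ) * (n : ℤ) ^ (g j).natDegree := e2
          _ ≤ (Y j : ℤ) := by
              have : cf (g j) * n ^ (g j).natDegree ≤ Y j :=
                Nat.mul_le_mul_left _ (Nat.pow_le_pow_left hn2 _)
              exact_mod_cast this
      constructor
      · linarith
      · push_cast
        linarith) (fun j => by omega) (fun j => by omega) hZB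
  -- the vectors with small singular series
  set Ex := (Fintype.piFinset (fun j : Fin r => Ico 1 (1 + K * x ^ (g j).natDegree + X))).filter
    (fun k => LocV (fun _ => 1) g k ∧ ((rhoS (fun _ : Fin r => (1 : ℤ)) g X
      (fun j => (k j : ℤ))).card : ℝ) <
        τ * ((Nat.totient (Wm X) : ℝ) ^ (r + 1) / (Wm X : ℝ) ^ r)) with hEx
  have hExc : (Ex.card : ℝ) ≤ κ / 2 / (B : ℝ) ^ r *
      ∏ j, (((1 + K * x ^ (g j).natDegree + X : ℕ)) : ℝ) :=
    hsing X hWX (fun _ => 1) (fun j => 1 + K * x ^ (g j).natDegree + X)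
      (fun j => by omega) (fun j => by omega)
  set PX : ℝ := ∏ j, (X : ℝ) ^ (g j).natDegree with hPX
  have hPX0 : 0 ≤ PX := prod_nonneg fun j _ => by positivity
  have hExc2 : (Ex.card : ℝ) ≤ κ / 2 * PX := by
    refine hExc.trans ?_
    have e1 : ∏ j, (((1 + K * x ^ (g j).natDegree + X : ℕ)) : ℝ) ≤ (B : ℝ) ^ r * PX := by
      calc ∏ j, (((1 + K * x ^ (g j).natDegree + X : ℕ)) : ℝ) ≤
          ∏ j, ((B : ℝ) * (X : ℝ) ^ (g j).natDegree) := by
            apply Finset.prod_le_prod (fun _ _ => Nat.cast_nonneg _)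
            intro j _
            have e2 : 1 + K * x ^ (g j).natDegree + X ≤ B * X ^ (g j).natDegree := by
              have := hZB j
              omega
            exact_mod_cast e2
        _ = _ := by
            rw [prod_mul_distrib]
            simp only [prod_const, card_univ, Fintype.card_fin, ← hPX]
    calc κ / 2 / (B : ℝ) ^ r * ∏ j, (((1 + K * x ^ (g j).natDegree + X : ℕ)) : ℝ) ≤
        κ / 2 / (B : ℝ) ^ r * ((B : ℝ) ^ r * PX) := mul_le_mul_of_nonneg_left e1 (by positivity)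
      _ = _ := by field_simp
  set Tt := (Fintype.piFinset (fun j : Fin r => Icc 1 (K * x ^ (g j).natDegree))).filter
        (fun k => LocV (fun _ => 1) g k ∧ ((SysA A g X k).card : ℝ) <
          c0 * τ / 4 * (x / Real.log x ^ (r + 1))) with hTt
  have hinj : Function.Injective (fun k : Fin r → ℕ => fun j => k j + Y j) := by
    intro k k' hkk
    funext j
    have := congrFun hkk j
    simp only at this
    omega
  have hsub : Tt.image (fun k => fun j => k j + Y j) ⊆
      Bd ∪ Ex.image (fun k => fun j => k j + Y j) := by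
    intro N hN
    rw [mem_image] at hN
    obtain ⟨k, hk, rfl⟩ := hN
    rw [hTt, mem_filter, Fintype.mem_piFinset] at hk
    obtain ⟨hk1, hLoc, hno⟩ := hk
    rw [mem_union]
    by_contra hcon
    rw [not_or] at hcon
    obtain ⟨hcB, hcE⟩ := hcon
    have e0 : (fun j => ((k j + Y j : ℕ) : ℤ) - (Y j : ℤ)) = fun j => (k j : ℤ) := by
      funext j
      push_cast
      ring
    have hkI : ∀ j, 1 ≤ k j ∧ k j ≤ K * x ^ (g j).natDegree := fun j => mem_Icc.1 (hk1 j)
    have hρ : τ * ((Nat.totient (Wm X) : ℝ) ^ (r + 1) / (Wm X : ℝ) ^ r) ≤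
        ((rhoS (fun _ : Fin r => (1 : ℤ)) g X (fun j => (k j : ℤ))).card : ℝ) := by
      by_contra hc
      push Not at hc
      apply hcE
      rw [mem_image]
      refine ⟨k, ?_, rfl⟩
      rw [hEx, mem_filter, Fintype.mem_piFinset]
      refine ⟨fun j => ?_, hLoc, hc⟩
      rw [mem_Ico]
      have := hkI j
      omega
    have e1 := hB2 (fun j => k j + Y j) (by
      rw [Fintype.mem_piFinset]
      intro j
      rw [mem_Ico]
      have := hkI j
      omega) hcB (by
      rw [e0]
      exact hρ)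
    rw [e0] at e1
    have e2 : ((RepA (fun _ : Fin r => (1 : ℤ)) g A X (fun j => (k j : ℤ))).card : ℝ) ≤
        ((SysA A g X k).card : ℝ) := by
      apply Nat.cast_le.2
      apply card_le_card
      intro n hn
      unfold RepA at hn
      unfold SysA
      rw [mem_filter] at hn ⊢
      refine ⟨hn.1, hn.2.1, fun j => ?_⟩
      have := hn.2.2 j
      rwa [one_mul] at this
    have hwp := wX_pos X
    have e3 : c0 * τ * (X / ℓ ^ (r + 1)) ≤ c0 * (((rhoS (fun _ : Fin r => (1 : ℤ)) g X
        (fun j => (k j : ℤ))).card : ℝ) * wX X ^ r *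
          (X / (Nat.totient (Wm X) * ℓ ^ (r + 1)))) := by
      have f1 : c0 * τ * (X / ℓ ^ (r + 1)) =
          c0 * ((τ * ((Nat.totient (Wm X) : ℝ) ^ (r + 1) / (Wm X : ℝ) ^ r)) * wX X ^ r *
          (X / (Nat.totient (Wm X) * ℓ ^ (r + 1)))) := by
        unfold wX
        rw [div_pow, pow_succ (Nat.totient (Wm X) : ℝ) r]
        field_simp
      rw [f1]
      apply mul_le_mul_of_nonneg_left _ hc0.le
      apply mul_le_mul_of_nonneg_right _ (by positivity)
      exact mul_le_mul_of_nonneg_right hρ (by positivity)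
    have e4 : c0 * τ / 4 * (x / Real.log x ^ (r + 1)) ≤ c0 * τ * (X / ℓ ^ (r + 1)) := by
      have f1 : (x : ℝ) / Real.log x ^ (r + 1) ≤ 4 * X / ℓ ^ (r + 1) :=
        div_le_div₀ (by positivity) hx4r (by positivity)
          (pow_le_pow_left₀ (by linarith) hlx _)
      calc c0 * τ / 4 * (x / Real.log x ^ (r + 1)) ≤ c0 * τ / 4 * (4 * X / ℓ ^ (r + 1)) :=
            mul_le_mul_of_nonneg_left f1 (by positivity)
        _ = _ := by ring
    linarith
  have hc1 := card_le_card hsub
  rw [card_image_of_injective _ hinj] at hc1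
  have hc2 := card_union_le Bd (Ex.image (fun k => fun j => k j + Y j))
  rw [card_image_of_injective _ hinj] at hc2
  have hc3 : (Tt.card : ℝ) ≤ (Bd.card : ℝ) + Ex.card := by exact_mod_cast hc1.trans hc2
  have hPx : PX ≤ ∏ j, (x : ℝ) ^ (g j).natDegree := by
    apply Finset.prod_le_prod (fun _ _ => by positivity)
    intro j _
    exact pow_le_pow_left₀ hX0.le hXx _
  have hB1' : (Bd.card : ℝ) ≤ κ / 2 * PX := hB1
  calc (Tt.card : ℝ) ≤ κ * PX := by linarith
    _ ≤ _ := mul_le_mul_of_nonneg_left hPx hκ.le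

end Pool.Agent.TH882.KS
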