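import Pool.Agent.TH882.K5

/-! Mixed systems: some numbers `k_j + g_j(p)` and some numbers `k_j - g_j(p)`. -/

set_option autoImplicit false

open Finset Filter Topology Polynomial

namespace Pool.Agent.TH882.KS

open Pool.Agent.H361R2.PP
open Pool.Agent.TH882.PC (wX wX_one wX_pos)
open Pool.Agent.TH882.IS (rhoS RepA)
open Pool.Agent.TH882.JS (MostDense clsM Rd)
open Pool.Agent.H373R2.T7 (cf abs_eval_le)

open Classical in
theorem sys_mix {r : ℕ} (σ : Fin r → ℤ) (hσ : ∀ j, σ j = 1 ∨ σ j = -1) (g : Fin r → ℤ[X]) (hd : ∀ j, 1 ≤ (g j).natDegree)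
    (hl : ∀ j, 0 < (g j).leadingCoeff) (A : ℕ → ℕ → Finset ℕ) (hA : MostDense A) (K : ℕ)
    (κ : ℝ) (hκ : 0 < κ) : ∃ M : ℕ, 3 ≤ M ∧ ∃ c : ℝ, 0 < c ∧ ∃ x₀ : ℕ, ∀ x : ℕ, x₀ ≤ x →
      (((Fintype.piFinset (fun j : Fin r => Icc 1 (K * x ^ (g j).natDegree))).filter
        (fun N => LocV σ g N ∧ ((RepA σ g A (x / M) (fun j => (N j : ℤ))).card : ℝ) <
          c * (x / Real.log x ^ (r + 1)))).card : ℝ) ≤ κ * ∏ j, (x : ℝ) ^ (g j).natDegree := by
  set B1 : ℕ := ∑ j, (cf (g j) * 3 ^ (g j).natDegree + 1) with hB1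
  set M : ℕ := ⌈3 * ((B1 : ℝ) * (K + 1) ^ r) / κ⌉₊ + 3 with hM
  have hM3 : 3 ≤ M := by omega
  have hM0 : (0 : ℝ) < M := by
    have : 0 < M := by omega
    exact_mod_cast this
  have hMκ : 3 * ((B1 : ℝ) * (K + 1) ^ r) / κ ≤ M := by
    rw [hM]
    push_cast
    have := Nat.le_ceil (3 * ((B1 : ℝ) * (K + 1) ^ r) / κ)
    linarith
  refine ⟨M, hM3, ?_⟩
  set B : ℕ := ∑ j, (cf (g j) * 3 ^ (g j).natDegree + K * (2 * M) ^ (g j).natDegree) + 3 with hB
  have hB0 : (0 : ℝ) < B := by
    have : 0 < B := by omega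
    exact_mod_cast this
  obtain ⟨τ, hτ, hsing⟩ := sing_most σ hσ g hd hl
    (κ / 3 / (B : ℝ) ^ r) (by positivity)
  obtain ⟨c0, hc0, X1, h1⟩ := clsM σ hσ g hd hl B
    (κ / 3) τ (by positivity) hτ A hA
  have hpos : ∀ j, ∃ n0 : ℕ, ∀ n : ℕ, n0 ≤ n → 0 ≤ (g j).eval (n : ℤ) := fun j =>
    Pool.Agent.TH882.PA.pos (g j) (hd j) (hl j) 0
  choose n0 hn0 using hpos
  refine ⟨c0 * τ / (2 * M), by positivity, M * (X1 + ∑ j, n0 j + 16), ?_⟩
  intro x hx
  set X : ℕ := x / M with hX
  have hXM : M * X ≤ x := Nat.mul_div_le x M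
  have hXX : X1 + ∑ j, n0 j + 16 ≤ X := by
    rw [hX, Nat.le_div_iff_mul_le (by omega), mul_comm]
    exact hx
  have hx2M : x ≤ 2 * M * X := by
    have e1 : x < M * (X + 1) := by
      rw [hX]
      exact Nat.lt_mul_div_succ x (by omega)
    have e2 : M * (X + 1) ≤ 2 * M * X := by
      have : X + 1 ≤ 2 * X := by omega
      calc M * (X + 1) ≤ M * (2 * X) := Nat.mul_le_mul_left _ this
        _ = _ := by ring
    omega
  have hXx' : X ≤ x := by
    calc X = 1 * X := (one_mul X).symm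
      _ ≤ M * X := Nat.mul_le_mul_right _ (by omega)
      _ ≤ x := hXM
  have hn0j : ∀ j, n0 j ≤ X := by
    intro j
    have : n0 j ≤ ∑ j, n0 j := single_le_sum (f := n0) (fun i _ => Nat.zero_le _) (mem_univ j)
    omega
  have hXr : (16 : ℝ) ≤ X := by
    have : 16 ≤ X := by omega
    exact_mod_cast this
  have hX0 : (0 : ℝ) < X := by linarith
  have hXx : (X : ℝ) ≤ x := by exact_mod_cast hXx'
  have hx2Mr : (x : ℝ) ≤ 2 * M * X := by exact_mod_cast hx2M
  have hx0 : (0 : ℝ) < x := by linarith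
  set ℓ := Real.log X with hℓ
  have hl1 : 1 ≤ ℓ := by
    rw [hℓ, Real.le_log_iff_exp_le hX0]
    have := Real.exp_one_lt_d9
    linarith
  have hlx : ℓ ≤ Real.log x := Real.log_le_log hX0 hXx
  have hWp := Wm_pos X
  have hW0 : (0 : ℝ) < Wm X := by exact_mod_cast hWp
  have hφ0 : (0 : ℝ) < Nat.totient (Wm X) := by exact_mod_cast Nat.totient_pos.2 hWp
  have hWX : Wm X ≤ X := by
    have e1 := Pool.Agent.H325R2.wtx1 X (by omega)
    have e2 : (Wm X : ℝ) ≤ X := by
      refine e1.trans ?_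
      calc ℓ ^ (7 / 20 : ℝ) ≤ ℓ ^ (1 : ℝ) :=
            Real.rpow_le_rpow_of_exponent_le hl1 (by norm_num)
        _ = ℓ := Real.rpow_one _
        _ ≤ X := by
            have := Real.log_le_sub_one_of_pos hX0
            linarith
    exact_mod_cast e2
  set a0 : Fin r → ℕ := fun j => cf (g j) * (3 * X) ^ (g j).natDegree + 1 with ha0
  set Y : Fin r → ℕ := fun j => if σ j = 1 then cf (g j) * (3 * X) ^ (g j).natDegree else 0 with hY
  have hYa : ∀ j, Y j < a0 j := by
    intro j
    rw [hY, ha0]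
    simp only
    split_ifs <;> omega
  set Z : Fin r → ℕ := fun j => a0 j + X + K * x ^ (g j).natDegree with hZ
  have hXd : ∀ j, X ≤ X ^ (g j).natDegree := fun j => by
    calc X = X ^ 1 := (pow_one _).symm
      _ ≤ X ^ (g j).natDegree := Nat.pow_le_pow_right (by omega) (hd j)
  have hBj : ∀ j, cf (g j) * 3 ^ (g j).natDegree + K * (2 * M) ^ (g j).natDegree + 3 ≤ B := by
    intro j
    have : cf (g j) * 3 ^ (g j).natDegree + K * (2 * M) ^ (g j).natDegree ≤
        ∑ j, (cf (g j) * 3 ^ (g j).natDegree + K * (2 * M) ^ (g j).natDegree) :=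
      single_le_sum (f := fun j => cf (g j) * 3 ^ (g j).natDegree + K * (2 * M) ^ (g j).natDegree)
        (fun i _ => Nat.zero_le _) (mem_univ j)
    omega
  have ha0j : ∀ j, a0 j = cf (g j) * 3 ^ (g j).natDegree * X ^ (g j).natDegree + 1 := by
    intro j
    rw [ha0]
    simp only
    rw [mul_pow]
    ring
  have hZB : ∀ j, Z j ≤ B * X ^ (g j).natDegree := by
    intro j
    have e2 : K * x ^ (g j).natDegree ≤ K * (2 * M) ^ (g j).natDegree * X ^ (g j).natDegree := by
      calc K * x ^ (g j).natDegree ≤ K * (2 * M * X) ^ (g j).natDegree :=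
            Nat.mul_le_mul_left _ (Nat.pow_le_pow_left hx2M _)
        _ = _ := by rw [mul_pow (2 * M)]; ring
    have e3 := Nat.mul_le_mul_right (X ^ (g j).natDegree) (hBj j)
    have e4 : (cf (g j) * 3 ^ (g j).natDegree + K * (2 * M) ^ (g j).natDegree + 3) *
        X ^ (g j).natDegree = cf (g j) * 3 ^ (g j).natDegree * X ^ (g j).natDegree +
        K * (2 * M) ^ (g j).natDegree * X ^ (g j).natDegree + 3 * X ^ (g j).natDegree := by ring
    rw [e4] at e3
    have e5 : 1 ≤ X ^ (g j).natDegree := Nat.one_le_pow _ _ (by omega)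
    have e6 := hXd j
    have e7 := ha0j j
    rw [hZ]
    simp only
    omega
  obtain ⟨Bd, hB1', hB2⟩ := h1 X (by omega) Y a0 Z (by
      intro j n hn1 hn2
      have e1 := hn0 j n (by have := hn0j j; omega)
      have e2 := abs_eval_le (g j) n (by omega)
      have e3 : (g j).eval (n : ℤ) < a0 j := by
        calc (g j).eval (n : ℤ) ≤ |(g j).eval (n : ℤ)| := le_abs_self _
          _ ≤ (cf (g j) : ℤ) * (n : ℤ) ^ (g j).natDegree := e2
          _ < (a0 j : ℤ) := by
              have : cf (g j) * n ^ (g j).natDegree < a0 j :=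
                Nat.lt_succ_of_le (Nat.mul_le_mul_left _ (Nat.pow_le_pow_left hn2 _))
              exact_mod_cast this
      have e4 : (g j).eval (n : ℤ) ≤ ((cf (g j) * (3 * X) ^ (g j).natDegree : ℕ) : ℤ) := by
        calc (g j).eval (n : ℤ) ≤ |(g j).eval (n : ℤ)| := le_abs_self _
          _ ≤ (cf (g j) : ℤ) * (n : ℤ) ^ (g j).natDegree := e2
          _ ≤ _ := by
              have : cf (g j) * n ^ (g j).natDegree ≤ cf (g j) * (3 * X) ^ (g j).natDegree :=
                Nat.mul_le_mul_left _ (Nat.pow_le_pow_left hn2 _)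
              exact_mod_cast this
      rcases hσ j with hs | hs
      · have e5 : Y j = cf (g j) * (3 * X) ^ (g j).natDegree := by
          rw [hY]
          simp only
          rw [if_pos hs]
        have e6 : a0 j = Y j + 1 := by rw [e5]
        have e7 : (g j).eval (n : ℤ) ≤ (Y j : ℤ) := by
          rw [e5]
          exact e4
        have e8 : (a0 j : ℤ) = (Y j : ℤ) + 1 := by exact_mod_cast e6
        rw [hs, e8]
        constructor
        · linarith
        · linarith
      · have e5 : Y j = 0 := by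
          rw [hY]
          simp only
          rw [if_neg (by rw [hs]; norm_num)]
        rw [hs, e5]
        constructor
        · push_cast
          linarith
        · push_cast
          linarith) hYa (fun j => by rw [hZ]; simp only; omega) hZB
  -- the vectors with small singular series
  set Ex := (Fintype.piFinset (fun j : Fin r => Ico (a0 j - Y j) (Z j))).filter
    (fun k => LocV σ g k ∧ ((rhoS σ g X
      (fun j => (k j : ℤ))).card : ℝ) <
        τ * ((Nat.totient (Wm X) : ℝ) ^ (r + 1) / (Wm X : ℝ) ^ r)) with hEx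
  have hExc : (Ex.card : ℝ) ≤ κ / 3 / (B : ℝ) ^ r * ∏ j, (Z j : ℝ) :=
    hsing X hWX (fun j => a0 j - Y j) Z (fun j => by rw [hZ]; simp only; omega) (fun j => by rw [hZ]; simp only; omega)
  set PX : ℝ := ∏ j, (X : ℝ) ^ (g j).natDegree with hPX
  set Px : ℝ := ∏ j, (x : ℝ) ^ (g j).natDegree with hPx
  have hPX0 : 0 ≤ PX := prod_nonneg fun j _ => by positivity
  have hPXx : PX ≤ Px := by
    apply Finset.prod_le_prod (fun _ _ => by positivity)
    intro j _
    exact pow_le_pow_left₀ hX0.le hXx _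
  have hExc2 : (Ex.card : ℝ) ≤ κ / 3 * PX := by
    refine hExc.trans ?_
    have e1 : ∏ j, (Z j : ℝ) ≤ (B : ℝ) ^ r * PX := by
      calc ∏ j, (Z j : ℝ) ≤ ∏ j, ((B : ℝ) * (X : ℝ) ^ (g j).natDegree) := by
            apply Finset.prod_le_prod (fun _ _ => Nat.cast_nonneg _)
            intro j _
            exact_mod_cast hZB j
        _ = _ := by
            rw [prod_mul_distrib]
            simp only [prod_const, card_univ, Fintype.card_fin, ← hPX]
    calc κ / 3 / (B : ℝ) ^ r * ∏ j, (Z j : ℝ) ≤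
        κ / 3 / (B : ℝ) ^ r * ((B : ℝ) ^ r * PX) := mul_le_mul_of_nonneg_left e1 (by positivity)
      _ = _ := by field_simp
  -- the vectors with a small coordinate
  set Lw : Fin r → Finset (Fin r → ℕ) := fun j =>
    (Fintype.piFinset (fun i : Fin r => Icc 1 (K * x ^ (g i).natDegree))).filter
      (fun N => N j < a0 j - Y j) with hLw
  have hLwc : ∀ j, ((Lw j).card : ℝ) ≤
      ((cf (g j) * 3 ^ (g j).natDegree + 1 : ℕ) : ℝ) * (K + 1) ^ r / M * Px := by
    intro j
    have e1 := (low_coord j (fun i : Fin r => K * x ^ (g i).natDegree) (a0 j - Y j)).trans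
      (Nat.mul_le_mul_right _ (Nat.sub_le (a0 j) (Y j)))
    have e2 : ((Lw j).card : ℝ) ≤ (a0 j : ℝ) * ∏ i ∈ univ.erase j,
        ((K : ℝ) * (x : ℝ) ^ (g i).natDegree) := by exact_mod_cast e1
    refine e2.trans ?_
    have e3 : (a0 j : ℝ) ≤ ((cf (g j) * 3 ^ (g j).natDegree + 1 : ℕ) : ℝ) / M *
        (x : ℝ) ^ (g j).natDegree := by
      have f1 : a0 j ≤ (cf (g j) * 3 ^ (g j).natDegree + 1) * X ^ (g j).natDegree := by
        rw [ha0j j, add_mul]
        have : 1 ≤ X ^ (g j).natDegree := Nat.one_le_pow _ _ (by omega)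
        omega
      have f2 : (a0 j : ℝ) ≤ ((cf (g j) * 3 ^ (g j).natDegree + 1 : ℕ) : ℝ) *
          (X : ℝ) ^ (g j).natDegree := by exact_mod_cast f1
      refine f2.trans ?_
      rw [div_mul_eq_mul_div, le_div_iff₀ hM0, mul_assoc]
      apply mul_le_mul_of_nonneg_left _ (Nat.cast_nonneg _)
      have f3 : (M : ℝ) * X ≤ x := by exact_mod_cast hXM
      obtain ⟨e, he⟩ : ∃ e, (g j).natDegree = e + 1 := ⟨(g j).natDegree - 1, by
        have := hd j
        omega⟩
      rw [he, pow_succ, pow_succ]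
      have f4 : (X : ℝ) ^ e ≤ (x : ℝ) ^ e := pow_le_pow_left₀ hX0.le hXx _
      calc (X : ℝ) ^ e * X * M = (X : ℝ) ^ e * (M * X) := by ring
        _ ≤ (x : ℝ) ^ e * x := mul_le_mul f4 f3 (by positivity) (by positivity)
    have e4 : ∏ i ∈ univ.erase j, ((K : ℝ) * (x : ℝ) ^ (g i).natDegree) ≤
        (K + 1) ^ r * ∏ i ∈ univ.erase j, (x : ℝ) ^ (g i).natDegree := by
      rw [prod_mul_distrib, prod_const, card_erase_of_mem (mem_univ j), card_univ, Fintype.card_fin]
      apply mul_le_mul_of_nonneg_right _ (prod_nonneg fun _ _ => by positivity)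
      have hK0 : (0 : ℝ) ≤ K := Nat.cast_nonneg K
      calc (K : ℝ) ^ (r - 1) ≤ (K + 1) ^ (r - 1) := pow_le_pow_left₀ hK0 (by linarith) _
        _ ≤ (K + 1) ^ r := pow_le_pow_right₀ (by linarith) (by omega)
    have e5 : Px = (x : ℝ) ^ (g j).natDegree * ∏ i ∈ univ.erase j, (x : ℝ) ^ (g i).natDegree := by
      rw [hPx]
      exact (mul_prod_erase univ (fun i => (x : ℝ) ^ (g i).natDegree) (mem_univ j)).symm
    have e6 : 0 ≤ ∏ i ∈ univ.erase j, ((K : ℝ) * (x : ℝ) ^ (g i).natDegree) :=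
      prod_nonneg fun _ _ => by positivity
    calc (a0 j : ℝ) * ∏ i ∈ univ.erase j, ((K : ℝ) * (x : ℝ) ^ (g i).natDegree) ≤
        (((cf (g j) * 3 ^ (g j).natDegree + 1 : ℕ) : ℝ) / M * (x : ℝ) ^ (g j).natDegree) *
          ((K + 1) ^ r * ∏ i ∈ univ.erase j, (x : ℝ) ^ (g i).natDegree) :=
          mul_le_mul e3 e4 e6 (by positivity)
      _ = _ := by
          rw [e5]
          ring
  have hLwS : ∑ j, ((Lw j).card : ℝ) ≤ κ / 3 * Px := by
    have hPx0 : 0 ≤ Px := prod_nonneg fun j _ => by positivity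
    calc ∑ j, ((Lw j).card : ℝ) ≤
        ∑ j, ((cf (g j) * 3 ^ (g j).natDegree + 1 : ℕ) : ℝ) * (K + 1) ^ r / M * Px :=
          sum_le_sum fun j _ => hLwc j
      _ = (B1 : ℝ) * (K + 1) ^ r / M * Px := by
          rw [hB1, ← sum_mul, ← sum_div, ← sum_mul]
          push_cast
          rfl
      _ ≤ _ := by
          apply mul_le_mul_of_nonneg_right _ hPx0
          rw [div_le_iff₀ hM0]
          rw [div_le_iff₀ hκ] at hMκ
          linarith
  set Tt := (Fintype.piFinset (fun j : Fin r => Icc 1 (K * x ^ (g j).natDegree))).filter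
        (fun N => LocV σ g N ∧ ((RepA σ g A X (fun j => (N j : ℤ))).card : ℝ) <
          c0 * τ / (2 * M) * (x / Real.log x ^ (r + 1))) with hTt
  set Bd2 : Finset (Fin r → ℕ) := Bd.image (fun N' j => N' j - Y j) with hBd2
  have hsub : Tt ⊆ Bd2 ∪ Ex ∪ univ.biUnion Lw := by
    intro N hN
    rw [hTt, mem_filter, Fintype.mem_piFinset] at hN
    obtain ⟨hk1, hLoc, hno⟩ := hN
    rw [mem_union, mem_union, mem_biUnion]
    by_contra hcon
    rw [not_or, not_or] at hcon
    obtain ⟨⟨hcB2, hcE⟩, hcL⟩ := hcon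
    have hcB : (fun j => N j + Y j) ∉ Bd := by
      intro hc
      apply hcB2
      rw [hBd2, mem_image]
      refine ⟨_, hc, ?_⟩
      funext j
      omega
    have hNa : ∀ j, a0 j - Y j ≤ N j := by
      intro j
      by_contra hc
      apply hcL
      refine ⟨j, mem_univ _, ?_⟩
      rw [hLw, mem_filter, Fintype.mem_piFinset]
      exact ⟨hk1, by omega⟩
    have hkI : ∀ j, 1 ≤ N j ∧ N j ≤ K * x ^ (g j).natDegree := fun j => mem_Icc.1 (hk1 j)
    have hZj : ∀ j, Z j = a0 j + X + K * x ^ (g j).natDegree := fun j => by rw [hZ]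
    have hbox : (fun j => N j + Y j) ∈ Fintype.piFinset (fun j : Fin r => Ico (a0 j) (Z j)) := by
      rw [Fintype.mem_piFinset]
      intro j
      rw [mem_Ico]
      have e1 := hkI j
      have e2 := hNa j
      have e3 := hYa j
      have e4 := hZj j
      constructor <;> omega
    have hρ : τ * ((Nat.totient (Wm X) : ℝ) ^ (r + 1) / (Wm X : ℝ) ^ r) ≤
        ((rhoS σ g X (fun j => (N j : ℤ))).card : ℝ) := by
      by_contra hc
      push Not at hc
      apply hcE
      rw [hEx, mem_filter, Fintype.mem_piFinset]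
      refine ⟨fun j => ?_, hLoc, hc⟩
      rw [mem_Ico]
      have e1 := hkI j
      have e2 := hNa j
      have e3 := hYa j
      have e4 := hZj j
      constructor <;> omega
    have e0 : (fun j => (((fun j => N j + Y j) j : ℕ) : ℤ) - (Y j : ℤ)) =
        fun j => (N j : ℤ) := by
      funext j
      push_cast
      ring
    have e2 := hB2 _ hbox hcB (by
      rw [e0]
      exact hρ)
    rw [e0] at e2
    have hwp := wX_pos X
    have e3 : c0 * τ * (X / ℓ ^ (r + 1)) ≤ c0 * (((rhoS σ g X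
        (fun j => (N j : ℤ))).card : ℝ) * wX X ^ r *
          (X / (Nat.totient (Wm X) * ℓ ^ (r + 1)))) := by
      have f1 : c0 * τ * (X / ℓ ^ (r + 1)) =
          c0 * ((τ * ((Nat.totient (Wm X) : ℝ) ^ (r + 1) / (Wm X : ℝ) ^ r)) * wX X ^ r *
          (X / (Nat.totient (Wm X) * ℓ ^ (r + 1)))) := by
        unfold wX
        rw [div_pow, pow_succ (Nat.totient (Wm X) : ℝ) r]
        field_simp
      rw [f1]
      apply mul_le_mul_of_nonneg_left _ hc0.le
      apply mul_le_mul_of_nonneg_right _ (by positivity)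
      exact mul_le_mul_of_nonneg_right hρ (by positivity)
    have e4 : c0 * τ / (2 * M) * (x / Real.log x ^ (r + 1)) ≤ c0 * τ * (X / ℓ ^ (r + 1)) := by
      have f1 : (x : ℝ) / Real.log x ^ (r + 1) ≤ 2 * M * X / ℓ ^ (r + 1) :=
        div_le_div₀ (by positivity) hx2Mr (by positivity)
          (pow_le_pow_left₀ (by linarith) hlx _)
      calc c0 * τ / (2 * M) * (x / Real.log x ^ (r + 1)) ≤
          c0 * τ / (2 * M) * (2 * M * X / ℓ ^ (r + 1)) :=
            mul_le_mul_of_nonneg_left f1 (by positivity)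
        _ = _ := by field_simp
    linarith
  have hc1 := card_le_card hsub
  have hc2 := card_union_le (Bd2 ∪ Ex) (univ.biUnion Lw)
  have hc3 := card_union_le Bd2 Ex
  have hc6 : Bd2.card ≤ Bd.card := card_image_le
  have hc4 : (univ.biUnion Lw).card ≤ ∑ j, (Lw j).card := card_biUnion_le
  have hc5 : (Tt.card : ℝ) ≤ (Bd.card : ℝ) + Ex.card + ∑ j, ((Lw j).card : ℝ) := by
    have : Tt.card ≤ Bd.card + Ex.card + ∑ j, (Lw j).card := by omega
    exact_mod_cast this
  have hB1'' : (Bd.card : ℝ) ≤ κ / 3 * PX := hB1'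
  have hf1 : κ / 3 * PX ≤ κ / 3 * Px := mul_le_mul_of_nonneg_left hPXx (by positivity)
  linarith

end Pool.Agent.TH882.KS
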