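import Pool.Agent.TH882.BilG

/-! The bilinear estimate with weights and the telescoping argument. -/

set_option autoImplicit false

open Finset Filter Topology Polynomial

namespace Pool.Agent.TH882.RF

open Pool.Agent.H373R2.T7
open Pool.Agent.TH882.UB (ev_pow)
open Pool.Agent.TH882.PG

theorem bilW (g : ℤ[X]) (hd : 1 ≤ g.natDegree) (hl : 0 < g.leadingCoeff) (B : ℕ) (hB : 1 ≤ B) (U : ℕ) :
    ∃ B0 : ℕ, ∀ E : ℕ, ∃ X0 : ℕ, ∀ X : ℕ, X0 ≤ X → ∀ z : ℕ, Real.log X ^ B0 ≤ z →
    (z : ℝ) ≤ Real.log X ^ E → ∀ σ : ℤ, (σ = 1 ∨ σ = -1) → ∀ I K : Finset ℕ,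
    (∀ N ∈ I, 1 ≤ N ∧ N ≤ B * X ^ g.natDegree) → (∀ n ∈ K, 1 ≤ n ∧ n ≤ 3 * X) →
    (∀ N ∈ I, ∀ n ∈ K, 1 ≤ (N : ℤ) + σ * g.eval (n : ℤ) ∧
      (N : ℤ) + σ * g.eval (n : ℤ) ≤ ((B * X ^ g.natDegree : ℕ) : ℤ)) →
    ∀ v : ℕ → ℝ, (∀ n, |v n| ≤ 1) →
    ∑ N ∈ I, |∑ n ∈ K, v n *
      (thI (N + σ * g.eval (n : ℤ)) - lamz z ((N : ℤ) + σ * g.eval (n : ℤ)).toNat)| ≤
      (X : ℝ) ^ g.natDegree * X / Real.log X ^ U := by
  classical
  set d := g.natDegree with hdd
  obtain ⟨B0, hB0⟩ := bil_lam g hd hl (max (3 ^ d) B) (hB.trans (le_max_right _ _)) (U + 1)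
  refine ⟨B0 + 1, fun E => ?_⟩
  obtain ⟨N0, hN0⟩ := hB0 E
  obtain ⟨X1, h1⟩ := ev_pow (1 / 2) (12 * √B * (Real.log B + d) ) (by norm_num) (U + 1)
  have hlogt : Tendsto (fun X : ℕ => Real.log (X : ℝ)) atTop atTop :=
    Real.tendsto_log_atTop.comp tendsto_natCast_atTop_atTop
  obtain ⟨X2, h2⟩ := eventually_atTop.1 (hlogt.eventually_ge_atTop (max ((d : ℝ) ^ B0) 6))
  refine ⟨max (max N0 X1) (max X2 3), ?_⟩
  intro X hX z hz1 hz2 σ hσ I K hI hK hIK v hv
  have hXN0 : N0 ≤ X := by omega
  have hX1 : X1 ≤ X := by omega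
  have hX2 : X2 ≤ X := by omega
  have hX3 : 3 ≤ X := by omega
  have hXr : (3 : ℝ) ≤ X := by exact_mod_cast hX3
  have hl2 := h2 X hX2
  set ℓ := Real.log X with hℓ
  have hl3 : (d : ℝ) ^ B0 ≤ ℓ := (le_max_left _ _).trans hl2
  have hl4 : 6 ≤ ℓ := (le_max_right _ _).trans hl2
  have hd1 : (1 : ℝ) ≤ d := by exact_mod_cast hd
  have hlogN : Real.log ((X ^ d : ℕ) : ℝ) = d * ℓ := by
    push_cast
    rw [Real.log_pow]
  have hXd : X ≤ X ^ d := by
    calc X = X ^ 1 := (pow_one _).symm
      _ ≤ X ^ d := Nat.pow_le_pow_right (by omega) hd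
  set F : ℕ → ℝ := fun N => ∑ n ∈ K, v n * (lamI (N + σ * g.eval (n : ℤ)) -
    lamzI z (N + σ * g.eval (n : ℤ))) with hF
  set G : ℕ → ℂ := fun a => if a ∈ I then ((if 0 ≤ F a then (1 : ℝ) else -1 : ℝ) : ℂ) else 0 with hG
  set c : ℕ → ℂ := fun m => if m ∈ K then ((v m : ℝ) : ℂ) else 0 with hc
  have h := hN0 (X ^ d) (by omega) (3 * X) (by
      rw [mul_pow]
      calc X ^ d ≤ 3 ^ d * X ^ d := Nat.le_mul_of_pos_left _ (by positivity)
        _ = 1 * (3 ^ d * X ^ d) := (one_mul _).symm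
        _ ≤ _ := Nat.mul_le_mul_right _ (hB.trans (le_max_right _ _))) (by
      rw [mul_pow]
      exact Nat.mul_le_mul_right _ (le_max_left _ _)) (B * X ^ d) (Nat.mul_le_mul_right _ (le_max_right _ _))
      z (by
        rw [hlogN, mul_pow]
        calc (d : ℝ) ^ B0 * ℓ ^ B0 ≤ ℓ * ℓ ^ B0 := mul_le_mul_of_nonneg_right hl3 (by positivity)
          _ = ℓ ^ (B0 + 1) := by ring
          _ ≤ z := hz1) (by
        rw [hlogN]
        refine hz2.trans ?_
        apply pow_le_pow_left₀ (by linarith)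
        nlinarith) σ hσ G c
    (by
      intro a
      rw [hG]
      simp only
      split_ifs <;> simp)
    (by
      intro m
      rw [hc]
      simp only
      split_ifs
      · rw [Complex.norm_real, Real.norm_eq_abs]
        exact hv m
      · simp)
  have e0 : ∀ a ∈ Icc 1 (B * X ^ d), ∑ m ∈ Icc 1 (3 * X), G a * c m *
      ((lamI (a + σ * g.eval (m : ℤ)) - lamzI z (a + σ * g.eval (m : ℤ)) : ℝ) : ℂ) =
      if a ∈ I then ((|F a| : ℝ) : ℂ) else 0 := by
    intro a _
    by_cases ha : a ∈ I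
    · rw [if_pos ha]
      have e1 : ∑ m ∈ Icc 1 (3 * X), G a * c m *
          ((lamI (a + σ * g.eval (m : ℤ)) -
            lamzI z (a + σ * g.eval (m : ℤ)) : ℝ) : ℂ) =
          ∑ m ∈ K, G a * ((v m * (lamI (a + σ * g.eval (m : ℤ)) -
            lamzI z (a + σ * g.eval (m : ℤ))) : ℝ) : ℂ) := by
        have e2 : ∀ m ∈ Icc 1 (3 * X), G a * c m *
            ((lamI (a + σ * g.eval (m : ℤ)) -
              lamzI z (a + σ * g.eval (m : ℤ)) : ℝ) : ℂ) =
            if m ∈ K then G a *
              ((v m * (lamI (a + σ * g.eval (m : ℤ)) -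
            lamzI z (a + σ * g.eval (m : ℤ))) : ℝ) : ℂ) else 0 := by
          intro m _
          rw [hc]
          simp only
          by_cases hm : m ∈ K
          · rw [if_pos hm, if_pos hm]
            push_cast
            ring
          · rw [if_neg hm, if_neg hm, mul_zero, zero_mul]
        rw [sum_congr rfl e2, ← sum_filter]
        congr 1
        ext m
        rw [mem_filter, mem_Icc]
        constructor
        · exact fun h => h.2
        · exact fun h => ⟨hK m h, h⟩
      rw [e1, ← mul_sum, ← Complex.ofReal_sum]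
      have e5 : G a = ((if 0 ≤ F a then (1 : ℝ) else -1 : ℝ) : ℂ) := by
        rw [hG]
        simp only
        rw [if_pos ha]
      rw [e5, ← Complex.ofReal_mul]
      congr 1
      have e6 : ∑ i ∈ K, v i * (lamI (a + σ * g.eval (i : ℤ)) -
            lamzI z (a + σ * g.eval (i : ℤ))) = F a := rfl
      rw [e6]
      split_ifs with h0
      · rw [one_mul, abs_of_nonneg h0]
      · push Not at h0
        rw [abs_of_neg h0]
        ring
    · rw [if_neg ha]
      have e5 : G a = 0 := by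
        rw [hG]
        simp only
        rw [if_neg ha]
      simp [e5]
  rw [sum_congr rfl e0, ← sum_filter] at h
  have e1 : (Icc 1 (B * X ^ d)).filter (fun a => a ∈ I) = I := by
    ext a
    rw [mem_filter, mem_Icc]
    constructor
    · exact fun h => h.2
    · exact fun h => ⟨hI a h, h⟩
  rw [e1, ← Complex.ofReal_sum, Complex.norm_real, Real.norm_of_nonneg (sum_nonneg fun _ _ => abs_nonneg _),
    hlogN] at h
  -- the prime powers
  have hV0 : 0 < B * X ^ d := Nat.mul_pos (by omega) (by positivity)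
  have hpp : ∑ N ∈ I, ∑ n ∈ K, (lamI (N + σ * g.eval (n : ℤ)) - thI (N + σ * g.eval (n : ℤ))) ≤
      3 * X * (2 * √((B * X ^ d : ℕ) : ℝ) * Real.log ((B * X ^ d : ℕ) : ℝ)) := by
    rw [Finset.sum_comm]
    calc ∑ n ∈ K, ∑ N ∈ I, (lamI (N + σ * g.eval (n : ℤ)) - thI (N + σ * g.eval (n : ℤ))) ≤
        ∑ _n ∈ K, 2 * √((B * X ^ d : ℕ) : ℝ) * Real.log ((B * X ^ d : ℕ) : ℝ) := by
          apply sum_le_sum
          intro n hn
          apply pp_sum (B * X ^ d) hV0 I (fun N => (N : ℤ) + σ * g.eval (n : ℤ))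
          · intro N _ N' _ h
            simp only at h
            omega
          · intro N hN
            exact hIK N hN n hn
      _ = (K.card : ℝ) * (2 * √((B * X ^ d : ℕ) : ℝ) * Real.log ((B * X ^ d : ℕ) : ℝ)) := by
          rw [sum_const, nsmul_eq_mul]
      _ ≤ _ := by
          apply mul_le_mul_of_nonneg_right
          · have hKc : K.card ≤ 3 * X := by
              calc K.card ≤ (Icc 1 (3 * X)).card := card_le_card fun n hn => mem_Icc.2 (hK n hn)
                _ = 3 * X := by simp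
            exact_mod_cast hKc
          · have : 0 ≤ Real.log ((B * X ^ d : ℕ) : ℝ) := Real.log_natCast_nonneg _
            positivity
  have hmain : ∑ N ∈ I, |∑ n ∈ K, v n * (thI (N + σ * g.eval (n : ℤ)) -
      lamz z ((N : ℤ) + σ * g.eval (n : ℤ)).toNat)| ≤
      ∑ N ∈ I, |F N| + ∑ N ∈ I, ∑ n ∈ K, (lamI (N + σ * g.eval (n : ℤ)) -
        thI (N + σ * g.eval (n : ℤ))) := by
    rw [← sum_add_distrib]
    apply sum_le_sum
    intro N hN
    have e2 : ∑ n ∈ K, v n * (thI (N + σ * g.eval (n : ℤ)) -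
        lamz z ((N : ℤ) + σ * g.eval (n : ℤ)).toNat) = F N -
        ∑ n ∈ K, v n * (lamI (N + σ * g.eval (n : ℤ)) - thI (N + σ * g.eval (n : ℤ))) := by
      rw [hF]
      simp only
      rw [← sum_sub_distrib]
      apply sum_congr rfl
      intro n hn
      have e3 : lamzI z ((N : ℤ) + σ * g.eval (n : ℤ)) =
          lamz z ((N : ℤ) + σ * g.eval (n : ℤ)).toNat := by
        unfold lamzI
        rw [if_pos (hIK N hN n hn).1]
      rw [e3]
      ring
    have e4 : ∀ n ∈ K, 0 ≤ lamI (N + σ * g.eval (n : ℤ)) - thI (N + σ * g.eval (n : ℤ)) := by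
      intro n hn
      rw [lamI_sub_thI _ (hIK N hN n hn).1]
      split_ifs
      · exact le_rfl
      · exact ArithmeticFunction.vonMangoldt_nonneg
    rw [e2]
    refine (abs_sub _ _).trans ?_
    apply add_le_add le_rfl
    refine (abs_sum_le_sum_abs _ _).trans ?_
    apply sum_le_sum
    intro n hn
    rw [abs_mul, abs_of_nonneg (e4 n hn)]
    calc |v n| * _ ≤ 1 * _ := mul_le_mul_of_nonneg_right (hv n) (e4 n hn)
      _ = _ := one_mul _
  refine hmain.trans ?_
  have hXd0 : (0 : ℝ) < (X : ℝ) ^ d := by positivity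
  have f1 : ∑ N ∈ I, |F N| ≤ (X : ℝ) ^ d * X / ℓ ^ U / 2 := by
    refine h.trans ?_
    push_cast
    have e5 : (X : ℝ) ^ d * (3 * X) / (d * ℓ) ^ (U + 1) ≤ (X : ℝ) ^ d * (3 * X) / ℓ ^ (U + 1) := by
      apply div_le_div_of_nonneg_left (by positivity) (by positivity)
      apply pow_le_pow_left₀ (by linarith)
      nlinarith
    refine e5.trans ?_
    rw [div_div, div_le_div_iff₀ (by positivity) (by positivity), pow_succ]
    have : 0 ≤ (X : ℝ) ^ d * X * ℓ ^ U := by positivity
    nlinarith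
  have f2 : 3 * X * (2 * √((B * X ^ d : ℕ) : ℝ) * Real.log ((B * X ^ d : ℕ) : ℝ)) ≤
      (X : ℝ) ^ d * X / ℓ ^ U / 2 := by
    have hBr : (1 : ℝ) ≤ B := by exact_mod_cast hB
    have e5 : Real.log ((B * X ^ d : ℕ) : ℝ) ≤ (Real.log B + d) * ℓ := by
      push_cast
      rw [Real.log_mul (by linarith) hXd0.ne', Real.log_pow]
      have : 0 ≤ Real.log B := Real.log_nonneg hBr
      nlinarith
    have e6 : √((B * X ^ d : ℕ) : ℝ) = √B * √((X : ℝ) ^ d) := by
      push_cast
      rw [Real.sqrt_mul (by linarith)]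
    have e7 := h1 X hX1
    have e8 : (X : ℝ) ^ (1 / 2 : ℝ) ≤ √((X : ℝ) ^ d) := by
      rw [← Real.sqrt_eq_rpow]
      apply Real.sqrt_le_sqrt
      calc (X : ℝ) = X ^ 1 := (pow_one _).symm
        _ ≤ X ^ d := pow_le_pow_right₀ (by linarith) hd
    rw [e6, div_div, le_div_iff₀ (by positivity)]
    have hlB : 0 ≤ Real.log B + d := by
      have : 0 ≤ Real.log B := Real.log_nonneg hBr
      linarith
    calc 3 * X * (2 * (√B * √((X : ℝ) ^ d)) * Real.log ((B * X ^ d : ℕ) : ℝ)) * (ℓ ^ U * 2) ≤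
        3 * X * (2 * (√B * √((X : ℝ) ^ d)) * ((Real.log B + d) * ℓ)) * (ℓ ^ U * 2) := by
          apply mul_le_mul_of_nonneg_right _ (by positivity)
          apply mul_le_mul_of_nonneg_left _ (by positivity)
          exact mul_le_mul_of_nonneg_left e5 (by positivity)
      _ = X * √((X : ℝ) ^ d) * (12 * √B * (Real.log B + d) * ℓ ^ (U + 1)) := by ring
      _ ≤ X * √((X : ℝ) ^ d) * √((X : ℝ) ^ d) :=
          mul_le_mul_of_nonneg_left (e7.trans e8) (by positivity)
      _ = (X : ℝ) ^ d * X := by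
          rw [mul_assoc, Real.mul_self_sqrt hXd0.le]
          ring
  linarith [hpp.trans f2]



/-- splitting off one coordinate -/
lemma sum_split {r : ℕ} (i : Fin r) (I : Fin r → Finset ℕ) (f : (Fin r → ℕ) → ℝ) :
    ∑ N ∈ Fintype.piFinset I, f N =
      ∑ M ∈ Fintype.piFinset (Function.update I i {0}), ∑ t ∈ I i, f (Function.update M i t) := by
  classical
  rw [← Finset.sum_product']
  symm
  apply Finset.sum_nbij' (fun x : (Fin r → ℕ) × ℕ => Function.update x.1 i x.2)
    (fun N : Fin r → ℕ => (Function.update N i 0, N i))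
  · rintro ⟨M, t⟩ h
    rw [mem_product, Fintype.mem_piFinset] at h
    rw [Fintype.mem_piFinset]
    intro j
    by_cases hj : j = i
    · subst hj
      rw [Function.update_self]
      exact h.2
    · rw [Function.update_of_ne hj]
      have := h.1 j
      rwa [Function.update_of_ne hj] at this
  · intro N h
    rw [Fintype.mem_piFinset] at h
    rw [mem_product, Fintype.mem_piFinset]
    refine ⟨fun j => ?_, h i⟩
    by_cases hj : j = i
    · subst hj
      simp
    · simp only [Function.update_of_ne hj]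
      exact h j
  · rintro ⟨M, t⟩ h
    rw [mem_product, Fintype.mem_piFinset] at h
    have h1 := h.1 i
    rw [Function.update_self, mem_singleton] at h1
    simp only [Function.update_idem, Function.update_self]
    rw [Prod.mk.injEq]
    refine ⟨?_, rfl⟩
    have h2 : (0 : ℕ) = M i := h1.symm
    rw [h2, Function.update_eq_self]
  · intro N _
    simp
  · intro x _
    rfl

/-- one step -/
lemma one_step {r : ℕ} (i : Fin r) (I : Fin r → Finset ℕ) (A : Finset ℕ) (e : ℕ → ℕ → ℝ)
    (q : Fin r → ℕ → ℕ → ℝ) (B Ei : ℝ) (Cc : Fin r → ℝ) (hB : 1 ≤ B)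
    (hq : ∀ j, ∀ N ∈ I j, ∀ n ∈ A, |q j N n| ≤ B) (hC : ∀ j, ((I j).card : ℝ) ≤ Cc j)
    (hE : 0 ≤ Ei)
    (hone : ∀ u : ℕ → ℝ, (∀ n, |u n| ≤ 1) → ∑ N ∈ I i, |∑ n ∈ A, u n * e N n| ≤ Ei) :
    ∑ N ∈ Fintype.piFinset I, |∑ n ∈ A, (∏ j ∈ univ.erase i, q j (N j) n) * e (N i) n| ≤
      B ^ r * Ei * ∏ j ∈ univ.erase i, Cc j := by
  classical
  have hB0 : (0 : ℝ) < B := by linarith
  have hBr : (0 : ℝ) < B ^ r := by positivity
  rw [sum_split i]
  have hcard : ((Fintype.piFinset (Function.update I i {0})).card : ℝ) ≤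
      ∏ j ∈ univ.erase i, Cc j := by
    rw [Fintype.card_piFinset]
    push_cast
    rw [← mul_prod_erase univ _ (mem_univ i), Function.update_self, card_singleton, Nat.cast_one,
      one_mul]
    apply Finset.prod_le_prod (fun _ _ => Nat.cast_nonneg _)
    intro j hj
    rw [Function.update_of_ne (ne_of_mem_erase hj)]
    exact hC j
  have hin : ∀ M ∈ Fintype.piFinset (Function.update I i {0}), ∑ t ∈ I i,
      |∑ n ∈ A, (∏ j ∈ univ.erase i, q j (Function.update M i t j) n) *
        e (Function.update M i t i) n| ≤ B ^ r * Ei := by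
    intro M hM
    rw [Fintype.mem_piFinset] at hM
    set u : ℕ → ℝ := fun n => if n ∈ A then (∏ j ∈ univ.erase i, q j (M j) n) / B ^ r else 0 with hu
    have hu1 : ∀ n, |u n| ≤ 1 := by
      intro n
      rw [hu]
      simp only
      split_ifs with hn
      · rw [abs_div, abs_of_pos hBr, div_le_one hBr, abs_prod]
        calc ∏ j ∈ univ.erase i, |q j (M j) n| ≤ ∏ _j ∈ univ.erase i, B := by
              apply Finset.prod_le_prod (fun _ _ => abs_nonneg _)
              intro j hj
              have h1 := hM j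
              rw [Function.update_of_ne (ne_of_mem_erase hj)] at h1
              exact hq j (M j) h1 n hn
          _ = B ^ (univ.erase i).card := by rw [prod_const]
          _ ≤ B ^ r := by
              apply pow_le_pow_right₀ hB
              calc (univ.erase i).card ≤ (univ : Finset (Fin r)).card := card_le_card (erase_subset _ _)
                _ = r := by simp
      · simp
    have h2 := hone u hu1
    have h3 : ∑ t ∈ I i, |∑ n ∈ A, (∏ j ∈ univ.erase i, q j (Function.update M i t j) n) *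
        e (Function.update M i t i) n| = B ^ r * ∑ t ∈ I i, |∑ n ∈ A, u n * e t n| := by
      rw [mul_sum]
      apply sum_congr rfl
      intro t _
      have h5 : B ^ r * |∑ n ∈ A, u n * e t n| = |∑ n ∈ A, B ^ r * (u n * e t n)| := by
        rw [← mul_sum, abs_mul, abs_of_pos hBr]
      rw [h5]
      congr 1
      apply sum_congr rfl
      intro n hn
      have h4 : ∏ j ∈ univ.erase i, q j (Function.update M i t j) n =
          ∏ j ∈ univ.erase i, q j (M j) n := by
        apply prod_congr rfl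
        intro j hj
        rw [Function.update_of_ne (ne_of_mem_erase hj)]
      rw [h4, Function.update_self, hu]
      simp only
      rw [if_pos hn]
      field_simp
    rw [h3]
    exact mul_le_mul_of_nonneg_left h2 hBr.le
  calc _ ≤ ∑ _M ∈ Fintype.piFinset (Function.update I i {0}), B ^ r * Ei := sum_le_sum hin
    _ = ((Fintype.piFinset (Function.update I i {0})).card : ℝ) * (B ^ r * Ei) := by
        rw [sum_const, nsmul_eq_mul]
    _ ≤ (∏ j ∈ univ.erase i, Cc j) * (B ^ r * Ei) :=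
        mul_le_mul_of_nonneg_right hcard (by positivity)
    _ = _ := by ring

/-- the telescoping argument -/
lemma tele {r : ℕ} (I : Fin r → Finset ℕ) (A : Finset ℕ) (t l : Fin r → ℕ → ℕ → ℝ) (B : ℝ)
    (Ei Cc : Fin r → ℝ) (hB : 1 ≤ B)
    (ht : ∀ j, ∀ N ∈ I j, ∀ n ∈ A, |t j N n| ≤ B) (hl : ∀ j, ∀ N ∈ I j, ∀ n ∈ A, |l j N n| ≤ B)
    (hC : ∀ j, ((I j).card : ℝ) ≤ Cc j) (hE : ∀ j, 0 ≤ Ei j)
    (hone : ∀ i, ∀ u : ℕ → ℝ, (∀ n, |u n| ≤ 1) →
      ∑ N ∈ I i, |∑ n ∈ A, u n * (t i N n - l i N n)| ≤ Ei i) :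
    ∑ N ∈ Fintype.piFinset I, |∑ n ∈ A, (∏ j, t j (N j) n - ∏ j, l j (N j) n)| ≤
      ∑ i, B ^ r * Ei i * ∏ j ∈ univ.erase i, Cc j := by
  classical
  have key : ∀ T : Finset (Fin r),
      ∑ N ∈ Fintype.piFinset I, |∑ n ∈ A, (∏ j, (if j ∈ T then t j (N j) n else l j (N j) n) -
        ∏ j, l j (N j) n)| ≤ ∑ i ∈ T, B ^ r * Ei i * ∏ j ∈ univ.erase i, Cc j := by
    intro T
    induction T using Finset.induction_on with
    | empty => simp
    | insert i T hi ih =>
      rw [sum_insert hi]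
      have hst := one_step i I A (fun N n => t i N n - l i N n)
        (fun j N n => if j ∈ T then t j N n else l j N n) B (Ei i) Cc hB (by
          intro j N hN n hn
          split_ifs
          · exact ht j N hN n hn
          · exact hl j N hN n hn) hC (hE i) (hone i)
      refine le_trans ?_ (add_le_add hst ih)
      rw [← sum_add_distrib]
      apply sum_le_sum
      intro N _
      refine le_trans (le_of_eq ?_) (abs_add_le _ _)
      congr 1
      rw [← sum_add_distrib]
      apply sum_congr rfl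
      intro n _
      have e1 : ∏ j, (if j ∈ insert i T then t j (N j) n else l j (N j) n) =
          (∏ j ∈ univ.erase i, (if j ∈ T then t j (N j) n else l j (N j) n)) * t i (N i) n := by
        rw [← prod_erase_mul univ _ (mem_univ i), if_pos (mem_insert_self _ _)]
        congr 1
        apply prod_congr rfl
        intro j hj
        have hj' := ne_of_mem_erase hj
        by_cases hjT : j ∈ T
        · rw [if_pos hjT, if_pos (mem_insert_of_mem hjT)]
        · rw [if_neg hjT, if_neg (by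
            rw [mem_insert, not_or]
            exact ⟨hj', hjT⟩)]
      have e2 : ∏ j, (if j ∈ T then t j (N j) n else l j (N j) n) =
          (∏ j ∈ univ.erase i, (if j ∈ T then t j (N j) n else l j (N j) n)) * l i (N i) n := by
        rw [← prod_erase_mul univ _ (mem_univ i), if_neg hi]
      rw [e1, e2]
      ring
  have h := key univ
  simpa using h

end Pool.Agent.TH882.RF
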