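import Pool.Agent.TH823.Fam.Fam2
import Pool.Agent.TH882.R3

/-! Sign patterns of the Liouville function at shifts from polynomial families, along arbitrary sets. -/

set_option autoImplicit false

open Finset Polynomial

namespace Pool.Agent.TH882.LB

open Pool.Agent.H373R2.T7 (exI liR energy liR_norm sup_liou ev_L')
open Pool.Agent.TH882.RF (sum_split)

/-- the Liouville function with real values -/
noncomputable def lr (n : ℕ) : ℝ := (-1) ^ ArithmeticFunction.cardFactors n

lemma lr_abs (n : ℕ) : |lr n| = 1 := by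
  unfold lr
  rw [abs_pow, abs_neg, abs_one, one_pow]

lemma one_fam (f : ℤ[X]) (hd : 1 ≤ f.natDegree) (hpos : ∀ v : ℕ, 1 ≤ v → 0 ≤ f.eval (v : ℤ))
    (B C U : ℕ) (hB : 1 ≤ B) : ∃ N0 : ℕ, ∀ N : ℕ, N0 ≤ N → ∀ y : ℕ,
    y ^ f.natDegree ≤ B * N → (N : ℝ) ≤ Real.log N ^ C * (y : ℝ) ^ f.natDegree →
    ∀ θ : ℕ → ℝ, (∀ n, |θ n| ≤ 1) → ∀ E : ℕ → Prop, [DecidablePred E] →
    (∀ v ∈ Icc 1 y, E v → (N : ℝ) / Real.log N ^ U <
      |∑ n ∈ Icc 1 N, θ n * lr (n + (f.eval (v : ℤ)).toNat)|) →
    (((Icc 1 y).filter E).card : ℝ) ≤ y / Real.log N ^ U := by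
  obtain ⟨p, B', hB', N1, h1⟩ := Pool.Agent.TH823.Fam.poly_family f hd B C
  obtain ⟨N2, h2⟩ := Pool.Agent.TH823.Fam.fam_all liR liR_norm sup_liou p B' (C + 1) 0 U
  refine ⟨N1 + N2, fun N hN y hy1 hy2 θ hθ E _ hE => ?_⟩
  obtain ⟨h3, h4⟩ := h1 N (by omega) y hy1 hy2 0 (by simp only [abs_zero]; positivity)
  refine h2 N (by omega) y (fun v => 0 + f.eval (v : ℤ)) h3 h4 1 (by simp) (fun _ => 1)
    (fun _ n => (θ n : ℂ)) (fun _ _ => le_rfl) (fun _ _ n _ _ => by
      rw [pow_zero, Complex.norm_real]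
      exact hθ n) E ?_
  intro v hv hEv
  refine ⟨0, by norm_num, N, ?_, ?_⟩
  · rw [one_mul]
    exact Nat.le_mul_of_pos_left _ (by omega)
  · refine (hE v hv hEv).trans_le (le_of_eq ?_)
    rw [← Real.norm_eq_abs, ← Complex.norm_real, Complex.ofReal_sum]
    congr 1
    apply sum_congr rfl
    intro n hn
    have hn1 := (mem_Icc.1 hn).1
    have hv1 := (mem_Icc.1 hv).1
    have hf := hpos v hv1
    rw [Complex.ofReal_mul]
    congr 1
    unfold exI
    have e1 : (1 : ℤ) ≤ ((1 * n : ℕ) : ℤ) + (0 + f.eval (v : ℤ)) := by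
      push_cast
      omega
    have e2 : (((1 * n : ℕ) : ℤ) + (0 + f.eval (v : ℤ))).toNat = n + (f.eval (v : ℤ)).toNat := by
      push_cast
      omega
    rw [if_pos e1, e2]
    unfold lr liR
    push_cast
    rfl

lemma card_pi_erase {s : ℕ} (i : Fin s) (y : Fin s → ℕ) :
    ((Fintype.piFinset (Function.update (fun j => Icc 1 (y j)) i {0})).card : ℝ) * y i =
      ∏ j, (y j : ℝ) := by
  classical
  rw [Fintype.card_piFinset]
  rw [← mul_prod_erase univ _ (mem_univ i), ← mul_prod_erase univ (fun j => (y j : ℝ)) (mem_univ i)]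
  rw [Function.update_self, card_singleton, one_mul]
  rw [prod_congr rfl fun j hj => by rw [Function.update_of_ne (ne_of_mem_erase hj), Nat.card_Icc]]
  push_cast
  rw [mul_comm]

theorem sev_fam {s : ℕ} (f : Fin s → ℤ[X]) (hd : ∀ j, 1 ≤ (f j).natDegree)
    (hpos : ∀ j, ∀ v : ℕ, 1 ≤ v → 0 ≤ (f j).eval (v : ℤ)) (B C U : ℕ) (hB : 1 ≤ B) :
    ∃ N0 : ℕ, ∀ N : ℕ, N0 ≤ N → ∀ y : Fin s → ℕ, (∀ j, y j ^ (f j).natDegree ≤ B * N) →
    (∀ j, (N : ℝ) ≤ Real.log N ^ C * (y j : ℝ) ^ (f j).natDegree) → ∀ S : Finset ℕ, S ⊆ Icc 1 N →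
    ∀ E : (Fin s → ℕ) → Prop, [DecidablePred E] →
    (∀ v ∈ Fintype.piFinset (fun j => Icc 1 (y j)), E v → ∃ J : Finset (Fin s), J.Nonempty ∧
      (N : ℝ) / Real.log N ^ U < |∑ n ∈ S, ∏ j ∈ J, lr (n + ((f j).eval (v j : ℤ)).toNat)|) →
    (((Fintype.piFinset (fun j => Icc 1 (y j))).filter E).card : ℝ) ≤
      (∏ j, (y j : ℝ)) / Real.log N ^ U := by
  classical
  choose N0j h1 using fun j => one_fam (f j) (hd j) (hpos j) B C (U + 1) hB
  obtain ⟨N2, h2⟩ := ev_L' (2 ^ s)
  refine ⟨univ.sup N0j + N2 + 3, fun N hN y hy1 hy2 S hS E _ hE => ?_⟩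
  have hNj : ∀ j, N0j j ≤ N := fun j => (Finset.le_sup (f := N0j) (mem_univ j)).trans (by omega)
  have hlog : (2 : ℝ) ^ s ≤ Real.log N := by exact_mod_cast h2 N (by omega)
  have hl1 : (1 : ℝ) ≤ Real.log N := (one_le_pow₀ (by norm_num)).trans hlog
  have hl0 : 0 < Real.log N := by linarith
  set I : Finset (Fin s → ℕ) := Fintype.piFinset (fun j => Icc 1 (y j)) with hI
  set P : Finset (Fin s) → (Fin s → ℕ) → Prop := fun J v =>
    (N : ℝ) / Real.log N ^ (U + 1) < |∑ n ∈ S, ∏ j ∈ J, lr (n + ((f j).eval (v j : ℤ)).toNat)| with hP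
  have hsub : I.filter E ⊆ ((univ : Finset (Finset (Fin s))).filter (fun J => J.Nonempty)).biUnion
      (fun J => I.filter (P J)) := by
    intro v hv
    rw [mem_filter] at hv
    obtain ⟨J, hJ, h3⟩ := hE v hv.1 hv.2
    rw [mem_biUnion]
    refine ⟨J, by rw [mem_filter]; exact ⟨mem_univ _, hJ⟩, ?_⟩
    rw [mem_filter]
    refine ⟨hv.1, lt_of_le_of_lt ?_ h3⟩
    apply div_le_div_of_nonneg_left (Nat.cast_nonneg _) (by positivity)
    exact pow_le_pow_right₀ hl1 (by omega)
  have hone : ∀ J : Finset (Fin s), J.Nonempty → ((I.filter (P J)).card : ℝ) ≤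
      (∏ j, (y j : ℝ)) / Real.log N ^ (U + 1) := by
    rintro J ⟨i, hi⟩
    have e1 : ((I.filter (P J)).card : ℝ) = ∑ v ∈ I, (if P J v then (1 : ℝ) else 0) := by
      rw [card_filter]
      push_cast
      rfl
    rw [e1, hI, sum_split i]
    have e2 : ∀ M : Fin s → ℕ, ∑ t ∈ Icc 1 (y i), (if P J (Function.update M i t) then (1 : ℝ) else 0) ≤
        y i / Real.log N ^ (U + 1) := by
      intro M
      have e3 := h1 i N (hNj i) (y i) (hy1 i) (hy2 i)
        (fun n => if n ∈ S then ∏ j ∈ J.erase i, lr (n + ((f j).eval (M j : ℤ)).toNat) else 0) (by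
          intro n
          split_ifs
          · rw [Finset.abs_prod]
            rw [prod_congr rfl fun j _ => lr_abs _, prod_const_one]
          · rw [abs_zero]
            exact zero_le_one)
        (fun t => P J (Function.update M i t)) (by
          intro t _ ht
          refine lt_of_lt_of_eq ht ?_
          congr 1
          have e4 : ∑ n ∈ Icc 1 N, (if n ∈ S then ∏ j ∈ J.erase i, lr (n + ((f j).eval (M j : ℤ)).toNat)
              else 0) * lr (n + ((f i).eval (t : ℤ)).toNat) =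
              ∑ n ∈ S, (∏ j ∈ J.erase i, lr (n + ((f j).eval (M j : ℤ)).toNat)) *
                lr (n + ((f i).eval (t : ℤ)).toNat) := by
            rw [← Finset.inter_eq_right.2 hS, ← Finset.sum_filter_add_sum_filter_not (Icc 1 N) (· ∈ S)]
            rw [Finset.sum_eq_zero (s := (Icc 1 N).filter (fun x => ¬ x ∈ S)) (by
              intro n hn
              rw [mem_filter] at hn
              rw [if_neg, zero_mul]
              intro hcon
              exact hn.2 (by simpa using (mem_inter.1 hcon).2)), add_zero]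
            apply sum_congr
            · ext n
              rw [mem_filter, mem_inter]
            · intro n hn
              rw [mem_inter] at hn
              rw [if_pos (by rw [mem_inter]; exact hn)]
          rw [e4]
          apply sum_congr rfl
          intro n _
          rw [← prod_erase_mul J _ hi]
          congr 1
          · apply prod_congr rfl
            intro j hj
            rw [Function.update_of_ne (ne_of_mem_erase hj)]
          · rw [Function.update_self])
      refine le_trans (le_of_eq ?_) e3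
      rw [card_filter]
      push_cast
      rfl
    refine (sum_le_sum fun M _ => e2 M).trans (le_of_eq ?_)
    rw [sum_const, nsmul_eq_mul, ← card_pi_erase i y]
    ring
  have h3 : ((I.filter E).card : ℝ) ≤ ∑ J ∈ (univ : Finset (Finset (Fin s))).filter (fun J => J.Nonempty),
      ((I.filter (P J)).card : ℝ) := by
    have := (card_le_card hsub).trans card_biUnion_le
    exact_mod_cast this
  refine h3.trans ?_
  have hyp : 0 ≤ ∏ j, (y j : ℝ) := prod_nonneg fun _ _ => Nat.cast_nonneg _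
  calc ∑ J ∈ (univ : Finset (Finset (Fin s))).filter (fun J => J.Nonempty), ((I.filter (P J)).card : ℝ)
      ≤ ∑ _J ∈ (univ : Finset (Finset (Fin s))).filter (fun J => J.Nonempty),
        (∏ j, (y j : ℝ)) / Real.log N ^ (U + 1) := sum_le_sum fun J hJ => hone J (mem_filter.1 hJ).2
    _ = (((univ : Finset (Finset (Fin s))).filter (fun J => J.Nonempty)).card : ℝ) *
        ((∏ j, (y j : ℝ)) / Real.log N ^ (U + 1)) := by rw [sum_const, nsmul_eq_mul]
    _ ≤ Real.log N * ((∏ j, (y j : ℝ)) / Real.log N ^ (U + 1)) := by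
        apply mul_le_mul_of_nonneg_right _ (by positivity)
        have e5 : ((univ : Finset (Finset (Fin s))).filter (fun J => J.Nonempty)).card ≤ 2 ^ s := by
          refine (card_filter_le _ _).trans ?_
          rw [card_univ, Fintype.card_finset, Fintype.card_fin]
        have e6 : (((univ : Finset (Finset (Fin s))).filter (fun J => J.Nonempty)).card : ℝ) ≤
            (2 : ℝ) ^ s := by exact_mod_cast e5
        exact e6.trans hlog
    _ = _ := by
        rw [pow_succ]
        field_simp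

/-- the count of a sign pattern -/
lemma pattern {s : ℕ} (S : Finset ℕ) (F : Fin s → ℕ → ℕ) (ε : Fin s → ℝ)
    (hε : ∀ j, ε j = 1 ∨ ε j = -1) (T : ℝ) (hT : 0 ≤ T)
    (h : ∀ J : Finset (Fin s), J.Nonempty → |∑ n ∈ S, ∏ j ∈ J, lr (n + F j n)| ≤ T)
    (Q : ℕ → Prop) [DecidablePred Q] (hQ : ∀ n, Q n ↔ ∀ j, lr (n + F j n) = ε j) :
    |((S.filter Q).card : ℝ) - S.card / 2 ^ s| ≤ T := by
  classical
  have hlr : ∀ n, lr n = 1 ∨ lr n = -1 := by
    intro n
    unfold lr
    exact neg_one_pow_eq_or ℝ _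
  have e1 : ((S.filter Q).card : ℝ) = ∑ n ∈ S, ∏ j, ((1 + ε j * lr (n + F j n)) / 2) := by
    rw [card_filter]
    push_cast
    apply sum_congr rfl
    intro n _
    split_ifs with hn
    · rw [hQ] at hn
      symm
      apply prod_eq_one
      intro j _
      rw [hn j]
      rcases hε j with h1 | h1 <;> rw [h1] <;> norm_num
    · rw [hQ] at hn
      push Not at hn
      obtain ⟨j, hj⟩ := hn
      symm
      apply prod_eq_zero (mem_univ j)
      rcases hε j with h1 | h1 <;> rcases hlr (n + F j n) with h2 | h2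
      · rw [h1, h2] at hj; exact absurd rfl hj
      · rw [h1, h2]; norm_num
      · rw [h1, h2]; norm_num
      · rw [h1, h2] at hj; exact absurd rfl hj
  have e2 : ∀ n, ∏ j, ((1 + ε j * lr (n + F j n)) / 2) =
      (∑ J ∈ (univ : Finset (Fin s)).powerset, (∏ j ∈ J, ε j) * ∏ j ∈ J, lr (n + F j n)) / 2 ^ s := by
    intro n
    rw [prod_div_distrib, Finset.prod_one_add]
    rw [prod_const, card_univ, Fintype.card_fin]
    congr 1
    apply sum_congr rfl
    intro J _
    rw [prod_mul_distrib]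
  rw [e1, sum_congr rfl fun n _ => e2 n, ← sum_div, Finset.sum_comm]
  have hmem : (∅ : Finset (Fin s)) ∈ (univ : Finset (Fin s)).powerset := empty_mem_powerset _
  rw [← add_sum_erase _ _ hmem]
  have e3 : ∑ n ∈ S, (∏ j ∈ (∅ : Finset (Fin s)), ε j) * ∏ j ∈ (∅ : Finset (Fin s)), lr (n + F j n) =
      (S.card : ℝ) := by simp
  rw [e3]
  have e4 : ((S.card : ℝ) + ∑ J ∈ ((univ : Finset (Fin s)).powerset).erase ∅,
      ∑ n ∈ S, (∏ j ∈ J, ε j) * ∏ j ∈ J, lr (n + F j n)) / 2 ^ s - S.card / 2 ^ s =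
      (∑ J ∈ ((univ : Finset (Fin s)).powerset).erase ∅,
      ∑ n ∈ S, (∏ j ∈ J, ε j) * ∏ j ∈ J, lr (n + F j n)) / 2 ^ s := by ring
  rw [e4, abs_div, abs_of_pos (by positivity : (0 : ℝ) < 2 ^ s), div_le_iff₀ (by positivity)]
  refine (abs_sum_le_sum_abs _ _).trans ?_
  have e5 : ∀ J ∈ ((univ : Finset (Fin s)).powerset).erase ∅,
      |∑ n ∈ S, (∏ j ∈ J, ε j) * ∏ j ∈ J, lr (n + F j n)| ≤ T := by
    intro J hJ
    rw [← mul_sum, abs_mul]
    have e6 : |∏ j ∈ J, ε j| = 1 := by
      rw [Finset.abs_prod]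
      apply prod_eq_one
      intro j _
      rcases hε j with h1 | h1 <;> rw [h1] <;> norm_num
    rw [e6, one_mul]
    exact h J (nonempty_iff_ne_empty.2 (ne_of_mem_erase hJ))
  refine (sum_le_sum e5).trans ?_
  rw [sum_const, nsmul_eq_mul, mul_comm]
  apply mul_le_mul_of_nonneg_left _ hT
  have e6 : (((univ : Finset (Fin s)).powerset).erase ∅).card ≤ 2 ^ s := by
    refine (card_le_card (erase_subset _ _)).trans ?_
    rw [card_powerset, card_univ, Fintype.card_fin]
  exact_mod_cast e6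

end Pool.Agent.TH882.LB
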