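import Pool.Agent.TH882.UB2
import Pool.Agent.H373R2.T7.LamZ2

/-! Counting the `N` of a residue class for which `N - k` has no small prime factors. -/

set_option autoImplicit false

open Finset Filter Topology

namespace Pool.Agent.TH882.PC

open Pool.Agent.H361R2.PP
open Pool.Agent.W70.HR
open Pool.Agent.TH882.UB
open Pool.Agent.H373R2.T7 (lamz Vz pz)

/-- number of integers in `[a, b)` in a residue class -/
lemma cnt_Ico (a b M v : ℕ) (hab : a ≤ b) (hM : 0 < M) :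
    |(((Ico a b).filter (fun n => n ≡ v [MOD M])).card : ℝ) - ((b : ℝ) - a) / M| ≤ 1 := by
  have h := Nat.Ico_filter_modEq_card a b hM v
  set c := ((Ico a b).filter (fun n => n ≡ v [MOD M])).card with hc
  set e : ℚ := ((b : ℚ) - (v : ℚ)) / (M : ℚ) with he
  set d : ℚ := ((a : ℚ) - (v : ℚ)) / (M : ℚ) with hd
  have hMq : (0 : ℚ) < M := by exact_mod_cast hM
  have habq : (a : ℚ) ≤ b := by exact_mod_cast hab
  have hed : e - d = ((b : ℚ) - a) / M := by
    rw [he, hd]; field_simp; ring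
  have hXM : (0 : ℚ) ≤ ((b : ℚ) - a) / M := div_nonneg (by linarith) hMq.le
  have h1 := Int.le_ceil e
  have h2 := Int.ceil_lt_add_one e
  have h3 := Int.le_ceil d
  have h4 := Int.ceil_lt_add_one d
  have hq : |(c : ℚ) - ((b : ℚ) - a) / M| ≤ 1 := by
    have hcq : (c : ℚ) = max ((⌈e⌉ : ℚ) - ⌈d⌉) 0 := by
      have := congrArg (fun z : ℤ => (z : ℚ)) h
      push_cast at this
      convert this using 2
    rw [hcq, abs_le, ← hed]
    constructor
    · have := le_max_left ((⌈e⌉ : ℚ) - ⌈d⌉) 0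
      linarith
    · have : max ((⌈e⌉ : ℚ) - ⌈d⌉) 0 ≤ e - d + 1 := by
        apply max_le
        · linarith
        · rw [hed]; linarith
      linarith
  have hr : ((|(c : ℚ) - ((b : ℚ) - a) / M| : ℚ) : ℝ) ≤ ((1 : ℚ) : ℝ) := by exact_mod_cast hq
  push_cast at hr
  exact hr

/-- the integers `N` of the class `s` -/
noncomputable def IN (X Z s : ℕ) : Finset ℕ := (Ico (5 * X) Z).filter (fun N => N % Wm X = s)

/-- the primes between `HH X` and `z` -/
noncomputable def PZ (X z : ℕ) : Finset ℕ := (pz z).filter (fun p => HH X < p)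

lemma mem_PZ {X z p : ℕ} : p ∈ PZ X z ↔ p.Prime ∧ p ≤ z ∧ HH X < p := by
  unfold PZ pz
  rw [mem_filter, mem_filter, mem_Icc]
  constructor
  · rintro ⟨⟨⟨_, h2⟩, h3⟩, h4⟩
    exact ⟨h3, h2, h4⟩
  · rintro ⟨h1, h2, h3⟩
    exact ⟨⟨⟨h1.one_lt.le, h2⟩, h1⟩, h3⟩

lemma IN_count (X Z s : ℕ) (hs : s < Wm X) (hZ : 5 * X ≤ Z) (T : Finset ℕ)
    (hT : ∀ p ∈ T, p.Prime ∧ HH X < p) (c : ℕ → ℕ) (hc : ∀ p ∈ T, c p < p) :
    |(((IN X Z s).filter (fun N => ∀ p ∈ T, N % p = c p)).card : ℝ) -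
      ((Z : ℝ) - 5 * X) / Wm X / ∏ p ∈ T, (p : ℝ)| ≤ 1 := by
  classical
  have hcop := Pool.Agent.H20R2.EQI.cop_W X T hT
  have hWpos : 0 < Wm X := Wm_pos X
  have hDpos : 0 < ∏ p ∈ T, p := Finset.prod_pos (fun p hp => (hT p hp).1.pos)
  obtain ⟨r, -, hr⟩ := crt ∅ T (by simp) (fun p hp => (hT p hp).1) (disjoint_empty_left _) 0 c
  obtain ⟨v, hv1, hv2⟩ := Nat.chineseRemainder hcop s r
  have hset : (IN X Z s).filter (fun N => ∀ p ∈ T, N % p = c p) =
      (Ico (5 * X) Z).filter (fun n => n ≡ v [MOD Wm X * ∏ p ∈ T, p]) := by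
    unfold IN
    rw [filter_filter]
    apply filter_congr
    intro n _
    have e1 : (∀ p ∈ T, n % p = c p) ↔ ∀ p ∈ T, n % p = r % p := by
      constructor
      · intro h p hp
        rw [h p hp, hr p hp, Nat.mod_eq_of_lt (hc p hp)]
      · intro h p hp
        rw [h p hp, hr p hp, Nat.mod_eq_of_lt (hc p hp)]
    rw [e1, Pool.Agent.H20R2.EQI.modD T (fun p hp => (hT p hp).1) n r,
      ← Nat.modEq_and_modEq_iff_modEq_mul hcop]
    have hbb : s % Wm X = s := Nat.mod_eq_of_lt hs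
    constructor
    · rintro ⟨h1, h2⟩
      refine ⟨?_, h2.trans hv2.symm⟩
      have : n ≡ s [MOD Wm X] := by unfold Nat.ModEq; rw [h1, hbb]
      exact this.trans hv1.symm
    · rintro ⟨h1, h2⟩
      refine ⟨?_, h2.trans hv2⟩
      have : n ≡ s [MOD Wm X] := h1.trans hv1
      unfold Nat.ModEq at this
      rw [this, hbb]
  rw [hset]
  have h := cnt_Ico (5 * X) Z (Wm X * ∏ p ∈ T, p) v hZ (Nat.mul_pos hWpos hDpos)
  rw [div_div]
  push_cast at h ⊢
  exact h

lemma IN_card (X Z s : ℕ) (hs : s < Wm X) (hZ : 5 * X ≤ Z) :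
    ((IN X Z s).card : ℝ) ≤ ((Z : ℝ) - 5 * X) / Wm X + 1 := by
  have h := IN_count X Z s hs hZ ∅ (by simp) (fun _ => 0) (by simp)
  simp only [notMem_empty, false_imp_iff, implies_true, filter_true, prod_empty, div_one] at h
  linarith [(abs_le.1 h).2]

/-- `N` such that `N - k`, `k ∈ K`, has no prime factor up to `z` -/
noncomputable def RN (X Z s z : ℕ) (K : Finset ℕ) : Finset ℕ :=
  (IN X Z s).filter (fun N => ∀ k ∈ K, ∀ p ∈ pz z, ¬ p ∣ N - k)

lemma dvd_sub_iff {p N k : ℕ} (hk : k ≤ N) : p ∣ N - k ↔ N % p = k % p := by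
  rw [← Nat.modEq_iff_dvd' hk]
  unfold Nat.ModEq
  exact eq_comm

lemma RN_eq (X Z s z : ℕ) (K : Finset ℕ) (hK : ∀ k ∈ K, k ≤ 5 * X)
    (hcop : ∀ N ∈ IN X Z s, ∀ k ∈ K, (N - k).Coprime (Wm X)) :
    RN X Z s z K =
      (IN X Z s).filter (fun N => ∀ p ∈ PZ X z, N % p ∉ K.image (fun k => k % p)) := by
  classical
  unfold RN
  apply filter_congr
  intro N hN
  have hN5 : 5 * X ≤ N := by
    unfold IN at hN
    rw [mem_filter, mem_Ico] at hN
    exact hN.1.1
  constructor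
  · intro h p hp hmem
    rw [mem_image] at hmem
    obtain ⟨k, hk, he⟩ := hmem
    have h1 := h k hk p (by unfold PZ at hp; exact (mem_filter.1 hp).1)
    exact h1 ((dvd_sub_iff ((hK k hk).trans hN5)).2 he.symm)
  · intro h k hk p hp hd
    by_cases hpH : HH X < p
    · have h1 : p ∈ PZ X z := by
        unfold PZ
        exact mem_filter.2 ⟨hp, hpH⟩
      apply h p h1
      rw [mem_image]
      exact ⟨k, hk, ((dvd_sub_iff ((hK k hk).trans hN5)).1 hd).symm⟩
    · have hpp : p.Prime := by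
        unfold pz at hp
        exact (mem_filter.1 hp).2
      have h1 : p ∣ Wm X := by
        unfold Wm
        exact hpp.dvd_primorial_iff.2 (not_lt.1 hpH)
      have h2 := hcop N hN k hk
      have h3 := Nat.dvd_gcd hd h1
      rw [h2] at h3
      exact hpp.one_lt.ne' (Nat.dvd_one.1 h3)

/-- the sieve for the numbers `N - k` -/
theorem RN_card (κ : ℕ) : ∀ β : ℝ, 0 < β → ∀ E : ℕ, ∃ X₀ : ℕ, ∀ X : ℕ, X₀ ≤ X → ∀ Z s z : ℕ,
    5 * X ≤ Z → s < Wm X → (z : ℝ) ≤ Real.log X ^ E → ∀ K : Finset ℕ, K.card ≤ κ →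
    (∀ k ∈ K, k ≤ 5 * X) → (∀ N ∈ IN X Z s, ∀ k ∈ K, (N - k).Coprime (Wm X)) →
    |((RN X Z s z K).card : ℝ) - ((Z : ℝ) - 5 * X) / Wm X *
        ∏ p ∈ PZ X z, (1 - ((K.image (fun k => k % p)).card : ℝ) / p)| ≤
      β * (((Z : ℝ) - 5 * X) / Wm X *
        ∏ p ∈ PZ X z, (1 - ((K.image (fun k => k % p)).card : ℝ) / p)) +
        (X : ℝ) ^ (1 / 4 : ℝ) := by
  classical
  intro β hβ E
  obtain ⟨C0, hC0, hfl⟩ := Pool.Agent.TH882.FL.fl1 κ
  obtain ⟨b0, hb0⟩ := exists_pow_lt_of_lt_one hβ (show (1 / 2 : ℝ) < 1 by norm_num)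
  set b : ℕ := max C0 b0 with hb
  set δ : ℝ := 1 / (16 * (C0 : ℝ) * b) with hδ
  have hC0r : (1 : ℝ) ≤ C0 := by exact_mod_cast hC0
  have hbr : (1 : ℝ) ≤ b := by
    have : 1 ≤ b := hC0.trans (le_max_left _ _)
    exact_mod_cast this
  have hδ0 : 0 < δ := by rw [hδ]; positivity
  have hδ1 : δ ≤ 1 := by
    rw [hδ, div_le_one (by positivity)]
    nlinarith
  obtain ⟨X1, hJ⟩ := JJ_size δ hδ0 hδ1 (C0 * b * 2) (1 / 8) (by
    rw [hδ]
    push_cast
    apply le_of_eq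
    field_simp
    norm_num)
  obtain ⟨X2, hHH⟩ := eventually_atTop.1 (HH_tendsto.eventually_ge_atTop C0)
  obtain ⟨X3, hz⟩ := ev_pow (δ / 2) 1 (by positivity) E
  obtain ⟨X4, he⟩ := ev_pow (1 / 8) 4 (by norm_num) 1
  refine ⟨max (max X1 X2) (max (max X3 X4) 3), ?_⟩
  intro X hX Z s z hZ hs hzE K hKc hK5 hcop
  have hX1 : X1 ≤ X := ((le_max_left _ _).trans (le_max_left _ _)).trans hX
  have hX2 : X2 ≤ X := ((le_max_right _ _).trans (le_max_left _ _)).trans hX
  have hX3 : X3 ≤ X := ((le_max_left _ _).trans ((le_max_left _ _).trans (le_max_right _ _))).trans hX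
  have hX4 : X4 ≤ X := ((le_max_right _ _).trans ((le_max_left _ _).trans (le_max_right _ _))).trans hX
  have hX5 : 3 ≤ X := ((le_max_right _ _).trans (le_max_right _ _)).trans hX
  have hXr : (3 : ℝ) ≤ X := by exact_mod_cast hX5
  obtain ⟨hJ1, hJ2, -, hJ4⟩ := hJ X hX1
  have hH := hHH X hX2
  have h3 := hz X hX3
  have h4 := he X hX4
  set J := JJ δ X with hJd
  have hzJ : z ≤ 2 ^ 2 ^ J := by
    have : (z : ℝ) ≤ ((2 ^ 2 ^ J : ℕ) : ℝ) := by
      calc (z : ℝ) ≤ Real.log X ^ E := hzE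
        _ = 1 * Real.log X ^ E := (one_mul _).symm
        _ ≤ _ := h3
        _ ≤ _ := hJ4
    exact_mod_cast this
  have hW0 : (0 : ℝ) < Wm X := by exact_mod_cast Wm_pos X
  have hZr : (5 : ℝ) * X ≤ Z := by exact_mod_cast hZ
  set A : ℝ := ((Z : ℝ) - 5 * X) / Wm X with hA
  have hA0 : 0 ≤ A := div_nonneg (by linarith) hW0.le
  have hkey := hfl b J (HH X) (PZ X z) (fun p => K.image (fun k => k % p)) (le_max_left _ _) hH (by
      intro p hp
      rw [mem_PZ] at hp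
      exact ⟨hp.1, hp.2.2, hp.2.1.trans hzJ⟩) (by
      intro p _
      exact card_image_le.trans hKc) (IN X Z s) A hA0 (by
      intro T hT c hc
      apply IN_count X Z s hs hZ T (fun p hp => ⟨(mem_PZ.1 (hT hp)).1, (mem_PZ.1 (hT hp)).2.2⟩) c
      intro p hp
      have h5 := hc p hp
      rw [mem_image] at h5
      obtain ⟨k, -, h6⟩ := h5
      rw [← h6]
      exact Nat.mod_lt _ (mem_PZ.1 (hT hp)).1.pos)
  rw [← RN_eq X Z s z K hK5 hcop] at hkey
  refine hkey.trans ?_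
  have hprod0 : 0 ≤ ∏ p ∈ PZ X z, (1 - ((K.image (fun k => k % p)).card : ℝ) / p) := by
    apply prod_nonneg
    intro p hp
    rw [mem_PZ] at hp
    have hp0 : (0 : ℝ) < p := by exact_mod_cast hp.1.pos
    have h5 : (K.image (fun k => k % p)).card ≤ p := by
      calc (K.image (fun k => k % p)).card ≤ (range p).card := by
            apply card_le_card
            intro x hx
            rw [mem_image] at hx
            obtain ⟨k, -, rfl⟩ := hx
            exact mem_range.2 (Nat.mod_lt _ hp.1.pos)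
        _ = p := card_range p
    have h6 : ((K.image (fun k => k % p)).card : ℝ) / p ≤ 1 := by
      rw [div_le_one hp0]
      exact_mod_cast h5
    linarith
  apply add_le_add
  · apply mul_le_mul_of_nonneg_right _ (by positivity)
    calc (1 / 2 : ℝ) ^ b ≤ (1 / 2 : ℝ) ^ b0 :=
          pow_le_pow_of_le_one (by norm_num) (by norm_num) (le_max_right _ _)
      _ ≤ β := hb0.le
  · rw [pow_one] at h4
    calc ((J : ℝ) + 2) * (((2 ^ 2 ^ J : ℕ) : ℝ) ^ (C0 * b)) ^ 2 ≤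
        (4 * Real.log X) * (X : ℝ) ^ (1 / 8 : ℝ) := by
          apply mul_le_mul hJ1 _ (by positivity) (by linarith [hJ1, (Nat.cast_nonneg J : (0 : ℝ) ≤ J)])
          rw [← pow_mul]
          exact hJ2
      _ ≤ (X : ℝ) ^ (1 / 8 : ℝ) * (X : ℝ) ^ (1 / 8 : ℝ) :=
          mul_le_mul_of_nonneg_right h4 (by positivity)
      _ = _ := by
          rw [← Real.rpow_add (by linarith)]
          norm_num

end Pool.Agent.TH882.PC
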