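import Pool.Agent.TH882.GSum

/-! The variance, general intervals. -/

set_option autoImplicit false

open Finset Filter Topology

namespace Pool.Agent.TH882.PG

open Pool.Agent.H361R2.PP
open Pool.Agent.W70.HR
open Pool.Agent.TH882.UB
open Pool.Agent.TH882.PC (cnt_Ico PZ mem_PZ dvd_sub_iff wX wX_pos wX_one Vz_split one_sub_pos Vz_pos Gk
  prod_pair Gk_one)
open Pool.Agent.H373R2.T7 (lamz Vz pz)

/-- the integers `N` of the class `s` -/
noncomputable def IA (X a Z s : ℕ) : Finset ℕ := (Ico a Z).filter (fun N => N % Wm X = s)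

lemma IA_count (X a Z s : ℕ) (hs : s < Wm X) (hZ : a ≤ Z) (T : Finset ℕ)
    (hT : ∀ p ∈ T, p.Prime ∧ HH X < p) (c : ℕ → ℕ) (hc : ∀ p ∈ T, c p < p) :
    |(((IA X a Z s).filter (fun N => ∀ p ∈ T, N % p = c p)).card : ℝ) -
      ((Z : ℝ) - a) / Wm X / ∏ p ∈ T, (p : ℝ)| ≤ 1 := by
  classical
  have hcop := Pool.Agent.H20R2.EQI.cop_W X T hT
  have hWpos : 0 < Wm X := Wm_pos X
  have hDpos : 0 < ∏ p ∈ T, p := Finset.prod_pos (fun p hp => (hT p hp).1.pos)
  obtain ⟨r, -, hr⟩ := crt ∅ T (by simp) (fun p hp => (hT p hp).1) (disjoint_empty_left _) 0 c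
  obtain ⟨v, hv1, hv2⟩ := Nat.chineseRemainder hcop s r
  have hset : (IA X a Z s).filter (fun N => ∀ p ∈ T, N % p = c p) =
      (Ico a Z).filter (fun n => n ≡ v [MOD Wm X * ∏ p ∈ T, p]) := by
    unfold IA
    rw [filter_filter]
    apply filter_congr
    intro n _
    have e1 : (∀ p ∈ T, n % p = c p) ↔ ∀ p ∈ T, n % p = r % p := by
      constructor
      · intro h p hp
        rw [h p hp, hr p hp, Nat.mod_eq_of_lt (hc p hp)]
      · intro h p hp
        rw [h p hp, hr p hp, Nat.mod_eq_of_lt (hc p hp)]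
    rw [e1, Pool.Agent.H20R2.EQI.modD T (fun p hp => (hT p hp).1) n r,
      ← Nat.modEq_and_modEq_iff_modEq_mul hcop]
    have hbb : s % Wm X = s := Nat.mod_eq_of_lt hs
    constructor
    · rintro ⟨h1, h2⟩
      refine ⟨?_, h2.trans hv2.symm⟩
      have : n ≡ s [MOD Wm X] := by unfold Nat.ModEq; rw [h1, hbb]
      exact this.trans hv1.symm
    · rintro ⟨h1, h2⟩
      refine ⟨?_, h2.trans hv2⟩
      have : n ≡ s [MOD Wm X] := h1.trans hv1
      unfold Nat.ModEq at this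
      rw [this, hbb]
  rw [hset]
  have h := cnt_Ico a Z (Wm X * ∏ p ∈ T, p) v hZ (Nat.mul_pos hWpos hDpos)
  rw [div_div]
  push_cast at h ⊢
  exact h

lemma IA_card (X a Z s : ℕ) (hs : s < Wm X) (hZ : a ≤ Z) :
    ((IA X a Z s).card : ℝ) ≤ ((Z : ℝ) - a) / Wm X + 1 := by
  have h := IA_count X a Z s hs hZ ∅ (by simp) (fun _ => 0) (by simp)
  simp only [notMem_empty, false_imp_iff, implies_true, filter_true, prod_empty, div_one] at h
  linarith [(abs_le.1 h).2]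

/-- `N` such that `N - k`, `k ∈ K`, has no prime factor up to `z` -/
noncomputable def RA (X a Z s z : ℕ) (K : Finset ℕ) : Finset ℕ :=
  (IA X a Z s).filter (fun N => ∀ k ∈ K, ∀ p ∈ pz z, ¬ p ∣ N - k)

lemma RA_eq (X a Z s z : ℕ) (K : Finset ℕ) (hK : ∀ k ∈ K, k ≤ a)
    (hcop : ∀ N ∈ IA X a Z s, ∀ k ∈ K, (N - k).Coprime (Wm X)) :
    RA X a Z s z K =
      (IA X a Z s).filter (fun N => ∀ p ∈ PZ X z, N % p ∉ K.image (fun k => k % p)) := by
  classical
  unfold RA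
  apply filter_congr
  intro N hN
  have hN5 : a ≤ N := by
    unfold IA at hN
    rw [mem_filter, mem_Ico] at hN
    exact hN.1.1
  constructor
  · intro h p hp hmem
    rw [mem_image] at hmem
    obtain ⟨k, hk, he⟩ := hmem
    have h1 := h k hk p (by unfold PZ at hp; exact (mem_filter.1 hp).1)
    exact h1 ((dvd_sub_iff ((hK k hk).trans hN5)).2 he.symm)
  · intro h k hk p hp hd
    by_cases hpH : HH X < p
    · have h1 : p ∈ PZ X z := by
        unfold PZ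
        exact mem_filter.2 ⟨hp, hpH⟩
      apply h p h1
      rw [mem_image]
      exact ⟨k, hk, ((dvd_sub_iff ((hK k hk).trans hN5)).1 hd).symm⟩
    · have hpp : p.Prime := by
        unfold pz at hp
        exact (mem_filter.1 hp).2
      have h1 : p ∣ Wm X := by
        unfold Wm
        exact hpp.dvd_primorial_iff.2 (not_lt.1 hpH)
      have h2 := hcop N hN k hk
      have h3 := Nat.dvd_gcd hd h1
      rw [h2] at h3
      exact hpp.one_lt.ne' (Nat.dvd_one.1 h3)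

/-- the sieve for the numbers `N - k` -/
theorem RA_card (κ : ℕ) : ∀ β : ℝ, 0 < β → ∀ E : ℕ, ∃ X₀ : ℕ, ∀ X : ℕ, X₀ ≤ X → ∀ a Z s z : ℕ,
    a ≤ Z → s < Wm X → (z : ℝ) ≤ Real.log X ^ E → ∀ K : Finset ℕ, K.card ≤ κ →
    (∀ k ∈ K, k ≤ a) → (∀ N ∈ IA X a Z s, ∀ k ∈ K, (N - k).Coprime (Wm X)) →
    |((RA X a Z s z K).card : ℝ) - ((Z : ℝ) - a) / Wm X *
        ∏ p ∈ PZ X z, (1 - ((K.image (fun k => k % p)).card : ℝ) / p)| ≤
      β * (((Z : ℝ) - a) / Wm X *
        ∏ p ∈ PZ X z, (1 - ((K.image (fun k => k % p)).card : ℝ) / p)) +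
        (X : ℝ) ^ (1 / 4 : ℝ) := by
  classical
  intro β hβ E
  obtain ⟨C0, hC0, hfl⟩ := Pool.Agent.TH882.FL.fl1 κ
  obtain ⟨b0, hb0⟩ := exists_pow_lt_of_lt_one hβ (show (1 / 2 : ℝ) < 1 by norm_num)
  set b : ℕ := max C0 b0 with hb
  set δ : ℝ := 1 / (16 * (C0 : ℝ) * b) with hδ
  have hC0r : (1 : ℝ) ≤ C0 := by exact_mod_cast hC0
  have hbr : (1 : ℝ) ≤ b := by
    have : 1 ≤ b := hC0.trans (le_max_left _ _)
    exact_mod_cast this
  have hδ0 : 0 < δ := by rw [hδ]; positivity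
  have hδ1 : δ ≤ 1 := by
    rw [hδ, div_le_one (by positivity)]
    nlinarith
  obtain ⟨X1, hJ⟩ := JJ_size δ hδ0 hδ1 (C0 * b * 2) (1 / 8) (by
    rw [hδ]
    push_cast
    apply le_of_eq
    field_simp
    norm_num)
  obtain ⟨X2, hHH⟩ := eventually_atTop.1 (HH_tendsto.eventually_ge_atTop C0)
  obtain ⟨X3, hz⟩ := ev_pow (δ / 2) 1 (by positivity) E
  obtain ⟨X4, he⟩ := ev_pow (1 / 8) 4 (by norm_num) 1
  refine ⟨max (max X1 X2) (max (max X3 X4) 3), ?_⟩
  intro X hX a Z s z hZ hs hzE K hKc hK5 hcop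
  have hX1 : X1 ≤ X := ((le_max_left _ _).trans (le_max_left _ _)).trans hX
  have hX2 : X2 ≤ X := ((le_max_right _ _).trans (le_max_left _ _)).trans hX
  have hX3 : X3 ≤ X := ((le_max_left _ _).trans ((le_max_left _ _).trans (le_max_right _ _))).trans hX
  have hX4 : X4 ≤ X := ((le_max_right _ _).trans ((le_max_left _ _).trans (le_max_right _ _))).trans hX
  have hX5 : 3 ≤ X := ((le_max_right _ _).trans (le_max_right _ _)).trans hX
  have hXr : (3 : ℝ) ≤ X := by exact_mod_cast hX5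
  obtain ⟨hJ1, hJ2, -, hJ4⟩ := hJ X hX1
  have hH := hHH X hX2
  have h3 := hz X hX3
  have h4 := he X hX4
  set J := JJ δ X with hJd
  have hzJ : z ≤ 2 ^ 2 ^ J := by
    have : (z : ℝ) ≤ ((2 ^ 2 ^ J : ℕ) : ℝ) := by
      calc (z : ℝ) ≤ Real.log X ^ E := hzE
        _ = 1 * Real.log X ^ E := (one_mul _).symm
        _ ≤ _ := h3
        _ ≤ _ := hJ4
    exact_mod_cast this
  have hW0 : (0 : ℝ) < Wm X := by exact_mod_cast Wm_pos X
  have hZr : (a : ℝ) ≤ Z := by exact_mod_cast hZ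
  set A : ℝ := ((Z : ℝ) - a) / Wm X with hA
  have hA0 : 0 ≤ A := div_nonneg (by linarith) hW0.le
  have hkey := hfl b J (HH X) (PZ X z) (fun p => K.image (fun k => k % p)) (le_max_left _ _) hH (by
      intro p hp
      rw [mem_PZ] at hp
      exact ⟨hp.1, hp.2.2, hp.2.1.trans hzJ⟩) (by
      intro p _
      exact card_image_le.trans hKc) (IA X a Z s) A hA0 (by
      intro T hT c hc
      apply IA_count X a Z s hs hZ T (fun p hp => ⟨(mem_PZ.1 (hT hp)).1, (mem_PZ.1 (hT hp)).2.2⟩) c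
      intro p hp
      have h5 := hc p hp
      rw [mem_image] at h5
      obtain ⟨k, -, h6⟩ := h5
      rw [← h6]
      exact Nat.mod_lt _ (mem_PZ.1 (hT hp)).1.pos)
  rw [← RA_eq X a Z s z K hK5 hcop] at hkey
  refine hkey.trans ?_
  have hprod0 : 0 ≤ ∏ p ∈ PZ X z, (1 - ((K.image (fun k => k % p)).card : ℝ) / p) := by
    apply prod_nonneg
    intro p hp
    rw [mem_PZ] at hp
    have hp0 : (0 : ℝ) < p := by exact_mod_cast hp.1.pos
    have h5 : (K.image (fun k => k % p)).card ≤ p := by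
      calc (K.image (fun k => k % p)).card ≤ (range p).card := by
            apply card_le_card
            intro x hx
            rw [mem_image] at hx
            obtain ⟨k, -, rfl⟩ := hx
            exact mem_range.2 (Nat.mod_lt _ hp.1.pos)
        _ = p := card_range p
    have h6 : ((K.image (fun k => k % p)).card : ℝ) / p ≤ 1 := by
      rw [div_le_one hp0]
      exact_mod_cast h5
    linarith
  apply add_le_add
  · apply mul_le_mul_of_nonneg_right _ (by positivity)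
    calc (1 / 2 : ℝ) ^ b ≤ (1 / 2 : ℝ) ^ b0 :=
          pow_le_pow_of_le_one (by norm_num) (by norm_num) (le_max_right _ _)
      _ ≤ β := hb0.le
  · rw [pow_one] at h4
    calc ((J : ℝ) + 2) * (((2 ^ 2 ^ J : ℕ) : ℝ) ^ (C0 * b)) ^ 2 ≤
        (4 * Real.log X) * (X : ℝ) ^ (1 / 8 : ℝ) := by
          apply mul_le_mul hJ1 _ (by positivity) (by linarith [hJ1, (Nat.cast_nonneg J : (0 : ℝ) ≤ J)])
          rw [← pow_mul]
          exact hJ2
      _ ≤ (X : ℝ) ^ (1 / 8 : ℝ) * (X : ℝ) ^ (1 / 8 : ℝ) :=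
          mul_le_mul_of_nonneg_right h4 (by positivity)
      _ = _ := by
          rw [← Real.rpow_add (by linarith)]
          norm_num

lemma sum_lamz (X a Z s z : ℕ) (K : Finset ℕ) (k : ℕ) (hK : K = {k}) :
    ∑ N ∈ IA X a Z s, lamz z (N - k) = (Vz z)⁻¹ * ((RA X a Z s z K).card : ℝ) := by
  subst hK
  unfold RA lamz
  rw [← sum_filter, sum_const, nsmul_eq_mul, mul_comm]
  congr 3
  apply filter_congr
  intro N _
  simp

lemma sum_lamz2 (X a Z s z : ℕ) (k k' : ℕ) :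
    ∑ N ∈ IA X a Z s, lamz z (N - k) * lamz z (N - k') =
      (Vz z)⁻¹ ^ 2 * ((RA X a Z s z {k, k'}).card : ℝ) := by
  have h1 : ∀ N ∈ IA X a Z s, lamz z (N - k) * lamz z (N - k') =
      if ∀ j ∈ ({k, k'} : Finset ℕ), ∀ p ∈ pz z, ¬ p ∣ N - j then (Vz z)⁻¹ ^ 2 else 0 := by
    intro N _
    unfold lamz
    simp only [mem_insert, mem_singleton, forall_eq_or_imp, forall_eq]
    by_cases h1 : ∀ p ∈ pz z, ¬ p ∣ N - k
    · by_cases h2 : ∀ p ∈ pz z, ¬ p ∣ N - k'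
      · rw [if_pos h1, if_pos h2, if_pos ⟨h1, h2⟩]
        ring
      · rw [if_neg h2, mul_zero, if_neg (fun h => h2 h.2)]
    · rw [if_neg h1, zero_mul, if_neg (fun h => h1 h.1)]
  rw [sum_congr rfl h1]
  unfold RA
  rw [← sum_filter, sum_const, nsmul_eq_mul, mul_comm]

set_option maxHeartbeats 1000000 in
theorem varA (β : ℝ) (hβ : 0 < β) (hβ1 : β ≤ 1) (E : ℕ) : ∃ X₀ : ℕ, ∀ X : ℕ, X₀ ≤ X →
    ∀ a Z s z : ℕ, a ≤ Z → s < Wm X → HH X ≤ z → (z : ℝ) ≤ Real.log X ^ E →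
    ∀ K : Finset ℕ, (∀ k ∈ K, k ≤ a) →
    (∀ N ∈ IA X a Z s, ∀ k ∈ K, (N - k).Coprime (Wm X)) →
    ∑ N ∈ IA X a Z s, (∑ k ∈ K, (lamz z (N - k) - wX X)) ^ 2 ≤
      ((Z : ℝ) - a) / Wm X * wX X ^ 2 *
        ((1 + β) * ∑ k ∈ K, ∑ k' ∈ K.erase k, (Gk X z k k' - 1) + 3 * β * (K.card : ℝ) ^ 2) +
      4 * Real.log X ^ 2 * (X : ℝ) ^ (1 / 4 : ℝ) * (K.card : ℝ) ^ 2 +
      Real.log X ^ 2 * (((Z : ℝ) - a) / Wm X + 1) * K.card := by
  classical
  obtain ⟨X1, hR⟩ := RA_card 2 β hβ E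
  obtain ⟨X2, hV⟩ := Pool.Agent.H373R2.T7.Vz_inv_small E
  obtain ⟨X3, hHH⟩ := eventually_atTop.1 (HH_tendsto.eventually_ge_atTop 2)
  refine ⟨max (max X1 X2) (max X3 3), ?_⟩
  intro X hX a Z s z hZ hs hHz hz K hK5 hcop
  have hX1 : X1 ≤ X := ((le_max_left _ _).trans (le_max_left _ _)).trans hX
  have hX2 : X2 ≤ X := ((le_max_right _ _).trans (le_max_left _ _)).trans hX
  have hX3 : X3 ≤ X := ((le_max_left _ _).trans (le_max_right _ _)).trans hX
  have hX5 : 3 ≤ X := ((le_max_right _ _).trans (le_max_right _ _)).trans hX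
  have hXr : (3 : ℝ) ≤ X := by exact_mod_cast hX5
  have hl1 : 1 ≤ Real.log X := by
    rw [Real.le_log_iff_exp_le (by linarith)]
    have := Real.exp_one_lt_d9
    linarith
  have hH2 := hHH X hX3
  have hVl : (Vz z)⁻¹ ≤ Real.log X := hV X hX2 z (by omega) hz
  have hVp := Vz_pos z
  have hw0 := wX_pos X
  have hPZ1 : ∏ p ∈ PZ X z, (1 - 1 / (p : ℝ)) ≤ 1 := by
    apply prod_le_one
    · intro p hp
      exact (one_sub_pos (mem_PZ.1 hp).1).le
    · intro p hp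
      have : 0 ≤ 1 / (p : ℝ) := by positivity
      linarith
  have hPZ0 : 0 < ∏ p ∈ PZ X z, (1 - 1 / (p : ℝ)) :=
    prod_pos fun p hp => one_sub_pos (mem_PZ.1 hp).1
  have hVw : wX X ≤ (Vz z)⁻¹ := by
    rw [Vz_split X z hHz, mul_inv, inv_inv]
    have : 1 ≤ (∏ p ∈ PZ X z, (1 - 1 / (p : ℝ)))⁻¹ := (one_le_inv₀ hPZ0).2 hPZ1
    nlinarith
  have hwl : wX X ≤ Real.log X := hVw.trans hVl
  set L := Real.log X with hL
  set w := wX X with hw
  have hW0 : (0 : ℝ) < Wm X := by exact_mod_cast Wm_pos X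
  have hZr : (a : ℝ) ≤ Z := by exact_mod_cast hZ
  set A : ℝ := ((Z : ℝ) - a) / Wm X with hA
  have hA0 : 0 ≤ A := div_nonneg (by linarith) hW0.le
  set Q : ℝ := (X : ℝ) ^ (1 / 4 : ℝ) with hQ
  have hQ1 : 1 ≤ Q := Real.one_le_rpow (by linarith) (by norm_num)
  have hI := IA_card X a Z s hs hZ
  rw [← hA] at hI
  -- first moment
  have hM1 : ∀ k ∈ K, A * w * (1 - β) - L * Q ≤ ∑ N ∈ IA X a Z s, lamz z (N - k) := by
    intro k hk
    rw [sum_lamz X a Z s z {k} k rfl]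
    have h1 := (abs_le.1 (hR X hX1 a Z s z hZ hs hz {k} (by simp) (by simpa using hK5 k hk) (by
      intro N hN j hj
      rw [mem_singleton] at hj
      subst hj
      exact hcop N hN j hk))).1
    have e1 : ∏ p ∈ PZ X z, (1 - ((({k} : Finset ℕ).image (fun k => k % p)).card : ℝ) / p) =
        ∏ p ∈ PZ X z, (1 - 1 / (p : ℝ)) := by
      apply prod_congr rfl
      intro p _
      rw [image_singleton, card_singleton, Nat.cast_one]
    rw [e1, ← hA] at h1
    set Pi := ∏ p ∈ PZ X z, (1 - 1 / (p : ℝ)) with hPi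
    have h2 : A * Pi * (1 - β) - Q ≤ ((RA X a Z s z {k}).card : ℝ) := by linarith
    have h3 : (Vz z)⁻¹ * Pi = w := by
      rw [Vz_split X z hHz, ← hPi, mul_inv, inv_inv, mul_assoc, inv_mul_cancel₀ hPZ0.ne', mul_one]
    calc A * w * (1 - β) - L * Q ≤ A * ((Vz z)⁻¹ * Pi) * (1 - β) - (Vz z)⁻¹ * Q := by
          rw [h3]
          have : (Vz z)⁻¹ * Q ≤ L * Q := mul_le_mul_of_nonneg_right hVl (by linarith)
          linarith
      _ = (Vz z)⁻¹ * (A * Pi * (1 - β) - Q) := by ring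
      _ ≤ _ := mul_le_mul_of_nonneg_left h2 (inv_pos.2 hVp).le
  -- second moment off the diagonal
  have hM2 : ∀ k ∈ K, ∀ k' ∈ K.erase k, ∑ N ∈ IA X a Z s, lamz z (N - k) * lamz z (N - k') ≤
      (1 + β) * A * w ^ 2 * Gk X z k k' + L ^ 2 * Q := by
    intro k hk k' hk'
    have hk'K := mem_of_mem_erase hk'
    rw [sum_lamz2]
    have h1 := (abs_le.1 (hR X hX1 a Z s z hZ hs hz {k, k'} card_le_two (by
      intro j hj
      rw [mem_insert, mem_singleton] at hj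
      rcases hj with rfl | rfl
      · exact hK5 _ hk
      · exact hK5 _ hk'K) (by
      intro N hN j hj
      rw [mem_insert, mem_singleton] at hj
      rcases hj with rfl | rfl
      · exact hcop N hN _ hk
      · exact hcop N hN _ hk'K))).2
    rw [← hA] at h1
    have h2 := prod_pair X z k k' hH2 hHz
    rw [← hw] at h2
    set Pi := ∏ p ∈ PZ X z, (1 - ((({k, k'} : Finset ℕ).image (fun k => k % p)).card : ℝ) / p)
      with hPi
    have h3 : ((RA X a Z s z {k, k'}).card : ℝ) ≤ (1 + β) * A * Pi + Q := by linarith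
    have hVL2 : (Vz z)⁻¹ ^ 2 ≤ L ^ 2 := pow_le_pow_left₀ (inv_pos.2 hVp).le hVl 2
    calc (Vz z)⁻¹ ^ 2 * ((RA X a Z s z {k, k'}).card : ℝ) ≤
        (Vz z)⁻¹ ^ 2 * ((1 + β) * A * Pi + Q) := mul_le_mul_of_nonneg_left h3 (by positivity)
      _ = (1 + β) * A * ((Vz z)⁻¹ ^ 2 * Pi) + (Vz z)⁻¹ ^ 2 * Q := by ring
      _ ≤ (1 + β) * A * (w ^ 2 * Gk X z k k') + L ^ 2 * Q := by
          apply add_le_add
          · exact mul_le_mul_of_nonneg_left h2 (by positivity)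
          · exact mul_le_mul_of_nonneg_right hVL2 (by linarith)
      _ = _ := by ring
  -- the diagonal
  have hM3 : ∀ k ∈ K, ∑ N ∈ IA X a Z s, lamz z (N - k) * lamz z (N - k) ≤ L ^ 2 * (A + 1) := by
    intro k _
    rw [sum_lamz2]
    have h1 : ((RA X a Z s z {k, k}).card : ℝ) ≤ A + 1 := by
      refine le_trans ?_ hI
      exact Nat.cast_le.2 (card_filter_le _ _)
    have hVL2 : (Vz z)⁻¹ ^ 2 ≤ L ^ 2 := pow_le_pow_left₀ (inv_pos.2 hVp).le hVl 2
    exact mul_le_mul hVL2 h1 (by positivity) (by positivity)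
  -- expansion
  have hexp : ∑ N ∈ IA X a Z s, (∑ k ∈ K, (lamz z (N - k) - w)) ^ 2 =
      ∑ k ∈ K, ∑ k' ∈ K, (∑ N ∈ IA X a Z s, lamz z (N - k) * lamz z (N - k') -
        w * ∑ N ∈ IA X a Z s, lamz z (N - k) - w * ∑ N ∈ IA X a Z s, lamz z (N - k') +
        w ^ 2 * ((IA X a Z s).card : ℝ)) := by
    have h1 : ∀ N ∈ IA X a Z s, (∑ k ∈ K, (lamz z (N - k) - w)) ^ 2 =
        ∑ k ∈ K, ∑ k' ∈ K, (lamz z (N - k) * lamz z (N - k') - w * lamz z (N - k) -
          w * lamz z (N - k') + w ^ 2) := by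
      intro N _
      rw [sq, sum_mul_sum]
      apply sum_congr rfl
      intro k _
      apply sum_congr rfl
      intro k' _
      ring
    rw [sum_congr rfl h1, sum_comm]
    apply sum_congr rfl
    intro k _
    rw [sum_comm]
    apply sum_congr rfl
    intro k' _
    rw [sum_add_distrib, sum_sub_distrib, sum_sub_distrib, ← mul_sum, ← mul_sum, sum_const,
      nsmul_eq_mul]
    ring
  rw [hexp]
  have hw2 : w ^ 2 ≤ L ^ 2 := pow_le_pow_left₀ hw0.le hwl 2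
  have hwL : w * L ≤ L ^ 2 := by nlinarith
  have hcommon : ∀ k ∈ K, ∀ k' ∈ K, - w * ∑ N ∈ IA X a Z s, lamz z (N - k) -
      w * ∑ N ∈ IA X a Z s, lamz z (N - k') + w ^ 2 * ((IA X a Z s).card : ℝ) ≤
      A * w ^ 2 * (2 * β - 1) + 3 * L ^ 2 * Q := by
    intro k hk k' hk'
    have h1 := mul_le_mul_of_nonneg_left (hM1 k hk) hw0.le
    have h2 := mul_le_mul_of_nonneg_left (hM1 k' hk') hw0.le
    have h3 : w ^ 2 * ((IA X a Z s).card : ℝ) ≤ w ^ 2 * (A + 1) :=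
      mul_le_mul_of_nonneg_left hI (by positivity)
    have h4 : w * (L * Q) ≤ L ^ 2 * Q := by
      rw [← mul_assoc]
      exact mul_le_mul_of_nonneg_right hwL (by linarith)
    have h5 : w ^ 2 ≤ L ^ 2 * Q := by
      have : L ^ 2 * 1 ≤ L ^ 2 * Q := mul_le_mul_of_nonneg_left hQ1 (by positivity)
      linarith
    have e1 : w * (A * w * (1 - β) - L * Q) = A * w ^ 2 * (1 - β) - w * (L * Q) := by ring
    rw [e1] at h1 h2
    nlinarith
  have hterm : ∀ k ∈ K, ∑ k' ∈ K, (∑ N ∈ IA X a Z s, lamz z (N - k) * lamz z (N - k') -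
        w * ∑ N ∈ IA X a Z s, lamz z (N - k) - w * ∑ N ∈ IA X a Z s, lamz z (N - k') +
        w ^ 2 * ((IA X a Z s).card : ℝ)) ≤
      ∑ k' ∈ K.erase k, (A * w ^ 2 * (1 + β) * (Gk X z k k' - 1)) +
      (K.card : ℝ) * (3 * β * (A * w ^ 2) + 4 * L ^ 2 * Q) + L ^ 2 * (A + 1) := by
    intro k hk
    rw [← add_sum_erase K _ hk]
    have hd : ∑ N ∈ IA X a Z s, lamz z (N - k) * lamz z (N - k) -
        w * ∑ N ∈ IA X a Z s, lamz z (N - k) - w * ∑ N ∈ IA X a Z s, lamz z (N - k) +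
        w ^ 2 * ((IA X a Z s).card : ℝ) ≤ L ^ 2 * (A + 1) + (3 * β * (A * w ^ 2) + 4 * L ^ 2 * Q) := by
      have h1 := hM3 k hk
      have h2 := hcommon k hk k hk
      have h3 : 0 ≤ A * w ^ 2 := by positivity
      have h4 : 0 ≤ L ^ 2 * Q := by positivity
      nlinarith
    have ho : ∑ k' ∈ K.erase k, (∑ N ∈ IA X a Z s, lamz z (N - k) * lamz z (N - k') -
        w * ∑ N ∈ IA X a Z s, lamz z (N - k) - w * ∑ N ∈ IA X a Z s, lamz z (N - k') +
        w ^ 2 * ((IA X a Z s).card : ℝ)) ≤ ∑ k' ∈ K.erase k,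
        (A * w ^ 2 * (1 + β) * (Gk X z k k' - 1) + (3 * β * (A * w ^ 2) + 4 * L ^ 2 * Q)) := by
      apply sum_le_sum
      intro k' hk'
      have h1 := hM2 k hk k' hk'
      have h2 := hcommon k hk k' (mem_of_mem_erase hk')
      have h4 : 0 ≤ L ^ 2 * Q := by positivity
      nlinarith
    have hR' : ∑ k' ∈ K.erase k,
        (A * w ^ 2 * (1 + β) * (Gk X z k k' - 1) + (3 * β * (A * w ^ 2) + 4 * L ^ 2 * Q)) =
        ∑ k' ∈ K.erase k, (A * w ^ 2 * (1 + β) * (Gk X z k k' - 1)) +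
          ((K.erase k).card : ℝ) * (3 * β * (A * w ^ 2) + 4 * L ^ 2 * Q) := by
      rw [sum_add_distrib, sum_const, nsmul_eq_mul]
    rw [hR'] at ho
    have hc : ((K.erase k).card : ℝ) + 1 = K.card := by
      rw [card_erase_of_mem hk]
      have : 1 ≤ K.card := card_pos.2 ⟨k, hk⟩
      push_cast [this]
      ring
    have hcc : (K.card : ℝ) * (3 * β * (A * w ^ 2) + 4 * L ^ 2 * Q) =
        ((K.erase k).card : ℝ) * (3 * β * (A * w ^ 2) + 4 * L ^ 2 * Q) +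
          (3 * β * (A * w ^ 2) + 4 * L ^ 2 * Q) := by
      rw [← hc]; ring
    rw [hcc]
    linarith
  refine (sum_le_sum hterm).trans ?_
  rw [sum_add_distrib, sum_add_distrib, sum_const, sum_const, nsmul_eq_mul, nsmul_eq_mul]
  simp only [← mul_sum]
  apply le_of_eq
  ring

end Pool.Agent.TH882.PG
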