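import Pool.Agent.TH882.GP

/-! The average of products of correlation factors. -/

set_option autoImplicit false

open Finset Filter Topology Polynomial

namespace Pool.Agent.TH882.RF

open Pool.Agent.H361R2.PP
open Pool.Agent.W70.HR
open Pool.Agent.TH882.UB
open Pool.Agent.TH882.PC (cnt_Ico PZ mem_PZ dvd_sub_iff wX wX_pos wX_one Vz_split one_sub_pos Vz_pos Gk
  prod_pair Gk_one prod_inv_one inv_le_exp tail_sum)
open Pool.Agent.H373R2.T7 (lamz Vz pz cf abs_eval_le)
open Pool.Agent.TH882.PG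

lemma one_add_pow_le' (t : ℝ) (h0 : 0 ≤ t) (h1 : t ≤ 1) (r : ℕ) :
    (1 + t) ^ r ≤ 1 + (2 ^ r - 1) * t := by
  induction r with
  | zero => simp
  | succ r ih =>
    have h2 : (1 : ℝ) ≤ 2 ^ r := one_le_pow₀ (by norm_num)
    calc (1 + t) ^ (r + 1) = (1 + t) ^ r * (1 + t) := pow_succ _ _
      _ ≤ (1 + (2 ^ r - 1) * t) * (1 + t) := mul_le_mul_of_nonneg_right ih (by linarith)
      _ = 1 + 2 ^ r * t + (2 ^ r - 1) * (t * t) := by ring
      _ ≤ 1 + 2 ^ r * t + (2 ^ r - 1) * t := by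
          have h3 : (2 ^ r - 1) * (t * t) ≤ (2 ^ r - 1) * t := by
            apply mul_le_mul_of_nonneg_left _ (by linarith)
            nlinarith
          linarith
      _ = 1 + (2 ^ (r + 1) - 1) * t := by ring

/-- the average over the small primes -/
lemma gen_sum (d M : ℕ) (L A0 : ℕ) (δ : ℝ) (hδ : 0 < δ) (hδ1 : δ ≤ 1) : ∃ C : ℝ, 0 < C ∧ ∃ X₀ : ℕ,
    ∀ X : ℕ, X₀ ≤ X → ∀ b : ℕ, b < Wm X → ∀ U : Finset ℕ, U.card = L → (∀ u ∈ U, u ≤ A0) →
    ∀ A ⊆ (SI X b).filter (fun n => ∀ u ∈ U, rg (P1 (HH X) (JJ δ X)) u n = 1),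
    ∀ S : Finset ℕ, (∀ p ∈ S, p.Prime ∧ HH X < p ∧ (p : ℝ) ≤ Real.log X / 20) →
    ∀ T : ℕ → ℕ → Prop, ∀ _ : ∀ p n, Decidable (T p n),
    (∀ p ∈ S, ∃ R : Finset ℕ, R ⊆ range p ∧ R.card ≤ d ∧ ∀ n, T p n → n % p ∈ R) →
    ∑ n' ∈ A, (∏ p ∈ S.filter (fun p => T p n'), (1 + (M : ℝ) / ((p : ℝ) - 1)) - 1) ≤
      C * Om δ X L * (Real.exp (2 * (d * M) / HH X) - 1) := by
  classical
  obtain ⟨C, hC, X1, hub⟩ := ub L A0 δ hδ hδ1
  obtain ⟨X2, hHH⟩ := eventually_atTop.1 (HH_tendsto.eventually_ge_atTop 1)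
  obtain ⟨X3, hOm⟩ := Om_lower δ hδ hδ1 L
  refine ⟨C, hC, max (max X1 X2) X3, ?_⟩
  intro X hX b hb U hU hUA A hA S hSp T hdec hT
  have hX1 : X1 ≤ X := ((le_max_left _ _).trans (le_max_left _ _)).trans hX
  have hX2 : X2 ≤ X := ((le_max_right _ _).trans (le_max_left _ _)).trans hX
  have hX3 : X3 ≤ X := (le_max_right _ _).trans hX
  have hH1 := hHH X hX2
  have hOm0 : 0 ≤ Om δ X L := by
    have := (hOm X hX3).1
    unfold Om
    positivity
  choose! R hR1 hR2 hR3 using hT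
  have hexp : ∀ n', ∏ p ∈ S.filter (fun p => T p n'), (1 + (M : ℝ) / ((p : ℝ) - 1)) =
      ∑ D ∈ S.powerset, (∏ p ∈ D, (M : ℝ) / ((p : ℝ) - 1)) *
      (if ∀ p ∈ D, T p n' then 1 else 0) := by
    intro n'
    rw [prod_one_add]
    have h2 : (S.filter (fun p => T p n')).powerset =
        S.powerset.filter (fun D : Finset ℕ => ∀ p ∈ D, T p n') := by
      ext D
      rw [mem_powerset, mem_filter, mem_powerset]
      constructor
      · intro h
        exact ⟨h.trans (filter_subset _ _), fun p hp => (mem_filter.1 (h hp)).2⟩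
      · rintro ⟨h3, h4⟩ p hp
        exact mem_filter.2 ⟨h3 hp, h4 p hp⟩
    rw [h2, sum_filter]
    apply sum_congr rfl
    intro D _
    split_ifs <;> simp
  have hsum : ∑ n' ∈ A, ∏ p ∈ S.filter (fun p => T p n'), (1 + (M : ℝ) / ((p : ℝ) - 1)) =
      ∑ D ∈ S.powerset, (∏ p ∈ D, (M : ℝ) / ((p : ℝ) - 1)) *
      ((A.filter (fun n' : ℕ => ∀ p ∈ D, T p n')).card : ℝ) := by
    rw [sum_congr rfl fun n' _ => hexp n', sum_comm]
    apply sum_congr rfl
    intro D _
    rw [← mul_sum, sum_boole]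
  have hcnt : ∀ D ∈ S.powerset,
      ((A.filter (fun n' : ℕ => ∀ p ∈ D, T p n')).card : ℝ) ≤
      (d : ℝ) ^ D.card * (C * (Om δ X L * ∏ p ∈ D, (2 / (p : ℝ)))) := by
    intro D hD
    rw [mem_powerset] at hD
    have hcov : A.filter (fun n' : ℕ => ∀ p ∈ D, T p n') ⊆
        (D.pi (fun p => R p)).biUnion
          (fun c => A.filter (fun n' => ∀ p, ∀ hp : p ∈ D, n' % p = c p hp)) := by
      intro n' hn'
      rw [mem_filter] at hn'
      rw [mem_biUnion]
      refine ⟨fun p _ => n' % p, ?_, ?_⟩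
      · rw [Finset.mem_pi]
        intro p hp
        exact hR3 p (hD hp) n' (hn'.2 p hp)
      · rw [mem_filter]
        exact ⟨hn'.1, fun p hp => rfl⟩
    have h1 : ((A.filter (fun n' : ℕ => ∀ p ∈ D, T p n')).card : ℝ) ≤
        ∑ c ∈ D.pi (fun p => R p),
          ((A.filter (fun n' => ∀ p, ∀ hp : p ∈ D, n' % p = c p hp)).card : ℝ) := by
      exact_mod_cast (card_le_card hcov).trans card_biUnion_le
    refine h1.trans ?_
    have h2 : ∀ c ∈ D.pi (fun p => R p),
        ((A.filter (fun n' => ∀ p, ∀ hp : p ∈ D, n' % p = c p hp)).card : ℝ) ≤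
        C * (Om δ X L * ∏ p ∈ D, (2 / (p : ℝ))) := by
      intro c hc
      rw [Finset.mem_pi] at hc
      obtain ⟨r, -, hr⟩ := crt ∅ D (by simp) (fun p hp => (hSp p (hD hp)).1)
        (disjoint_empty_left _) 0 (fun p => if hp : p ∈ D then c p hp else 0)
      refine le_trans ?_ (hub X hX1 b hb U hU hUA D (fun p hp => hSp p (hD hp)) r)
      apply Nat.cast_le.2
      apply card_le_card
      intro n' hn'
      rw [mem_filter] at hn' ⊢
      have h3 := mem_filter.1 (hA hn'.1)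
      refine ⟨h3.1, h3.2, fun p hp => ?_⟩
      have h4 := hr p hp
      rw [dif_pos hp] at h4
      have h5 := mem_range.1 (hR1 p (hD hp) (hc p hp))
      rw [Nat.mod_eq_of_lt h5] at h4
      rw [h4, hn'.2 p hp]
    have h0 : 0 ≤ C * (Om δ X L * ∏ p ∈ D, (2 / (p : ℝ))) := by
      have : 0 ≤ ∏ p ∈ D, (2 / (p : ℝ)) := prod_nonneg fun p _ => by positivity
      positivity
    calc ∑ c ∈ D.pi (fun p => R p),
          ((A.filter (fun n' => ∀ p, ∀ hp : p ∈ D, n' % p = c p hp)).card : ℝ) ≤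
        ∑ _c ∈ D.pi (fun p => R p), C * (Om δ X L * ∏ p ∈ D, (2 / (p : ℝ))) := sum_le_sum h2
      _ = ((D.pi (fun p => R p)).card : ℝ) * (C * (Om δ X L * ∏ p ∈ D, (2 / (p : ℝ)))) := by
          rw [sum_const, nsmul_eq_mul]
      _ ≤ _ := by
          apply mul_le_mul_of_nonneg_right _ h0
          rw [Finset.card_pi]
          have h4 : ∏ p ∈ D, (R p).card ≤ ∏ _p ∈ D, d :=
            Finset.prod_le_prod' fun p hp => hR2 p (hD hp)
          rw [prod_const] at h4
          exact_mod_cast h4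
  have hpos : ∀ D ∈ S.powerset, 0 ≤ ∏ p ∈ D, (M : ℝ) / ((p : ℝ) - 1) := by
    intro D hD
    apply prod_nonneg
    intro p hp
    have h2 : (2 : ℝ) ≤ p := by exact_mod_cast (hSp p (mem_powerset.1 hD hp)).1.two_le
    apply div_nonneg (by positivity)
    linarith
  have hmain : ∑ n' ∈ A, ∏ p ∈ S.filter (fun p => T p n'), (1 + (M : ℝ) / ((p : ℝ) - 1)) ≤
      (A.card : ℝ) +
      C * Om δ X L * (∏ p ∈ S, (1 + 2 * (d * M) / ((p : ℝ) * (p - 1))) - 1) := by
    rw [hsum, ← add_sum_erase _ _ (empty_mem_powerset S)]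
    apply add_le_add
    · simp
    · have h1 : ∑ D ∈ S.powerset.erase ∅, (∏ p ∈ D, (M : ℝ) / ((p : ℝ) - 1)) *
          ((A.filter (fun n' : ℕ => ∀ p ∈ D, T p n')).card : ℝ) ≤
          ∑ D ∈ S.powerset.erase ∅, C * Om δ X L *
            ∏ p ∈ D, (2 * (d * M) / ((p : ℝ) * (p - 1))) := by
        apply sum_le_sum
        intro D hD
        have hD' := mem_of_mem_erase hD
        calc (∏ p ∈ D, (M : ℝ) / ((p : ℝ) - 1)) *
              ((A.filter (fun n' : ℕ => ∀ p ∈ D, T p n')).card : ℝ) ≤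
            (∏ p ∈ D, (M : ℝ) / ((p : ℝ) - 1)) *
              ((d : ℝ) ^ D.card * (C * (Om δ X L * ∏ p ∈ D, (2 / (p : ℝ))))) :=
              mul_le_mul_of_nonneg_left (hcnt D hD') (hpos D hD')
          _ = C * Om δ X L * ((∏ p ∈ D, (M : ℝ) / ((p : ℝ) - 1)) * ((d : ℝ) ^ D.card *
                ∏ p ∈ D, (2 / (p : ℝ)))) := by ring
          _ = _ := by
              congr 1
              rw [← prod_const, ← prod_mul_distrib, ← prod_mul_distrib]
              apply prod_congr rfl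
              intro p _
              rw [mul_comm ((p : ℝ)), ← div_mul_div_comm]
              ring
      refine h1.trans (le_of_eq ?_)
      rw [← mul_sum]
      congr 1
      have h2 := add_sum_erase S.powerset
        (fun D => ∏ p ∈ D, (2 * ((d : ℝ) * M) / ((p : ℝ) * (p - 1)))) (empty_mem_powerset S)
      rw [prod_one_add, ← h2]
      simp
  have hprod : ∏ p ∈ S, (1 + 2 * ((d : ℝ) * M) / ((p : ℝ) * (p - 1))) ≤
      Real.exp (2 * (d * M) / HH X) := by
    calc ∏ p ∈ S, (1 + 2 * ((d : ℝ) * M) / ((p : ℝ) * (p - 1))) ≤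
        ∏ p ∈ S, Real.exp (2 * (d * M) / ((p : ℝ) * (p - 1))) := by
          apply Finset.prod_le_prod
          · intro p hp
            have h2 : (2 : ℝ) ≤ p := by exact_mod_cast (hSp p hp).1.two_le
            have : 0 ≤ 2 * ((d : ℝ) * M) / ((p : ℝ) * (p - 1)) := by
              apply div_nonneg (by positivity)
              apply mul_nonneg <;> linarith
            linarith
          · intro p _
            have := Real.add_one_le_exp (2 * ((d : ℝ) * M) / ((p : ℝ) * (p - 1)))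
            linarith
      _ = Real.exp (∑ p ∈ S, 2 * (d * M) / ((p : ℝ) * (p - 1))) := (Real.exp_sum _ _).symm
      _ ≤ Real.exp (2 * (d * M) / HH X) := by
          apply Real.exp_le_exp.2
          have h1 := tail_sum (HH X) (by omega) S (fun p hp => (hSp p hp).2.1)
          calc ∑ p ∈ S, 2 * ((d : ℝ) * M) / ((p : ℝ) * (p - 1)) =
                2 * (d * M) * ∑ p ∈ S, 1 / ((p : ℝ) * (p - 1)) := by
                rw [mul_sum]
                apply sum_congr rfl
                intro p _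
                ring
            _ ≤ 2 * (d * M) * (1 / HH X) := mul_le_mul_of_nonneg_left h1 (by positivity)
            _ = _ := by ring
  rw [sum_sub_distrib, sum_const, nsmul_eq_mul, mul_one]
  have h1 : C * Om δ X L * (∏ p ∈ S, (1 + 2 * ((d : ℝ) * M) / ((p : ℝ) * (p - 1))) - 1) ≤
      C * Om δ X L * (Real.exp (2 * (d * M) / HH X) - 1) := by
    apply mul_le_mul_of_nonneg_left _ (by positivity)
    linarith
  linarith

/-- the joint factor of the small primes -/
noncomputable def GJ (r : ℕ) (X z : ℕ) (g : Fin r → ℤ[X]) (n n' : ℕ) : ℝ :=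
  ∏ p ∈ ((PZ X z).filter (fun p : ℕ => (p : ℝ) ≤ Real.log X / 20)).filter
    (fun p : ℕ => ∃ j, (p : ℤ) ∣ (g j).eval (n : ℤ) - (g j).eval (n' : ℤ)),
    (1 + ((2 ^ r : ℕ) : ℝ) / ((p : ℝ) - 1))

lemma GJ_one (r : ℕ) (X z : ℕ) (g : Fin r → ℤ[X]) (n n' : ℕ) : 1 ≤ GJ r X z g n n' := by
  unfold GJ
  calc (1 : ℝ) = ∏ _p ∈ ((PZ X z).filter (fun p : ℕ => (p : ℝ) ≤ Real.log X / 20)).filter
        (fun p : ℕ => ∃ j, (p : ℤ) ∣ (g j).eval (n : ℤ) - (g j).eval (n' : ℤ)), (1 : ℝ) := by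
        rw [prod_const_one]
    _ ≤ _ := by
        apply Finset.prod_le_prod (fun _ _ => zero_le_one)
        intro p hp
        have hpp := (mem_PZ.1 (mem_filter.1 (mem_filter.1 hp).1).1).1
        have h2 : (2 : ℝ) ≤ p := by exact_mod_cast hpp.two_le
        have : 0 ≤ ((2 ^ r : ℕ) : ℝ) / ((p : ℝ) - 1) := div_nonneg (by positivity) (by linarith)
        linarith

lemma prod_Gsp_le (r : ℕ) (X z : ℕ) (g : Fin r → ℤ[X]) (n n' : ℕ) :
    ∏ j, Gsp X z (g j) n n' ≤ GJ r X z g n n' := by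
  classical
  unfold Gsp GJ
  rw [prod_filter (s := (PZ X z).filter (fun p : ℕ => (p : ℝ) ≤ Real.log X / 20))
    (p := fun p : ℕ => ∃ j, (p : ℤ) ∣ (g j).eval (n : ℤ) - (g j).eval (n' : ℤ))]
  rw [prod_congr rfl fun j _ => prod_filter
    (s := (PZ X z).filter (fun p : ℕ => (p : ℝ) ≤ Real.log X / 20))
    (p := fun p : ℕ => (p : ℤ) ∣ (g j).eval (n : ℤ) - (g j).eval (n' : ℤ)) _]
  rw [Finset.prod_comm]
  apply Finset.prod_le_prod
  · intro p hp
    apply prod_nonneg
    intro j _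
    split_ifs
    · have hpp := (mem_PZ.1 (mem_filter.1 hp).1).1
      exact (inv_pos.2 (one_sub_pos hpp)).le
    · exact zero_le_one
  · intro p hp
    have hpp := (mem_PZ.1 (mem_filter.1 hp).1).1
    have h2 : (2 : ℝ) ≤ p := by exact_mod_cast hpp.two_le
    have h3 : (p : ℝ) ≠ 0 := by linarith
    have h4' : (0 : ℝ) < (p : ℝ) - 1 := by linarith
    have h4 : (p : ℝ) - 1 ≠ 0 := h4'.ne'
    have h5 : (1 - 1 / (p : ℝ))⁻¹ = 1 + 1 / ((p : ℝ) - 1) := by
      have h5 : 1 - 1 / (p : ℝ) = ((p : ℝ) - 1) / p := by field_simp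
      have h6 : 1 + 1 / ((p : ℝ) - 1) = p / ((p : ℝ) - 1) := by
        field_simp
        ring
      rw [h5, h6, inv_div]
    by_cases h : ∃ j, (p : ℤ) ∣ (g j).eval (n : ℤ) - (g j).eval (n' : ℤ)
    · rw [if_pos h]
      have ht0 : (0 : ℝ) ≤ 1 / ((p : ℝ) - 1) := by positivity
      have ht1 : 1 / ((p : ℝ) - 1) ≤ 1 := by
        rw [div_le_one h4']
        linarith
      calc ∏ j, (if (p : ℤ) ∣ (g j).eval (n : ℤ) - (g j).eval (n' : ℤ) then (1 - 1 / (p : ℝ))⁻¹
            else 1) ≤ ∏ _j : Fin r, (1 + 1 / ((p : ℝ) - 1)) := by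
            apply Finset.prod_le_prod
            · intro j _
              split_ifs
              · rw [h5]; linarith
              · exact zero_le_one
            · intro j _
              split_ifs
              · exact h5.le
              · linarith
        _ = (1 + 1 / ((p : ℝ) - 1)) ^ r := by simp
        _ ≤ 1 + (2 ^ r - 1) * (1 / ((p : ℝ) - 1)) := one_add_pow_le' _ ht0 ht1 r
        _ ≤ 1 + ((2 ^ r : ℕ) : ℝ) / ((p : ℝ) - 1) := by
            push_cast
            have : (2 ^ r : ℝ) / ((p : ℝ) - 1) = 2 ^ r * (1 / ((p : ℝ) - 1)) := by ring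
            rw [this]
            linarith
    · rw [if_neg h]
      push Not at h
      apply le_of_eq
      apply prod_eq_one
      intro j _
      rw [if_neg (h j)]

theorem gsumR (r : ℕ) (g : Fin r → ℤ[X]) (hd : ∀ j, 1 ≤ (g j).natDegree)
    (hl : ∀ j, 0 < (g j).leadingCoeff) (L A0 : ℕ) (δ c η : ℝ)
    (hδ : 0 < δ) (hδ1 : δ ≤ 1) (hc : 0 < c) (hη : 0 < η) :
    ∃ X₀ : ℕ, ∀ X : ℕ, X₀ ≤ X → ∀ b : ℕ, b < Wm X → ∀ U : Finset ℕ, U.card = L →
    (∀ u ∈ U, u ≤ A0) → ∀ z : ℕ,
    ∀ A ⊆ (SI X b).filter (fun n => ∀ u ∈ U, rg (P1 (HH X) (JJ δ X)) u n = 1),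
    c * Om δ X L ≤ (A.card : ℝ) → ∀ k : Fin r → ℕ → ℕ,
    (∀ j, ∀ n ∈ A, ∀ n' ∈ A,
      |(k j n : ℤ) - k j n'| = |(g j).eval (n : ℤ) - (g j).eval (n' : ℤ)|) →
    ∑ n ∈ A, ∑ n' ∈ A.erase n, (∏ j, Gk X z (k j n) (k j n') - 1) ≤ η * (A.card : ℝ) ^ 2 := by
  classical
  set d : ℕ := ∑ j, (g j).natDegree with hdd
  obtain ⟨C, hC, X1, hs⟩ := gen_sum d (2 ^ r) L A0 δ hδ hδ1
  set η1 : ℝ := min (η / 2) 1 with hη1
  have hη10 : 0 < η1 := by rw [hη1]; positivity
  set η2 : ℝ := η1 / 2 ^ r with hη2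
  have h2r : (1 : ℝ) ≤ 2 ^ r := one_le_pow₀ (by norm_num)
  have hη20 : 0 < η2 := by rw [hη2]; positivity
  have hη11 : η1 ≤ 1 := min_le_right _ _
  have hη21 : η2 ≤ 1 := by
    rw [hη2, div_le_one (by positivity)]
    linarith
  have hpow : (1 + η2) ^ r ≤ 1 + η1 := by
    refine (one_add_pow_le' η2 hη20.le hη21 r).trans ?_
    have : (2 ^ r - 1) * η2 ≤ η1 := by
      calc (2 ^ r - 1) * η2 ≤ 2 ^ r * η2 := mul_le_mul_of_nonneg_right (by linarith) hη20.le
        _ = η1 := by rw [hη2]; field_simp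
    linarith
  choose X2 hb' using fun j => Gbp_le (g j) (hd j) (hl j) η2 hη20
  have ht : Tendsto (fun X : ℕ => C / c * (Real.exp (2 * (d * (2 ^ r : ℕ)) / (HH X : ℝ)) - 1))
      atTop (𝓝 0) := by
    have h1 : Tendsto (fun X : ℕ => 2 * ((d : ℝ) * (2 ^ r : ℕ)) / (HH X : ℝ)) atTop (𝓝 0) :=
      (tendsto_natCast_atTop_atTop.comp HH_tendsto).const_div_atTop (2 * ((d : ℝ) * (2 ^ r : ℕ)))
    have h2 : Tendsto (fun X : ℕ => Real.exp (2 * (d * (2 ^ r : ℕ)) / (HH X : ℝ))) atTop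
        (𝓝 (Real.exp 0)) :=
      (Real.continuous_exp.tendsto 0).comp h1
    have h3 := (h2.sub_const 1).const_mul (C / c)
    simpa using h3
  obtain ⟨X3, h3⟩ := eventually_atTop.1 (ht.eventually (gt_mem_nhds (show (0 : ℝ) < η / 4 by positivity)))
  obtain ⟨X4, hHH⟩ := eventually_atTop.1 (HH_tendsto.eventually_ge_atTop
    ((univ.sup fun j => (g j).leadingCoeff.natAbs) + 1))
  refine ⟨max (max X1 (univ.sup X2)) (max X3 X4), ?_⟩
  intro X hX b hb U hU hUA z A hA hcA k hk
  have hX1 : X1 ≤ X := ((le_max_left _ _).trans (le_max_left _ _)).trans hX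
  have hX2 : univ.sup X2 ≤ X := ((le_max_right _ _).trans (le_max_left _ _)).trans hX
  have hX3 : X3 ≤ X := ((le_max_left _ _).trans (le_max_right _ _)).trans hX
  have hX4 : X4 ≤ X := ((le_max_right _ _).trans (le_max_right _ _)).trans hX
  have hsmall := h3 X hX3
  have hH := hHH X hX4
  have hAX : ∀ n ∈ A, X ≤ n ∧ n < 2 * X := by
    intro n hn
    have h1 := (mem_filter.1 (hA hn)).1
    rw [mem_SI] at h1
    exact ⟨h1.1, h1.2.1⟩
  have hA0 : (0 : ℝ) ≤ A.card := by positivity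
  have hexp1 : 0 ≤ Real.exp (2 * (d * (2 ^ r : ℕ)) / (HH X : ℝ)) - 1 := by
    have := Real.add_one_le_exp (2 * ((d : ℝ) * (2 ^ r : ℕ)) / (HH X : ℝ))
    have h2 : 0 ≤ 2 * ((d : ℝ) * (2 ^ r : ℕ)) / (HH X : ℝ) := by positivity
    linarith
  set S : Finset ℕ := (PZ X z).filter (fun p : ℕ => (p : ℝ) ≤ Real.log X / 20) with hS
  have hSp : ∀ p ∈ S, p.Prime ∧ HH X < p ∧ (p : ℝ) ≤ Real.log X / 20 := by
    intro p hp
    rw [hS, mem_filter, mem_PZ] at hp
    exact ⟨hp.1.1, hp.1.2.2, hp.2⟩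
  have hinner : ∀ n ∈ A, ∑ n' ∈ A.erase n, (∏ j, Gk X z (k j n) (k j n') - 1) ≤ η * A.card := by
    intro n hn
    have h4 : ∀ n' ∈ A.erase n, ∏ j, Gk X z (k j n) (k j n') - 1 ≤
        (1 + η1) * (GJ r X z g n n' - 1) + η1 := by
      intro n' hn'
      have hne : n ≠ n' := (ne_of_mem_erase hn').symm
      have h5 := hAX n hn
      have h6 := hAX n' (mem_of_mem_erase hn')
      have h7 : ∏ j, Gk X z (k j n) (k j n') =
          (∏ j, Gsp X z (g j) n n') * ∏ j, Gbp X z (g j) n n' := by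
        rw [← prod_mul_distrib]
        apply prod_congr rfl
        intro j _
        exact Gk_poly X z (g j) n n' (k j n) (k j n') (hk j n hn n' (mem_of_mem_erase hn'))
      have h8 : ∏ j, Gbp X z (g j) n n' ≤ 1 + η1 := by
        refine le_trans ?_ hpow
        calc ∏ j, Gbp X z (g j) n n' ≤ ∏ _j : Fin r, (1 + η2) := by
              apply Finset.prod_le_prod
              · intro j _
                unfold Gbp
                apply prod_nonneg
                intro p hp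
                have hpp := (mem_PZ.1 (mem_filter.1 (mem_filter.1 hp).1).1).1
                exact (inv_pos.2 (one_sub_pos hpp)).le
              · intro j _
                exact hb' j X ((Finset.le_sup (f := X2) (mem_univ j)).trans hX2) z n n'
                  h5.1 h5.2 h6.1 h6.2 hne
          _ = _ := by simp
      have h9 := prod_Gsp_le r X z g n n'
      have h10 := GJ_one r X z g n n'
      have h11 : 0 ≤ ∏ j, Gbp X z (g j) n n' := by
        apply prod_nonneg
        intro j _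
        unfold Gbp
        apply prod_nonneg
        intro p hp
        have hpp := (mem_PZ.1 (mem_filter.1 (mem_filter.1 hp).1).1).1
        exact (inv_pos.2 (one_sub_pos hpp)).le
      rw [h7]
      calc (∏ j, Gsp X z (g j) n n') * ∏ j, Gbp X z (g j) n n' - 1 ≤
          GJ r X z g n n' * (1 + η1) - 1 := by
            have := mul_le_mul h9 h8 h11 (by linarith)
            linarith
        _ = _ := by ring
    have h5 : ∑ n' ∈ A, (GJ r X z g n n' - 1) ≤
        C * Om δ X L * (Real.exp (2 * (d * (2 ^ r : ℕ)) / HH X) - 1) := by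
      unfold GJ
      apply hs X hX1 b hb U hU hUA A hA S hSp
        (fun p n' => ∃ j, (p : ℤ) ∣ (g j).eval (n : ℤ) - (g j).eval (n' : ℤ)) _
      intro p hp
      have hpp := hSp p hp
      refine ⟨univ.biUnion fun j => (range p).filter
        (fun r : ℕ => (p : ℤ) ∣ (g j).eval (r : ℤ) - (g j).eval (n : ℤ)), ?_, ?_, ?_⟩
      · intro x hx
        rw [mem_biUnion] at hx
        obtain ⟨j, -, hx⟩ := hx
        exact (mem_filter.1 hx).1
      · refine card_biUnion_le.trans ?_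
        apply sum_le_sum
        intro j _
        apply Pool.Agent.TH882.PA.roots_card (g j) (hd j) p hpp.1
        intro hdv
        have h2 : p ∣ (g j).leadingCoeff.natAbs := Int.natCast_dvd.1 hdv
        have h3 := Nat.le_of_dvd (Int.natAbs_pos.2 (hl j).ne') h2
        have h4 : (g j).leadingCoeff.natAbs ≤ univ.sup fun j => (g j).leadingCoeff.natAbs :=
          Finset.le_sup (f := fun j => (g j).leadingCoeff.natAbs) (mem_univ j)
        omega
      · rintro n' ⟨j, hj⟩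
        rw [mem_biUnion]
        refine ⟨j, mem_univ _, ?_⟩
        rw [mem_filter, mem_range]
        refine ⟨Nat.mod_lt _ hpp.1.pos, ?_⟩
        have h1 := Pool.Agent.TH882.PA.eval_congr (g j) p n'
        have h3 : (g j).eval ((n' % p : ℕ) : ℤ) - (g j).eval (n : ℤ) =
            -((g j).eval (n : ℤ) - (g j).eval (n' : ℤ)) -
              ((g j).eval (n' : ℤ) - (g j).eval ((n' % p : ℕ) : ℤ)) := by ring
        rw [h3]
        exact ((Int.dvd_neg.2 hj).sub h1)
    have h6 : C * Om δ X L * (Real.exp (2 * (d * (2 ^ r : ℕ)) / HH X) - 1) ≤ η / 4 * A.card := by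
      calc C * Om δ X L * (Real.exp (2 * (d * (2 ^ r : ℕ)) / HH X) - 1) =
          C / c * (Real.exp (2 * (d * (2 ^ r : ℕ)) / HH X) - 1) * (c * Om δ X L) := by
            field_simp
        _ ≤ C / c * (Real.exp (2 * (d * (2 ^ r : ℕ)) / HH X) - 1) * A.card :=
            mul_le_mul_of_nonneg_left hcA (by positivity)
        _ ≤ _ := mul_le_mul_of_nonneg_right hsmall.le hA0
    have hη12 : η1 ≤ η / 2 := min_le_left _ _
    calc ∑ n' ∈ A.erase n, (∏ j, Gk X z (k j n) (k j n') - 1) ≤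
        ∑ n' ∈ A.erase n, ((1 + η1) * (GJ r X z g n n' - 1) + η1) := sum_le_sum h4
      _ ≤ ∑ n' ∈ A, ((1 + η1) * (GJ r X z g n n' - 1) + η1) := by
          apply sum_le_sum_of_subset_of_nonneg (erase_subset _ _)
          intro n' _ _
          have h8 := GJ_one r X z g n n'
          have : 0 ≤ (1 + η1) * (GJ r X z g n n' - 1) := mul_nonneg (by linarith) (by linarith)
          linarith
      _ = (1 + η1) * ∑ n' ∈ A, (GJ r X z g n n' - 1) + η1 * A.card := by
          rw [sum_add_distrib, ← mul_sum, sum_const, nsmul_eq_mul]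
          ring
      _ ≤ (1 + η1) * (η / 4 * A.card) + η / 2 * A.card := by
          apply add_le_add
          · exact mul_le_mul_of_nonneg_left (h5.trans h6) (by linarith)
          · exact mul_le_mul_of_nonneg_right hη12 hA0
      _ ≤ η * A.card := by
          have : (1 + η1) * (η / 4 * A.card) ≤ 2 * (η / 4 * A.card) :=
            mul_le_mul_of_nonneg_right (by linarith) (by positivity)
          linarith
  calc ∑ n ∈ A, ∑ n' ∈ A.erase n, (∏ j, Gk X z (k j n) (k j n') - 1) ≤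
        ∑ _n ∈ A, η * (A.card : ℝ) := sum_le_sum hinner
    _ = _ := by
        rw [sum_const, nsmul_eq_mul]
        ring

end Pool.Agent.TH882.RF
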