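import Pool.Agent.TH882.Cls2

/-! The choice of the residue class, for several polynomials. -/

set_option autoImplicit false

open Finset Polynomial

namespace Pool.Agent.TH882.RF

open Pool.Agent.H361R2.PP
open Pool.Agent.TH882.AG (n0 n0_gt)
open Pool.Agent.TH882.UB
open Pool.Agent.TH882.PG

/-- the local condition -/
def LocR {r : ℕ} (g : Fin r → ℤ[X]) (S : Finset ℤ) (N : Fin r → ℤ) : Prop :=
  ∀ l : ℕ, l.Prime → ∃ x : ℤ,
    ¬ (l : ℤ) ∣ x ∧ (∀ j, ¬ (l : ℤ) ∣ N j + 1 * (g j).eval x) ∧ ∀ a ∈ S, ¬ (l : ℤ) ∣ x + a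

/-- a residue class modulo one prime -/
lemma one_primeR {r : ℕ} (g : Fin r → ℤ[X]) (hd : ∀ j, 1 ≤ (g j).natDegree)
    (hlc : ∀ j, 0 < (g j).leadingCoeff) (S : Finset ℤ) (T K e : ℕ)
    (he : ∑ j, (g j).natDegree ≤ e) (hel : ∀ j, (g j).leadingCoeff.natAbs ≤ e) (N : Fin r → ℤ)
    (hN : LocR g S N) (l : ℕ) (hl : l.Prime) :
    ∃ x : ℕ, ∀ j i, ¬ (l : ℤ) ∣ x + Hq S T K e j i ∧
      (∀ q, ¬ (l : ℤ) ∣ N q + 1 * (g q).eval ((x : ℤ) + Hq S T K e j i)) ∧
      ∀ a ∈ S, ¬ (l : ℤ) ∣ x + (Hq S T K e j i + a) := by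
  classical
  have hl0 : (0 : ℤ) < l := by exact_mod_cast hl.pos
  by_cases h : l ≤ l1 S T K e
  · obtain ⟨r, h1, h2, h3⟩ := hN l hl
    refine ⟨(r % l).toNat, fun j i => ?_⟩
    have hr : (((r % l).toNat : ℕ) : ℤ) = r % l := Int.toNat_of_nonneg (Int.emod_nonneg _ hl0.ne')
    have hd : (l : ℤ) ∣ Hq S T K e j i := by
      have h4 : l ∣ primorial (l1 S T K e) := hl.dvd_primorial_iff.2 h
      have h5 : l ∣ Hq S T K e j i := by
        unfold Hq
        exact h4.mul_right _
      exact_mod_cast h5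
    have hrr : (l : ℤ) ∣ r - r % l := Int.dvd_self_sub_emod
    rw [hr]
    refine ⟨fun h4 => h1 ?_, fun q h4 => h2 q ?_, fun a ha h4 => h3 a ha ?_⟩
    · have : r = (r % l + Hq S T K e j i) - Hq S T K e j i + (r - r % l) := by ring
      rw [this]
      exact ((h4.sub hd).add hrr)
    · have e1 : (l : ℤ) ∣ (g q).eval r - (g q).eval (r % l + Hq S T K e j i) := by
        refine dvd_trans ?_ (sub_dvd_eval_sub r (r % l + Hq S T K e j i) (g q))
        have : r - (r % l + Hq S T K e j i) = (r - r % l) - Hq S T K e j i := by ring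
        rw [this]
        exact hrr.sub hd
      have : N q + 1 * (g q).eval r = (N q + 1 * (g q).eval (r % l + Hq S T K e j i)) +
          1 * ((g q).eval r - (g q).eval (r % l + Hq S T K e j i)) := by ring
      rw [this]
      exact h4.add (e1.mul_left _)
    · have : r + a = (r % l + (Hq S T K e j i + a)) - Hq S T K e j i + (r - r % l) := by ring
      rw [this]
      exact ((h4.sub hd).add hrr)
  · push Not at h
    have hpl : ∀ q, ¬ (l : ℤ) ∣ (g q).leadingCoeff := by
      intro q hdv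
      have h2 : l ∣ (g q).leadingCoeff.natAbs := Int.natCast_dvd.1 hdv
      have h3 := Nat.le_of_dvd (Int.natAbs_pos.2 (hlc q).ne') h2
      have h4 := hel q
      unfold l1 at h
      omega
    set bad : Finset ℕ := (univ : Finset (Fin T × Fin K)).biUnion (fun x =>
      ((range l).filter (fun r : ℕ => (l : ℤ) ∣ r + (Hq S T K e x.1 x.2 : ℤ)) ∪
      univ.biUnion (fun q => (range l).filter
        (fun r : ℕ => (l : ℤ) ∣ N q + 1 * (g q).eval ((r : ℤ) + Hq S T K e x.1 x.2)))) ∪
      S.biUnion (fun a => (range l).filter (fun r : ℕ => (l : ℤ) ∣ r + (Hq S T K e x.1 x.2 + a))))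
      with hbad
    have hcard : bad.card < (range l).card := by
      rw [card_range]
      refine lt_of_le_of_lt ?_ h
      calc bad.card ≤ ∑ _x : Fin T × Fin K, (1 + (∑ q, (g q).natDegree) + S.card) := by
            rw [hbad]
            refine card_biUnion_le.trans ?_
            apply sum_le_sum
            intro x _
            refine (card_union_le _ _).trans ?_
            apply add_le_add
            · refine (card_union_le _ _).trans ?_
              apply add_le_add (lin_card l hl _)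
              refine card_biUnion_le.trans ?_
              apply sum_le_sum
              intro q _
              exact pol_card (g q) (hd q) 1 (Or.inl rfl) l hl (hpl q) (N q) _
            · refine card_biUnion_le.trans ?_
              calc ∑ a ∈ S, ((range l).filter
                    (fun r : ℕ => (l : ℤ) ∣ r + (Hq S T K e x.1 x.2 + a))).card ≤ ∑ _a ∈ S, 1 :=
                    sum_le_sum fun a _ => lin_card l hl _
                _ = S.card := by simp
        _ = T * K * (1 + (∑ q, (g q).natDegree) + S.card) := by simp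
        _ ≤ T * K * (S.card + 1 + e) := Nat.mul_le_mul_left _ (by omega)
        _ ≤ _ := Nat.le_add_right _ _
    obtain ⟨r, hr1, hr2⟩ := exists_mem_notMem_of_card_lt_card hcard
    refine ⟨r, fun j i => ?_⟩
    rw [hbad, mem_biUnion] at hr2
    push Not at hr2
    have h1 := hr2 (j, i) (mem_univ _)
    rw [mem_union, mem_union, mem_biUnion, mem_biUnion, not_or, not_or] at h1
    obtain ⟨⟨h2, h3⟩, h4⟩ := h1
    rw [mem_filter, not_and] at h2
    push Not at h3
    push Not at h4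
    refine ⟨h2 hr1, fun q => ?_, fun a ha => ?_⟩
    · have h5 := h3 q (mem_univ _)
      rw [mem_filter, not_and] at h5
      exact h5 hr1
    · have h5 := h4 a ha
      rw [mem_filter, not_and] at h5
      exact h5 hr1

/-- a residue class modulo `W` -/
lemma exists_classR {r : ℕ} (g : Fin r → ℤ[X]) (hd : ∀ j, 1 ≤ (g j).natDegree)
    (hlc : ∀ j, 0 < (g j).leadingCoeff) (S : Finset ℤ) (T K e : ℕ)
    (he : ∑ j, (g j).natDegree ≤ e) (hel : ∀ j, (g j).leadingCoeff.natAbs ≤ e) (N : Fin r → ℤ)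
    (X : ℕ) (hN : LocR g S N) :
    ∃ b : ℕ, b < Wm X ∧ (∀ u ∈ Uq S T K e, (b + u).Coprime (Wm X)) ∧
      ∀ q j i, ∀ l : ℕ, l.Prime → l ∣ Wm X →
        ¬ (l : ℤ) ∣ N q + 1 * (g q).eval ((b : ℤ) + Hq S T K e j i) := by
  classical
  choose! r hr using fun (l : ℕ) (hl : l.Prime) =>
    one_primeR g hd hlc S T K e he hel N hN l hl
  obtain ⟨b0, -, hb0⟩ := Pool.Agent.TH882.UB.crt ∅ ((range (HH X + 1)).filter Nat.Prime) (by simp)
    (fun p hp => (mem_filter.1 hp).2) (disjoint_empty_left _) 0 r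
  have hW := Wm_pos X
  refine ⟨b0 % Wm X, Nat.mod_lt _ hW, ?_, ?_⟩
  · intro u hu
    rw [Nat.coprime_iff_gcd_eq_one]
    by_contra hcon
    obtain ⟨l, hl, hlg⟩ := Nat.exists_prime_and_dvd hcon
    have h1 : l ∣ b0 % Wm X + u := hlg.trans (Nat.gcd_dvd_left _ _)
    have h2 : l ∣ Wm X := hlg.trans (Nat.gcd_dvd_right _ _)
    have h3 : l ≤ HH X := by
      unfold Wm at h2
      exact hl.dvd_primorial_iff.1 h2
    have h4 : b0 % Wm X ≡ b0 [MOD l] := (Nat.mod_modEq _ _).of_dvd h2
    have h5 : b0 ≡ r l [MOD l] := hb0 l (mem_filter.2 ⟨mem_range.2 (by omega), hl⟩)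
    have h6 : r l + u ≡ b0 % Wm X + u [MOD l] := (h4.trans h5).symm.add_right u
    have h7 : l ∣ r l + u := (h6.dvd_iff dvd_rfl).2 h1
    unfold Uq at hu
    rw [mem_union, mem_image, mem_image] at hu
    rcases hu with ⟨x, -, rfl⟩ | ⟨x, hx, rfl⟩
    · exact (hr l hl x.1 x.2).1 (by exact_mod_cast h7)
    · rw [mem_product] at hx
      have h8 := Hqa_pos S T K e x.1.1 x.1.2 x.2 hx.2
      apply (hr l hl x.1.1 x.1.2).2.2 x.2 hx.2
      have h9 : (l : ℤ) ∣ (r l : ℤ) + ((((Hq S T K e x.1.1 x.1.2 : ℤ) + x.2).toNat : ℕ) : ℤ) := by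
        exact_mod_cast h7
      rwa [Int.toNat_of_nonneg h8.le] at h9
  · intro q j i l hl hlW hdv
    have h3 : l ≤ HH X := by
      unfold Wm at hlW
      exact hl.dvd_primorial_iff.1 hlW
    have h4 : b0 % Wm X ≡ b0 [MOD l] := (Nat.mod_modEq _ _).of_dvd hlW
    have h5 : b0 ≡ r l [MOD l] := hb0 l (mem_filter.2 ⟨mem_range.2 (by omega), hl⟩)
    have h6 := Nat.modEq_iff_dvd.1 (h4.trans h5)
    apply (hr l hl j i).2.1 q
    have e1 : (l : ℤ) ∣ (g q).eval ((r l : ℤ) + Hq S T K e j i) -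
        (g q).eval (((b0 % Wm X : ℕ) : ℤ) + Hq S T K e j i) := by
      refine dvd_trans ?_ (sub_dvd_eval_sub _ _ (g q))
      have : ((r l : ℤ) + Hq S T K e j i) - (((b0 % Wm X : ℕ) : ℤ) + Hq S T K e j i) =
          (r l : ℤ) - ((b0 % Wm X : ℕ) : ℤ) := by ring
      rw [this]
      exact h6
    have : N q + 1 * (g q).eval ((r l : ℤ) + Hq S T K e j i) =
        (N q + 1 * (g q).eval (((b0 % Wm X : ℕ) : ℤ) + Hq S T K e j i)) +
        1 * ((g q).eval ((r l : ℤ) + Hq S T K e j i) -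
          (g q).eval (((b0 % Wm X : ℕ) : ℤ) + Hq S T K e j i)) := by ring
    rw [this]
    exact hdv.add (e1.mul_left _)

end Pool.Agent.TH882.RF
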