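import Pool.Agent.TH882.R5

/-! Prime values of several shifted polynomials at integers with an exact pattern of primes. -/

set_option autoImplicit false

open Finset Filter Topology Polynomial

namespace Pool.Agent.TH882.RQ

open Pool.Agent.H361R2.PP
open Pool.Agent.W70.HR
open Pool.Agent.TH882.UB
open Pool.Agent.TH882.HE
open Pool.Agent.H373R2.T7 (lamz Vz pz lamz_nonneg)
open Pool.Agent.TH882.PG
open Pool.Agent.TH882.RF
open Pool.Agent.TH882.PC (Vz_pos)

open Classical in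
/-- the integers `n` of the class `b` with the exact pattern `Q` of primes among the positions `U` and
all `N j + g j (n)` prime -/
noncomputable def RepQ {r : ℕ} (g : Fin r → ℤ[X]) (U Q : Finset ℕ) (X b : ℕ) (N : Fin r → ℤ) :
    Finset ℕ :=
  (SI X b).filter (fun n => (∀ u ∈ U, (n + u).Prime ↔ u ∈ Q) ∧
    ∀ j, (N j + 1 * (g j).eval (n : ℤ)).toNat.Prime)

lemma cop_val0 (g : ℤ[X]) (N : ℤ) (X b n v : ℕ)
    (hb : ∀ l : ℕ, l.Prime → l ∣ Wm X → ¬ (l : ℤ) ∣ N + 1 * g.eval (b : ℤ))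
    (hn : n % Wm X = b) (hv : (v : ℤ) = N + 1 * g.eval (n : ℤ)) : v.Coprime (Wm X) := by
  rw [Nat.coprime_iff_gcd_eq_one]
  by_contra hcon
  obtain ⟨l, hl, hlg⟩ := Nat.exists_prime_and_dvd hcon
  have h1 : l ∣ v := hlg.trans (Nat.gcd_dvd_left _ _)
  have h2 : l ∣ Wm X := hlg.trans (Nat.gcd_dvd_right _ _)
  apply hb l hl h2
  have h3 : (l : ℤ) ∣ N + 1 * g.eval (n : ℤ) := by
    rw [← hv]
    exact_mod_cast h1
  have h7 : (l : ℤ) ∣ (b : ℤ) - n := by
    have h8 : n ≡ b [MOD l] := by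
      rw [← hn]
      exact ((Nat.mod_modEq _ _).of_dvd h2).symm
    exact Nat.modEq_iff_dvd.1 h8
  have e1 : (l : ℤ) ∣ g.eval (b : ℤ) - g.eval (n : ℤ) := by
    refine dvd_trans ?_ (sub_dvd_eval_sub _ _ g)
    exact h7
  have : N + 1 * g.eval (b : ℤ) = (N + 1 * g.eval (n : ℤ)) + (g.eval (b : ℤ) - g.eval (n : ℤ)) := by
    ring
  rw [this]
  exact h3.add e1

/-- a popular exact pattern -/
lemma pop (m K : ℕ) (hK : 1 ≤ K) (U : Finset ℕ) (H : Fin (4 * (m + 1)) → Fin K → ℕ)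
    (hHU : ∀ g i, H g i ∈ U) (hinj : Function.Injective (fun x : Fin (4 * (m + 1)) × Fin K => H x.1 x.2))
    (δ : ℝ) (X b : ℕ) (hne : (HS δ X b H U).Nonempty) :
    ∃ Q ⊆ U, m + 1 ≤ Q.card ∧ ((HS δ X b H U).card : ℝ) / 2 ^ U.card ≤
      (((HS δ X b H U).filter (fun n => U.filter (fun u => (n + u).Prime) = Q)).card : ℝ) := by
  classical
  have hmaps : ∀ n ∈ HS δ X b H U, U.filter (fun u => (n + u).Prime) ∈ U.powerset := by
    intro n _
    rw [mem_powerset]
    exact filter_subset _ _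
  obtain ⟨Q, hQ1, hQ2⟩ := exists_le_card_fiber_of_nsmul_le_card_of_maps_to hmaps
    ⟨_, empty_mem_powerset _⟩ (b := ((HS δ X b H U).card : ℝ) / 2 ^ U.card) (by
      rw [nsmul_eq_mul, card_powerset]
      push_cast
      apply le_of_eq
      field_simp)
  have hne2 : ((HS δ X b H U).filter (fun n => U.filter (fun u => (n + u).Prime) = Q)).Nonempty := by
    rw [← card_pos]
    have e1 : (0 : ℝ) < (HS δ X b H U).card := by exact_mod_cast hne.card_pos
    have e2 : (0 : ℝ) < ((HS δ X b H U).card : ℝ) / 2 ^ U.card := by positivity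
    exact_mod_cast e2.trans_le hQ2
  refine ⟨Q, mem_powerset.1 hQ1, ?_, hQ2⟩
  obtain ⟨n, hn⟩ := hne2
  rw [mem_filter] at hn
  obtain ⟨hn1, hn2⟩ := hn
  unfold HS at hn1
  rw [mem_filter] at hn1
  have hT := hn1.2.2
  set G := (univ : Finset (Fin (4 * (m + 1)))).filter (fun g => ∃ i, (n + H g i).Prime) with hG
  have hG2 : m + 1 ≤ G.card := by
    have : 4 * (m + 1) ≤ 4 * G.card := by
      convert hT
    omega
  have hex : ∀ g : Fin (4 * (m + 1)), ∃ i : Fin K, g ∈ G → (n + H g i).Prime := by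
    intro g
    by_cases hg : g ∈ G
    · have e1 := hg
      rw [hG, mem_filter] at e1
      obtain ⟨i, hi⟩ := e1.2
      exact ⟨i, fun _ => hi⟩
    · exact ⟨⟨0, hK⟩, fun h => absurd h hg⟩
  choose j hj using hex
  have hsub : G.image (fun g => H g (j g)) ⊆ Q := by
    intro u hu
    rw [mem_image] at hu
    obtain ⟨g, hg, rfl⟩ := hu
    rw [← hn2, mem_filter]
    exact ⟨hHU _ _, hj g hg⟩
  have hc : (G.image (fun g => H g (j g))).card = G.card := by
    apply card_image_of_injOn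
    intro g _ g' _ h
    have e2 := @hinj (g, j g) (g', j g') h
    exact (Prod.ext_iff.1 e2).1
  have := card_le_card hsub
  omega

set_option maxHeartbeats 4000000 in
theorem clsQ (m : ℕ) : ∃ K : ℕ, 1 ≤ K ∧ ∀ {r : ℕ} (g : Fin r → ℤ[X]) (_ : ∀ j, 1 ≤ (g j).natDegree)
    (_ : ∀ j, 0 < (g j).leadingCoeff) (U : Finset ℕ), U.card = 4 * (m + 1) * K →
    (∀ u ∈ U, 1 ≤ u) → ∃ D : ℕ, ∀ κ : ℕ, ∀ η : ℝ, 0 < η →
    ∃ X₀ : ℕ, ∀ X : ℕ, X₀ ≤ X → ∀ Y a0 Z : Fin r → ℕ,
    (∀ j, ∀ n : ℕ, X ≤ n → n ≤ 3 * X → 0 ≤ (Y j : ℤ) - 1 * (g j).eval (n : ℤ) ∧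
      (Y j : ℤ) - 1 * (g j).eval (n : ℤ) < a0 j) → (∀ j, Y j < a0 j) →
    (∀ j, a0 j + X ≤ Z j) → (∀ j, Z j ≤ κ * X ^ (g j).natDegree) → ∀ s : Fin r → ℕ,
    (∀ j, s j < Wm X) → ∀ b < Wm X, (∀ u ∈ U, (b + u).Coprime (Wm X)) →
    (∀ j, ∀ N ∈ IA X (a0 j) (Z j) (s j), ∀ l : ℕ, l.Prime → l ∣ Wm X →
      ¬ (l : ℤ) ∣ ((N : ℤ) - Y j) + 1 * (g j).eval (b : ℤ)) →
    ∃ Q ⊆ U, m + 1 ≤ Q.card ∧
    ∃ Bd : Finset (Fin r → ℕ), (Bd.card : ℝ) ≤ η * (∏ j, ((Z j : ℝ) / Wm X)) +
        (∏ j, (X : ℝ) ^ (g j).natDegree) / Real.log X ^ (r + 1) ∧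
      ∀ N ∈ Fintype.piFinset (fun j => IA X (a0 j) (Z j) (s j)), N ∉ Bd →
        (X : ℝ) / Real.log X ^ D ≤ ((RepQ g U Q X b (fun j => (N j : ℤ) - Y j)).card : ℝ) := by
  classical
  set T : ℕ := 4 * (m + 1) with hTd
  have hT1 : 1 ≤ T := by omega
  obtain ⟨K, hK, hmte⟩ := mte T hT1
  refine ⟨K, hK, ?_⟩
  intro r g hd hl U hUc hU1
  set d : ℕ := ∑ j, (g j).natDegree with hdd
  have hdj : ∀ j, (g j).natDegree ≤ d := fun j =>
    Finset.single_le_sum (f := fun j => (g j).natDegree) (fun _ _ => Nat.zero_le _) (mem_univ j)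
  obtain ⟨δ, c, hδ, hδ8, hc, X1, h1⟩ := hmte 1 0 one_pos
  have hδ1 : δ ≤ 1 := by linarith
  -- the enumeration of the positions
  have hcardT : Fintype.card (Fin T × Fin K) = Fintype.card U := by
    rw [Fintype.card_prod, Fintype.card_fin, Fintype.card_fin, Fintype.card_coe, hUc]
  set eq : (Fin T × Fin K) ≃ U := Fintype.equivOfCardEq hcardT with heq
  set Hp : Fin T → Fin K → ℕ := fun g i => (eq (g, i) : ℕ) with hHp
  have hHpU : ∀ g i, Hp g i ∈ U := fun g i => (eq (g, i)).2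
  have hHpinj : Function.Injective (fun x : Fin T × Fin K => Hp x.1 x.2) := by
    intro x y h
    exact eq.injective (Subtype.ext h)
  set L : ℕ := U.card with hL
  set A0 : ℕ := U.sup id with hA0
  have hUA : ∀ u ∈ U, u ≤ A0 := fun u hu => Finset.le_sup (f := id) hu
  set c' : ℝ := c / 2 ^ L with hc'
  have hc'0 : 0 < c' := by rw [hc']; positivity
  refine ⟨2 * L + 2 + r, ?_⟩
  intro κ η hη
  choose B0j hbil using fun j => bilW (g j) (hd j) (hl j) (κ + 1) (by omega) (2 * L + 2 * r + 3)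
  set B0 : ℕ := univ.sup B0j with hB0
  have hB0j : ∀ j, B0j j ≤ B0 := fun j => Finset.le_sup (f := B0j) (mem_univ j)
  obtain ⟨Xb, hXb⟩ := bad2R r g hd hl L A0 δ c' η hδ hδ1 hc'0 hη (B0 + 2)
  choose X3 h3 using fun j => hbil j (B0 + 2)
  obtain ⟨X5, h5⟩ := Om_lower δ hδ hδ1 L
  obtain ⟨X6, hV⟩ := Pool.Agent.H373R2.T7.Vz_inv_small (B0 + 2)
  obtain ⟨X8, hHH⟩ := eventually_atTop.1 (HH_tendsto.eventually_ge_atTop 1)
  set M : ℝ := r * (d + 1) ^ r * (κ + 1) ^ r with hM
  have hM0 : 0 ≤ M := by rw [hM]; positivity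
  have hlogt : Tendsto (fun X : ℕ => Real.log (X : ℝ)) atTop atTop :=
    Real.tendsto_log_atTop.comp tendsto_natCast_atTop_atTop
  obtain ⟨X7, h7⟩ := eventually_atTop.1 (hlogt.eventually_ge_atTop
    (max (max (Real.log κ) 2) (max (max (4 * M / c') (4 * (d + 1) ^ r / c')) (A0 + 1))))
  refine ⟨max (max (max X1 Xb) (univ.sup X3)) (max (max X5 X6) (max (max X7 X8) 16)), ?_⟩
  intro X hX Y a0 Z hYa hYa0 hZ6 hZκ s hs b hb hcop hdiff
  have hX1 : X1 ≤ X := by omega
  have hX2 : Xb ≤ X := by omega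
  have hX3 : univ.sup X3 ≤ X := by omega
  have hX5 : X5 ≤ X := by omega
  have hX6 : X6 ≤ X := by omega
  have hX8 : X8 ≤ X := by omega
  have hX16 : 16 ≤ X := by omega
  have hll := h7 X (by omega)
  have hl1 : Real.log κ ≤ Real.log X :=
    ((le_max_left _ _).trans (le_max_left _ _)).trans hll
  have hl2 : (2 : ℝ) ≤ Real.log X :=
    ((le_max_right _ _).trans (le_max_left _ _)).trans hll
  have hl3 : 4 * M / c' ≤ Real.log X :=
    (((le_max_left _ _).trans (le_max_left _ _)).trans (le_max_right _ _)).trans hll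
  have hl4 : 4 * (d + 1) ^ r / c' ≤ Real.log X :=
    (((le_max_right _ _).trans (le_max_left _ _)).trans (le_max_right _ _)).trans hll
  have hl5 : (A0 : ℝ) + 1 ≤ Real.log X :=
    ((le_max_right _ _).trans (le_max_right _ _)).trans hll
  clear hll
  have hXr : (16 : ℝ) ≤ X := by exact_mod_cast hX16
  have hX0 : (0 : ℝ) < X := by linarith
  set ℓ := Real.log X with hℓ
  have hℓ1 : 1 ≤ ℓ := by linarith
  have hℓX : ℓ ≤ X := (Real.log_le_sub_one_of_pos hX0).trans (by linarith)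
  have hZ0' : ∀ j, 0 < Z j := fun j => by have := hZ6 j; omega
  have hZ0 : ∀ j, (0 : ℝ) < Z j := fun j => by exact_mod_cast hZ0' j
  have hZκr : ∀ j, (Z j : ℝ) ≤ κ * (X : ℝ) ^ (g j).natDegree := fun j => by exact_mod_cast hZκ j
  have hXd0 : ∀ j, (0 : ℝ) < (X : ℝ) ^ (g j).natDegree := fun j => by positivity
  have hκ0 : Fin r → (0 : ℝ) < κ := by
    intro j
    by_contra hcon
    push Not at hcon
    have : (κ : ℝ) * (X : ℝ) ^ (g j).natDegree ≤ 0 := mul_nonpos_of_nonpos_of_nonneg hcon (hXd0 j).le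
    linarith [hZ0 j, hZκr j]
  have hW0 : (0 : ℝ) < Wm X := by exact_mod_cast Wm_pos X
  set IP := Fintype.piFinset (fun j => IA X (a0 j) (Z j) (s j)) with hIP
  obtain ⟨hV0, hHS⟩ := h1 X hX1 b hb
  have hUB : U ⊆ Bw 1 X b := by
    intro u hu
    unfold Bw BB
    rw [mem_filter, mem_Icc]
    refine ⟨⟨hU1 u hu, ?_⟩, hcop u hu⟩
    apply Nat.le_floor
    have e1 : (u : ℝ) ≤ A0 := by exact_mod_cast hUA u hu
    rw [one_mul]
    linarith
  have hHS2 := hHS Hp U hHpU hHpinj hUB hUc.le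
  have hOm0 : 0 < Om δ X L := by
    unfold Om
    positivity
  obtain ⟨Q, hQU, hQc, hQ⟩ := pop m K hK U Hp hHpU hHpinj δ X b (by
    rw [← card_pos]
    have : (0 : ℝ) < c * Om δ X L := by positivity
    exact_mod_cast this.trans_le hHS2)
  refine ⟨Q, hQU, hQc, ?_⟩
  set A := (HS δ X b Hp U).filter (fun n => U.filter (fun u => (n + u).Prime) = Q) with hA
  have hAc : c' * Om δ X L ≤ (A.card : ℝ) := by
    refine le_trans ?_ hQ
    rw [hc', div_mul_eq_mul_div]
    exact div_le_div_of_nonneg_right hHS2 (by positivity)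
  have hAsub : A ⊆ (SI X b).filter (fun n => ∀ u ∈ U, rg (P1 (HH X) (JJ δ X)) u n = 1) := by
    intro n hn
    rw [hA, mem_filter] at hn
    have e1 := hn.1
    unfold HS at e1
    rw [mem_filter] at e1 ⊢
    exact ⟨e1.1, e1.2.1⟩
  have hAm : ∀ n ∈ A, X ≤ n ∧ n < 2 * X ∧ n % Wm X = b := by
    intro n hn
    have := hAsub hn
    rw [mem_filter] at this
    have h6 := this.1
    unfold SI at h6
    rw [mem_filter, mem_Ico] at h6
    exact ⟨h6.1.1, h6.1.2, h6.2⟩
  have hINm : ∀ j, ∀ N ∈ IA X (a0 j) (Z j) (s j), a0 j ≤ N ∧ N < Z j ∧ N % Wm X = s j := by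
    intro j N hN
    unfold IA at hN
    rw [mem_filter, mem_Ico] at hN
    exact ⟨hN.1.1, hN.1.2, hN.2⟩
  -- the function `k`
  set k : Fin r → ℕ → ℕ := fun j n => ((Y j : ℤ) - 1 * (g j).eval (n : ℤ)).toNat with hk
  have hkn : ∀ j, ∀ n ∈ A, ((k j n : ℕ) : ℤ) = (Y j : ℤ) - 1 * (g j).eval (n : ℤ) ∧
      k j n < a0 j := by
    intro j n hn
    have e1 := hAm n hn
    have e2 := hYa j n (by omega) (by omega)
    have e3 : ((k j n : ℕ) : ℤ) = (Y j : ℤ) - 1 * (g j).eval (n : ℤ) := by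
      rw [hk]
      exact Int.toNat_of_nonneg e2.1
    refine ⟨e3, ?_⟩
    have : ((k j n : ℕ) : ℤ) < a0 j := by rw [e3]; exact e2.2
    exact_mod_cast this
  have hkk : ∀ j, ∀ n ∈ A, ∀ n' ∈ A, |(k j n : ℤ) - k j n'| =
      |(g j).eval (n : ℤ) - (g j).eval (n' : ℤ)| := by
    intro j n hn n' hn'
    rw [(hkn j n hn).1, (hkn j n' hn').1]
    have e1 : (Y j : ℤ) - 1 * (g j).eval (n : ℤ) - ((Y j : ℤ) - 1 * (g j).eval (n' : ℤ)) =
        -((g j).eval (n : ℤ) - (g j).eval (n' : ℤ)) := by ring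
    rw [e1, abs_neg]
  have hval : ∀ j, ∀ N ∈ IA X (a0 j) (Z j) (s j), ∀ n ∈ A, ((N - k j n : ℕ) : ℤ) =
      ((N : ℤ) - Y j) + 1 * (g j).eval (n : ℤ) := by
    intro j N hN n hn
    have e1 := (hINm j N hN).1
    have e2 := hkn j n hn
    rw [Nat.cast_sub (by omega), e2.1]
    ring
  have hcopr : ∀ j, ∀ N ∈ IA X (a0 j) (Z j) (s j), ∀ n ∈ A, (N - k j n).Coprime (Wm X) := by
    intro j N hN n hn
    exact cop_val0 (g j) ((N : ℤ) - Y j) X b n (N - k j n) (hdiff j N hN) (hAm n hn).2.2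
      (hval j N hN n hn)
  -- the sifting limit
  set z : ℕ := ⌈ℓ ^ (B0 + 1)⌉₊ with hz
  have hz1 : ℓ ^ (B0 + 1) ≤ z := Nat.le_ceil _
  have hz2 : (z : ℝ) ≤ ℓ ^ (B0 + 2) := by
    have e1 : (z : ℝ) < ℓ ^ (B0 + 1) + 1 := Nat.ceil_lt_add_one (by positivity)
    have e3 : 1 ≤ ℓ ^ (B0 + 1) := one_le_pow₀ hℓ1
    calc (z : ℝ) ≤ 2 * ℓ ^ (B0 + 1) := by linarith
      _ ≤ ℓ * ℓ ^ (B0 + 1) := mul_le_mul_of_nonneg_right hl2 (by positivity)
      _ = ℓ ^ (B0 + 2) := by ring
  have hHz : HH X ≤ z := by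
    have e1 : (HH X : ℝ) ≤ ℓ := by
      unfold HH
      have e2 : Real.log ℓ ≤ ℓ := (Real.log_le_sub_one_of_pos (by linarith)).trans (by linarith)
      have e3 : 0 ≤ Real.log ℓ := Real.log_nonneg hℓ1
      calc ((⌊Real.log (Real.log X) / 4⌋₊ : ℕ) : ℝ) ≤ Real.log ℓ / 4 :=
            Nat.floor_le (by positivity)
        _ ≤ ℓ := by linarith
    have e2 : ℓ ≤ z := by
      calc ℓ = ℓ ^ 1 := (pow_one _).symm
        _ ≤ ℓ ^ (B0 + 1) := pow_le_pow_right₀ hℓ1 (by omega)
        _ ≤ z := hz1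
    exact_mod_cast e1.trans e2
  have hVl : (Vz z)⁻¹ ≤ ℓ := hV X hX6 z ((hHH X hX8).trans hHz) hz2
  have hb2 := hXb X hX2 b hb U rfl hUA z hHz hz2 A hAsub hAc k hkk a0 Z s
    (fun j n hn => (hkn j n hn).2.le) hZ6 hs hcopr
  rw [← hIP] at hb2
  set Bd2 := IP.filter (fun N => ∑ n ∈ A, ∏ j, lamz z (N j - k j n) < (A.card : ℝ) / 2) with hBd2
  -- the bilinear estimate
  set th : Fin r → ℕ → ℕ → ℝ := fun j N n =>
    if (N - k j n).Prime then Real.log (N - k j n : ℕ) else 0 with hth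
  set la : Fin r → ℕ → ℕ → ℝ := fun j N n => lamz z (N - k j n) with hla
  have hIinj : ∀ j, Set.InjOn (fun N : ℕ => N - Y j) (IA X (a0 j) (Z j) (s j)) := by
    intro j N hN N' hN' he
    have e1 := hINm j N hN
    have e2 := hINm j N' hN'
    have e3 := hYa0 j
    simp only at he
    omega
  have hone : ∀ j, ∀ u : ℕ → ℝ, (∀ n, |u n| ≤ 1) →
      ∑ N ∈ IA X (a0 j) (Z j) (s j), |∑ n ∈ A, u n * (th j N n - la j N n)| ≤
        (X : ℝ) ^ (g j).natDegree * X / ℓ ^ (2 * L + 2 * r + 3) := by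
    intro j u hu
    set I : Finset ℕ := (IA X (a0 j) (Z j) (s j)).image (fun N => N - Y j) with hI
    have hb1 := h3 j X ((Finset.le_sup (f := X3) (mem_univ j)).trans hX3) z
      (le_trans (pow_le_pow_right₀ hℓ1 ((hB0j j).trans (by omega))) hz1) hz2 1 (Or.inl rfl) I
      A (by
        intro N hN
        rw [hI, mem_image] at hN
        obtain ⟨N', hN', rfl⟩ := hN
        have e1 := hINm j N' hN'
        have e3 := hYa0 j
        refine ⟨by omega, ?_⟩
        calc N' - Y j ≤ Z j := by omega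
          _ ≤ κ * X ^ (g j).natDegree := hZκ j
          _ ≤ (κ + 1) * X ^ (g j).natDegree := Nat.mul_le_mul_right _ (by omega)) (by
        intro n hn
        have e1 := hAm n hn
        omega) (by
        intro N hN n' hn'
        rw [hI, mem_image] at hN
        obtain ⟨N', hN', rfl⟩ := hN
        have e1 := hINm j N' hN'
        have e2 := hkn j n' hn'
        have e3 := hval j N' hN' n' hn'
        have e5 := hYa0 j
        have e4 : ((N' - Y j : ℕ) : ℤ) = (N' : ℤ) - Y j := by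
          rw [Nat.cast_sub (by omega)]
        rw [e4, ← e3]
        constructor
        · have : 1 ≤ N' - k j n' := by omega
          exact_mod_cast this
        · have : N' - k j n' ≤ (κ + 1) * X ^ (g j).natDegree := by
            calc N' - k j n' ≤ Z j := by omega
              _ ≤ κ * X ^ (g j).natDegree := hZκ j
              _ ≤ (κ + 1) * X ^ (g j).natDegree := Nat.mul_le_mul_right _ (by omega)
          exact_mod_cast this)
      u hu
    rw [hI, sum_image (hIinj j)] at hb1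
    have hin : ∀ N ∈ IA X (a0 j) (Z j) (s j), ∑ n ∈ A, u n *
        (thI (((N - Y j : ℕ) : ℤ) + 1 * (g j).eval (n : ℤ)) -
          lamz z (((N - Y j : ℕ) : ℤ) + 1 * (g j).eval (n : ℤ)).toNat) =
        ∑ n ∈ A, u n * (th j N n - la j N n) := by
      intro N hN
      apply sum_congr rfl
      intro n hn
      have e1 := hINm j N hN
      have e5 := hYa0 j
      have e4 : ((N - Y j : ℕ) : ℤ) = (N : ℤ) - Y j := by
        rw [Nat.cast_sub (by omega)]
      rw [e4, ← hval j N hN n hn]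
      unfold thI
      rw [Int.toNat_natCast]
    rw [sum_congr rfl fun N hN => by rw [hin N hN]] at hb1
    exact hb1
  have haX : c' * (X / ℓ ^ (2 * L + 1)) ≤ (A.card : ℝ) :=
    (mul_le_mul_of_nonneg_left (h5 X hX5).2 hc'0.le).trans hAc
  set a : ℝ := (A.card : ℝ) with ha
  have ha0 : 0 < a := lt_of_lt_of_le (by positivity) haX
  have hlZ : ∀ j, Real.log (Z j) ≤ (d + 1) * ℓ := by
    intro j
    have hdjr : ((g j).natDegree : ℝ) ≤ d := by exact_mod_cast hdj j
    calc Real.log (Z j) ≤ Real.log (κ * (X : ℝ) ^ (g j).natDegree) := Real.log_le_log (hZ0 j) (hZκr j)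
      _ = Real.log κ + (g j).natDegree * ℓ := by
          rw [Real.log_mul (hκ0 j).ne' (hXd0 j).ne', Real.log_pow]
      _ ≤ _ := by nlinarith
  set B : ℝ := (d + 1) * ℓ with hBd
  have hd0 : (0 : ℝ) ≤ d := Nat.cast_nonneg _
  have hB1 : 1 ≤ B := by rw [hBd]; nlinarith
  have hℓB : ℓ ≤ B := by rw [hBd]; nlinarith
  have hth0 : ∀ j N n, 0 ≤ th j N n := by
    intro j N n
    rw [hth]
    simp only
    split_ifs
    · exact Real.log_natCast_nonneg _
    · exact le_rfl
  have hthB : ∀ j, ∀ N ∈ IA X (a0 j) (Z j) (s j), ∀ n ∈ A, th j N n ≤ B := by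
    intro j N hN n hn
    rw [hth]
    simp only
    split_ifs with hp
    · refine le_trans ?_ (hlZ j)
      apply Real.log_le_log (by exact_mod_cast hp.pos)
      have e1 := hINm j N hN
      have : N - k j n ≤ Z j := by omega
      exact_mod_cast this
    · linarith
  have htele := tele (fun j => IA X (a0 j) (Z j) (s j)) A th la B
    (fun j => (X : ℝ) ^ (g j).natDegree * X / ℓ ^ (2 * L + 2 * r + 3))
    (fun j => (κ + 1) * (X : ℝ) ^ (g j).natDegree) hB1 (by
      intro j N hN n hn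
      rw [abs_of_nonneg (hth0 j N n)]
      exact hthB j N hN n hn) (by
      intro j N hN n hn
      rw [hla]
      simp only
      rw [abs_of_nonneg (lamz_nonneg _ _)]
      exact (lamz_le _ _).trans (hVl.trans hℓB)) (by
      intro j
      have e1 : (IA X (a0 j) (Z j) (s j)).card ≤ Z j := by
        unfold IA
        refine (card_filter_le _ _).trans ?_
        simp
      have e2 : ((IA X (a0 j) (Z j) (s j)).card : ℝ) ≤ Z j := by exact_mod_cast e1
      have e3 := hXd0 j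
      have e4 := hZκr j
      nlinarith) (by
      intro j
      positivity) hone
  rw [← hIP] at htele
  set PX : ℝ := ∏ j, (X : ℝ) ^ (g j).natDegree with hPX
  have hPX0 : 0 < PX := prod_pos fun j _ => hXd0 j
  have hteleb : ∑ i, B ^ r * ((X : ℝ) ^ (g i).natDegree * X / ℓ ^ (2 * L + 2 * r + 3)) *
      ∏ j ∈ univ.erase i, ((κ + 1) * (X : ℝ) ^ (g j).natDegree) ≤
      M * (PX * X / ℓ ^ (2 * L + r + 3)) := by
    calc ∑ i, B ^ r * ((X : ℝ) ^ (g i).natDegree * X / ℓ ^ (2 * L + 2 * r + 3)) *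
        ∏ j ∈ univ.erase i, ((κ + 1) * (X : ℝ) ^ (g j).natDegree) ≤
        ∑ _i : Fin r, (d + 1) ^ r * (κ + 1) ^ r * (PX * X / ℓ ^ (2 * L + r + 3)) := by
          apply sum_le_sum
          intro i _
          have e1 : ∏ j ∈ univ.erase i, ((κ + 1) * (X : ℝ) ^ (g j).natDegree) =
              (κ + 1) ^ (univ.erase i).card * ∏ j ∈ univ.erase i, (X : ℝ) ^ (g j).natDegree := by
            rw [prod_mul_distrib, prod_const]
          have e2 : (univ.erase i).card ≤ r := by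
            calc (univ.erase i).card ≤ (univ : Finset (Fin r)).card := card_le_card (erase_subset _ _)
              _ = r := by simp
          have hκ1 : (1 : ℝ) ≤ (κ : ℝ) + 1 := by
            have : (0 : ℝ) ≤ κ := Nat.cast_nonneg _
            linarith
          have e3 : ((κ : ℝ) + 1) ^ (univ.erase i).card ≤ (κ + 1) ^ r := pow_le_pow_right₀ hκ1 e2
          have e4 : (X : ℝ) ^ (g i).natDegree * ∏ j ∈ univ.erase i, (X : ℝ) ^ (g j).natDegree = PX :=
            mul_prod_erase univ (fun j => (X : ℝ) ^ (g j).natDegree) (mem_univ i)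
          have e5 : 0 ≤ ∏ j ∈ univ.erase i, (X : ℝ) ^ (g j).natDegree :=
            prod_nonneg fun j _ => (hXd0 j).le
          calc B ^ r * ((X : ℝ) ^ (g i).natDegree * X / ℓ ^ (2 * L + 2 * r + 3)) *
              ∏ j ∈ univ.erase i, ((κ + 1) * (X : ℝ) ^ (g j).natDegree) =
              B ^ r * (((X : ℝ) ^ (g i).natDegree * ∏ j ∈ univ.erase i, (X : ℝ) ^ (g j).natDegree) *
                X / ℓ ^ (2 * L + 2 * r + 3)) * (κ + 1) ^ (univ.erase i).card := by
                rw [e1]; ring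
            _ ≤ B ^ r * (PX * X / ℓ ^ (2 * L + 2 * r + 3)) * (κ + 1) ^ r := by
                rw [e4]
                exact mul_le_mul_of_nonneg_left e3 (by positivity)
            _ = (d + 1) ^ r * (κ + 1) ^ r * (PX * X / ℓ ^ (2 * L + r + 3)) := by
                rw [hBd, mul_pow]
                have e6 : ℓ ^ (2 * L + 2 * r + 3) = ℓ ^ (2 * L + r + 3) * ℓ ^ r := by
                  rw [← pow_add]
                  congr 1
                  ring
                rw [e6]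
                field_simp
      _ = M * (PX * X / ℓ ^ (2 * L + r + 3)) := by
          rw [sum_const, nsmul_eq_mul, hM]
          simp only [card_univ, Fintype.card_fin]
          ring
  set Bd1 := IP.filter (fun N => a / 4 <
    |∑ n ∈ A, (∏ j, th j (N j) n - ∏ j, la j (N j) n)|) with hBd1
  have hBd1c : (Bd1.card : ℝ) ≤ PX / ℓ ^ (r + 1) := by
    have e1 : (Bd1.card : ℝ) * (a / 4) ≤ M * (PX * X / ℓ ^ (2 * L + r + 3)) := by
      refine le_trans ?_ (htele.trans hteleb)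
      calc (Bd1.card : ℝ) * (a / 4) = ∑ N ∈ Bd1, a / 4 := by rw [sum_const, nsmul_eq_mul]
        _ ≤ ∑ N ∈ Bd1, |∑ n ∈ A, (∏ j, th j (N j) n - ∏ j, la j (N j) n)| := by
            apply sum_le_sum
            intro N hN
            rw [hBd1, mem_filter] at hN
            exact hN.2.le
        _ ≤ _ := sum_le_sum_of_subset_of_nonneg (filter_subset _ _) (fun _ _ _ => abs_nonneg _)
    have e3 : M * (PX * X / ℓ ^ (2 * L + r + 3)) ≤ (PX / ℓ ^ (r + 1)) * (a / 4) := by
      have e4 : M * (PX * X / ℓ ^ (2 * L + r + 3)) =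
          (PX / ℓ ^ (r + 1)) * ((4 * M / c') / ℓ * (c' * (X / ℓ ^ (2 * L + 1))) / 4) := by
        have e6 : ℓ ^ (2 * L + r + 3) = ℓ ^ (r + 1) * ℓ * ℓ ^ (2 * L + 1) := by
          rw [← pow_succ, ← pow_add]
          congr 1
          ring
        rw [e6]
        field_simp
      rw [e4]
      apply mul_le_mul_of_nonneg_left _ (by positivity)
      apply div_le_div_of_nonneg_right _ (by norm_num)
      calc (4 * M / c') / ℓ * (c' * (X / ℓ ^ (2 * L + 1))) ≤ 1 * (c' * (X / ℓ ^ (2 * L + 1))) := by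
            apply mul_le_mul_of_nonneg_right _ (by positivity)
            rw [div_le_one (by linarith)]
            exact hl3
        _ ≤ a := by rw [one_mul]; exact haX
    exact le_of_mul_le_mul_right (e1.trans e3) (by positivity)
  refine ⟨Bd2 ∪ Bd1, ?_, ?_⟩
  · calc ((Bd2 ∪ Bd1).card : ℝ) ≤ (Bd2.card : ℝ) + Bd1.card := by
          exact_mod_cast card_union_le _ _
      _ ≤ _ := add_le_add hb2 hBd1c
  intro N hN hNB
  rw [mem_union, not_or] at hNB
  obtain ⟨hn2, hn1⟩ := hNB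
  rw [hBd2, mem_filter, not_and] at hn2
  rw [hBd1, mem_filter, not_and] at hn1
  have hn2' := hn2 hN
  have hn1' := hn1 hN
  push Not at hn2' hn1'
  rw [sum_sub_distrib] at hn1'
  have hNm := Fintype.mem_piFinset.1 hN
  have hsum : a / 4 ≤ ∑ n ∈ A, ∏ j, th j (N j) n := by
    have := (abs_le.1 hn1').1
    have e0 : ∑ n ∈ A, ∏ j, la j (N j) n = ∑ n ∈ A, ∏ j, lamz z (N j - k j n) := rfl
    linarith
  have hcnt : X / ℓ ^ (2 * L + 2 + r) ≤ ((A.filter (fun n => ∀ j, (N j - k j n).Prime)).card : ℝ) := by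
    set q : ℝ := ((A.filter (fun n => ∀ j, (N j - k j n).Prime)).card : ℝ) with hq
    have hq0 : 0 ≤ q := by positivity
    have e1 : a / 4 ≤ B ^ r * q := by
      refine hsum.trans ?_
      have e0 : ∀ n ∈ A, ∏ j, th j (N j) n ≤ if ∀ j, (N j - k j n).Prime then B ^ r else 0 := by
        intro n hn
        split_ifs with hp
        · calc ∏ j, th j (N j) n ≤ ∏ _j : Fin r, B :=
                Finset.prod_le_prod (fun j _ => hth0 j (N j) n)
                  (fun j _ => hthB j (N j) (hNm j) n hn)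
            _ = B ^ r := by simp
        · push Not at hp
          obtain ⟨j, hj⟩ := hp
          apply le_of_eq
          apply prod_eq_zero (mem_univ j)
          rw [hth]
          simp only
          rw [if_neg hj]
      refine (sum_le_sum e0).trans ?_
      rw [← sum_filter, sum_const, nsmul_eq_mul, mul_comm]
    have e2 : (c' * (X / ℓ ^ (2 * L + 1))) / 4 ≤ B ^ r * q :=
      (div_le_div_of_nonneg_right haX (by norm_num)).trans e1
    have e3 : X / ℓ ^ (2 * L + 2 + r) =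
        (4 * (d + 1) ^ r / c') / ℓ * ((c' * (X / ℓ ^ (2 * L + 1))) / 4 / B ^ r) := by
      rw [hBd, mul_pow]
      have e6 : ℓ ^ (2 * L + 2 + r) = ℓ ^ (2 * L + 1) * ℓ * ℓ ^ r := by
        rw [← pow_succ, ← pow_add]
      rw [e6]
      field_simp
    rw [e3]
    calc (4 * (d + 1) ^ r / c') / ℓ * ((c' * (X / ℓ ^ (2 * L + 1))) / 4 / B ^ r) ≤
          1 * ((c' * (X / ℓ ^ (2 * L + 1))) / 4 / B ^ r) := by
          apply mul_le_mul_of_nonneg_right _ (by positivity)
          rw [div_le_one (by linarith)]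
          exact hl4
      _ ≤ q := by
          rw [one_mul, div_le_iff₀ (by positivity)]
          linarith
  refine hcnt.trans ?_
  apply Nat.cast_le.2
  apply card_le_card
  intro n hn
  rw [mem_filter] at hn
  obtain ⟨hn1, hn2⟩ := hn
  have e3 := hn1
  rw [hA, mem_filter] at e3
  have e4 := mem_filter.1 (hAsub hn1)
  unfold RepQ
  rw [mem_filter]
  refine ⟨e4.1, ?_, ?_⟩
  · intro u hu
    rw [← e3.2, mem_filter]
    exact ⟨fun h => ⟨hu, h⟩, fun h => h.2⟩
  · intro j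
    have e2 := hval j (N j) (hNm j) n hn1
    rw [← e2, Int.toNat_natCast]
    exact hn2 j

end Pool.Agent.TH882.RQ
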