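import Pool.Agent.TH882.R7
import Pool.Agent.TH882.FinG2

/-! Exact patterns of primes and prime values of shifted polynomials: density statements. -/

set_option autoImplicit false

open Finset Filter Topology Polynomial

namespace Pool.Agent.TH882.RQ

open Pool.Agent.H361R2.PP
open Pool.Agent.W70.HR
open Pool.Agent.TH882.UB
open Pool.Agent.H373R2.T7 (cf abs_eval_le)
open Pool.Agent.TH882.PG

/-- the local condition -/
def LocQ {r : ℕ} (g : Fin r → ℤ[X]) (U : Finset ℕ) (N : Fin r → ℤ) : Prop :=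
  ∀ l : ℕ, l.Prime → ∃ x : ℤ, (∀ u ∈ U, ¬ (l : ℤ) ∣ x + u) ∧
    ∀ j, ¬ (l : ℤ) ∣ N j + 1 * (g j).eval x

/-- the residue class -/
lemma exists_classQ {r : ℕ} (g : Fin r → ℤ[X]) (U V : Finset ℕ) (pv : ℕ → ℕ)
    (hpv : ∀ v ∈ V, (pv v).Prime) (hinj : Set.InjOn pv V)
    (hUV : ∀ v ∈ V, ∀ u ∈ U, ¬ ((pv v : ℕ) : ℤ) ∣ (u : ℤ) - v) (N : Fin r → ℤ) (X : ℕ)
    (hN : LocQ g U N)
    (hNV : ∀ v ∈ V, ∀ j, ¬ ((pv v : ℕ) : ℤ) ∣ N j + 1 * (g j).eval (-(v : ℤ))) :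
    ∃ b : ℕ, b < Wm X ∧ (∀ u ∈ U, (b + u).Coprime (Wm X)) ∧
      (∀ q, ∀ l : ℕ, l.Prime → l ∣ Wm X → ¬ (l : ℤ) ∣ N q + 1 * (g q).eval (b : ℤ)) ∧
      ∀ v ∈ V, pv v ≤ HH X → pv v ∣ b + v := by
  classical
  have hone : ∀ l : ℕ, l.Prime → ∃ ρ : ℕ, (∀ u ∈ U, ¬ l ∣ ρ + u) ∧
      (∀ j, ¬ (l : ℤ) ∣ N j + 1 * (g j).eval (ρ : ℤ)) ∧ ∀ v ∈ V, pv v = l → l ∣ ρ + v := by
    intro l hl
    have hl0 : (0 : ℤ) < l := by exact_mod_cast hl.pos
    by_cases h : ∃ v ∈ V, pv v = l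
    · obtain ⟨v, hv, rfl⟩ := h
      have hp1 := hl.one_lt
      refine ⟨v * (pv v - 1), ?_, ?_, ?_⟩
      · intro u hu hd
        apply hUV v hv u hu
        have h1 : ((v * (pv v - 1) + u : ℕ) : ℤ) = (u : ℤ) - v + (pv v : ℤ) * v := by
          push_cast [hp1.le]
          ring
        have h2 : ((pv v : ℕ) : ℤ) ∣ ((v * (pv v - 1) + u : ℕ) : ℤ) := by exact_mod_cast hd
        rw [h1] at h2
        exact (dvd_add_left (dvd_mul_right _ _)).1 h2
      · intro j hd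
        apply hNV v hv j
        have h1 : ((pv v : ℕ) : ℤ) ∣ (g j).eval (-(v : ℤ)) - (g j).eval ((v * (pv v - 1) : ℕ) : ℤ) := by
          refine dvd_trans ?_ (sub_dvd_eval_sub _ _ (g j))
          have h2 : -(v : ℤ) - ((v * (pv v - 1) : ℕ) : ℤ) = -((pv v : ℤ) * v) := by
            push_cast [hp1.le]
            ring
          rw [h2]
          exact (dvd_mul_right _ _).neg_right
        have h3 : N j + 1 * (g j).eval (-(v : ℤ)) =
            (N j + 1 * (g j).eval ((v * (pv v - 1) : ℕ) : ℤ)) +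
            ((g j).eval (-(v : ℤ)) - (g j).eval ((v * (pv v - 1) : ℕ) : ℤ)) := by ring
        rw [h3]
        exact hd.add h1
      · intro v' hv' he
        have h1 : v' = v := hinj hv' hv he
        rw [h1]
        refine ⟨v, ?_⟩
        have h2 : pv v - 1 + 1 = pv v := by omega
        calc v * (pv v - 1) + v = v * (pv v - 1 + 1) := by ring
          _ = pv v * v := by rw [h2, mul_comm]
    · push Not at h
      obtain ⟨x, hx1, hx2⟩ := hN l hl
      have hr : (((x % l).toNat : ℕ) : ℤ) = x % l := Int.toNat_of_nonneg (Int.emod_nonneg _ hl0.ne')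
      have hrr : (l : ℤ) ∣ x - x % l := Int.dvd_self_sub_emod
      refine ⟨(x % l).toNat, ?_, ?_, fun v hv he => absurd he (h v hv)⟩
      · intro u hu hd
        apply hx1 u hu
        have h2 : (l : ℤ) ∣ (((x % l).toNat + u : ℕ) : ℤ) := by exact_mod_cast hd
        push_cast at h2
        rw [Int.toNat_of_nonneg (Int.emod_nonneg _ hl0.ne')] at h2
        have h3 : x + u = (x % l + u) + (x - x % l) := by ring
        rw [h3]
        exact h2.add hrr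
      · intro j hd
        apply hx2 j
        rw [hr] at hd
        have e1 : (l : ℤ) ∣ (g j).eval x - (g j).eval (x % l) :=
          dvd_trans hrr (sub_dvd_eval_sub _ _ (g j))
        have h3 : N j + 1 * (g j).eval x = (N j + 1 * (g j).eval (x % l)) +
            ((g j).eval x - (g j).eval (x % l)) := by ring
        rw [h3]
        exact hd.add e1
  choose! ρ hρ1 hρ2 hρ3 using hone
  obtain ⟨b0, -, hb0⟩ := Pool.Agent.TH882.UB.crt ∅ ((range (HH X + 1)).filter Nat.Prime) (by simp)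
    (fun p hp => (mem_filter.1 hp).2) (disjoint_empty_left _) 0 ρ
  have hW := Wm_pos X
  have hmod : ∀ l : ℕ, l.Prime → l ∣ Wm X → b0 % Wm X ≡ ρ l [MOD l] := by
    intro l hl h2
    have h3 : l ≤ HH X := by
      unfold Wm at h2
      exact hl.dvd_primorial_iff.1 h2
    have h4 : b0 % Wm X ≡ b0 [MOD l] := (Nat.mod_modEq _ _).of_dvd h2
    exact h4.trans (hb0 l (mem_filter.2 ⟨mem_range.2 (by omega), hl⟩))
  refine ⟨b0 % Wm X, Nat.mod_lt _ hW, ?_, ?_, ?_⟩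
  · intro u hu
    rw [Nat.coprime_iff_gcd_eq_one]
    by_contra hcon
    obtain ⟨l, hl, hlg⟩ := Nat.exists_prime_and_dvd hcon
    have h1 : l ∣ b0 % Wm X + u := hlg.trans (Nat.gcd_dvd_left _ _)
    have h2 : l ∣ Wm X := hlg.trans (Nat.gcd_dvd_right _ _)
    have h6 : ρ l + u ≡ b0 % Wm X + u [MOD l] := (hmod l hl h2).symm.add_right u
    exact hρ1 l hl u hu ((h6.dvd_iff dvd_rfl).2 h1)
  · intro q l hl hlW hdv
    have h6 := Nat.modEq_iff_dvd.1 (hmod l hl hlW)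
    apply hρ2 l hl q
    have e1 : (l : ℤ) ∣ (g q).eval ((ρ l : ℕ) : ℤ) - (g q).eval ((b0 % Wm X : ℕ) : ℤ) :=
      dvd_trans h6 (sub_dvd_eval_sub _ _ (g q))
    have : N q + 1 * (g q).eval ((ρ l : ℕ) : ℤ) =
        (N q + 1 * (g q).eval ((b0 % Wm X : ℕ) : ℤ)) +
        ((g q).eval ((ρ l : ℕ) : ℤ) - (g q).eval ((b0 % Wm X : ℕ) : ℤ)) := by ring
    rw [this]
    exact hdv.add e1
  · intro v hv hle
    have hp := hpv v hv
    have hW2 : pv v ∣ Wm X := by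
      unfold Wm
      exact hp.dvd_primorial_iff.2 hle
    have h6 : ρ (pv v) + v ≡ b0 % Wm X + v [MOD pv v] := (hmod _ hp hW2).symm.add_right v
    exact (h6.dvd_iff dvd_rfl).1 (hρ3 _ hp v hv rfl)

open Classical in
/-- the integers `n` with an exact pattern `Q` of primes among the positions `U`, no primes at the
positions `V`, and all `N j + g j (n)` prime -/
noncomputable def RepV {r : ℕ} (g : Fin r → ℤ[X]) (U V Q : Finset ℕ) (X : ℕ) (N : Fin r → ℤ) :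
    Finset ℕ :=
  (Ico X (2 * X)).filter (fun n => (∀ u ∈ U, (n + u).Prime ↔ u ∈ Q) ∧ (∀ v ∈ V, ¬ (n + v).Prime) ∧
    ∀ j, (N j + 1 * (g j).eval (n : ℤ)).toNat.Prime)

theorem coreQ (m : ℕ) : ∃ K : ℕ, 1 ≤ K ∧ ∀ {r : ℕ} (g : Fin r → ℤ[X]) (_ : ∀ j, 1 ≤ (g j).natDegree)
    (_ : ∀ j, 0 < (g j).leadingCoeff) (U : Finset ℕ), U.card = 4 * (m + 1) * K →
    (∀ u ∈ U, 1 ≤ u) → ∃ D : ℕ, ∀ κ : ℕ, ∀ η : ℝ, 0 < η → ∀ (V : Finset ℕ) (pv : ℕ → ℕ),
    (∀ v ∈ V, (pv v).Prime) → Set.InjOn pv V →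
    (∀ v ∈ V, ∀ u ∈ U, ¬ ((pv v : ℕ) : ℤ) ∣ (u : ℤ) - v) →
    ∃ X₀ : ℕ, ∀ X : ℕ, X₀ ≤ X → ∀ Y a0 Z : Fin r → ℕ,
    (∀ j, ∀ n : ℕ, X ≤ n → n ≤ 3 * X → 0 ≤ (Y j : ℤ) - 1 * (g j).eval (n : ℤ) ∧
      (Y j : ℤ) - 1 * (g j).eval (n : ℤ) < a0 j) → (∀ j, Y j < a0 j) →
    (∀ j, a0 j + X ≤ Z j) → (∀ j, Z j ≤ κ * X ^ (g j).natDegree) →
    ∃ Bd : Finset (Fin r → ℕ), (Bd.card : ℝ) ≤ η * (∏ j, (X : ℝ) ^ (g j).natDegree) ∧
      ∀ N ∈ Fintype.piFinset (fun j => Ico (a0 j) (Z j)), N ∉ Bd →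
        LocQ g U (fun j => (N j : ℤ) - Y j) →
        (∀ v ∈ V, ∀ j, ¬ ((pv v : ℕ) : ℤ) ∣ ((N j : ℤ) - Y j) + 1 * (g j).eval (-(v : ℤ))) →
        ∃ Q ⊆ U, m + 1 ≤ Q.card ∧
        (X : ℝ) / Real.log X ^ D ≤ ((RepV g U V Q X (fun j => (N j : ℤ) - Y j)).card : ℝ) := by
  classical
  obtain ⟨K, hK, hcls⟩ := clsQ m
  refine ⟨K, hK, ?_⟩
  intro r g hd hl U hUc hU1
  obtain ⟨D, h⟩ := hcls g hd hl U hUc hU1
  refine ⟨D, ?_⟩
  intro κ η hη V pv hpv hinj hUV
  obtain ⟨X1, h1⟩ := h κ (η / (2 * (κ + 1) ^ r)) (by positivity)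
  have hlogt : Tendsto (fun X : ℕ => Real.log (X : ℝ)) atTop atTop :=
    Real.tendsto_log_atTop.comp tendsto_natCast_atTop_atTop
  obtain ⟨X2, h2⟩ := eventually_atTop.1 (hlogt.eventually_ge_atTop (max 1 (2 / η)))
  obtain ⟨X3, hHH⟩ := eventually_atTop.1 (HH_tendsto.eventually_ge_atTop (V.sup pv))
  refine ⟨max X1 (max (max X2 X3) (max 16 (V.sup pv + 1))), ?_⟩
  intro X hX Y a0 Z hYa hYa0 hZ6 hZκ
  have hX1 : X1 ≤ X := by omega
  have hX3 : X3 ≤ X := by omega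
  have hX16 : 16 ≤ X := by omega
  have hXV : V.sup pv + 1 ≤ X := by omega
  have hH3 := hHH X hX3
  have hll := h2 X (by omega)
  have hl1 : 1 ≤ Real.log X := (le_max_left _ _).trans hll
  have hl2 : 2 / η ≤ Real.log X := (le_max_right _ _).trans hll
  have hX0 : (0 : ℝ) < X := by
    have : 0 < X := by omega
    exact_mod_cast this
  have hW0 : (0 : ℝ) < Wm X := by exact_mod_cast Wm_pos X
  have hWl : (Wm X : ℝ) ≤ Real.log X := by
    have e1 := Pool.Agent.H325R2.wtx1 X hX16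
    refine e1.trans ?_
    calc Real.log X ^ (7 / 20 : ℝ) ≤ Real.log X ^ (1 : ℝ) :=
          Real.rpow_le_rpow_of_exponent_le hl1 (by norm_num)
      _ = Real.log X := Real.rpow_one _
  -- the good classes
  set good : (Fin r → ℕ) → ℕ → Prop := fun s b => b < Wm X ∧ (∀ u ∈ U, (b + u).Coprime (Wm X)) ∧
    (∀ j, ∀ N ∈ IA X (a0 j) (Z j) (s j), ∀ l : ℕ, l.Prime → l ∣ Wm X →
      ¬ (l : ℤ) ∣ ((N : ℤ) - Y j) + 1 * (g j).eval (b : ℤ)) ∧
    ∀ v ∈ V, pv v ∣ b + v with hgood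
  have hs : ∀ s : Fin r → ℕ, ∃ Bd : Finset (Fin r → ℕ),
      ((Bd.card : ℝ) ≤ η / (2 * (κ + 1) ^ r) * (∏ j, ((Z j : ℝ) / Wm X)) +
        (∏ j, (X : ℝ) ^ (g j).natDegree) / Real.log X ^ (r + 1)) ∧
      ((∀ j, s j < Wm X) → (∃ b, good s b) →
      ∀ N ∈ Fintype.piFinset (fun j => IA X (a0 j) (Z j) (s j)), N ∉ Bd →
        ∃ Q ⊆ U, m + 1 ≤ Q.card ∧
        (X : ℝ) / Real.log X ^ D ≤ ((RepV g U V Q X (fun j => (N j : ℤ) - Y j)).card : ℝ)) := by
    intro s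
    by_cases hs : (∀ j, s j < Wm X) ∧ ∃ b, good s b
    · obtain ⟨hs, b, hb1, hb2, hb3, hb4⟩ := hs
      obtain ⟨Q, hQ1, hQ2, Bd, hB1, hB2⟩ := h1 X hX1 Y a0 Z hYa hYa0 hZ6 hZκ s hs b hb1 hb2 hb3
      refine ⟨Bd, hB1, fun _ _ N hN hNB => ⟨Q, hQ1, hQ2, (hB2 N hN hNB).trans ?_⟩⟩
      apply Nat.cast_le.2
      apply card_le_card
      intro n hn
      unfold RepQ at hn
      unfold RepV
      rw [mem_filter, mem_SI] at hn
      rw [mem_filter, mem_Ico]
      obtain ⟨⟨e1, e2, e3⟩, e4, e5⟩ := hn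
      refine ⟨⟨e1, e2⟩, e4, ?_, e5⟩
      intro v hv hp
      have hpv' := hpv v hv
      have hle : pv v ≤ V.sup pv := Finset.le_sup (f := pv) hv
      have hW2 : pv v ∣ Wm X := by
        unfold Wm
        exact hpv'.dvd_primorial_iff.2 (hle.trans hH3)
      have h5 : n ≡ b [MOD pv v] := by
        rw [← e3]
        exact ((Nat.mod_modEq _ _).of_dvd hW2).symm
      have h6 : pv v ∣ n + v := ((h5.add_right v).dvd_iff dvd_rfl).2 (hb4 v hv)
      have h7 := (Nat.prime_dvd_prime_iff_eq hpv' hp).1 h6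
      omega
    · refine ⟨∅, ?_, ?_⟩
      · rw [card_empty, Nat.cast_zero]
        positivity
      · intro h3 h4
        exact absurd ⟨h3, h4⟩ hs
  choose Bd hBd using hs
  set SS := Fintype.piFinset (fun _ : Fin r => range (Wm X)) with hSS
  have hSScard : (SS.card : ℝ) = (Wm X : ℝ) ^ r := by
    rw [hSS, Fintype.card_piFinset]
    simp
  refine ⟨SS.biUnion Bd, ?_, ?_⟩
  · have e1 : ((SS.biUnion Bd).card : ℝ) ≤
        ∑ s ∈ SS, (η / (2 * (κ + 1) ^ r) * (∏ j, ((Z j : ℝ) / Wm X)) +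
          (∏ j, (X : ℝ) ^ (g j).natDegree) / Real.log X ^ (r + 1)) := by
      have e2 : ((SS.biUnion Bd).card : ℝ) ≤ ∑ s ∈ SS, ((Bd s).card : ℝ) := by
        exact_mod_cast card_biUnion_le
      refine e2.trans ?_
      apply sum_le_sum
      intro s hs
      exact (hBd s).1
    refine e1.trans ?_
    rw [sum_const, nsmul_eq_mul, hSScard]
    set PX : ℝ := ∏ j, (X : ℝ) ^ (g j).natDegree with hPX
    have hPX0 : 0 < PX := prod_pos fun j _ => by positivity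
    have hZκr : ∀ j, (Z j : ℝ) ≤ κ * (X : ℝ) ^ (g j).natDegree := fun j => by exact_mod_cast hZκ j
    have e3 : ∏ j, ((Z j : ℝ) / Wm X) = (∏ j, (Z j : ℝ)) / (Wm X : ℝ) ^ r := by
      rw [prod_div_distrib]
      simp
    have e4 : ∏ j, (Z j : ℝ) ≤ (κ + 1) ^ r * PX := by
      calc ∏ j, (Z j : ℝ) ≤ ∏ j, ((κ + 1) * (X : ℝ) ^ (g j).natDegree) := by
            apply Finset.prod_le_prod (fun _ _ => Nat.cast_nonneg _)
            intro j _
            have := hZκr j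
            have h0 : 0 ≤ (X : ℝ) ^ (g j).natDegree := by positivity
            nlinarith
        _ = _ := by
            rw [prod_mul_distrib, ← hPX]
            simp only [prod_const, card_univ, Fintype.card_fin]
    have hκp : (0 : ℝ) < (κ + 1) ^ r := by positivity
    rw [e3, mul_add]
    have e5 : (Wm X : ℝ) ^ r * (η / (2 * (κ + 1) ^ r) * ((∏ j, (Z j : ℝ)) / (Wm X : ℝ) ^ r)) ≤
        η / 2 * PX := by
      calc (Wm X : ℝ) ^ r * (η / (2 * (κ + 1) ^ r) * ((∏ j, (Z j : ℝ)) / (Wm X : ℝ) ^ r)) =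
          η / (2 * (κ + 1) ^ r) * ∏ j, (Z j : ℝ) := by field_simp
        _ ≤ η / (2 * (κ + 1) ^ r) * ((κ + 1) ^ r * PX) :=
            mul_le_mul_of_nonneg_left e4 (by positivity)
        _ = _ := by field_simp
    have e6 : (Wm X : ℝ) ^ r * (PX / Real.log X ^ (r + 1)) ≤ η / 2 * PX := by
      have e7 : (Wm X : ℝ) ^ r ≤ Real.log X ^ r := pow_le_pow_left₀ hW0.le hWl r
      have e8 : 1 ≤ η / 2 * Real.log X := by
        rw [div_le_iff₀ hη] at hl2
        linarith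
      calc (Wm X : ℝ) ^ r * (PX / Real.log X ^ (r + 1)) ≤
          Real.log X ^ r * (PX / Real.log X ^ (r + 1)) :=
            mul_le_mul_of_nonneg_right e7 (by positivity)
        _ = PX * (1 / Real.log X) := by
            rw [pow_succ]
            field_simp
        _ ≤ PX * (η / 2) := by
            apply mul_le_mul_of_nonneg_left _ hPX0.le
            rw [div_le_iff₀ (by linarith)]
            exact e8
        _ = _ := by ring
    linarith
  · intro N hN hNB hLoc hNV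
    rw [Fintype.mem_piFinset] at hN
    have hs : ∀ j, N j % Wm X < Wm X := fun j => Nat.mod_lt _ (Wm_pos X)
    obtain ⟨b, hb1, hb2, hb3, hb4⟩ := exists_classQ g U V pv hpv hinj hUV
      (fun j => (N j : ℤ) - Y j) X hLoc hNV
    refine (hBd (fun j => N j % Wm X)).2 hs ⟨b, hb1, hb2, ?_, ?_⟩ N ?_ ?_
    · intro j N' hN' l hl hlW hdv
      apply hb3 j l hl hlW
      unfold IA at hN'
      rw [mem_filter] at hN'
      have h3 : (l : ℤ) ∣ (N j : ℤ) - N' := by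
        have h4 : N' ≡ N j [MOD l] := by
          have h5 : N' ≡ N j [MOD Wm X] := hN'.2
          exact h5.of_dvd hlW
        exact Nat.modEq_iff_dvd.1 h4
      have h6 : ((N j : ℤ) - Y j) + 1 * (g j).eval (b : ℤ) =
          (((N' : ℤ) - Y j) + 1 * (g j).eval (b : ℤ)) + ((N j : ℤ) - N') := by ring
      rw [h6]
      exact hdv.add h3
    · intro v hv
      exact hb4 v hv ((Finset.le_sup (f := pv) hv).trans hH3)
    · rw [Fintype.mem_piFinset]
      intro j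
      unfold IA
      rw [mem_filter]
      exact ⟨hN j, rfl⟩
    · intro hcon
      apply hNB
      rw [mem_biUnion]
      refine ⟨fun j => N j % Wm X, ?_, hcon⟩
      rw [hSS, Fintype.mem_piFinset]
      exact fun j => mem_range.2 (hs j)

end Pool.Agent.TH882.RQ
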