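import Pool.Agent.TH882.R8

/-! Consecutive primes in an exact pattern and prime values of shifted polynomials. -/

set_option autoImplicit false

open Finset Filter Topology Polynomial

namespace Pool.Agent.TH882.RQ

open Pool.Agent.H373R2.T7 (cf abs_eval_le)
open Pool.Agent.TH882.PC (cnt_Ico)

/-- the primes between `n + min H` and `n + max H` are the `n + h`, `h ∈ H` -/
def Consec (H : Finset ℕ) (n : ℕ) : Prop := (∀ h ∈ H, (n + h).Prime) ∧
  ∀ w, (∃ h ∈ H, h ≤ w) → (∃ h ∈ H, w ≤ h) → (n + w).Prime → w ∈ H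

lemma initial (m : ℕ) (Q : Finset ℕ) (h : m ≤ Q.card) :
    ∃ H ⊆ Q, H.card = m ∧ ∀ q ∈ Q, q ∉ H → ∀ x ∈ H, x < q := by
  classical
  induction hk : Q.card - m generalizing Q with
  | zero => exact ⟨Q, Subset.rfl, by omega, fun q hq hq' => absurd hq hq'⟩
  | succ k ih =>
    have hne : Q.Nonempty := by
      rw [← card_pos]
      omega
    have hc := card_erase_of_mem (Q.max'_mem hne)
    obtain ⟨H, h1, h2, h3⟩ := ih (Q.erase (Q.max' hne)) (by omega) (by omega)
    refine ⟨H, h1.trans (erase_subset _ _), h2, ?_⟩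
    intro q hq hqH x hx
    by_cases hqm : q = Q.max' hne
    · have hx' := h1 hx
      rw [mem_erase] at hx'
      rw [hqm]
      exact lt_of_le_of_ne (Q.le_max' x hx'.2) hx'.1
    · exact h3 q (mem_erase.2 ⟨hqm, hq⟩) hqH x hx

lemma cnt_dvd (M p : ℕ) (hp : 0 < p) (c : ℤ) :
    (((Icc 1 M).filter (fun k : ℕ => (p : ℤ) ∣ (k : ℤ) + c)).card : ℝ) ≤ (M : ℝ) / p + 1 := by
  classical
  have hp0 : (0 : ℤ) < p := by exact_mod_cast hp
  have h1 := cnt_Ico 1 (M + 1) p ((-c) % p).toNat (by omega) hp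
  have h2 : (Icc 1 M).filter (fun k : ℕ => (p : ℤ) ∣ (k : ℤ) + c) ⊆
      (Ico 1 (M + 1)).filter (fun n => n ≡ ((-c) % p).toNat [MOD p]) := by
    intro k hk
    rw [mem_filter, mem_Icc] at hk
    rw [mem_filter, mem_Ico]
    refine ⟨by omega, ?_⟩
    have h3 : (((-c) % (p : ℤ)).toNat : ℤ) = (-c) % p :=
      Int.toNat_of_nonneg (Int.emod_nonneg _ hp0.ne')
    have h4 : (p : ℤ) ∣ (((-c) % (p : ℤ)).toNat : ℤ) - k := by
      rw [h3]
      have h5 : (p : ℤ) ∣ (-c) - (-c) % p := Int.dvd_self_sub_emod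
      have h6 : (-c) % (p : ℤ) - k = -((k : ℤ) + c) - ((-c) - (-c) % p) := by ring
      rw [h6]
      exact hk.2.neg_right.sub h5
    exact Nat.modEq_iff_dvd.2 h4
  have h3 : (((Icc 1 M).filter (fun k : ℕ => (p : ℤ) ∣ (k : ℤ) + c)).card : ℝ) ≤
      (((Ico 1 (M + 1)).filter (fun n => n ≡ ((-c) % p).toNat [MOD p])).card : ℝ) := by
    exact_mod_cast card_le_card h2
  have h4 := (abs_le.1 h1).2
  push_cast at h4
  have h5 : ((M : ℝ) + 1 - 1) / p = M / p := by ring
  rw [h5] at h4
  linarith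

open Classical in
/-- the integers with consecutive primes in the pattern `H` and prime values of the shifted
polynomials -/
noncomputable def CQ {r : ℕ} (g : Fin r → ℤ[X]) (H : Finset ℕ) (N : Fin r → ℤ) (x : ℕ) : Finset ℕ :=
  (Ico 1 x).filter (fun n => Consec H n ∧ ∀ j, (N j + 1 * (g j).eval (n : ℤ)).toNat.Prime)

open Classical in
/-- the exceptional vectors -/
noncomputable def ExQ {r : ℕ} (g : Fin r → ℤ[X]) (U : Finset ℕ) (m D κ x : ℕ) :
    Finset (Fin r → ℕ) :=
  (Fintype.piFinset (fun j => Icc 1 (κ * x ^ (g j).natDegree))).filter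
    (fun k : Fin r → ℕ => LocQ g U (fun j => (k j : ℤ)) ∧
    ¬ ∃ H ⊆ U, H.card = m ∧
      (x : ℝ) / Real.log x ^ D ≤ ((CQ g H (fun j => (k j : ℤ)) x).card : ℝ))

theorem finQ (m : ℕ) : ∃ K : ℕ, 1 ≤ K ∧ ∀ {r : ℕ} (g : Fin r → ℤ[X]) (_ : ∀ j, 1 ≤ (g j).natDegree)
    (_ : ∀ j, 0 < (g j).leadingCoeff) (U : Finset ℕ), U.card = 4 * (m + 1) * K →
    (∀ u ∈ U, 1 ≤ u) → ∃ D : ℕ, ∀ κ : ℕ, Tendsto (fun x : ℕ =>
      ((ExQ g U m D κ x).card : ℝ) / ∏ j, (x : ℝ) ^ (g j).natDegree) atTop (𝓝 0) := by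
  classical
  obtain ⟨K, hK, hcore⟩ := coreQ m
  refine ⟨K, hK, ?_⟩
  intro r g hd hl U hUc hU1
  obtain ⟨D, h⟩ := hcore g hd hl U hUc hU1
  refine ⟨D + 1, ?_⟩
  intro κ
  rw [Metric.tendsto_atTop]
  intro ε hε
  set A0 : ℕ := U.sup id with hA0
  have hUA : ∀ u ∈ U, u ≤ A0 := fun u hu => Finset.le_sup (f := id) hu
  set V : Finset ℕ := (range (A0 + 1)) \ U with hV
  set cV : ℝ := (V.card : ℝ) * r * (κ + 1) ^ r with hcV
  have hcV0 : 0 ≤ cV := by rw [hcV]; positivity
  set B : ℕ := A0 + ⌈8 * cV * (κ + 1) / ε⌉₊ + 1 with hB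
  set pv : ℕ → ℕ := fun v => Nat.nth Nat.Prime (B + v) with hpv
  have hpvP : ∀ v, (pv v).Prime := fun v => Nat.prime_nth_prime _
  have hpvB : ∀ v, B < pv v := by
    intro v
    have := Nat.add_two_le_nth_prime (B + v)
    rw [hpv]
    simp only
    omega
  have hpvinj : Set.InjOn pv V := by
    intro v _ v' _ he
    have := Nat.nth_injective Nat.infinite_setOf_prime he
    omega
  have hUV : ∀ v ∈ V, ∀ u ∈ U, ¬ ((pv v : ℕ) : ℤ) ∣ (u : ℤ) - v := by
    intro v hv u hu hdv
    rw [hV, Finset.mem_sdiff, mem_range] at hv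
    have h1 := hUA u hu
    have h2 := hpvB v
    have hne : (u : ℤ) - v ≠ 0 := by
      intro h3
      apply hv.2
      have : u = v := by omega
      rwa [← this]
    have h4 := Int.le_of_dvd (abs_pos.2 hne) ((dvd_abs _ _).2 hdv)
    have h5 : |(u : ℤ) - v| ≤ A0 := by
      rw [abs_le]
      omega
    omega
  set κ1 : ℕ := ∑ j, (cf (g j) * 3 ^ (g j).natDegree + κ * 4 ^ (g j).natDegree + 2) with hκ1
  have hκj : ∀ j, cf (g j) * 3 ^ (g j).natDegree + κ * 4 ^ (g j).natDegree + 2 ≤ κ1 := fun j =>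
    Finset.single_le_sum
      (f := fun j => cf (g j) * 3 ^ (g j).natDegree + κ * 4 ^ (g j).natDegree + 2)
      (fun _ _ => Nat.zero_le _) (mem_univ j)
  obtain ⟨X1, h1⟩ := h κ1 (ε / 4) (by positivity) V pv (fun v _ => hpvP v) hpvinj hUV
  choose n0 hn0 using fun j => Pool.Agent.TH882.PA.pos (g j) (hd j) (hl j) 0
  have hlogt : Tendsto (fun X : ℕ => Real.log (X : ℝ)) atTop atTop :=
    Real.tendsto_log_atTop.comp tendsto_natCast_atTop_atTop
  obtain ⟨X2, h2⟩ := eventually_atTop.1 (hlogt.eventually_ge_atTop (4 : ℝ))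
  refine ⟨3 * (X1 + X2 + univ.sup n0 + 3) + ⌈8 * cV / ε⌉₊, ?_⟩
  intro x hx
  set X : ℕ := x / 3 with hX
  have hX3 : 3 * X ≤ x := by omega
  have hXX : X1 + X2 + univ.sup n0 + 3 ≤ X := by omega
  have hx4 : x ≤ 4 * X := by omega
  have hl4 := h2 X (by omega)
  have hXr : (3 : ℝ) ≤ X := by
    have : 3 ≤ X := by omega
    exact_mod_cast this
  have hxr : (0 : ℝ) < x := by
    have : 0 < x := by omega
    exact_mod_cast this
  have hxε : 8 * cV / ε ≤ x := by
    have e1 : (⌈8 * cV / ε⌉₊ : ℝ) ≤ x := by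
      have : ⌈8 * cV / ε⌉₊ ≤ x := by omega
      exact_mod_cast this
    exact (Nat.le_ceil _).trans e1
  set PX : ℝ := ∏ j, (x : ℝ) ^ (g j).natDegree with hPX
  have hPX0 : 0 < PX := prod_pos fun j _ => by positivity
  -- the vectors in bad residue classes
  set I : Fin r → Finset ℕ := fun j => Icc 1 (κ * x ^ (g j).natDegree) with hI
  set F : ℕ → Fin r → Finset (Fin r → ℕ) := fun v j => (Fintype.piFinset I).filter
    (fun k => ((pv v : ℕ) : ℤ) ∣ (k j : ℤ) + 1 * (g j).eval (-(v : ℤ))) with hF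
  have hFc : ∀ v j, ((F v j).card : ℝ) ≤ ((κ : ℝ) / B + 1 / x) * ((κ + 1) ^ r * PX) := by
    intro v j
    have e1 : F v j ⊆ Fintype.piFinset (Function.update I j ((I j).filter
        (fun k : ℕ => ((pv v : ℕ) : ℤ) ∣ (k : ℤ) + 1 * (g j).eval (-(v : ℤ))))) := by
      intro k hk
      rw [hF, mem_filter, Fintype.mem_piFinset] at hk
      rw [Fintype.mem_piFinset]
      intro i
      by_cases hi : i = j
      · subst hi
        rw [Function.update_self, mem_filter]
        exact ⟨hk.1 i, hk.2⟩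
      · rw [Function.update_of_ne hi]
        exact hk.1 i
    have e2 := card_le_card e1
    rw [Fintype.card_piFinset, ← mul_prod_erase univ _ (mem_univ j), Function.update_self] at e2
    have e3 : ∏ i ∈ univ.erase j, (Function.update I j ((I j).filter
        (fun k : ℕ => ((pv v : ℕ) : ℤ) ∣ (k : ℤ) + 1 * (g j).eval (-(v : ℤ)))) i).card =
        ∏ i ∈ univ.erase j, κ * x ^ (g i).natDegree := by
      apply prod_congr rfl
      intro i hi
      rw [Function.update_of_ne (ne_of_mem_erase hi), hI]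
      simp
    rw [e3] at e2
    have e4 : ((F v j).card : ℝ) ≤ (((I j).filter
        (fun k : ℕ => ((pv v : ℕ) : ℤ) ∣ (k : ℤ) + 1 * (g j).eval (-(v : ℤ)))).card : ℝ) *
        ∏ i ∈ univ.erase j, ((κ : ℝ) * (x : ℝ) ^ (g i).natDegree) := by
      exact_mod_cast e2
    refine e4.trans ?_
    have hB0 : (0 : ℝ) < B := by
      have : 0 < B := by omega
      exact_mod_cast this
    have hκ0 : (0 : ℝ) ≤ κ := Nat.cast_nonneg _
    have e5 : (((I j).filter
        (fun k : ℕ => ((pv v : ℕ) : ℤ) ∣ (k : ℤ) + 1 * (g j).eval (-(v : ℤ)))).card : ℝ) ≤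
        ((κ : ℝ) / B + 1 / x) * (x : ℝ) ^ (g j).natDegree := by
      refine (cnt_dvd _ (pv v) (hpvP v).pos _).trans ?_
      push_cast
      have e6 : (κ : ℝ) * (x : ℝ) ^ (g j).natDegree / pv v ≤
          (κ : ℝ) * (x : ℝ) ^ (g j).natDegree / B := by
        apply div_le_div_of_nonneg_left (by positivity) hB0
        exact_mod_cast (hpvB v).le
      have e7 : 1 ≤ 1 / (x : ℝ) * (x : ℝ) ^ (g j).natDegree := by
        have e8 : (x : ℝ) ≤ (x : ℝ) ^ (g j).natDegree := by
          calc (x : ℝ) = x ^ 1 := (pow_one _).symm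
            _ ≤ x ^ (g j).natDegree := pow_le_pow_right₀ (by
                have : 1 ≤ x := by omega
                exact_mod_cast this) (hd j)
        rw [one_div, inv_mul_eq_div, le_div_iff₀ hxr, one_mul]
        exact e8
      calc (κ : ℝ) * (x : ℝ) ^ (g j).natDegree / pv v + 1 ≤
          (κ : ℝ) * (x : ℝ) ^ (g j).natDegree / B + 1 / (x : ℝ) * (x : ℝ) ^ (g j).natDegree :=
            add_le_add e6 e7
        _ = _ := by ring
    have e9 : ∏ i ∈ univ.erase j, ((κ : ℝ) * (x : ℝ) ^ (g i).natDegree) ≤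
        (κ + 1) ^ r * ∏ i ∈ univ.erase j, (x : ℝ) ^ (g i).natDegree := by
      rw [prod_mul_distrib, prod_const]
      apply mul_le_mul_of_nonneg_right _ (prod_nonneg fun i _ => by positivity)
      calc (κ : ℝ) ^ (univ.erase j).card ≤ (κ + 1) ^ (univ.erase j).card :=
            pow_le_pow_left₀ hκ0 (by linarith) _
        _ ≤ (κ + 1) ^ r := by
            apply pow_le_pow_right₀ (by linarith)
            calc (univ.erase j).card ≤ (univ : Finset (Fin r)).card := card_le_card (erase_subset _ _)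
              _ = r := by simp
    calc _ ≤ (((κ : ℝ) / B + 1 / x) * (x : ℝ) ^ (g j).natDegree) *
          ((κ + 1) ^ r * ∏ i ∈ univ.erase j, (x : ℝ) ^ (g i).natDegree) :=
          mul_le_mul e5 e9 (prod_nonneg fun i _ => by positivity) (by positivity)
      _ = ((κ : ℝ) / B + 1 / x) * ((κ + 1) ^ r *
          ((x : ℝ) ^ (g j).natDegree * ∏ i ∈ univ.erase j, (x : ℝ) ^ (g i).natDegree)) := by ring
      _ = _ := by
          rw [mul_prod_erase univ (fun i => (x : ℝ) ^ (g i).natDegree) (mem_univ j)]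
  set Bad := V.biUnion (fun v => univ.biUnion (fun j => F v j)) with hBad
  have hBadc : (Bad.card : ℝ) ≤ ε / 4 * PX := by
    have e1 : (Bad.card : ℝ) ≤ ∑ v ∈ V, ∑ j, ((F v j).card : ℝ) := by
      rw [hBad]
      have : (V.biUnion (fun v => univ.biUnion (fun j => F v j))).card ≤
          ∑ v ∈ V, ∑ j, (F v j).card :=
        card_biUnion_le.trans (sum_le_sum fun v _ => card_biUnion_le)
      exact_mod_cast this
    have e2 : ∑ v ∈ V, ∑ j, ((F v j).card : ℝ) ≤
        (V.card : ℝ) * (r * (((κ : ℝ) / B + 1 / x) * ((κ + 1) ^ r * PX))) := by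
      calc ∑ v ∈ V, ∑ j, ((F v j).card : ℝ) ≤
          ∑ _v ∈ V, ∑ _j : Fin r, ((κ : ℝ) / B + 1 / x) * ((κ + 1) ^ r * PX) :=
            sum_le_sum fun v _ => sum_le_sum fun j _ => hFc v j
        _ = _ := by
            rw [sum_const, sum_const, nsmul_eq_mul, nsmul_eq_mul]
            simp
    refine e1.trans (e2.trans ?_)
    have e3 : (V.card : ℝ) * (r * (((κ : ℝ) / B + 1 / x) * ((κ + 1) ^ r * PX))) =
        (cV * κ / B + cV / x) * PX := by
      rw [hcV]
      ring
    rw [e3]
    apply mul_le_mul_of_nonneg_right _ hPX0.le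
    have hB0 : (0 : ℝ) < B := by
      have : 0 < B := by omega
      exact_mod_cast this
    have e4 : cV * κ / B ≤ ε / 8 := by
      rw [div_le_iff₀ hB0]
      have e5 : 8 * cV * (κ + 1) / ε ≤ B := by
        have e6 : (⌈8 * cV * (κ + 1) / ε⌉₊ : ℝ) ≤ B := by
          have : ⌈8 * cV * (κ + 1) / ε⌉₊ ≤ B := by omega
          exact_mod_cast this
        exact (Nat.le_ceil _).trans e6
      rw [div_le_iff₀ hε] at e5
      nlinarith
    have e5 : cV / x ≤ ε / 8 := by
      rw [div_le_iff₀ hxr]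
      rw [div_le_iff₀ hε] at hxε
      linarith
    linarith
  set Y : Fin r → ℕ := fun j => cf (g j) * (3 * X) ^ (g j).natDegree with hY
  have hXd : ∀ j, X ≤ X ^ (g j).natDegree := by
    intro j
    calc X = X ^ 1 := (pow_one _).symm
      _ ≤ X ^ (g j).natDegree := Nat.pow_le_pow_right (by omega) (hd j)
  obtain ⟨Bd, hB1, hB2⟩ := h1 X (by omega) Y (fun j => Y j + 1)
    (fun j => Y j + 1 + κ * x ^ (g j).natDegree + X) (by
      intro j n hn1 hn2
      have hnj : n0 j ≤ univ.sup n0 := Finset.le_sup (f := n0) (mem_univ j)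
      have e1 := hn0 j n (by omega)
      have e2 := abs_eval_le (g j) n (by omega)
      have e3 : (g j).eval (n : ℤ) ≤ Y j := by
        calc (g j).eval (n : ℤ) ≤ |(g j).eval (n : ℤ)| := le_abs_self _
          _ ≤ (cf (g j) : ℤ) * (n : ℤ) ^ (g j).natDegree := e2
          _ ≤ (Y j : ℤ) := by
              have : cf (g j) * n ^ (g j).natDegree ≤ Y j :=
                Nat.mul_le_mul_left _ (Nat.pow_le_pow_left hn2 _)
              exact_mod_cast this
      constructor
      · linarith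
      · push_cast
        linarith) (fun j => by omega) (fun j => by omega) (by
      intro j
      have e1 : Y j = cf (g j) * 3 ^ (g j).natDegree * X ^ (g j).natDegree := by
        rw [hY]; simp only; rw [mul_pow]; ring
      have e2 : κ * x ^ (g j).natDegree ≤ κ * 4 ^ (g j).natDegree * X ^ (g j).natDegree := by
        calc κ * x ^ (g j).natDegree ≤ κ * (4 * X) ^ (g j).natDegree :=
              Nat.mul_le_mul_left _ (Nat.pow_le_pow_left hx4 _)
          _ = _ := by rw [mul_pow]; ring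
      have e3 : (cf (g j) * 3 ^ (g j).natDegree + κ * 4 ^ (g j).natDegree + 2) *
          X ^ (g j).natDegree =
          cf (g j) * 3 ^ (g j).natDegree * X ^ (g j).natDegree +
            κ * 4 ^ (g j).natDegree * X ^ (g j).natDegree + 2 * X ^ (g j).natDegree := by ring
      have e5 := Nat.mul_le_mul_right (X ^ (g j).natDegree) (hκj j)
      have e4 : 1 ≤ X ^ (g j).natDegree := Nat.one_le_pow _ _ (by omega)
      have e6 := hXd j
      rw [e3] at e5
      rw [e1]
      omega)
  have hsub : (ExQ g U m (D + 1) κ x \ Bad).image (fun k => fun j => k j + Y j) ⊆ Bd := by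
    intro N hN
    rw [mem_image] at hN
    obtain ⟨k, hk, rfl⟩ := hN
    rw [Finset.mem_sdiff] at hk
    obtain ⟨hk, hkBad⟩ := hk
    unfold ExQ at hk
    rw [mem_filter] at hk
    obtain ⟨hk0, hLoc, hno⟩ := hk
    have hk1 := Fintype.mem_piFinset.1 hk0
    by_contra hcon
    have e0 : (fun j => ((k j + Y j : ℕ) : ℤ) - Y j) = fun j => (k j : ℤ) := by
      funext j
      push_cast
      ring
    obtain ⟨Q, hQU, hQc, e1⟩ := hB2 (fun j => k j + Y j) (by
      rw [Fintype.mem_piFinset]
      intro j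
      have := mem_Icc.1 (hk1 j)
      exact mem_Ico.2 ⟨by omega, by omega⟩) hcon (by
      rw [e0]
      exact hLoc) (by
      intro v hv j hdv
      apply hkBad
      rw [hBad, mem_biUnion]
      refine ⟨v, hv, ?_⟩
      rw [mem_biUnion]
      refine ⟨j, mem_univ _, ?_⟩
      rw [hF, mem_filter]
      refine ⟨hk0, ?_⟩
      have e2 : ((k j + Y j : ℕ) : ℤ) - Y j = (k j : ℤ) := by
        push_cast
        ring
      rw [e2] at hdv
      exact hdv)
    rw [e0] at e1
    obtain ⟨H, hH1, hH2, hH3⟩ := initial m Q (by omega)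
    apply hno
    refine ⟨H, hH1.trans hQU, hH2, ?_⟩
    have e2 : ((Pool.Agent.TH882.RQ.RepV g U V Q X (fun j => (k j : ℤ))).card : ℝ) ≤
        ((CQ g H (fun j => (k j : ℤ)) x).card : ℝ) := by
      apply Nat.cast_le.2
      apply card_le_card
      intro n hn
      unfold RepV at hn
      rw [mem_filter, mem_Ico] at hn
      obtain ⟨hn1, hn2, hn3, hn4⟩ := hn
      unfold CQ
      rw [mem_filter, mem_Ico]
      refine ⟨by omega, ⟨?_, ?_⟩, hn4⟩
      · intro h hh
        exact (hn2 h (hQU (hH1 hh))).2 (hH1 hh)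
      · rintro w - ⟨h, hh, hwh⟩ hwp
        have hwA : w ≤ A0 := hwh.trans (hUA h (hQU (hH1 hh)))
        by_cases hwU : w ∈ U
        · have hwQ := (hn2 w hwU).1 hwp
          by_contra hwH
          have := hH3 w hwQ hwH h hh
          omega
        · exact absurd hwp (hn3 w (by
            rw [hV, Finset.mem_sdiff, mem_range]
            exact ⟨by omega, hwU⟩))
    refine le_trans ?_ (e1.trans e2)
    have e3 : Real.log X ≤ Real.log x := by
      apply Real.log_le_log (by linarith)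
      have : X ≤ x := by omega
      exact_mod_cast this
    have e4 : (x : ℝ) ≤ 4 * X := by exact_mod_cast hx4
    have hlX : 0 < Real.log X := by linarith
    calc (x : ℝ) / Real.log x ^ (D + 1) ≤ 4 * X / Real.log X ^ (D + 1) :=
          div_le_div₀ (by positivity) e4 (by positivity) (pow_le_pow_left₀ hlX.le e3 _)
      _ ≤ (X : ℝ) / Real.log X ^ D := by
          rw [div_le_div_iff₀ (by positivity) (by positivity), pow_succ (Real.log X) D]
          have e5 : 0 ≤ (X : ℝ) * Real.log X ^ D := by positivity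
          have e6 := mul_le_mul_of_nonneg_left hl4 e5
          linarith
  have hXx : ∏ j, (X : ℝ) ^ (g j).natDegree ≤ PX := by
    apply Finset.prod_le_prod (fun _ _ => by positivity)
    intro j _
    apply pow_le_pow_left₀ (by linarith)
    have : X ≤ x := by omega
    exact_mod_cast this
  have hcard : ((ExQ g U m (D + 1) κ x).card : ℝ) ≤ ε / 2 * PX := by
    have e1 := card_le_card hsub
    rw [card_image_of_injective _ (by
      intro a b hab
      funext j
      have := congrFun hab j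
      simpa using this)] at e1
    have e2 : (ExQ g U m (D + 1) κ x).card ≤ (ExQ g U m (D + 1) κ x \ Bad).card + Bad.card := by
      calc (ExQ g U m (D + 1) κ x).card ≤ ((ExQ g U m (D + 1) κ x \ Bad) ∪ Bad).card := by
            apply card_le_card
            intro k hk
            by_cases hkB : k ∈ Bad
            · exact mem_union_right _ hkB
            · exact mem_union_left _ (Finset.mem_sdiff.2 ⟨hk, hkB⟩)
        _ ≤ _ := card_union_le _ _
    have e3 : ((ExQ g U m (D + 1) κ x).card : ℝ) ≤ Bd.card + Bad.card := by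
      exact_mod_cast e2.trans (Nat.add_le_add_right e1 _)
    have e4 : ε / 4 * ∏ j, (X : ℝ) ^ (g j).natDegree ≤ ε / 4 * PX :=
      mul_le_mul_of_nonneg_left hXx (by positivity)
    linarith
  rw [Real.dist_eq, sub_zero, abs_of_nonneg (by positivity), div_lt_iff₀ hPX0]
  nlinarith

end Pool.Agent.TH882.RQ
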