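import Pool.Agent.TH882.S8
import Pool.Agent.TH882.R9

/-! Consecutive primes in an exact pattern as common summands. -/

set_option autoImplicit false

open Finset Filter Topology

namespace Pool.Agent.TH882.RS

open Pool.Agent.TH882.RQ (Consec initial cnt_dvd)

/-- the local condition -/
def LocG {r : ℕ} (U : Finset ℕ) (N : Fin r → ℕ) : Prop :=
  ∀ l : ℕ, l.Prime → ∃ x : ℤ, (∀ u ∈ U, ¬ (l : ℤ) ∣ x + u) ∧ ∀ j, ¬ (l : ℤ) ∣ (N j : ℤ) - x

open Classical in
/-- the integers `n` with consecutive primes in the pattern `H` and all `N j - n` prime -/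
noncomputable def CG {r : ℕ} (H : Finset ℕ) (N : Fin r → ℕ) (x : ℕ) : Finset ℕ :=
  (Ico 1 x).filter (fun n => Consec H n ∧ ∀ j, n < N j ∧ (N j - n).Prime)

open Classical in
/-- the exceptional vectors -/
noncomputable def ExG (U : Finset ℕ) (m r D κ x : ℕ) : Finset (Fin r → ℕ) :=
  (Fintype.piFinset (fun _ : Fin r => Icc 1 (κ * x))).filter
    (fun N : Fin r → ℕ => LocG U N ∧
    ¬ ∃ H ⊆ U, H.card = m ∧ (x : ℝ) / Real.log x ^ D ≤ ((CG H N x).card : ℝ))

/-- vectors with one restricted coordinate -/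
lemma one_coord {r : ℕ} (j : Fin r) (M : ℕ) (P : ℕ → Prop) [DecidablePred P] (B : ℝ)
    (hB : (((Icc 1 M).filter P).card : ℝ) ≤ B) (hM : (0 : ℝ) ≤ B) :
    (((Fintype.piFinset (fun _ : Fin r => Icc 1 M)).filter (fun N => P (N j))).card : ℝ) ≤
      B * (M + 1 : ℝ) ^ (r - 1) := by
  classical
  have e1 : (Fintype.piFinset (fun _ : Fin r => Icc 1 M)).filter (fun N => P (N j)) ⊆
      Fintype.piFinset (Function.update (fun _ : Fin r => Icc 1 M) j ((Icc 1 M).filter P)) := by
    intro k hk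
    rw [mem_filter, Fintype.mem_piFinset] at hk
    rw [Fintype.mem_piFinset]
    intro i
    by_cases hi : i = j
    · subst hi
      rw [Function.update_self, mem_filter]
      exact ⟨hk.1 i, hk.2⟩
    · rw [Function.update_of_ne hi]
      exact hk.1 i
  have e2 := card_le_card e1
  rw [Fintype.card_piFinset, ← mul_prod_erase univ _ (mem_univ j), Function.update_self] at e2
  have e3 : ∏ i ∈ univ.erase j, (Function.update (fun _ : Fin r => Icc 1 M) j
      ((Icc 1 M).filter P) i).card = M ^ (r - 1) := by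
    have e4 : ∀ i ∈ univ.erase j, (Function.update (fun _ : Fin r => Icc 1 M) j
        ((Icc 1 M).filter P) i).card = M := by
      intro i hi
      rw [Function.update_of_ne (ne_of_mem_erase hi)]
      simp
    rw [prod_congr rfl e4, prod_const, card_erase_of_mem (mem_univ j), card_univ, Fintype.card_fin]
  rw [e3] at e2
  have e4 : (((Fintype.piFinset (fun _ : Fin r => Icc 1 M)).filter (fun N => P (N j))).card : ℝ) ≤
      (((Icc 1 M).filter P).card : ℝ) * (M : ℝ) ^ (r - 1) := by exact_mod_cast e2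
  refine e4.trans ?_
  apply mul_le_mul hB _ (by positivity) hM
  apply pow_le_pow_left₀ (by positivity)
  linarith

theorem finG (m : ℕ) : ∃ K : ℕ, 1 ≤ K ∧ ∀ (r : ℕ) (U : Finset ℕ), U.card = 4 * (m + 1) * K →
    (∀ u ∈ U, 1 ≤ u) → ∃ D : ℕ, ∀ κ : ℕ, Tendsto (fun x : ℕ =>
      ((ExG U m r D κ x).card : ℝ) / (x : ℝ) ^ r) atTop (𝓝 0) := by
  classical
  obtain ⟨K, hK, hcore⟩ := coreQ m
  refine ⟨K, hK, ?_⟩
  intro r U hUc hU1
  set g : Fin r → Polynomial ℤ := fun _ => Polynomial.X with hg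
  set σ : Fin r → ℤ := fun _ => -1 with hσ
  have hgd : ∀ j, (g j).natDegree = 1 := fun j => Polynomial.natDegree_X
  have hge : ∀ j, ∀ n : ℤ, (g j).eval n = n := fun j n => by rw [hg]; simp
  have hgs : ∀ j, ∀ a n : ℤ, a + σ j * (g j).eval n = a - n := fun j a n => by
    rw [hge j n]
    have : σ j = -1 := rfl
    rw [this]
    ring
  have hgs' : ∀ j, ∀ a n : ℤ, a - σ j * (g j).eval n = a + n := fun j a n => by
    rw [hge j n]
    have : σ j = -1 := rfl
    rw [this]
    ring
  obtain ⟨D, h⟩ := hcore σ (fun _ => Or.inr rfl) g (fun j => (hgd j).ge) (fun j => by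
    rw [hg]
    simp only
    rw [Polynomial.leadingCoeff_X]
    exact one_pos) U hUc hU1
  refine ⟨D + 1, ?_⟩
  intro κ
  rw [Metric.tendsto_atTop]
  intro ε hε
  set A0 : ℕ := U.sup id with hA0
  have hUA : ∀ u ∈ U, u ≤ A0 := fun u hu => Finset.le_sup (f := id) hu
  set V : Finset ℕ := (range (A0 + 1)) \ U with hV
  have hκr : (0 : ℝ) ≤ κ := Nat.cast_nonneg _
  set cV : ℝ := ((V.card : ℝ) * r + r) * (κ + 1) ^ r with hcV
  have hcV0 : 0 ≤ cV := by rw [hcV]; positivity
  set B : ℕ := A0 + ⌈16 * cV * (κ + 1) / ε⌉₊ + 1 with hB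
  have hB0 : (0 : ℝ) < B := by
    have : 0 < B := by omega
    exact_mod_cast this
  have hBε : 16 * cV * (κ + 1) / ε ≤ B := by
    have e6 : (⌈16 * cV * (κ + 1) / ε⌉₊ : ℝ) ≤ B := by
      have : ⌈16 * cV * (κ + 1) / ε⌉₊ ≤ B := by omega
      exact_mod_cast this
    exact (Nat.le_ceil _).trans e6
  set pv : ℕ → ℕ := fun v => Nat.nth Nat.Prime (B + v) with hpv
  have hpvP : ∀ v, (pv v).Prime := fun v => Nat.prime_nth_prime _
  have hpvB : ∀ v, B < pv v := by
    intro v
    have := Nat.add_two_le_nth_prime (B + v)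
    rw [hpv]
    simp only
    omega
  have hpvinj : Set.InjOn pv V := by
    intro v _ v' _ he
    have := Nat.nth_injective Nat.infinite_setOf_prime he
    omega
  have hUV : ∀ v ∈ V, ∀ u ∈ U, ¬ ((pv v : ℕ) : ℤ) ∣ (u : ℤ) - v := by
    intro v hv u hu hdv
    rw [hV, Finset.mem_sdiff, mem_range] at hv
    have h1 := hUA u hu
    have h2 := hpvB v
    have hne : (u : ℤ) - v ≠ 0 := by
      intro h3
      apply hv.2
      have : u = v := by omega
      rwa [← this]
    have h4 := Int.le_of_dvd (abs_pos.2 hne) ((dvd_abs _ _).2 hdv)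
    have h5 : |(u : ℤ) - v| ≤ A0 := by
      rw [abs_le]
      omega
    omega
  -- the range of `n`
  set T0 : ℕ := 4 * B with hT0
  have hT04 : 4 ≤ T0 := by omega
  set κ1 : ℕ := 2 * κ * T0 + 6 with hκ1
  obtain ⟨X1, h1⟩ := h κ1 (ε / 4) (by positivity) V pv (fun v _ => hpvP v) hpvinj hUV
  have hlogt : Tendsto (fun X : ℕ => Real.log (X : ℝ)) atTop atTop :=
    Real.tendsto_log_atTop.comp tendsto_natCast_atTop_atTop
  obtain ⟨X2, h2⟩ := eventually_atTop.1 (hlogt.eventually_ge_atTop (2 * T0 : ℝ))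
  refine ⟨T0 * (X1 + X2 + 3) + ⌈16 * cV / ε⌉₊ + B, ?_⟩
  intro x hx
  set X : ℕ := x / T0 with hX
  have hT00 : 0 < T0 := by omega
  have hXx : X * T0 ≤ x := Nat.div_mul_le_self x T0
  have hXX : X1 + X2 + 3 ≤ X := by
    rw [hX, Nat.le_div_iff_mul_le hT00]
    calc (X1 + X2 + 3) * T0 = T0 * (X1 + X2 + 3) := by ring
      _ ≤ x := by omega
  have hxX : x < T0 * (X + 1) := Nat.lt_mul_div_succ x hT00
  have hx2 : x ≤ 2 * T0 * X := by
    calc x ≤ T0 * (X + 1) := hxX.le
      _ ≤ T0 * (2 * X) := Nat.mul_le_mul_left _ (by omega)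
      _ = 2 * T0 * X := by ring
  have hX4 : 4 * X ≤ x := by
    calc 4 * X = X * 4 := by ring
      _ ≤ X * T0 := Nat.mul_le_mul_left _ hT04
      _ ≤ x := hXx
  have hl4 := h2 X (by omega)
  have hXr : (3 : ℝ) ≤ X := by
    have : 3 ≤ X := by omega
    exact_mod_cast this
  have hxr : (0 : ℝ) < x := by
    have : 0 < x := by omega
    exact_mod_cast this
  have hxr1 : (1 : ℝ) ≤ x := by
    have : 1 ≤ x := by omega
    exact_mod_cast this
  have hxε : 16 * cV / ε ≤ x := by
    have e1 : (⌈16 * cV / ε⌉₊ : ℝ) ≤ x := by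
      have : ⌈16 * cV / ε⌉₊ ≤ x := by omega
      exact_mod_cast this
    exact (Nat.le_ceil _).trans e1
  have hBx : (B : ℝ) ≤ x := by
    have : B ≤ x := by omega
    exact_mod_cast this
  -- the vectors in bad residue classes and those with a small coordinate
  set I : Finset (Fin r → ℕ) := Fintype.piFinset (fun _ : Fin r => Icc 1 (κ * x)) with hI
  set F : ℕ → Fin r → Finset (Fin r → ℕ) := fun v j => I.filter
    (fun k => ((pv v : ℕ) : ℤ) ∣ (k j : ℤ) + v) with hF
  set F2 : Fin r → Finset (Fin r → ℕ) := fun j => I.filter (fun k => k j ≤ 3 * X) with hF2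
  have hpow : ∀ _j : Fin r, (x : ℝ) * (((κ * x : ℕ) : ℝ) + 1) ^ (r - 1) ≤ (κ + 1) ^ r * (x : ℝ) ^ r := by
    intro j
    have hr : 0 < r := lt_of_le_of_lt (Nat.zero_le _) j.2
    have e1 : ((κ * x : ℕ) : ℝ) + 1 ≤ (κ + 1) * x := by
      push_cast
      nlinarith
    calc (x : ℝ) * (((κ * x : ℕ) : ℝ) + 1) ^ (r - 1) ≤ ((κ + 1) * x) * ((κ + 1) * x) ^ (r - 1) := by
          apply mul_le_mul _ (pow_le_pow_left₀ (by positivity) e1 _) (by positivity) (by positivity)
          nlinarith
      _ = ((κ + 1) * x) ^ r := by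
          rw [← pow_succ']
          congr 1
          omega
      _ = _ := mul_pow _ _ _
  have hFc : ∀ v j, ((F v j).card : ℝ) ≤ ((κ : ℝ) / B + 1 / x) * ((κ + 1) ^ r * (x : ℝ) ^ r) := by
    intro v j
    have e1 := one_coord j (κ * x) (fun k : ℕ => ((pv v : ℕ) : ℤ) ∣ (k : ℤ) + v)
      (((κ : ℝ) / B + 1 / x) * x) (by
        refine (cnt_dvd _ (pv v) (hpvP v).pos _).trans ?_
        push_cast
        have e6 : (κ : ℝ) * x / pv v ≤ (κ : ℝ) * x / B := by
          apply div_le_div_of_nonneg_left (by positivity) hB0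
          exact_mod_cast (hpvB v).le
        have e7 : (1 : ℝ) = 1 / (x : ℝ) * x := by
          field_simp
        calc (κ : ℝ) * x / pv v + 1 ≤ (κ : ℝ) * x / B + 1 / (x : ℝ) * x := by
              rw [← e7]
              linarith
          _ = _ := by ring) (by positivity)
    refine e1.trans ?_
    rw [mul_assoc]
    exact mul_le_mul_of_nonneg_left (hpow j) (by positivity)
  have hF2c : ∀ j, ((F2 j).card : ℝ) ≤ (1 / B) * ((κ + 1) ^ r * (x : ℝ) ^ r) := by
    intro j
    have e1 := one_coord j (κ * x) (fun k : ℕ => k ≤ 3 * X) ((1 / B : ℝ) * x) (by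
        have e2 : ((Icc 1 (κ * x)).filter (fun k : ℕ => k ≤ 3 * X)).card ≤ 3 * X := by
          calc _ ≤ (Icc 1 (3 * X)).card := by
                apply card_le_card
                intro k hk
                rw [mem_filter, mem_Icc] at hk
                rw [mem_Icc]
                omega
            _ = 3 * X := by simp
        have e3 : (((Icc 1 (κ * x)).filter (fun k : ℕ => k ≤ 3 * X)).card : ℝ) ≤ 3 * X := by
          exact_mod_cast e2
        have e4 : (X : ℝ) * (4 * B) ≤ x := by exact_mod_cast hXx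
        refine e3.trans ?_
        rw [one_div, inv_mul_eq_div, le_div_iff₀ hB0]
        nlinarith) (by positivity)
    refine e1.trans ?_
    rw [mul_assoc]
    exact mul_le_mul_of_nonneg_left (hpow j) (by positivity)
  set Bad := V.biUnion (fun v => univ.biUnion (fun j => F v j)) ∪ univ.biUnion F2 with hBad
  have hBadc : (Bad.card : ℝ) ≤ ε / 4 * (x : ℝ) ^ r := by
    have e1 : (Bad.card : ℝ) ≤ ∑ v ∈ V, ∑ j, ((F v j).card : ℝ) + ∑ j, ((F2 j).card : ℝ) := by
      rw [hBad]
      have : (V.biUnion (fun v => univ.biUnion (fun j => F v j)) ∪ univ.biUnion F2).card ≤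
          ∑ v ∈ V, ∑ j, (F v j).card + ∑ j, (F2 j).card :=
        (card_union_le _ _).trans (add_le_add
          (card_biUnion_le.trans (sum_le_sum fun v _ => card_biUnion_le)) card_biUnion_le)
      exact_mod_cast this
    have e2 : ∑ v ∈ V, ∑ j, ((F v j).card : ℝ) ≤
        (V.card : ℝ) * (r * (((κ : ℝ) / B + 1 / x) * ((κ + 1) ^ r * (x : ℝ) ^ r))) := by
      calc ∑ v ∈ V, ∑ j, ((F v j).card : ℝ) ≤
          ∑ _v ∈ V, ∑ _j : Fin r, ((κ : ℝ) / B + 1 / x) * ((κ + 1) ^ r * (x : ℝ) ^ r) :=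
            sum_le_sum fun v _ => sum_le_sum fun j _ => hFc v j
        _ = _ := by
            rw [sum_const, sum_const, nsmul_eq_mul, nsmul_eq_mul]
            simp
    have e2' : ∑ j, ((F2 j).card : ℝ) ≤ r * ((1 / B) * ((κ + 1) ^ r * (x : ℝ) ^ r)) := by
      calc ∑ j, ((F2 j).card : ℝ) ≤ ∑ _j : Fin r, (1 / B : ℝ) * ((κ + 1) ^ r * (x : ℝ) ^ r) :=
            sum_le_sum fun j _ => hF2c j
        _ = _ := by
            rw [sum_const, nsmul_eq_mul]
            simp
    refine e1.trans ((add_le_add e2 e2').trans ?_)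
    have hx0 : 0 < (x : ℝ) ^ r := by positivity
    have e3 : (V.card : ℝ) * (r * (((κ : ℝ) / B + 1 / x) * ((κ + 1) ^ r * (x : ℝ) ^ r))) +
        r * ((1 / B) * ((κ + 1) ^ r * (x : ℝ) ^ r)) ≤
        (cV * κ / B + cV / x + cV / B) * (x : ℝ) ^ r := by
      have e4 : (V.card : ℝ) * r * (κ + 1) ^ r ≤ cV := by
        rw [hcV]
        apply mul_le_mul_of_nonneg_right _ (by positivity)
        have : (0 : ℝ) ≤ r := Nat.cast_nonneg _
        linarith
      have e5 : (r : ℝ) * (κ + 1) ^ r ≤ cV := by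
        rw [hcV]
        apply mul_le_mul_of_nonneg_right _ (by positivity)
        have : (0 : ℝ) ≤ (V.card : ℝ) * r := by positivity
        linarith
      have e6 : (V.card : ℝ) * (r * (((κ : ℝ) / B + 1 / x) * ((κ + 1) ^ r * (x : ℝ) ^ r))) +
          r * ((1 / B) * ((κ + 1) ^ r * (x : ℝ) ^ r)) =
          (((V.card : ℝ) * r * (κ + 1) ^ r) * ((κ : ℝ) / B + 1 / x) +
            (r * (κ + 1) ^ r) * (1 / B)) * (x : ℝ) ^ r := by ring
      rw [e6]
      apply mul_le_mul_of_nonneg_right _ hx0.le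
      have e7 := mul_le_mul_of_nonneg_right e4 (show (0 : ℝ) ≤ (κ : ℝ) / B + 1 / x by positivity)
      have e8 := mul_le_mul_of_nonneg_right e5 (show (0 : ℝ) ≤ 1 / B by positivity)
      have e9 : cV * ((κ : ℝ) / B + 1 / x) + cV * (1 / B) = cV * κ / B + cV / x + cV / B := by ring
      linarith
    refine e3.trans ?_
    apply mul_le_mul_of_nonneg_right _ hx0.le
    rw [div_le_iff₀ hε] at hBε
    have e4 : cV * κ / B ≤ ε / 16 := by
      rw [div_le_iff₀ hB0]
      nlinarith
    have e4' : cV / B ≤ ε / 16 := by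
      rw [div_le_iff₀ hB0]
      nlinarith
    have e5 : cV / x ≤ ε / 16 := by
      rw [div_le_iff₀ hxr]
      rw [div_le_iff₀ hε] at hxε
      linarith
    linarith
  obtain ⟨Bd, hB1, hB2⟩ := h1 X (by omega) (fun _ => 0) (fun _ => 3 * X + 1)
    (fun _ => 3 * X + 1 + κ * x + X) (by
      intro j n hn1 hn2
      rw [hgs' j]
      push_cast
      constructor <;> omega) (fun j => by omega) (fun j => by omega) (by
      intro j
      rw [hgd j, pow_one]
      have e1 : κ * x ≤ κ * (2 * T0 * X) := Nat.mul_le_mul_left _ hx2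
      have e2 : (2 * κ * T0 + 6) * X = κ * (2 * T0 * X) + 6 * X := by ring
      rw [hκ1, e2]
      omega)
  have hsub : ExG U m r (D + 1) κ x \ Bad ⊆ Bd := by
    intro k hk
    rw [Finset.mem_sdiff] at hk
    obtain ⟨hk, hkBad⟩ := hk
    unfold ExG at hk
    rw [mem_filter] at hk
    obtain ⟨hk0, hLoc, hno⟩ := hk
    have hk1 := Fintype.mem_piFinset.1 hk0
    rw [hBad, mem_union, not_or] at hkBad
    have hk3 : ∀ j, 3 * X < k j := by
      intro j
      by_contra hcon
      apply hkBad.2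
      rw [mem_biUnion]
      refine ⟨j, mem_univ _, ?_⟩
      rw [hF2, mem_filter]
      exact ⟨hk0, not_lt.1 hcon⟩
    by_contra hcon
    have e0 : (fun j => (k j : ℤ) - ((0 : ℕ) : ℤ)) = fun j => (k j : ℤ) := by
      funext j
      simp
    obtain ⟨Q, hQU, hQc, e1⟩ := hB2 k (by
      rw [Fintype.mem_piFinset]
      intro j
      have e2 := mem_Icc.1 (hk1 j)
      have e3 := hk3 j
      exact mem_Ico.2 ⟨by omega, by omega⟩) hcon (by
      intro l hl
      obtain ⟨y, hy1, hy2⟩ := hLoc l hl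
      refine ⟨y, hy1, fun j => ?_⟩
      have e2 := hy2 j
      rw [hgs j _ y]
      have e3 : ((k j : ℤ) - ((0 : ℕ) : ℤ)) - y = (k j : ℤ) - y := by push_cast; ring
      rw [e3]
      exact e2) (by
      intro v hv j hdv
      apply hkBad.1
      rw [mem_biUnion]
      refine ⟨v, hv, ?_⟩
      rw [mem_biUnion]
      refine ⟨j, mem_univ _, ?_⟩
      rw [hF, mem_filter]
      refine ⟨hk0, ?_⟩
      rw [hgs j] at hdv
      have e2 : ((k j : ℤ) - ((0 : ℕ) : ℤ)) - (-(v : ℤ)) = (k j : ℤ) + v := by push_cast; ring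
      rw [e2] at hdv
      exact hdv)
    rw [e0] at e1
    obtain ⟨H, hH1, hH2, hH3⟩ := initial m Q (by omega)
    apply hno
    refine ⟨H, hH1.trans hQU, hH2, ?_⟩
    have e2 : ((RepV σ g U V Q X (fun j => (k j : ℤ))).card : ℝ) ≤ ((CG H k x).card : ℝ) := by
      apply Nat.cast_le.2
      apply card_le_card
      intro n hn
      unfold RepV at hn
      rw [mem_filter, mem_Ico] at hn
      obtain ⟨hn1, hn2, hn3, hn4⟩ := hn
      unfold CG
      rw [mem_filter, mem_Ico]
      refine ⟨by omega, ⟨?_, ?_⟩, ?_⟩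
      · intro h hh
        exact (hn2 h (hQU (hH1 hh))).2 (hH1 hh)
      · rintro w - ⟨h, hh, hwh⟩ hwp
        have hwA : w ≤ A0 := hwh.trans (hUA h (hQU (hH1 hh)))
        by_cases hwU : w ∈ U
        · have hwQ := (hn2 w hwU).1 hwp
          by_contra hwH
          have := hH3 w hwQ hwH h hh
          omega
        · exact absurd hwp (hn3 w (by
            rw [hV, Finset.mem_sdiff, mem_range]
            exact ⟨by omega, hwU⟩))
      · intro j
        have e3 := hk3 j
        have e4 := hn4 j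
        rw [hgs j] at e4
        have e5 : ((k j : ℤ)) - (n : ℤ) = ((k j - n : ℕ) : ℤ) := by
          rw [Nat.cast_sub (by omega)]
        rw [e5, Int.toNat_natCast] at e4
        exact ⟨by omega, e4⟩
    refine le_trans ?_ (e1.trans e2)
    have e3 : Real.log X ≤ Real.log x := by
      apply Real.log_le_log (by linarith)
      have : X ≤ x := by omega
      exact_mod_cast this
    have e4 : (x : ℝ) ≤ 2 * T0 * X := by exact_mod_cast hx2
    have hT0r : (4 : ℝ) ≤ T0 := by exact_mod_cast hT04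
    have hlX : 0 < Real.log X := by linarith
    calc (x : ℝ) / Real.log x ^ (D + 1) ≤ 2 * T0 * X / Real.log X ^ (D + 1) :=
          div_le_div₀ (by positivity) e4 (by positivity) (pow_le_pow_left₀ hlX.le e3 _)
      _ ≤ (X : ℝ) / Real.log X ^ D := by
          rw [div_le_div_iff₀ (by positivity) (by positivity), pow_succ (Real.log X) D]
          have e5 : 0 ≤ (X : ℝ) * Real.log X ^ D := by positivity
          have e6 := mul_le_mul_of_nonneg_left hl4 e5
          linarith
  have hXx' : (X : ℝ) ^ r ≤ (x : ℝ) ^ r := by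
    apply pow_le_pow_left₀ (by linarith)
    have : X ≤ x := by omega
    exact_mod_cast this
  have hB1' : (Bd.card : ℝ) ≤ ε / 4 * (x : ℝ) ^ r := by
    refine hB1.trans ?_
    have e1 : ∏ j, (X : ℝ) ^ (g j).natDegree = (X : ℝ) ^ r := by
      rw [prod_congr rfl fun j _ => by rw [hgd j, pow_one]]
      simp
    rw [e1]
    exact mul_le_mul_of_nonneg_left hXx' (by positivity)
  have hcard : ((ExG U m r (D + 1) κ x).card : ℝ) ≤ ε / 2 * (x : ℝ) ^ r := by
    have e1 := card_le_card hsub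
    have e2 : (ExG U m r (D + 1) κ x).card ≤ (ExG U m r (D + 1) κ x \ Bad).card + Bad.card := by
      calc (ExG U m r (D + 1) κ x).card ≤ ((ExG U m r (D + 1) κ x \ Bad) ∪ Bad).card := by
            apply card_le_card
            intro k hk
            by_cases hkB : k ∈ Bad
            · exact mem_union_right _ hkB
            · exact mem_union_left _ (Finset.mem_sdiff.2 ⟨hk, hkB⟩)
        _ ≤ _ := card_union_le _ _
    have e3 : ((ExG U m r (D + 1) κ x).card : ℝ) ≤ Bd.card + Bad.card := by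
      exact_mod_cast e2.trans (Nat.add_le_add_right e1 _)
    linarith
  have hx0 : 0 < (x : ℝ) ^ r := by positivity
  rw [Real.dist_eq, sub_zero, abs_of_nonneg (by positivity), div_lt_iff₀ hx0]
  nlinarith

end Pool.Agent.TH882.RS
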