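import Pool.Agent.TH882.K5
import Pool.Agent.TH882.J6

/-! Shared steps for statements about polynomial systems at isolated primes and at primes with
neighbours. -/

set_option autoImplicit false

open Finset Filter Topology Polynomial

namespace Pool.Agent.TH882.TS

open Pool.Agent.H361R2.PP
open Pool.Agent.TH882.JS (MostDense Rd KQ nbq)
open Pool.Agent.TH882.IS (IP isoD)
open Pool.Agent.TH882.KS (rl rl_low)

lemma IP_most (Λ : ℝ) (hΛ0 : 0 < Λ) : MostDense (IP Λ) := by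
  classical
  constructor
  · intro X b n hn
    unfold IP at hn
    rw [mem_filter] at hn ⊢
    exact ⟨hn.1, hn.2.1⟩
  · intro η hη
    obtain ⟨c, hc, X₀, h⟩ := isoD Λ hΛ0
    refine ⟨c, hc, X₀, fun X hX => ?_⟩
    have h1 : (Rd X).filter (fun b => ((IP Λ X b).card : ℝ) <
        c * (X / (Nat.totient (Wm X) * Real.log X))) = ∅ := by
      rw [filter_eq_empty_iff]
      intro b hb
      unfold Rd at hb
      rw [mem_filter, mem_range] at hb
      exact not_lt.2 (h X hX b hb.1 hb.2)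
    rw [h1, card_empty, Nat.cast_zero]
    positivity

open Classical in
/-- isolation at distance `L log x` -/
lemma iso_of (L : ℝ) (M x : ℕ) (hM : 1 ≤ M) (hx : 4 * M ^ 2 ≤ x) (b n : ℕ)
    (hn : n ∈ IP (2 * max L 1) (x / M) b) : n.Prime ∧
    ∀ q : ℕ, q.Prime → |(q : ℝ) - n| ≤ L * Real.log x → q = n := by
  unfold IP at hn
  rw [mem_filter] at hn
  refine ⟨hn.2.1, ?_⟩
  intro q hq hqn
  have e1 := abs_le.1 hqn
  have hxM : x < M * (x / M + 1) := by
    have := Nat.lt_div_mul_add (a := x) (b := M) (by omega)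
    nlinarith [Nat.div_mul_le_self x M]
  have hX4 : 4 * M ≤ x / M := by
    rw [Nat.le_div_iff_mul_le (by omega)]
    nlinarith
  have hX0 : (0 : ℝ) < (x / M : ℕ) := by
    have : 0 < x / M := by omega
    exact_mod_cast this
  have hxX : (x : ℝ) ≤ ((x / M : ℕ) : ℝ) ^ 2 := by
    have e2 : x ≤ (x / M) ^ 2 := by
      have e3 : M * (x / M + 1) ≤ (x / M) * (x / M) := by
        have e4 : M * (x / M + 1) ≤ M * (2 * (x / M)) := Nat.mul_le_mul_left _ (by omega)
        have e5 : M * (2 * (x / M)) = (2 * M) * (x / M) := by ring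
        have e6 : (2 * M) * (x / M) ≤ (x / M) * (x / M) := Nat.mul_le_mul_right _ (by omega)
        omega
      rw [sq]
      omega
    exact_mod_cast e2
  have hx0 : 0 < x := by nlinarith
  have hlog : Real.log x ≤ 2 * Real.log (x / M : ℕ) := by
    have e5 := Real.log_le_log (by exact_mod_cast hx0) hxX
    rw [Real.log_pow] at e5
    exact_mod_cast e5
  have hlog0 : 0 ≤ Real.log (x : ℝ) := Real.log_natCast_nonneg x
  have e6 : L * Real.log x ≤ (2 * max L 1) * Real.log (x / M : ℕ) := by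
    have e7 : L * Real.log x ≤ max L 1 * Real.log x :=
      mul_le_mul_of_nonneg_right (le_max_left _ _) hlog0
    have e8 : max L 1 * Real.log x ≤ max L 1 * (2 * Real.log (x / M : ℕ)) :=
      mul_le_mul_of_nonneg_left hlog (by positivity)
    linarith
  exact hn.2.2 q hq (by linarith) (by linarith)

open Classical in
/-- neighbours at distance `ε log x` -/
lemma nb_of (q m : ℕ) (ε : ℝ) (hε : 0 < ε) (M x : ℕ) (hM : 1 ≤ M) (hx : M ≤ x) (b n : ℕ)
    (hn : n ∈ KQ q m ε (x / M) b) (S : Finset ℕ)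
    (hS : ∀ p : ℕ, p.Prime → p ≠ n → p % q = n % q → |(p : ℝ) - n| ≤ ε * Real.log x → p ∈ S) :
    n.Prime ∧ m ≤ S.card := by
  unfold KQ at hn
  rw [mem_filter] at hn
  refine ⟨hn.2.1, hn.2.2.trans ?_⟩
  unfold nbq
  apply card_le_card
  have hX1' : 1 ≤ x / M := (Nat.one_le_div_iff (by omega)).2 hx
  have hX0 : (0 : ℝ) < (x / M : ℕ) := by exact_mod_cast hX1'
  have hX1 : (1 : ℝ) ≤ (x / M : ℕ) := by exact_mod_cast hX1'
  have hXN : ((x / M : ℕ) : ℝ) ≤ x := by
    have : x / M ≤ x := Nat.div_le_self x M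
    exact_mod_cast this
  have hlog : Real.log (x / M : ℕ) ≤ Real.log x := Real.log_le_log hX0 hXN
  have hlog0 : 0 ≤ Real.log (x / M : ℕ) := Real.log_nonneg hX1
  have hR : ε * Real.log (x / M : ℕ) ≤ ε * Real.log x := mul_le_mul_of_nonneg_left hlog hε.le
  have hfl2 : ((⌊ε * Real.log (x / M : ℕ)⌋₊ : ℕ) : ℝ) ≤ ε * Real.log x :=
    (Nat.floor_le (by positivity)).trans hR
  intro p' hp'
  rw [mem_filter, mem_Icc] at hp'
  obtain ⟨⟨hq1, hq2⟩, hq3, hq4, hq5⟩ := hp'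
  refine hS p' hq3 hq4 hq5 ?_
  rw [abs_le]
  have e1 : (p' : ℝ) ≤ n + (⌊ε * Real.log (x / M : ℕ)⌋₊ : ℕ) := by exact_mod_cast hq2
  have e2 : (n : ℝ) ≤ p' + (⌊ε * Real.log (x / M : ℕ)⌋₊ : ℕ) := by
    have : n ≤ p' + ⌊ε * Real.log (x / M : ℕ)⌋₊ := by omega
    exact_mod_cast this
  constructor <;> linarith

/-- large primes are never obstructions -/
lemma wit {r : ℕ} (σ : Fin r → ℤ) (hσ : ∀ j, σ j = 1 ∨ σ j = -1) (g : Fin r → ℤ[X])
    (hd : ∀ j, 1 ≤ (g j).natDegree) (p : ℕ) (hp : p.Prime)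
    (hl : ∀ j, ¬ (p : ℤ) ∣ (g j).leadingCoeff) (hb : 1 + ∑ j, (g j).natDegree < p)
    (k : Fin r → ℕ) :
    ∃ n : ℤ, ¬ (p : ℤ) ∣ n ∧ ∀ j, ¬ (p : ℤ) ∣ (k j : ℤ) + σ j * (g j).eval n := by
  classical
  have h5 := rl_low σ hσ g hd p hp hl k
  have h6 : 0 < rl σ g p k := by omega
  unfold rl at h6
  obtain ⟨n, hn⟩ := card_pos.1 h6
  rw [mem_filter, mem_range] at hn
  obtain ⟨hb1, hb2, hb3⟩ := hn
  refine ⟨(n : ℤ), ?_, hb3⟩
  intro hd'
  have h8 : p ∣ n := by exact_mod_cast hd'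
  exact absurd (Nat.le_of_dvd (Nat.pos_of_ne_zero hb2) h8) (by omega)

end Pool.Agent.TH882.TS
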