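import Pool.Agent.TH882.T2

/-! Several Goldbach equations with one common prime `p` in the range `√N_j < p < N_j / 2`. -/

set_option autoImplicit false

open Finset Filter Topology Polynomial

namespace Pool.Agent.TH882.TS

open Pool.Agent.H361R2.PP
open Pool.Agent.TH882.JS (MostDense Rd KQ nbq KQ_most)
open Pool.Agent.TH882.IS (IP isoD)
open Pool.Agent.TH882.KS (rl rl_low sys_most sys_mostG SysA SysG LocV low_coord)

open Classical in
/-- the common primes -/
noncomputable def cmn {r : ℕ} (P : ℕ → Prop) (N : Fin r → ℕ) (x : ℕ) : Finset ℕ :=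
  (Icc 1 x).filter (fun p => p.Prime ∧ P p ∧ ∀ j, N j < p ^ 2 ∧ 2 * p < N j ∧ (N j - p).Prime)

/-- no local obstruction -/
def AdmC {r : ℕ} (N : Fin r → ℕ) : Prop :=
  ∀ l : ℕ, l.Prime → ∃ n : ℤ, ¬ (l : ℤ) ∣ n ∧ ∀ j, ¬ (l : ℤ) ∣ (N j : ℤ) - n

open Classical in
lemma mem_cmn {r : ℕ} (P : ℕ → Prop) (N : Fin r → ℕ) (x p : ℕ) : p ∈ cmn P N x ↔
    p ∈ Icc 1 x ∧ p.Prime ∧ P p ∧ ∀ j, N j < p ^ 2 ∧ 2 * p < N j ∧ (N j - p).Prime := by
  unfold cmn
  rw [mem_filter]

open Classical in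
theorem gold_common (r : ℕ) (A : ℕ → ℕ → Finset ℕ) (hA : MostDense A) (P : ℕ → ℕ → Prop)
    (hP : ∀ M : ℕ, 3 ≤ M → ∃ x1 : ℕ, ∀ x : ℕ, x1 ≤ x → ∀ b n : ℕ, n ∈ A (x / M) b →
      n.Prime ∧ P x n) (K : ℕ) (κ : ℝ) (hκ : 0 < κ) :
    ∃ c : ℝ, 0 < c ∧ ∃ x₀ : ℕ, ∀ x : ℕ, x₀ ≤ x →
      (((Fintype.piFinset (fun _ : Fin r => Icc 1 (K * x))).filter (fun N =>
        AdmC N ∧ ((cmn (P x) N x).card : ℝ) < c * (x / Real.log x ^ (r + 1)))).card : ℝ) ≤
        κ * (x : ℝ) ^ r := by
  set D : ℕ := ⌈6 * ((r : ℝ) * (K + 1) ^ r) / κ⌉₊ + 3 with hD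
  have hD3 : 3 ≤ D := by omega
  have hD0 : (0 : ℝ) < D := by
    have : 0 < D := by omega
    exact_mod_cast this
  have hDκ : 6 * ((r : ℝ) * (K + 1) ^ r) ≤ κ * D := by
    have h1 : 6 * ((r : ℝ) * (K + 1) ^ r) / κ ≤ D := by
      rw [hD]
      push_cast
      have := Nat.le_ceil (6 * ((r : ℝ) * (K + 1) ^ r) / κ)
      linarith
    rw [div_le_iff₀ hκ] at h1
    linarith
  obtain ⟨M, hM, c, hc, x₀, h⟩ := sys_mostG (fun _ : Fin r => (Polynomial.X : ℤ[X]))
    (fun _ => by simp) (fun _ => by simp) A hA (2 * D * K) (κ / 2) (by positivity)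
  obtain ⟨x1, hx1⟩ := hP (D * M) (by nlinarith)
  refine ⟨c / (2 * D), by positivity, D * x₀ + x1 + 4 * (K + 1) * D ^ 2 * M ^ 2 + 16 * D * M, ?_⟩
  intro x hx
  have hDM : 3 ≤ D * M := by nlinarith
  have a1 : x1 ≤ x := by
    have : 0 ≤ D * x₀ := Nat.zero_le _
    have h2 : 0 ≤ 4 * (K + 1) * D ^ 2 * M ^ 2 := Nat.zero_le _
    have h3 : 0 ≤ 16 * D * M := Nat.zero_le _
    omega
  have a2 : D * x₀ ≤ x := by omega
  have a3 : 4 * (K + 1) * D ^ 2 * M ^ 2 ≤ x := by omega
  have a4 : 16 * D * M ≤ x := by omega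
  have a40 : 16 * (D * M) ≤ x := by
    have : 16 * D * M = 16 * (D * M) := by ring
    omega
  have a5 : x₀ ≤ x / D := by
    rw [Nat.le_div_iff_mul_le (by omega)]
    rwa [mul_comm]
  have hdd : x / D / M = x / (D * M) := Nat.div_div_eq_div_mul x D M
  -- the size of `X`
  set Xx : ℕ := x / (D * M) with hXx
  have hX16 : 16 ≤ Xx := by
    rw [hXx, Nat.le_div_iff_mul_le (by omega)]
    exact a40
  have hXlow : x < 2 * (D * M) * Xx := by
    have h1 : x < D * M * (Xx + 1) := by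
      have := Nat.lt_div_mul_add (a := x) (b := D * M) (by omega)
      rw [← hXx] at this
      nlinarith
    nlinarith
  have hXsq : (K + 1) * x < Xx ^ 2 := by
    have h1 : x ^ 2 < (2 * (D * M) * Xx) ^ 2 := Nat.pow_lt_pow_left hXlow (by norm_num)
    have h2 : 4 * (K + 1) * D ^ 2 * M ^ 2 * x ≤ x ^ 2 := by
      have h20 : x ^ 2 = x * x := sq x
      rw [h20]
      exact Nat.mul_le_mul_right _ a3
    have h3 : (2 * (D * M) * Xx) ^ 2 = 4 * D ^ 2 * M ^ 2 * Xx ^ 2 := by ring
    rw [h3] at h1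
    have h4 : 4 * (K + 1) * D ^ 2 * M ^ 2 * x = 4 * D ^ 2 * M ^ 2 * ((K + 1) * x) := by ring
    rw [h4] at h2
    have h5 : 4 * D ^ 2 * M ^ 2 * ((K + 1) * x) < 4 * D ^ 2 * M ^ 2 * Xx ^ 2 := by omega
    exact Nat.lt_of_mul_lt_mul_left h5
  have hXup : 3 * Xx ≤ x / D := by
    rw [← hdd]
    have h1 : M * (x / D / M) ≤ x / D := Nat.mul_div_le _ _
    exact (Nat.mul_le_mul_right _ hM).trans h1
  have hxD : x ≤ 2 * D * (x / D) := by
    have h1 := Nat.lt_div_mul_add (a := x) (b := D) (by omega)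
    have h2 : 1 ≤ x / D := by omega
    nlinarith
  have hxDr : (x : ℝ) ≤ 2 * D * ((x / D : ℕ) : ℝ) := by exact_mod_cast hxD
  have hx0 : (0 : ℝ) < x := by
    have : 0 < x := by nlinarith
    exact_mod_cast this
  have hxD1 : (1 : ℝ) < ((x / D : ℕ) : ℝ) := by
    have : 1 < x / D := by omega
    exact_mod_cast this
  have hxDx : ((x / D : ℕ) : ℝ) ≤ x := by exact_mod_cast Nat.div_le_self x D
  have hlog0 : 0 < Real.log ((x / D : ℕ) : ℝ) := Real.log_pos hxD1
  have hlog1 : Real.log ((x / D : ℕ) : ℝ) ≤ Real.log x := Real.log_le_log (by linarith) hxDx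
  have hlogx : 0 < Real.log (x : ℝ) := lt_of_lt_of_le hlog0 hlog1
  have key := h (x / D) a5
  -- split the exceptions
  set E := (Fintype.piFinset (fun _ : Fin r => Icc 1 (K * x))).filter (fun N =>
        AdmC N ∧ ((cmn (P x) N x).card : ℝ) < c / (2 * D) * (x / Real.log x ^ (r + 1))) with hE
  set F := (Fintype.piFinset (fun j : Fin r => Icc 1 (2 * D * K *
      (x / D) ^ ((fun _ : Fin r => (Polynomial.X : ℤ[X])) j).natDegree))).filter
        (fun N => LocV (fun _ => -1) (fun _ : Fin r => (Polynomial.X : ℤ[X])) N ∧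
        ((SysG A (fun _ : Fin r => (Polynomial.X : ℤ[X])) (x / D / M) N).card : ℝ) <
          c * ((x / D : ℕ) / Real.log (x / D : ℕ) ^ (r + 1))) with hF
  set a : ℕ := 2 * (x / D) with ha
  have hsub : E ⊆ F ∪ univ.biUnion (fun j : Fin r =>
      (Fintype.piFinset (fun _ : Fin r => Icc 1 (K * x))).filter (fun N => N j < a)) := by
    intro N hN
    rw [hE, mem_filter] at hN
    obtain ⟨h1, h2, h3⟩ := hN
    rw [mem_union]
    by_cases hlow : ∃ j, N j < a
    · right
      obtain ⟨j, hj⟩ := hlow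
      rw [mem_biUnion]
      exact ⟨j, mem_univ _, mem_filter.2 ⟨h1, hj⟩⟩
    · left
      push Not at hlow
      rw [hF, mem_filter, Fintype.mem_piFinset]
      rw [Fintype.mem_piFinset] at h1
      refine ⟨fun j => ?_, ?_, ?_⟩
      · have h4 := h1 j
        rw [mem_Icc] at h4 ⊢
        simp only [Polynomial.natDegree_X, pow_one]
        refine ⟨h4.1, h4.2.trans ?_⟩
        have h5 : K * x ≤ K * (2 * D * (x / D)) := Nat.mul_le_mul_left _ hxD
        have h6 : K * (2 * D * (x / D)) = 2 * D * K * (x / D) := by ring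
        omega
      · intro l hlp
        obtain ⟨n, hn1, hn2⟩ := h2 l hlp
        refine ⟨n, hn1, fun j h => hn2 j ?_⟩
        rw [Polynomial.eval_X] at h
        have e1 : (N j : ℤ) + -1 * n = N j - n := by ring
        rwa [e1] at h
      · have h4 : ((SysG A (fun _ : Fin r => (Polynomial.X : ℤ[X])) (x / D / M) N).card : ℝ) ≤
            ((cmn (P x) N x).card : ℝ) := by
          apply Nat.cast_le.2
          apply card_le_card
          intro n hn
          rw [hdd] at hn
          unfold SysG at hn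
          rw [mem_filter, mem_Ico] at hn
          obtain ⟨⟨hn1, hn2⟩, hn3, hn4⟩ := hn
          obtain ⟨h5, h6⟩ := hx1 x a1 _ n hn3
          unfold cmn
          rw [mem_filter, mem_Icc]
          have hnx : 3 * n ≤ 2 * (x / D) := by omega
          refine ⟨⟨h5.pos, ?_⟩, h5, h6, fun j => ?_⟩
          · have : x / D ≤ x := Nat.div_le_self x D
            omega
          · have h7 := (mem_Icc.1 (h1 j)).2
            have h8 := hlow j
            refine ⟨?_, by omega, ?_⟩
            · have h9 : Xx ^ 2 ≤ n ^ 2 := Nat.pow_le_pow_left hn1 2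
              have h10 : K * x ≤ (K + 1) * x := Nat.mul_le_mul_right _ (by omega)
              omega
            · have h9 := hn4 j
              rw [Polynomial.eval_X] at h9
              have h10 : ((N j : ℤ) - (n : ℤ)).toNat = N j - n := by omega
              rwa [h10] at h9
        refine lt_of_le_of_lt h4 (lt_of_lt_of_le h3 ?_)
        have h5 : (x : ℝ) / Real.log x ^ (r + 1) ≤
            2 * D * (((x / D : ℕ) : ℝ) / Real.log ((x / D : ℕ) : ℝ) ^ (r + 1)) := by
          rw [← mul_div_assoc]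
          apply div_le_div₀ (by positivity) hxDr (by positivity)
          exact pow_le_pow_left₀ hlog0.le hlog1 _
        calc c / (2 * D) * (x / Real.log x ^ (r + 1)) ≤
            c / (2 * D) * (2 * D * (((x / D : ℕ) : ℝ) / Real.log ((x / D : ℕ) : ℝ) ^ (r + 1))) :=
              mul_le_mul_of_nonneg_left h5 (by positivity)
          _ = c * (((x / D : ℕ) : ℝ) / Real.log ((x / D : ℕ) : ℝ) ^ (r + 1)) := by
              field_simp
  have hF' : (F.card : ℝ) ≤ κ / 2 * (x : ℝ) ^ r := by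
    refine key.trans ?_
    simp only [Polynomial.natDegree_X, pow_one, prod_const, card_univ, Fintype.card_fin]
    apply mul_le_mul_of_nonneg_left _ (by positivity)
    exact pow_le_pow_left₀ (by positivity) hxDx _
  have hL : (((univ.biUnion (fun j : Fin r =>
      (Fintype.piFinset (fun _ : Fin r => Icc 1 (K * x))).filter (fun N => N j < a))).card : ℕ) : ℝ) ≤
      κ / 2 * (x : ℝ) ^ r := by
    have h1 : (univ.biUnion (fun j : Fin r =>
      (Fintype.piFinset (fun _ : Fin r => Icc 1 (K * x))).filter (fun N => N j < a))).card ≤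
        ∑ _j : Fin r, a * (K * x) ^ (r - 1) := by
      refine card_biUnion_le.trans ?_
      apply sum_le_sum
      intro j _
      refine (low_coord j (fun _ => K * x) a).trans ?_
      apply Nat.mul_le_mul_left
      rw [prod_const, card_erase_of_mem (mem_univ _), card_univ, Fintype.card_fin]
    rw [sum_const, card_univ, Fintype.card_fin, smul_eq_mul] at h1
    rcases Nat.eq_zero_or_pos r with hr | hr
    · subst hr
      rw [zero_mul] at h1
      have h2 : (univ.biUnion (fun j : Fin 0 =>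
        (Fintype.piFinset (fun _ : Fin 0 => Icc 1 (K * x))).filter (fun N => N j < a))).card = 0 :=
        Nat.le_zero.1 h1
      rw [h2, Nat.cast_zero]
      positivity
    · have h2 : ((univ.biUnion (fun j : Fin r =>
        (Fintype.piFinset (fun _ : Fin r => Icc 1 (K * x))).filter (fun N => N j < a))).card : ℝ) ≤
          (r : ℝ) * ((a : ℝ) * ((K : ℝ) * x) ^ (r - 1)) := by exact_mod_cast h1
      refine h2.trans ?_
      have h3 : (a : ℝ) * D ≤ 2 * x := by
        have h4 : a * D ≤ 2 * x := by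
          rw [ha]
          have := Nat.div_mul_le_self x D
          nlinarith
        exact_mod_cast h4
      have h4 : ((K : ℝ) * x) ^ (r - 1) ≤ (K + 1) ^ r * (x : ℝ) ^ (r - 1) := by
        rw [mul_pow]
        apply mul_le_mul_of_nonneg_right _ (by positivity)
        calc (K : ℝ) ^ (r - 1) ≤ (K + 1) ^ (r - 1) := pow_le_pow_left₀ (by positivity) (by linarith) _
          _ ≤ (K + 1) ^ r := pow_le_pow_right₀ (by
              have : (0 : ℝ) ≤ K := Nat.cast_nonneg K
              linarith) (by omega)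
      have h5 : (x : ℝ) ^ r = x * (x : ℝ) ^ (r - 1) := by
        rw [← pow_succ']
        congr 1
        omega
      have hpos : (0 : ℝ) ≤ (x : ℝ) ^ (r - 1) := by positivity
      calc (r : ℝ) * ((a : ℝ) * ((K : ℝ) * x) ^ (r - 1))
          ≤ (r : ℝ) * ((2 * x / D) * ((K + 1) ^ r * (x : ℝ) ^ (r - 1))) := by
            apply mul_le_mul_of_nonneg_left _ (Nat.cast_nonneg r)
            apply mul_le_mul _ h4 (by positivity) (by positivity)
            rw [le_div_iff₀ hD0]
            exact h3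
        _ = (2 * ((r : ℝ) * (K + 1) ^ r) / D) * (x * (x : ℝ) ^ (r - 1)) := by ring
        _ ≤ (κ / 2) * (x * (x : ℝ) ^ (r - 1)) := by
            apply mul_le_mul_of_nonneg_right _ (by positivity)
            rw [div_le_iff₀ hD0]
            nlinarith
        _ = κ / 2 * (x : ℝ) ^ r := by rw [h5]
  have h1 := card_le_card hsub
  have h2 := h1.trans (card_union_le _ _)
  have h3 : (E.card : ℝ) ≤ (F.card : ℝ) + (((univ.biUnion (fun j : Fin r =>
      (Fintype.piFinset (fun _ : Fin r => Icc 1 (K * x))).filter (fun N => N j < a))).card : ℕ) : ℝ) := by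
    exact_mod_cast h2
  calc (E.card : ℝ) ≤ _ := h3
    _ ≤ κ / 2 * (x : ℝ) ^ r + κ / 2 * (x : ℝ) ^ r := add_le_add hF' hL
    _ = κ * (x : ℝ) ^ r := by ring

open Classical in
theorem gold_iso (r : ℕ) (L : ℝ) (K : ℕ) (κ : ℝ) (hκ : 0 < κ) :
    ∃ c : ℝ, 0 < c ∧ ∃ x₀ : ℕ, ∀ x : ℕ, x₀ ≤ x →
      (((Fintype.piFinset (fun _ : Fin r => Icc 1 (K * x))).filter (fun N =>
        AdmC N ∧ ((cmn (Iso (L * Real.log x)) N x).card : ℝ) <
          c * (x / Real.log x ^ (r + 1)))).card : ℝ) ≤ κ * (x : ℝ) ^ r := by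
  have hΛ0 : (0 : ℝ) < 2 * max L 1 := by
    have : (1 : ℝ) ≤ max L 1 := le_max_right _ _
    linarith
  exact gold_common r (IP (2 * max L 1)) (IP_most _ hΛ0) (fun x => Iso (L * Real.log x))
    (fun M hM => ⟨4 * M ^ 2, fun x hx b n hn => iso_of L M x (by omega) hx b n hn⟩) K κ hκ

open Classical in
theorem gold_nb (r q m : ℕ) (hq : 1 ≤ q) (ε : ℝ) (hε : 0 < ε) (K : ℕ) (κ : ℝ) (hκ : 0 < κ) :
    ∃ c : ℝ, 0 < c ∧ ∃ x₀ : ℕ, ∀ x : ℕ, x₀ ≤ x →
      (((Fintype.piFinset (fun _ : Fin r => Icc 1 (K * x))).filter (fun N =>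
        AdmC N ∧ ((cmn (fun p => m ≤ (nbs q (ε * Real.log x) p).card) N x).card : ℝ) <
          c * (x / Real.log x ^ (r + 1)))).card : ℝ) ≤ κ * (x : ℝ) ^ r := by
  exact gold_common r (KQ q m ε) (KQ_most q m hq ε hε)
    (fun x p => m ≤ (nbs q (ε * Real.log x) p).card)
    (fun M hM => ⟨M, fun x hx b n hn => nb_of q m ε hε M x (by omega) hx b n hn
      (nbs q (ε * Real.log x) n)
      (fun p h1 h2 h3 h4 => mem_nbs q _ (mul_nonneg hε.le (Real.log_natCast_nonneg x)) n p
        h1 h2 h3 h4)⟩) K κ hκ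

end Pool.Agent.TH882.TS
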