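import Pool.Agent.TH882.T2
import Pool.Agent.TH882.K6

/-! Mixed systems at isolated primes and at primes with neighbours, ready for use. -/

set_option autoImplicit false

open Finset Filter Topology Polynomial

namespace Pool.Agent.TH882.TS

open Pool.Agent.H361R2.PP
open Pool.Agent.TH882.JS (MostDense Rd KQ nbq KQ_most)
open Pool.Agent.TH882.IS (IP isoD RepA)
open Pool.Agent.TH882.KS (rl rl_low sys_mix LocV)

/-- no local obstruction -/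
def AdmM {r : ℕ} (σ : Fin r → ℤ) (g : Fin r → ℤ[X]) (k : Fin r → ℕ) : Prop :=
  ∀ l : ℕ, l.Prime → ∃ n : ℤ, ¬ (l : ℤ) ∣ n ∧ ∀ j, ¬ (l : ℤ) ∣ (k j : ℤ) + σ j * (g j).eval n

open Classical in
/-- a general condition -/
noncomputable def cntM {r : ℕ} (P : ℕ → Prop) (σ : Fin r → ℤ) (g : Fin r → ℤ[X]) (k : Fin r → ℕ)
    (x : ℕ) : Finset ℕ :=
  (Icc 1 x).filter (fun n => n.Prime ∧ P n ∧
    ∀ j, ((k j : ℤ) + σ j * (g j).eval (n : ℤ)).toNat.Prime)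

open Classical in
lemma mem_cntM {r : ℕ} (P : ℕ → Prop) (σ : Fin r → ℤ) (g : Fin r → ℤ[X]) (k : Fin r → ℕ)
    (x n : ℕ) : n ∈ cntM P σ g k x ↔ n ∈ Icc 1 x ∧ n.Prime ∧ P n ∧
      ∀ j, ((k j : ℤ) + σ j * (g j).eval (n : ℤ)).toNat.Prime := by
  unfold cntM
  rw [mem_filter]

open Classical in
/-- the exceptions -/
noncomputable def excM {r : ℕ} (P : ℕ → ℕ → Prop) (σ : Fin r → ℤ) (g : Fin r → ℤ[X]) (c : ℝ)
    (K x : ℕ) : Finset (Fin r → ℕ) :=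
  (Fintype.piFinset (fun j : Fin r => Icc 1 (K * x ^ (g j).natDegree))).filter (fun k =>
    AdmM σ g k ∧ ((cntM (P x) σ g k x).card : ℝ) < c * (x / Real.log x ^ (r + 1)))

open Classical in
lemma mem_excM {r : ℕ} (P : ℕ → ℕ → Prop) (σ : Fin r → ℤ) (g : Fin r → ℤ[X]) (c : ℝ) (K x : ℕ)
    (k : Fin r → ℕ) : k ∈ excM P σ g c K x ↔ (∀ j, k j ∈ Icc 1 (K * x ^ (g j).natDegree)) ∧
      AdmM σ g k ∧ ((cntM (P x) σ g k x).card : ℝ) < c * (x / Real.log x ^ (r + 1)) := by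
  unfold excM
  rw [mem_filter, Fintype.mem_piFinset]

open Classical in
theorem baseM {r : ℕ} (σ : Fin r → ℤ) (hσ : ∀ j, σ j = 1 ∨ σ j = -1) (g : Fin r → ℤ[X])
    (hd : ∀ j, 1 ≤ (g j).natDegree)
    (hl : ∀ j, 0 < (g j).leadingCoeff) (A : ℕ → ℕ → Finset ℕ) (hA : MostDense A)
    (P : ℕ → ℕ → Prop)
    (hP : ∀ M : ℕ, 3 ≤ M → ∃ x1 : ℕ, ∀ x : ℕ, x1 ≤ x → ∀ b n : ℕ, n ∈ A (x / M) b →
      n.Prime ∧ P x n) (K : ℕ) (κ : ℝ) (hκ : 0 < κ) :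
    ∃ c : ℝ, 0 < c ∧ ∃ x₀ : ℕ, ∀ x : ℕ, x₀ ≤ x →
      ((excM P σ g c K x).card : ℝ) ≤ κ * ∏ j, (x : ℝ) ^ (g j).natDegree := by
  obtain ⟨M, hM, c, hc, x₀, h⟩ := sys_mix σ hσ g hd hl A hA K κ hκ
  obtain ⟨x1, hx1P⟩ := hP M hM
  refine ⟨c, hc, max x₀ x1, fun x hx => ?_⟩
  have hx0 : x₀ ≤ x := (le_max_left _ _).trans hx
  have hx1 : x1 ≤ x := (le_max_right _ _).trans hx
  refine le_trans ?_ (h x hx0)
  apply Nat.cast_le.2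
  apply card_le_card
  intro k hk
  rw [mem_excM] at hk
  rw [mem_filter, Fintype.mem_piFinset]
  obtain ⟨hc1, hc2, hc3⟩ := hk
  refine ⟨hc1, ?_, lt_of_le_of_lt ?_ hc3⟩
  · intro l hlp
    obtain ⟨n, hn1, hn2⟩ := hc2 l hlp
    exact ⟨n, hn1, hn2⟩
  · apply Nat.cast_le.2
    apply card_le_card
    intro n hn
    unfold RepA at hn
    rw [mem_filter, mem_Ico] at hn
    obtain ⟨⟨hn1, hn2⟩, hn3, hn4⟩ := hn
    obtain ⟨h5, h6⟩ := hx1P x hx1 _ n hn3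
    have hXM : M * (x / M) ≤ x := Nat.mul_div_le x M
    have hXx : 3 * (x / M) ≤ x := (Nat.mul_le_mul_right _ hM).trans hXM
    rw [mem_cntM, mem_Icc]
    exact ⟨⟨h5.pos, by omega⟩, h5, h6, hn4⟩

theorem iso_mainM {r : ℕ} (σ : Fin r → ℤ) (hσ : ∀ j, σ j = 1 ∨ σ j = -1) (g : Fin r → ℤ[X])
    (hd : ∀ j, 1 ≤ (g j).natDegree)
    (hl : ∀ j, 0 < (g j).leadingCoeff) (L : ℝ) (K : ℕ) (κ : ℝ) (hκ : 0 < κ) :
    ∃ c : ℝ, 0 < c ∧ ∃ x₀ : ℕ, ∀ x : ℕ, x₀ ≤ x →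
      ((excM (fun x => Iso (L * Real.log x)) σ g c K x).card : ℝ) ≤
        κ * ∏ j, (x : ℝ) ^ (g j).natDegree := by
  have hΛ0 : (0 : ℝ) < 2 * max L 1 := by
    have : (1 : ℝ) ≤ max L 1 := le_max_right _ _
    linarith
  exact baseM σ hσ g hd hl (IP (2 * max L 1)) (IP_most _ hΛ0) _
    (fun M hM => ⟨4 * M ^ 2, fun x hx b n hn => iso_of L M x (by omega) hx b n hn⟩) K κ hκ

theorem nb_mainM {r : ℕ} (σ : Fin r → ℤ) (hσ : ∀ j, σ j = 1 ∨ σ j = -1) (g : Fin r → ℤ[X])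
    (hd : ∀ j, 1 ≤ (g j).natDegree)
    (hl : ∀ j, 0 < (g j).leadingCoeff) (q m : ℕ) (hq : 1 ≤ q) (ε : ℝ) (hε : 0 < ε) (K : ℕ)
    (κ : ℝ) (hκ : 0 < κ) : ∃ c : ℝ, 0 < c ∧ ∃ x₀ : ℕ, ∀ x : ℕ, x₀ ≤ x →
      ((excM (fun x p => m ≤ (nbs q (ε * Real.log x) p).card) σ g c K x).card : ℝ) ≤
        κ * ∏ j, (x : ℝ) ^ (g j).natDegree := by
  exact baseM σ hσ g hd hl (KQ q m ε) (KQ_most q m hq ε hε) _
    (fun M hM => ⟨M, fun x hx b n hn => nb_of q m ε hε M x (by omega) hx b n hn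
      (nbs q (ε * Real.log x) n)
      (fun p h1 h2 h3 h4 => mem_nbs q _ (mul_nonneg hε.le (Real.log_natCast_nonneg x)) n p
        h1 h2 h3 h4)⟩) K κ hκ

/-- transfer of exceptions along an injective map -/
lemma tr_excM {r : ℕ} {α : Type*} (P : ℕ → ℕ → Prop) (σ : Fin r → ℤ) (g : Fin r → ℤ[X]) (c : ℝ)
    (K x : ℕ) (E : Finset α) (f : α → (Fin r → ℕ))
    (hf : Set.InjOn f E) (S : α → Finset ℕ)
    (h1 : ∀ k ∈ E, ∀ j, f k j ∈ Icc 1 (K * x ^ (g j).natDegree)) (h2 : ∀ k ∈ E, AdmM σ g (f k))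
    (h3 : ∀ k ∈ E, ((S k).card : ℝ) < c * (x / Real.log x ^ (r + 1)))
    (h4 : ∀ k ∈ E, ∀ n ∈ Icc 1 x, n.Prime → P x n →
      (∀ j, ((f k j : ℤ) + σ j * (g j).eval (n : ℤ)).toNat.Prime) → n ∈ S k) :
    (E.card : ℝ) ≤ ((excM P σ g c K x).card : ℝ) := by
  apply Nat.cast_le.2
  apply card_le_card_of_injOn f _ hf
  intro k hk
  have hk' := mem_coe.1 hk
  rw [mem_coe, mem_excM]
  refine ⟨h1 k hk', h2 k hk', lt_of_le_of_lt (Nat.cast_le.2 (card_le_card ?_)) (h3 k hk')⟩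
  intro n hn
  rw [mem_cntM] at hn
  exact h4 k hk' n hn.1 hn.2.1 hn.2.2.1 hn.2.2.2

/-- large primes are never obstructions, mixed -/
lemma witM {r : ℕ} (σ : Fin r → ℤ) (hσ : ∀ j, σ j = 1 ∨ σ j = -1) (g : Fin r → ℤ[X])
    (hd : ∀ j, 1 ≤ (g j).natDegree) (p : ℕ) (hp : p.Prime)
    (hl : ∀ j, ¬ (p : ℤ) ∣ (g j).leadingCoeff) (hb : 1 + ∑ j, (g j).natDegree < p)
    (k : Fin r → ℕ) :
    ∃ n : ℤ, ¬ (p : ℤ) ∣ n ∧ ∀ j, ¬ (p : ℤ) ∣ (k j : ℤ) + σ j * (g j).eval n :=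
  wit σ hσ g hd p hp hl hb k

end Pool.Agent.TH882.TS
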