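import Mathlib
import Pool.Agent.TH891.SG.Gal4
import Pool.Agent.W218.TX.Up

/-! Binomial moments of the number of primes in windows of length between `log N` and a power of
`log N`. -/

set_option autoImplicit false

open Finset Filter Topology Pool.Agent.H387R2

namespace Pool.Agent.TH882.IX

/-- the primes in `(m, m + J]` -/
def pw (m J : ℕ) : ℕ := ((Ioc m (m + J)).filter Nat.Prime).card

lemma pw_eq (m J : ℕ) : pw m J = ((Icc 1 J).filter (fun t => (m + t).Prime)).card := by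
  unfold pw
  symm
  apply card_bij (fun t _ => m + t)
  · intro t ht
    rw [mem_filter, mem_Icc] at ht
    rw [mem_filter, mem_Ioc]
    exact ⟨by omega, ht.2⟩
  · intro t _ t' _ h
    omega
  · intro p hp
    rw [mem_filter, mem_Ioc] at hp
    refine ⟨p - m, ?_, by omega⟩
    rw [mem_filter, mem_Icc]
    refine ⟨by omega, ?_⟩
    have : m + (p - m) = p := by omega
    rw [this]
    exact hp.2

/-- the binomial moment as a sum over patterns -/
lemma mom_eq (k N J : ℕ) : ∑ m ∈ Icc 1 N, (pw m J).choose k =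
    ∑ T ∈ (Icc 1 J).powersetCard k, ((Icc 1 N).filter (fun m => ∀ t ∈ T, (m + t).Prime)).card := by
  classical
  have h1 : ∀ m ∈ Icc 1 N, (pw m J).choose k =
      ∑ T ∈ (Icc 1 J).powersetCard k, if ∀ t ∈ T, (m + t).Prime then 1 else 0 := by
    intro m _
    rw [pw_eq, ← card_powersetCard, ← card_filter]
    congr 1
    ext T
    rw [mem_powersetCard, mem_filter, mem_powersetCard]
    constructor
    · rintro ⟨h1, h2⟩
      exact ⟨⟨h1.trans (filter_subset _ _), h2⟩, fun t ht => (mem_filter.1 (h1 ht)).2⟩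
    · rintro ⟨⟨h1, h2⟩, h3⟩
      exact ⟨fun t ht => mem_filter.2 ⟨h1 ht, h3 t ht⟩, h2⟩
  rw [sum_congr rfl h1, sum_comm]
  apply sum_congr rfl
  intro T _
  rw [card_filter]

/-- the pattern of an admissible set -/
lemma cnt_adm (T : Finset ℕ) (hT : Uni.Adm T) (hne : T.Nonempty) (N J : ℕ) (hJ : ∀ t ∈ T, 1 ≤ t ∧ t ≤ J) :
    ((Icc 1 N).filter (fun m => ∀ t ∈ T, (m + t).Prime)).card ≤ Uni.piT T (N + J) := by
  classical
  unfold Uni.piT
  rw [if_pos hT]
  set s := sInf (T : Set ℕ) with hs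
  have hsT : s ∈ T := by
    have := Nat.sInf_mem (s := (T : Set ℕ)) hne
    exact_mod_cast this
  have hle : ∀ t ∈ T, s ≤ t := fun t ht => Nat.sInf_le (by exact_mod_cast ht)
  apply card_le_card_of_injOn (fun m => m + s)
  · intro m hm
    have hm' := mem_filter.1 (mem_coe.1 hm)
    rw [mem_Icc] at hm'
    rw [mem_coe, mem_filter, mem_Icc]
    show (1 ≤ m + s ∧ m + s ≤ N + J) ∧ ∀ t ∈ T, (m + s + (t - s)).Prime
    have h1 := hJ s hsT
    refine ⟨by omega, fun t ht => ?_⟩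
    have h2 := hle t ht
    have : m + s + (t - s) = m + t := by omega
    rw [this]
    exact hm'.2 t ht
  · intro m _ m' _ h
    simp only at h
    omega

/-- inadmissible sets -/
lemma cnt_inadm (T : Finset ℕ) (hT : ¬ Uni.Adm T) (N : ℕ) :
    ((Icc 1 N).filter (fun m => ∀ t ∈ T, (m + t).Prime)).card ≤ T.card := by
  classical
  unfold Uni.Adm at hT
  push Not at hT
  obtain ⟨q, hq, h⟩ := hT
  unfold Uni.nuT at h
  have hqT : q ≤ T.card := h.trans card_image_le
  have hfull : T.image (· % q) = range q := by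
    apply eq_of_subset_of_card_le
    · intro x hx
      obtain ⟨t, _, rfl⟩ := mem_image.1 hx
      exact mem_range.2 (Nat.mod_lt _ hq.pos)
    · rw [card_range]
      exact h
  have hsub : (Icc 1 N).filter (fun m => ∀ t ∈ T, (m + t).Prime) ⊆ Icc 1 q := by
    intro m hm
    rw [mem_filter, mem_Icc] at hm
    rw [mem_Icc]
    refine ⟨hm.1.1, ?_⟩
    have h1 : (q - m % q) % q ∈ T.image (· % q) := by
      rw [hfull]
      exact mem_range.2 (Nat.mod_lt _ hq.pos)
    obtain ⟨t, ht, h2⟩ := mem_image.1 h1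
    have h3 : q ∣ m + t := by
      have h4 : (m + t) % q = 0 := by
        rw [Nat.add_mod, h2, Nat.add_mod_mod]
        have h5 := Nat.mod_lt m hq.pos
        have h6 : m % q + (q - m % q) = q := by omega
        rw [h6, Nat.mod_self]
      exact Nat.dvd_of_mod_eq_zero h4
    have h4 := (Nat.prime_dvd_prime_iff_eq hq (hm.2 t ht)).1 h3
    omega
  refine (card_le_card hsub).trans ?_
  rw [Nat.card_Icc]
  omega

/-- **binomial moments** -/
theorem mom (k : ℕ) (C : ℕ) : ∃ D : ℝ, 0 < D ∧ ∃ N₀ : ℕ, ∀ N : ℕ, N₀ ≤ N → ∀ J : ℕ,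
    Real.log N ≤ J → (J : ℝ) ≤ Real.log N ^ C →
    ((∑ m ∈ Icc 1 N, (pw m J).choose (k + 1) : ℕ) : ℝ) ≤ D * N * (J / Real.log N) ^ (k + 1) := by
  classical
  obtain ⟨B, hB, hup⟩ := Pool.Agent.W218.TX.pi_upper k
  obtain ⟨C1, hC1, hav⟩ := Pool.Agent.TH891.SG.CT_avg k
  obtain ⟨M₀, hM₀⟩ := eventually_atTop.1 (hup C)
  have tN : Tendsto (fun N : ℕ => (N : ℝ)) atTop atTop := tendsto_natCast_atTop_atTop
  have tL : Tendsto (fun N : ℕ => Real.log (N : ℝ)) atTop atTop := Real.tendsto_log_atTop.comp tN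
  have e1 : ∀ᶠ N : ℕ in atTop, Real.log (N : ℝ) ^ C ≤ N := by
    have h := (isLittleO_log_rpow_atTop (r := 1 / (C + 1 : ℝ)) (by positivity)).bound one_pos
    filter_upwards [tN.eventually h, tL.eventually_ge_atTop 1, eventually_ge_atTop 1] with N hN hL hN1
    have hN1' : (1 : ℝ) ≤ N := by exact_mod_cast hN1
    rw [Real.norm_of_nonneg (by linarith), one_mul, Real.norm_of_nonneg (by positivity)] at hN
    calc Real.log (N : ℝ) ^ C ≤ Real.log (N : ℝ) ^ (C + 1) := pow_le_pow_right₀ hL (Nat.le_succ C)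
      _ ≤ ((N : ℝ) ^ (1 / (C + 1 : ℝ))) ^ (C + 1) := by gcongr
      _ = N := by
        rw [← Real.rpow_natCast, ← Real.rpow_mul (by linarith)]
        push_cast
        rw [one_div, inv_mul_cancel₀ (by positivity), Real.rpow_one]
  have e2 : ∀ᶠ N : ℕ in atTop, (k + 1 : ℝ) * Real.log (N : ℝ) ^ (k + 1) ≤ N := by
    have h := (isLittleO_log_rpow_atTop (r := 1 / (k + 2 : ℝ)) (by positivity)).bound one_pos
    filter_upwards [tN.eventually h, tL.eventually_ge_atTop (k + 1), eventually_ge_atTop 1] with N hN hL hN1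
    have hN1' : (1 : ℝ) ≤ N := by exact_mod_cast hN1
    have hL0 : 0 ≤ Real.log (N : ℝ) := by linarith [(Nat.cast_nonneg k : (0 : ℝ) ≤ k)]
    rw [Real.norm_of_nonneg hL0, one_mul, Real.norm_of_nonneg (by positivity)] at hN
    calc (k + 1 : ℝ) * Real.log (N : ℝ) ^ (k + 1) ≤ Real.log (N : ℝ) * Real.log (N : ℝ) ^ (k + 1) := by
          gcongr
      _ = Real.log (N : ℝ) ^ (k + 2) := by ring
      _ ≤ ((N : ℝ) ^ (1 / (k + 2 : ℝ))) ^ (k + 2) := by gcongr
      _ = N := by
        rw [← Real.rpow_natCast, ← Real.rpow_mul (by linarith)]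
        push_cast
        rw [one_div, inv_mul_cancel₀ (by positivity), Real.rpow_one]
  obtain ⟨N₁, h1⟩ := eventually_atTop.1 (e1.and (e2.and (tL.eventually_ge_atTop 1)))
  set F : ℝ := ((1 + C1) * 2) ^ (k + 1) with hF
  refine ⟨2 * B * F + 2 ^ (k + 1), by positivity, max N₁ (max M₀ 2), fun N hN J hJ hJC => ?_⟩
  obtain ⟨g1, g2, g3⟩ := h1 N ((le_max_left _ _).trans hN)
  have hM0 : M₀ ≤ 2 * N := by
    have := (le_max_left M₀ 2).trans ((le_max_right _ _).trans hN)
    omega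
  have hN2 : 2 ≤ N := (le_max_right M₀ 2).trans ((le_max_right _ _).trans hN)
  have hN0 : (0 : ℝ) < N := by
    have : (2 : ℝ) ≤ N := by exact_mod_cast hN2
    linarith
  set L := Real.log (N : ℝ) with hL
  have hL0 : 0 < L := by linarith
  have hJ1 : (1 : ℝ) ≤ J := by linarith
  have hJ1' : 1 ≤ J := by exact_mod_cast hJ1
  have hJN : J ≤ N := by exact_mod_cast hJC.trans g1
  have hlog2 : L ≤ Real.log ((2 * N : ℕ) : ℝ) := by
    rw [hL]
    apply Real.log_le_log hN0
    push_cast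
    linarith
  rw [mom_eq]
  push_cast
  have hterm : ∀ T ∈ (Icc 1 J).powersetCard (k + 1),
      (((Icc 1 N).filter (fun m => ∀ t ∈ T, (m + t).Prime)).card : ℝ) ≤
        2 * B * (N / L ^ (k + 1)) * Uni.CT T + (k + 1) := by
    intro T hT
    rw [mem_powersetCard] at hT
    have hCT := Uni.CT_nonneg T
    by_cases hA : Uni.Adm T
    · have hne : T.Nonempty := by
        rw [← card_pos, hT.2]
        omega
      have h2 := cnt_adm T hA hne N J (fun t ht => mem_Icc.1 (hT.1 ht))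
      have h3 : Uni.piT T (N + J) ≤ Uni.piT T (2 * N) := by
        unfold Uni.piT
        rw [if_pos hA, if_pos hA]
        apply card_le_card
        apply filter_subset_filter
        apply Icc_subset_Icc le_rfl
        omega
      have h4 := hM₀ (2 * N) hM0 T hT.2 (fun t ht => by
        have h5 := (mem_Icc.1 (hT.1 ht)).2
        have h6 : (t : ℝ) ≤ J := by exact_mod_cast h5
        have h7 : (J : ℝ) ≤ L ^ C := hJC
        have h8 : L ^ C ≤ Real.log ((2 * N : ℕ) : ℝ) ^ C := by gcongr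
        have h9 : Real.log ((2 * N : ℕ) : ℝ) ^ ((C : ℕ) : ℝ) = Real.log ((2 * N : ℕ) : ℝ) ^ C :=
          Real.rpow_natCast _ _
        rw [h9]
        linarith)
      have h5 : (((2 * N : ℕ) : ℝ) / Real.log ((2 * N : ℕ) : ℝ) ^ (k + 1)) ≤ 2 * (N / L ^ (k + 1)) := by
        push_cast
        rw [mul_div_assoc]
        have h6 : L ^ (k + 1) ≤ Real.log (2 * (N : ℝ)) ^ (k + 1) := by
          have : L ≤ Real.log (2 * (N : ℝ)) := by
            have := hlog2
            push_cast at this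
            exact this
          gcongr
        gcongr
      calc (((Icc 1 N).filter (fun m => ∀ t ∈ T, (m + t).Prime)).card : ℝ)
          ≤ (Uni.piT T (2 * N) : ℝ) := by exact_mod_cast h2.trans h3
        _ ≤ B * ((((2 * N : ℕ) : ℝ) / Real.log ((2 * N : ℕ) : ℝ) ^ (k + 1)) * Uni.CT T) := h4
        _ ≤ B * ((2 * (N / L ^ (k + 1))) * Uni.CT T) := by gcongr
        _ = 2 * B * (N / L ^ (k + 1)) * Uni.CT T := by ring
        _ ≤ _ := by
          have : (0 : ℝ) ≤ k + 1 := by positivity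
          linarith
    · have h2 := cnt_inadm T hA N
      rw [hT.2] at h2
      have h3 : (((Icc 1 N).filter (fun m => ∀ t ∈ T, (m + t).Prime)).card : ℝ) ≤ k + 1 := by
        exact_mod_cast h2
      have h4 : 0 ≤ 2 * B * (N / L ^ (k + 1)) * Uni.CT T := by positivity
      linarith
  have hsum : ∑ T ∈ (Icc 1 J).powersetCard (k + 1), Uni.CT T ≤ F * (J : ℝ) ^ (k + 1) := by
    have h2 : ∑ T ∈ (Icc 1 J).powersetCard (k + 1), Uni.CT T ≤
        ∑ T ∈ (range (J + 1)).powersetCard (k + 1), Uni.CT T := by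
      apply sum_le_sum_of_subset_of_nonneg
      · apply powersetCard_mono
        intro t ht
        rw [mem_Icc] at ht
        exact mem_range.2 (by omega)
      · intro T _ _
        exact Uni.CT_nonneg T
    have h3 := hav (J + 1) (by omega)
    have h4 : (((J + 1 : ℕ) : ℝ)) ^ (1 / 4 : ℝ) ≤ ((J + 1 : ℕ) : ℝ) := by
      have h5 : (1 : ℝ) ≤ ((J + 1 : ℕ) : ℝ) := by
        push_cast
        linarith
      calc (((J + 1 : ℕ) : ℝ)) ^ (1 / 4 : ℝ) ≤ (((J + 1 : ℕ) : ℝ)) ^ (1 : ℝ) :=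
            Real.rpow_le_rpow_of_exponent_le h5 (by norm_num)
        _ = _ := Real.rpow_one _
    have h6 : ((J + 1 : ℕ) : ℝ) ≤ 2 * J := by
      push_cast
      linarith
    refine h2.trans (h3.trans ?_)
    have h7 : (1 : ℝ) ≤ ((k + 1).factorial : ℝ) := by
      exact_mod_cast Nat.succ_le_of_lt (Nat.factorial_pos (k + 1))
    have h8 : ((J + 1 : ℕ) : ℝ) * (((J + 1 : ℕ) : ℝ) + C1 * ((J + 1 : ℕ) : ℝ) ^ (1 / 4 : ℝ)) ^ k ≤
        F * (J : ℝ) ^ (k + 1) := by
      have h9 : ((J + 1 : ℕ) : ℝ) + C1 * ((J + 1 : ℕ) : ℝ) ^ (1 / 4 : ℝ) ≤ ((1 + C1) * 2) * J := by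
        nlinarith
      have h10 : ((J + 1 : ℕ) : ℝ) ≤ ((1 + C1) * 2) * J := by nlinarith
      calc ((J + 1 : ℕ) : ℝ) * (((J + 1 : ℕ) : ℝ) + C1 * ((J + 1 : ℕ) : ℝ) ^ (1 / 4 : ℝ)) ^ k
          ≤ (((1 + C1) * 2) * J) * (((1 + C1) * 2) * J) ^ k := by gcongr
        _ = F * (J : ℝ) ^ (k + 1) := by
          rw [hF, ← pow_succ', mul_pow]
    refine le_trans ?_ h8
    apply div_le_self _ h7
    positivity
  have hcard : (((Icc 1 J).powersetCard (k + 1)).card : ℝ) ≤ (J : ℝ) ^ (k + 1) := by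
    rw [card_powersetCard, Nat.card_Icc]
    have h2 : (J + 1 - 1).choose (k + 1) ≤ J ^ (k + 1) := by
      have h3 : J + 1 - 1 = J := by omega
      rw [h3]
      exact Nat.choose_le_pow _ _
    exact_mod_cast h2
  calc ∑ T ∈ (Icc 1 J).powersetCard (k + 1),
        (((Icc 1 N).filter (fun m => ∀ t ∈ T, (m + t).Prime)).card : ℝ)
      ≤ ∑ T ∈ (Icc 1 J).powersetCard (k + 1), (2 * B * (N / L ^ (k + 1)) * Uni.CT T + (k + 1)) :=
        sum_le_sum hterm
    _ = 2 * B * (N / L ^ (k + 1)) * ∑ T ∈ (Icc 1 J).powersetCard (k + 1), Uni.CT T +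
        ((Icc 1 J).powersetCard (k + 1)).card * (k + 1) := by
        rw [sum_add_distrib, ← mul_sum, sum_const, nsmul_eq_mul]
    _ ≤ 2 * B * (N / L ^ (k + 1)) * (F * (J : ℝ) ^ (k + 1)) + (J : ℝ) ^ (k + 1) * (k + 1) := by
        gcongr
    _ ≤ (2 * B * F + 2 ^ (k + 1)) * N * (J / L) ^ (k + 1) := by
        have h2 : (k + 1 : ℝ) ≤ N / L ^ (k + 1) := by
          rw [le_div_iff₀ (by positivity)]
          exact g2
        have h3 : (J : ℝ) ^ (k + 1) * (k + 1) ≤ (J : ℝ) ^ (k + 1) * (N / L ^ (k + 1)) := by gcongr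
        have h4 : (J / L : ℝ) ^ (k + 1) = (J : ℝ) ^ (k + 1) / L ^ (k + 1) := div_pow _ _ _
        have h5 : (1 : ℝ) ≤ 2 ^ (k + 1) := one_le_pow₀ (by norm_num)
        rw [h4]
        have h6 : 2 * B * (N / L ^ (k + 1)) * (F * (J : ℝ) ^ (k + 1)) +
            (J : ℝ) ^ (k + 1) * (N / L ^ (k + 1)) =
            (2 * B * F + 1) * N * ((J : ℝ) ^ (k + 1) / L ^ (k + 1)) := by
          field_simp
        have h7 : (2 * B * F + 1) * N * ((J : ℝ) ^ (k + 1) / L ^ (k + 1)) ≤
            (2 * B * F + 2 ^ (k + 1)) * N * ((J : ℝ) ^ (k + 1) / L ^ (k + 1)) := by gcongr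
        linarith

end Pool.Agent.TH882.IX
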