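import Mathlib
import Pool.Agent.TH882.U1

/-! Windows with many primes and close pairs of primes. -/

set_option autoImplicit false

open Finset Filter Topology

namespace Pool.Agent.TH882.IX

/-- **few windows contain many primes** -/
theorem big (k : ℕ) (C : ℕ) : ∃ D : ℝ, 0 < D ∧ ∃ N₀ : ℕ, ∀ N : ℕ, N₀ ≤ N → ∀ J : ℕ,
    Real.log N ≤ J → (J : ℝ) ≤ Real.log N ^ C → ∀ lam : ℝ, 0 < lam →
    ((((Icc 1 N).filter (fun m => lam * J / Real.log N < pw m J)).card : ℕ) : ℝ) ≤
      D * N / lam ^ (k + 1) := by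
  classical
  obtain ⟨D, hD, N₀, h⟩ := mom k C
  refine ⟨(2 * (k + 1)) ^ (k + 1) + D * (k + 1).factorial * 2 ^ (k + 1), by positivity, max N₀ 3,
    fun N hN J hJ hJC lam hl => ?_⟩
  have h1 := h N ((le_max_left _ _).trans hN) J hJ hJC
  have hN3 : 3 ≤ N := (le_max_right _ _).trans hN
  have hN3' : (3 : ℝ) ≤ N := by exact_mod_cast hN3
  have hN0 : (0 : ℝ) < N := by linarith
  set L := Real.log (N : ℝ) with hL
  have hL1 : 1 ≤ L := by
    have h2 : Real.log (Real.exp 1) ≤ Real.log N := by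
      apply Real.log_le_log (Real.exp_pos 1)
      have := Real.exp_one_lt_d9
      linarith
    rwa [Real.log_exp] at h2
  have hL0 : 0 < L := by linarith
  have hJ0 : (0 : ℝ) < J := by linarith
  set A := (Icc 1 N).filter (fun m => lam * J / L < pw m J) with hA
  have hAN : (A.card : ℝ) ≤ N := by
    have h2 : A.card ≤ (Icc 1 N).card := card_le_card (filter_subset _ _)
    rw [Nat.card_Icc] at h2
    exact_mod_cast h2
  have hlk : 0 < lam ^ (k + 1) := by positivity
  rw [le_div_iff₀ hlk]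
  by_cases hlam : lam ≤ 2 * (k + 1)
  · have h2 : lam ^ (k + 1) ≤ (2 * (k + 1 : ℝ)) ^ (k + 1) := by gcongr
    calc (A.card : ℝ) * lam ^ (k + 1) ≤ N * (2 * (k + 1 : ℝ)) ^ (k + 1) := by gcongr
      _ ≤ _ := by
        have : 0 ≤ D * (k + 1).factorial * 2 ^ (k + 1) * N := by positivity
        linarith
  · push Not at hlam
    have hterm : ∀ m ∈ A, (lam * (J / L) / 2) ^ (k + 1) / ((k + 1).factorial : ℝ) ≤
        ((pw m J).choose (k + 1) : ℝ) := by
      intro m hm
      have hm2 := (mem_filter.1 hm).2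
      have h3 : 1 ≤ (J : ℝ) / L := by
        rw [le_div_iff₀ hL0]
        linarith
      have h4 : lam * (J / L) < pw m J := by
        have : lam * J / L = lam * (J / L) := by ring
        rw [this] at hm2
        exact hm2
      have h5 : (2 * (k + 1) : ℝ) < pw m J := by
        have : lam * 1 ≤ lam * (J / L) := by gcongr
        linarith
      have h6 : 2 * (k + 1) < pw m J := by exact_mod_cast h5
      have h7 := Nat.pow_le_choose (α := ℝ) (k + 1) (pw m J)
      refine le_trans ?_ h7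
      have h8 : lam * (J / L) / 2 ≤ ((pw m J + 1 - (k + 1) : ℕ) : ℝ) := by
        have h9 : pw m J + 1 - (k + 1) = pw m J - k := by omega
        rw [h9, Nat.cast_sub (by omega)]
        have h10 : (k : ℝ) ≤ (pw m J : ℝ) / 2 := by
          have : (2 * (k + 1) : ℝ) < pw m J := h5
          linarith
        linarith
      gcongr
    have hsum : (A.card : ℝ) * ((lam * (J / L) / 2) ^ (k + 1) / ((k + 1).factorial : ℝ)) ≤
        D * N * (J / L) ^ (k + 1) := by
      refine le_trans ?_ h1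
      push_cast
      calc (A.card : ℝ) * ((lam * (J / L) / 2) ^ (k + 1) / ((k + 1).factorial : ℝ))
          = ∑ m ∈ A, ((lam * (J / L) / 2) ^ (k + 1) / ((k + 1).factorial : ℝ)) := by
            rw [sum_const, nsmul_eq_mul]
        _ ≤ ∑ m ∈ A, ((pw m J).choose (k + 1) : ℝ) := sum_le_sum hterm
        _ ≤ ∑ m ∈ Icc 1 N, ((pw m J).choose (k + 1) : ℝ) :=
            sum_le_sum_of_subset_of_nonneg (filter_subset _ _) (fun _ _ _ => Nat.cast_nonneg _)
    have hf : (0 : ℝ) < ((k + 1).factorial : ℝ) := by exact_mod_cast Nat.factorial_pos _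
    have hJL : 0 < (J / L : ℝ) ^ (k + 1) := by positivity
    have h9 : (A.card : ℝ) * lam ^ (k + 1) ≤ D * (k + 1).factorial * 2 ^ (k + 1) * N := by
      have e1 : (A.card : ℝ) * ((lam * (J / L) / 2) ^ (k + 1) / ((k + 1).factorial : ℝ)) =
          ((A.card : ℝ) * lam ^ (k + 1)) * ((J / L) ^ (k + 1) / (2 ^ (k + 1) * ((k + 1).factorial : ℝ))) := by
        rw [div_pow, mul_pow]
        field_simp
      rw [e1] at hsum
      have e2 : D * N * (J / L) ^ (k + 1) = (D * (k + 1).factorial * 2 ^ (k + 1) * N) *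
          ((J / L) ^ (k + 1) / (2 ^ (k + 1) * ((k + 1).factorial : ℝ))) := by
        field_simp
      rw [e2] at hsum
      exact le_of_mul_le_mul_right hsum (by positivity)
    have : 0 ≤ (2 * (k + 1 : ℝ)) ^ (k + 1) * N := by positivity
    linarith

/-- the pairs of primes at distance at most `J` -/
def prs (N J : ℕ) : Finset (ℕ × ℕ) :=
  (Icc 1 N ×ˢ Icc 1 N).filter (fun x => x.1.Prime ∧ x.2.Prime ∧ x.1 < x.2 ∧ x.2 ≤ x.1 + J)

lemma pairs_choose (S : Finset (ℕ × ℕ)) (m J : ℕ) (hS : ∀ x ∈ S, x.1.Prime ∧ x.2.Prime ∧ x.1 < x.2) :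
    (S.filter (fun x => m < x.1 ∧ x.2 ≤ m + J)).card ≤ (pw m J).choose 2 := by
  classical
  unfold pw
  rw [← card_powersetCard]
  apply card_le_card_of_injOn (fun x => ({x.1, x.2} : Finset ℕ))
  · intro x hx
    have hx' := mem_filter.1 (mem_coe.1 hx)
    obtain ⟨h1, h2, h3⟩ := hS x hx'.1
    rw [mem_coe, mem_powersetCard]
    constructor
    · intro y hy
      rw [mem_insert, mem_singleton] at hy
      rw [mem_filter, mem_Ioc]
      rcases hy with rfl | rfl
      · exact ⟨⟨hx'.2.1, by omega⟩, h1⟩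
      · exact ⟨⟨by omega, hx'.2.2⟩, h2⟩
    · exact card_pair (by omega)
  · rintro ⟨a, b⟩ hx ⟨c, d⟩ hy h
    have h1 := (hS _ (mem_filter.1 (mem_coe.1 hx)).1).2.2
    have h2 := (hS _ (mem_filter.1 (mem_coe.1 hy)).1).2.2
    simp only at h h1 h2
    have ha : a ∈ ({c, d} : Finset ℕ) := by rw [← h]; simp
    have hb : b ∈ ({c, d} : Finset ℕ) := by rw [← h]; simp
    have hc : c ∈ ({a, b} : Finset ℕ) := by rw [h]; simp
    rw [mem_insert, mem_singleton] at ha hb hc
    rw [Prod.mk.injEq]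
    omega

/-- **close pairs of primes** -/
theorem pairs (C : ℕ) : ∃ D : ℝ, 0 < D ∧ ∃ N₀ : ℕ, ∀ N : ℕ, N₀ ≤ N → ∀ J : ℕ,
    Real.log N ≤ J → (J : ℝ) ≤ Real.log N ^ C →
    ((prs N J).card : ℝ) ≤ D * N * J / Real.log N ^ 2 := by
  classical
  obtain ⟨D, hD, N₀, h⟩ := mom 1 (C + 1)
  have tN : Tendsto (fun N : ℕ => (N : ℝ)) atTop atTop := tendsto_natCast_atTop_atTop
  have tL : Tendsto (fun N : ℕ => Real.log (N : ℝ)) atTop atTop := Real.tendsto_log_atTop.comp tN
  have e1 : ∀ᶠ N : ℕ in atTop, Real.log (N : ℝ) ^ (C + 2) ≤ N := by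
    have h := (isLittleO_log_rpow_atTop (r := 1 / (C + 2 : ℝ)) (by positivity)).bound one_pos
    filter_upwards [tN.eventually h, tL.eventually_ge_atTop 1, eventually_ge_atTop 1] with N hN hL hN1
    have hN1' : (1 : ℝ) ≤ N := by exact_mod_cast hN1
    rw [Real.norm_of_nonneg (by linarith), one_mul, Real.norm_of_nonneg (by positivity)] at hN
    calc Real.log (N : ℝ) ^ (C + 2) ≤ ((N : ℝ) ^ (1 / (C + 2 : ℝ))) ^ (C + 2) := by gcongr
      _ = N := by
        rw [← Real.rpow_natCast, ← Real.rpow_mul (by linarith)]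
        push_cast
        rw [one_div, inv_mul_cancel₀ (by positivity), Real.rpow_one]
  obtain ⟨N₁, h1⟩ := eventually_atTop.1 (e1.and (tL.eventually_ge_atTop 2))
  refine ⟨4 * D + 2, by positivity, max N₀ (max N₁ 2), fun N hN J hJ hJC => ?_⟩
  obtain ⟨g1, g2⟩ := h1 N ((le_max_left _ _).trans ((le_max_right _ _).trans hN))
  have hN2 : 2 ≤ N := (le_max_right _ _).trans ((le_max_right _ _).trans hN)
  have hN0 : (0 : ℝ) < N := by
    have : (2 : ℝ) ≤ N := by exact_mod_cast hN2
    linarith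
  set L := Real.log (N : ℝ) with hL
  have hL0 : 0 < L := by linarith
  have hJ0 : (0 : ℝ) < J := by linarith
  have h2 := h N ((le_max_left _ _).trans hN) (2 * J) (by push_cast; linarith) (by
    push_cast
    calc 2 * (J : ℝ) ≤ L * L ^ C := by gcongr
      _ = L ^ (C + 1) := by ring)
  set S := (prs N J).filter (fun x => 2 * J < x.1) with hS
  have hSp : ∀ x ∈ S, (x.1 ∈ Icc 1 N ∧ x.2 ∈ Icc 1 N) ∧ x.1.Prime ∧ x.2.Prime ∧ x.1 < x.2 ∧
      x.2 ≤ x.1 + J := by
    intro x hx
    have h3 := (mem_filter.1 hx).1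
    unfold prs at h3
    rw [mem_filter, mem_product] at h3
    exact h3
  have hS1 : J * S.card ≤ ∑ m ∈ Icc 1 N, (pw m (2 * J)).choose 2 := by
    calc J * S.card = ∑ x ∈ S, J := by rw [sum_const, smul_eq_mul, mul_comm]
      _ ≤ ∑ x ∈ S, ((Icc 1 N).filter (fun m => m < x.1 ∧ x.2 ≤ m + 2 * J)).card := by
          apply sum_le_sum
          intro x hx
          obtain ⟨⟨h3, h4⟩, -, -, h5, h6⟩ := hSp x hx
          have h7 := (mem_filter.1 hx).2
          rw [mem_Icc] at h3 h4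
          have h8 : Ico (x.2 - 2 * J) x.1 ⊆ (Icc 1 N).filter (fun m => m < x.1 ∧ x.2 ≤ m + 2 * J) := by
            intro m hm
            rw [mem_Ico] at hm
            rw [mem_filter, mem_Icc]
            omega
          have h9 := card_le_card h8
          rw [Nat.card_Ico] at h9
          omega
      _ = ∑ m ∈ Icc 1 N, (S.filter (fun x => m < x.1 ∧ x.2 ≤ m + 2 * J)).card := by
          simp only [card_filter]
          exact sum_comm
      _ ≤ _ := sum_le_sum fun m _ => pairs_choose S m (2 * J) (fun x hx => by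
          obtain ⟨-, h3, h4, h5, -⟩ := hSp x hx
          exact ⟨h3, h4, h5⟩)
  have hS2 : (J : ℝ) * S.card ≤ D * N * (2 * J / L) ^ 2 := by
    calc (J : ℝ) * S.card ≤ ((∑ m ∈ Icc 1 N, (pw m (2 * J)).choose 2 : ℕ) : ℝ) := by
          exact_mod_cast hS1
      _ ≤ D * N * (((2 * J : ℕ) : ℝ) / L) ^ (1 + 1) := h2
      _ = _ := by push_cast; ring
  have hS3 : (S.card : ℝ) ≤ 4 * D * N * J / L ^ 2 := by
    have h3 : D * N * (2 * J / L) ^ 2 = (J : ℝ) * (4 * D * N * J / L ^ 2) := by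
      field_simp
      ring
    rw [h3] at hS2
    exact le_of_mul_le_mul_left hS2 hJ0
  have hsmall : (((prs N J).filter (fun x => ¬ 2 * J < x.1)).card : ℝ) ≤ 2 * J * J := by
    have h3 : (prs N J).filter (fun x => ¬ 2 * J < x.1) ⊆
        (Icc 1 (2 * J) ×ˢ Icc 1 J).image (fun y => (y.1, y.1 + y.2)) := by
      rintro ⟨a, b⟩ hx
      rw [mem_filter] at hx
      unfold prs at hx
      rw [mem_filter, mem_product, mem_Icc, mem_Icc] at hx
      obtain ⟨⟨⟨h4, h5⟩, h6, h7, h8, h9⟩, h10⟩ := hx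
      simp only at h4 h5 h6 h7 h8 h9 h10
      rw [mem_image]
      refine ⟨(a, b - a), ?_, ?_⟩
      · rw [mem_product, mem_Icc, mem_Icc]
        simp only
        omega
      · simp only
        rw [Prod.mk.injEq]
        omega
    have h4 := (card_le_card h3).trans card_image_le
    rw [card_product, Nat.card_Icc, Nat.card_Icc] at h4
    have h5 : ((prs N J).filter (fun x => ¬ 2 * J < x.1)).card ≤ 2 * J * J := by
      simpa using h4
    exact_mod_cast h5
  have hsplit : ((prs N J).card : ℝ) = S.card +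
      (((prs N J).filter (fun x => ¬ 2 * J < x.1)).card : ℝ) := by
    rw [hS]
    exact_mod_cast (card_filter_add_card_filter_not (s := prs N J) (fun x => 2 * J < x.1)).symm
  have hlast : 2 * (J : ℝ) * J ≤ 2 * N * J / L ^ 2 := by
    rw [le_div_iff₀ (by positivity)]
    have h3 : (J : ℝ) * L ^ 2 ≤ N := by
      calc (J : ℝ) * L ^ 2 ≤ L ^ C * L ^ 2 := by gcongr
        _ = L ^ (C + 2) := by ring
        _ ≤ N := g1
    calc 2 * (J : ℝ) * (J : ℝ) * L ^ 2 = 2 * (J : ℝ) * ((J : ℝ) * L ^ 2) := by ring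
      _ ≤ 2 * (J : ℝ) * (N : ℝ) := by gcongr
      _ = 2 * (N : ℝ) * (J : ℝ) := by ring
  rw [hsplit]
  calc (S.card : ℝ) + (((prs N J).filter (fun x => ¬ 2 * J < x.1)).card : ℝ)
      ≤ 4 * D * N * J / L ^ 2 + 2 * N * J / L ^ 2 := add_le_add hS3 (hsmall.trans hlast)
    _ = (4 * D + 2) * N * J / L ^ 2 := by ring

end Pool.Agent.TH882.IX
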