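import Mathlib
import Pool.Agent.TH882.U2
import Pool.Agent.Helper923.PNT

/-! Iterated prime-indexed primes: few exceptional ones and few close pairs. -/

set_option autoImplicit false

open Finset Filter Topology

namespace Pool.Agent.TH882.IX

lemma pi_card (n : ℕ) : Nat.primeCounting n = ((Ioc 0 n).filter Nat.Prime).card := by
  unfold Nat.primeCounting Nat.primeCounting'
  rw [Nat.count_eq_card_filter_range]
  congr 1
  ext p
  rw [mem_filter, mem_filter, mem_range, mem_Ioc]
  constructor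
  · rintro ⟨h1, h2⟩
    exact ⟨⟨h2.pos, by omega⟩, h2⟩
  · rintro ⟨⟨h1, h2⟩, h3⟩
    exact ⟨by omega, h3⟩

lemma pi_add (m J : ℕ) : Nat.primeCounting (m + J) = Nat.primeCounting m + pw m J := by
  rw [pi_card, pi_card]
  unfold pw
  rw [← card_union_of_disjoint]
  · congr 1
    ext p
    rw [mem_union, mem_filter, mem_filter, mem_filter, mem_Ioc, mem_Ioc, mem_Ioc]
    constructor
    · rintro ⟨h1, h2⟩
      by_cases h : p ≤ m
      · exact Or.inl ⟨⟨h1.1, h⟩, h2⟩
      · exact Or.inr ⟨⟨by omega, h1.2⟩, h2⟩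
    · rintro (⟨h1, h2⟩ | ⟨h1, h2⟩)
      · exact ⟨⟨h1.1, by omega⟩, h2⟩
      · exact ⟨⟨by omega, h1.2⟩, h2⟩
  · rw [disjoint_left]
    intro p hp hq
    rw [mem_filter, mem_Ioc] at hp hq
    omega

lemma pi_lt {x y : ℕ} (h : x < y) (hy : y.Prime) : Nat.primeCounting x < Nat.primeCounting y := by
  have h1 := pi_add x (y - x)
  have h2 : x + (y - x) = y := by omega
  rw [h2] at h1
  have h3 : 0 < pw x (y - x) := by
    unfold pw
    rw [card_pos]
    exact ⟨y, mem_filter.2 ⟨mem_Ioc.2 ⟨h, by omega⟩, hy⟩⟩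
  omega

lemma pi_inj {x y : ℕ} (hx : x.Prime) (hy : y.Prime)
    (h : Nat.primeCounting x = Nat.primeCounting y) : x = y := by
  rcases lt_trichotomy x y with h1 | h1 | h1
  · have := pi_lt h1 hy
    omega
  · exact h1
  · have := pi_lt h1 hx
    omega

lemma pi_pos {x : ℕ} (hx : x.Prime) : 1 ≤ Nat.primeCounting x := by
  have h := pi_lt hx.pos hx
  omega

/-- `q` is a prime whose index is a prime whose index ... (`b + 1` primes) -/
def IsP : ℕ → ℕ → Prop
  | 0, q => q.Prime
  | b + 1, q => q.Prime ∧ IsP b (Nat.primeCounting q)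

/-- the good iterated primes -/
def Gd (lam : ℝ) : ℕ → ℕ → ℕ → ℕ → Prop
  | 0, _, _, q => q.Prime
  | b + 1, N, J, q => q.Prime ∧ pw q J ≤ ⌊lam * J / Real.log N⌋₊ ∧
      Gd lam b (Nat.primeCounting N) ⌊lam * J / Real.log N⌋₊ (Nat.primeCounting q)

lemma IsP_prime (b q : ℕ) (h : IsP b q) : q.Prime := by
  cases b with
  | zero => exact h
  | succ b => exact h.1

lemma Gd_prime (lam : ℝ) (b N J q : ℕ) (h : Gd lam b N J q) : q.Prime := by
  cases b with
  | zero => exact h
  | succ b => exact h.1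

lemma Gd_IsP (lam : ℝ) (b : ℕ) : ∀ N J q : ℕ, Gd lam b N J q → IsP b q := by
  induction b with
  | zero => intro N J q h; exact h
  | succ b ih => intro N J q h; exact ⟨h.1, ih _ _ _ h.2.2⟩

/-- prime number theorem in the form needed -/
lemma pnt_ev : ∀ᶠ N : ℕ in atTop, (N : ℝ) / (2 * Real.log N) ≤ (Nat.primeCounting N : ℝ) ∧
    (Nat.primeCounting N : ℝ) ≤ 2 * N / Real.log N ∧
    Real.log N / 2 ≤ Real.log (Nat.primeCounting N : ℝ) ∧ (Nat.primeCounting N : ℝ) ≤ N := by
  have tN : Tendsto (fun N : ℕ => (N : ℝ)) atTop atTop := tendsto_natCast_atTop_atTop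
  have tL : Tendsto (fun N : ℕ => Real.log (N : ℝ)) atTop atTop := Real.tendsto_log_atTop.comp tN
  have h0 := Pool.Agent.Helper923.PNT.pi_tendsto.comp tN
  have h1 := h0.eventually (Ioo_mem_nhds (by norm_num : (1 / 2 : ℝ) < 1) (by norm_num : (1 : ℝ) < 2))
  have h2 := (isLittleO_log_rpow_atTop (r := 1 / 2) (by norm_num)).bound
    (by norm_num : (0 : ℝ) < 1 / 2)
  filter_upwards [h1, tN.eventually h2, tL.eventually_ge_atTop 1, eventually_ge_atTop 1] with N g1 g2 g3 g4
  simp only [Function.comp, Nat.floor_natCast, Set.mem_Ioo] at g1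
  have hN1 : (1 : ℝ) ≤ N := by exact_mod_cast g4
  have hN0 : (0 : ℝ) < N := by linarith
  have hL0 : 0 < Real.log (N : ℝ) := by linarith
  rw [Real.norm_of_nonneg hL0.le, Real.norm_of_nonneg (by positivity)] at g2
  obtain ⟨a1, a2⟩ := g1
  rw [lt_div_iff₀ hN0] at a1
  rw [div_lt_iff₀ hN0] at a2
  have b1 : (N : ℝ) / (2 * Real.log N) ≤ (Nat.primeCounting N : ℝ) := by
    rw [div_le_iff₀ (by positivity)]
    linarith
  have b2 : (Nat.primeCounting N : ℝ) ≤ 2 * N / Real.log N := by
    rw [le_div_iff₀ hL0]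
    linarith
  have b4 : (Nat.primeCounting N : ℝ) ≤ N := by
    have : Nat.primeCounting N ≤ N := by
      rw [pi_card]
      refine (card_le_card (filter_subset _ _)).trans ?_
      rw [Nat.card_Ioc]
      omega
    exact_mod_cast this
  refine ⟨b1, b2, ?_, b4⟩
  have h3 : (N : ℝ) ^ (1 / 2 : ℝ) ≤ (Nat.primeCounting N : ℝ) := by
    refine le_trans ?_ b1
    rw [le_div_iff₀ (by positivity)]
    calc (N : ℝ) ^ (1 / 2 : ℝ) * (2 * Real.log N) ≤ (N : ℝ) ^ (1 / 2 : ℝ) * (2 * (1 / 2 * (N : ℝ) ^ (1 / 2 : ℝ))) := by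
          gcongr
      _ = (N : ℝ) ^ (1 / 2 : ℝ) * (N : ℝ) ^ (1 / 2 : ℝ) := by ring
      _ = N := by
        rw [← Real.rpow_add hN0]
        norm_num
  calc Real.log N / 2 = Real.log ((N : ℝ) ^ (1 / 2 : ℝ)) := by
        rw [Real.log_rpow hN0]
        ring
    _ ≤ _ := Real.log_le_log (by positivity) h3

/-- the close pairs of good iterated primes -/
noncomputable def cp (lam : ℝ) (b N J : ℕ) : Finset (ℕ × ℕ) := by
  classical
  exact (Icc 1 N ×ˢ Icc 1 N).filter (fun x => Gd lam b N J x.1 ∧ Gd lam b N J x.2 ∧ x.1 < x.2 ∧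
    x.2 ≤ x.1 + J)

/-- the iterated primes which are not good -/
noncomputable def bd (lam : ℝ) (b N J : ℕ) : Finset ℕ := by
  classical
  exact (Icc 1 N).filter (fun q => IsP b q ∧ ¬ Gd lam b N J q)

/-- **the exceptional iterated primes and the close pairs** -/
theorem main_rec (b : ℕ) : ∀ k C : ℕ, ∃ D : ℝ, 0 < D ∧ ∃ N₀ : ℕ, ∀ N : ℕ, N₀ ≤ N →
    ∀ lam : ℝ, 2 ≤ lam → lam ≤ Real.log N ^ C → ∀ J : ℕ, Real.log N ^ (b + 1) ≤ J →
    (J : ℝ) ≤ Real.log N ^ C →
    ((bd lam b N J).card : ℝ) ≤ D * N / lam ^ (k + 1) ∧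
    ((cp lam b N J).card : ℝ) ≤ D * lam ^ b * J * N / Real.log N ^ (2 * b + 2) := by
  classical
  induction b with
  | zero =>
    intro k C
    obtain ⟨D, hD, N₀, h⟩ := pairs C
    refine ⟨D, hD, N₀, fun N hN lam hl2 hlC J hJ hJC => ⟨?_, ?_⟩⟩
    · have h0 : bd lam 0 N J = ∅ := by
        unfold bd
        rw [filter_eq_empty_iff]
        rintro q - ⟨h1, h2⟩
        exact h2 h1
      rw [h0, card_empty, Nat.cast_zero]
      positivity
    · have h1 := h N hN J (by simpa using hJ) hJC
      have h2 : cp lam 0 N J ⊆ prs N J := by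
        intro x hx
        unfold cp at hx
        rw [mem_filter] at hx
        unfold prs
        rw [mem_filter]
        exact hx
      calc ((cp lam 0 N J).card : ℝ) ≤ ((prs N J).card : ℝ) := by exact_mod_cast card_le_card h2
        _ ≤ D * N * J / Real.log N ^ 2 := h1
        _ = _ := by simp only [pow_zero, mul_one, mul_zero, zero_add]; ring
  | succ b ih =>
    intro k C
    obtain ⟨D1, hD1, N₁, h1⟩ := ih k (4 * C)
    obtain ⟨D2, hD2, N₂, h2⟩ := big k C
    have tN : Tendsto (fun N : ℕ => (N : ℝ)) atTop atTop := tendsto_natCast_atTop_atTop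
    have tL : Tendsto (fun N : ℕ => Real.log (N : ℝ)) atTop atTop := Real.tendsto_log_atTop.comp tN
    have tP : ∀ᶠ N : ℕ in atTop, N₁ ≤ Nat.primeCounting N :=
      Nat.tendsto_primeCounting.eventually_ge_atTop N₁
    obtain ⟨N₃, h3⟩ := eventually_atTop.1 (pnt_ev.and (tP.and (tL.eventually_ge_atTop 4)))
    refine ⟨D1 * 2 ^ (2 * b + 3) + D2, by positivity, max N₂ (max N₃ 1),
      fun N hN lam hl2 hlC J hJ hJC => ?_⟩
    obtain ⟨⟨p1, p2, p3, p4⟩, p5, p6⟩ := h3 N ((le_max_left _ _).trans ((le_max_right _ _).trans hN))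
    have hN1 : 1 ≤ N := (le_max_right _ _).trans ((le_max_right _ _).trans hN)
    have hN0 : (0 : ℝ) < N := by exact_mod_cast hN1
    set L := Real.log (N : ℝ) with hL
    set N' := Nat.primeCounting N with hN'
    set J' := ⌊lam * J / L⌋₊ with hJ'
    set L' := Real.log (N' : ℝ) with hL'
    have hL0 : 0 < L := by linarith
    have hL1 : 1 ≤ L := by linarith
    have hL'2 : 2 ≤ L' := by linarith
    have hL'0 : 0 < L' := by linarith
    have hN'0 : (0 : ℝ) < N' := by
      refine lt_of_lt_of_le ?_ p1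
      positivity
    have hL'L : L' ≤ L := Real.log_le_log hN'0 p4
    have hLL' : L ≤ L' ^ 2 := by nlinarith
    have hLL2 : L ≤ 2 * L' := by linarith
    have hlam0 : 0 < lam := by linarith
    have hJL : L ≤ J := by
      refine le_trans ?_ hJ
      calc L = L ^ 1 := (pow_one L).symm
        _ ≤ L ^ (b + 1 + 1) := pow_le_pow_right₀ hL1 (by omega)
    have hJ0 : (0 : ℝ) < J := by linarith
    -- the parameters at the lower level
    have q1 : lam ≤ L' ^ (4 * C) := by
      calc lam ≤ L ^ C := hlC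
        _ ≤ (L' ^ 2) ^ C := by gcongr
        _ = L' ^ (2 * C) := by rw [← pow_mul]
        _ ≤ L' ^ (4 * C) := pow_le_pow_right₀ (by linarith) (by omega)
    have q2 : L' ^ (b + 1) ≤ J' := by
      have h4 : lam * J / L - 1 < J' := Nat.sub_one_lt_floor _
      have h5 : 2 * L ^ (b + 1) ≤ lam * J / L := by
        rw [le_div_iff₀ hL0]
        calc 2 * L ^ (b + 1) * L = 2 * L ^ (b + 1 + 1) := by ring
          _ ≤ lam * J := by gcongr
      have h6 : L' ^ (b + 1) ≤ L ^ (b + 1) := by gcongr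
      have h7 : 1 ≤ L ^ (b + 1) := one_le_pow₀ hL1
      linarith
    have q3 : (J' : ℝ) ≤ lam * J / L := Nat.floor_le (by positivity)
    have q4 : (J' : ℝ) ≤ L' ^ (4 * C) := by
      calc (J' : ℝ) ≤ lam * J / L := q3
        _ ≤ lam * J / 1 := by gcongr
        _ = lam * J := div_one _
        _ ≤ L ^ C * L ^ C := by gcongr
        _ = L ^ (2 * C) := by rw [← pow_add]; ring_nf
        _ ≤ (L' ^ 2) ^ (2 * C) := by gcongr
        _ = L' ^ (4 * C) := by rw [← pow_mul]; ring_nf
    obtain ⟨r1, r2⟩ := h1 N' p5 lam hl2 q1 J' q2 q4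
    constructor
    · -- the exceptional elements
      have hsub : bd lam (b + 1) N J ⊆ (Icc 1 N).filter (fun m => lam * J / L < pw m J) ∪
          (Icc 1 N).filter (fun q => q.Prime ∧ Nat.primeCounting q ∈ bd lam b N' J') := by
        intro q hq
        unfold bd at hq
        rw [mem_filter] at hq
        obtain ⟨hq1, ⟨hq2, hq3⟩, hq4⟩ := hq
        rw [mem_union, mem_filter, mem_filter]
        by_cases hw : pw q J ≤ J'
        · right
          refine ⟨hq1, hq2, ?_⟩
          unfold bd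
          rw [mem_filter, mem_Icc]
          refine ⟨⟨pi_pos hq2, Nat.monotone_primeCounting (mem_Icc.1 hq1).2⟩, hq3, fun h => ?_⟩
          exact hq4 ⟨hq2, hw, h⟩
        · left
          exact ⟨hq1, Nat.lt_of_floor_lt (not_le.1 hw)⟩
      have hcard : ((Icc 1 N).filter (fun q => q.Prime ∧ Nat.primeCounting q ∈ bd lam b N' J')).card ≤
          (bd lam b N' J').card := by
        apply card_le_card_of_injOn Nat.primeCounting
        · intro q hq
          exact (mem_filter.1 (mem_coe.1 hq)).2.2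
        · intro q hq q' hq' h
          exact pi_inj (mem_filter.1 (mem_coe.1 hq)).2.1 (mem_filter.1 (mem_coe.1 hq')).2.1 h
      have h4 := h2 N ((le_max_left _ _).trans hN) J hJL hJC lam hlam0
      have h5 := (card_le_card hsub).trans (card_union_le _ _)
      have h6 : ((bd lam (b + 1) N J).card : ℝ) ≤
          (((Icc 1 N).filter (fun m => lam * J / L < pw m J)).card : ℝ) +
          ((bd lam b N' J').card : ℝ) := by
        exact_mod_cast h5.trans (Nat.add_le_add_left hcard _)
      refine h6.trans ?_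
      have h7 : D1 * N' / lam ^ (k + 1) ≤ D1 * 2 ^ (2 * b + 3) * N / lam ^ (k + 1) := by
        have : (1 : ℝ) ≤ 2 ^ (2 * b + 3) := one_le_pow₀ (by norm_num)
        have h8 : D1 * N' ≤ D1 * 2 ^ (2 * b + 3) * N := by
          calc D1 * N' = D1 * 1 * N' := by ring
            _ ≤ D1 * 2 ^ (2 * b + 3) * N := by gcongr
        gcongr
      calc (((Icc 1 N).filter (fun m => lam * J / L < pw m J)).card : ℝ) +
          ((bd lam b N' J').card : ℝ) ≤ D2 * N / lam ^ (k + 1) +
            D1 * 2 ^ (2 * b + 3) * N / lam ^ (k + 1) := add_le_add h4 (r1.trans h7)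
        _ = _ := by ring
    · -- the close pairs
      have hcard : (cp lam (b + 1) N J).card ≤ (cp lam b N' J').card := by
        apply card_le_card_of_injOn (fun x => (Nat.primeCounting x.1, Nat.primeCounting x.2))
        · intro x hx
          have hx' := mem_coe.1 hx
          unfold cp at hx'
          rw [mem_filter, mem_product, mem_Icc, mem_Icc] at hx'
          obtain ⟨⟨a1, a2⟩, ⟨a3, a4, a5⟩, ⟨a6, a7, a8⟩, a9, a10⟩ := hx'
          rw [mem_coe]
          unfold cp
          rw [mem_filter, mem_product, mem_Icc, mem_Icc]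
          refine ⟨⟨⟨pi_pos a3, Nat.monotone_primeCounting a1.2⟩,
            ⟨pi_pos a6, Nat.monotone_primeCounting a2.2⟩⟩, a5, a8, pi_lt a9 a6, ?_⟩
          show Nat.primeCounting x.2 ≤ Nat.primeCounting x.1 + J'
          calc Nat.primeCounting x.2 ≤ Nat.primeCounting (x.1 + J) :=
                Nat.monotone_primeCounting a10
            _ = Nat.primeCounting x.1 + pw x.1 J := pi_add _ _
            _ ≤ _ := Nat.add_le_add_left a4 _
        · intro x hx y hy h
          have hx' := mem_coe.1 hx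
          have hy' := mem_coe.1 hy
          unfold cp at hx' hy'
          rw [mem_filter] at hx' hy'
          simp only [Prod.mk.injEq] at h
          exact Prod.ext (pi_inj hx'.2.1.1 hy'.2.1.1 h.1) (pi_inj hx'.2.2.1.1 hy'.2.2.1.1 h.2)
      have h4 : ((cp lam (b + 1) N J).card : ℝ) ≤ ((cp lam b N' J').card : ℝ) := by
        exact_mod_cast hcard
      refine h4.trans (r2.trans ?_)
      have h5 : (L / 2) ^ (2 * b + 2) ≤ L' ^ (2 * b + 2) := by
        have : L / 2 ≤ L' := p3
        gcongr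
      calc D1 * lam ^ b * J' * N' / L' ^ (2 * b + 2)
          ≤ D1 * lam ^ b * (lam * J / L) * (2 * N / L) / (L / 2) ^ (2 * b + 2) := by gcongr
        _ = D1 * 2 ^ (2 * b + 3) * lam ^ (b + 1) * J * N / L ^ (2 * (b + 1) + 2) := by
            rw [div_pow]
            field_simp
            ring
        _ ≤ (D1 * 2 ^ (2 * b + 3) + D2) * lam ^ (b + 1) * J * N / L ^ (2 * (b + 1) + 2) := by
            gcongr
            linarith

end Pool.Agent.TH882.IX
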