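import Mathlib
import Pool.Agent.TH882.U3

/-! Sums of a small iterated prime and an iterated prime. -/

set_option autoImplicit false

open Finset Filter Topology
open scoped Pointwise

namespace Pool.Agent.TH882.IX

/-- the iterated primes up to `N` -/
noncomputable def ap (b N : ℕ) : Finset ℕ := by
  classical
  exact (Icc 1 N).filter (IsP b)

lemma pi_nth (m : ℕ) : Nat.primeCounting (Nat.nth Nat.Prime m) = m + 1 := by
  unfold Nat.primeCounting Nat.primeCounting'
  exact Nat.count_nth_succ_of_infinite Nat.infinite_setOfPred_prime m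

/-- the iterated primes are not too few -/
lemma ap_lower (b : ℕ) : ∃ c : ℝ, 0 < c ∧ ∃ N₀ : ℕ, ∀ N : ℕ, N₀ ≤ N →
    c * N / Real.log N ^ (b + 1) ≤ ((ap b N).card : ℝ) := by
  classical
  have tN : Tendsto (fun N : ℕ => (N : ℝ)) atTop atTop := tendsto_natCast_atTop_atTop
  have tL : Tendsto (fun N : ℕ => Real.log (N : ℝ)) atTop atTop := Real.tendsto_log_atTop.comp tN
  induction b with
  | zero =>
    obtain ⟨N₀, h⟩ := eventually_atTop.1 pnt_ev
    refine ⟨1 / 2, by norm_num, N₀, fun N hN => ?_⟩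
    obtain ⟨h1, -, -, -⟩ := h N hN
    have h2 : ((ap 0 N).card : ℝ) = (Nat.primeCounting N : ℝ) := by
      rw [pi_card]
      unfold ap
      have h3 : (Icc 1 N).filter (IsP 0) = (Ioc 0 N).filter Nat.Prime := by
        ext p
        rw [mem_filter, mem_filter, mem_Icc, mem_Ioc]
        constructor
        · rintro ⟨h4, h5⟩
          exact ⟨⟨by omega, h4.2⟩, h5⟩
        · rintro ⟨h4, h5⟩
          exact ⟨⟨by omega, h4.2⟩, h5⟩
      rw [h3]
    rw [h2]
    refine le_trans (le_of_eq ?_) h1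
    rw [zero_add, pow_one]
    field_simp
  | succ b ih =>
    obtain ⟨c, hc, N₁, h1⟩ := ih
    have tP : ∀ᶠ N : ℕ in atTop, N₁ ≤ Nat.primeCounting N :=
      Nat.tendsto_primeCounting.eventually_ge_atTop N₁
    obtain ⟨N₀, h⟩ := eventually_atTop.1 (pnt_ev.and (tP.and ((tL.eventually_ge_atTop 2).and
      (eventually_ge_atTop 1))))
    refine ⟨c / 2, by positivity, N₀, fun N hN => ?_⟩
    obtain ⟨⟨p1, p2, p3, p4⟩, p5, p6, p7⟩ := h N hN
    set L := Real.log (N : ℝ) with hL
    set N' := Nat.primeCounting N with hN'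
    have hL0 : 0 < L := by linarith
    have hN0 : (0 : ℝ) < N := by exact_mod_cast p7
    have hN'0 : (0 : ℝ) < N' := by
      refine lt_of_lt_of_le ?_ p1
      positivity
    have hL'0 : 0 < Real.log (N' : ℝ) := by linarith
    have hL'L : Real.log (N' : ℝ) ≤ L := Real.log_le_log hN'0 p4
    have h2 := h1 N' p5
    have h3 : (ap b N').card ≤ (ap (b + 1) N).card := by
      apply card_le_card_of_injOn (fun m => Nat.nth Nat.Prime (m - 1))
      · intro m hm
        have hm' := mem_coe.1 hm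
        unfold ap at hm'
        rw [mem_filter, mem_Icc] at hm'
        rw [mem_coe]
        unfold ap
        have e1 : Nat.primeCounting (Nat.nth Nat.Prime (m - 1)) = m := by
          rw [pi_nth]
          omega
        have e2 : (Nat.nth Nat.Prime (m - 1)).Prime := Nat.prime_nth_prime (m - 1)
        rw [mem_filter, mem_Icc]
        refine ⟨⟨e2.one_lt.le, ?_⟩, e2, ?_⟩
        · by_contra hcon
          push Not at hcon
          have := pi_lt hcon e2
          rw [e1] at this
          omega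
        · rw [e1]
          exact hm'.2
      · intro m hm m' hm' he
        have hm1 := mem_coe.1 hm
        have hm2 := mem_coe.1 hm'
        unfold ap at hm1 hm2
        rw [mem_filter, mem_Icc] at hm1 hm2
        simp only at he
        have := Nat.nth_injective Nat.infinite_setOfPred_prime he
        omega
    calc c / 2 * N / L ^ (b + 1 + 1) = c * (N / (2 * L)) / L ^ (b + 1) := by
          field_simp
          ring
      _ ≤ c * N' / Real.log (N' : ℝ) ^ (b + 1) := by gcongr
      _ ≤ ((ap b N').card : ℝ) := h2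
      _ ≤ _ := by exact_mod_cast h3

/-- the additive energy -/
lemma energy (P Q : Finset ℕ) (J : ℕ) (hP : ∀ p ∈ P, p ≤ J) :
    P.addEnergy Q ≤ P.card * Q.card + 2 * (P.card *
      ((Q ×ˢ Q).filter (fun x => x.1 < x.2 ∧ x.2 ≤ x.1 + J)).card) := by
  classical
  set R := (Q ×ˢ Q).filter (fun x => x.1 < x.2 ∧ x.2 ≤ x.1 + J) with hR
  unfold Finset.addEnergy
  set A := ((P ×ˢ P) ×ˢ Q ×ˢ Q).filter (fun x => x.1.1 + x.2.1 = x.1.2 + x.2.2) with hA
  have hmem : ∀ x ∈ A, (x.1.1 ∈ P ∧ x.1.2 ∈ P) ∧ (x.2.1 ∈ Q ∧ x.2.2 ∈ Q) ∧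
      x.1.1 + x.2.1 = x.1.2 + x.2.2 := by
    intro x hx
    rw [hA, mem_filter, mem_product, mem_product, mem_product] at hx
    exact ⟨hx.1.1, hx.1.2, hx.2⟩
  have hsub : A ⊆ (A.filter (fun x => x.2.1 = x.2.2) ∪ A.filter (fun x => x.2.1 < x.2.2)) ∪
      A.filter (fun x => x.2.2 < x.2.1) := by
    intro x hx
    rcases lt_trichotomy x.2.1 x.2.2 with h | h | h
    · exact mem_union.2 (Or.inl (mem_union.2 (Or.inr (mem_filter.2 ⟨hx, h⟩))))
    · exact mem_union.2 (Or.inl (mem_union.2 (Or.inl (mem_filter.2 ⟨hx, h⟩))))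
    · exact mem_union.2 (Or.inr (mem_filter.2 ⟨hx, h⟩))
  have h1 : (A.filter (fun x => x.2.1 = x.2.2)).card ≤ P.card * Q.card := by
    rw [← card_product]
    apply card_le_card_of_injOn (fun x => (x.1.1, x.2.1))
    · intro x hx
      obtain ⟨a1, a2, -⟩ := hmem x (mem_filter.1 (mem_coe.1 hx)).1
      rw [mem_coe, mem_product]
      exact ⟨a1.1, a2.1⟩
    · intro x hx y hy h
      obtain ⟨-, -, a3⟩ := hmem x (mem_filter.1 (mem_coe.1 hx)).1
      obtain ⟨-, -, b3⟩ := hmem y (mem_filter.1 (mem_coe.1 hy)).1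
      have a4 := (mem_filter.1 (mem_coe.1 hx)).2
      have b4 := (mem_filter.1 (mem_coe.1 hy)).2
      simp only [Prod.mk.injEq] at h
      refine Prod.ext (Prod.ext h.1 ?_) (Prod.ext h.2 ?_) <;> omega
  have h2 : (A.filter (fun x => x.2.1 < x.2.2)).card ≤ P.card * R.card := by
    rw [← card_product]
    apply card_le_card_of_injOn (fun x => (x.1.1, x.2))
    · intro x hx
      obtain ⟨a1, a2, a3⟩ := hmem x (mem_filter.1 (mem_coe.1 hx)).1
      have a4 := (mem_filter.1 (mem_coe.1 hx)).2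
      have a5 := hP _ a1.1
      rw [mem_coe, mem_product]
      refine ⟨a1.1, ?_⟩
      rw [hR, mem_filter, mem_product]
      refine ⟨a2, a4, ?_⟩
      show x.2.2 ≤ x.2.1 + J
      omega
    · intro x hx y hy h
      obtain ⟨-, -, a3⟩ := hmem x (mem_filter.1 (mem_coe.1 hx)).1
      obtain ⟨-, -, b3⟩ := hmem y (mem_filter.1 (mem_coe.1 hy)).1
      simp only [Prod.mk.injEq] at h
      obtain ⟨h3, h4⟩ := h
      rw [h4] at a3
      refine Prod.ext (Prod.ext h3 ?_) h4
      omega
  have h3 : (A.filter (fun x => x.2.2 < x.2.1)).card ≤ P.card * R.card := by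
    rw [← card_product]
    apply card_le_card_of_injOn (fun x => (x.1.2, (x.2.2, x.2.1)))
    · intro x hx
      obtain ⟨a1, a2, a3⟩ := hmem x (mem_filter.1 (mem_coe.1 hx)).1
      have a4 := (mem_filter.1 (mem_coe.1 hx)).2
      have a5 := hP _ a1.2
      rw [mem_coe, mem_product]
      refine ⟨a1.2, ?_⟩
      rw [hR, mem_filter, mem_product]
      refine ⟨⟨a2.2, a2.1⟩, a4, ?_⟩
      show x.2.1 ≤ x.2.2 + J
      omega
    · intro x hx y hy h
      obtain ⟨-, -, a3⟩ := hmem x (mem_filter.1 (mem_coe.1 hx)).1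
      obtain ⟨-, -, b3⟩ := hmem y (mem_filter.1 (mem_coe.1 hy)).1
      simp only [Prod.mk.injEq] at h
      obtain ⟨h3, h4, h5⟩ := h
      rw [h4, h5, h3] at a3
      refine Prod.ext (Prod.ext ?_ h3) (Prod.ext h5 h4)
      omega
  have h4 := card_le_card hsub
  have h5 := (h4.trans (card_union_le _ _)).trans (Nat.add_le_add_right (card_union_le _ _) _)
  calc A.card ≤ _ := h5
    _ ≤ P.card * Q.card + P.card * R.card + P.card * R.card :=
        Nat.add_le_add (Nat.add_le_add h1 h2) h3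
    _ = _ := by ring

open Classical in
/-- the half sums -/
noncomputable def hs (a b X : ℕ) : Finset ℕ :=
  (Icc 1 X).filter (fun n => ∃ p q : ℕ, IsP a p ∧ IsP b q ∧ p < q ∧
    (p : ℝ) ≤ Real.log X ^ (b + 2) ∧ p + q = 2 * n)

theorem main (a b : ℕ) (ε : ℝ) (hε : 0 < ε) : ∀ᶠ X : ℕ in atTop,
    (X : ℝ) / Real.log X ^ ε ≤ ((hs a b X).card : ℝ) := by
  classical
  set δ : ℝ := min 1 (ε / (2 * (b + 1))) with hδ
  have hδ0 : 0 < δ := lt_min one_pos (by positivity)
  have hδ1 : δ ≤ 1 := min_le_left _ _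
  have hbδ : (b : ℝ) * δ ≤ ε / 2 := by
    have h1 : δ ≤ ε / (2 * (b + 1)) := min_le_right _ _
    calc (b : ℝ) * δ ≤ (b + 1) * (ε / (2 * (b + 1))) := by gcongr; linarith
      _ = ε / 2 := by field_simp
  obtain ⟨k, hk⟩ := exists_nat_ge ((b + 2 : ℝ) / δ)
  have hkδ : (b + 2 : ℝ) ≤ δ * (k + 1) := by
    rw [div_le_iff₀ hδ0] at hk
    nlinarith
  obtain ⟨D, hD, N₁, h1⟩ := main_rec b k (b + 2)
  obtain ⟨ca, hca, N₂, h2⟩ := ap_lower a
  obtain ⟨cb, hcb, N₃, h3⟩ := ap_lower b
  have tN : Tendsto (fun N : ℕ => (N : ℝ)) atTop atTop := tendsto_natCast_atTop_atTop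
  have tL : Tendsto (fun N : ℕ => Real.log (N : ℝ)) atTop atTop := Real.tendsto_log_atTop.comp tN
  have tlam : Tendsto (fun N : ℕ => Real.log (N : ℝ) ^ δ) atTop atTop :=
    (tendsto_rpow_atTop hδ0).comp tL
  have tJ : Tendsto (fun N : ℕ => ⌊Real.log (N : ℝ) ^ (b + 2)⌋₊) atTop atTop :=
    tendsto_nat_floor_atTop.comp ((tendsto_pow_atTop (by omega)).comp tL)
  -- growth conditions
  have hpow : ∀ᶠ N : ℕ in atTop, Real.log (N : ℝ) ^ (2 * b + 4) * 8 ≤ cb * N := by
    have h := (isLittleO_log_rpow_atTop (r := 1 / (2 * b + 5 : ℝ)) (by positivity)).bound one_pos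
    filter_upwards [tN.eventually h, tL.eventually_ge_atTop (max 1 (8 / cb)), eventually_ge_atTop 1]
      with N hN hL hN1
    have hN1' : (1 : ℝ) ≤ N := by exact_mod_cast hN1
    have hL1 : 1 ≤ Real.log (N : ℝ) := (le_max_left _ _).trans hL
    have hL8 : 8 / cb ≤ Real.log (N : ℝ) := (le_max_right _ _).trans hL
    rw [div_le_iff₀ hcb] at hL8
    rw [Real.norm_of_nonneg (by linarith), one_mul, Real.norm_of_nonneg (by positivity)] at hN
    have h5 : Real.log (N : ℝ) ^ (2 * b + 5) ≤ N := by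
      calc Real.log (N : ℝ) ^ (2 * b + 5) ≤ ((N : ℝ) ^ (1 / (2 * b + 5 : ℝ))) ^ (2 * b + 5) := by gcongr
        _ = N := by
          rw [← Real.rpow_natCast, ← Real.rpow_mul (by linarith)]
          push_cast
          rw [one_div, inv_mul_cancel₀ (by positivity), Real.rpow_one]
    calc Real.log (N : ℝ) ^ (2 * b + 4) * 8 ≤ Real.log (N : ℝ) ^ (2 * b + 4) * (Real.log (N : ℝ) * cb) := by
          gcongr
      _ = cb * Real.log (N : ℝ) ^ (2 * b + 5) := by ring
      _ ≤ cb * N := by gcongr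
  set K : ℝ := min (ca * cb / 8) (ca * cb ^ 2 / (32 * (D + 1))) with hK
  have hK0 : 0 < K := lt_min (by positivity) (by positivity)
  have hll : ∀ᶠ N : ℕ in atTop, ((b + 2 : ℝ) * Real.log (Real.log (N : ℝ))) ^ (a + 1) ≤
      K / 2 * Real.log (N : ℝ) ^ (ε / 2) := by
    have hc : 0 < (K / 2) ^ (1 / (a + 1 : ℝ)) / (b + 2) := by positivity
    have h := (isLittleO_log_rpow_atTop (r := ε / 2 / (a + 1 : ℝ)) (by positivity)).bound hc
    filter_upwards [tL.eventually h, tL.eventually_ge_atTop 3] with N hN hL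
    have hL0 : (0 : ℝ) ≤ Real.log (N : ℝ) := by linarith
    have hll0 : 0 ≤ Real.log (Real.log (N : ℝ)) := Real.log_nonneg (by linarith)
    rw [Real.norm_of_nonneg hll0, Real.norm_of_nonneg (by positivity)] at hN
    calc ((b + 2 : ℝ) * Real.log (Real.log (N : ℝ))) ^ (a + 1)
        ≤ ((b + 2 : ℝ) * ((K / 2) ^ (1 / (a + 1 : ℝ)) / (b + 2) *
          Real.log (N : ℝ) ^ (ε / 2 / (a + 1 : ℝ)))) ^ (a + 1) := by gcongr
      _ = ((K / 2) ^ (1 / (a + 1 : ℝ)) * Real.log (N : ℝ) ^ (ε / 2 / (a + 1 : ℝ))) ^ (a + 1) := by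
          congr 1
          field_simp
      _ = K / 2 * Real.log (N : ℝ) ^ (ε / 2) := by
          rw [mul_pow, ← Real.rpow_natCast, ← Real.rpow_natCast, ← Real.rpow_mul (by positivity),
            ← Real.rpow_mul hL0]
          push_cast
          have e1 : 1 / (a + 1 : ℝ) * (a + 1) = 1 := by field_simp
          have e2 : ε / 2 / (a + 1 : ℝ) * (a + 1) = ε / 2 := by field_simp
          rw [e1, e2, Real.rpow_one]
  have hJbig : ∀ᶠ J : ℕ in atTop, Real.log (J : ℝ) ^ (a + 1) ≤ ca / 2 * J := by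
    have h := (isLittleO_log_rpow_atTop (r := 1 / (a + 2 : ℝ)) (by positivity)).bound one_pos
    filter_upwards [tN.eventually h, tL.eventually_ge_atTop (max 1 (2 / ca)), eventually_ge_atTop 1]
      with N hN hL hN1
    have hN1' : (1 : ℝ) ≤ N := by exact_mod_cast hN1
    have hL1 : 1 ≤ Real.log (N : ℝ) := (le_max_left _ _).trans hL
    have hL8 : 2 / ca ≤ Real.log (N : ℝ) := (le_max_right _ _).trans hL
    rw [div_le_iff₀ hca] at hL8
    rw [Real.norm_of_nonneg (by linarith), one_mul, Real.norm_of_nonneg (by positivity)] at hN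
    have h5 : Real.log (N : ℝ) ^ (a + 2) ≤ N := by
      calc Real.log (N : ℝ) ^ (a + 2) ≤ ((N : ℝ) ^ (1 / (a + 2 : ℝ))) ^ (a + 2) := by gcongr
        _ = N := by
          rw [← Real.rpow_natCast, ← Real.rpow_mul (by linarith)]
          push_cast
          rw [one_div, inv_mul_cancel₀ (by positivity), Real.rpow_one]
    have h6 : Real.log (N : ℝ) ^ (a + 1) * 2 ≤ ca * N := by
      calc Real.log (N : ℝ) ^ (a + 1) * 2 ≤ Real.log (N : ℝ) ^ (a + 1) * (Real.log (N : ℝ) * ca) := by
            gcongr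
        _ = ca * Real.log (N : ℝ) ^ (a + 2) := by ring
        _ ≤ ca * N := by gcongr
    linarith
  filter_upwards [eventually_ge_atTop N₁, eventually_ge_atTop N₃, tJ.eventually_ge_atTop N₂,
    tJ.eventually_ge_atTop 3, tlam.eventually_ge_atTop 2, tL.eventually_ge_atTop (max 4 (8 * D / cb)),
    hpow, hll, eventually_ge_atTop 1, tJ.eventually_ge_atTop 8, tJ.eventually hJbig]
    with X g1 g2 g3 g4 g5 g6 g7 g8 g9 g10 g11
  set L := Real.log (X : ℝ) with hL
  set J := ⌊L ^ (b + 2)⌋₊ with hJ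
  set lam : ℝ := L ^ δ with hlam
  have hL4 : 4 ≤ L := (le_max_left _ _).trans g6
  have hL0 : 0 < L := by linarith
  have hL1 : 1 ≤ L := by linarith
  have hLD : 8 * D ≤ L * cb := by
    have := (le_max_right 4 (8 * D / cb)).trans g6
    rwa [div_le_iff₀ hcb] at this
  have hX0 : (0 : ℝ) < X := by exact_mod_cast g9
  have hJle : (J : ℝ) ≤ L ^ (b + 2) := Nat.floor_le (by positivity)
  have hJge : L ^ (b + 2) / 2 ≤ J := by
    have h4 : L ^ (b + 2) - 1 < J := Nat.sub_one_lt_floor _
    have h5 : (4 : ℝ) ≤ L ^ (b + 2) := by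
      calc (4 : ℝ) ≤ L := hL4
        _ = L ^ 1 := (pow_one L).symm
        _ ≤ L ^ (b + 2) := pow_le_pow_right₀ hL1 (by omega)
    linarith
  have hJ1 : L ^ (b + 1) ≤ J := by
    refine le_trans ?_ hJge
    have : L ^ (b + 2) = L ^ (b + 1) * L := by ring
    rw [this]
    have : 0 < L ^ (b + 1) := by positivity
    nlinarith
  have hJ0 : (0 : ℝ) < J := by
    refine lt_of_lt_of_le ?_ hJ1
    positivity
  have hlamC : lam ≤ L ^ (b + 2) := by
    calc lam ≤ L ^ (1 : ℝ) := Real.rpow_le_rpow_of_exponent_le hL1 hδ1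
      _ = L ^ 1 := by rw [Real.rpow_one, pow_one]
      _ ≤ L ^ (b + 2) := pow_le_pow_right₀ hL1 (by omega)
  have hlam0 : 0 < lam := by linarith
  obtain ⟨r1, r2⟩ := h1 X g1 lam g5 hlamC J hJ1 hJle
  have hlamk : L ^ (b + 2) ≤ lam ^ (k + 1) := by
    rw [hlam, ← Real.rpow_natCast, ← Real.rpow_natCast, ← Real.rpow_mul hL0.le]
    apply Real.rpow_le_rpow_of_exponent_le hL1
    push_cast
    exact hkδ
  -- the sets
  set P := (ap a J).filter (fun p => p ≠ 2) with hP
  set Q := (Icc 1 X).filter (fun q => J < q ∧ Gd lam b X J q) with hQ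
  have hJ8 : (8 : ℝ) ≤ J := by exact_mod_cast g10
  have hlogJ : Real.log (J : ℝ) ≤ (b + 2 : ℝ) * Real.log L := by
    calc Real.log (J : ℝ) ≤ Real.log (L ^ (b + 2)) := Real.log_le_log hJ0 hJle
      _ = _ := by rw [Real.log_pow]; push_cast; ring
  have hlogJ0 : 1 ≤ Real.log (J : ℝ) := by
    have h4 : Real.log (Real.exp 1) ≤ Real.log J := by
      apply Real.log_le_log (Real.exp_pos 1)
      have := Real.exp_one_lt_d9
      linarith
    rwa [Real.log_exp] at h4
  have hPc0 : ca * J / Real.log J ^ (a + 1) - 1 ≤ (P.card : ℝ) := by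
    have h4 := h2 J g3
    have h5 : (ap a J).card ≤ P.card + 1 := by
      have h6 : ap a J ⊆ P ∪ {2} := by
        intro p hp
        rw [mem_union, mem_singleton]
        by_cases h7 : p = 2
        · exact Or.inr h7
        · exact Or.inl (mem_filter.2 ⟨hp, h7⟩)
      have h7 := (card_le_card h6).trans (card_union_le _ _)
      rwa [card_singleton] at h7
    have h6 : ((ap a J).card : ℝ) ≤ P.card + 1 := by exact_mod_cast h5
    linarith
  have hPc : ca / 2 * J / Real.log J ^ (a + 1) ≤ (P.card : ℝ) := by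
    have h4 : 1 ≤ ca / 2 * J / Real.log J ^ (a + 1) := by
      rw [le_div_iff₀ (by positivity), one_mul]
      exact g11
    have h5 : ca * J / Real.log J ^ (a + 1) = ca / 2 * J / Real.log J ^ (a + 1) +
        ca / 2 * J / Real.log J ^ (a + 1) := by ring
    linarith
  have hQc : cb / 2 * X / L ^ (b + 1) ≤ (Q.card : ℝ) := by
    have h4 := h3 X g2
    have h5 : ap b X ⊆ (Q ∪ bd lam b X J) ∪ Icc 1 J := by
      intro q hq
      unfold ap at hq
      rw [mem_filter] at hq
      rw [mem_union, mem_union]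
      by_cases h6 : J < q
      · left
        by_cases h7 : Gd lam b X J q
        · left
          exact mem_filter.2 ⟨hq.1, h6, h7⟩
        · right
          unfold bd
          exact mem_filter.2 ⟨hq.1, hq.2, h7⟩
      · right
        rw [mem_Icc]
        exact ⟨(mem_Icc.1 hq.1).1, not_lt.1 h6⟩
    have h6 := ((card_le_card h5).trans (card_union_le _ _)).trans
      (Nat.add_le_add_right (card_union_le _ _) _)
    rw [Nat.card_Icc, Nat.add_sub_cancel] at h6
    have h7 : ((ap b X).card : ℝ) ≤ Q.card + (bd lam b X J).card + J := by exact_mod_cast h6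
    have h8 : D * X / lam ^ (k + 1) ≤ cb / 8 * X / L ^ (b + 1) := by
      calc D * X / lam ^ (k + 1) ≤ D * X / L ^ (b + 2) := by gcongr
        _ = (8 * D) * X / (8 * L ^ (b + 2)) := by field_simp
        _ ≤ (L * cb) * X / (8 * L ^ (b + 2)) := by gcongr
        _ = cb / 8 * X / L ^ (b + 1) := by
          field_simp
          ring
    have h9 : (J : ℝ) ≤ cb / 8 * X / L ^ (b + 1) := by
      rw [le_div_iff₀ (by positivity)]
      have h10 : (J : ℝ) * L ^ (b + 1) ≤ L ^ (2 * b + 4) := by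
        calc (J : ℝ) * L ^ (b + 1) ≤ L ^ (b + 2) * L ^ (b + 1) := by gcongr
          _ = L ^ (2 * b + 3) := by rw [← pow_add]; ring_nf
          _ ≤ L ^ (2 * b + 4) := pow_le_pow_right₀ hL1 (by omega)
      linarith
    have h10 : cb * X / L ^ (b + 1) = cb / 2 * X / L ^ (b + 1) + (cb / 8 * X / L ^ (b + 1) +
      cb / 8 * X / L ^ (b + 1)) + cb / 4 * X / L ^ (b + 1) := by ring
    have h11 : 0 ≤ cb / 4 * X / L ^ (b + 1) := by positivity
    linarith
  -- the energy
  have hPJ : ∀ p ∈ P, p ≤ J := by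
    intro p hp
    have h4 := (mem_filter.1 hp).1
    unfold ap at h4
    exact (mem_Icc.1 (mem_filter.1 h4).1).2
  have hE := energy P Q J hPJ
  have hR : ((Q ×ˢ Q).filter (fun x => x.1 < x.2 ∧ x.2 ≤ x.1 + J)).card ≤ (cp lam b X J).card := by
    apply card_le_card
    intro x hx
    rw [mem_filter, mem_product] at hx
    obtain ⟨⟨h4, h5⟩, h6⟩ := hx
    obtain ⟨a1, a2, a3⟩ := mem_filter.1 h4
    obtain ⟨b1, b2, b3⟩ := mem_filter.1 h5
    unfold cp
    rw [mem_filter, mem_product]
    exact ⟨⟨a1, b1⟩, a3, b3, h6⟩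
  have hCS := Finset.le_card_add_mul_addEnergy P Q
  have hCS2 : (P.card : ℝ) ^ 2 * (Q.card : ℝ) ^ 2 ≤ ((P + Q).card : ℝ) *
      (P.card * Q.card + 2 * (P.card * (cp lam b X J).card)) := by
    have h4 : P.card ^ 2 * Q.card ^ 2 ≤ (P + Q).card *
        (P.card * Q.card + 2 * (P.card * (cp lam b X J).card)) := by
      refine hCS.trans (Nat.mul_le_mul_left _ (hE.trans ?_))
      gcongr
    exact_mod_cast h4
  -- the sums are twice the elements of `hs`
  have hsum : (P + Q).card ≤ (hs a b X).card := by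
    have hel : ∀ s ∈ P + Q, ∃ p ∈ P, ∃ q ∈ Q, p + q = s := fun s h => by
      rw [Finset.mem_add] at h
      exact h
    have hpar : ∀ p ∈ P, p % 2 = 1 := by
      intro p hp
      obtain ⟨h4, h5⟩ := mem_filter.1 hp
      unfold ap at h4
      have h6 := IsP_prime a p (mem_filter.1 h4).2
      rcases h6.eq_two_or_odd with h7 | h7
      · exact absurd h7 h5
      · exact h7
    have hparQ : ∀ q ∈ Q, q % 2 = 1 := by
      intro q hq
      obtain ⟨-, h4, h5⟩ := mem_filter.1 hq
      have h6 := Gd_prime lam b X J q h5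
      rcases h6.eq_two_or_odd with h7 | h7
      · omega
      · exact h7
    have hJX : J ≤ X := by
      have h10 : (J : ℝ) ≤ X := by
        by_contra hcon
        push Not at hcon
        have h4 : Q = ∅ := by
          rw [hQ, filter_eq_empty_iff]
          rintro q hq ⟨h5, -⟩
          have h6 : (q : ℝ) ≤ X := by exact_mod_cast (mem_Icc.1 hq).2
          have h7 : (J : ℝ) < q := by exact_mod_cast h5
          linarith
        rw [h4, card_empty, Nat.cast_zero] at hQc
        have : 0 < cb / 2 * X / L ^ (b + 1) := by positivity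
        linarith
      exact_mod_cast h10
    apply card_le_card_of_injOn (fun s => s / 2)
    · intro s hs'
      obtain ⟨p, hp, q, hq, rfl⟩ := hel s (mem_coe.1 hs')
      have h4 := hpar p hp
      have h5 := hparQ q hq
      obtain ⟨a1, a2, a3⟩ := mem_filter.1 hq
      have h6 := hPJ p hp
      have h7 := (mem_Icc.1 a1).2
      rw [mem_coe]
      unfold hs
      rw [mem_filter, mem_Icc]
      refine ⟨⟨?_, ?_⟩, p, q, ?_, Gd_IsP lam b X J q a3, by omega, ?_, ?_⟩
      · show 1 ≤ (p + q) / 2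
        omega
      · show (p + q) / 2 ≤ X
        omega
      · have h8 := (mem_filter.1 hp).1
        unfold ap at h8
        exact (mem_filter.1 h8).2
      · have h8 : (p : ℝ) ≤ J := by exact_mod_cast h6
        linarith
      · show p + q = 2 * ((p + q) / 2)
        omega
    · intro s hs1 t ht1 h
      obtain ⟨p, hp, q, hq, rfl⟩ := hel s (mem_coe.1 hs1)
      obtain ⟨p', hp', q', hq', rfl⟩ := hel t (mem_coe.1 ht1)
      have h4 := hpar p hp
      have h5 := hparQ q hq
      have h6 := hpar p' hp'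
      have h7 := hparQ q' hq'
      simp only at h
      omega
  have hsumR : ((P + Q).card : ℝ) ≤ ((hs a b X).card : ℝ) := by exact_mod_cast hsum
  refine le_trans ?_ hsumR
  set S : ℝ := ((P + Q).card : ℝ) with hS
  have hS0 : 0 ≤ S := Nat.cast_nonneg _
  have hP0 : 0 < (P.card : ℝ) := lt_of_lt_of_le (by positivity) hPc
  have hQ0 : 0 < (Q.card : ℝ) := lt_of_lt_of_le (by positivity) hQc
  have hkey : (P.card : ℝ) * (Q.card : ℝ) ^ 2 ≤ S * (Q.card + 2 * (cp lam b X J).card) := by
    have h4 : (P.card : ℝ) * ((P.card : ℝ) * (Q.card : ℝ) ^ 2) ≤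
        (P.card : ℝ) * (S * (Q.card + 2 * (cp lam b X J).card)) := by
      calc (P.card : ℝ) * ((P.card : ℝ) * (Q.card : ℝ) ^ 2) = (P.card : ℝ) ^ 2 * (Q.card : ℝ) ^ 2 := by
            ring
        _ ≤ _ := hCS2
        _ = _ := by ring
    exact le_of_mul_le_mul_left h4 hP0
  -- the final lower bound
  set G : ℝ := K * X / (lam ^ b * Real.log J ^ (a + 1)) with hG
  set l : ℝ := Real.log (J : ℝ) with hl
  have hl0 : 0 < l := by linarith
  have hfin : G ≤ S := by
    by_cases hcase : 2 * ((cp lam b X J).card : ℝ) ≤ Q.card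
    · have h4 : (P.card : ℝ) * Q.card ≤ 2 * S := by
        have h5 : (Q.card : ℝ) * ((P.card : ℝ) * Q.card) ≤ (Q.card : ℝ) * (2 * S) := by
          calc (Q.card : ℝ) * ((P.card : ℝ) * Q.card) = (P.card : ℝ) * (Q.card : ℝ) ^ 2 := by ring
            _ ≤ S * (Q.card + 2 * (cp lam b X J).card) := hkey
            _ ≤ S * (Q.card + Q.card) := by gcongr
            _ = _ := by ring
        exact le_of_mul_le_mul_left h5 hQ0
      have h5 : (ca / 2 * J / l ^ (a + 1)) * (cb / 2 * X / L ^ (b + 1)) ≤ (P.card : ℝ) * Q.card := by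
        gcongr
      have h6 : ca * cb / 4 * X / l ^ (a + 1) ≤
          (ca / 2 * J / l ^ (a + 1)) * (cb / 2 * X / L ^ (b + 1)) := by
        have e1 : (ca / 2 * J / l ^ (a + 1)) * (cb / 2 * X / L ^ (b + 1)) =
            (ca * cb / 4 * X / l ^ (a + 1)) * (J / L ^ (b + 1)) := by
          field_simp
          ring
        rw [e1]
        have h7 : 1 ≤ (J : ℝ) / L ^ (b + 1) := by
          rw [le_div_iff₀ (by positivity), one_mul]
          exact hJ1
        have h8 : 0 ≤ ca * cb / 4 * X / l ^ (a + 1) := by positivity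
        nlinarith
      have h7 : G ≤ ca * cb / 8 * X / l ^ (a + 1) := by
        rw [hG]
        have h8 : K ≤ ca * cb / 8 := min_le_left _ _
        have h9 : (1 : ℝ) ≤ lam ^ b := one_le_pow₀ (by linarith)
        have h10 : l ^ (a + 1) ≤ lam ^ b * l ^ (a + 1) := by
          have : 0 < l ^ (a + 1) := by positivity
          nlinarith
        gcongr
      have h8 : ca * cb / 4 * X / l ^ (a + 1) = 2 * (ca * cb / 8 * X / l ^ (a + 1)) := by ring
      linarith
    · push Not at hcase
      have h4 : (P.card : ℝ) * (Q.card : ℝ) ^ 2 ≤ S * (4 * (D * lam ^ b * J * X / L ^ (2 * b + 2))) := by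
        calc (P.card : ℝ) * (Q.card : ℝ) ^ 2 ≤ S * (Q.card + 2 * (cp lam b X J).card) := hkey
          _ ≤ S * (2 * (cp lam b X J).card + 2 * (cp lam b X J).card) := by gcongr
          _ = S * (4 * (cp lam b X J).card) := by ring
          _ ≤ _ := by gcongr
      have h5 : (ca / 2 * J / l ^ (a + 1)) * (cb / 2 * X / L ^ (b + 1)) ^ 2 ≤
          (P.card : ℝ) * (Q.card : ℝ) ^ 2 := by gcongr
      have h6 := h5.trans h4
      have e1 : (ca / 2 * J / l ^ (a + 1)) * (cb / 2 * X / L ^ (b + 1)) ^ 2 =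
          (ca * cb ^ 2 / 32 * X / (lam ^ b * l ^ (a + 1))) * (4 * (lam ^ b * J * X / L ^ (2 * b + 2))) := by
        rw [div_pow, mul_pow]
        field_simp
        ring
      have e2 : S * (4 * (D * lam ^ b * J * X / L ^ (2 * b + 2))) =
          (S * D) * (4 * (lam ^ b * J * X / L ^ (2 * b + 2))) := by ring
      rw [e1, e2] at h6
      have h7 : ca * cb ^ 2 / 32 * X / (lam ^ b * l ^ (a + 1)) ≤ S * D :=
        le_of_mul_le_mul_right h6 (by positivity)
      have h8 : G * (D + 1) ≤ S * (D + 1) := by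
        have h9 : K ≤ ca * cb ^ 2 / (32 * (D + 1)) := min_le_right _ _
        calc G * (D + 1) ≤ (ca * cb ^ 2 / (32 * (D + 1)) * X / (lam ^ b * l ^ (a + 1))) * (D + 1) := by
              rw [hG]
              gcongr
          _ = ca * cb ^ 2 / 32 * X / (lam ^ b * l ^ (a + 1)) := by
              field_simp
          _ ≤ S * D := h7
          _ ≤ S * (D + 1) := by nlinarith
      exact le_of_mul_le_mul_right h8 (by linarith)
  refine le_trans ?_ hfin
  rw [hG, div_le_div_iff₀ (by positivity) (by positivity)]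
  have h4 : lam ^ b ≤ L ^ (ε / 2) := by
    rw [hlam, ← Real.rpow_natCast, ← Real.rpow_mul hL0.le]
    apply Real.rpow_le_rpow_of_exponent_le hL1
    linarith
  have h5 : l ^ (a + 1) ≤ K / 2 * L ^ (ε / 2) := by
    refine le_trans ?_ g8
    gcongr
  have h6 : L ^ ε = L ^ (ε / 2) * L ^ (ε / 2) := by
    rw [← Real.rpow_add hL0]
    ring_nf
  have h7 : 0 < L ^ (ε / 2) := by positivity
  calc (X : ℝ) * (lam ^ b * l ^ (a + 1)) ≤ X * (L ^ (ε / 2) * (K / 2 * L ^ (ε / 2))) := by gcongr
    _ = K / 2 * X * L ^ ε := by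
        rw [h6]
        ring
    _ ≤ K * X * L ^ ε := by
        gcongr
        linarith

end Pool.Agent.TH882.IX
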