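import Pool.Agent.TH882.UB

/-! Upper bounds for the number of rough tuples in residue classes. -/

set_option autoImplicit false

open Finset Filter Topology

namespace Pool.Agent.TH882.UB

open Pool.Agent.H361R2.PP
open Pool.Agent.W70.HR

/-- the size of `2 ^ 2 ^ JJ` -/
lemma JJ_size (δ : ℝ) (hδ : 0 < δ) (hδ1 : δ ≤ 1) (M : ℕ) (a : ℝ) (hM : δ * M ≤ a) :
    ∃ X₀ : ℕ, ∀ X : ℕ, X₀ ≤ X → (JJ δ X : ℝ) + 2 ≤ 4 * Real.log X ∧
      ((2 ^ 2 ^ JJ δ X : ℕ) : ℝ) ^ M ≤ (X : ℝ) ^ a ∧ HH X < 2 ^ 2 ^ JJ δ X ∧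
      (X : ℝ) ^ (δ / 2) ≤ ((2 ^ 2 ^ JJ δ X : ℕ) : ℝ) := by
  obtain ⟨X1, h1⟩ := Pool.Agent.H325R2.wtx.2 δ hδ hδ1
  refine ⟨max X1 3, fun X hX => ?_⟩
  obtain ⟨h2, h3, h4⟩ := h1 X ((le_max_left _ _).trans hX)
  have hX3 : 3 ≤ X := (le_max_right _ _).trans hX
  have hXr : (3 : ℝ) ≤ X := by exact_mod_cast hX3
  have hl1 : 1 ≤ Real.log X := by
    rw [Real.le_log_iff_exp_le (by linarith)]
    have := Real.exp_one_lt_d9
    linarith
  refine ⟨?_, ?_, h4, ?_⟩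
  · have h5 := Real.log_le_log (by positivity) h2
    rw [Real.log_rpow (by linarith), Real.log_pow] at h5
    push_cast at h5
    have h6 : (JJ δ X : ℝ) ≤ 2 ^ JJ δ X := by
      have : JJ δ X < 2 ^ JJ δ X := Nat.lt_two_pow_self
      exact_mod_cast this.le
    have hl2 := Real.log_two_gt_d9
    have h7 : (JJ δ X : ℝ) * Real.log 2 ≤ Real.log X := by
      calc (JJ δ X : ℝ) * Real.log 2 ≤ 2 ^ JJ δ X * Real.log 2 :=
            mul_le_mul_of_nonneg_right h6 (by linarith)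
        _ ≤ δ * Real.log X := h5
        _ ≤ 1 * Real.log X := mul_le_mul_of_nonneg_right hδ1 (by linarith)
        _ = _ := one_mul _
    have h8 : (JJ δ X : ℝ) * (1 / 2) ≤ Real.log X := by
      have : (0 : ℝ) ≤ JJ δ X := by positivity
      nlinarith
    linarith
  · have h5 : ((2 ^ 2 ^ JJ δ X : ℕ) : ℝ) ≤ (X : ℝ) ^ δ := by
      push_cast
      exact h2
    calc ((2 ^ 2 ^ JJ δ X : ℕ) : ℝ) ^ M ≤ ((X : ℝ) ^ δ) ^ M :=
          pow_le_pow_left₀ (by positivity) h5 M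
      _ = (X : ℝ) ^ (δ * M) := by
          rw [← Real.rpow_natCast, ← Real.rpow_mul (by linarith)]
      _ ≤ _ := Real.rpow_le_rpow_of_exponent_le (by linarith) hM
  · push_cast
    exact h3

theorem ub (L A0 : ℕ) (δ : ℝ) (hδ : 0 < δ) (hδ1 : δ ≤ 1) : ∃ C : ℝ, 0 < C ∧ ∃ X₀ : ℕ,
    ∀ X : ℕ, X₀ ≤ X → ∀ b : ℕ, b < Wm X → ∀ U : Finset ℕ, U.card = L → (∀ u ∈ U, u ≤ A0) →
    ∀ D : Finset ℕ, (∀ p ∈ D, p.Prime ∧ HH X < p ∧ (p : ℝ) ≤ Real.log X / 20) → ∀ r : ℕ,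
    (((SI X b).filter (fun n => (∀ u ∈ U, rg (P1 (HH X) (JJ δ X)) u n = 1) ∧
      ∀ p ∈ D, n % p = r % p)).card : ℝ) ≤ C * (Om δ X L * ∏ p ∈ D, (2 / (p : ℝ))) := by
  classical
  obtain ⟨C0, hC0, hfl⟩ := Pool.Agent.TH882.FL.fl1 L
  set δ' : ℝ := min δ (1 / (16 * (C0 : ℝ) * C0)) with hδ'
  have hC0r : (1 : ℝ) ≤ C0 := by exact_mod_cast hC0
  have hδ'0 : 0 < δ' := by
    rw [hδ']
    exact lt_min hδ (by positivity)
  have hδ'δ : δ' ≤ δ := min_le_left _ _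
  have hδ'1 : δ' ≤ 1 := hδ'δ.trans hδ1
  have hδ'M : δ' * ((C0 * C0 * 2 : ℕ) : ℝ) ≤ 1 / 8 := by
    have h1 : δ' ≤ 1 / (16 * (C0 : ℝ) * C0) := min_le_right _ _
    push_cast
    calc δ' * ((C0 : ℝ) * C0 * 2) ≤ 1 / (16 * (C0 : ℝ) * C0) * ((C0 : ℝ) * C0 * 2) :=
          mul_le_mul_of_nonneg_right h1 (by positivity)
      _ = 1 / 8 := by field_simp; norm_num
  obtain ⟨C1, hC1, X1, hVV⟩ := VV_comp δ δ' hδ hδ1 hδ'0 hδ'1
  obtain ⟨X2, hJ⟩ := JJ_size δ' hδ'0 hδ'1 (C0 * C0 * 2) (1 / 8) hδ'M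
  obtain ⟨X3, hOm⟩ := Om_lower δ hδ hδ1 L
  obtain ⟨X4, hHH⟩ := eventually_atTop.1 (HH_tendsto.eventually_ge_atTop (C0 + A0 + 2 * L + 2))
  obtain ⟨X5, hev⟩ := ev_pow (1 / 2) 4 (by norm_num) (2 * L + 2)
  refine ⟨2 * C1 ^ L + 1, by positivity, max (max X1 X2) (max (max X3 X4) (max X5 3)), ?_⟩
  intro X hX b hb U hUc hUA D hD r
  have hX1 : X1 ≤ X := ((le_max_left _ _).trans (le_max_left _ _)).trans hX
  have hX2 : X2 ≤ X := ((le_max_right _ _).trans (le_max_left _ _)).trans hX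
  have hX3 : X3 ≤ X := ((le_max_left _ _).trans ((le_max_left _ _).trans (le_max_right _ _))).trans hX
  have hX4 : X4 ≤ X := ((le_max_right _ _).trans ((le_max_left _ _).trans (le_max_right _ _))).trans hX
  have hX5 : X5 ≤ X := ((le_max_left _ _).trans ((le_max_right _ _).trans (le_max_right _ _))).trans hX
  have hX6 : 3 ≤ X := ((le_max_right _ _).trans ((le_max_right _ _).trans (le_max_right _ _))).trans hX
  have hXr : (3 : ℝ) ≤ X := by exact_mod_cast hX6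
  have hl1 : 1 ≤ Real.log X := by
    rw [Real.le_log_iff_exp_le (by linarith)]
    have := Real.exp_one_lt_d9
    linarith
  obtain ⟨hJ1, hJ2, -, -⟩ := hJ X hX2
  have hV1 := hVV X hX1
  obtain ⟨hVpos, hOml⟩ := hOm X hX3
  have hH := hHH X hX4
  set J := JJ δ' X with hJdef
  set P : Finset ℕ := P1 (HH X) J \ D with hP
  have hPp : ∀ p ∈ P, p.Prime ∧ HH X < p ∧ p ≤ 2 ^ 2 ^ J := by
    intro p hp
    rw [hP, Finset.mem_sdiff, mem_P1] at hp
    exact ⟨hp.1.2.1, hp.1.2.2, hp.1.1.le⟩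
  have hW0 : (0 : ℝ) < Wm X := by exact_mod_cast Wm_pos X
  have hDpos : 0 < ∏ p ∈ D, (p : ℝ) := prod_pos fun p hp => by exact_mod_cast (hD p hp).1.pos
  set A : ℝ := (X : ℝ) / Wm X / ∏ p ∈ D, (p : ℝ) with hA
  have hA0 : 0 ≤ A := by positivity
  set S : Finset ℕ := (SI X b).filter (fun n => ∀ p ∈ D, n % p = r % p) with hS
  have hkey := hfl C0 J (HH X) P (cls U) le_rfl (by omega) hPp (by
      intro p _
      unfold cls
      exact card_image_le.trans hUc.le) S A hA0 (by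
      intro T hT c hc
      have h1 := count X b hb D T (fun p hp => ⟨(hD p hp).1, (hD p hp).2.1⟩)
        (fun p hp => ⟨(hPp p (hT hp)).1, (hPp p (hT hp)).2.1⟩) (by
          rw [disjoint_right]
          intro p hp
          exact (Finset.mem_sdiff.1 (hT hp)).2) r c (by
          intro p hp
          have h2 := hc p hp
          unfold cls at h2
          rw [mem_image] at h2
          obtain ⟨u, -, h3⟩ := h2
          rw [← h3]
          exact Nat.mod_lt _ (hPp p (hT hp)).1.pos)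
      exact h1)
  have hcard : ∀ p ∈ P, ((cls U p).card : ℝ) = L := by
    intro p hp
    rw [card_cls (hPp p hp).1.pos U (fun u hu => by
      have h1 := hUA u hu
      have h2 := (hPp p hp).2.1
      omega), hUc]
  have e1 : ∏ p ∈ P, (1 - ((cls U p).card : ℝ) / p) = ∏ p ∈ P, (1 - (L : ℝ) / p) :=
    prod_congr rfl fun p hp => by rw [hcard p hp]
  rw [e1] at hkey
  -- the product
  have hfac : ∀ p : ℕ, HH X < p → (1 / 2 : ℝ) ≤ 1 - (L : ℝ) / p ∧
      1 - (L : ℝ) / p ≤ (1 - 1 / (p : ℝ)) ^ L ∧ 0 < 1 - 1 / (p : ℝ) := by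
    intro p hp
    have h1 : 2 * L + 2 ≤ p := by omega
    have h2 : (2 : ℝ) * L + 2 ≤ p := by exact_mod_cast h1
    have hp0 : (0 : ℝ) < p := by
      have : (0 : ℝ) ≤ L := by positivity
      linarith
    refine ⟨?_, ?_, ?_⟩
    · have : (L : ℝ) / p ≤ 1 / 2 := by
        rw [div_le_div_iff₀ hp0 (by norm_num)]
        linarith
      linarith
    · have h3 := one_add_mul_le_pow (a := -(1 / (p : ℝ))) (by
        have : 1 / (p : ℝ) ≤ 1 := by
          rw [div_le_one hp0]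
          have : (0 : ℝ) ≤ L := by positivity
          linarith
        linarith) L
      calc 1 - (L : ℝ) / p = 1 + (L : ℝ) * -(1 / (p : ℝ)) := by ring
        _ ≤ (1 + -(1 / (p : ℝ))) ^ L := h3
        _ = _ := by ring
    · have : 1 / (p : ℝ) < 1 := by
        rw [div_lt_one hp0]
        have : (0 : ℝ) ≤ L := by positivity
        linarith
      linarith
  have hprod : ∏ p ∈ P, (1 - (L : ℝ) / p) ≤ VV δ' X ^ L * 2 ^ D.card := by
    have h1 : ∏ p ∈ P, (1 - (L : ℝ) / p) ≤ (∏ p ∈ P, (1 - 1 / (p : ℝ))) ^ L := by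
      rw [← prod_pow]
      apply Finset.prod_le_prod
      · intro p hp
        have := (hfac p (hPp p hp).2.1).1
        linarith
      · intro p hp
        exact (hfac p (hPp p hp).2.1).2.1
    have h2 : (∏ p ∈ P, (1 - 1 / (p : ℝ))) * ∏ p ∈ P1 (HH X) J ∩ D, (1 - 1 / (p : ℝ)) = VV δ' X := by
      unfold VV
      rw [hP, ← prod_sdiff (show P1 (HH X) J ∩ D ⊆ P1 (HH X) J from inter_subset_left)]
      congr 1
      apply prod_congr _ fun _ _ => rfl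
      ext p
      simp only [Finset.mem_sdiff, mem_inter]
      tauto
    have h3 : (1 / 2 : ℝ) ^ D.card ≤ (∏ p ∈ P1 (HH X) J ∩ D, (1 - 1 / (p : ℝ))) ^ L := by
      calc (1 / 2 : ℝ) ^ D.card ≤ (1 / 2 : ℝ) ^ (P1 (HH X) J ∩ D).card :=
            pow_le_pow_of_le_one (by norm_num) (by norm_num) (card_le_card inter_subset_right)
        _ = ∏ _p ∈ P1 (HH X) J ∩ D, (1 / 2 : ℝ) := by rw [prod_const]
        _ ≤ ∏ p ∈ P1 (HH X) J ∩ D, (1 - 1 / (p : ℝ)) ^ L := by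
            apply Finset.prod_le_prod (fun _ _ => by norm_num)
            intro p hp
            have h4 := hfac p (hD p (mem_inter.1 hp).2).2.1
            exact h4.1.trans h4.2.1
        _ = _ := prod_pow _ _ _
    have h4 : 0 ≤ ∏ p ∈ P, (1 - 1 / (p : ℝ)) := prod_nonneg fun p hp => (hfac p (hPp p hp).2.1).2.2.le
    have h5 : (∏ p ∈ P, (1 - 1 / (p : ℝ))) ^ L ≤ VV δ' X ^ L * 2 ^ D.card := by
      rw [← h2, mul_pow]
      calc (∏ p ∈ P, (1 - 1 / (p : ℝ))) ^ L =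
          (∏ p ∈ P, (1 - 1 / (p : ℝ))) ^ L * ((1 / 2 : ℝ) ^ D.card * 2 ^ D.card) := by
            rw [← mul_pow]
            norm_num
        _ ≤ (∏ p ∈ P, (1 - 1 / (p : ℝ))) ^ L *
            ((∏ p ∈ P1 (HH X) J ∩ D, (1 - 1 / (p : ℝ))) ^ L * 2 ^ D.card) := by
            apply mul_le_mul_of_nonneg_left _ (by positivity)
            exact mul_le_mul_of_nonneg_right h3 (by positivity)
        _ = _ := by ring
    exact h1.trans h5
  have hprod0 : 0 ≤ ∏ p ∈ P, (1 - (L : ℝ) / p) := prod_nonneg fun p hp => by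
    have := (hfac p (hPp p hp).2.1).1
    linarith
  have hVV'0 : 0 ≤ VV δ' X := by
    unfold VV
    apply prod_nonneg
    intro p hp
    rw [mem_P1] at hp
    exact (hfac p hp.2.2).2.2.le
  have e2 : ∏ p ∈ D, (2 / (p : ℝ)) = 2 ^ D.card / ∏ p ∈ D, (p : ℝ) := by
    rw [prod_div_distrib, prod_const]
  -- main term
  have hmain : A * ∏ p ∈ P, (1 - (L : ℝ) / p) ≤ C1 ^ L * (Om δ X L * ∏ p ∈ D, (2 / (p : ℝ))) := by
    calc A * ∏ p ∈ P, (1 - (L : ℝ) / p) ≤ A * (VV δ' X ^ L * 2 ^ D.card) :=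
          mul_le_mul_of_nonneg_left hprod hA0
      _ ≤ A * ((C1 * VV δ X) ^ L * 2 ^ D.card) := by
          apply mul_le_mul_of_nonneg_left _ hA0
          apply mul_le_mul_of_nonneg_right _ (by positivity)
          exact pow_le_pow_left₀ hVV'0 hV1 L
      _ = _ := by
          rw [e2, hA, mul_pow]
          unfold Om
          ring
  -- error term
  have herr : ((J : ℝ) + 2) * (((2 ^ 2 ^ J : ℕ) : ℝ) ^ (C0 * C0)) ^ 2 ≤
      Om δ X L * ∏ p ∈ D, (2 / (p : ℝ)) := by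
    have h1 : (((2 ^ 2 ^ J : ℕ) : ℝ) ^ (C0 * C0)) ^ 2 ≤ (X : ℝ) ^ (1 / 8 : ℝ) := by
      rw [← pow_mul]
      exact hJ2
    have h2 := prod_small D (by omega) (fun p hp => ⟨(hD p hp).1, (hD p hp).2.2⟩)
    have h3 : (X : ℝ) ^ (-(1 / 10 : ℝ)) ≤ ∏ p ∈ D, (2 / (p : ℝ)) := by
      rw [e2, Real.rpow_neg (by linarith), le_div_iff₀ hDpos]
      have h4 : (0 : ℝ) < (X : ℝ) ^ (1 / 10 : ℝ) := by positivity
      calc ((X : ℝ) ^ (1 / 10 : ℝ))⁻¹ * ∏ p ∈ D, (p : ℝ) ≤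
          ((X : ℝ) ^ (1 / 10 : ℝ))⁻¹ * (X : ℝ) ^ (1 / 10 : ℝ) :=
            mul_le_mul_of_nonneg_left h2 (by positivity)
        _ = 1 := inv_mul_cancel₀ h4.ne'
        _ ≤ _ := one_le_pow₀ (by norm_num)
    have h5 := hev X hX5
    have hlpos : (0 : ℝ) < Real.log X ^ (2 * L + 1) := by positivity
    calc ((J : ℝ) + 2) * (((2 ^ 2 ^ J : ℕ) : ℝ) ^ (C0 * C0)) ^ 2 ≤
        (4 * Real.log X) * (X : ℝ) ^ (1 / 8 : ℝ) := by
          apply mul_le_mul hJ1 h1 (by positivity) (by positivity)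
      _ ≤ (X : ℝ) / Real.log X ^ (2 * L + 1) * (X : ℝ) ^ (-(1 / 10 : ℝ)) := by
          rw [div_mul_eq_mul_div, le_div_iff₀ hlpos]
          calc 4 * Real.log X * (X : ℝ) ^ (1 / 8 : ℝ) * Real.log X ^ (2 * L + 1) =
              (4 * Real.log X ^ (2 * L + 2)) * (X : ℝ) ^ (1 / 8 : ℝ) := by ring
            _ ≤ (X : ℝ) ^ (1 / 2 : ℝ) * (X : ℝ) ^ (1 / 8 : ℝ) :=
                mul_le_mul_of_nonneg_right h5 (by positivity)
            _ = (X : ℝ) ^ (5 / 8 : ℝ) := by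
                rw [← Real.rpow_add (by linarith)]
                norm_num
            _ ≤ (X : ℝ) ^ (9 / 10 : ℝ) :=
                Real.rpow_le_rpow_of_exponent_le (by linarith) (by norm_num)
            _ = (X : ℝ) * (X : ℝ) ^ (-(1 / 10 : ℝ)) := by
                nth_rewrite 2 [← Real.rpow_one (X : ℝ)]
                rw [← Real.rpow_add (by linarith)]
                norm_num
      _ ≤ _ := by
          apply mul_le_mul hOml h3 (by positivity)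
          unfold Om
          positivity
  have hsub : (((SI X b).filter (fun n => (∀ u ∈ U, rg (P1 (HH X) (JJ δ X)) u n = 1) ∧
      ∀ p ∈ D, n % p = r % p)).card : ℝ) ≤
      ((S.filter (fun n => ∀ p ∈ P, n % p ∉ cls U p)).card : ℝ) := by
    apply Nat.cast_le.2
    apply card_le_card
    intro n hn
    rw [mem_filter] at hn
    rw [hS, mem_filter, mem_filter]
    refine ⟨⟨hn.1, hn.2.2⟩, ?_⟩
    intro p hp
    rw [notMem_cls (hPp p hp).1.pos]
    intro u hu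
    have h1 := rg_one.1 (hn.2.1 u hu) p
    apply h1
    have h2 : p ∈ P1 (HH X) J := (Finset.mem_sdiff.1 hp).1
    exact P1_mono (JJ_mono hδ'δ X (by omega)) h2
  have h1 := (abs_le.1 hkey).2
  have h2 : (1 / 2 : ℝ) ^ C0 ≤ 1 := pow_le_one₀ (by norm_num) (by norm_num)
  have h3 : (1 / 2 : ℝ) ^ C0 * (A * ∏ p ∈ P, (1 - (L : ℝ) / p)) ≤
      A * ∏ p ∈ P, (1 - (L : ℝ) / p) := by
    have : 0 ≤ A * ∏ p ∈ P, (1 - (L : ℝ) / p) := by positivity
    nlinarith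
  calc _ ≤ ((S.filter (fun n => ∀ p ∈ P, n % p ∉ cls U p)).card : ℝ) := hsub
    _ ≤ 2 * (C1 ^ L * (Om δ X L * ∏ p ∈ D, (2 / (p : ℝ)))) + Om δ X L * ∏ p ∈ D, (2 / (p : ℝ)) := by
        linarith
    _ = _ := by ring

end Pool.Agent.TH882.UB
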