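import Pool.Agent.TH882.PC

/-! The variance of the number of representations. -/

set_option autoImplicit false

open Finset Filter Topology

namespace Pool.Agent.TH882.PC

open Pool.Agent.H361R2.PP
open Pool.Agent.W70.HR
open Pool.Agent.TH882.UB
open Pool.Agent.H373R2.T7 (lamz Vz pz)

/-- the density factor of the modulus -/
noncomputable def wX (X : ℕ) : ℝ := (Wm X : ℝ) / Nat.totient (Wm X)

lemma wX_pos (X : ℕ) : 0 < wX X := by
  unfold wX
  have ha : (0 : ℝ) < Wm X := by exact_mod_cast Wm_pos X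
  have hb : (0 : ℝ) < Nat.totient (Wm X) := by exact_mod_cast Nat.totient_pos.2 (Wm_pos X)
  positivity

lemma wX_one (X : ℕ) : 1 ≤ wX X := by
  unfold wX
  have hb : (0 : ℝ) < Nat.totient (Wm X) := by exact_mod_cast Nat.totient_pos.2 (Wm_pos X)
  rw [le_div_iff₀ hb, one_mul]
  exact_mod_cast Nat.totient_le _

lemma inv_wX (X : ℕ) : (wX X)⁻¹ = ∏ p ∈ (range (HH X + 1)).filter Nat.Prime, (1 - 1 / (p : ℝ)) := by
  unfold wX
  rw [inv_div]
  have h1 := Nat.totient_eq_mul_prod_factors (Wm X)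
  have h2 : (Wm X).primeFactors = (range (HH X + 1)).filter Nat.Prime := by
    unfold Wm primorial
    exact Nat.primeFactors_prod (fun p hp => (mem_filter.1 hp).2)
  rw [h2] at h1
  have ha : (Wm X : ℝ) ≠ 0 := by
    have : 0 < Wm X := Wm_pos X
    positivity
  have h3 : ((Nat.totient (Wm X) : ℚ) : ℝ) =
      (((Wm X : ℚ) * ∏ p ∈ (range (HH X + 1)).filter Nat.Prime, (1 - (p : ℚ)⁻¹) : ℚ) : ℝ) := by
    rw [h1]
  push_cast at h3
  rw [h3, mul_div_assoc, mul_comm, div_mul_cancel₀ _ ha]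
  apply prod_congr rfl
  intro p _
  rw [one_div]

lemma Vz_split (X z : ℕ) (h : HH X ≤ z) :
    Vz z = (wX X)⁻¹ * ∏ p ∈ PZ X z, (1 - 1 / (p : ℝ)) := by
  rw [inv_wX]
  unfold Vz PZ
  rw [← prod_filter_mul_prod_filter_not (pz z) (fun p => HH X < p), mul_comm]
  congr 1
  apply prod_congr _ fun _ _ => rfl
  ext p
  unfold pz
  simp only [mem_filter, mem_Icc, mem_range]
  constructor
  · rintro ⟨⟨⟨_, _⟩, h3⟩, h4⟩
    exact ⟨by omega, h3⟩
  · rintro ⟨h1, h2⟩
    exact ⟨⟨⟨h2.one_lt.le, by omega⟩, h2⟩, by omega⟩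

lemma one_sub_pos {p : ℕ} (hp : p.Prime) : (0 : ℝ) < 1 - 1 / (p : ℝ) := by
  have h2 : (2 : ℝ) ≤ p := by exact_mod_cast hp.two_le
  have : 1 / (p : ℝ) ≤ 1 / 2 := one_div_le_one_div_of_le (by norm_num) h2
  linarith

lemma Vz_pos (z : ℕ) : 0 < Vz z := by
  unfold Vz pz
  apply prod_pos
  intro p hp
  exact one_sub_pos (mem_filter.1 hp).2

/-- the correlation factor -/
noncomputable def Gk (X z k k' : ℕ) : ℝ :=
  ∏ p ∈ (PZ X z).filter (fun p => k % p = k' % p), (1 - 1 / (p : ℝ))⁻¹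

lemma sum_lamz (X Z s z : ℕ) (K : Finset ℕ) (k : ℕ) (hK : K = {k}) :
    ∑ N ∈ IN X Z s, lamz z (N - k) = (Vz z)⁻¹ * ((RN X Z s z K).card : ℝ) := by
  subst hK
  unfold RN lamz
  rw [← sum_filter, sum_const, nsmul_eq_mul, mul_comm]
  congr 3
  apply filter_congr
  intro N _
  simp

lemma sum_lamz2 (X Z s z : ℕ) (k k' : ℕ) :
    ∑ N ∈ IN X Z s, lamz z (N - k) * lamz z (N - k') =
      (Vz z)⁻¹ ^ 2 * ((RN X Z s z {k, k'}).card : ℝ) := by
  have h1 : ∀ N ∈ IN X Z s, lamz z (N - k) * lamz z (N - k') =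
      if ∀ j ∈ ({k, k'} : Finset ℕ), ∀ p ∈ pz z, ¬ p ∣ N - j then (Vz z)⁻¹ ^ 2 else 0 := by
    intro N _
    unfold lamz
    simp only [mem_insert, mem_singleton, forall_eq_or_imp, forall_eq]
    by_cases h1 : ∀ p ∈ pz z, ¬ p ∣ N - k
    · by_cases h2 : ∀ p ∈ pz z, ¬ p ∣ N - k'
      · rw [if_pos h1, if_pos h2, if_pos ⟨h1, h2⟩]
        ring
      · rw [if_neg h2, mul_zero, if_neg (fun h => h2 h.2)]
    · rw [if_neg h1, zero_mul, if_neg (fun h => h1 h.1)]
  rw [sum_congr rfl h1]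
  unfold RN
  rw [← sum_filter, sum_const, nsmul_eq_mul, mul_comm]

/-- local comparison -/
lemma prod_pair (X z k k' : ℕ) (hH : 2 ≤ HH X) (hz : HH X ≤ z) :
    (Vz z)⁻¹ ^ 2 *
      ∏ p ∈ PZ X z, (1 - ((({k, k'} : Finset ℕ).image (fun k => k % p)).card : ℝ) / p) ≤
      wX X ^ 2 * Gk X z k k' := by
  rw [Vz_split X z hz, mul_inv, inv_inv, mul_pow, mul_assoc]
  apply mul_le_mul_of_nonneg_left _ (by positivity)
  unfold Gk
  rw [prod_filter, ← prod_inv_distrib, ← prod_pow, ← prod_mul_distrib]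
  apply Finset.prod_le_prod
  · intro p hp
    rw [mem_PZ] at hp
    have h1 := one_sub_pos hp.1
    have hp3 : (3 : ℝ) ≤ p := by
      have : 3 ≤ p := by omega
      exact_mod_cast this
    have h2 : ((({k, k'} : Finset ℕ).image (fun k => k % p)).card : ℝ) ≤ 2 := by
      exact_mod_cast card_image_le.trans card_le_two
    have h3 : ((({k, k'} : Finset ℕ).image (fun k => k % p)).card : ℝ) / p ≤ 1 := by
      rw [div_le_one (by linarith)]
      linarith
    apply mul_nonneg (by positivity)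
    linarith
  · intro p hp
    rw [mem_PZ] at hp
    have h1 := one_sub_pos hp.1
    have hp3 : (3 : ℝ) ≤ p := by
      have : 3 ≤ p := by omega
      exact_mod_cast this
    have hp0 : (0 : ℝ) < p := by linarith
    split_ifs with h
    · have h2 : (({k, k'} : Finset ℕ).image (fun k => k % p)).card = 1 := by
        rw [image_insert, image_singleton, h, insert_eq_of_mem (mem_singleton_self _),
          card_singleton]
      rw [h2, Nat.cast_one]
      apply le_of_eq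
      field_simp
    · have h2 : (({k, k'} : Finset ℕ).image (fun k => k % p)).card = 2 := by
        rw [image_insert, image_singleton, card_pair h]
      rw [h2]
      have h3 : (1 - ((2 : ℕ) : ℝ) / p) ≤ (1 - 1 / (p : ℝ)) ^ 2 := by
        push_cast
        have : (1 - 1 / (p : ℝ)) ^ 2 = 1 - 2 / p + (1 / (p : ℝ)) ^ 2 := by
          field_simp
          ring
        rw [this]
        have : 0 ≤ (1 / (p : ℝ)) ^ 2 := by positivity
        linarith
      calc (1 - 1 / (p : ℝ))⁻¹ ^ 2 * (1 - ((2 : ℕ) : ℝ) / p) ≤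
          (1 - 1 / (p : ℝ))⁻¹ ^ 2 * (1 - 1 / (p : ℝ)) ^ 2 :=
            mul_le_mul_of_nonneg_left h3 (by positivity)
        _ = 1 := by
            rw [← mul_pow, inv_mul_cancel₀ h1.ne', one_pow]

lemma Gk_one (X z k k' : ℕ) : 1 ≤ Gk X z k k' := by
  unfold Gk
  calc (1 : ℝ) = ∏ _p ∈ (PZ X z).filter (fun p => k % p = k' % p), (1 : ℝ) := by
        rw [prod_const_one]
    _ ≤ _ := by
        apply Finset.prod_le_prod (fun _ _ => zero_le_one)
        intro p hp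
        have hpp := (mem_PZ.1 (mem_filter.1 hp).1).1
        have h1 := one_sub_pos hpp
        rw [one_le_inv₀ h1]
        have : 0 ≤ 1 / (p : ℝ) := by positivity
        linarith

set_option maxHeartbeats 1000000 in
theorem var (β : ℝ) (hβ : 0 < β) (hβ1 : β ≤ 1) (E : ℕ) : ∃ X₀ : ℕ, ∀ X : ℕ, X₀ ≤ X →
    ∀ Z s z : ℕ, 5 * X ≤ Z → s < Wm X → HH X ≤ z → (z : ℝ) ≤ Real.log X ^ E →
    ∀ K : Finset ℕ, (∀ k ∈ K, k ≤ 5 * X) →
    (∀ N ∈ IN X Z s, ∀ k ∈ K, (N - k).Coprime (Wm X)) →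
    ∑ N ∈ IN X Z s, (∑ k ∈ K, (lamz z (N - k) - wX X)) ^ 2 ≤
      ((Z : ℝ) - 5 * X) / Wm X * wX X ^ 2 *
        ((1 + β) * ∑ k ∈ K, ∑ k' ∈ K.erase k, (Gk X z k k' - 1) + 3 * β * (K.card : ℝ) ^ 2) +
      4 * Real.log X ^ 2 * (X : ℝ) ^ (1 / 4 : ℝ) * (K.card : ℝ) ^ 2 +
      Real.log X ^ 2 * (((Z : ℝ) - 5 * X) / Wm X + 1) * K.card := by
  classical
  obtain ⟨X1, hR⟩ := RN_card 2 β hβ E
  obtain ⟨X2, hV⟩ := Pool.Agent.H373R2.T7.Vz_inv_small E
  obtain ⟨X3, hHH⟩ := eventually_atTop.1 (HH_tendsto.eventually_ge_atTop 2)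
  refine ⟨max (max X1 X2) (max X3 3), ?_⟩
  intro X hX Z s z hZ hs hHz hz K hK5 hcop
  have hX1 : X1 ≤ X := ((le_max_left _ _).trans (le_max_left _ _)).trans hX
  have hX2 : X2 ≤ X := ((le_max_right _ _).trans (le_max_left _ _)).trans hX
  have hX3 : X3 ≤ X := ((le_max_left _ _).trans (le_max_right _ _)).trans hX
  have hX5 : 3 ≤ X := ((le_max_right _ _).trans (le_max_right _ _)).trans hX
  have hXr : (3 : ℝ) ≤ X := by exact_mod_cast hX5
  have hl1 : 1 ≤ Real.log X := by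
    rw [Real.le_log_iff_exp_le (by linarith)]
    have := Real.exp_one_lt_d9
    linarith
  have hH2 := hHH X hX3
  have hVl : (Vz z)⁻¹ ≤ Real.log X := hV X hX2 z (by omega) hz
  have hVp := Vz_pos z
  have hw0 := wX_pos X
  have hPZ1 : ∏ p ∈ PZ X z, (1 - 1 / (p : ℝ)) ≤ 1 := by
    apply prod_le_one
    · intro p hp
      exact (one_sub_pos (mem_PZ.1 hp).1).le
    · intro p hp
      have : 0 ≤ 1 / (p : ℝ) := by positivity
      linarith
  have hPZ0 : 0 < ∏ p ∈ PZ X z, (1 - 1 / (p : ℝ)) :=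
    prod_pos fun p hp => one_sub_pos (mem_PZ.1 hp).1
  have hVw : wX X ≤ (Vz z)⁻¹ := by
    rw [Vz_split X z hHz, mul_inv, inv_inv]
    have : 1 ≤ (∏ p ∈ PZ X z, (1 - 1 / (p : ℝ)))⁻¹ := (one_le_inv₀ hPZ0).2 hPZ1
    nlinarith
  have hwl : wX X ≤ Real.log X := hVw.trans hVl
  set L := Real.log X with hL
  set w := wX X with hw
  have hW0 : (0 : ℝ) < Wm X := by exact_mod_cast Wm_pos X
  have hZr : (5 : ℝ) * X ≤ Z := by exact_mod_cast hZ
  set A : ℝ := ((Z : ℝ) - 5 * X) / Wm X with hA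
  have hA0 : 0 ≤ A := div_nonneg (by linarith) hW0.le
  set Q : ℝ := (X : ℝ) ^ (1 / 4 : ℝ) with hQ
  have hQ1 : 1 ≤ Q := Real.one_le_rpow (by linarith) (by norm_num)
  have hI := IN_card X Z s hs hZ
  rw [← hA] at hI
  -- first moment
  have hM1 : ∀ k ∈ K, A * w * (1 - β) - L * Q ≤ ∑ N ∈ IN X Z s, lamz z (N - k) := by
    intro k hk
    rw [sum_lamz X Z s z {k} k rfl]
    have h1 := (abs_le.1 (hR X hX1 Z s z hZ hs hz {k} (by simp) (by simpa using hK5 k hk) (by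
      intro N hN j hj
      rw [mem_singleton] at hj
      subst hj
      exact hcop N hN j hk))).1
    have e1 : ∏ p ∈ PZ X z, (1 - ((({k} : Finset ℕ).image (fun k => k % p)).card : ℝ) / p) =
        ∏ p ∈ PZ X z, (1 - 1 / (p : ℝ)) := by
      apply prod_congr rfl
      intro p _
      rw [image_singleton, card_singleton, Nat.cast_one]
    rw [e1, ← hA] at h1
    set Pi := ∏ p ∈ PZ X z, (1 - 1 / (p : ℝ)) with hPi
    have h2 : A * Pi * (1 - β) - Q ≤ ((RN X Z s z {k}).card : ℝ) := by linarith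
    have h3 : (Vz z)⁻¹ * Pi = w := by
      rw [Vz_split X z hHz, ← hPi, mul_inv, inv_inv, mul_assoc, inv_mul_cancel₀ hPZ0.ne', mul_one]
    calc A * w * (1 - β) - L * Q ≤ A * ((Vz z)⁻¹ * Pi) * (1 - β) - (Vz z)⁻¹ * Q := by
          rw [h3]
          have : (Vz z)⁻¹ * Q ≤ L * Q := mul_le_mul_of_nonneg_right hVl (by linarith)
          linarith
      _ = (Vz z)⁻¹ * (A * Pi * (1 - β) - Q) := by ring
      _ ≤ _ := mul_le_mul_of_nonneg_left h2 (inv_pos.2 hVp).le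
  -- second moment off the diagonal
  have hM2 : ∀ k ∈ K, ∀ k' ∈ K.erase k, ∑ N ∈ IN X Z s, lamz z (N - k) * lamz z (N - k') ≤
      (1 + β) * A * w ^ 2 * Gk X z k k' + L ^ 2 * Q := by
    intro k hk k' hk'
    have hk'K := mem_of_mem_erase hk'
    rw [sum_lamz2]
    have h1 := (abs_le.1 (hR X hX1 Z s z hZ hs hz {k, k'} card_le_two (by
      intro j hj
      rw [mem_insert, mem_singleton] at hj
      rcases hj with rfl | rfl
      · exact hK5 _ hk
      · exact hK5 _ hk'K) (by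
      intro N hN j hj
      rw [mem_insert, mem_singleton] at hj
      rcases hj with rfl | rfl
      · exact hcop N hN _ hk
      · exact hcop N hN _ hk'K))).2
    rw [← hA] at h1
    have h2 := prod_pair X z k k' hH2 hHz
    rw [← hw] at h2
    set Pi := ∏ p ∈ PZ X z, (1 - ((({k, k'} : Finset ℕ).image (fun k => k % p)).card : ℝ) / p)
      with hPi
    have h3 : ((RN X Z s z {k, k'}).card : ℝ) ≤ (1 + β) * A * Pi + Q := by linarith
    have hVL2 : (Vz z)⁻¹ ^ 2 ≤ L ^ 2 := pow_le_pow_left₀ (inv_pos.2 hVp).le hVl 2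
    calc (Vz z)⁻¹ ^ 2 * ((RN X Z s z {k, k'}).card : ℝ) ≤
        (Vz z)⁻¹ ^ 2 * ((1 + β) * A * Pi + Q) := mul_le_mul_of_nonneg_left h3 (by positivity)
      _ = (1 + β) * A * ((Vz z)⁻¹ ^ 2 * Pi) + (Vz z)⁻¹ ^ 2 * Q := by ring
      _ ≤ (1 + β) * A * (w ^ 2 * Gk X z k k') + L ^ 2 * Q := by
          apply add_le_add
          · exact mul_le_mul_of_nonneg_left h2 (by positivity)
          · exact mul_le_mul_of_nonneg_right hVL2 (by linarith)
      _ = _ := by ring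
  -- the diagonal
  have hM3 : ∀ k ∈ K, ∑ N ∈ IN X Z s, lamz z (N - k) * lamz z (N - k) ≤ L ^ 2 * (A + 1) := by
    intro k _
    rw [sum_lamz2]
    have h1 : ((RN X Z s z {k, k}).card : ℝ) ≤ A + 1 := by
      refine le_trans ?_ hI
      exact Nat.cast_le.2 (card_filter_le _ _)
    have hVL2 : (Vz z)⁻¹ ^ 2 ≤ L ^ 2 := pow_le_pow_left₀ (inv_pos.2 hVp).le hVl 2
    exact mul_le_mul hVL2 h1 (by positivity) (by positivity)
  -- expansion
  have hexp : ∑ N ∈ IN X Z s, (∑ k ∈ K, (lamz z (N - k) - w)) ^ 2 =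
      ∑ k ∈ K, ∑ k' ∈ K, (∑ N ∈ IN X Z s, lamz z (N - k) * lamz z (N - k') -
        w * ∑ N ∈ IN X Z s, lamz z (N - k) - w * ∑ N ∈ IN X Z s, lamz z (N - k') +
        w ^ 2 * ((IN X Z s).card : ℝ)) := by
    have h1 : ∀ N ∈ IN X Z s, (∑ k ∈ K, (lamz z (N - k) - w)) ^ 2 =
        ∑ k ∈ K, ∑ k' ∈ K, (lamz z (N - k) * lamz z (N - k') - w * lamz z (N - k) -
          w * lamz z (N - k') + w ^ 2) := by
      intro N _
      rw [sq, sum_mul_sum]
      apply sum_congr rfl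
      intro k _
      apply sum_congr rfl
      intro k' _
      ring
    rw [sum_congr rfl h1, sum_comm]
    apply sum_congr rfl
    intro k _
    rw [sum_comm]
    apply sum_congr rfl
    intro k' _
    rw [sum_add_distrib, sum_sub_distrib, sum_sub_distrib, ← mul_sum, ← mul_sum, sum_const,
      nsmul_eq_mul]
    ring
  rw [hexp]
  have hw2 : w ^ 2 ≤ L ^ 2 := pow_le_pow_left₀ hw0.le hwl 2
  have hwL : w * L ≤ L ^ 2 := by nlinarith
  have hcommon : ∀ k ∈ K, ∀ k' ∈ K, - w * ∑ N ∈ IN X Z s, lamz z (N - k) -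
      w * ∑ N ∈ IN X Z s, lamz z (N - k') + w ^ 2 * ((IN X Z s).card : ℝ) ≤
      A * w ^ 2 * (2 * β - 1) + 3 * L ^ 2 * Q := by
    intro k hk k' hk'
    have h1 := mul_le_mul_of_nonneg_left (hM1 k hk) hw0.le
    have h2 := mul_le_mul_of_nonneg_left (hM1 k' hk') hw0.le
    have h3 : w ^ 2 * ((IN X Z s).card : ℝ) ≤ w ^ 2 * (A + 1) :=
      mul_le_mul_of_nonneg_left hI (by positivity)
    have h4 : w * (L * Q) ≤ L ^ 2 * Q := by
      rw [← mul_assoc]
      exact mul_le_mul_of_nonneg_right hwL (by linarith)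
    have h5 : w ^ 2 ≤ L ^ 2 * Q := by
      have : L ^ 2 * 1 ≤ L ^ 2 * Q := mul_le_mul_of_nonneg_left hQ1 (by positivity)
      linarith
    have e1 : w * (A * w * (1 - β) - L * Q) = A * w ^ 2 * (1 - β) - w * (L * Q) := by ring
    rw [e1] at h1 h2
    nlinarith
  have hterm : ∀ k ∈ K, ∑ k' ∈ K, (∑ N ∈ IN X Z s, lamz z (N - k) * lamz z (N - k') -
        w * ∑ N ∈ IN X Z s, lamz z (N - k) - w * ∑ N ∈ IN X Z s, lamz z (N - k') +
        w ^ 2 * ((IN X Z s).card : ℝ)) ≤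
      ∑ k' ∈ K.erase k, (A * w ^ 2 * (1 + β) * (Gk X z k k' - 1)) +
      (K.card : ℝ) * (3 * β * (A * w ^ 2) + 4 * L ^ 2 * Q) + L ^ 2 * (A + 1) := by
    intro k hk
    rw [← add_sum_erase K _ hk]
    have hd : ∑ N ∈ IN X Z s, lamz z (N - k) * lamz z (N - k) -
        w * ∑ N ∈ IN X Z s, lamz z (N - k) - w * ∑ N ∈ IN X Z s, lamz z (N - k) +
        w ^ 2 * ((IN X Z s).card : ℝ) ≤ L ^ 2 * (A + 1) + (3 * β * (A * w ^ 2) + 4 * L ^ 2 * Q) := by
      have h1 := hM3 k hk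
      have h2 := hcommon k hk k hk
      have h3 : 0 ≤ A * w ^ 2 := by positivity
      have h4 : 0 ≤ L ^ 2 * Q := by positivity
      nlinarith
    have ho : ∑ k' ∈ K.erase k, (∑ N ∈ IN X Z s, lamz z (N - k) * lamz z (N - k') -
        w * ∑ N ∈ IN X Z s, lamz z (N - k) - w * ∑ N ∈ IN X Z s, lamz z (N - k') +
        w ^ 2 * ((IN X Z s).card : ℝ)) ≤ ∑ k' ∈ K.erase k,
        (A * w ^ 2 * (1 + β) * (Gk X z k k' - 1) + (3 * β * (A * w ^ 2) + 4 * L ^ 2 * Q)) := by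
      apply sum_le_sum
      intro k' hk'
      have h1 := hM2 k hk k' hk'
      have h2 := hcommon k hk k' (mem_of_mem_erase hk')
      have h4 : 0 ≤ L ^ 2 * Q := by positivity
      nlinarith
    have hR' : ∑ k' ∈ K.erase k,
        (A * w ^ 2 * (1 + β) * (Gk X z k k' - 1) + (3 * β * (A * w ^ 2) + 4 * L ^ 2 * Q)) =
        ∑ k' ∈ K.erase k, (A * w ^ 2 * (1 + β) * (Gk X z k k' - 1)) +
          ((K.erase k).card : ℝ) * (3 * β * (A * w ^ 2) + 4 * L ^ 2 * Q) := by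
      rw [sum_add_distrib, sum_const, nsmul_eq_mul]
    rw [hR'] at ho
    have hc : ((K.erase k).card : ℝ) + 1 = K.card := by
      rw [card_erase_of_mem hk]
      have : 1 ≤ K.card := card_pos.2 ⟨k, hk⟩
      push_cast [this]
      ring
    have hcc : (K.card : ℝ) * (3 * β * (A * w ^ 2) + 4 * L ^ 2 * Q) =
        ((K.erase k).card : ℝ) * (3 * β * (A * w ^ 2) + 4 * L ^ 2 * Q) +
          (3 * β * (A * w ^ 2) + 4 * L ^ 2 * Q) := by
      rw [← hc]; ring
    rw [hcc]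
    linarith
  refine (sum_le_sum hterm).trans ?_
  rw [sum_add_distrib, sum_add_distrib, sum_const, sum_const, nsmul_eq_mul, nsmul_eq_mul]
  simp only [← mul_sum]
  apply le_of_eq
  ring

end Pool.Agent.TH882.PC
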