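import Mathlib

/-! Perturbed k-th powers (perturbations divisible by m): nets and one random step. -/

set_option autoImplicit false

namespace Pool.Agent.TH882.WM

open MeasureTheory ProbabilityTheory

/-- H meets z + {0, m, …, m (G-1)} for all z ≡ ρ mod m with Z ≤ z ≤ R. -/
def Net (m : ℕ) (H : Set ℕ) (G Z R ρ : ℕ) : Prop :=
  ∀ z, Z ≤ z → z ≤ R → z ≡ ρ [MOD m] → ∃ e, e < G ∧ z + m * e ∈ H

/-- counting lemma: many noise values put p + m u + h into I + m {0, …, G'-1}. -/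
lemma count_hits {m : ℕ} {H : Set ℕ} {G G' Z R I p W ρ : ℕ} (hG' : G' ≤ G) (hN : Net m H G Z R ρ)
    (hI : I ≤ R) (hIρ : I ≡ ρ + p [MOD m]) (hZ : Z + p + m * W ≤ I) :
    ∃ S : Finset ℕ, S ⊆ Finset.range (W + 1) ∧ (W / (2 * G)) * G' ≤ S.card ∧
      ∀ u ∈ S, ∃ h ∈ H, ∃ e, e < G' ∧ p + m * u + h = I + m * e := by
  classical
  rcases Nat.eq_zero_or_pos G with hG0 | hG
  · refine ⟨∅, by simp, ?_, by simp⟩
    subst hG0
    simp
  set q := W / (2 * G) with hq
  have hqW : q * (2 * G) ≤ W := Nat.div_mul_le_self W (2 * G)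
  have hcell : ∀ c, c < q → (2 * c + 2) * G ≤ W := by
    intro c hc
    calc (2 * c + 2) * G = (c + 1) * (2 * G) := by ring
      _ ≤ q * (2 * G) := Nat.mul_le_mul_right _ hc
      _ ≤ W := hqW
  have hch : ∀ c, ∃ e, c < q → (e < G ∧ (I - p - m * ((2 * c + 1) * G)) + m * e ∈ H ∧
      p + m * ((2 * c + 1) * G) ≤ I) := by
    intro c
    by_cases hc : c < q
    · have h1 := hcell c hc
      have e2 : (2 * c + 1) * G ≤ W := le_trans (Nat.mul_le_mul_right _ (by omega)) h1
      have e3 : m * ((2 * c + 1) * G) ≤ m * W := Nat.mul_le_mul_left _ e2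
      have e4 : I - p - m * ((2 * c + 1) * G) ≡ ρ [MOD m] := by
        have e5 : (I - p - m * ((2 * c + 1) * G)) + (p + m * ((2 * c + 1) * G)) = I := by omega
        have e6 : (I - p - m * ((2 * c + 1) * G)) + (p + m * ((2 * c + 1) * G)) ≡
            ρ + (p + m * ((2 * c + 1) * G)) [MOD m] := by
          rw [e5]
          refine hIρ.trans ?_
          have : ρ + (p + m * ((2 * c + 1) * G)) = ρ + p + m * ((2 * c + 1) * G) := by ring
          rw [this]
          exact (Nat.modEq_iff_dvd' (by omega)).2 ⟨(2 * c + 1) * G, by omega⟩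
        exact Nat.ModEq.add_right_cancel' _ e6
      obtain ⟨e, he, hH⟩ := hN (I - p - m * ((2 * c + 1) * G)) (by omega) (by omega) e4
      exact ⟨e, fun _ => ⟨he, hH, by omega⟩⟩
    · exact ⟨0, fun h => absurd h hc⟩
  choose f hf using hch
  refine ⟨(Finset.range q ×ˢ Finset.range G').image (fun x => x.2 + (2 * x.1 + 1) * G - f x.1), ?_, ?_, ?_⟩
  · intro u hu
    rw [Finset.mem_image] at hu
    obtain ⟨⟨c, t⟩, hx, rfl⟩ := hu
    rw [Finset.mem_product, Finset.mem_range, Finset.mem_range] at hx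
    obtain ⟨hc, ht⟩ := hx
    obtain ⟨h1, -, -⟩ := hf c hc
    have h3 := hcell c hc
    have e1 : (2 * c + 2) * G = 2 * c * G + G + G := by ring
    have e2 : (2 * c + 1) * G = 2 * c * G + G := by ring
    simp only [Finset.mem_range] at *
    omega
  · rw [Finset.card_image_of_injOn, Finset.card_product, Finset.card_range, Finset.card_range]
    rintro ⟨c, t⟩ hx ⟨c', t'⟩ hx' he
    rw [Finset.mem_coe, Finset.mem_product, Finset.mem_range, Finset.mem_range] at hx hx'
    obtain ⟨hc, ht⟩ := hx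
    obtain ⟨hc', ht'⟩ := hx'
    simp only at hc ht hc' ht' he
    obtain ⟨h1, -, -⟩ := hf c hc
    obtain ⟨h1', -, -⟩ := hf c' hc'
    have e2 : (2 * c + 1) * G = 2 * c * G + G := by ring
    have e2' : (2 * c' + 1) * G = 2 * c' * G + G := by ring
    have hcc : c = c' := by
      by_contra hne
      rcases Nat.lt_or_gt_of_ne hne with hlt | hlt
      · have : (2 * c + 2) * G ≤ 2 * c' * G := Nat.mul_le_mul_right _ (by omega)
        have e1 : (2 * c + 2) * G = 2 * c * G + G + G := by ring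
        omega
      · have : (2 * c' + 2) * G ≤ 2 * c * G := Nat.mul_le_mul_right _ (by omega)
        have e1 : (2 * c' + 2) * G = 2 * c' * G + G + G := by ring
        omega
    subst hcc
    have : t = t' := by omega
    rw [this]
  · intro u hu
    rw [Finset.mem_image] at hu
    obtain ⟨⟨c, t⟩, hx, rfl⟩ := hu
    rw [Finset.mem_product, Finset.mem_range, Finset.mem_range] at hx
    obtain ⟨hc, ht⟩ := hx
    obtain ⟨h1, hH, h2⟩ := hf c hc
    simp only at hc ht h1 hH h2 ⊢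
    refine ⟨_, hH, t, ht, ?_⟩
    have e2 : (2 * c + 1) * G = 2 * c * G + G := by ring
    have e3 : f c ≤ t + (2 * c + 1) * G := by omega
    obtain ⟨w, hw⟩ := Nat.exists_eq_add_of_le e3
    rw [hw, Nat.add_sub_cancel_left]
    have e4 : m * (t + (2 * c + 1) * G) = m * (f c + w) := by rw [hw]
    have e5 : m * (t + (2 * c + 1) * G) = m * t + m * ((2 * c + 1) * G) := by ring
    have e6 : m * (f c + w) = m * f c + m * w := by ring
    omega

/-- general union bound for an independent pair. -/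
lemma indep_bound {Ω α β : Type*} [MeasurableSpace Ω] {P : Measure Ω} [IsProbabilityMeasure P]
    [MeasurableSpace α] [MeasurableSpace β] [Countable β] [MeasurableSingletonClass β]
    {X : Ω → α} {Y : Ω → β} (hX : Measurable X) (hY : Measurable Y) (h : IndepFun X Y P)
    (S : β → Set α) (hS : ∀ y, MeasurableSet (S y)) (G : Set β) (δ : ENNReal)
    (hp : ∀ y ∈ G, P (X ⁻¹' S y) ≤ δ) :
    P {ω | Y ω ∈ G ∧ X ω ∈ S (Y ω)} ≤ δ := by
  classical
  have hsub : {ω | Y ω ∈ G ∧ X ω ∈ S (Y ω)} ⊆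
      ⋃ y : β, (if y ∈ G then (X ⁻¹' S y ∩ Y ⁻¹' {y}) else ∅) := by
    intro ω hω
    rw [Set.mem_iUnion]
    refine ⟨Y ω, ?_⟩
    rw [if_pos hω.1]
    exact ⟨hω.2, rfl⟩
  refine (measure_mono hsub).trans ((measure_iUnion_le _).trans ?_)
  have hterm : ∀ y : β, P (if y ∈ G then (X ⁻¹' S y ∩ Y ⁻¹' {y}) else ∅) ≤ δ * P (Y ⁻¹' {y}) := by
    intro y
    split_ifs with hy
    · rw [h.measure_inter_preimage_eq_mul _ _ (hS y) (measurableSet_singleton y)]
      gcongr
      exact hp y hy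
    · simp
  refine (ENNReal.tsum_le_tsum hterm).trans ?_
  rw [ENNReal.tsum_mul_left]
  have : ∑' y, P (Y ⁻¹' {y}) = P Set.univ := by
    rw [← measure_iUnion]
    · congr 1
      ext ω
      simp
    · intro y y' hyy
      exact Disjoint.preimage _ (by simpa using hyy)
    · intro y
      exact hY (measurableSet_singleton y)
  rw [this, measure_univ, mul_one]

/-- uniform law on {0,…,W} -/
def Unif {Ω : Type*} [MeasurableSpace Ω] (P : Measure Ω) (U : Ω → ℕ) (W : ℕ) : Prop :=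
  ∀ S : Finset ℕ, S ⊆ Finset.range (W + 1) → P (U ⁻¹' (S : Set ℕ)) = ENNReal.ofReal ((S.card : ℝ) / (W + 1))

/-- one independent block misses the target with small probability. -/
lemma miss_prob {Ω : Type*} [MeasurableSpace Ω] {P : Measure Ω} [IsProbabilityMeasure P]
    {U : ℕ → Ω → ℕ} (hU : iIndepFun U P) (hm : ∀ n, Measurable (U n)) (W : ℕ → ℕ)
    (B : Finset ℕ) (hW : ∀ n ∈ B, Unif P (U n) (W n)) (p : ℕ → ℕ)
    {m : ℕ} {H : Set ℕ} {D G' Z R I ρ : ℕ} (hD : 1 ≤ D) (hG' : 1 ≤ G') (hN : Net m H (D * G') Z R ρ)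
    (hWG : ∀ n ∈ B, 2 * (D * G') ≤ W n)
    (hI : I ≤ R) (hIρ : ∀ n ∈ B, I ≡ ρ + p n [MOD m]) (hZ : ∀ n ∈ B, Z + p n + m * W n ≤ I) :
    P {ω | ∀ n ∈ B, ∀ h ∈ H, ∀ e, e < G' → p n + m * U n ω + h ≠ I + m * e} ≤
      ENNReal.ofReal (Real.exp (-(B.card : ℝ) / (8 * D))) := by
  classical
  have key : ∀ n ∈ B, ∃ S : Finset ℕ, S ⊆ Finset.range (W n + 1) ∧
      (W n / (2 * (D * G'))) * G' ≤ S.card ∧
      ∀ u ∈ S, ∃ h ∈ H, ∃ e, e < G' ∧ p n + m * u + h = I + m * e := fun n hn =>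
    count_hits (Nat.le_mul_of_pos_left _ hD) hN hI (hIρ n hn) (hZ n hn)
  choose! S hS1 hS2 hS3 using key
  have hsub : {ω | ∀ n ∈ B, ∀ h ∈ H, ∀ e, e < G' → p n + m * U n ω + h ≠ I + m * e} ⊆
      ⋂ n ∈ B, (U n) ⁻¹' ((S n : Set ℕ)ᶜ) := by
    intro ω hω
    simp only [Set.mem_iInter]
    intro n hn hmem
    obtain ⟨h, hH, e, he, h1⟩ := hS3 n hn _ hmem
    exact hω n hn h hH e he h1
  refine (measure_mono hsub).trans ?_
  rw [hU.measure_inter_preimage_eq_mul B (sets := fun n => ((S n : Set ℕ)ᶜ)) (fun n _ => by measurability)]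
  have hone : ∀ n ∈ B, P ((U n) ⁻¹' ((S n : Set ℕ)ᶜ)) ≤ ENNReal.ofReal (Real.exp (-(1 : ℝ) / (8 * D))) := by
    intro n hn
    rw [Set.preimage_compl, prob_compl_eq_one_sub ((hm n) (by measurability)), hW n hn (S n) (hS1 n hn)]
    rw [show (1 : ENNReal) = ENNReal.ofReal 1 by simp, ← ENNReal.ofReal_sub _ (by positivity)]
    apply ENNReal.ofReal_le_ofReal
    have hDr : (1 : ℝ) ≤ D := by exact_mod_cast hD
    have hGr : (1 : ℝ) ≤ G' := by exact_mod_cast hG'
    have hpos : 0 < 2 * (D * G') := by positivity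
    -- lower bound of the proportion
    have h2 : (W n : ℝ) < 2 * (D * G') * ((W n / (2 * (D * G')) : ℕ) + 1 : ℝ) := by
      have := Nat.lt_mul_div_succ (W n) hpos
      exact_mod_cast this
    have h3 : (1 : ℝ) ≤ ((W n / (2 * (D * G')) : ℕ) : ℝ) := by
      have : 1 ≤ W n / (2 * (D * G')) := (Nat.one_le_div_iff hpos).2 (hWG n hn)
      exact_mod_cast this
    set w : ℝ := ((W n / (2 * (D * G')) : ℕ) : ℝ) with hw
    have h4 : w * G' ≤ (S n).card := by
      have := hS2 n hn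
      rw [hw]
      exact_mod_cast this
    have hWr : (1 : ℝ) ≤ W n := by
      have : 1 ≤ W n := le_trans (by nlinarith [hpos]) (hWG n hn)
      exact_mod_cast this
    have h5 : (1 : ℝ) / (8 * D) ≤ ((S n).card : ℝ) / (W n + 1) := by
      rw [div_le_div_iff₀ (by positivity) (by positivity)]
      have : (W n : ℝ) + 1 ≤ 2 * W n := by linarith
      have h6 : (W n : ℝ) ≤ 4 * (D * G') * w := by nlinarith [mul_pos (show (0:ℝ) < D by linarith) (show (0:ℝ) < G' by linarith)]
      nlinarith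
    have h7 := Real.add_one_le_exp (-(1 : ℝ) / (8 * D))
    have h8 : (-(1 : ℝ)) / (8 * D) = - (1 / (8 * D)) := by ring
    rw [h8] at h7 ⊢
    linarith
  refine (Finset.prod_le_prod' hone).trans ?_
  rw [Finset.prod_const, ← ENNReal.ofReal_pow (Real.exp_pos _).le, ← Real.exp_nat_mul]
  apply le_of_eq
  congr 2
  ring

end Pool.Agent.TH882.WM
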