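import Pool.Agent.TH882.WM9

/-! Perturbations supported on a thin set of indices. -/

set_option autoImplicit false

namespace Pool.Agent.TH882.WM

open MeasureTheory ProbabilityTheory Filter

/-- base set plus one perturbed power from each of the first i blocks. -/
def SumsC (B : Set ℕ) (k m : ℕ) (blk : ℕ → Finset ℕ) (u : ℕ → ℕ) : ℕ → Set ℕ
  | 0 => B
  | i + 1 => {h | ∃ h0 ∈ SumsC B k m blk u i, ∃ n ∈ blk i, h = h0 + val k m u n}

lemma SumsC_congr {B : Set ℕ} {k m : ℕ} {blk : ℕ → Finset ℕ} {u u' : ℕ → ℕ} :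
    ∀ i, (∀ l, l < i → ∀ n ∈ blk l, u n = u' n) →
      SumsC B k m blk u i = SumsC B k m blk u' i := by
  intro i
  induction i with
  | zero =>
    intro h
    rfl
  | succ i ih =>
    intro h
    have h1 := ih (fun l hl n hn => h l (by omega) n hn)
    ext x
    simp only [SumsC, Set.mem_setOf_eq]
    rw [h1]
    have key : ∀ n ∈ blk i, val k m u n = val k m u' n := by
      intro n hn
      unfold val
      rw [h i (by omega) n hn]
    constructor
    · rintro ⟨h0, hh, n, hn, rfl⟩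
      exact ⟨h0, hh, n, hn, by rw [key n hn]⟩
    · rintro ⟨h0, hh, n, hn, rfl⟩
      exact ⟨h0, hh, n, hn, by rw [key n hn]⟩

lemma stepC {Ω : Type*} [MeasurableSpace Ω] {P : Measure Ω} [IsProbabilityMeasure P]
    {U : ℕ → Ω → ℕ} (hU : iIndepFun U P) (hm : ∀ n, Measurable (U n)) (W : ℕ → ℕ)
    (hW : ∀ n, Unif P (U n) (W n)) {Bs : Set ℕ} {k m : ℕ} {blk : ℕ → Finset ℕ} {i rbi : ℕ}
    (hdis : ∀ l, l < i → Disjoint (blk l) (blk i))
    (hres : ∀ n ∈ blk i, n ^ k ≡ rbi ^ k [MOD m])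
    {D G' Z Z' R ρ : ℕ} (hD : 1 ≤ D) (hG' : 1 ≤ G')
    (hWG : ∀ n ∈ blk i, 2 * (D * G') ≤ W n)
    (hZ : ∀ n ∈ blk i, Z + n ^ k + m * W n ≤ Z') :
    P {ω | Net m (SumsC Bs k m blk (fun n => U n ω) i) (D * G') Z R ρ ∧
        ¬ Net m (SumsC Bs k m blk (fun n => U n ω) (i + 1)) G' Z' R (ρ + rbi ^ k)} ≤
      ENNReal.ofReal ((R + 1) * Real.exp (-((blk i).card : ℝ) / (8 * D))) := by
  classical
  set B : Finset ℕ := blk i with hB
  set F : Finset ℕ := (Finset.range i).biUnion blk with hF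
  have hdisj : Disjoint B F := by
    rw [hF, Finset.disjoint_biUnion_right]
    intro l hl
    exact (hdis l (Finset.mem_range.1 hl)).symm
  -- the single target event
  have hone : ∀ I, Z' ≤ I → I ≤ R → I ≡ ρ + rbi ^ k [MOD m] →
      P {ω | Net m (SumsC Bs k m blk (fun n => U n ω) i) (D * G') Z R ρ ∧
        ∀ n ∈ B, ∀ h ∈ SumsC Bs k m blk (fun n => U n ω) i,
          ∀ e, e < G' → n ^ k + m * U n ω + h ≠ I + m * e} ≤
        ENNReal.ofReal (Real.exp (-(B.card : ℝ) / (8 * D))) := by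
    intro I hI1 hI2 hI3
    set ext : (F → ℕ) → ℕ → ℕ := fun y n => if h : n ∈ F then y ⟨n, h⟩ else 0 with hext
    set X : Ω → (B → ℕ) := fun ω n => U n ω with hX
    set Y : Ω → (F → ℕ) := fun ω n => U n ω with hY
    have hind : IndepFun X Y P := hU.indepFun_finset B F hdisj hm
    have hXm : Measurable X := measurable_pi_lambda _ (fun n => hm n)
    have hYm : Measurable Y := measurable_pi_lambda _ (fun n => hm n)
    set S : (F → ℕ) → Set (B → ℕ) := fun y => {x | ∀ n : B, ∀ h ∈ SumsC Bs k m blk (ext y) i,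
      ∀ e, e < G' → (n : ℕ) ^ k + m * x n + h ≠ I + m * e} with hS
    set G : Set (F → ℕ) := {y | Net m (SumsC Bs k m blk (ext y) i) (D * G') Z R ρ} with hG
    have hcongr : ∀ ω, SumsC Bs k m blk (ext (Y ω)) i =
        SumsC Bs k m blk (fun n => U n ω) i := by
      intro ω
      apply SumsC_congr
      intro l hl n hn
      have : n ∈ F := by
        rw [hF, Finset.mem_biUnion]
        exact ⟨l, Finset.mem_range.2 hl, hn⟩
      simp only [hext, dif_pos this, hY]
    have hb := indep_bound hXm hYm hind S (fun y => (Set.to_countable _).measurableSet) G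
      (ENNReal.ofReal (Real.exp (-(B.card : ℝ) / (8 * D)))) (by
        intro y hy
        have h1 := miss_prob hU hm W B (fun n _ => hW n) (fun n => n ^ k) (D := D) (G' := G')
          (Z := Z) (R := R) (I := I) (m := m) (ρ := ρ) hD hG' hy
          (fun n hn => hWG n hn) hI2
          (fun n hn => hI3.trans ((hres n hn).symm.add_left ρ))
          (fun n hn => (hZ n hn).trans hI1)
        refine le_trans (measure_mono ?_) h1
        intro ω hω n hn h hh
        exact hω ⟨n, hn⟩ h hh)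
    refine le_trans (measure_mono ?_) hb
    intro ω hω
    refine ⟨?_, ?_⟩
    · show Net m (SumsC Bs k m blk (ext (Y ω)) i) (D * G') Z R ρ
      rw [hcongr]
      exact hω.1
    · show ∀ n : B, ∀ h ∈ SumsC Bs k m blk (ext (Y ω)) i, _
      rw [hcongr]
      intro n h hh
      exact hω.2 n n.2 h hh
  have hsub : {ω | Net m (SumsC Bs k m blk (fun n => U n ω) i) (D * G') Z R ρ ∧
        ¬ Net m (SumsC Bs k m blk (fun n => U n ω) (i + 1)) G' Z' R (ρ + rbi ^ k)} ⊆
      ⋃ I ∈ (Finset.Icc Z' R).filter (fun I => I ≡ ρ + rbi ^ k [MOD m]),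
        {ω | Net m (SumsC Bs k m blk (fun n => U n ω) i) (D * G') Z R ρ ∧
        ∀ n ∈ B, ∀ h ∈ SumsC Bs k m blk (fun n => U n ω) i,
          ∀ e, e < G' → n ^ k + m * U n ω + h ≠ I + m * e} := by
    rintro ω ⟨h1, h2⟩
    unfold Net at h2
    push Not at h2
    obtain ⟨I, hI1, hI2, hI3, hI4⟩ := h2
    simp only [Set.mem_iUnion]
    refine ⟨I, Finset.mem_filter.2 ⟨Finset.mem_Icc.2 ⟨hI1, hI2⟩, hI3⟩, h1, ?_⟩
    rintro n hn h hh e he h3
    refine hI4 e he ⟨h, hh, n, hn, ?_⟩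
    simp only [val]
    omega
  refine (measure_mono hsub).trans ((measure_biUnion_finset_le _ _).trans ?_)
  refine (Finset.sum_le_sum (g := fun _ => ENNReal.ofReal (Real.exp (-(B.card : ℝ) / (8 * D)))) ?_).trans ?_
  · intro I hI
    rw [Finset.mem_filter, Finset.mem_Icc] at hI
    exact hone I hI.1.1 hI.1.2 hI.2
  · rw [Finset.sum_const, nsmul_eq_mul, ENNReal.ofReal_mul (by positivity)]
    gcongr
    rw [show ((R : ℝ) + 1) = ((R + 1 : ℕ) : ℝ) by push_cast; ring, ENNReal.ofReal_natCast]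
    norm_cast
    refine (Finset.card_filter_le _ _).trans ?_
    rw [Nat.card_Icc]
    omega

/-- N is an element of B plus a perturbed powers with indices in Q. -/
def RepQ (B Q : Set ℕ) (k m a : ℕ) (u : ℕ → ℕ) (N : ℕ) : Prop :=
  ∃ b ∈ B, ∃ f : Fin a → ℕ, (∀ l, f l ∈ Q ∧ 1 ≤ f l) ∧ N = b + ∑ l, (f l ^ k + m * u (f l))

lemma repQ_of_sums {B Q : Set ℕ} {k m a : ℕ} {blk : ℕ → Finset ℕ} {u : ℕ → ℕ}
    (hQ : ∀ i, i < a → ∀ n ∈ blk i, n ∈ Q ∧ 1 ≤ n) :
    ∀ (i : ℕ), i ≤ a → ∀ {h : ℕ}, h ∈ SumsC B k m blk u i → RepQ B Q k m i u h := by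
  intro i
  induction i with
  | zero =>
    intro _ h hh
    exact ⟨h, hh, Fin.elim0, fun l => l.elim0, by simp⟩
  | succ i ih =>
    rintro hi h ⟨h0, hh, n, hn, rfl⟩
    obtain ⟨b, hb, f, hf, rfl⟩ := ih (by omega) hh
    refine ⟨b, hb, Fin.cons n f, ?_, ?_⟩
    · intro l
      refine Fin.cases ?_ ?_ l
      · simp only [Fin.cons_zero]
        exact hQ i (by omega) n hn
      · intro l
        simp only [Fin.cons_succ]
        exact hf l
    · rw [Fin.sum_univ_succ]
      simp only [Fin.cons_zero, Fin.cons_succ, val]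
      ring

lemma chainC {Ω : Type*} [MeasurableSpace Ω] {P : Measure Ω} [IsProbabilityMeasure P]
    {U : ℕ → Ω → ℕ} (hU : iIndepFun U P) (hm : ∀ n, Measurable (U n)) (W : ℕ → ℕ)
    (hW : ∀ n, Unif P (U n) (W n)) {Bs Q : Set ℕ} {k m a T ρ0 : ℕ} {rb : ℕ → ℕ}
    {blk : ℕ → Finset ℕ} (hdis : ∀ i, i < a → ∀ l, l < i → Disjoint (blk l) (blk i))
    (hres : ∀ i, i < a → ∀ n ∈ blk i, n ^ k ≡ rb i ^ k [MOD m])
    (hcard : ∀ i, i < a → (blk i).card = T)
    (hQ : ∀ i, i < a → ∀ n ∈ blk i, n ∈ Q ∧ 1 ≤ n)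
    {D Z N E : ℕ} (hD : 1 ≤ D)
    (h0 : Net m Bs (D ^ a) Z N ρ0)
    (hWG : ∀ i, i < a → ∀ n ∈ blk i, 2 * D ^ a ≤ W n)
    (hE : ∀ i, i < a → ∀ n ∈ blk i, n ^ k + m * W n ≤ E) (hEN : Z + a * E ≤ N)
    (hN : N ≡ ρ0 + ∑ l ∈ Finset.range a, rb l ^ k [MOD m]) :
    P {ω | ¬ RepQ Bs Q k m a (fun n => U n ω) N} ≤
      ENNReal.ofReal (a * ((N + 1) * Real.exp (-(T : ℝ) / (8 * D)))) := by
  have key : ∀ i, i ≤ a → P {ω |
      ¬ Net m (SumsC Bs k m blk (fun n => U n ω) i) (D ^ (a - i)) (Z + i * E) N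
        (ρ0 + ∑ l ∈ Finset.range i, rb l ^ k)} ≤
      ENNReal.ofReal (i * ((N + 1) * Real.exp (-(T : ℝ) / (8 * D)))) := by
    intro i
    induction i with
    | zero =>
      intro _
      have : {ω : Ω | ¬ Net m (SumsC Bs k m blk (fun n => U n ω) 0) (D ^ (a - 0)) (Z + 0 * E) N
            (ρ0 + ∑ l ∈ Finset.range 0, rb l ^ k)} = ∅ := by
        ext ω
        simp only [Set.mem_setOf_eq, Set.mem_empty_iff_false, iff_false, not_not]
        simpa [SumsC] using h0
      rw [this]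
      simp
    | succ i ih =>
      intro hi
      have ih' := ih (by omega)
      have e1 : D * D ^ (a - (i + 1)) = D ^ (a - i) := by
        rw [← pow_succ']
        congr 1
        omega
      have hst := stepC (Bs := Bs) hU hm W hW (k := k) (m := m) (blk := blk) (i := i) (rbi := rb i)
        (hdis i (by omega)) (hres i (by omega)) (D := D) (G' := D ^ (a - (i + 1))) (Z := Z + i * E)
        (Z' := Z + (i + 1) * E) (R := N) (ρ := ρ0 + ∑ l ∈ Finset.range i, rb l ^ k)
        hD (Nat.one_le_pow _ _ hD) (by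
          intro n hn
          rw [e1]
          have : D ^ (a - i) ≤ D ^ a := Nat.pow_le_pow_right hD (by omega)
          have := hWG i (by omega) n hn
          omega) (by
          intro n hn
          have h1 := hE i (by omega) n hn
          have e1 : (i + 1) * E = i * E + E := by ring
          rw [e1]
          omega)
      rw [e1, hcard i (by omega)] at hst
      have e2 : ρ0 + ∑ l ∈ Finset.range (i + 1), rb l ^ k =
          ρ0 + (∑ l ∈ Finset.range i, rb l ^ k) + rb i ^ k := by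
        rw [Finset.sum_range_succ, add_assoc]
      rw [e2]
      have hsub : {ω | ¬ Net m (SumsC Bs k m blk (fun n => U n ω) (i + 1))
            (D ^ (a - (i + 1))) (Z + (i + 1) * E) N
            (ρ0 + (∑ l ∈ Finset.range i, rb l ^ k) + rb i ^ k)} ⊆
          {ω | ¬ Net m (SumsC Bs k m blk (fun n => U n ω) i)
            (D ^ (a - i)) (Z + i * E) N
            (ρ0 + ∑ l ∈ Finset.range i, rb l ^ k)} ∪
          {ω | Net m (SumsC Bs k m blk (fun n => U n ω) i) (D ^ (a - i)) (Z + i * E) N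
            (ρ0 + ∑ l ∈ Finset.range i, rb l ^ k) ∧
            ¬ Net m (SumsC Bs k m blk (fun n => U n ω) (i + 1))
              (D ^ (a - (i + 1))) (Z + (i + 1) * E) N
            (ρ0 + (∑ l ∈ Finset.range i, rb l ^ k) + rb i ^ k)} := by
        rintro ω h2
        by_cases h3 : Net m (SumsC Bs k m blk (fun n => U n ω) i) (D ^ (a - i)) (Z + i * E) N
            (ρ0 + ∑ l ∈ Finset.range i, rb l ^ k)
        · exact Or.inr ⟨h3, h2⟩
        · exact Or.inl h3
      refine (measure_mono hsub).trans ((measure_union_le _ _).trans ((add_le_add ih' hst).trans ?_))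
      rw [← ENNReal.ofReal_add (by positivity) (by positivity)]
      apply ENNReal.ofReal_le_ofReal
      push_cast
      apply le_of_eq
      ring
  refine le_trans (measure_mono ?_) (key a le_rfl)
  intro ω h2 hnet
  apply h2
  obtain ⟨e, he, hh⟩ := hnet N hEN le_rfl hN
  simp only [Nat.sub_self, pow_zero] at he
  have : e = 0 := by omega
  subst this
  rw [mul_zero, add_zero] at hh
  exact repQ_of_sums hQ a le_rfl hh

/-- growth conditions for the parameters, for all large N. -/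
lemma params2 {k a : ℕ} (hk : 2 ≤ k) (ha : 1 ≤ a) {g θ e C c Z δ c2 : ℝ} (hg0 : 0 ≤ g)
    (he1 : g < a * e) (he2 : a * e < θ / k) (hδ0 : 0 < δ) (hc2 : 0 < c2) (hC : 1 ≤ C) (hc : 1 ≤ c) :
    ∀ᶠ N : ℕ in atTop, 1 ≤ (N : ℝ) ∧ 2 * c ≤ (N : ℝ) ^ (1 / (k : ℝ)) ∧
      2 * (N : ℝ) ^ (a * e) + 1 ≤ (N : ℝ) ^ (θ / k) / (2 * c) ^ θ ∧
      C * (2 * N : ℝ) ^ g < ((N : ℝ) ^ e / 2) ^ a ∧ 2 * Z ≤ N ∧ 1 ≤ (N : ℝ) ^ e ∧
      a * ((N + 1) * Real.exp (-((N : ℝ) ^ δ / c2))) ≤ 1 / (N : ℝ) ^ 2 := by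
  have hkr : (2 : ℝ) ≤ k := by exact_mod_cast hk
  have har : (1 : ℝ) ≤ a := by exact_mod_cast ha
  have hae : 0 < a * e := lt_of_le_of_lt hg0 he1
  have he : 0 < e := by
    by_contra hcon
    push Not at hcon
    nlinarith
  have hθ : 0 < θ := by
    have : 0 < θ / k := hae.trans he2
    by_contra hcon
    push Not at hcon
    have := div_nonpos_of_nonpos_of_nonneg hcon (by linarith : (0:ℝ) ≤ k)
    linarith
  have hc3 : (0 : ℝ) < (2 * c) ^ θ := by positivity
  have E1 : ∀ᶠ N : ℕ in atTop, (1 : ℝ) ≤ N := by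
    filter_upwards [eventually_ge_atTop 1] with N hN
    exact_mod_cast hN
  have E2 : ∀ᶠ N : ℕ in atTop, 2 * c ≤ (N : ℝ) ^ (1 / (k : ℝ)) :=
    ((tendsto_rpow_atTop (by positivity : 0 < 1 / (k : ℝ))).comp
      tendsto_natCast_atTop_atTop).eventually_ge_atTop _
  have E3 : ∀ᶠ N : ℕ in atTop, 3 * (2 * c) ^ θ ≤ (N : ℝ) ^ (θ / k - a * e) :=
    ((tendsto_rpow_atTop (by linarith : 0 < θ / k - a * e)).comp
      tendsto_natCast_atTop_atTop).eventually_ge_atTop _
  have E4 : ∀ᶠ N : ℕ in atTop, C * 2 ^ g * 2 ^ a + 1 ≤ (N : ℝ) ^ (a * e - g) :=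
    ((tendsto_rpow_atTop (by linarith : 0 < a * e - g)).comp
      tendsto_natCast_atTop_atTop).eventually_ge_atTop _
  have E5 : ∀ᶠ N : ℕ in atTop, 2 * Z ≤ N :=
    tendsto_natCast_atTop_atTop.eventually_ge_atTop _
  have E7 : ∀ᶠ N : ℕ in atTop, (((N : ℝ) ^ δ) ^ (4 / δ) * Real.exp (-(1 / c2) * (N : ℝ) ^ δ)) ≤
      1 / (2 * a) := by
    have h1 := (tendsto_rpow_mul_exp_neg_mul_atTop_nhds_zero (4 / δ) (1 / c2) (by positivity))
    have h2 := h1.comp ((tendsto_rpow_atTop hδ0).comp tendsto_natCast_atTop_atTop)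
    exact (h2.eventually_le_const (by positivity : (0 : ℝ) < 1 / (2 * a)))
  filter_upwards [E1, E2, E3, E4, E5, E7] with N h1 h2 h3 h4 h5 h7
  have hN0 : (0 : ℝ) < N := by linarith
  have h6 : 1 ≤ (N : ℝ) ^ e := Real.one_le_rpow h1 he.le
  refine ⟨h1, h2, ?_, ?_, h5, h6, ?_⟩
  · rw [le_div_iff₀ hc3]
    have e1 : (N : ℝ) ^ (θ / k) = (N : ℝ) ^ (a * e) * (N : ℝ) ^ (θ / k - a * e) := by
      rw [← Real.rpow_add hN0]
      congr 1
      ring
    have h8 : 1 ≤ (N : ℝ) ^ (a * e) := Real.one_le_rpow h1 hae.le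
    rw [e1]
    calc (2 * (N : ℝ) ^ (a * e) + 1) * (2 * c) ^ θ ≤ (3 * (N : ℝ) ^ (a * e)) * (2 * c) ^ θ := by
          apply mul_le_mul_of_nonneg_right _ hc3.le
          linarith
      _ = (N : ℝ) ^ (a * e) * (3 * (2 * c) ^ θ) := by ring
      _ ≤ _ := mul_le_mul_of_nonneg_left h3 (by positivity)
  · have e1 : ((N : ℝ) ^ e / 2) ^ a = (N : ℝ) ^ (a * e) / 2 ^ a := by
      rw [div_pow, ← Real.rpow_natCast ((N : ℝ) ^ e), ← Real.rpow_mul hN0.le]
      congr 2
      ring
    have e2 : (N : ℝ) ^ (a * e) = (N : ℝ) ^ g * (N : ℝ) ^ (a * e - g) := by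
      rw [← Real.rpow_add hN0]
      congr 1
      ring
    rw [e1, lt_div_iff₀ (by positivity), Real.mul_rpow (by norm_num) hN0.le, e2]
    have hNg : 0 < (N : ℝ) ^ g := by positivity
    calc C * (2 ^ g * (N : ℝ) ^ g) * 2 ^ a = (N : ℝ) ^ g * (C * 2 ^ g * 2 ^ a) := by ring
      _ < (N : ℝ) ^ g * (N : ℝ) ^ (a * e - g) := by
          apply mul_lt_mul_of_pos_left _ hNg
          linarith
  · have e1 : ((N : ℝ) ^ δ) ^ (4 / δ) = (N : ℝ) ^ 4 := by
      rw [← Real.rpow_mul hN0.le, mul_div_cancel₀ _ hδ0.ne']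
      norm_cast
    rw [e1] at h7
    have e2 : -(1 / c2) * (N : ℝ) ^ δ = -((N : ℝ) ^ δ / c2) := by ring
    rw [e2] at h7
    set X := Real.exp (-((N : ℝ) ^ δ / c2)) with hX
    have hX0 : 0 ≤ X := (Real.exp_pos _).le
    rw [le_div_iff₀ (by positivity)] at h7 ⊢
    have h8 : (N : ℝ) ^ 4 * X * (2 * a) ≤ 1 := h7
    have h9 : (N : ℝ) ^ 2 * (N + 1) ≤ (N : ℝ) ^ 4 * 2 := by
      have : (N : ℝ) + 1 ≤ 2 * N ^ 2 := by nlinarith
      calc (N : ℝ) ^ 2 * (N + 1) ≤ (N : ℝ) ^ 2 * (2 * N ^ 2) := by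
            apply mul_le_mul_of_nonneg_left this (by positivity)
        _ = (N : ℝ) ^ 4 * 2 := by ring
    calc a * ((N + 1) * X) * (N : ℝ) ^ 2 = ((N : ℝ) ^ 2 * (N + 1)) * (X * a) := by ring
      _ ≤ ((N : ℝ) ^ 4 * 2) * (X * a) := by
          apply mul_le_mul_of_nonneg_right h9 (by positivity)
      _ = (N : ℝ) ^ 4 * X * (2 * a) := by ring
      _ ≤ 1 := h8

/-- Q has at least κ X^η elements of each class mod m in (X, 2 X], for large X. -/
def Rich (m : ℕ) (η : ℝ) (Q : Set ℕ) : Prop :=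
  ∃ κ : ℝ, 0 < κ ∧ ∀ᶠ X : ℕ in atTop, ∀ r, r < m → ∃ A : Finset ℕ,
    (∀ n ∈ A, n ∈ Q ∧ X < n ∧ n ≤ 2 * X ∧ n ≡ r [MOD m]) ∧ κ * (X : ℝ) ^ η ≤ A.card

/-- disjoint blocks of T elements in given classes. -/
lemma blocks {m a T X : ℕ} {Q : Set ℕ} (rb : ℕ → ℕ) (hrb : ∀ l, rb l < m)
    (hA : ∀ r, r < m → ∃ A : Finset ℕ, (∀ n ∈ A, n ∈ Q ∧ X < n ∧ n ≤ 2 * X ∧ n ≡ r [MOD m]) ∧
      a * T ≤ A.card) :
    ∃ blk : ℕ → Finset ℕ, (∀ i, i < a → ∀ l, l < i → Disjoint (blk l) (blk i)) ∧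
      (∀ i, i < a → (blk i).card = T) ∧
      (∀ i, i < a → ∀ n ∈ blk i, n ∈ Q ∧ X < n ∧ n ≤ 2 * X ∧ n ≡ rb i [MOD m]) := by
  classical
  have h1 : ∀ r, ∃ f : ℕ → ℕ, r < m → (Set.InjOn f (Set.Iio (a * T)) ∧
      ∀ x, x < a * T → (f x ∈ Q ∧ X < f x ∧ f x ≤ 2 * X ∧ f x ≡ r [MOD m])) := by
    intro r
    by_cases hr : r < m
    · obtain ⟨A, hA1, hA2⟩ := hA r hr
      obtain ⟨A', hA'1, hA'2⟩ := Finset.exists_subset_card_eq hA2
      set g := A'.orderEmbOfFin hA'2 with hg
      refine ⟨fun x => if h : x < a * T then g ⟨x, h⟩ else 0, fun _ => ⟨?_, ?_⟩⟩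
      · intro x hx y hy hxy
        rw [Set.mem_Iio] at hx hy
        simp only [dif_pos hx, dif_pos hy] at hxy
        have := g.injective hxy
        simpa using this
      · intro x hx
        simp only [dif_pos hx]
        exact hA1 _ (hA'1 (Finset.orderEmbOfFin_mem A' hA'2 _))
    · exact ⟨fun _ => 0, fun h => absurd h hr⟩
  choose f hf using h1
  have hlt : ∀ i t, i < a → t < T → i * T + t < a * T := by
    intro i t hi ht
    calc i * T + t < i * T + T := by omega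
      _ = (i + 1) * T := by ring
      _ ≤ a * T := Nat.mul_le_mul_right _ hi
  refine ⟨fun i => (Finset.range T).image (fun t => f (rb i) (i * T + t)), ?_, ?_, ?_⟩
  · intro i hi l hl
    rw [Finset.disjoint_left]
    intro n hn hn'
    rw [Finset.mem_image] at hn hn'
    obtain ⟨t, ht, rfl⟩ := hn
    obtain ⟨t', ht', he⟩ := hn'
    rw [Finset.mem_range] at ht ht'
    have h2 := (hf (rb l) (hrb l)).2 _ (hlt l t (by omega) ht)
    have h3 := (hf (rb i) (hrb i)).2 _ (hlt i t' hi ht')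
    rw [he] at h3
    have h4 : rb i = rb l := by
      have h5 := h3.2.2.2.symm.trans h2.2.2.2
      unfold Nat.ModEq at h5
      rwa [Nat.mod_eq_of_lt (hrb i), Nat.mod_eq_of_lt (hrb l)] at h5
    rw [h4] at he
    have h6 := (hf (rb l) (hrb l)).1 (Set.mem_Iio.2 (hlt i t' hi ht')) (Set.mem_Iio.2 (hlt l t (by omega) ht)) he
    have h7 : (l + 1) * T ≤ i * T := Nat.mul_le_mul_right _ hl
    have h8 : (l + 1) * T = l * T + T := by ring
    omega
  · intro i hi
    rw [Finset.card_image_of_injOn, Finset.card_range]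
    intro t ht t' ht' he
    rw [Finset.mem_coe, Finset.mem_range] at ht ht'
    have h6 := (hf (rb i) (hrb i)).1 (Set.mem_Iio.2 (hlt i t hi ht)) (Set.mem_Iio.2 (hlt i t' hi ht')) he
    omega
  · intro i hi n hn
    rw [Finset.mem_image] at hn
    obtain ⟨t, ht, rfl⟩ := hn
    rw [Finset.mem_range] at ht
    exact (hf (rb i) (hrb i)).2 _ (hlt i t hi ht)

/-- base sets with gaps of order x^g in the class of ρ0, plus a perturbed powers with indices
in a thin set Q. -/
theorem mainC {Ω : Type*} [MeasurableSpace Ω] {P : Measure Ω} [IsProbabilityMeasure P]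
    {U : ℕ → Ω → ℕ} (hU : iIndepFun U P) (hm : ∀ n, Measurable (U n)) {k m : ℕ} (hk : 2 ≤ k)
    (hm1 : 1 ≤ m)
    {θ : ℝ} (hθ : θ ≤ k - 1) {a : ℕ} {g η : ℝ} (hg0 : 0 < g) (hg1 : g ≤ 1) (h1 : (k : ℝ) * g < θ)
    (hη : 0 < η) (h2 : (k : ℝ) * g < η * a) (hW : ∀ n, Unif P (U n) ⌊(n : ℝ) ^ θ⌋₊)
    {Bs Q : Set ℕ} {ρ0 Z : ℕ} {C : ℝ} (hQ : Rich m η Q) (hC : 1 ≤ C)
    (hB : ∀ R, Z ≤ R → ∃ S ∈ Bs, S ≤ R ∧ S ≡ ρ0 [MOD m] ∧ (R : ℝ) - S ≤ C * (R : ℝ) ^ g)
    (rb : ℕ → ℕ) (hrb : ∀ l, rb l < m) :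
    ∀ᵐ ω ∂P, ∀ᶠ N in atTop, N ≡ ρ0 + ∑ l ∈ Finset.range a, rb l ^ k [MOD m] →
      RepQ Bs Q k m a (fun n => U n ω) N := by
  have hkr : (2 : ℝ) ≤ k := by exact_mod_cast hk
  have hk0 : (0 : ℝ) < k := by linarith
  have hmr : (1 : ℝ) ≤ m := by exact_mod_cast hm1
  have har : (0 : ℝ) < a := by
    by_contra hcon
    push Not at hcon
    have : η * a ≤ 0 := mul_nonpos_of_nonneg_of_nonpos hη.le hcon
    have : 0 < (k : ℝ) * g := by positivity
    linarith
  have ha : 1 ≤ a := by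
    have : 0 < a := by exact_mod_cast har
    exact this
  have hθ0 : 0 < θ := lt_trans (by positivity) h1
  -- choose the exponent e
  obtain ⟨e, he1, he2⟩ : ∃ e, g / a < e ∧ e < min (θ / (a * k)) (η / k) := by
    apply exists_between
    apply lt_min
    · rw [div_lt_div_iff₀ har (by positivity)]
      nlinarith
    · rw [div_lt_div_iff₀ har hk0]
      linarith
  have he3 : e < θ / (a * k) := he2.trans_le (min_le_left _ _)
  have he4 : e < η / k := he2.trans_le (min_le_right _ _)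
  have he5 : g < a * e := by
    rw [div_lt_iff₀ har] at he1
    linarith
  have he6 : a * e < θ / k := by
    rw [lt_div_iff₀ (by positivity)] at he3
    rw [lt_div_iff₀ hk0]
    linarith
  have he0 : 0 < e := lt_trans (by positivity) he1
  obtain ⟨κ, hκ, hQ⟩ := hQ
  obtain ⟨X₀, hX₀⟩ := eventually_atTop.1 hQ
  set c : ℝ := 4 * a * (1 + m) with hc
  have har1 : (1 : ℝ) ≤ a := by exact_mod_cast ha
  have hc1 : 1 ≤ c := by
    rw [hc]
    have e1 : (1 : ℝ) ≤ 4 * a := by linarith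
    nlinarith
  have hc0 : 0 < c := by linarith
  set W : ℕ → ℕ := fun n => ⌊(n : ℝ) ^ θ⌋₊ with hWdef
  have hWle : ∀ n, W n ≤ n ^ (k - 1) := by
    intro n
    rcases Nat.eq_zero_or_pos n with rfl | hn
    · simp only [hWdef, Nat.cast_zero]
      rw [Real.zero_rpow hθ0.ne']
      simp
    · apply Nat.floor_le_of_le
      have hn1 : (1 : ℝ) ≤ n := by exact_mod_cast hn
      calc (n : ℝ) ^ θ ≤ (n : ℝ) ^ ((k - 1 : ℕ) : ℝ) := by
            apply Real.rpow_le_rpow_of_exponent_le hn1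
            rw [Nat.cast_sub (by omega)]
            simpa using hθ
        _ = ((n ^ (k - 1) : ℕ) : ℝ) := by
            rw [Real.rpow_natCast]
            push_cast
            rfl
  have hC' : 1 ≤ C * (1 + m) := by nlinarith
  -- the constant of the number of elements of a block
  set b2 : ℝ := 2 * a * (2 * c) ^ η / κ with hb2
  have hb2p : 0 < b2 := by rw [hb2]; positivity
  have hpar := params2 (k := k) (a := a) hk ha (g := g) (θ := θ) (e := e) (C := C * (1 + m)) (c := c)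
    (Z := (Z : ℝ)) (δ := η / k - e) (c2 := 8 * b2) hg0.le he5 he6 (by linarith) (by positivity) hC' hc1
  have hlarge : ∀ᶠ N : ℕ in atTop, (X₀ + 1 : ℝ) * c ≤ (N : ℝ) ^ (1 / (k : ℝ)) ∧
      b2 ≤ (N : ℝ) ^ (η / (k : ℝ)) :=
    (((tendsto_rpow_atTop (by positivity : 0 < 1 / (k : ℝ))).comp
      tendsto_natCast_atTop_atTop).eventually_ge_atTop _).and
    (((tendsto_rpow_atTop (by positivity : 0 < η / (k : ℝ))).comp
      tendsto_natCast_atTop_atTop).eventually_ge_atTop _)
  obtain ⟨N₀, hN₀⟩ := eventually_atTop.1 (hpar.and hlarge)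
  -- the bound for one N
  have hone : ∀ N, N₀ ≤ N → N ≡ ρ0 + ∑ l ∈ Finset.range a, rb l ^ k [MOD m] →
      P {ω | ¬ RepQ Bs Q k m a (fun n => U n ω) N} ≤
      ENNReal.ofReal (1 / (N : ℝ) ^ 2) := by
    intro N hN hNres
    obtain ⟨⟨p1, p2, p3, p4, p5, p6, p7⟩, p8, p9⟩ := hN₀ N hN
    set x : ℝ := (N : ℝ) ^ (1 / (k : ℝ)) with hx
    set X : ℕ := ⌊x / c⌋₊ with hX
    set D : ℕ := ⌊(N : ℝ) ^ e⌋₊ with hD
    have hN0 : (0 : ℝ) < N := by linarith
    have hx0 : 0 < x := by positivity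
    have hD1 : 1 ≤ D := by
      rw [hD]
      exact Nat.le_floor (by simpa using p6)
    have hDle : (D : ℝ) ≤ (N : ℝ) ^ e := Nat.floor_le (by positivity)
    have hDge : (N : ℝ) ^ e / 2 ≤ D := by
      have := Nat.lt_floor_add_one ((N : ℝ) ^ e)
      rw [← hD] at this
      have h3 : (1 : ℝ) ≤ D := by exact_mod_cast hD1
      linarith
    have hXle : (X : ℝ) ≤ x / c := Nat.floor_le (by positivity)
    have hXge : x / (2 * c) ≤ X := by
      have h3 := Nat.lt_floor_add_one (x / c)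
      rw [← hX] at h3
      have h4 : 2 ≤ x / c := by rw [le_div_iff₀ hc0]; linarith
      have h5 : x / (2 * c) = (x / c) / 2 := by field_simp
      rw [h5]
      linarith
    have hXX₀ : X₀ ≤ X := by
      rw [hX]
      apply Nat.le_floor
      rw [le_div_iff₀ hc0]
      nlinarith
    have hDa : (D : ℝ) ^ a ≤ (N : ℝ) ^ (a * e) := by
      calc (D : ℝ) ^ a ≤ ((N : ℝ) ^ e) ^ a := pow_le_pow_left₀ (by positivity) hDle a
        _ = (N : ℝ) ^ (a * e) := by
            rw [← Real.rpow_natCast ((N : ℝ) ^ e), ← Real.rpow_mul hN0.le]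
            congr 1
            ring
    -- the number of elements of a block
    set T : ℕ := ⌊κ * (X : ℝ) ^ η / a⌋₊ with hT
    have hTle : (a * T : ℝ) ≤ κ * (X : ℝ) ^ η := by
      have h3 : (T : ℝ) ≤ κ * (X : ℝ) ^ η / a := Nat.floor_le (by positivity)
      rw [le_div_iff₀ har] at h3
      linarith
    have hXη : (N : ℝ) ^ (η / k) / (2 * c) ^ η ≤ (X : ℝ) ^ η := by
      have h6 : (x / (2 * c)) ^ η ≤ (X : ℝ) ^ η := Real.rpow_le_rpow (by positivity) hXge hη.le
      rw [Real.div_rpow hx0.le (by positivity), hx, ← Real.rpow_mul hN0.le] at h6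
      have e1 : 1 / (k : ℝ) * η = η / k := by ring
      rw [e1] at h6
      exact h6
    have hTge : (N : ℝ) ^ (η / k) / b2 ≤ T := by
      have h3 := Nat.lt_floor_add_one (κ * (X : ℝ) ^ η / a)
      rw [← hT] at h3
      have h4 : κ * ((N : ℝ) ^ (η / k) / (2 * c) ^ η) / a ≤ κ * (X : ℝ) ^ η / a := by gcongr
      have h5 : κ * ((N : ℝ) ^ (η / k) / (2 * c) ^ η) / a = 2 * ((N : ℝ) ^ (η / k) / b2) := by
        rw [hb2]
        field_simp
      have h6 : 1 ≤ (N : ℝ) ^ (η / k) / b2 := by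
        rw [le_div_iff₀ hb2p, one_mul]
        exact p9
      linarith
    obtain ⟨blk, hb1, hb2', hb3⟩ := blocks (m := m) (a := a) (T := T) (X := X) (Q := Q) rb hrb (by
      intro r hr
      obtain ⟨A, hA1, hA2⟩ := hX₀ X hXX₀ r hr
      refine ⟨A, hA1, ?_⟩
      have : ((a * T : ℕ) : ℝ) ≤ A.card := by
        push_cast
        linarith
      exact_mod_cast this)
    set E : ℕ := (1 + m) * (2 * X) ^ k with hE
    -- E is small compared with N
    have hEN : (E : ℝ) * (2 * a) ≤ N := by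
      have h3 : (2 * X : ℝ) ≤ x / (2 * a * (1 + m)) := by
        calc (2 * X : ℝ) ≤ 2 * (x / c) := by gcongr
          _ = x / (2 * a * (1 + m)) := by rw [hc]; field_simp; ring
      have h4 : ((2 * X : ℝ)) ^ k ≤ N / (2 * a * (1 + m)) := by
        calc ((2 * X : ℝ)) ^ k ≤ (x / (2 * a * (1 + m))) ^ k :=
              pow_le_pow_left₀ (by positivity) h3 k
          _ = x ^ k / (2 * a * (1 + m)) ^ k := div_pow _ _ _
          _ = N / (2 * a * (1 + m)) ^ k := by
              rw [hx, ← Real.rpow_natCast, ← Real.rpow_mul hN0.le, one_div, inv_mul_cancel₀ hk0.ne',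
                Real.rpow_one]
          _ ≤ N / (2 * a * (1 + m)) := by
              apply div_le_div_of_nonneg_left hN0.le (by positivity)
              refine le_self_pow₀ ?_ (by omega)
              nlinarith
      rw [hE]
      push_cast
      calc (1 + (m : ℝ)) * (2 * (X : ℝ)) ^ k * (2 * a)
            ≤ (1 + m) * (N / (2 * a * (1 + m))) * (2 * a) := by gcongr
        _ = N := by field_simp
    have hEN' : Z + a * E ≤ N := by
      have h3 : (Z : ℝ) + a * E ≤ N := by nlinarith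
      exact_mod_cast h3
    have hch := chainC hU hm W hW (Bs := Bs) (Q := Q) (k := k) (m := m) (a := a) (ρ0 := ρ0)
      (T := T) (rb := rb) (blk := blk) hb1
      (fun i hi n hn => (hb3 i hi n hn).2.2.2.pow k) hb2'
      (fun i hi n hn => ⟨(hb3 i hi n hn).1, by have := (hb3 i hi n hn).2.1; omega⟩)
      (D := D) (Z := Z) (N := N) (E := E)
      hD1 (by
        intro z hz1 hz2 hzρ
        have hDa1 : 1 ≤ D ^ a := Nat.one_le_pow _ _ hD1
        have hmDa : 1 ≤ m * D ^ a := Nat.mul_pos hm1 hDa1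
        obtain ⟨S, hSB, hf2, hSρ, hf3⟩ := hB (z + m * D ^ a - 1) (by omega)
        -- the remainder is smaller than D^a
        have hzS : z ≤ S := by
          have h3 : ((z + m * D ^ a - 1 : ℕ) : ℝ) ≤ (1 + m) * (2 * N) := by
            have h4 : ((z + m * D ^ a - 1 : ℕ) : ℝ) ≤ (z : ℝ) + m * (D : ℝ) ^ a := by
              have : z + m * D ^ a - 1 ≤ z + m * D ^ a := Nat.sub_le _ _
              exact_mod_cast this
            have h5 : (D : ℝ) ^ a ≤ N := by
              calc (D : ℝ) ^ a ≤ (N : ℝ) ^ (a * e) := hDa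
                _ ≤ (N : ℝ) ^ (1 : ℝ) := by
                    apply Real.rpow_le_rpow_of_exponent_le p1
                    have h6 : θ / k ≤ 1 := by
                      rw [div_le_one hk0]
                      linarith
                    linarith
                _ = N := Real.rpow_one _
            have h6 : (z : ℝ) ≤ N := by exact_mod_cast hz2
            nlinarith
          have h4 : ((z + m * D ^ a - 1 : ℕ) : ℝ) ^ g ≤ (1 + m) * (2 * N : ℝ) ^ g := by
            calc ((z + m * D ^ a - 1 : ℕ) : ℝ) ^ g ≤ ((1 + m) * (2 * N)) ^ g :=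
                  Real.rpow_le_rpow (by positivity) h3 hg0.le
              _ = (1 + m : ℝ) ^ g * (2 * N : ℝ) ^ g := Real.mul_rpow (by positivity) (by positivity)
              _ ≤ (1 + m : ℝ) ^ (1 : ℝ) * (2 * N : ℝ) ^ g := by
                  apply mul_le_mul_of_nonneg_right _ (by positivity)
                  exact Real.rpow_le_rpow_of_exponent_le (by linarith) hg1
              _ = _ := by rw [Real.rpow_one]
          have h5 : ((N : ℝ) ^ e / 2) ^ a ≤ (D : ℝ) ^ a := pow_le_pow_left₀ (by positivity) hDge a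
          have h6 : ((z + m * D ^ a - 1 : ℕ) : ℝ) - S < (D : ℝ) ^ a := by
            calc ((z + m * D ^ a - 1 : ℕ) : ℝ) - S ≤ C * ((z + m * D ^ a - 1 : ℕ) : ℝ) ^ g := hf3
              _ ≤ C * ((1 + m) * (2 * N : ℝ) ^ g) := mul_le_mul_of_nonneg_left h4 (by linarith)
              _ = C * (1 + m) * (2 * N : ℝ) ^ g := by ring
              _ < ((N : ℝ) ^ e / 2) ^ a := p4
              _ ≤ (D : ℝ) ^ a := h5
          have h7 : z + m * D ^ a - 1 < S + D ^ a := by
            have : ((z + m * D ^ a - 1 : ℕ) : ℝ) < ((S + D ^ a : ℕ) : ℝ) := by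
              push_cast
              push_cast at h6
              linarith
            exact_mod_cast this
          have h8 : D ^ a ≤ m * D ^ a := Nat.le_mul_of_pos_left _ hm1
          omega
        obtain ⟨w, hw⟩ := (Nat.modEq_iff_dvd' hzS).1 (hzρ.trans hSρ.symm)
        have hSw : S = z + m * w := by omega
        refine ⟨w, ?_, ?_⟩
        · have h3 : m * w < m * D ^ a := by omega
          exact Nat.lt_of_mul_lt_mul_left h3
        · rw [← hSw]
          exact hSB) (by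
        intro i hi n hn
        rw [hWdef]
        apply Nat.le_floor
        have h3 : (X : ℝ) ≤ n := by exact_mod_cast (hb3 i hi n hn).2.1.le
        have h4 : x / (2 * c) ≤ (n : ℝ) := hXge.trans h3
        have h5 : (N : ℝ) ^ (θ / k) / (2 * c) ^ θ ≤ (n : ℝ) ^ θ := by
          have h6 : (x / (2 * c)) ^ θ ≤ (n : ℝ) ^ θ := Real.rpow_le_rpow (by positivity) h4 hθ0.le
          rw [Real.div_rpow hx0.le (by positivity), hx, ← Real.rpow_mul hN0.le] at h6
          have e1 : 1 / (k : ℝ) * θ = θ / k := by ring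
          rw [e1] at h6
          exact h6
        push_cast
        linarith) (by
        intro i hi n hn
        have h2n : n ≤ 2 * X := (hb3 i hi n hn).2.2.1
        have h3 : n ^ k ≤ (2 * X) ^ k := Nat.pow_le_pow_left h2n _
        have h4 : W n ≤ (2 * X) ^ k := by
          refine (hWle n).trans ?_
          rcases Nat.eq_zero_or_pos n with rfl | hn0
          · rw [zero_pow (by omega)]
            exact Nat.zero_le _
          · calc n ^ (k - 1) ≤ n ^ k := Nat.pow_le_pow_right hn0 (by omega)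
              _ ≤ _ := h3
        have h5 : m * W n ≤ m * (2 * X) ^ k := Nat.mul_le_mul_left _ h4
        have e1 : (1 + m) * (2 * X) ^ k = (2 * X) ^ k + m * (2 * X) ^ k := by ring
        rw [hE, e1]
        omega) hEN' hNres
    refine hch.trans (ENNReal.ofReal_le_ofReal ?_)
    refine le_trans ?_ p7
    apply mul_le_mul_of_nonneg_left _ (by positivity)
    apply mul_le_mul_of_nonneg_left _ (by positivity)
    apply Real.exp_le_exp.2
    have h3 : (N : ℝ) ^ (η / (k : ℝ) - e) = (N : ℝ) ^ (η / (k : ℝ)) / (N : ℝ) ^ e := by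
      rw [Real.rpow_sub hN0]
    have hDr : (1 : ℝ) ≤ D := by exact_mod_cast hD1
    rw [h3, neg_div, neg_le_neg_iff, div_div]
    rw [div_le_div_iff₀ (by positivity) (by positivity)]
    have h4 : (N : ℝ) ^ (η / (k : ℝ)) ≤ b2 * T := by
      rw [div_le_iff₀ hb2p] at hTge
      linarith
    calc (N : ℝ) ^ (η / (k : ℝ)) * (8 * (D : ℝ)) ≤ (b2 * T) * (8 * (N : ℝ) ^ e) := by gcongr
      _ = T * ((N : ℝ) ^ e * (8 * b2)) := by ring
  -- Borel–Cantelli
  classical
  set s : ℕ → Set Ω := fun N => if N₀ ≤ N ∧ N ≡ ρ0 + ∑ l ∈ Finset.range a, rb l ^ k [MOD m] then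
    {ω | ¬ RepQ Bs Q k m a (fun n => U n ω) N} else ∅ with hs
  have hsum : ∑' N, P (s N) ≠ ⊤ := by
    have h3 : ∀ N, P (s N) ≤ ENNReal.ofReal (1 / (N : ℝ) ^ 2) := by
      intro N
      simp only [hs]
      split_ifs with h
      · exact hone N h.1 h.2
      · simp
    refine ne_top_of_le_ne_top ?_ (ENNReal.tsum_le_tsum h3)
    have h4 : Summable (fun N : ℕ => 1 / (N : ℝ) ^ 2) := Real.summable_one_div_nat_pow.2 (by norm_num)
    rw [← ENNReal.ofReal_tsum_of_nonneg (fun n => by positivity) h4]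
    exact ENNReal.ofReal_ne_top
  filter_upwards [ae_eventually_notMem hsum] with ω h3
  filter_upwards [h3, eventually_ge_atTop N₀] with N h5 h6 h7
  simp only [hs, if_pos (And.intro h6 h7), Set.mem_setOf_eq, not_not] at h5
  exact h5

end Pool.Agent.TH882.WM
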