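import Pool.Agent.TH882.WM7
import Pool.Agent.TH882.WM11

/-! Perturbations which are small at all places. -/

set_option autoImplicit false

namespace Pool.Agent.TH882.WM

open MeasureTheory ProbabilityTheory Filter

/-- the bound for one N, with the position of the blocks. -/
theorem oneN {Ω : Type*} [MeasurableSpace Ω] {P : Measure Ω} [IsProbabilityMeasure P]
    {U : ℕ → Ω → ℕ} (hU : iIndepFun U P) (hm : ∀ n, Measurable (U n)) {k m : ℕ} (hk : 2 ≤ k)
    (hm1 : 1 ≤ m)
    {θ : ℝ} (hθ : θ ≤ k - 1) {a : ℕ} {g η : ℝ} (hg0 : 0 < g) (hg1 : g ≤ 1) (h1 : (k : ℝ) * g < θ)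
    (hη : 0 < η) (h2 : (k : ℝ) * g < η * a) (hW : ∀ n, Unif P (U n) ⌊(n : ℝ) ^ θ⌋₊)
    {Bs Q : Set ℕ} {ρ0 Z : ℕ} {C : ℝ} (hQ : Rich m η Q) (hC : 1 ≤ C)
    (hB : ∀ R, Z ≤ R → ∃ S ∈ Bs, S ≤ R ∧ S ≡ ρ0 [MOD m] ∧ (R : ℝ) - S ≤ C * (R : ℝ) ^ g)
    (rb : ℕ → ℕ) (hrb : ∀ l, rb l < m) (c : ℝ) (hcbig : 4 * a * (1 + m) ≤ c) :
    ∃ N₀ : ℕ, ∀ N, N₀ ≤ N → N ≡ ρ0 + ∑ l ∈ Finset.range a, rb l ^ k [MOD m] →
      P {ω | ¬ RepQ Bs {n | n ∈ Q ∧ ⌊(N : ℝ) ^ (1 / (k : ℝ)) / c⌋₊ < n ∧
        n ≤ 2 * ⌊(N : ℝ) ^ (1 / (k : ℝ)) / c⌋₊} k m a (fun n => U n ω) N} ≤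
      ENNReal.ofReal (1 / (N : ℝ) ^ 2) := by
  have hkr : (2 : ℝ) ≤ k := by exact_mod_cast hk
  have hk0 : (0 : ℝ) < k := by linarith
  have hmr : (1 : ℝ) ≤ m := by exact_mod_cast hm1
  have har : (0 : ℝ) < a := by
    by_contra hcon
    push Not at hcon
    have : η * a ≤ 0 := mul_nonpos_of_nonneg_of_nonpos hη.le hcon
    have : 0 < (k : ℝ) * g := by positivity
    linarith
  have ha : 1 ≤ a := by
    have : 0 < a := by exact_mod_cast har
    exact this
  have hθ0 : 0 < θ := lt_trans (by positivity) h1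
  -- choose the exponent e
  obtain ⟨e, he1, he2⟩ : ∃ e, g / a < e ∧ e < min (θ / (a * k)) (η / k) := by
    apply exists_between
    apply lt_min
    · rw [div_lt_div_iff₀ har (by positivity)]
      nlinarith
    · rw [div_lt_div_iff₀ har hk0]
      linarith
  have he3 : e < θ / (a * k) := he2.trans_le (min_le_left _ _)
  have he4 : e < η / k := he2.trans_le (min_le_right _ _)
  have he5 : g < a * e := by
    rw [div_lt_iff₀ har] at he1
    linarith
  have he6 : a * e < θ / k := by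
    rw [lt_div_iff₀ (by positivity)] at he3
    rw [lt_div_iff₀ hk0]
    linarith
  have he0 : 0 < e := lt_trans (by positivity) he1
  obtain ⟨κ, hκ, hQ⟩ := hQ
  obtain ⟨X₀, hX₀⟩ := eventually_atTop.1 hQ
  have har1 : (1 : ℝ) ≤ a := by exact_mod_cast ha
  have hc1 : 1 ≤ c := by
    refine le_trans ?_ hcbig
    have e1 : (1 : ℝ) ≤ 4 * a := by linarith
    nlinarith
  have hc0 : 0 < c := by linarith
  set W : ℕ → ℕ := fun n => ⌊(n : ℝ) ^ θ⌋₊ with hWdef
  have hWle : ∀ n, W n ≤ n ^ (k - 1) := by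
    intro n
    rcases Nat.eq_zero_or_pos n with rfl | hn
    · simp only [hWdef, Nat.cast_zero]
      rw [Real.zero_rpow hθ0.ne']
      simp
    · apply Nat.floor_le_of_le
      have hn1 : (1 : ℝ) ≤ n := by exact_mod_cast hn
      calc (n : ℝ) ^ θ ≤ (n : ℝ) ^ ((k - 1 : ℕ) : ℝ) := by
            apply Real.rpow_le_rpow_of_exponent_le hn1
            rw [Nat.cast_sub (by omega)]
            simpa using hθ
        _ = ((n ^ (k - 1) : ℕ) : ℝ) := by
            rw [Real.rpow_natCast]
            push_cast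
            rfl
  have hC' : 1 ≤ C * (1 + m) := by nlinarith
  -- the constant of the number of elements of a block
  set b2 : ℝ := 2 * a * (2 * c) ^ η / κ with hb2
  have hb2p : 0 < b2 := by rw [hb2]; positivity
  have hpar := params2 (k := k) (a := a) hk ha (g := g) (θ := θ) (e := e) (C := C * (1 + m)) (c := c)
    (Z := (Z : ℝ)) (δ := η / k - e) (c2 := 8 * b2) hg0.le he5 he6 (by linarith) (by positivity) hC' hc1
  have hlarge : ∀ᶠ N : ℕ in atTop, (X₀ + 1 : ℝ) * c ≤ (N : ℝ) ^ (1 / (k : ℝ)) ∧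
      b2 ≤ (N : ℝ) ^ (η / (k : ℝ)) :=
    (((tendsto_rpow_atTop (by positivity : 0 < 1 / (k : ℝ))).comp
      tendsto_natCast_atTop_atTop).eventually_ge_atTop _).and
    (((tendsto_rpow_atTop (by positivity : 0 < η / (k : ℝ))).comp
      tendsto_natCast_atTop_atTop).eventually_ge_atTop _)
  obtain ⟨N₀, hN₀⟩ := eventually_atTop.1 (hpar.and hlarge)
  -- the bound for one N
  refine ⟨N₀, ?_⟩
  · intro N hN hNres
    obtain ⟨⟨p1, p2, p3, p4, p5, p6, p7⟩, p8, p9⟩ := hN₀ N hN
    set x : ℝ := (N : ℝ) ^ (1 / (k : ℝ)) with hx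
    set X : ℕ := ⌊x / c⌋₊ with hX
    set D : ℕ := ⌊(N : ℝ) ^ e⌋₊ with hD
    have hN0 : (0 : ℝ) < N := by linarith
    have hx0 : 0 < x := by positivity
    have hD1 : 1 ≤ D := by
      rw [hD]
      exact Nat.le_floor (by simpa using p6)
    have hDle : (D : ℝ) ≤ (N : ℝ) ^ e := Nat.floor_le (by positivity)
    have hDge : (N : ℝ) ^ e / 2 ≤ D := by
      have := Nat.lt_floor_add_one ((N : ℝ) ^ e)
      rw [← hD] at this
      have h3 : (1 : ℝ) ≤ D := by exact_mod_cast hD1
      linarith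
    have hXle : (X : ℝ) ≤ x / c := Nat.floor_le (by positivity)
    have hXge : x / (2 * c) ≤ X := by
      have h3 := Nat.lt_floor_add_one (x / c)
      rw [← hX] at h3
      have h4 : 2 ≤ x / c := by rw [le_div_iff₀ hc0]; linarith
      have h5 : x / (2 * c) = (x / c) / 2 := by field_simp
      rw [h5]
      linarith
    have hXX₀ : X₀ ≤ X := by
      rw [hX]
      apply Nat.le_floor
      rw [le_div_iff₀ hc0]
      nlinarith
    have hDa : (D : ℝ) ^ a ≤ (N : ℝ) ^ (a * e) := by
      calc (D : ℝ) ^ a ≤ ((N : ℝ) ^ e) ^ a := pow_le_pow_left₀ (by positivity) hDle a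
        _ = (N : ℝ) ^ (a * e) := by
            rw [← Real.rpow_natCast ((N : ℝ) ^ e), ← Real.rpow_mul hN0.le]
            congr 1
            ring
    -- the number of elements of a block
    set T : ℕ := ⌊κ * (X : ℝ) ^ η / a⌋₊ with hT
    have hTle : (a * T : ℝ) ≤ κ * (X : ℝ) ^ η := by
      have h3 : (T : ℝ) ≤ κ * (X : ℝ) ^ η / a := Nat.floor_le (by positivity)
      rw [le_div_iff₀ har] at h3
      linarith
    have hXη : (N : ℝ) ^ (η / k) / (2 * c) ^ η ≤ (X : ℝ) ^ η := by
      have h6 : (x / (2 * c)) ^ η ≤ (X : ℝ) ^ η := Real.rpow_le_rpow (by positivity) hXge hη.le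
      rw [Real.div_rpow hx0.le (by positivity), hx, ← Real.rpow_mul hN0.le] at h6
      have e1 : 1 / (k : ℝ) * η = η / k := by ring
      rw [e1] at h6
      exact h6
    have hTge : (N : ℝ) ^ (η / k) / b2 ≤ T := by
      have h3 := Nat.lt_floor_add_one (κ * (X : ℝ) ^ η / a)
      rw [← hT] at h3
      have h4 : κ * ((N : ℝ) ^ (η / k) / (2 * c) ^ η) / a ≤ κ * (X : ℝ) ^ η / a := by gcongr
      have h5 : κ * ((N : ℝ) ^ (η / k) / (2 * c) ^ η) / a = 2 * ((N : ℝ) ^ (η / k) / b2) := by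
        rw [hb2]
        field_simp
      have h6 : 1 ≤ (N : ℝ) ^ (η / k) / b2 := by
        rw [le_div_iff₀ hb2p, one_mul]
        exact p9
      linarith
    obtain ⟨blk, hb1, hb2', hb3⟩ := blocks (m := m) (a := a) (T := T) (X := X) (Q := Q) rb hrb (by
      intro r hr
      obtain ⟨A, hA1, hA2⟩ := hX₀ X hXX₀ r hr
      refine ⟨A, hA1, ?_⟩
      have : ((a * T : ℕ) : ℝ) ≤ A.card := by
        push_cast
        linarith
      exact_mod_cast this)
    set E : ℕ := (1 + m) * (2 * X) ^ k with hE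
    -- E is small compared with N
    have hEN : (E : ℝ) * (2 * a) ≤ N := by
      have h3 : (2 * X : ℝ) ≤ x / (2 * a * (1 + m)) := by
        calc (2 * X : ℝ) ≤ 2 * (x / c) := by gcongr
          _ ≤ 2 * (x / (4 * a * (1 + m))) := by gcongr
          _ = x / (2 * a * (1 + m)) := by field_simp; ring
      have h4 : ((2 * X : ℝ)) ^ k ≤ N / (2 * a * (1 + m)) := by
        calc ((2 * X : ℝ)) ^ k ≤ (x / (2 * a * (1 + m))) ^ k :=
              pow_le_pow_left₀ (by positivity) h3 k
          _ = x ^ k / (2 * a * (1 + m)) ^ k := div_pow _ _ _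
          _ = N / (2 * a * (1 + m)) ^ k := by
              rw [hx, ← Real.rpow_natCast, ← Real.rpow_mul hN0.le, one_div, inv_mul_cancel₀ hk0.ne',
                Real.rpow_one]
          _ ≤ N / (2 * a * (1 + m)) := by
              apply div_le_div_of_nonneg_left hN0.le (by positivity)
              refine le_self_pow₀ ?_ (by omega)
              nlinarith
      rw [hE]
      push_cast
      calc (1 + (m : ℝ)) * (2 * (X : ℝ)) ^ k * (2 * a)
            ≤ (1 + m) * (N / (2 * a * (1 + m))) * (2 * a) := by gcongr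
        _ = N := by field_simp
    have hEN' : Z + a * E ≤ N := by
      have h3 : (Z : ℝ) + a * E ≤ N := by nlinarith
      exact_mod_cast h3
    have hch := chainC hU hm W hW (Bs := Bs) (Q := {n | n ∈ Q ∧ X < n ∧ n ≤ 2 * X}) (k := k) (m := m) (a := a) (ρ0 := ρ0)
      (T := T) (rb := rb) (blk := blk) hb1
      (fun i hi n hn => (hb3 i hi n hn).2.2.2.pow k) hb2'
      (fun i hi n hn => ⟨⟨(hb3 i hi n hn).1, (hb3 i hi n hn).2.1, (hb3 i hi n hn).2.2.1⟩,
        by have := (hb3 i hi n hn).2.1; omega⟩)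
      (D := D) (Z := Z) (N := N) (E := E)
      hD1 (by
        intro z hz1 hz2 hzρ
        have hDa1 : 1 ≤ D ^ a := Nat.one_le_pow _ _ hD1
        have hmDa : 1 ≤ m * D ^ a := Nat.mul_pos hm1 hDa1
        obtain ⟨S, hSB, hf2, hSρ, hf3⟩ := hB (z + m * D ^ a - 1) (by omega)
        -- the remainder is smaller than D^a
        have hzS : z ≤ S := by
          have h3 : ((z + m * D ^ a - 1 : ℕ) : ℝ) ≤ (1 + m) * (2 * N) := by
            have h4 : ((z + m * D ^ a - 1 : ℕ) : ℝ) ≤ (z : ℝ) + m * (D : ℝ) ^ a := by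
              have : z + m * D ^ a - 1 ≤ z + m * D ^ a := Nat.sub_le _ _
              exact_mod_cast this
            have h5 : (D : ℝ) ^ a ≤ N := by
              calc (D : ℝ) ^ a ≤ (N : ℝ) ^ (a * e) := hDa
                _ ≤ (N : ℝ) ^ (1 : ℝ) := by
                    apply Real.rpow_le_rpow_of_exponent_le p1
                    have h6 : θ / k ≤ 1 := by
                      rw [div_le_one hk0]
                      linarith
                    linarith
                _ = N := Real.rpow_one _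
            have h6 : (z : ℝ) ≤ N := by exact_mod_cast hz2
            nlinarith
          have h4 : ((z + m * D ^ a - 1 : ℕ) : ℝ) ^ g ≤ (1 + m) * (2 * N : ℝ) ^ g := by
            calc ((z + m * D ^ a - 1 : ℕ) : ℝ) ^ g ≤ ((1 + m) * (2 * N)) ^ g :=
                  Real.rpow_le_rpow (by positivity) h3 hg0.le
              _ = (1 + m : ℝ) ^ g * (2 * N : ℝ) ^ g := Real.mul_rpow (by positivity) (by positivity)
              _ ≤ (1 + m : ℝ) ^ (1 : ℝ) * (2 * N : ℝ) ^ g := by
                  apply mul_le_mul_of_nonneg_right _ (by positivity)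
                  exact Real.rpow_le_rpow_of_exponent_le (by linarith) hg1
              _ = _ := by rw [Real.rpow_one]
          have h5 : ((N : ℝ) ^ e / 2) ^ a ≤ (D : ℝ) ^ a := pow_le_pow_left₀ (by positivity) hDge a
          have h6 : ((z + m * D ^ a - 1 : ℕ) : ℝ) - S < (D : ℝ) ^ a := by
            calc ((z + m * D ^ a - 1 : ℕ) : ℝ) - S ≤ C * ((z + m * D ^ a - 1 : ℕ) : ℝ) ^ g := hf3
              _ ≤ C * ((1 + m) * (2 * N : ℝ) ^ g) := mul_le_mul_of_nonneg_left h4 (by linarith)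
              _ = C * (1 + m) * (2 * N : ℝ) ^ g := by ring
              _ < ((N : ℝ) ^ e / 2) ^ a := p4
              _ ≤ (D : ℝ) ^ a := h5
          have h7 : z + m * D ^ a - 1 < S + D ^ a := by
            have : ((z + m * D ^ a - 1 : ℕ) : ℝ) < ((S + D ^ a : ℕ) : ℝ) := by
              push_cast
              push_cast at h6
              linarith
            exact_mod_cast this
          have h8 : D ^ a ≤ m * D ^ a := Nat.le_mul_of_pos_left _ hm1
          omega
        obtain ⟨w, hw⟩ := (Nat.modEq_iff_dvd' hzS).1 (hzρ.trans hSρ.symm)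
        have hSw : S = z + m * w := by omega
        refine ⟨w, ?_, ?_⟩
        · have h3 : m * w < m * D ^ a := by omega
          exact Nat.lt_of_mul_lt_mul_left h3
        · rw [← hSw]
          exact hSB) (by
        intro i hi n hn
        rw [hWdef]
        apply Nat.le_floor
        have h3 : (X : ℝ) ≤ n := by exact_mod_cast (hb3 i hi n hn).2.1.le
        have h4 : x / (2 * c) ≤ (n : ℝ) := hXge.trans h3
        have h5 : (N : ℝ) ^ (θ / k) / (2 * c) ^ θ ≤ (n : ℝ) ^ θ := by
          have h6 : (x / (2 * c)) ^ θ ≤ (n : ℝ) ^ θ := Real.rpow_le_rpow (by positivity) h4 hθ0.le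
          rw [Real.div_rpow hx0.le (by positivity), hx, ← Real.rpow_mul hN0.le] at h6
          have e1 : 1 / (k : ℝ) * θ = θ / k := by ring
          rw [e1] at h6
          exact h6
        push_cast
        linarith) (by
        intro i hi n hn
        have h2n : n ≤ 2 * X := (hb3 i hi n hn).2.2.1
        have h3 : n ^ k ≤ (2 * X) ^ k := Nat.pow_le_pow_left h2n _
        have h4 : W n ≤ (2 * X) ^ k := by
          refine (hWle n).trans ?_
          rcases Nat.eq_zero_or_pos n with rfl | hn0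
          · rw [zero_pow (by omega)]
            exact Nat.zero_le _
          · calc n ^ (k - 1) ≤ n ^ k := Nat.pow_le_pow_right hn0 (by omega)
              _ ≤ _ := h3
        have h5 : m * W n ≤ m * (2 * X) ^ k := Nat.mul_le_mul_left _ h4
        have e1 : (1 + m) * (2 * X) ^ k = (2 * X) ^ k + m * (2 * X) ^ k := by ring
        rw [hE, e1]
        omega) hEN' hNres
    refine hch.trans (ENNReal.ofReal_le_ofReal ?_)
    refine le_trans ?_ p7
    apply mul_le_mul_of_nonneg_left _ (by positivity)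
    apply mul_le_mul_of_nonneg_left _ (by positivity)
    apply Real.exp_le_exp.2
    have h3 : (N : ℝ) ^ (η / (k : ℝ) - e) = (N : ℝ) ^ (η / (k : ℝ)) / (N : ℝ) ^ e := by
      rw [Real.rpow_sub hN0]
    have hDr : (1 : ℝ) ≤ D := by exact_mod_cast hD1
    rw [h3, neg_div, neg_le_neg_iff, div_div]
    rw [div_le_div_iff₀ (by positivity) (by positivity)]
    have h4 : (N : ℝ) ^ (η / (k : ℝ)) ≤ b2 * T := by
      rw [div_le_iff₀ hb2p] at hTge
      linarith
    calc (N : ℝ) ^ (η / (k : ℝ)) * (8 * (D : ℝ)) ≤ (b2 * T) * (8 * (N : ℝ) ^ e) := by gcongr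
      _ = T * ((N : ℝ) ^ e * (8 * b2)) := by ring

end Pool.Agent.TH882.WM
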