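import Pool.Agent.TH882.WM12

/-! Perturbations which are small at all places: the theorem. -/

set_option autoImplicit false

namespace Pool.Agent.TH882.WM

open MeasureTheory ProbabilityTheory Filter

/-- N is a sum of j exact powers with indices off Q and of a changed powers with indices in
Q ∩ (X, 2 X]. -/
def RepX (Q : Set ℕ) (k m j a X : ℕ) (u : ℕ → ℕ) (N : ℕ) : Prop :=
  ∃ x : Fin j → ℕ, ∃ y : Fin a → ℕ, (∀ l, x l ∈ Qᶜ ∧ 1 ≤ x l) ∧
    (∀ l, y l ∈ Q ∧ X < y l ∧ y l ≤ 2 * X) ∧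
    N = ∑ l, x l ^ k + ∑ l, (y l ^ k + m * u (y l))

theorem blockN {k m j a : ℕ} (hk : 2 ≤ k) (hm1 : 1 ≤ m) {θ η : ℝ} (hθ : θ ≤ k - 1) (hη : 0 < η)
    (h1 : (k : ℝ) * (1 - 1 / (k : ℝ)) ^ j < θ) (h2 : (k : ℝ) * (1 - 1 / (k : ℝ)) ^ j < η * a)
    {L : ℕ} {Q : Set ℕ} (hL : 1 ≤ L) (hQ : Rich m η Q) (hE : Dense m L Qᶜ) (hs : 4 * k ≤ j + a)
    (c : ℕ) (hc : 4 * a * (1 + m) ≤ c) :
    ∃ N₀ : ℕ, ∀ N, N₀ ≤ N →
      pert θ {u | ¬ RepX Q k m j a ⌊(N : ℝ) ^ (1 / (k : ℝ)) / (c : ℝ)⌋₊ u N} ≤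
        ENNReal.ofReal (1 / (N : ℝ) ^ 2) := by
  have hkr : (2 : ℝ) ≤ k := by exact_mod_cast hk
  have hbase : (0 : ℝ) < 1 - 1 / (k : ℝ) := by
    rw [sub_pos, div_lt_one (by linarith)]
    linarith
  have hbase1 : 1 - 1 / (k : ℝ) ≤ 1 := by
    have : 0 ≤ 1 / (k : ℝ) := by positivity
    linarith
  have hg0 : 0 < (1 - 1 / (k : ℝ)) ^ j := pow_pos hbase j
  have hg1 : (1 - 1 / (k : ℝ)) ^ j ≤ 1 := pow_le_one₀ hbase.le hbase1
  have hind : iIndepFun (fun (n : ℕ) (u : ℕ → ℕ) => u n) (pert θ) :=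
    iIndepFun_infinitePi (P := law θ) (X := fun _ x => x) (fun _ => measurable_id)
  have hcr : 4 * (a : ℝ) * (1 + m) ≤ (c : ℝ) := by exact_mod_cast hc
  obtain ⟨C, hC, hgr⟩ := greedyE k m L hk hL hE j
  have key : ∀ (rg : Fin j → Fin m) (rb : Fin a → Fin m), ∃ N₀ : ℕ, ∀ N, N₀ ≤ N →
      N ≡ ∑ l, (rg l : ℕ) ^ k + ∑ l, (rb l : ℕ) ^ k [MOD m] →
      pert θ {u | ¬ RepX Q k m j a ⌊(N : ℝ) ^ (1 / (k : ℝ)) / (c : ℝ)⌋₊ u N} ≤
        ENNReal.ofReal (1 / (N : ℝ) ^ 2) := by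
    intro rg rb
    set rg' : ℕ → ℕ := fun l => if h : l < j then (rg ⟨l, h⟩ : ℕ) else 0 with hrg'
    set rb' : ℕ → ℕ := fun l => if h : l < a then (rb ⟨l, h⟩ : ℕ) else 0 with hrb'
    have hrg'm : ∀ l, rg' l < m := by
      intro l
      simp only [hrg']
      split_ifs
      · exact (rg _).2
      · exact hm1
    have hrb'm : ∀ l, rb' l < m := by
      intro l
      simp only [hrb']
      split_ifs
      · exact (rb _).2
      · exact hm1
    obtain ⟨N₀, h3⟩ := oneN hind (fun n => measurable_pi_apply n) hk hm1 hθ hg0 hg1 h1 hη h2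
      (unif_pert θ)
      (Bs := {h | ∃ x : Fin j → ℕ, (∀ l, x l ∈ Qᶜ ∧ 1 ≤ x l) ∧ h = ∑ l, x l ^ k}) (Q := Q)
      (ρ0 := ∑ l, (rg l : ℕ) ^ k) (Z := j * L ^ k) hQ hC (by
        intro R hR
        obtain ⟨f, hf1, hf2, hf3⟩ := hgr rg' hrg'm R hR
        refine ⟨∑ l, f l ^ k, ⟨f, fun l => ⟨(hf1 l).1, (hf1 l).2.1⟩, rfl⟩, hf2, ?_, hf3⟩
        apply Nat.ModEq.sum
        intro l _
        apply Nat.ModEq.pow
        have h4 := (hf1 l).2.2
        simp only [hrg', Fin.is_lt, dif_pos] at h4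
        exact h4) rb' hrb'm (c : ℝ) hcr
    have e1 : ∑ l ∈ Finset.range a, rb' l ^ k = ∑ l, (rb l : ℕ) ^ k := by
      rw [Finset.sum_range]
      refine Finset.sum_congr rfl fun l _ => ?_
      simp [hrb']
    rw [e1] at h3
    refine ⟨N₀, fun N hN hNm => le_trans (measure_mono ?_) (h3 N hN hNm)⟩
    intro u hu hrep
    apply hu
    obtain ⟨b, ⟨x, hx, rfl⟩, y, hy, hsum⟩ := hrep
    exact ⟨x, y, hx, fun l => (hy l).1, hsum⟩
  choose F hF using key
  refine ⟨Finset.univ.sup fun rg => Finset.univ.sup fun rb => F rg rb, fun N hN => ?_⟩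
  obtain ⟨r, hr⟩ := loc_four (k := k) (m := m) (s := j + a) (by omega) hm1 hs N
  set rg : Fin j → Fin m := fun l => ⟨r (Fin.castAdd a l) % m, Nat.mod_lt _ hm1⟩ with hrg
  set rb : Fin a → Fin m := fun l => ⟨r (Fin.natAdd j l) % m, Nat.mod_lt _ hm1⟩ with hrb
  refine hF rg rb N (le_trans ?_ hN) ?_
  · exact le_trans (Finset.le_sup (f := fun rb => F rg rb) (Finset.mem_univ rb))
      (Finset.le_sup (f := fun rg => Finset.univ.sup fun rb => F rg rb) (Finset.mem_univ rg))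
  · refine hr.trans ?_
    rw [Fin.sum_univ_add]
    apply Nat.ModEq.add
    · apply Nat.ModEq.sum
      intro l _
      exact ((Nat.mod_modEq _ _).pow k).symm
    · apply Nat.ModEq.sum
      intro l _
      exact ((Nat.mod_modEq _ _).pow k).symm

/-- N is a sum of s members of the sequence n^k + M(n) 1_Q(n) u_n, n ≥ 1. -/
def RepM (Q : Set ℕ) (M : ℕ → ℕ) (k s : ℕ) (u : ℕ → ℕ) (N : ℕ) : Prop :=
  ∃ f : Fin s → ℕ, (∀ l, 1 ≤ f l) ∧ N = ∑ l, (f l ^ k + M (f l) * Q.indicator u (f l))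

lemma repM_of_X {Q : Set ℕ} {M : ℕ → ℕ} {k m j a X : ℕ} {u : ℕ → ℕ} {N : ℕ}
    (hM : ∀ y, X < y → y ≤ 2 * X → M y = m) (h : RepX Q k m j a X u N) :
    RepM Q M k (j + a) u N := by
  obtain ⟨x, y, hx, hy, rfl⟩ := h
  refine ⟨Fin.append x y, ?_, ?_⟩
  · intro l
    refine Fin.addCases (fun i => ?_) (fun i => ?_) l
    · rw [Fin.append_left]
      exact (hx i).2
    · rw [Fin.append_right]
      have := (hy i).2.1
      omega
  · rw [Fin.sum_univ_add]
    simp only [Fin.append_left, Fin.append_right]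
    congr 1
    · refine Finset.sum_congr rfl fun l _ => ?_
      rw [Set.indicator_of_notMem (hx l).1, mul_zero, add_zero]
    · refine Finset.sum_congr rfl fun l _ => ?_
      rw [Set.indicator_of_mem (hy l).1, hM (y l) (hy l).2.1 (hy l).2.2]

lemma repM_mono {Q : Set ℕ} {M : ℕ → ℕ} {k s : ℕ} {u : ℕ → ℕ}
    (h : ∀ᶠ N in atTop, RepM Q M k s u N) : ∀ t, s ≤ t → ∀ᶠ N in atTop, RepM Q M k t u N := by
  intro t ht
  induction t, ht using Nat.le_induction with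
  | base => exact h
  | succ t _ ih =>
    set v := 1 ^ k + M 1 * Q.indicator u 1 with hv
    obtain ⟨N₀, hN₀⟩ := eventually_atTop.1 ih
    filter_upwards [eventually_ge_atTop (N₀ + v)] with N hN
    obtain ⟨f, hf1, hf2⟩ := hN₀ (N - v) (by omega)
    refine ⟨Fin.cons 1 f, ?_, ?_⟩
    · intro l
      refine Fin.cases ?_ ?_ l
      · simp
      · intro l
        simpa using hf1 l
    · rw [Fin.sum_univ_succ]
      simp only [Fin.cons_zero, Fin.cons_succ]
      rw [← hf2, ← hv]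
      omega

lemma stages (T C : ℕ → ℕ) : ∃ n : ℕ → ℕ, (∀ i, T i ≤ n i) ∧ ∀ i, C i * (n i + 1) ≤ n (i + 1) := by
  refine ⟨fun i => Nat.rec (T 0) (fun i x => max (T (i + 1)) (C i * (x + 1))) i, ?_, ?_⟩
  · intro i
    cases i with
    | zero => exact le_rfl
    | succ i => exact le_max_left _ _
  · intro i
    exact le_max_right _ _

theorem adelic {k j a : ℕ} (hk : 2 ≤ k) {θ η : ℝ} (hθ : θ ≤ k - 1) (hη : 0 < η)
    (h1 : (k : ℝ) * (1 - 1 / (k : ℝ)) ^ j < θ) (h2 : (k : ℝ) * (1 - 1 / (k : ℝ)) ^ j < η * a)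
    {Q : Set ℕ} (hQ : ∀ m, 1 ≤ m → Rich m η Q) (hE : ∀ m, 1 ≤ m → ∃ L, 1 ≤ L ∧ Dense m L Qᶜ)
    (hs : 4 * k ≤ j + a) (w : ℕ → ℕ) (hw : Tendsto w atTop atTop) :
    ∃ M : ℕ → ℕ, (∀ m, 1 ≤ m → ∀ᶠ n in atTop, m ∣ M n) ∧ (∀ᶠ n in atTop, M n ≤ w n) ∧
      ∀ᵐ u ∂(pert θ), ∀ s, j + a ≤ s → ∀ᶠ N in atTop, RepM Q M k s u N := by
  have hkr : (2 : ℝ) ≤ k := by exact_mod_cast hk
  have ha : 1 ≤ a := by
    rcases Nat.eq_zero_or_pos a with rfl | h
    · exfalso
      have hbase : (0 : ℝ) < 1 - 1 / (k : ℝ) := by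
        rw [sub_pos, div_lt_one (by linarith)]
        linarith
      have h3 : 0 < (k : ℝ) * (1 - 1 / (k : ℝ)) ^ j := by positivity
      simp only [Nat.cast_zero, mul_zero] at h2
      linarith
    · exact h
  set mm : ℕ → ℕ := fun i => (i + 1).factorial with hmm
  set cc : ℕ → ℕ := fun i => 4 * a * (1 + mm i) with hcc
  have hmm1 : ∀ i, 1 ≤ mm i := fun i => Nat.factorial_pos _
  have hcc1 : ∀ i, 1 ≤ cc i := by
    intro i
    have h3 := hmm1 i
    simp only [hcc]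
    have : 1 ≤ 4 * a * (1 + mm i) := Nat.mul_pos (by omega) (by omega)
    exact this
  set X : ℕ → ℕ → ℕ := fun c N => ⌊(N : ℝ) ^ (1 / (k : ℝ)) / (c : ℝ)⌋₊ with hX
  -- thresholds
  have hthr : ∀ i, ∃ N₀ : ℕ, ∀ N, N₀ ≤ N →
      pert θ {u | ¬ RepX Q k (mm i) j a (X (cc i) N) u N} ≤ ENNReal.ofReal (1 / (N : ℝ) ^ 2) ∧
      pert θ {u | ¬ RepX Q k (mm i) j a (X (2 * cc (i + 1)) N) u N} ≤
        ENNReal.ofReal (1 / (N : ℝ) ^ 2) := by
    intro i
    obtain ⟨L, hL, hD⟩ := hE (mm i) (hmm1 i)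
    obtain ⟨N₁, hN₁⟩ := blockN hk (hmm1 i) hθ hη h1 h2 hL (hQ _ (hmm1 i)) hD hs (cc i) le_rfl
    obtain ⟨N₂, hN₂⟩ := blockN hk (hmm1 i) hθ hη h1 h2 hL (hQ _ (hmm1 i)) hD hs (2 * cc (i + 1)) (by
      have h3 : mm i ≤ mm (i + 1) := Nat.factorial_le (by omega)
      have h4 : 4 * a * (1 + mm i) ≤ 4 * a * (1 + mm (i + 1)) := Nat.mul_le_mul_left _ (by omega)
      have h5 : cc (i + 1) = 4 * a * (1 + mm (i + 1)) := rfl
      omega)
    exact ⟨max N₁ N₂, fun N hN => ⟨hN₁ N (by omega), hN₂ N (by omega)⟩⟩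
  choose NN hNN using hthr
  have hWW : ∀ i, ∃ W₀ : ℕ, ∀ n, W₀ ≤ n → mm i ≤ w n := fun i =>
    eventually_atTop.1 (hw.eventually_ge_atTop (mm i))
  choose WW hWW using hWW
  obtain ⟨n, hn1, hn2⟩ := stages (fun i => max (NN i) (WW i)) (fun i => 4 * cc (i + 1))
  have hnlt : ∀ i, n i < n (i + 1) := by
    intro i
    have h3 := hn2 i
    have h4 := hcc1 (i + 1)
    have h5 : 1 * (n i + 1) ≤ 4 * cc (i + 1) * (n i + 1) := Nat.mul_le_mul_right _ (by omega)
    omega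
  have hmono : StrictMono n := strictMono_nat_of_lt_succ hnlt
  have hid : ∀ i, i ≤ n i := fun i => hmono.le_apply
  set st : ℕ → ℕ := fun y => Nat.findGreatest (fun i => n i ≤ y) y with hst
  have hstA : ∀ i y, n i ≤ y → y < n (i + 1) → st y = i := by
    intro i y h3 h4
    apply le_antisymm
    · by_contra hcon
      push Not at hcon
      have h5 : n (st y) ≤ y :=
        Nat.findGreatest_spec (P := fun i => n i ≤ y) (m := i) (n := y) ((hid i).trans h3) h3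
      have h6 : n (i + 1) ≤ n (st y) := hmono.monotone hcon
      omega
    · exact Nat.le_findGreatest ((hid i).trans h3) h3
  refine ⟨fun y => mm (st y), ?_, ?_, ?_⟩
  · intro m hm
    filter_upwards [eventually_ge_atTop (n m)] with y hy
    have h3 : m ≤ st y := Nat.le_findGreatest ((hid m).trans hy) hy
    exact Nat.dvd_factorial (by omega) (by omega)
  · filter_upwards [eventually_ge_atTop (n 0)] with y hy
    have h3 : n (st y) ≤ y :=
      Nat.findGreatest_spec (P := fun i => n i ≤ y) (m := 0) (n := y) (Nat.zero_le _) hy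
    have h4 := hn1 (st y)
    exact hWW (st y) y (le_trans (le_trans (le_max_right _ _) h4) h3)
  -- positions
  have hXle : ∀ c N, 1 ≤ c → 1 ≤ N → X c N ≤ N := by
    intro c N hc hN
    apply Nat.floor_le_of_le
    have hcr : (1 : ℝ) ≤ c := by exact_mod_cast hc
    have hNr : (1 : ℝ) ≤ N := by exact_mod_cast hN
    calc (N : ℝ) ^ (1 / (k : ℝ)) / (c : ℝ) ≤ (N : ℝ) ^ (1 / (k : ℝ)) := div_le_self (by positivity) hcr
      _ ≤ (N : ℝ) ^ (1 : ℝ) := by
          apply Real.rpow_le_rpow_of_exponent_le hNr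
          rw [div_le_one (by linarith)]
          linarith
      _ = N := Real.rpow_one _
  have hpos : ∀ N, 1 ≤ N → n 0 ≤ X (cc 0) N → ∃ i c, n i ≤ X c N ∧ 2 * X c N < n (i + 1) ∧
      pert θ {u | ¬ RepX Q k (mm i) j a (X c N) u N} ≤ ENNReal.ofReal (1 / (N : ℝ) ^ 2) := by
    intro N hN1 hN
    set i := Nat.findGreatest (fun i => n i ≤ X (cc i) N) N with hi
    have h3 : n i ≤ X (cc i) N :=
      Nat.findGreatest_spec (P := fun i => n i ≤ X (cc i) N) (m := 0) (n := N) (Nat.zero_le _) hN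
    have h4 : X (cc (i + 1)) N < n (i + 1) := by
      by_contra hcon
      push Not at hcon
      have h5 : i + 1 ≤ N := (hid (i + 1)).trans (hcon.trans (hXle _ N (hcc1 _) hN1))
      exact Nat.findGreatest_is_greatest (P := fun i => n i ≤ X (cc i) N) (n := N) (k := i + 1)
        (by omega) h5 hcon
    by_cases h5 : 2 * X (cc i) N < n (i + 1)
    · refine ⟨i, cc i, h3, h5, (hNN i N ?_).1⟩
      exact le_trans (le_max_left _ _) ((hn1 i).trans (h3.trans (hXle _ N (hcc1 _) hN1)))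
    · push Not at h5
      set x : ℝ := (N : ℝ) ^ (1 / (k : ℝ)) with hx
      have hx0 : 0 ≤ x := by positivity
      have hccr : ∀ i, (1 : ℝ) ≤ cc i := fun i => by exact_mod_cast hcc1 i
      have h6 : 2 * X (2 * cc (i + 1)) N ≤ X (cc (i + 1)) N := by
        apply Nat.le_floor
        have h7 : (X (2 * cc (i + 1)) N : ℝ) ≤ x / ((2 * cc (i + 1) : ℕ) : ℝ) :=
          Nat.floor_le (by positivity)
        push_cast at h7 ⊢
        have h8 := hccr (i + 1)
        calc 2 * (X (2 * cc (i + 1)) N : ℝ) ≤ 2 * (x / (2 * cc (i + 1))) := by linarith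
          _ = x / cc (i + 1) := by field_simp
      have h7 : n i ≤ X (2 * cc (i + 1)) N := by
        apply Nat.le_floor
        have h8 : (X (cc i) N : ℝ) ≤ x / (cc i : ℝ) := Nat.floor_le (by positivity)
        have h9 : x / (cc i : ℝ) ≤ x := div_le_self hx0 (hccr i)
        have h10 : (n (i + 1) : ℝ) ≤ 2 * X (cc i) N := by exact_mod_cast h5
        have h11 : ((4 * cc (i + 1) * (n i + 1) : ℕ) : ℝ) ≤ n (i + 1) := by exact_mod_cast hn2 i
        push_cast at h11 ⊢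
        have h12 := hccr (i + 1)
        rw [le_div_iff₀ (by positivity)]
        have h13 : (0 : ℝ) ≤ n i := Nat.cast_nonneg _
        nlinarith
      refine ⟨i, 2 * cc (i + 1), h7, by omega, (hNN i N ?_).2⟩
      exact le_trans (le_max_left _ _) ((hn1 i).trans (h7.trans
        (hXle _ N (by have := hcc1 (i + 1); omega) hN1)))
  -- the bound for every large N
  have hbound : ∀ N, 1 ≤ N → n 0 ≤ X (cc 0) N →
      pert θ {u | ¬ RepM Q (fun y => mm (st y)) k (j + a) u N} ≤ ENNReal.ofReal (1 / (N : ℝ) ^ 2) := by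
    intro N hN1 hN
    obtain ⟨i, c, h3, h4, h5⟩ := hpos N hN1 hN
    refine le_trans (measure_mono ?_) h5
    intro u hu hrep
    apply hu
    refine repM_of_X (m := mm i) ?_ hrep
    intro y hy1 hy2
    show mm (st y) = mm i
    rw [hstA i y (by omega) (by omega)]
  have hlarge : ∀ᶠ N : ℕ in atTop, n 0 ≤ X (cc 0) N := by
    have h3 : ∀ᶠ N : ℕ in atTop, ((n 0 : ℝ) * cc 0) ≤ (N : ℝ) ^ (1 / (k : ℝ)) :=
      ((tendsto_rpow_atTop (by positivity : 0 < 1 / (k : ℝ))).comp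
        tendsto_natCast_atTop_atTop).eventually_ge_atTop _
    filter_upwards [h3] with N hN
    apply Nat.le_floor
    have h4 : (1 : ℝ) ≤ cc 0 := by exact_mod_cast hcc1 0
    rw [le_div_iff₀ (by linarith)]
    exact hN
  obtain ⟨N₁, hN₁⟩ := eventually_atTop.1 (hlarge.and (eventually_ge_atTop 1))
  classical
  set s : ℕ → Set (ℕ → ℕ) := fun N => if N₁ ≤ N then
    {u | ¬ RepM Q (fun y => mm (st y)) k (j + a) u N} else ∅ with hs'
  have hsum : ∑' N, pert θ (s N) ≠ ⊤ := by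
    have h3 : ∀ N, pert θ (s N) ≤ ENNReal.ofReal (1 / (N : ℝ) ^ 2) := by
      intro N
      simp only [hs']
      split_ifs with h
      · exact hbound N (hN₁ N h).2 (hN₁ N h).1
      · simp
    refine ne_top_of_le_ne_top ?_ (ENNReal.tsum_le_tsum h3)
    have h4 : Summable (fun N : ℕ => 1 / (N : ℝ) ^ 2) := Real.summable_one_div_nat_pow.2 (by norm_num)
    rw [← ENNReal.ofReal_tsum_of_nonneg (fun n => by positivity) h4]
    exact ENNReal.ofReal_ne_top
  filter_upwards [ae_eventually_notMem hsum] with u h3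
  refine repM_mono ?_
  filter_upwards [h3, eventually_ge_atTop N₁] with N h5 h6
  simp only [hs', if_pos h6, Set.mem_setOf_eq, not_not] at h5
  exact h5

end Pool.Agent.TH882.WM
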