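import Pool.Agent.TH882.WM1

/-! Perturbed k-th powers: the chain of random steps, with residues mod m. -/

set_option autoImplicit false

namespace Pool.Agent.TH882.WM

open MeasureTheory ProbabilityTheory

/-- the n-th perturbed power. -/
def val (k m : ℕ) (u : ℕ → ℕ) (n : ℕ) : ℕ := n ^ k + m * u n

/-- sums of j perturbed powers of indices in class 0 and one of each block 1, …, i. -/
def Sums (k m q K j T : ℕ) (rg rb : ℕ → ℕ) (u : ℕ → ℕ) : ℕ → Set ℕ
  | 0 => {h | ∃ f : Fin j → ℕ, (∀ l, 1 ≤ f l ∧ m * q * f l + rg l < K) ∧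
      h = ∑ l, val k m u (m * q * f l + rg l)}
  | i + 1 => {h | ∃ h0 ∈ Sums k m q K j T rg rb u i, ∃ t, T ≤ t ∧ t < 2 * T ∧
      h = h0 + val k m u (m * q * t + (m * (i + 1) + rb i))}

lemma Sums_congr {k m q K j T : ℕ} {rg rb : ℕ → ℕ} {u u' : ℕ → ℕ} (hm : 1 ≤ m)
    (hrg : ∀ l, rg l < m) (hrb : ∀ l, rb l < m) (hK : 2 * (m * q * T) ≤ K) :
    ∀ i, i < q → (∀ n, n < K → (n % (m * q)) / m ≤ i → u n = u' n) →
      Sums k m q K j T rg rb u i = Sums k m q K j T rg rb u' i := by
  intro i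
  induction i with
  | zero =>
    intro hi h
    have key : ∀ f l : ℕ, m * q * f + rg l < K → val k m u (m * q * f + rg l) =
        val k m u' (m * q * f + rg l) := by
      intro f l hK'
      unfold val
      rw [h _ hK' ?_]
      rw [Nat.mul_add_mod, Nat.mod_eq_of_lt (lt_of_lt_of_le (hrg l) (Nat.le_mul_of_pos_right _ hi)),
        Nat.div_eq_of_lt (hrg l)]
    ext x
    simp only [Sums, Set.mem_setOf_eq]
    constructor
    · rintro ⟨f, hf, rfl⟩
      exact ⟨f, hf, Finset.sum_congr rfl fun l _ => key _ _ (hf l).2⟩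
    · rintro ⟨f, hf, rfl⟩
      exact ⟨f, hf, Finset.sum_congr rfl fun l _ => (key _ _ (hf l).2).symm⟩
  | succ i ih =>
    intro hi h
    have h1 := ih (by omega) (fun n hn hq => h n hn (by omega))
    ext x
    simp only [Sums, Set.mem_setOf_eq]
    rw [h1]
    have key : ∀ t, T ≤ t → t < 2 * T →
        val k m u (m * q * t + (m * (i + 1) + rb i)) = val k m u' (m * q * t + (m * (i + 1) + rb i)) := by
      intro t h2 h3
      unfold val
      have e0 : m * (i + 1) + rb i < m * q := by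
        have h4 : m * (i + 2) ≤ m * q := Nat.mul_le_mul_left _ hi
        have h5 : m * (i + 2) = m * (i + 1) + m := by ring
        have := hrb i
        omega
      have e1 : m * q * (t + 1) ≤ m * q * (2 * T) := Nat.mul_le_mul_left _ h3
      have e2 : m * q * (t + 1) = m * q * t + m * q := by ring
      have e3 : m * q * (2 * T) = 2 * (m * q * T) := by ring
      rw [h (m * q * t + (m * (i + 1) + rb i)) (by omega)]
      rw [Nat.mul_add_mod, Nat.mod_eq_of_lt e0, Nat.mul_add_div hm, Nat.div_eq_of_lt (hrb i)]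
    constructor
    · rintro ⟨h0, hh, t, h2, h3, rfl⟩
      exact ⟨h0, hh, t, h2, h3, by rw [key t h2 h3]⟩
    · rintro ⟨h0, hh, t, h2, h3, rfl⟩
      exact ⟨h0, hh, t, h2, h3, by rw [key t h2 h3]⟩

lemma step {Ω : Type*} [MeasurableSpace Ω] {P : Measure Ω} [IsProbabilityMeasure P]
    {U : ℕ → Ω → ℕ} (hU : iIndepFun U P) (hm : ∀ n, Measurable (U n)) (W : ℕ → ℕ)
    (hW : ∀ n, Unif P (U n) (W n)) {k m q K j T : ℕ} {rg rb : ℕ → ℕ} (hm1 : 1 ≤ m)
    (hrg : ∀ l, rg l < m) (hrb : ∀ l, rb l < m) (hK : 2 * (m * q * T) ≤ K) {i : ℕ}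
    (hi : i + 1 < q) {D G' Z Z' R ρ : ℕ} (hD : 1 ≤ D) (hG' : 1 ≤ G')
    (hWG : ∀ n, m * q * T ≤ n → 2 * (D * G') ≤ W n)
    (hZ : ∀ n, n < 2 * (m * q * T) → Z + n ^ k + m * W n ≤ Z') :
    P {ω | Net m (Sums k m q K j T rg rb (fun n => U n ω) i) (D * G') Z R ρ ∧
        ¬ Net m (Sums k m q K j T rg rb (fun n => U n ω) (i + 1)) G' Z' R (ρ + rb i ^ k)} ≤
      ENNReal.ofReal ((R + 1) * Real.exp (-(T : ℝ) / (8 * D))) := by
  classical
  set B : Finset ℕ := (Finset.Ico T (2 * T)).image (fun t => m * q * t + (m * (i + 1) + rb i)) with hB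
  set F : Finset ℕ := (Finset.range K).filter (fun n => (n % (m * q)) / m ≤ i) with hF
  have hq : 0 < q := by omega
  have hmq : 0 < m * q := Nat.mul_pos hm1 hq
  have hBcard : B.card = T := by
    rw [hB, Finset.card_image_of_injective, Nat.card_Ico]
    · omega
    · intro x y hxy
      simp only at hxy
      have : m * q * x = m * q * y := by omega
      exact Nat.eq_of_mul_eq_mul_left hmq this
  have e0 : m * (i + 1) + rb i < m * q := by
    have h4 : m * (i + 2) ≤ m * q := Nat.mul_le_mul_left _ hi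
    have h5 : m * (i + 2) = m * (i + 1) + m := by ring
    have := hrb i
    omega
  have hBmem : ∀ n ∈ B, m * q * T ≤ n ∧ n < 2 * (m * q * T) ∧ (n % (m * q)) / m = i + 1 ∧
      n ^ k ≡ rb i ^ k [MOD m] ∧
      ∃ t, T ≤ t ∧ t < 2 * T ∧ n = m * q * t + (m * (i + 1) + rb i) := by
    intro n hn
    rw [hB, Finset.mem_image] at hn
    obtain ⟨t, ht, rfl⟩ := hn
    rw [Finset.mem_Ico] at ht
    have e1 : m * q * T ≤ m * q * t := Nat.mul_le_mul_left _ ht.1
    have e2 : m * q * (t + 1) ≤ m * q * (2 * T) := Nat.mul_le_mul_left _ ht.2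
    have e3 : m * q * (t + 1) = m * q * t + m * q := by ring
    have e4 : m * q * (2 * T) = 2 * (m * q * T) := by ring
    refine ⟨by omega, by omega, ?_, ?_, t, ht.1, ht.2, rfl⟩
    · rw [Nat.mul_add_mod, Nat.mod_eq_of_lt e0, Nat.mul_add_div hm1, Nat.div_eq_of_lt (hrb i)]
    · apply Nat.ModEq.pow
      have : m * q * t + (m * (i + 1) + rb i) = rb i + m * (q * t + (i + 1)) := by ring
      rw [this]
      unfold Nat.ModEq
      rw [Nat.add_mul_mod_self_left]
  have hdisj : Disjoint B F := by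
    rw [Finset.disjoint_left]
    intro n hn hn'
    have h1 := (hBmem n hn).2.2.1
    rw [hF, Finset.mem_filter] at hn'
    omega
  -- the single target event
  have hone : ∀ I, Z' ≤ I → I ≤ R → I ≡ ρ + rb i ^ k [MOD m] →
      P {ω | Net m (Sums k m q K j T rg rb (fun n => U n ω) i) (D * G') Z R ρ ∧
        ∀ n ∈ B, ∀ h ∈ Sums k m q K j T rg rb (fun n => U n ω) i,
          ∀ e, e < G' → n ^ k + m * U n ω + h ≠ I + m * e} ≤
        ENNReal.ofReal (Real.exp (-(T : ℝ) / (8 * D))) := by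
    intro I hI1 hI2 hI3
    set ext : (F → ℕ) → ℕ → ℕ := fun y n => if h : n ∈ F then y ⟨n, h⟩ else 0 with hext
    set X : Ω → (B → ℕ) := fun ω n => U n ω with hX
    set Y : Ω → (F → ℕ) := fun ω n => U n ω with hY
    have hind : IndepFun X Y P := hU.indepFun_finset B F hdisj hm
    have hXm : Measurable X := measurable_pi_lambda _ (fun n => hm n)
    have hYm : Measurable Y := measurable_pi_lambda _ (fun n => hm n)
    set S : (F → ℕ) → Set (B → ℕ) := fun y => {x | ∀ n : B, ∀ h ∈ Sums k m q K j T rg rb (ext y) i,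
      ∀ e, e < G' → (n : ℕ) ^ k + m * x n + h ≠ I + m * e} with hS
    set G : Set (F → ℕ) := {y | Net m (Sums k m q K j T rg rb (ext y) i) (D * G') Z R ρ} with hG
    have hcongr : ∀ ω, Sums k m q K j T rg rb (ext (Y ω)) i =
        Sums k m q K j T rg rb (fun n => U n ω) i := by
      intro ω
      apply Sums_congr hm1 hrg hrb hK i (by omega)
      intro n hn hnq
      have : n ∈ F := by
        rw [hF, Finset.mem_filter, Finset.mem_range]
        exact ⟨hn, hnq⟩
      simp only [hext, dif_pos this, hY]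
    have hb := indep_bound hXm hYm hind S (fun y => (Set.to_countable _).measurableSet) G
      (ENNReal.ofReal (Real.exp (-(T : ℝ) / (8 * D)))) (by
        intro y hy
        have h1 := miss_prob hU hm W B (fun n _ => hW n) (fun n => n ^ k) (D := D) (G' := G')
          (Z := Z) (R := R) (I := I) (m := m) (ρ := ρ) hD hG' hy
          (fun n hn => hWG n (hBmem n hn).1) hI2
          (fun n hn => hI3.trans ((hBmem n hn).2.2.2.1.symm.add_left ρ))
          (fun n hn => (hZ n (hBmem n hn).2.1).trans hI1)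
        rw [hBcard] at h1
        refine le_trans (measure_mono ?_) h1
        intro ω hω n hn h hh
        exact hω ⟨n, hn⟩ h hh)
    refine le_trans (measure_mono ?_) hb
    intro ω hω
    refine ⟨?_, ?_⟩
    · show Net m (Sums k m q K j T rg rb (ext (Y ω)) i) (D * G') Z R ρ
      rw [hcongr]
      exact hω.1
    · show ∀ n : B, ∀ h ∈ Sums k m q K j T rg rb (ext (Y ω)) i, _
      rw [hcongr]
      intro n h hh
      exact hω.2 n n.2 h hh
  have hsub : {ω | Net m (Sums k m q K j T rg rb (fun n => U n ω) i) (D * G') Z R ρ ∧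
        ¬ Net m (Sums k m q K j T rg rb (fun n => U n ω) (i + 1)) G' Z' R (ρ + rb i ^ k)} ⊆
      ⋃ I ∈ (Finset.Icc Z' R).filter (fun I => I ≡ ρ + rb i ^ k [MOD m]),
        {ω | Net m (Sums k m q K j T rg rb (fun n => U n ω) i) (D * G') Z R ρ ∧
        ∀ n ∈ B, ∀ h ∈ Sums k m q K j T rg rb (fun n => U n ω) i,
          ∀ e, e < G' → n ^ k + m * U n ω + h ≠ I + m * e} := by
    rintro ω ⟨h1, h2⟩
    unfold Net at h2
    push Not at h2
    obtain ⟨I, hI1, hI2, hI3, hI4⟩ := h2
    simp only [Set.mem_iUnion]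
    refine ⟨I, Finset.mem_filter.2 ⟨Finset.mem_Icc.2 ⟨hI1, hI2⟩, hI3⟩, h1, ?_⟩
    rintro n hn h hh e he h3
    obtain ⟨-, -, -, -, t, ht1, ht2, rfl⟩ := hBmem n hn
    refine hI4 e he ⟨h, hh, t, ht1, ht2, ?_⟩
    simp only [val]
    omega
  refine (measure_mono hsub).trans ((measure_biUnion_finset_le _ _).trans ?_)
  refine (Finset.sum_le_sum (g := fun _ => ENNReal.ofReal (Real.exp (-(T : ℝ) / (8 * D)))) ?_).trans ?_
  · intro I hI
    rw [Finset.mem_filter, Finset.mem_Icc] at hI
    exact hone I hI.1.1 hI.1.2 hI.2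
  · rw [Finset.sum_const, nsmul_eq_mul, ENNReal.ofReal_mul (by positivity)]
    gcongr
    rw [show ((R : ℝ) + 1) = ((R + 1 : ℕ) : ℝ) by push_cast; ring, ENNReal.ofReal_natCast]
    norm_cast
    refine (Finset.card_filter_le _ _).trans ?_
    rw [Nat.card_Icc]
    omega

end Pool.Agent.TH882.WM
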