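import Pool.Agent.TH882.WM3

/-! Perturbed k-th powers: the almost sure theorem, with residues mod m. -/

set_option autoImplicit false

namespace Pool.Agent.TH882.WM

open MeasureTheory ProbabilityTheory Filter

/-- growth conditions for the parameters, for all large N. -/
lemma params {k a : ℕ} (hk : 2 ≤ k) (ha : 1 ≤ a) {g θ e C c Z : ℝ} (hg0 : 0 ≤ g)
    (he1 : g < a * e) (he2 : a * e < θ / k) (he3 : e < 1 / k) (hC : 1 ≤ C) (hc : 1 ≤ c) :
    ∀ᶠ N : ℕ in atTop, 1 ≤ (N : ℝ) ∧ 2 * c ≤ (N : ℝ) ^ (1 / (k : ℝ)) ∧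
      2 * (N : ℝ) ^ (a * e) + 1 ≤ (N : ℝ) ^ (θ / k) / (2 * c) ^ θ ∧
      C * (2 * N : ℝ) ^ g < ((N : ℝ) ^ e / 2) ^ a ∧ 2 * Z ≤ N ∧ 1 ≤ (N : ℝ) ^ e ∧
      a * ((N + 1) * Real.exp (-((N : ℝ) ^ (1 / (k : ℝ) - e) / (16 * c)))) ≤ 1 / (N : ℝ) ^ 2 := by
  have hkr : (2 : ℝ) ≤ k := by exact_mod_cast hk
  have har : (1 : ℝ) ≤ a := by exact_mod_cast ha
  have hae : 0 < a * e := lt_of_le_of_lt hg0 he1
  have he : 0 < e := by
    by_contra hcon
    push Not at hcon
    nlinarith
  have hθ : 0 < θ := by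
    have : 0 < θ / k := hae.trans he2
    by_contra hcon
    push Not at hcon
    have := div_nonpos_of_nonpos_of_nonneg hcon (by linarith : (0:ℝ) ≤ k)
    linarith
  have hc2 : (0 : ℝ) < (2 * c) ^ θ := by positivity
  set δ := 1 / (k : ℝ) - e with hδ
  have hδ0 : 0 < δ := by rw [hδ]; linarith
  have E1 : ∀ᶠ N : ℕ in atTop, (1 : ℝ) ≤ N := by
    filter_upwards [eventually_ge_atTop 1] with N hN
    exact_mod_cast hN
  have E2 : ∀ᶠ N : ℕ in atTop, 2 * c ≤ (N : ℝ) ^ (1 / (k : ℝ)) :=
    ((tendsto_rpow_atTop (by positivity : 0 < 1 / (k : ℝ))).comp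
      tendsto_natCast_atTop_atTop).eventually_ge_atTop _
  have E3 : ∀ᶠ N : ℕ in atTop, 3 * (2 * c) ^ θ ≤ (N : ℝ) ^ (θ / k - a * e) :=
    ((tendsto_rpow_atTop (by linarith : 0 < θ / k - a * e)).comp
      tendsto_natCast_atTop_atTop).eventually_ge_atTop _
  have E4 : ∀ᶠ N : ℕ in atTop, C * 2 ^ g * 2 ^ a + 1 ≤ (N : ℝ) ^ (a * e - g) :=
    ((tendsto_rpow_atTop (by linarith : 0 < a * e - g)).comp
      tendsto_natCast_atTop_atTop).eventually_ge_atTop _
  have E5 : ∀ᶠ N : ℕ in atTop, 2 * Z ≤ N :=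
    tendsto_natCast_atTop_atTop.eventually_ge_atTop _
  have E7 : ∀ᶠ N : ℕ in atTop, (((N : ℝ) ^ δ) ^ (4 / δ) * Real.exp (-(1 / (16 * c)) * (N : ℝ) ^ δ)) ≤
      1 / (2 * a) := by
    have h1 := (tendsto_rpow_mul_exp_neg_mul_atTop_nhds_zero (4 / δ) (1 / (16 * c)) (by positivity))
    have h2 := h1.comp ((tendsto_rpow_atTop hδ0).comp tendsto_natCast_atTop_atTop)
    exact (h2.eventually_le_const (by positivity : (0 : ℝ) < 1 / (2 * a)))
  filter_upwards [E1, E2, E3, E4, E5, E7] with N h1 h2 h3 h4 h5 h7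
  have hN0 : (0 : ℝ) < N := by linarith
  have h6 : 1 ≤ (N : ℝ) ^ e := Real.one_le_rpow h1 he.le
  refine ⟨h1, h2, ?_, ?_, h5, h6, ?_⟩
  · rw [le_div_iff₀ hc2]
    have e1 : (N : ℝ) ^ (θ / k) = (N : ℝ) ^ (a * e) * (N : ℝ) ^ (θ / k - a * e) := by
      rw [← Real.rpow_add hN0]
      congr 1
      ring
    have h8 : 1 ≤ (N : ℝ) ^ (a * e) := Real.one_le_rpow h1 hae.le
    rw [e1]
    calc (2 * (N : ℝ) ^ (a * e) + 1) * (2 * c) ^ θ ≤ (3 * (N : ℝ) ^ (a * e)) * (2 * c) ^ θ := by
          apply mul_le_mul_of_nonneg_right _ hc2.le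
          linarith
      _ = (N : ℝ) ^ (a * e) * (3 * (2 * c) ^ θ) := by ring
      _ ≤ _ := mul_le_mul_of_nonneg_left h3 (by positivity)
  · have e1 : ((N : ℝ) ^ e / 2) ^ a = (N : ℝ) ^ (a * e) / 2 ^ a := by
      rw [div_pow, ← Real.rpow_natCast ((N : ℝ) ^ e), ← Real.rpow_mul hN0.le]
      congr 2
      ring
    have e2 : (N : ℝ) ^ (a * e) = (N : ℝ) ^ g * (N : ℝ) ^ (a * e - g) := by
      rw [← Real.rpow_add hN0]
      congr 1
      ring
    rw [e1, lt_div_iff₀ (by positivity), Real.mul_rpow (by norm_num) hN0.le, e2]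
    have hNg : 0 < (N : ℝ) ^ g := by positivity
    calc C * (2 ^ g * (N : ℝ) ^ g) * 2 ^ a = (N : ℝ) ^ g * (C * 2 ^ g * 2 ^ a) := by ring
      _ < (N : ℝ) ^ g * (N : ℝ) ^ (a * e - g) := by
          apply mul_lt_mul_of_pos_left _ hNg
          linarith
  · have e1 : ((N : ℝ) ^ δ) ^ (4 / δ) = (N : ℝ) ^ 4 := by
      rw [← Real.rpow_mul hN0.le, mul_div_cancel₀ _ hδ0.ne']
      norm_cast
    rw [e1] at h7
    have e2 : -(1 / (16 * c)) * (N : ℝ) ^ δ = -((N : ℝ) ^ δ / (16 * c)) := by ring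
    rw [e2] at h7
    set X := Real.exp (-((N : ℝ) ^ δ / (16 * c))) with hX
    have hX0 : 0 ≤ X := (Real.exp_pos _).le
    rw [le_div_iff₀ (by positivity)] at h7 ⊢
    have h8 : (N : ℝ) ^ 4 * X * (2 * a) ≤ 1 := h7
    have h9 : (N : ℝ) ^ 2 * (N + 1) ≤ (N : ℝ) ^ 4 * 2 := by
      have : (N : ℝ) + 1 ≤ 2 * N ^ 2 := by nlinarith
      calc (N : ℝ) ^ 2 * (N + 1) ≤ (N : ℝ) ^ 2 * (2 * N ^ 2) := by
            apply mul_le_mul_of_nonneg_left this (by positivity)
        _ = (N : ℝ) ^ 4 * 2 := by ring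
    calc a * ((N + 1) * X) * (N : ℝ) ^ 2 = ((N : ℝ) ^ 2 * (N + 1)) * (X * a) := by ring
      _ ≤ ((N : ℝ) ^ 4 * 2) * (X * a) := by
          apply mul_le_mul_of_nonneg_right h9 (by positivity)
      _ = (N : ℝ) ^ 4 * X * (2 * a) := by ring
      _ ≤ 1 := h8

/-- N is a sum of s k-th powers modulo m. -/
def Loc (k m s N : ℕ) : Prop := ∃ r : Fin s → ℕ, N ≡ ∑ l, r l ^ k [MOD m]

theorem main {Ω : Type*} [MeasurableSpace Ω] {P : Measure Ω} [IsProbabilityMeasure P]
    {U : ℕ → Ω → ℕ} (hU : iIndepFun U P) (hm : ∀ n, Measurable (U n)) {k m : ℕ} (hk : 2 ≤ k)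
    (hm1 : 1 ≤ m)
    {θ : ℝ} (hθ : θ ≤ k - 1) {j a : ℕ} (h1 : (k : ℝ) * (1 - 1 / (k : ℝ)) ^ j < θ)
    (h2 : (k : ℝ) * (1 - 1 / (k : ℝ)) ^ j < a)
    (hW : ∀ n, Unif P (U n) ⌊(n : ℝ) ^ θ⌋₊) :
    ∀ᵐ ω ∂P, ∀ᶠ N in atTop, Loc k m (j + a) N → Rep k m (j + a) (fun n => U n ω) N := by
  have hkr : (2 : ℝ) ≤ k := by exact_mod_cast hk
  have hk0 : (0 : ℝ) < k := by linarith
  have hmr : (1 : ℝ) ≤ m := by exact_mod_cast hm1
  set g : ℝ := (1 - 1 / (k : ℝ)) ^ j with hg
  have hbase : (0 : ℝ) < 1 - 1 / (k : ℝ) := by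
    rw [sub_pos, div_lt_one hk0]
    linarith
  have hbase1 : 1 - 1 / (k : ℝ) ≤ 1 := by
    have : 0 ≤ 1 / (k : ℝ) := by positivity
    linarith
  have hg0 : 0 < g := pow_pos hbase j
  have hg1 : g ≤ 1 := pow_le_one₀ hbase.le hbase1
  have har : (0 : ℝ) < a := lt_trans (by positivity) h2
  have ha : 1 ≤ a := by
    have : 0 < a := by exact_mod_cast har
    exact this
  have hθ0 : 0 < θ := lt_trans (by positivity) h1
  -- choose the exponent e
  obtain ⟨e, he1, he2⟩ : ∃ e, g / a < e ∧ e < min (θ / (a * k)) (1 / k) := by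
    apply exists_between
    apply lt_min
    · rw [div_lt_div_iff₀ har (by positivity)]
      nlinarith
    · rw [div_lt_div_iff₀ har hk0]
      linarith
  have he3 : e < θ / (a * k) := he2.trans_le (min_le_left _ _)
  have he4 : e < 1 / k := he2.trans_le (min_le_right _ _)
  have he5 : g < a * e := by
    rw [div_lt_iff₀ har] at he1
    linarith
  have he6 : a * e < θ / k := by
    rw [lt_div_iff₀ (by positivity)] at he3
    rw [lt_div_iff₀ hk0]
    linarith
  have he0 : 0 < e := lt_trans (by positivity) he1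
  obtain ⟨C, hC, hgr⟩ := greedy k m (a + 1) hk hm1 (by omega) j
  set Z : ℕ := j * (m * (a + 1) + 2 * m) ^ k with hZ
  set c : ℝ := 4 * a * (1 + m) * m * (a + 1) with hc
  have har1 : (1 : ℝ) ≤ a := by exact_mod_cast ha
  have hc1 : 1 ≤ c := by
    rw [hc]
    have e1 : (1 : ℝ) ≤ 4 * a := by linarith
    have e2 : (1 : ℝ) ≤ 4 * a * (1 + m) := by nlinarith
    have e3 : (1 : ℝ) ≤ 4 * a * (1 + m) * m := by nlinarith
    nlinarith
  set W : ℕ → ℕ := fun n => ⌊(n : ℝ) ^ θ⌋₊ with hWdef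
  have hWle : ∀ n, W n ≤ n ^ (k - 1) := by
    intro n
    rcases Nat.eq_zero_or_pos n with rfl | hn
    · simp only [hWdef, Nat.cast_zero]
      rw [Real.zero_rpow hθ0.ne']
      simp
    · apply Nat.floor_le_of_le
      have hn1 : (1 : ℝ) ≤ n := by exact_mod_cast hn
      calc (n : ℝ) ^ θ ≤ (n : ℝ) ^ ((k - 1 : ℕ) : ℝ) := by
            apply Real.rpow_le_rpow_of_exponent_le hn1
            rw [Nat.cast_sub (by omega)]
            simpa using hθ
        _ = ((n ^ (k - 1) : ℕ) : ℝ) := by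
            rw [Real.rpow_natCast]
            push_cast
            rfl
  set Full : Set Ω := {ω | ∀ n, U n ω ≤ n ^ (k - 1)} with hFull
  have hFullae : ∀ᵐ ω ∂P, ω ∈ Full := by
    rw [hFull]
    simp only [Set.mem_setOf_eq]
    rw [ae_all_iff]
    intro n
    have h3 := hW n (Finset.range (⌊(n : ℝ) ^ θ⌋₊ + 1)) subset_rfl
    have h3' : (((Finset.range (⌊(n : ℝ) ^ θ⌋₊ + 1)).card : ℕ) : ℝ) / (⌊(n : ℝ) ^ θ⌋₊ + 1) = 1 := by
      rw [Finset.card_range]
      push_cast
      exact div_self (by positivity)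
    rw [h3', ENNReal.ofReal_one] at h3
    have h4 : U n ⁻¹' ((Finset.range (⌊(n : ℝ) ^ θ⌋₊ + 1) : Finset ℕ) : Set ℕ) ∈ ae P :=
      (mem_ae_iff_prob_eq_one ((hm n) (by measurability))).2 h3
    filter_upwards [h4] with ω hω
    rw [Set.mem_preimage, Finset.mem_coe, Finset.mem_range] at hω
    exact (show U n ω ≤ W n from Nat.lt_succ_iff.1 hω).trans (hWle n)
  have hC' : 1 ≤ C * (1 + m) := by nlinarith
  have hpar := params (k := k) (a := a) hk ha (g := g) (θ := θ) (e := e) (C := C * (1 + m)) (c := c)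
    (Z := (Z : ℝ)) hg0.le he5 he6 he4 hC' hc1
  obtain ⟨N₀, hN₀⟩ := eventually_atTop.1 hpar
  -- the bound for one N
  have hone : ∀ N, N₀ ≤ N → Loc k m (j + a) N →
      P {ω | ω ∈ Full ∧ ¬ Rep k m (j + a) (fun n => U n ω) N} ≤
      ENNReal.ofReal (1 / (N : ℝ) ^ 2) := by
    rintro N hN ⟨res, hres⟩
    obtain ⟨p1, p2, p3, p4, p5, p6, p7⟩ := hN₀ N hN
    -- the residues
    set rg : ℕ → ℕ := fun l => if h : l < j then res (Fin.castAdd a ⟨l, h⟩) % m else 0 with hrgdef
    set rb : ℕ → ℕ := fun l => if h : l < a then res (Fin.natAdd j ⟨l, h⟩) % m else 0 with hrbdef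
    have hrg : ∀ l, rg l < m := by
      intro l
      simp only [hrgdef]
      split_ifs
      · exact Nat.mod_lt _ hm1
      · exact hm1
    have hrb : ∀ l, rb l < m := by
      intro l
      simp only [hrbdef]
      split_ifs
      · exact Nat.mod_lt _ hm1
      · exact hm1
    have hNres : N ≡ (∑ l ∈ Finset.range j, rg l ^ k) + ∑ l ∈ Finset.range a, rb l ^ k [MOD m] := by
      refine hres.trans ?_
      rw [Fin.sum_univ_add, Finset.sum_range, Finset.sum_range]
      apply Nat.ModEq.add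
      · apply Nat.ModEq.sum
        intro l _
        simp only [hrgdef, Fin.is_lt, dif_pos]
        exact ((Nat.mod_modEq _ _).pow k).symm
      · apply Nat.ModEq.sum
        intro l _
        simp only [hrbdef, Fin.is_lt, dif_pos]
        exact ((Nat.mod_modEq _ _).pow k).symm
    set x : ℝ := (N : ℝ) ^ (1 / (k : ℝ)) with hx
    set T : ℕ := ⌊x / c⌋₊ with hT
    set D : ℕ := ⌊(N : ℝ) ^ e⌋₊ with hD
    have hN0 : (0 : ℝ) < N := by linarith
    have hc0 : 0 < c := by linarith
    have hx0 : 0 < x := by positivity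
    have hD1 : 1 ≤ D := by
      rw [hD]
      exact Nat.le_floor (by simpa using p6)
    have hDle : (D : ℝ) ≤ (N : ℝ) ^ e := Nat.floor_le (by positivity)
    have hDge : (N : ℝ) ^ e / 2 ≤ D := by
      have := Nat.lt_floor_add_one ((N : ℝ) ^ e)
      rw [← hD] at this
      have h3 : (1 : ℝ) ≤ D := by exact_mod_cast hD1
      linarith
    have hTle : (T : ℝ) ≤ x / c := Nat.floor_le (by positivity)
    have hTge : x / (2 * c) ≤ T := by
      have h3 := Nat.lt_floor_add_one (x / c)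
      rw [← hT] at h3
      have h4 : 2 ≤ x / c := by rw [le_div_iff₀ hc0]; linarith
      have h5 : x / (2 * c) = (x / c) / 2 := by field_simp
      rw [h5]
      linarith
    have hDa : (D : ℝ) ^ a ≤ (N : ℝ) ^ (a * e) := by
      calc (D : ℝ) ^ a ≤ ((N : ℝ) ^ e) ^ a := pow_le_pow_left₀ (by positivity) hDle a
        _ = (N : ℝ) ^ (a * e) := by
            rw [← Real.rpow_natCast ((N : ℝ) ^ e), ← Real.rpow_mul hN0.le]
            congr 1
            ring
    set E : ℕ := (1 + m) * (2 * (m * (a + 1) * T)) ^ k with hE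
    -- E is small compared with N
    have hEN : (E : ℝ) * (2 * a) ≤ N := by
      have h3 : (2 * (m * (a + 1) * T) : ℝ) ≤ x / (2 * a * (1 + m)) := by
        calc (2 * (m * (a + 1) * T) : ℝ) ≤ 2 * (m * (a + 1) * (x / c)) := by gcongr
          _ = x / (2 * a * (1 + m)) := by rw [hc]; field_simp; ring
      have h4 : ((2 * (m * (a + 1) * T) : ℝ)) ^ k ≤ N / (2 * a * (1 + m)) := by
        calc ((2 * (m * (a + 1) * T) : ℝ)) ^ k ≤ (x / (2 * a * (1 + m))) ^ k :=
              pow_le_pow_left₀ (by positivity) h3 k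
          _ = x ^ k / (2 * a * (1 + m)) ^ k := div_pow _ _ _
          _ = N / (2 * a * (1 + m)) ^ k := by
              rw [hx, ← Real.rpow_natCast, ← Real.rpow_mul hN0.le, one_div, inv_mul_cancel₀ hk0.ne',
                Real.rpow_one]
          _ ≤ N / (2 * a * (1 + m)) := by
              apply div_le_div_of_nonneg_left hN0.le (by positivity)
              refine le_self_pow₀ ?_ (by omega)
              nlinarith
      rw [hE]
      push_cast
      calc (1 + (m : ℝ)) * (2 * (m * (a + 1) * (T : ℝ))) ^ k * (2 * a)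
            ≤ (1 + m) * (N / (2 * a * (1 + m))) * (2 * a) := by gcongr
        _ = N := by field_simp
    have hEN' : Z + a * E ≤ N := by
      have h3 : (Z : ℝ) + a * E ≤ N := by nlinarith
      exact_mod_cast h3
    have hch := chain hU hm W hW (k := k) (m := m) (a := a)
      (K := 2 * (m * (a + 1) * T) + N + m * D ^ a + 1) (j := j)
      (T := T) (rg := rg) (rb := rb) hm1 hrg hrb (by omega) (D := D) (Z := Z) (N := N) (E := E)
      hD1 Full (by
        intro ω hω z hz1 hz2 hzρ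
        have hDa1 : 1 ≤ D ^ a := Nat.one_le_pow _ _ hD1
        have hmDa : 1 ≤ m * D ^ a := Nat.mul_pos hm1 hDa1
        obtain ⟨f, hf1, hf2, hf3⟩ := hgr (fun n => U n ω) hω rg hrg (z + m * D ^ a - 1) (by omega)
        set S := ∑ l, val k m (fun n => U n ω) (m * (a + 1) * f l + rg l) with hS
        -- the residue of S
        have hSρ : S ≡ ∑ l ∈ Finset.range j, rg l ^ k [MOD m] := by
          rw [hS, Finset.sum_range]
          apply Nat.ModEq.sum
          intro l _
          unfold val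
          have e1 : (m * (a + 1) * f l + rg l) ^ k ≡ rg l ^ k [MOD m] := by
            apply Nat.ModEq.pow
            have : m * (a + 1) * f l + rg l = rg l + m * ((a + 1) * f l) := by ring
            rw [this]
            unfold Nat.ModEq
            rw [Nat.add_mul_mod_self_left]
          unfold Nat.ModEq at e1 ⊢
          rw [Nat.add_mul_mod_self_left]
          exact e1
        -- the remainder is smaller than D^a
        have hzS : z ≤ S := by
          have h3 : ((z + m * D ^ a - 1 : ℕ) : ℝ) ≤ (1 + m) * (2 * N) := by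
            have h4 : ((z + m * D ^ a - 1 : ℕ) : ℝ) ≤ (z : ℝ) + m * (D : ℝ) ^ a := by
              have : z + m * D ^ a - 1 ≤ z + m * D ^ a := Nat.sub_le _ _
              exact_mod_cast this
            have h5 : (D : ℝ) ^ a ≤ N := by
              calc (D : ℝ) ^ a ≤ (N : ℝ) ^ (a * e) := hDa
                _ ≤ (N : ℝ) ^ (1 : ℝ) := by
                    apply Real.rpow_le_rpow_of_exponent_le p1
                    have h6 : θ / k ≤ 1 := by
                      rw [div_le_one hk0]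
                      linarith
                    linarith
                _ = N := Real.rpow_one _
            have h6 : (z : ℝ) ≤ N := by exact_mod_cast hz2
            nlinarith
          have h4 : ((z + m * D ^ a - 1 : ℕ) : ℝ) ^ g ≤ (1 + m) * (2 * N : ℝ) ^ g := by
            calc ((z + m * D ^ a - 1 : ℕ) : ℝ) ^ g ≤ ((1 + m) * (2 * N)) ^ g :=
                  Real.rpow_le_rpow (by positivity) h3 hg0.le
              _ = (1 + m : ℝ) ^ g * (2 * N : ℝ) ^ g := Real.mul_rpow (by positivity) (by positivity)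
              _ ≤ (1 + m : ℝ) ^ (1 : ℝ) * (2 * N : ℝ) ^ g := by
                  apply mul_le_mul_of_nonneg_right _ (by positivity)
                  exact Real.rpow_le_rpow_of_exponent_le (by linarith) hg1
              _ = _ := by rw [Real.rpow_one]
          have h5 : ((N : ℝ) ^ e / 2) ^ a ≤ (D : ℝ) ^ a := pow_le_pow_left₀ (by positivity) hDge a
          have h6 : ((z + m * D ^ a - 1 : ℕ) : ℝ) - S < (D : ℝ) ^ a := by
            calc ((z + m * D ^ a - 1 : ℕ) : ℝ) - S ≤ C * ((z + m * D ^ a - 1 : ℕ) : ℝ) ^ g := hf3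
              _ ≤ C * ((1 + m) * (2 * N : ℝ) ^ g) := mul_le_mul_of_nonneg_left h4 (by linarith)
              _ = C * (1 + m) * (2 * N : ℝ) ^ g := by ring
              _ < ((N : ℝ) ^ e / 2) ^ a := p4
              _ ≤ (D : ℝ) ^ a := h5
          have h7 : z + m * D ^ a - 1 < S + D ^ a := by
            have : ((z + m * D ^ a - 1 : ℕ) : ℝ) < ((S + D ^ a : ℕ) : ℝ) := by
              push_cast
              push_cast at h6
              linarith
            exact_mod_cast this
          have h8 : D ^ a ≤ m * D ^ a := Nat.le_mul_of_pos_left _ hm1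
          omega
        obtain ⟨w, hw⟩ := (Nat.modEq_iff_dvd' hzS).1 (hzρ.trans hSρ.symm)
        have hSw : S = z + m * w := by omega
        refine ⟨w, ?_, ⟨f, fun l => ⟨(hf1 l).1, ?_⟩, ?_⟩⟩
        · have h3 : m * w < m * D ^ a := by omega
          exact Nat.lt_of_mul_lt_mul_left h3
        · have := (hf1 l).2
          omega
        · rw [← hSw]) (by
        intro n hn
        rw [hWdef]
        apply Nat.le_floor
        have h3 : (m * (a + 1) * T : ℝ) ≤ n := by exact_mod_cast hn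
        have h4 : x / (2 * c) ≤ (n : ℝ) := by
          calc x / (2 * c) ≤ T := hTge
            _ ≤ m * (a + 1) * T := by
                have e1 : (1 : ℝ) ≤ m * (a + 1) := by nlinarith
                nlinarith [show (0:ℝ) ≤ T from Nat.cast_nonneg T]
            _ ≤ n := h3
        have h5 : (N : ℝ) ^ (θ / k) / (2 * c) ^ θ ≤ (n : ℝ) ^ θ := by
          have h6 : (x / (2 * c)) ^ θ ≤ (n : ℝ) ^ θ := Real.rpow_le_rpow (by positivity) h4 hθ0.le
          rw [Real.div_rpow hx0.le (by positivity), hx, ← Real.rpow_mul hN0.le] at h6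
          have e1 : 1 / (k : ℝ) * θ = θ / k := by ring
          rw [e1] at h6
          exact h6
        push_cast
        linarith) (by
        intro n hn
        have h3 : n ^ k ≤ (2 * (m * (a + 1) * T)) ^ k := Nat.pow_le_pow_left hn.le _
        have h4 : W n ≤ (2 * (m * (a + 1) * T)) ^ k := by
          refine (hWle n).trans ?_
          rcases Nat.eq_zero_or_pos n with rfl | hn0
          · rw [zero_pow (by omega)]
            exact Nat.zero_le _
          · calc n ^ (k - 1) ≤ n ^ k := Nat.pow_le_pow_right hn0 (by omega)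
              _ ≤ _ := h3
        have h5 : m * W n ≤ m * (2 * (m * (a + 1) * T)) ^ k := Nat.mul_le_mul_left _ h4
        have e1 : (1 + m) * (2 * (m * (a + 1) * T)) ^ k =
          (2 * (m * (a + 1) * T)) ^ k + m * (2 * (m * (a + 1) * T)) ^ k := by ring
        rw [hE, e1]
        omega) hEN' hNres
    refine hch.trans (ENNReal.ofReal_le_ofReal ?_)
    refine le_trans ?_ p7
    apply mul_le_mul_of_nonneg_left _ (by positivity)
    apply mul_le_mul_of_nonneg_left _ (by positivity)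
    apply Real.exp_le_exp.2
    have h3 : (N : ℝ) ^ (1 / (k : ℝ) - e) = x / (N : ℝ) ^ e := by
      rw [Real.rpow_sub hN0]
    rw [h3, neg_div, neg_le_neg_iff, div_div]
    rw [div_le_div_iff₀ (by positivity) (by have : (1 : ℝ) ≤ D := by exact_mod_cast hD1
                                            positivity)]
    have h4 : x ≤ 2 * c * T := by
      rw [div_le_iff₀ (by positivity)] at hTge
      linarith
    calc x * (8 * (D : ℝ)) ≤ (2 * c * T) * (8 * (N : ℝ) ^ e) := by gcongr
      _ = T * ((N : ℝ) ^ e * (16 * c)) := by ring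
  -- Borel–Cantelli
  classical
  set s : ℕ → Set Ω := fun N => if N₀ ≤ N ∧ Loc k m (j + a) N then
    {ω | ω ∈ Full ∧ ¬ Rep k m (j + a) (fun n => U n ω) N} else ∅ with hs
  have hsum : ∑' N, P (s N) ≠ ⊤ := by
    have h3 : ∀ N, P (s N) ≤ ENNReal.ofReal (1 / (N : ℝ) ^ 2) := by
      intro N
      simp only [hs]
      split_ifs with h
      · exact hone N h.1 h.2
      · simp
    refine ne_top_of_le_ne_top ?_ (ENNReal.tsum_le_tsum h3)
    have h4 : Summable (fun N : ℕ => 1 / (N : ℝ) ^ 2) := Real.summable_one_div_nat_pow.2 (by norm_num)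
    rw [← ENNReal.ofReal_tsum_of_nonneg (fun n => by positivity) h4]
    exact ENNReal.ofReal_ne_top
  filter_upwards [ae_eventually_notMem hsum, hFullae] with ω h3 h4
  filter_upwards [h3, eventually_ge_atTop N₀] with N h5 h6 h7
  simp only [hs, if_pos (And.intro h6 h7), Set.mem_setOf_eq, not_and, not_not] at h5
  exact h5 h4

end Pool.Agent.TH882.WM
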