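import Pool.Agent.TH882.WM4

/-! Perturbed k-th powers: the product measure, the equivalence with congruences, the counting
argument for at most k terms, and the choice of the parameters. -/

set_option autoImplicit false

namespace Pool.Agent.TH882.WM

open MeasureTheory ProbabilityTheory Filter

/-- uniform probability measure on {0, 1, …, ⌊n^θ⌋}. -/
noncomputable def law (θ : ℝ) (n : ℕ) : Measure ℕ :=
  (PMF.uniformOfFinset (Finset.range (⌊(n : ℝ) ^ θ⌋₊ + 1)) (by simp)).toMeasure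

instance (θ : ℝ) (n : ℕ) : IsProbabilityMeasure (law θ n) := by
  unfold law
  infer_instance

/-- product of the uniform measures. -/
noncomputable def pert (θ : ℝ) : Measure (ℕ → ℕ) := Measure.infinitePi (law θ)

instance (θ : ℝ) : IsProbabilityMeasure (pert θ) := by
  unfold pert
  infer_instance

lemma unif_pert (θ : ℝ) (n : ℕ) : Unif (pert θ) (fun u => u n) ⌊(n : ℝ) ^ θ⌋₊ := by
  classical
  intro S hS
  have h1 : (pert θ).map (fun u => u n) = law θ n := Measure.infinitePi_map_eval (law θ) n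
  rw [← Measure.map_apply (measurable_pi_apply n) (by measurability), h1]
  unfold law
  rw [PMF.toMeasure_uniformOfFinset_apply (ht := by measurability), Finset.card_range]
  have h2 : ∀ inst : DecidablePred (fun x => x ∈ (S : Set ℕ)),
      @Finset.filter _ (fun x => x ∈ (S : Set ℕ)) inst (Finset.range (⌊(n : ℝ) ^ θ⌋₊ + 1)) = S := by
    intro inst
    ext x
    simp only [Finset.mem_filter, Finset.mem_coe]
    exact ⟨fun h => h.2, fun h => ⟨hS h, h⟩⟩
  rw [h2, ENNReal.ofReal_div_of_pos (by positivity), ENNReal.ofReal_natCast]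
  congr 1
  rw [show ((⌊(n : ℝ) ^ θ⌋₊ : ℝ) + 1) = ((⌊(n : ℝ) ^ θ⌋₊ + 1 : ℕ) : ℝ) by push_cast; ring,
    ENNReal.ofReal_natCast]

lemma loc_of_rep {k m s N : ℕ} {u : ℕ → ℕ} (h : Rep k m s u N) : Loc k m s N := by
  obtain ⟨f, -, rfl⟩ := h
  refine ⟨f, ?_⟩
  apply Nat.ModEq.sum
  intro l _
  unfold Nat.ModEq
  rw [Nat.add_mul_mod_self_left]

theorem main_pert {k m : ℕ} (hk : 2 ≤ k) (hm1 : 1 ≤ m) {θ : ℝ} (hθ : θ ≤ k - 1) {j a : ℕ}
    (h1 : (k : ℝ) * (1 - 1 / (k : ℝ)) ^ j < θ) (h2 : (k : ℝ) * (1 - 1 / (k : ℝ)) ^ j < a) :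
    ∀ᵐ u ∂(pert θ), ∀ᶠ N in atTop, (Rep k m (j + a) u N ↔ Loc k m (j + a) N) := by
  have hind : iIndepFun (fun (n : ℕ) (u : ℕ → ℕ) => u n) (pert θ) :=
    iIndepFun_infinitePi (P := law θ) (X := fun _ x => x) (fun _ => measurable_id)
  have h3 := main hind (fun n => measurable_pi_apply n) hk hm1 hθ h1 h2 (unif_pert θ)
  filter_upwards [h3] with u hu
  filter_upwards [hu] with N hN
  exact ⟨loc_of_rep, hN⟩

/-- the form with a range of numbers of summands. -/
theorem main_range {k m s₀ j : ℕ} (hk : 2 ≤ k) (hm1 : 1 ≤ m) {θ : ℝ} (hθ : θ ≤ k - 1)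
    (h1 : (k : ℝ) * (1 - 1 / (k : ℝ)) ^ j < θ) (h2 : (k : ℝ) * (1 - 1 / (k : ℝ)) ^ j < (s₀ : ℝ) - j) :
    ∀ᵐ u ∂(pert θ), ∀ s, s₀ ≤ s → ∀ᶠ N in atTop, (Rep k m s u N ↔ Loc k m s N) := by
  rw [ae_all_iff]
  intro s
  by_cases hs : s₀ ≤ s
  · have hsr : (s₀ : ℝ) ≤ s := by exact_mod_cast hs
    have hpos : 0 < (k : ℝ) * (1 - 1 / (k : ℝ)) ^ j := by
      have hkr : (2 : ℝ) ≤ k := by exact_mod_cast hk
      have : (0 : ℝ) < 1 - 1 / (k : ℝ) := by
        rw [sub_pos, div_lt_one (by linarith)]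
        linarith
      positivity
    have hjs : j ≤ s := by
      have : (j : ℝ) ≤ s := by linarith
      exact_mod_cast this
    have h3 : (k : ℝ) * (1 - 1 / (k : ℝ)) ^ j < ((s - j : ℕ) : ℝ) := by
      rw [Nat.cast_sub hjs]
      linarith
    have h4 := main_pert hk hm1 hθ h1 h3
    have h5 : j + (s - j) = s := by omega
    rw [h5] at h4
    filter_upwards [h4] with u hu _
    exact hu
  · exact Eventually.of_forall fun u h => absurd h hs

/-- at most k terms never suffice. -/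
theorem few_terms {k m : ℕ} (hk : 2 ≤ k) (u : ℕ → ℕ) {s : ℕ} (hs : s ≤ k) :
    ∃ᶠ N in atTop, ¬ Rep k m s u N := by
  classical
  by_contra hcon
  rw [not_frequently] at hcon
  simp only [not_not] at hcon
  obtain ⟨N₀, hN₀⟩ := eventually_atTop.1 hcon
  -- weights
  set v : ℕ → ℕ := fun n => if n = 0 then 0 else n ^ k + m * u n with hv
  have hcount : ∀ M : ℕ, M ^ k ≤ N₀ + (M + k).choose k := by
    intro M
    -- multisets of size k of {0,…,M}
    set V : Sym (Fin (M + 1)) k → ℕ := fun σ => (σ.1.map (fun x : Fin (M + 1) => v (x : ℕ))).sum with hV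
    have hsub : Finset.Ico N₀ (M ^ k) ⊆ Finset.univ.image V := by
      intro N hN
      rw [Finset.mem_Ico] at hN
      obtain ⟨f, hf1, hf2⟩ := hN₀ N hN.1
      have hfM : ∀ l, f l < M + 1 := by
        intro l
        have h1 : f l ^ k ≤ N := by
          rw [hf2]
          refine le_trans ?_ (Finset.single_le_sum (f := fun l => f l ^ k + m * u (f l))
            (fun _ _ => Nat.zero_le _) (Finset.mem_univ l))
          show f l ^ k ≤ f l ^ k + m * u (f l)
          omega
        have h2 : f l ^ k < M ^ k := lt_of_le_of_lt h1 hN.2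
        have := lt_of_pow_lt_pow_left₀ k (Nat.zero_le _) h2
        omega
      rw [Finset.mem_image]
      set A : Multiset (Fin (M + 1)) := (Finset.univ : Finset (Fin s)).val.map (fun l => ⟨f l, hfM l⟩) with hA
      have hAc : A.card = s := by
        rw [hA, Multiset.card_map, Finset.card_val, Finset.card_univ, Fintype.card_fin]
      refine ⟨⟨A + Multiset.replicate (k - s) 0, ?_⟩, Finset.mem_univ _, ?_⟩
      · rw [Multiset.card_add, hAc, Multiset.card_replicate]
        omega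
      · have hVB : ∀ (B : Multiset (Fin (M + 1))) (h : B.card = k),
            V ⟨B, h⟩ = (B.map (fun x : Fin (M + 1) => v (x : ℕ))).sum := fun B h => rfl
        rw [hVB, Multiset.map_add, Multiset.sum_add, Multiset.map_replicate, Multiset.sum_replicate]
        have h0 : v ((0 : Fin (M + 1)) : ℕ) = 0 := by simp [hv]
        rw [h0, smul_zero, add_zero, hA, Multiset.map_map, hf2]
        show (Finset.univ : Finset (Fin s)).sum (fun l => v (f l)) = _
        refine Finset.sum_congr rfl fun l _ => ?_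
        simp only [hv]
        rw [if_neg (by have := hf1 l; omega)]
    have h1 := Finset.card_le_card hsub
    rw [Nat.card_Ico] at h1
    have h2 : (Finset.univ.image V).card ≤ (M + k).choose k := by
      refine Finset.card_image_le.trans ?_
      rw [Finset.card_univ, Sym.card_sym_eq_choose, Fintype.card_fin]
      have : M + 1 + k - 1 = M + k := by omega
      rw [this]
    omega
  -- growth contradiction: take M large
  have h2 : ∀ M : ℕ, 1 ≤ M → (2 : ℝ) * M ^ k ≤ 2 * N₀ + (M + k : ℝ) ^ k := by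
    intro M _
    have h3 := hcount M
    have h4 : ((M + k).choose k : ℝ) ≤ ((M + k : ℕ) : ℝ) ^ k / (k.factorial : ℝ) :=
      Nat.choose_le_pow_div k (M + k)
    have h5 : (2 : ℝ) ≤ (k.factorial : ℝ) := by
      have : 2 ≤ k.factorial := le_trans (by simp) (Nat.factorial_le hk)
      exact_mod_cast this
    have h6 : ((M + k : ℕ) : ℝ) ^ k / (k.factorial : ℝ) ≤ ((M + k : ℕ) : ℝ) ^ k / 2 :=
      div_le_div_of_nonneg_left (by positivity) (by norm_num) h5
    have h7 : (M : ℝ) ^ k ≤ N₀ + ((M + k).choose k : ℝ) := by exact_mod_cast h3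
    push_cast at h4 h6
    linarith
  have h3 : ∀ᶠ M : ℕ in atTop, (1 + (k : ℝ) / M) ^ k < 3 / 2 := by
    have h4 : Tendsto (fun M : ℕ => (1 + (k : ℝ) / M) ^ k) atTop (nhds ((1 + 0) ^ k)) :=
      (tendsto_const_nhds.add (tendsto_const_div_atTop_nhds_zero_nat (k : ℝ))).pow k
    rw [add_zero, one_pow] at h4
    exact h4.eventually_lt_const (by norm_num)
  obtain ⟨M, hM1, hM2⟩ := (h3.and (eventually_ge_atTop (4 * N₀ + 1))).exists
  have hM0 : 1 ≤ M := by omega
  have hMr : (0 : ℝ) < M := by exact_mod_cast hM0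
  have h4 := h2 M hM0
  have h5 : ((M : ℝ) + k) ^ k = M ^ k * (1 + (k : ℝ) / M) ^ k := by
    rw [← mul_pow]
    congr 1
    field_simp
  rw [h5] at h4
  have h6 : (M : ℝ) ^ k * (1 + (k : ℝ) / M) ^ k ≤ M ^ k * (3 / 2) :=
    mul_le_mul_of_nonneg_left hM1.le (by positivity)
  have h7 : (4 * N₀ + 1 : ℝ) ≤ M := by exact_mod_cast hM2
  have h8 : (M : ℝ) ≤ M ^ k := le_self_pow₀ (by linarith [show (0:ℝ) ≤ N₀ from Nat.cast_nonneg _]) (by omega)
  linarith

/-- the near-gap range: k (1 - 1/k)^j < k + 1 - j when j (j - 1) < 2 k. -/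
lemma near_gap {k : ℕ} (hk : 2 ≤ k) {j : ℕ} (hj : j * (j - 1) < 2 * k) :
    (k : ℝ) * (1 - 1 / (k : ℝ)) ^ j < (k : ℝ) + 1 - j := by
  have hkr : (2 : ℝ) ≤ k := by exact_mod_cast hk
  have hk0 : (0 : ℝ) < k := by linarith
  have hx0 : (0 : ℝ) ≤ 1 / (k : ℝ) := by positivity
  have hx1 : 1 / (k : ℝ) ≤ 1 := by rw [div_le_one hk0]; linarith
  have key : ∀ i : ℕ, (1 - 1 / (k : ℝ)) ^ i ≤ 1 - i * (1 / (k : ℝ)) + i * (i - 1) / 2 * (1 / (k : ℝ)) ^ 2 := by
    intro i
    induction i with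
    | zero => simp
    | succ i ih =>
      set x := 1 / (k : ℝ) with hx
      have h1 : (1 - x) ^ (i + 1) ≤ (1 - x) * (1 - i * x + i * (i - 1) / 2 * x ^ 2) := by
        rw [pow_succ, mul_comm]
        exact mul_le_mul_of_nonneg_left ih (by linarith)
      have h2 : (0 : ℝ) ≤ i * (i - 1) / 2 * x ^ 3 := by
        have : (0 : ℝ) ≤ i * (i - 1) := by
          rcases Nat.eq_zero_or_pos i with rfl | hi
          · simp
          · have : (1 : ℝ) ≤ i := by exact_mod_cast hi
            nlinarith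
        positivity
      push_cast
      nlinarith
  have h1 := key j
  have h2 : (k : ℝ) * (1 - 1 / (k : ℝ)) ^ j ≤ k * (1 - j * (1 / (k : ℝ)) + j * (j - 1) / 2 * (1 / (k : ℝ)) ^ 2) :=
    mul_le_mul_of_nonneg_left h1 hk0.le
  have h3 : (k : ℝ) * (1 - j * (1 / (k : ℝ)) + j * (j - 1) / 2 * (1 / (k : ℝ)) ^ 2) =
      k - j + j * (j - 1) / (2 * k) := by
    field_simp
  rw [h3] at h2
  have h4 : (j : ℝ) * (j - 1) / (2 * k) < 1 := by
    rw [div_lt_one (by positivity)]
    rcases Nat.eq_zero_or_pos j with rfl | hj0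
    · simp; positivity
    · have h5 : ((j * (j - 1) : ℕ) : ℝ) < ((2 * k : ℕ) : ℝ) := by exact_mod_cast hj
      rw [Nat.cast_mul, Nat.cast_sub hj0] at h5
      push_cast at h5
      exact h5
  linarith

lemma exp_bound {k : ℕ} (hk : 2 ≤ k) (j : ℕ) :
    (1 - 1 / (k : ℝ)) ^ j ≤ Real.exp (-((j : ℝ) / k)) := by
  have hkr : (2 : ℝ) ≤ k := by exact_mod_cast hk
  have hk0 : (0 : ℝ) < k := by linarith
  have h1 : 1 - 1 / (k : ℝ) ≤ Real.exp (-(1 / (k : ℝ))) := Real.one_sub_le_exp_neg _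
  have h0 : (0 : ℝ) ≤ 1 - 1 / (k : ℝ) := by
    rw [sub_nonneg, div_le_one hk0]
    linarith
  calc (1 - 1 / (k : ℝ)) ^ j ≤ Real.exp (-(1 / (k : ℝ))) ^ j := pow_le_pow_left₀ h0 h1 j
    _ = Real.exp (-((j : ℝ) / k)) := by
        rw [← Real.exp_nat_mul]
        congr 1
        ring

end Pool.Agent.TH882.WM
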