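import Pool.Agent.TH882.WM4

/-! Sums of k-th powers modulo m: 4 k suffice for all m, and 2 k + 1 if k is not a power of two
greater than two. -/

set_option autoImplicit false

namespace Pool.Agent.TH882.WM

/-- x is a sum of s k-th powers in the ring. -/
def RS {R : Type*} [CommRing R] (k s : ℕ) (x : R) : Prop := ∃ f : Fin s → R, x = ∑ l, f l ^ k

lemma RS.mono {R : Type*} [CommRing R] {k s t : ℕ} (hk : 1 ≤ k) (hst : s ≤ t) {x : R}
    (h : RS k s x) : RS k t x := by
  obtain ⟨i, rfl⟩ := Nat.exists_eq_add_of_le hst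
  obtain ⟨f, rfl⟩ := h
  refine ⟨Fin.append f (fun _ => 0), ?_⟩
  rw [Fin.sum_univ_add]
  simp [Fin.append_left, Fin.append_right, zero_pow (show k ≠ 0 by omega)]

lemma RS.add {R : Type*} [CommRing R] {k s t : ℕ} {x y : R} (h : RS k s x) (h' : RS k t y) :
    RS k (s + t) (x + y) := by
  obtain ⟨f, rfl⟩ := h
  obtain ⟨f', rfl⟩ := h'
  refine ⟨Fin.append f f', ?_⟩
  rw [Fin.sum_univ_add]
  simp [Fin.append_left, Fin.append_right]

lemma RS.mul_pow {R : Type*} [CommRing R] {k s : ℕ} {x : R} (h : RS k s x) (u : R) :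
    RS k s (x * u ^ k) := by
  obtain ⟨f, rfl⟩ := h
  refine ⟨fun l => f l * u, ?_⟩
  rw [Finset.sum_mul]
  exact Finset.sum_congr rfl fun l _ => (_root_.mul_pow _ _ _).symm

lemma RS.one {R : Type*} [CommRing R] (k : ℕ) : RS k 1 (1 : R) := ⟨fun _ => 1, by simp⟩

lemma units_growth {p h k : ℕ} (hp : p.Prime) (hh : 0 < h) (hk : 1 ≤ k) {n : ℕ} (hn : 1 ≤ n)
    (hne : ∃ u : (ZMod (p ^ h))ˣ, ¬ RS k n (u : ZMod (p ^ h))) :
    ∃ u : (ZMod (p ^ h))ˣ, ¬ RS k n (u : ZMod (p ^ h)) ∧ RS k (n + 2) (u : ZMod (p ^ h)) := by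
  classical
  have hq : 1 < p ^ h := Nat.one_lt_pow (by omega) hp.one_lt
  haveI : NeZero (p ^ h) := ⟨by omega⟩
  haveI : Fact (1 < p ^ h) := ⟨hq⟩
  have hunit : ∀ x : ℕ, IsUnit (x : ZMod (p ^ h)) ↔ ¬ p ∣ x := by
    intro x
    rw [ZMod.isUnit_iff_coprime, Nat.coprime_pow_right_iff hh, Nat.coprime_comm,
      hp.coprime_iff_not_dvd]
  have hex : ∃ x : ℕ, IsUnit (x : ZMod (p ^ h)) ∧ ¬ RS k n (x : ZMod (p ^ h)) := by
    obtain ⟨u, hu⟩ := hne
    refine ⟨(u : ZMod (p ^ h)).val, ?_, ?_⟩
    · rw [ZMod.natCast_zmod_val]; exact u.isUnit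
    · rw [ZMod.natCast_zmod_val]; exact hu
  obtain ⟨hx1, hx2⟩ := Nat.find_spec hex
  set x := Nat.find hex with hx
  have hmin : ∀ y, y < x → IsUnit (y : ZMod (p ^ h)) → RS k n (y : ZMod (p ^ h)) := by
    intro y hy hyu
    by_contra hcon
    exact Nat.find_min hex hy ⟨hyu, hcon⟩
  have h0 : x ≠ 0 := by
    intro h0
    rw [h0] at hx1
    simp at hx1
  have h1 : x ≠ 1 := by
    intro h1
    apply hx2
    rw [h1, Nat.cast_one]
    exact (RS.one k).mono hk hn
  have hone2 : RS k 2 (1 : ZMod (p ^ h)) := (RS.one k).mono hk (by norm_num)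
  refine ⟨hx1.unit, hx2, ?_⟩
  rw [IsUnit.unit_spec]
  by_cases hu1 : IsUnit ((x - 1 : ℕ) : ZMod (p ^ h))
  · have h3 := (hmin (x - 1) (by omega) hu1).add hone2
    have h4 : ((x - 1 : ℕ) : ZMod (p ^ h)) + 1 = (x : ZMod (p ^ h)) := by
      rw [Nat.cast_sub (by omega)]
      push_cast
      ring
    rw [h4] at h3
    exact h3
  · rw [hunit, not_not] at hu1
    have h3 : x ≠ 2 := by
      intro h2
      rw [h2] at hu1
      have := Nat.le_of_dvd (by norm_num) hu1
      have := hp.two_le
      omega
    have hu2 : IsUnit ((x - 2 : ℕ) : ZMod (p ^ h)) := by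
      rw [hunit]
      intro hd
      have h4 : p ∣ (x - 1) - (x - 2) := Nat.dvd_sub hu1 hd
      have h5 : (x - 1) - (x - 2) = 1 := by omega
      rw [h5] at h4
      exact hp.one_lt.ne' (Nat.dvd_one.1 h4)
    have h4 := ((hmin (x - 2) (by omega) hu2).add (RS.one k)).add (RS.one k)
    have h5 : ((x - 2 : ℕ) : ZMod (p ^ h)) + 1 + 1 = (x : ZMod (p ^ h)) := by
      rw [Nat.cast_sub (by omega)]
      push_cast
      ring
    rw [h5] at h4
    exact h4

/-- if x^k = 1 has at most d solutions among the units mod p^h then 2 d k-th powers suffice. -/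
lemma rs_prime_pow {p h k d : ℕ} (hp : p.Prime) (hh : 0 < h) (hk : 1 ≤ k)
    (hd : ∀ S : Finset (ZMod (p ^ h))ˣ, (∀ z ∈ S, z ^ k = 1) → S.card ≤ d) (x : ZMod (p ^ h)) :
    RS k (2 * d) x := by
  classical
  have hq : 1 < p ^ h := Nat.one_lt_pow (by omega) hp.one_lt
  haveI : NeZero (p ^ h) := ⟨by omega⟩
  haveI : Fact (1 < p ^ h) := ⟨hq⟩
  have hd1 : 1 ≤ d := by simpa using hd {1} (by simp)
  set H : Finset (ZMod (p ^ h))ˣ := Finset.univ.image (fun z => z ^ k) with hH
  have hUH : (Finset.univ : Finset (ZMod (p ^ h))ˣ).card ≤ d * H.card := by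
    apply Finset.card_le_mul_card_image
    intro y hy
    rw [Finset.mem_image] at hy
    obtain ⟨z0, -, rfl⟩ := hy
    rw [← Finset.card_image_of_injective (f := fun z => z * z0⁻¹) _ (mul_left_injective _)]
    apply hd
    intro z hz
    rw [Finset.mem_image] at hz
    obtain ⟨w, hw, rfl⟩ := hz
    rw [Finset.mem_filter] at hw
    rw [_root_.mul_pow, hw.2, inv_pow, mul_inv_cancel]
  set A : ℕ → Finset (ZMod (p ^ h))ˣ := fun n =>
    Finset.univ.filter (fun u => RS k n (u : ZMod (p ^ h))) with hA
  have hgrow : ∀ i : ℕ, A (2 * i + 1) = Finset.univ ∨ (i + 1) * H.card ≤ (A (2 * i + 1)).card := by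
    intro i
    induction i with
    | zero =>
      right
      rw [zero_add, one_mul]
      apply Finset.card_le_card
      intro y hy
      rw [hH, Finset.mem_image] at hy
      obtain ⟨z, -, rfl⟩ := hy
      simp only [hA, Finset.mem_filter, Finset.mem_univ, true_and]
      refine ⟨fun _ => z, ?_⟩
      simp
    | succ i ih =>
      have hmono : A (2 * i + 1) ⊆ A (2 * (i + 1) + 1) := by
        intro u hu
        simp only [hA, Finset.mem_filter, Finset.mem_univ, true_and] at hu ⊢
        exact hu.mono hk (by omega)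
      rcases ih with ih | ih
      · left
        exact Finset.eq_univ_of_forall fun u => hmono (by rw [ih]; exact Finset.mem_univ u)
      · by_cases hne : ∃ u : (ZMod (p ^ h))ˣ, ¬ RS k (2 * i + 1) (u : ZMod (p ^ h))
        · right
          obtain ⟨u, hu1, hu2⟩ := units_growth hp hh hk (n := 2 * i + 1) (by omega) hne
          set C : Finset (ZMod (p ^ h))ˣ := H.image (fun z => u * z) with hC
          have hCc : C.card = H.card := Finset.card_image_of_injective _ (mul_right_injective u)
          have hCA : C ⊆ A (2 * (i + 1) + 1) := by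
            intro y hy
            rw [hC, Finset.mem_image] at hy
            obtain ⟨z, hz, rfl⟩ := hy
            rw [hH, Finset.mem_image] at hz
            obtain ⟨w, -, rfl⟩ := hz
            simp only [hA, Finset.mem_filter, Finset.mem_univ, true_and, Units.val_mul, Units.val_pow_eq_pow_val]
            exact hu2.mul_pow _
          have hdis : Disjoint (A (2 * i + 1)) C := by
            rw [Finset.disjoint_left]
            intro y hy hy'
            rw [hC, Finset.mem_image] at hy'
            obtain ⟨z, hz, rfl⟩ := hy'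
            rw [hH, Finset.mem_image] at hz
            obtain ⟨w, -, rfl⟩ := hz
            simp only [hA, Finset.mem_filter, Finset.mem_univ, true_and, Units.val_mul, Units.val_pow_eq_pow_val] at hy
            apply hu1
            have h1 := hy.mul_pow (((w⁻¹ : (ZMod (p ^ h))ˣ)) : ZMod (p ^ h))
            rw [mul_assoc, ← _root_.mul_pow, Units.mul_inv, one_pow, mul_one] at h1
            exact h1
          have h2 : (A (2 * i + 1) ∪ C).card ≤ (A (2 * (i + 1) + 1)).card :=
            Finset.card_le_card (Finset.union_subset hmono hCA)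
          rw [Finset.card_union_of_disjoint hdis, hCc] at h2
          have e1 : (i + 1 + 1) * H.card = (i + 1) * H.card + H.card := by ring
          omega
        · left
          push Not at hne
          apply Finset.eq_univ_of_forall
          intro u
          apply hmono
          simp only [hA, Finset.mem_filter, Finset.mem_univ, true_and]
          exact hne u
  have hall : ∀ u : (ZMod (p ^ h))ˣ, RS k (2 * d - 1) (u : ZMod (p ^ h)) := by
    have hA' : A (2 * (d - 1) + 1) = Finset.univ := by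
      rcases hgrow (d - 1) with h1 | h1
      · exact h1
      · apply Finset.eq_of_subset_of_card_le (Finset.subset_univ _)
        have e1 : d - 1 + 1 = d := by omega
        rw [e1] at h1
        omega
    intro u
    have h1 : u ∈ A (2 * (d - 1) + 1) := by rw [hA']; exact Finset.mem_univ u
    simp only [hA, Finset.mem_filter, Finset.mem_univ, true_and] at h1
    have e1 : 2 * (d - 1) + 1 = 2 * d - 1 := by omega
    rw [e1] at h1
    exact h1
  have hunit : ∀ x : ℕ, IsUnit (x : ZMod (p ^ h)) ↔ ¬ p ∣ x := by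
    intro x
    rw [ZMod.isUnit_iff_coprime, Nat.coprime_pow_right_iff hh, Nat.coprime_comm,
      hp.coprime_iff_not_dvd]
  by_cases hx : IsUnit x
  · have h1 := hall hx.unit
    rw [IsUnit.unit_spec] at h1
    exact h1.mono hk (by omega)
  · -- x - 1 is a unit
    have h1 : IsUnit (x - 1) := by
      have h2 : x = ((x.val : ℕ) : ZMod (p ^ h)) := (ZMod.natCast_zmod_val x).symm
      have h3 : p ∣ x.val := by
        rw [h2, hunit, not_not] at hx
        exact hx
      have h4 : x - 1 = ((x.val + (p ^ h - 1) : ℕ) : ZMod (p ^ h)) := by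
        rw [Nat.cast_add, Nat.cast_sub (by omega), ← h2, Nat.cast_one]
        have : ((p ^ h : ℕ) : ZMod (p ^ h)) = 0 := ZMod.natCast_self _
        rw [this]
        ring
      rw [h4, hunit]
      intro h5
      have h6 : p ∣ p ^ h - 1 := (Nat.dvd_add_right h3).1 h5
      have h7 : p ∣ p ^ h := dvd_pow_self p (by omega)
      have h8 : p ∣ p ^ h - (p ^ h - 1) := Nat.dvd_sub h7 h6
      have h9 : p ^ h - (p ^ h - 1) = 1 := by omega
      rw [h9] at h8
      exact hp.one_lt.ne' (Nat.dvd_one.1 h8)
    have h2 := (hall h1.unit).add (RS.one k)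
    rw [IsUnit.unit_spec, sub_add_cancel] at h2
    exact h2.mono hk (by omega)

end Pool.Agent.TH882.WM
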