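import Pool.Agent.TH882.WM5

/-! A fixed base set plus a few perturbed k-th powers: j exact k-th powers and a perturbed ones. -/

set_option autoImplicit false

namespace Pool.Agent.TH882.WM

open MeasureTheory ProbabilityTheory Filter

/-- base set plus one perturbed power from each block 1, …, i. -/
def SumsB (B : Set ℕ) (k m q T : ℕ) (rb : ℕ → ℕ) (u : ℕ → ℕ) : ℕ → Set ℕ
  | 0 => B
  | i + 1 => {h | ∃ h0 ∈ SumsB B k m q T rb u i, ∃ t, T ≤ t ∧ t < 2 * T ∧
      h = h0 + val k m u (m * q * t + (m * (i + 1) + rb i))}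

lemma SumsB_congr {B : Set ℕ} {k m q K T : ℕ} {rb : ℕ → ℕ} {u u' : ℕ → ℕ} (hm : 1 ≤ m)
    (hrb : ∀ l, rb l < m) (hK : 2 * (m * q * T) ≤ K) :
    ∀ i, i < q → (∀ n, n < K → (n % (m * q)) / m ≤ i → u n = u' n) →
      SumsB B k m q T rb u i = SumsB B k m q T rb u' i := by
  intro i
  induction i with
  | zero =>
    intro hi h
    rfl
  | succ i ih =>
    intro hi h
    have h1 := ih (by omega) (fun n hn hq => h n hn (by omega))
    ext x
    simp only [SumsB, Set.mem_setOf_eq]
    rw [h1]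
    have key : ∀ t, T ≤ t → t < 2 * T →
        val k m u (m * q * t + (m * (i + 1) + rb i)) = val k m u' (m * q * t + (m * (i + 1) + rb i)) := by
      intro t h2 h3
      unfold val
      have e0 : m * (i + 1) + rb i < m * q := by
        have h4 : m * (i + 2) ≤ m * q := Nat.mul_le_mul_left _ hi
        have h5 : m * (i + 2) = m * (i + 1) + m := by ring
        have := hrb i
        omega
      have e1 : m * q * (t + 1) ≤ m * q * (2 * T) := Nat.mul_le_mul_left _ h3
      have e2 : m * q * (t + 1) = m * q * t + m * q := by ring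
      have e3 : m * q * (2 * T) = 2 * (m * q * T) := by ring
      rw [h (m * q * t + (m * (i + 1) + rb i)) (by omega)]
      rw [Nat.mul_add_mod, Nat.mod_eq_of_lt e0, Nat.mul_add_div hm, Nat.div_eq_of_lt (hrb i)]
    constructor
    · rintro ⟨h0, hh, t, h2, h3, rfl⟩
      exact ⟨h0, hh, t, h2, h3, by rw [key t h2 h3]⟩
    · rintro ⟨h0, hh, t, h2, h3, rfl⟩
      exact ⟨h0, hh, t, h2, h3, by rw [key t h2 h3]⟩

lemma stepB {Ω : Type*} [MeasurableSpace Ω] {P : Measure Ω} [IsProbabilityMeasure P]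
    {U : ℕ → Ω → ℕ} (hU : iIndepFun U P) (hm : ∀ n, Measurable (U n)) (W : ℕ → ℕ)
    (hW : ∀ n, Unif P (U n) (W n)) {Bs : Set ℕ} {k m q K T : ℕ} {rb : ℕ → ℕ} (hm1 : 1 ≤ m)
    (hrb : ∀ l, rb l < m) (hK : 2 * (m * q * T) ≤ K) {i : ℕ}
    (hi : i + 1 < q) {D G' Z Z' R ρ : ℕ} (hD : 1 ≤ D) (hG' : 1 ≤ G')
    (hWG : ∀ n, m * q * T ≤ n → 2 * (D * G') ≤ W n)
    (hZ : ∀ n, n < 2 * (m * q * T) → Z + n ^ k + m * W n ≤ Z') :
    P {ω | Net m (SumsB Bs k m q T rb (fun n => U n ω) i) (D * G') Z R ρ ∧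
        ¬ Net m (SumsB Bs k m q T rb (fun n => U n ω) (i + 1)) G' Z' R (ρ + rb i ^ k)} ≤
      ENNReal.ofReal ((R + 1) * Real.exp (-(T : ℝ) / (8 * D))) := by
  classical
  set B : Finset ℕ := (Finset.Ico T (2 * T)).image (fun t => m * q * t + (m * (i + 1) + rb i)) with hB
  set F : Finset ℕ := (Finset.range K).filter (fun n => (n % (m * q)) / m ≤ i) with hF
  have hq : 0 < q := by omega
  have hmq : 0 < m * q := Nat.mul_pos hm1 hq
  have hBcard : B.card = T := by
    rw [hB, Finset.card_image_of_injective, Nat.card_Ico]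
    · omega
    · intro x y hxy
      simp only at hxy
      have : m * q * x = m * q * y := by omega
      exact Nat.eq_of_mul_eq_mul_left hmq this
  have e0 : m * (i + 1) + rb i < m * q := by
    have h4 : m * (i + 2) ≤ m * q := Nat.mul_le_mul_left _ hi
    have h5 : m * (i + 2) = m * (i + 1) + m := by ring
    have := hrb i
    omega
  have hBmem : ∀ n ∈ B, m * q * T ≤ n ∧ n < 2 * (m * q * T) ∧ (n % (m * q)) / m = i + 1 ∧
      n ^ k ≡ rb i ^ k [MOD m] ∧
      ∃ t, T ≤ t ∧ t < 2 * T ∧ n = m * q * t + (m * (i + 1) + rb i) := by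
    intro n hn
    rw [hB, Finset.mem_image] at hn
    obtain ⟨t, ht, rfl⟩ := hn
    rw [Finset.mem_Ico] at ht
    have e1 : m * q * T ≤ m * q * t := Nat.mul_le_mul_left _ ht.1
    have e2 : m * q * (t + 1) ≤ m * q * (2 * T) := Nat.mul_le_mul_left _ ht.2
    have e3 : m * q * (t + 1) = m * q * t + m * q := by ring
    have e4 : m * q * (2 * T) = 2 * (m * q * T) := by ring
    refine ⟨by omega, by omega, ?_, ?_, t, ht.1, ht.2, rfl⟩
    · rw [Nat.mul_add_mod, Nat.mod_eq_of_lt e0, Nat.mul_add_div hm1, Nat.div_eq_of_lt (hrb i)]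
    · apply Nat.ModEq.pow
      have : m * q * t + (m * (i + 1) + rb i) = rb i + m * (q * t + (i + 1)) := by ring
      rw [this]
      unfold Nat.ModEq
      rw [Nat.add_mul_mod_self_left]
  have hdisj : Disjoint B F := by
    rw [Finset.disjoint_left]
    intro n hn hn'
    have h1 := (hBmem n hn).2.2.1
    rw [hF, Finset.mem_filter] at hn'
    omega
  -- the single target event
  have hone : ∀ I, Z' ≤ I → I ≤ R → I ≡ ρ + rb i ^ k [MOD m] →
      P {ω | Net m (SumsB Bs k m q T rb (fun n => U n ω) i) (D * G') Z R ρ ∧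
        ∀ n ∈ B, ∀ h ∈ SumsB Bs k m q T rb (fun n => U n ω) i,
          ∀ e, e < G' → n ^ k + m * U n ω + h ≠ I + m * e} ≤
        ENNReal.ofReal (Real.exp (-(T : ℝ) / (8 * D))) := by
    intro I hI1 hI2 hI3
    set ext : (F → ℕ) → ℕ → ℕ := fun y n => if h : n ∈ F then y ⟨n, h⟩ else 0 with hext
    set X : Ω → (B → ℕ) := fun ω n => U n ω with hX
    set Y : Ω → (F → ℕ) := fun ω n => U n ω with hY
    have hind : IndepFun X Y P := hU.indepFun_finset B F hdisj hm
    have hXm : Measurable X := measurable_pi_lambda _ (fun n => hm n)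
    have hYm : Measurable Y := measurable_pi_lambda _ (fun n => hm n)
    set S : (F → ℕ) → Set (B → ℕ) := fun y => {x | ∀ n : B, ∀ h ∈ SumsB Bs k m q T rb (ext y) i,
      ∀ e, e < G' → (n : ℕ) ^ k + m * x n + h ≠ I + m * e} with hS
    set G : Set (F → ℕ) := {y | Net m (SumsB Bs k m q T rb (ext y) i) (D * G') Z R ρ} with hG
    have hcongr : ∀ ω, SumsB Bs k m q T rb (ext (Y ω)) i =
        SumsB Bs k m q T rb (fun n => U n ω) i := by
      intro ω
      apply SumsB_congr hm1 hrb hK i (by omega)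
      intro n hn hnq
      have : n ∈ F := by
        rw [hF, Finset.mem_filter, Finset.mem_range]
        exact ⟨hn, hnq⟩
      simp only [hext, dif_pos this, hY]
    have hb := indep_bound hXm hYm hind S (fun y => (Set.to_countable _).measurableSet) G
      (ENNReal.ofReal (Real.exp (-(T : ℝ) / (8 * D)))) (by
        intro y hy
        have h1 := miss_prob hU hm W B (fun n _ => hW n) (fun n => n ^ k) (D := D) (G' := G')
          (Z := Z) (R := R) (I := I) (m := m) (ρ := ρ) hD hG' hy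
          (fun n hn => hWG n (hBmem n hn).1) hI2
          (fun n hn => hI3.trans ((hBmem n hn).2.2.2.1.symm.add_left ρ))
          (fun n hn => (hZ n (hBmem n hn).2.1).trans hI1)
        rw [hBcard] at h1
        refine le_trans (measure_mono ?_) h1
        intro ω hω n hn h hh
        exact hω ⟨n, hn⟩ h hh)
    refine le_trans (measure_mono ?_) hb
    intro ω hω
    refine ⟨?_, ?_⟩
    · show Net m (SumsB Bs k m q T rb (ext (Y ω)) i) (D * G') Z R ρ
      rw [hcongr]
      exact hω.1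
    · show ∀ n : B, ∀ h ∈ SumsB Bs k m q T rb (ext (Y ω)) i, _
      rw [hcongr]
      intro n h hh
      exact hω.2 n n.2 h hh
  have hsub : {ω | Net m (SumsB Bs k m q T rb (fun n => U n ω) i) (D * G') Z R ρ ∧
        ¬ Net m (SumsB Bs k m q T rb (fun n => U n ω) (i + 1)) G' Z' R (ρ + rb i ^ k)} ⊆
      ⋃ I ∈ (Finset.Icc Z' R).filter (fun I => I ≡ ρ + rb i ^ k [MOD m]),
        {ω | Net m (SumsB Bs k m q T rb (fun n => U n ω) i) (D * G') Z R ρ ∧
        ∀ n ∈ B, ∀ h ∈ SumsB Bs k m q T rb (fun n => U n ω) i,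
          ∀ e, e < G' → n ^ k + m * U n ω + h ≠ I + m * e} := by
    rintro ω ⟨h1, h2⟩
    unfold Net at h2
    push Not at h2
    obtain ⟨I, hI1, hI2, hI3, hI4⟩ := h2
    simp only [Set.mem_iUnion]
    refine ⟨I, Finset.mem_filter.2 ⟨Finset.mem_Icc.2 ⟨hI1, hI2⟩, hI3⟩, h1, ?_⟩
    rintro n hn h hh e he h3
    obtain ⟨-, -, -, -, t, ht1, ht2, rfl⟩ := hBmem n hn
    refine hI4 e he ⟨h, hh, t, ht1, ht2, ?_⟩
    simp only [val]
    omega
  refine (measure_mono hsub).trans ((measure_biUnion_finset_le _ _).trans ?_)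
  refine (Finset.sum_le_sum (g := fun _ => ENNReal.ofReal (Real.exp (-(T : ℝ) / (8 * D)))) ?_).trans ?_
  · intro I hI
    rw [Finset.mem_filter, Finset.mem_Icc] at hI
    exact hone I hI.1.1 hI.1.2 hI.2
  · rw [Finset.sum_const, nsmul_eq_mul, ENNReal.ofReal_mul (by positivity)]
    gcongr
    rw [show ((R : ℝ) + 1) = ((R + 1 : ℕ) : ℝ) by push_cast; ring, ENNReal.ofReal_natCast]
    norm_cast
    refine (Finset.card_filter_le _ _).trans ?_
    rw [Nat.card_Icc]
    omega

/-- N is an element of B plus a perturbed powers with positive indices. -/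
def RepB (B : Set ℕ) (k m a : ℕ) (u : ℕ → ℕ) (N : ℕ) : Prop :=
  ∃ b ∈ B, ∃ f : Fin a → ℕ, (∀ l, 1 ≤ f l) ∧ N = b + ∑ l, (f l ^ k + m * u (f l))

lemma rep_of_sumsB {B : Set ℕ} {k m q T : ℕ} {rb : ℕ → ℕ} (hm : 1 ≤ m) {u : ℕ → ℕ} :
    ∀ (i : ℕ) {h : ℕ}, h ∈ SumsB B k m q T rb u i → RepB B k m i u h := by
  intro i
  induction i with
  | zero =>
    intro h hh
    exact ⟨h, hh, Fin.elim0, fun l => l.elim0, by simp⟩
  | succ i ih =>
    rintro h ⟨h0, hh, t, ht1, ht2, rfl⟩
    obtain ⟨b, hb, f, hf, rfl⟩ := ih hh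
    refine ⟨b, hb, Fin.cons (m * q * t + (m * (i + 1) + rb i)) f, ?_, ?_⟩
    · intro l
      refine Fin.cases ?_ ?_ l
      · simp only [Fin.cons_zero]
        have : 1 ≤ m * (i + 1) := Nat.mul_pos hm (by omega)
        omega
      · intro l
        simp only [Fin.cons_succ]
        exact hf l
    · rw [Fin.sum_univ_succ]
      simp only [Fin.cons_zero, Fin.cons_succ, val]
      ring

lemma chainB {Ω : Type*} [MeasurableSpace Ω] {P : Measure Ω} [IsProbabilityMeasure P]
    {U : ℕ → Ω → ℕ} (hU : iIndepFun U P) (hm : ∀ n, Measurable (U n)) (W : ℕ → ℕ)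
    (hW : ∀ n, Unif P (U n) (W n)) {Bs : Set ℕ} {k m a T ρ0 : ℕ} {rb : ℕ → ℕ} (hm1 : 1 ≤ m)
    (hrb : ∀ l, rb l < m)
    {D Z N E : ℕ} (hD : 1 ≤ D) (Full : Set Ω)
    (h0 : ∀ ω ∈ Full, Net m (SumsB Bs k m (a + 1) T rb (fun n => U n ω) 0) (D ^ a) Z N ρ0)
    (hWG : ∀ n, m * (a + 1) * T ≤ n → 2 * D ^ a ≤ W n)
    (hE : ∀ n, n < 2 * (m * (a + 1) * T) → n ^ k + m * W n ≤ E) (hEN : Z + a * E ≤ N)
    (hN : N ≡ ρ0 + ∑ l ∈ Finset.range a, rb l ^ k [MOD m]) :
    P {ω | ω ∈ Full ∧ ¬ RepB Bs k m a (fun n => U n ω) N} ≤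
      ENNReal.ofReal (a * ((N + 1) * Real.exp (-(T : ℝ) / (8 * D)))) := by
  have key : ∀ i, i ≤ a → P {ω | ω ∈ Full ∧
      ¬ Net m (SumsB Bs k m (a + 1) T rb (fun n => U n ω) i) (D ^ (a - i)) (Z + i * E) N
        (ρ0 + ∑ l ∈ Finset.range i, rb l ^ k)} ≤
      ENNReal.ofReal (i * ((N + 1) * Real.exp (-(T : ℝ) / (8 * D)))) := by
    intro i
    induction i with
    | zero =>
      intro _
      have : {ω | ω ∈ Full ∧
          ¬ Net m (SumsB Bs k m (a + 1) T rb (fun n => U n ω) 0) (D ^ (a - 0)) (Z + 0 * E) N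
            (ρ0 + ∑ l ∈ Finset.range 0, rb l ^ k)} = ∅ := by
        ext ω
        simp only [Set.mem_setOf_eq, Set.mem_empty_iff_false, iff_false, not_and, not_not]
        intro hω
        simpa using h0 ω hω
      rw [this]
      simp
    | succ i ih =>
      intro hi
      have ih' := ih (by omega)
      have e1 : D * D ^ (a - (i + 1)) = D ^ (a - i) := by
        rw [← pow_succ']
        congr 1
        omega
      have hst := stepB (Bs := Bs) hU hm W hW (k := k) (q := a + 1) (K := 2 * (m * (a + 1) * T)) (T := T) hm1 hrb le_rfl (i := i)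
        (by omega) (D := D) (G' := D ^ (a - (i + 1))) (Z := Z + i * E) (Z' := Z + (i + 1) * E)
        (R := N) (ρ := ρ0 + ∑ l ∈ Finset.range i, rb l ^ k)
        hD (Nat.one_le_pow _ _ hD) (by
          intro n hn
          rw [e1]
          have : D ^ (a - i) ≤ D ^ a := Nat.pow_le_pow_right hD (by omega)
          have := hWG n hn
          omega) (by
          intro n hn
          have h1 := hE n hn
          have e1 : (i + 1) * E = i * E + E := by ring
          rw [e1]
          omega)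
      rw [e1] at hst
      have e2 : ρ0 + ∑ l ∈ Finset.range (i + 1), rb l ^ k =
          ρ0 + (∑ l ∈ Finset.range i, rb l ^ k) + rb i ^ k := by
        rw [Finset.sum_range_succ, add_assoc]
      rw [e2]
      have hsub : {ω | ω ∈ Full ∧ ¬ Net m (SumsB Bs k m (a + 1) T rb (fun n => U n ω) (i + 1))
            (D ^ (a - (i + 1))) (Z + (i + 1) * E) N
            (ρ0 + (∑ l ∈ Finset.range i, rb l ^ k) + rb i ^ k)} ⊆
          {ω | ω ∈ Full ∧ ¬ Net m (SumsB Bs k m (a + 1) T rb (fun n => U n ω) i)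
            (D ^ (a - i)) (Z + i * E) N
            (ρ0 + ∑ l ∈ Finset.range i, rb l ^ k)} ∪
          {ω | Net m (SumsB Bs k m (a + 1) T rb (fun n => U n ω) i) (D ^ (a - i)) (Z + i * E) N
            (ρ0 + ∑ l ∈ Finset.range i, rb l ^ k) ∧
            ¬ Net m (SumsB Bs k m (a + 1) T rb (fun n => U n ω) (i + 1))
              (D ^ (a - (i + 1))) (Z + (i + 1) * E) N
            (ρ0 + (∑ l ∈ Finset.range i, rb l ^ k) + rb i ^ k)} := by
        rintro ω ⟨h1, h2⟩
        by_cases h3 : Net m (SumsB Bs k m (a + 1) T rb (fun n => U n ω) i) (D ^ (a - i)) (Z + i * E) N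
            (ρ0 + ∑ l ∈ Finset.range i, rb l ^ k)
        · exact Or.inr ⟨h3, h2⟩
        · exact Or.inl ⟨h1, h3⟩
      refine (measure_mono hsub).trans ((measure_union_le _ _).trans ((add_le_add ih' hst).trans ?_))
      rw [← ENNReal.ofReal_add (by positivity) (by positivity)]
      apply ENNReal.ofReal_le_ofReal
      push_cast
      apply le_of_eq
      ring
  refine le_trans (measure_mono ?_) (key a le_rfl)
  rintro ω ⟨h1, h2⟩
  refine ⟨h1, fun hnet => h2 ?_⟩
  obtain ⟨e, he, hh⟩ := hnet N hEN le_rfl hN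
  simp only [Nat.sub_self, pow_zero] at he
  have : e = 0 := by omega
  subst this
  rw [mul_zero, add_zero] at hh
  exact rep_of_sumsB hm1 a hh

/-- base sets with gaps of order x^g in the class of ρ0, plus a perturbed powers. -/
theorem mainB {Ω : Type*} [MeasurableSpace Ω] {P : Measure Ω} [IsProbabilityMeasure P]
    {U : ℕ → Ω → ℕ} (hU : iIndepFun U P) (hm : ∀ n, Measurable (U n)) {k m : ℕ} (hk : 2 ≤ k)
    (hm1 : 1 ≤ m)
    {θ : ℝ} (hθ : θ ≤ k - 1) {a : ℕ} {g : ℝ} (hg0 : 0 < g) (hg1 : g ≤ 1) (h1 : (k : ℝ) * g < θ)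
    (h2 : (k : ℝ) * g < a) (hW : ∀ n, Unif P (U n) ⌊(n : ℝ) ^ θ⌋₊)
    {Bs : Set ℕ} {ρ0 Z : ℕ} {C : ℝ} (hC : 1 ≤ C)
    (hB : ∀ R, Z ≤ R → ∃ S ∈ Bs, S ≤ R ∧ S ≡ ρ0 [MOD m] ∧ (R : ℝ) - S ≤ C * (R : ℝ) ^ g)
    (rb : ℕ → ℕ) (hrb : ∀ l, rb l < m) :
    ∀ᵐ ω ∂P, ∀ᶠ N in atTop, N ≡ ρ0 + ∑ l ∈ Finset.range a, rb l ^ k [MOD m] →
      RepB Bs k m a (fun n => U n ω) N := by
  have hkr : (2 : ℝ) ≤ k := by exact_mod_cast hk
  have hk0 : (0 : ℝ) < k := by linarith
  have hmr : (1 : ℝ) ≤ m := by exact_mod_cast hm1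
  have har : (0 : ℝ) < a := lt_trans (by positivity) h2
  have ha : 1 ≤ a := by
    have : 0 < a := by exact_mod_cast har
    exact this
  have hθ0 : 0 < θ := lt_trans (by positivity) h1
  -- choose the exponent e
  obtain ⟨e, he1, he2⟩ : ∃ e, g / a < e ∧ e < min (θ / (a * k)) (1 / k) := by
    apply exists_between
    apply lt_min
    · rw [div_lt_div_iff₀ har (by positivity)]
      nlinarith
    · rw [div_lt_div_iff₀ har hk0]
      linarith
  have he3 : e < θ / (a * k) := he2.trans_le (min_le_left _ _)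
  have he4 : e < 1 / k := he2.trans_le (min_le_right _ _)
  have he5 : g < a * e := by
    rw [div_lt_iff₀ har] at he1
    linarith
  have he6 : a * e < θ / k := by
    rw [lt_div_iff₀ (by positivity)] at he3
    rw [lt_div_iff₀ hk0]
    linarith
  have he0 : 0 < e := lt_trans (by positivity) he1
  set c : ℝ := 4 * a * (1 + m) * m * (a + 1) with hc
  have har1 : (1 : ℝ) ≤ a := by exact_mod_cast ha
  have hc1 : 1 ≤ c := by
    rw [hc]
    have e1 : (1 : ℝ) ≤ 4 * a := by linarith
    have e2 : (1 : ℝ) ≤ 4 * a * (1 + m) := by nlinarith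
    have e3 : (1 : ℝ) ≤ 4 * a * (1 + m) * m := by nlinarith
    nlinarith
  set W : ℕ → ℕ := fun n => ⌊(n : ℝ) ^ θ⌋₊ with hWdef
  have hWle : ∀ n, W n ≤ n ^ (k - 1) := by
    intro n
    rcases Nat.eq_zero_or_pos n with rfl | hn
    · simp only [hWdef, Nat.cast_zero]
      rw [Real.zero_rpow hθ0.ne']
      simp
    · apply Nat.floor_le_of_le
      have hn1 : (1 : ℝ) ≤ n := by exact_mod_cast hn
      calc (n : ℝ) ^ θ ≤ (n : ℝ) ^ ((k - 1 : ℕ) : ℝ) := by
            apply Real.rpow_le_rpow_of_exponent_le hn1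
            rw [Nat.cast_sub (by omega)]
            simpa using hθ
        _ = ((n ^ (k - 1) : ℕ) : ℝ) := by
            rw [Real.rpow_natCast]
            push_cast
            rfl
  set Full : Set Ω := {ω | ∀ n, U n ω ≤ n ^ (k - 1)} with hFull
  have hFullae : ∀ᵐ ω ∂P, ω ∈ Full := by
    rw [hFull]
    simp only [Set.mem_setOf_eq]
    rw [ae_all_iff]
    intro n
    have h3 := hW n (Finset.range (⌊(n : ℝ) ^ θ⌋₊ + 1)) subset_rfl
    have h3' : (((Finset.range (⌊(n : ℝ) ^ θ⌋₊ + 1)).card : ℕ) : ℝ) / (⌊(n : ℝ) ^ θ⌋₊ + 1) = 1 := by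
      rw [Finset.card_range]
      push_cast
      exact div_self (by positivity)
    rw [h3', ENNReal.ofReal_one] at h3
    have h4 : U n ⁻¹' ((Finset.range (⌊(n : ℝ) ^ θ⌋₊ + 1) : Finset ℕ) : Set ℕ) ∈ ae P :=
      (mem_ae_iff_prob_eq_one ((hm n) (by measurability))).2 h3
    filter_upwards [h4] with ω hω
    rw [Set.mem_preimage, Finset.mem_coe, Finset.mem_range] at hω
    exact (show U n ω ≤ W n from Nat.lt_succ_iff.1 hω).trans (hWle n)
  have hC' : 1 ≤ C * (1 + m) := by nlinarith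
  have hpar := params (k := k) (a := a) hk ha (g := g) (θ := θ) (e := e) (C := C * (1 + m)) (c := c)
    (Z := (Z : ℝ)) hg0.le he5 he6 he4 hC' hc1
  obtain ⟨N₀, hN₀⟩ := eventually_atTop.1 hpar
  -- the bound for one N
  have hone : ∀ N, N₀ ≤ N → N ≡ ρ0 + ∑ l ∈ Finset.range a, rb l ^ k [MOD m] →
      P {ω | ω ∈ Full ∧ ¬ RepB Bs k m a (fun n => U n ω) N} ≤
      ENNReal.ofReal (1 / (N : ℝ) ^ 2) := by
    intro N hN hNres
    obtain ⟨p1, p2, p3, p4, p5, p6, p7⟩ := hN₀ N hN
    set x : ℝ := (N : ℝ) ^ (1 / (k : ℝ)) with hx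
    set T : ℕ := ⌊x / c⌋₊ with hT
    set D : ℕ := ⌊(N : ℝ) ^ e⌋₊ with hD
    have hN0 : (0 : ℝ) < N := by linarith
    have hc0 : 0 < c := by linarith
    have hx0 : 0 < x := by positivity
    have hD1 : 1 ≤ D := by
      rw [hD]
      exact Nat.le_floor (by simpa using p6)
    have hDle : (D : ℝ) ≤ (N : ℝ) ^ e := Nat.floor_le (by positivity)
    have hDge : (N : ℝ) ^ e / 2 ≤ D := by
      have := Nat.lt_floor_add_one ((N : ℝ) ^ e)
      rw [← hD] at this
      have h3 : (1 : ℝ) ≤ D := by exact_mod_cast hD1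
      linarith
    have hTle : (T : ℝ) ≤ x / c := Nat.floor_le (by positivity)
    have hTge : x / (2 * c) ≤ T := by
      have h3 := Nat.lt_floor_add_one (x / c)
      rw [← hT] at h3
      have h4 : 2 ≤ x / c := by rw [le_div_iff₀ hc0]; linarith
      have h5 : x / (2 * c) = (x / c) / 2 := by field_simp
      rw [h5]
      linarith
    have hDa : (D : ℝ) ^ a ≤ (N : ℝ) ^ (a * e) := by
      calc (D : ℝ) ^ a ≤ ((N : ℝ) ^ e) ^ a := pow_le_pow_left₀ (by positivity) hDle a
        _ = (N : ℝ) ^ (a * e) := by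
            rw [← Real.rpow_natCast ((N : ℝ) ^ e), ← Real.rpow_mul hN0.le]
            congr 1
            ring
    set E : ℕ := (1 + m) * (2 * (m * (a + 1) * T)) ^ k with hE
    -- E is small compared with N
    have hEN : (E : ℝ) * (2 * a) ≤ N := by
      have h3 : (2 * (m * (a + 1) * T) : ℝ) ≤ x / (2 * a * (1 + m)) := by
        calc (2 * (m * (a + 1) * T) : ℝ) ≤ 2 * (m * (a + 1) * (x / c)) := by gcongr
          _ = x / (2 * a * (1 + m)) := by rw [hc]; field_simp; ring
      have h4 : ((2 * (m * (a + 1) * T) : ℝ)) ^ k ≤ N / (2 * a * (1 + m)) := by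
        calc ((2 * (m * (a + 1) * T) : ℝ)) ^ k ≤ (x / (2 * a * (1 + m))) ^ k :=
              pow_le_pow_left₀ (by positivity) h3 k
          _ = x ^ k / (2 * a * (1 + m)) ^ k := div_pow _ _ _
          _ = N / (2 * a * (1 + m)) ^ k := by
              rw [hx, ← Real.rpow_natCast, ← Real.rpow_mul hN0.le, one_div, inv_mul_cancel₀ hk0.ne',
                Real.rpow_one]
          _ ≤ N / (2 * a * (1 + m)) := by
              apply div_le_div_of_nonneg_left hN0.le (by positivity)
              refine le_self_pow₀ ?_ (by omega)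
              nlinarith
      rw [hE]
      push_cast
      calc (1 + (m : ℝ)) * (2 * (m * (a + 1) * (T : ℝ))) ^ k * (2 * a)
            ≤ (1 + m) * (N / (2 * a * (1 + m))) * (2 * a) := by gcongr
        _ = N := by field_simp
    have hEN' : Z + a * E ≤ N := by
      have h3 : (Z : ℝ) + a * E ≤ N := by nlinarith
      exact_mod_cast h3
    have hch := chainB hU hm W hW (Bs := Bs) (k := k) (m := m) (a := a) (ρ0 := ρ0)
      (T := T) (rb := rb) hm1 hrb (D := D) (Z := Z) (N := N) (E := E)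
      hD1 Full (by
        intro ω hω z hz1 hz2 hzρ
        have hDa1 : 1 ≤ D ^ a := Nat.one_le_pow _ _ hD1
        have hmDa : 1 ≤ m * D ^ a := Nat.mul_pos hm1 hDa1
        obtain ⟨S, hSB, hf2, hSρ, hf3⟩ := hB (z + m * D ^ a - 1) (by omega)
        -- the remainder is smaller than D^a
        have hzS : z ≤ S := by
          have h3 : ((z + m * D ^ a - 1 : ℕ) : ℝ) ≤ (1 + m) * (2 * N) := by
            have h4 : ((z + m * D ^ a - 1 : ℕ) : ℝ) ≤ (z : ℝ) + m * (D : ℝ) ^ a := by
              have : z + m * D ^ a - 1 ≤ z + m * D ^ a := Nat.sub_le _ _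
              exact_mod_cast this
            have h5 : (D : ℝ) ^ a ≤ N := by
              calc (D : ℝ) ^ a ≤ (N : ℝ) ^ (a * e) := hDa
                _ ≤ (N : ℝ) ^ (1 : ℝ) := by
                    apply Real.rpow_le_rpow_of_exponent_le p1
                    have h6 : θ / k ≤ 1 := by
                      rw [div_le_one hk0]
                      linarith
                    linarith
                _ = N := Real.rpow_one _
            have h6 : (z : ℝ) ≤ N := by exact_mod_cast hz2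
            nlinarith
          have h4 : ((z + m * D ^ a - 1 : ℕ) : ℝ) ^ g ≤ (1 + m) * (2 * N : ℝ) ^ g := by
            calc ((z + m * D ^ a - 1 : ℕ) : ℝ) ^ g ≤ ((1 + m) * (2 * N)) ^ g :=
                  Real.rpow_le_rpow (by positivity) h3 hg0.le
              _ = (1 + m : ℝ) ^ g * (2 * N : ℝ) ^ g := Real.mul_rpow (by positivity) (by positivity)
              _ ≤ (1 + m : ℝ) ^ (1 : ℝ) * (2 * N : ℝ) ^ g := by
                  apply mul_le_mul_of_nonneg_right _ (by positivity)
                  exact Real.rpow_le_rpow_of_exponent_le (by linarith) hg1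
              _ = _ := by rw [Real.rpow_one]
          have h5 : ((N : ℝ) ^ e / 2) ^ a ≤ (D : ℝ) ^ a := pow_le_pow_left₀ (by positivity) hDge a
          have h6 : ((z + m * D ^ a - 1 : ℕ) : ℝ) - S < (D : ℝ) ^ a := by
            calc ((z + m * D ^ a - 1 : ℕ) : ℝ) - S ≤ C * ((z + m * D ^ a - 1 : ℕ) : ℝ) ^ g := hf3
              _ ≤ C * ((1 + m) * (2 * N : ℝ) ^ g) := mul_le_mul_of_nonneg_left h4 (by linarith)
              _ = C * (1 + m) * (2 * N : ℝ) ^ g := by ring
              _ < ((N : ℝ) ^ e / 2) ^ a := p4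
              _ ≤ (D : ℝ) ^ a := h5
          have h7 : z + m * D ^ a - 1 < S + D ^ a := by
            have : ((z + m * D ^ a - 1 : ℕ) : ℝ) < ((S + D ^ a : ℕ) : ℝ) := by
              push_cast
              push_cast at h6
              linarith
            exact_mod_cast this
          have h8 : D ^ a ≤ m * D ^ a := Nat.le_mul_of_pos_left _ hm1
          omega
        obtain ⟨w, hw⟩ := (Nat.modEq_iff_dvd' hzS).1 (hzρ.trans hSρ.symm)
        have hSw : S = z + m * w := by omega
        refine ⟨w, ?_, ?_⟩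
        · have h3 : m * w < m * D ^ a := by omega
          exact Nat.lt_of_mul_lt_mul_left h3
        · rw [← hSw]
          exact hSB) (by
        intro n hn
        rw [hWdef]
        apply Nat.le_floor
        have h3 : (m * (a + 1) * T : ℝ) ≤ n := by exact_mod_cast hn
        have h4 : x / (2 * c) ≤ (n : ℝ) := by
          calc x / (2 * c) ≤ T := hTge
            _ ≤ m * (a + 1) * T := by
                have e1 : (1 : ℝ) ≤ m * (a + 1) := by nlinarith
                nlinarith [show (0:ℝ) ≤ T from Nat.cast_nonneg T]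
            _ ≤ n := h3
        have h5 : (N : ℝ) ^ (θ / k) / (2 * c) ^ θ ≤ (n : ℝ) ^ θ := by
          have h6 : (x / (2 * c)) ^ θ ≤ (n : ℝ) ^ θ := Real.rpow_le_rpow (by positivity) h4 hθ0.le
          rw [Real.div_rpow hx0.le (by positivity), hx, ← Real.rpow_mul hN0.le] at h6
          have e1 : 1 / (k : ℝ) * θ = θ / k := by ring
          rw [e1] at h6
          exact h6
        push_cast
        linarith) (by
        intro n hn
        have h3 : n ^ k ≤ (2 * (m * (a + 1) * T)) ^ k := Nat.pow_le_pow_left hn.le _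
        have h4 : W n ≤ (2 * (m * (a + 1) * T)) ^ k := by
          refine (hWle n).trans ?_
          rcases Nat.eq_zero_or_pos n with rfl | hn0
          · rw [zero_pow (by omega)]
            exact Nat.zero_le _
          · calc n ^ (k - 1) ≤ n ^ k := Nat.pow_le_pow_right hn0 (by omega)
              _ ≤ _ := h3
        have h5 : m * W n ≤ m * (2 * (m * (a + 1) * T)) ^ k := Nat.mul_le_mul_left _ h4
        have e1 : (1 + m) * (2 * (m * (a + 1) * T)) ^ k =
          (2 * (m * (a + 1) * T)) ^ k + m * (2 * (m * (a + 1) * T)) ^ k := by ring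
        rw [hE, e1]
        omega) hEN' hNres
    refine hch.trans (ENNReal.ofReal_le_ofReal ?_)
    refine le_trans ?_ p7
    apply mul_le_mul_of_nonneg_left _ (by positivity)
    apply mul_le_mul_of_nonneg_left _ (by positivity)
    apply Real.exp_le_exp.2
    have h3 : (N : ℝ) ^ (1 / (k : ℝ) - e) = x / (N : ℝ) ^ e := by
      rw [Real.rpow_sub hN0]
    rw [h3, neg_div, neg_le_neg_iff, div_div]
    rw [div_le_div_iff₀ (by positivity) (by have : (1 : ℝ) ≤ D := by exact_mod_cast hD1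
                                            positivity)]
    have h4 : x ≤ 2 * c * T := by
      rw [div_le_iff₀ (by positivity)] at hTge
      linarith
    calc x * (8 * (D : ℝ)) ≤ (2 * c * T) * (8 * (N : ℝ) ^ e) := by gcongr
      _ = T * ((N : ℝ) ^ e * (16 * c)) := by ring
  -- Borel–Cantelli
  classical
  set s : ℕ → Set Ω := fun N => if N₀ ≤ N ∧ N ≡ ρ0 + ∑ l ∈ Finset.range a, rb l ^ k [MOD m] then
    {ω | ω ∈ Full ∧ ¬ RepB Bs k m a (fun n => U n ω) N} else ∅ with hs
  have hsum : ∑' N, P (s N) ≠ ⊤ := by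
    have h3 : ∀ N, P (s N) ≤ ENNReal.ofReal (1 / (N : ℝ) ^ 2) := by
      intro N
      simp only [hs]
      split_ifs with h
      · exact hone N h.1 h.2
      · simp
    refine ne_top_of_le_ne_top ?_ (ENNReal.tsum_le_tsum h3)
    have h4 : Summable (fun N : ℕ => 1 / (N : ℝ) ^ 2) := Real.summable_one_div_nat_pow.2 (by norm_num)
    rw [← ENNReal.ofReal_tsum_of_nonneg (fun n => by positivity) h4]
    exact ENNReal.ofReal_ne_top
  filter_upwards [ae_eventually_notMem hsum, hFullae] with ω h3 h4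
  filter_upwards [h3, eventually_ge_atTop N₀] with N h5 h6 h7
  simp only [hs, if_pos (And.intro h6 h7), Set.mem_setOf_eq, not_and, not_not] at h5
  exact h5 h4


end Pool.Agent.TH882.WM
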