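import Pool.Agent.TH882.MtE

/-! Weights for the coloured Maynard-Tao theorem for which the additional rough positions are
rarely prime. -/

set_option autoImplicit false

open Finset

namespace Pool.Agent.TH882.HX

open Pool.Agent.H361R2.PP
open Pool.Agent.W70.HR
open Pool.Agent.TH882.HE
open Pool.Agent.H410R2.AC (wt GG cfg term WW pos Inj coef)

/-- the density of the primes among the rough numbers tends to zero with `δ` -/
theorem vp_small : ∃ C : ℝ, 0 < C ∧ ∀ δ : ℝ, 0 < δ → δ ≤ 1 → ∃ X₀ : ℕ, ∀ X : ℕ, X₀ ≤ X →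
    0 < VV δ X → vp δ X ≤ C * δ := by
  obtain ⟨c, hc, hmv⟩ := mv
  obtain ⟨X1, hpnt⟩ := Pool.Agent.H325R2.pnt 1 one_pos
  refine ⟨2 / c, by positivity, fun δ hδ hδ1 => ?_⟩
  obtain ⟨X2, h2⟩ := hmv δ hδ hδ1
  refine ⟨max (max X1 X2) 3, fun X hX hV => ?_⟩
  have hX1 : X1 ≤ X := ((le_max_left _ _).trans (le_max_left _ _)).trans hX
  have hX2 : X2 ≤ X := ((le_max_right _ _).trans (le_max_left _ _)).trans hX
  have hX3 : 3 ≤ X := (le_max_right _ _).trans hX
  have hX0 : (0 : ℝ) < X := by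
    have : 0 < X := by omega
    exact_mod_cast this
  have hL : 0 < Real.log X := Real.log_pos (by
    have : 1 < X := by omega
    exact_mod_cast this)
  have h3 := h2 X hX2
  have h4 := (abs_le.1 (hpnt X hX1)).2
  have hW : (0 : ℝ) < Wm X := by exact_mod_cast Pool.Agent.H361R2.PP.Wm_pos X
  have hφ : (0 : ℝ) < Nat.totient (Wm X) := by
    exact_mod_cast Nat.totient_pos.2 (Pool.Agent.H361R2.PP.Wm_pos X)
  have h5 : Pr X * Real.log X ≤ 2 * X := by linarith
  have h6 : Pr X ≤ 2 * X / Real.log X := by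
    rw [le_div_iff₀ hL]
    exact h5
  have h7 : 1 / (VV δ X * ((Nat.totient (Wm X) : ℝ) / Wm X)) ≤ δ * Real.log X / c := by
    rw [div_le_div_iff₀ (by positivity) hc, one_mul]
    have h8 : δ * Real.log X * (VV δ X * ((Nat.totient (Wm X) : ℝ) / Wm X)) =
      VV δ X * ((Nat.totient (Wm X) : ℝ) / Wm X) * (δ * Real.log X) := by ring
    rw [h8]
    exact h3
  calc vp δ X = Pr X / X * (1 / (VV δ X * ((Nat.totient (Wm X) : ℝ) / Wm X))) := by
        unfold vp
        field_simp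
    _ ≤ (2 / Real.log X) * (δ * Real.log X / c) := by
        apply mul_le_mul _ h7 (by positivity) (by positivity)
        rw [div_le_iff₀ hX0]
        calc Pr X ≤ 2 * X / Real.log X := h6
          _ = 2 / Real.log X * X := by ring
    _ = 2 / c * δ := by field_simp

section

variable {t : ℕ} {Λ δ θ s η γ : ℝ} {X b N N' : ℕ} {β : Fin t → ℝ} {S : Fin t → Finset (Finset ℕ)}

/-- sums over the primes at an additional position -/
theorem WUE (hMni : Mni) (h : Wst Λ δ θ s η γ X b N β S)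
    (hsm : SMb Λ δ θ s γ X b N' β S) {B U : Finset ℕ}
    (hB : B.card = N) (hBU : B ⊆ U) (hUN : U.card ≤ N') (hUs : U ⊆ Bw Λ X b) {a : ℕ}
    (haU : a ∈ U) (haB : a ∉ B) :
    ∑ n ∈ SP X b a, wwE δ γ X β S B U n ≤
      (1 + s) * (vp δ X * (Om δ X U.card * ZB γ β S B)) := by
  have ha1 : 1 ≤ a := mem_Bw1 (hUs haU)
  have hγ := h.γ0
  have hs := h.s0
  have hcoll : ∀ n ∈ SP X b a, wwE δ γ X β S B U n =
      rU δ X (U.erase a) n * WW B (fun _ => 1) (xh γ β S n) ^ 2 := by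
    intro n hn
    rw [mem_SP] at hn
    unfold wwE
    rw [rU_erase h haU hn.1 ha1 hn.2.2.2]
  rw [sum_congr rfl hcoll]
  have hcard : (U.erase a).card + 1 = U.card := by
    rw [card_erase_of_mem haU]
    have : 0 < U.card := card_pos.2 ⟨a, haU⟩
    omega
  have hBe : B ⊆ U.erase a := by
    intro x hx
    rw [mem_erase]
    exact ⟨fun he => haB (he ▸ hx), hBU hx⟩
  have h3 := ((hsm (U.erase a) ((erase_subset _ _).trans hUs) (by omega) B hBe
    (fun _ => 1) (fun σ => by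
    rw [abs_one]; nlinarith)).2 a (by rw [mem_sdiff]; exact ⟨hUs haU, notMem_erase a U⟩)).1
  set Ω := OmP δ X (U.erase a).card with hΩ
  have hΩ0 : 0 ≤ Ω := OmP_nonneg h _
  have hΩe : Ω = vp δ X * Om δ X U.card := by rw [hΩ, OmP_eq h, hcard]
  have hZ := (mni_of hMni h hB).1
  have h2 := (abs_le.1 h3).2
  have h5 : ∑ σ ∈ cfg t B, (1 : ℝ) ^ 2 * term (qh γ β S) σ = ZB γ β S B := by
    unfold ZB
    refine sum_congr rfl fun σ _ => by ring
  rw [h5] at h2
  have h6 : s * Ω ≤ s * (Ω * ZB γ β S B) := by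
    apply mul_le_mul_of_nonneg_left _ hs
    nlinarith
  have hre : vp δ X * (Om δ X U.card * ZB γ β S B) = Ω * ZB γ β S B := by
    rw [hΩe]; ring
  rw [hre]
  linarith

end

/-- good weights, with at most `M` additional rough positions that are rarely prime -/
def S_WTX : Prop := ∀ (T : ℕ) (μ s : ℝ), 1 ≤ T → 0 < μ → 0 < s → ∃ K : ℕ, 1 ≤ K ∧
  ∀ (Λ : ℝ) (M : ℕ) (ε : ℝ), 0 < Λ → 0 < ε →
  ∃ δ : ℝ, 0 < δ ∧ δ ≤ 1 / 8 ∧ ∃ (M₀ : ℝ) (X₀ : ℕ), 0 < M₀ ∧
  ∀ X : ℕ, X₀ ≤ X → ∀ b : ℕ, b < Wm X →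
  0 < VV δ X ∧
  ∀ B U : Finset ℕ, B ⊆ U → U ⊆ Bw Λ X b → B.card = T * K → U.card ≤ T * K + M →
    ∃ (w : ℕ → ℝ) (A : ℝ),
    (∀ n ∈ SI X b, 0 ≤ w n ∧ w n ≤ M₀ * rU δ X U n) ∧ Om δ X U.card ≤ A ∧
    ∑ n ∈ SI X b, w n ≤ (1 + s) * A ∧
    (∀ a ∈ B, (1 - s) * (μ / K) * A ≤ ∑ n ∈ SP X b a, w n ∧
      ∑ n ∈ SP X b a, w n ≤ (1 + s) * (μ / K) * A) ∧
    (∀ a ∈ B, ∀ a' ∈ B, a ≠ a' →
      ∑ n ∈ (SP X b a).filter (fun n => (n + a').Prime), w n ≤ (4 + s) * (μ / K) ^ 2 * A) ∧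
    ∀ a ∈ U, a ∉ B → ∑ n ∈ SP X b a, w n ≤ ε * A

theorem wtx_of (hSM : S_SM) (hPT : S_PT) (hPAR : S_PAR) (hCol : Col) (hCob : Cob)
    (hMni : Mni) (hWtx : Wtx) : S_WTX := by
  intro T μ s hT hμ hs
  set σ : ℝ := min s 1 / 10 with hσ
  have hσ0 : 0 < σ := by rw [hσ]; positivity
  have hσs : 10 * σ ≤ s := by
    rw [hσ]
    have := min_le_left s 1
    linarith
  have hσ1 : 10 * σ ≤ 1 := by
    rw [hσ]
    have := min_le_right s 1
    linarith
  obtain ⟨θ, t, K, u, β, hθ0, hθ, hK, hub, hβ1, hu, δa, hδa, hpar⟩ := hPAR T μ σ hT hμ hσ0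
  obtain ⟨Cv, hCv, hvps⟩ := vp_small
  refine ⟨K, hK, fun Λ M ε hΛ hε => ?_⟩
  obtain ⟨δb, hδb, hsm⟩ := hSM (T * K + M) 2 t u β Λ θ σ hub hβ1 hu hΛ hθ0 hθ hσ0
  obtain ⟨δ, hδ⟩ : ∃ δ : ℝ, δ = min (min (min δa δb) (1 / 8)) (ε / (2 * Cv)) := ⟨_, rfl⟩
  have hδ0 : 0 < δ := by rw [hδ]; positivity
  have h1 : δ ≤ δa := by
    rw [hδ]; exact (min_le_left _ _).trans ((min_le_left _ _).trans (min_le_left _ _))
  have h2 : δ ≤ δb := by
    rw [hδ]; exact (min_le_left _ _).trans ((min_le_left _ _).trans (min_le_right _ _))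
  have h4 : δ ≤ 1 / 8 := by rw [hδ]; exact (min_le_left _ _).trans (min_le_right _ _)
  have hδε : 2 * (Cv * δ) ≤ ε := by
    have h5 : δ ≤ ε / (2 * Cv) := by rw [hδ]; exact min_le_right _ _
    rw [le_div_iff₀ (by positivity)] at h5
    linarith
  obtain ⟨Xa, hpar⟩ := hpar δ hδ0 h1
  obtain ⟨Xb, hsm⟩ := hsm δ hδ0 h2
  obtain ⟨M₁, hM₁, Xd, hpt⟩ := hPT Λ δ hΛ hδ0 h4
  obtain ⟨Xe, hwtx⟩ := hWtx.2 δ hδ0 (by linarith)
  obtain ⟨Xf, hvps⟩ := hvps δ hδ0 (by linarith)
  set Q : ℝ := 1 + (1 / δ) ^ 2 * M₁ with hQ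
  have hQ1 : 1 ≤ Q := by
    rw [hQ]
    have : 0 ≤ (1 / δ) ^ 2 * M₁ := by positivity
    linarith
  set M₀ : ℝ := ((((T * K : ℕ) : ℝ) + 1) ^ t * Q ^ t) ^ 2 with hM₀
  have hM₀0 : 0 < M₀ := by positivity
  refine ⟨δ, hδ0, h4, M₀, max (max (max Xa Xb) (max Xd (max Xe 1))) Xf, hM₀0, ?_⟩
  intro X hX' b hb
  have hXf : Xf ≤ X := (le_max_right _ _).trans hX'
  have hX : max (max Xa Xb) (max Xd (max Xe 1)) ≤ X := (le_max_left _ _).trans hX'
  have hXa : Xa ≤ X := ((le_max_left _ _).trans (le_max_left _ _)).trans hX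
  have hXb : Xb ≤ X := ((le_max_right _ _).trans (le_max_left _ _)).trans hX
  have hXd : Xd ≤ X := ((le_max_left _ _).trans (le_max_right _ _)).trans hX
  have hXe : Xe ≤ X := ((le_max_left _ _).trans ((le_max_right _ _).trans (le_max_right _ _))).trans hX
  have hX1 : 1 ≤ X := ((le_max_right _ _).trans ((le_max_right _ _).trans (le_max_right _ _))).trans hX
  obtain ⟨S, γ, hFam, hS0, hSd, hSG, hγ0, hγ1, hV, hvp, hγμ, hη, hq, hG1, hG2⟩ := hpar X hXa
  have hPJ : 2 ^ 2 ^ JJ δ X ≤ X := by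
    have h5 := (hwtx X hXe).1
    have h6 : (X : ℝ) ^ δ ≤ (X : ℝ) ^ (1 : ℝ) := by
      apply Real.rpow_le_rpow_of_exponent_le _ (by linarith)
      exact_mod_cast hX1
    rw [Real.rpow_one] at h6
    have h7 := h5.trans h6
    exact_mod_cast h7
  have hSMb' : SMb Λ δ θ σ γ X b (T * K + M) β S := by
    intro U hU hN B hB c hc
    exact hsm X hXb b hb S hFam hS0 hSd hSG γ hγ0 hγ1 U hU hN B hB c hc
  have hSMb : SMb Λ δ θ σ γ X b (T * K) β S := by
    intro U hU hN B hB c hc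
    exact hSMb' U hU (hN.trans (Nat.le_add_right _ _)) B hB c hc
  have hst : Wst Λ δ θ σ σ γ X b (T * K) β S :=
    { sm := hSMb
      s0 := hσ0.le
      γ0 := hγ0
      β0 := fun τ => (hub τ).2.le
      β1 := hβ1
      gg := hSG
      hS := fun τ R hR => (hFam τ R hR).1
      η0 := hσ0.le
      hη := fun τ => by
        have := hη τ
        push_cast
        exact this
      hq := hq
      pJ := hPJ
      v0 := hV
      hX := hX1
      g1 := hG1 }
  refine ⟨hV, fun B U hBU hUs hB hUN => ?_⟩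
  have hZ := (mni_of hMni hst hB).1
  have hOm := Om_pos hst U.card
  set A : ℝ := Om δ X U.card * ZB γ β S B with hA
  have hA0 : 0 < A := by rw [hA]; positivity
  have hμK : 0 < μ / K := by
    have : (0 : ℝ) < K := by exact_mod_cast hK
    positivity
  refine ⟨wwE δ γ X β S B U, A, fun n hn => ⟨wwE_nonneg B U n, ?_⟩, ?_, ?_, fun a ha => ?_,
    fun a ha a' ha' hne => ?_, fun a haU haB => ?_⟩
  · have hW : |WW B (fun _ => 1) (xh γ β S n)| ≤ (((T * K : ℕ) : ℝ) + 1) ^ t * Q ^ t := by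
      have := WW_bound (t := t) (B := B) (x := xh γ β S n) hQ1 (by
        intro τ a ha
        have ha' := hUs (hBU ha)
        have haΛ : (a : ℝ) ≤ Λ * Real.log X := by
          have h5 : a ≤ ⌊Λ * Real.log X⌋₊ := (mem_BB.1 ha').2.1
          have h6 : 0 ≤ Λ * Real.log X := by
            have : 0 ≤ Real.log X := Real.log_nonneg (by exact_mod_cast hX1)
            positivity
          exact (Nat.le_floor_iff h6).1 h5
        have h5 := hpt X hXd b n a hn (mem_Bw1 ha') haΛ (S τ) (fun R hR => (hFam τ R hR).1)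
        unfold xh
        have hg := hSG τ
        have hβ := hub τ
        have hβ1' : β τ ≤ 1 := by
          rw [← hβ1]
          exact single_le_sum (f := β) (fun τ _ => (hub τ).2.le) (mem_univ τ)
        have hbg : 0 ≤ β τ / GG (S τ) := div_nonneg hβ.2.le (by linarith)
        rw [abs_mul, abs_mul, abs_of_nonneg hγ0, abs_of_nonneg hbg]
        have h6 : β τ / GG (S τ) ≤ 1 := by
          rw [div_le_one (by linarith)]
          linarith
        have h7 : γ ≤ (1 / δ) ^ 2 := by linarith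
        have h8 : β τ / GG (S τ) * |FS (S τ) a n| ≤ M₁ := by
          calc β τ / GG (S τ) * |FS (S τ) a n| ≤ 1 * M₁ := by
                apply mul_le_mul h6 h5 (abs_nonneg _) zero_le_one
            _ = M₁ := one_mul _
        calc γ * (β τ / GG (S τ) * |FS (S τ) a n|) ≤ (1 / δ) ^ 2 * M₁ := by
              apply mul_le_mul h7 h8 _ (by positivity)
              exact mul_nonneg hbg (abs_nonneg _)
          _ ≤ Q := by rw [hQ]; linarith)
      rw [hB] at this
      exact this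
    unfold wwE
    rw [mul_comm]
    apply mul_le_mul_of_nonneg_right _ (rU_nonneg U n)
    rw [hM₀, ← sq_abs]
    exact pow_le_pow_left₀ (abs_nonneg _) hW 2
  · rw [hA]
    nlinarith
  · refine (W1E hMni hst hSMb' hB hBU hUN hUs).trans ?_
    rw [← hA]
    apply mul_le_mul_of_nonneg_right _ hA0.le
    linarith
  · obtain ⟨h5, h6⟩ := W2E hCol hCob hMni hst hSMb' hB hBU hUN hUs ha
    rw [hγμ, ← hA] at h5 h6
    have h7 : 0 < μ / K * A := by positivity
    constructor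
    · refine le_trans ?_ h5
      rw [mul_assoc]
      apply mul_le_mul_of_nonneg_right _ h7.le
      linarith
    · refine h6.trans ?_
      rw [mul_assoc (1 + s)]
      apply mul_le_mul_of_nonneg_right _ h7.le
      linarith
  · refine (W3E hCol hCob hMni hst hSMb' hB hBU hUN hUs ha ha' hne).trans ?_
    rw [← hA]
    have h5 : vp δ X * (1 / GG (S1 δ θ X)) * (1 + γ) ^ 4 ≤ (4 + σ) * (μ / K) ^ 2 := by
      rw [← hγμ]
      calc vp δ X * (1 / GG (S1 δ θ X)) * (1 + γ) ^ 4 ≤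
          vp δ X * ((4 + σ) * vp δ X) * (1 + γ) ^ 4 := by
            apply mul_le_mul_of_nonneg_right _ (by positivity)
            exact mul_le_mul_of_nonneg_left hG2 hvp.le
        _ = _ := by ring
    calc (1 + σ) * (vp δ X * (1 / GG (S1 δ θ X)) * (1 + γ) ^ 4 * A) ≤
        (1 + σ) * ((4 + σ) * (μ / K) ^ 2 * A) := by
          apply mul_le_mul_of_nonneg_left _ (by linarith)
          exact mul_le_mul_of_nonneg_right h5 hA0.le
      _ = (1 + σ) * (4 + σ) * ((μ / K) ^ 2 * A) := by ring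
      _ ≤ (4 + s) * ((μ / K) ^ 2 * A) := by
          apply mul_le_mul_of_nonneg_right _ (by positivity)
          nlinarith
      _ = _ := by ring
  · refine (WUE hMni hst hSMb' hB hBU hUN hUs haU haB).trans ?_
    rw [← hA]
    have h5 : vp δ X ≤ Cv * δ := hvps X hXf hV
    calc (1 + σ) * (vp δ X * A) ≤ 2 * (Cv * δ * A) := by
          apply mul_le_mul (by linarith) _ (by positivity) (by norm_num)
          exact mul_le_mul_of_nonneg_right h5 hA0.le
      _ = 2 * (Cv * δ) * A := by ring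
      _ ≤ ε * A := mul_le_mul_of_nonneg_right hδε hA0.le

end Pool.Agent.TH882.HX
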