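import Pool.Agent.TH882.X1

/-! The coloured Maynard-Tao theorem with additional rough positions none of which is prime. -/

set_option autoImplicit false

open Finset

namespace Pool.Agent.TH882.HX

open Pool.Agent.H361R2.PP
open Pool.Agent.W70.HR
open Pool.Agent.TH882.HE

theorem wtx : S_WTX :=
  wtx_of sm pt par Pool.Agent.H872R2.PPCol.col Pool.Agent.H872R2.PPCol.cob
    Pool.Agent.H433R2.PPMni.mni Pool.Agent.H325R2.wtx

open Classical in
/-- the `n` of the class `b` for which all positions of `U` are rough, a quarter of the classes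
contains a prime, and all primes among the positions of `U` are positions of `H` -/
noncomputable def HSx (δ : ℝ) (X b : ℕ) {T K : ℕ} (H : Fin T → Fin K → ℕ) (U : Finset ℕ) :
    Finset ℕ :=
  (HS δ X b H U).filter (fun n => ∀ u ∈ U, (n + u).Prime → ∃ g i, H g i = u)

theorem mtx (T : ℕ) (hT : 1 ≤ T) : ∃ K : ℕ, 1 ≤ K ∧ ∀ (Λ : ℝ) (M : ℕ), 0 < Λ →
    ∃ δ c : ℝ, 0 < δ ∧ δ ≤ 1 / 8 ∧ 0 < c ∧ ∃ X₀ : ℕ, ∀ X : ℕ, X₀ ≤ X → ∀ b : ℕ, b < Wm X →
    0 < VV δ X ∧ ∀ (H : Fin T → Fin K → ℕ) (U : Finset ℕ), (∀ g i, H g i ∈ U) →
      Function.Injective (fun x : Fin T × Fin K => H x.1 x.2) → U ⊆ Bw Λ X b →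
      U.card ≤ T * K + M → c * Om δ X U.card ≤ ((HSx δ X b H U).card : ℝ) := by
  classical
  have hT0 : (0 : ℝ) < (T : ℝ) := by exact_mod_cast hT
  obtain ⟨K, hK, hW⟩ := wtx T (16 * (T : ℝ)) (1 / (100 * (T : ℝ))) hT (by positivity)
    (by positivity)
  refine ⟨K, hK, ?_⟩
  intro Λ M hΛ
  set ε : ℝ := 1 / (16 * T * (M + 1)) with hε
  have hε0 : 0 < ε := by positivity
  obtain ⟨δ, hδ, hδ8, M₀, X₀, hM₀, hX⟩ := hW Λ M ε hΛ hε0
  refine ⟨δ, 1 / (16 * (T : ℝ) * M₀), hδ, hδ8, by positivity, max X₀ 1, ?_⟩
  intro X hXX b hb
  have hX1 : 1 ≤ X := le_trans (le_max_right _ _) hXX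
  obtain ⟨hV, hB⟩ := hX X (le_trans (le_max_left _ _) hXX) b hb
  refine ⟨hV, ?_⟩
  intro H U hHU hinj hUs hUc
  have hWm := Pool.Agent.W67.HR.Wm_pos X b hb
  have hXpos : (0 : ℝ) < (X : ℝ) := by exact_mod_cast hX1
  set B : Finset ℕ := (univ : Finset (Fin T × Fin K)).image (fun x => H x.1 x.2) with hBdef
  have hBU : B ⊆ U := by
    intro a ha
    rw [hBdef, Finset.mem_image] at ha
    obtain ⟨x, _, rfl⟩ := ha
    exact hHU x.1 x.2
  have hBcard : B.card = T * K := by
    rw [hBdef, Finset.card_image_of_injective _ hinj]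
    simp
  have hmem : ∀ g i, H g i ∈ B := fun g i => by
    rw [hBdef, Finset.mem_image]
    exact ⟨(g, i), Finset.mem_univ _, rfl⟩
  have hUB : (U \ B).card ≤ M := by
    rw [card_sdiff_of_subset hBU, hBcard]
    omega
  obtain ⟨w, A, hw, hOm, hsum, h1, h2, h3⟩ := hB B U hBU hUs hBcard hUc
  have hOmpos : 0 < Om δ X U.card := by
    unfold Om
    positivity
  have hA : 0 < A := lt_of_lt_of_le hOmpos hOm
  have hSP : ∀ a, SP X b a = (SI X b).filter (fun n => (n + a).Prime) := fun a => SP_eq
  have hcs := Pool.Agent.W168.HR.cs T K (SI X b) w (fun g i n => (n + H g i).Prime) A (16 * (T : ℝ))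
    (1 / (100 * (T : ℝ))) hT hK (fun n hn => (hw n hn).1) hA le_rfl (by positivity)
    (by
      rw [mul_one_div, div_self (by positivity)])
    hsum
    (by
      intro g i
      have := h1 (H g i) (hmem g i)
      rw [hSP] at this
      convert this using 4)
    (by
      intro g i j hij
      have hne : H g i ≠ H g j := by
        intro he
        have := @hinj (g, i) (g, j) he
        exact hij (Prod.ext_iff.mp this).2
      have := h2 (H g i) (hmem g i) (H g j) (hmem g j) hne
      rw [hSP, Finset.filter_filter] at this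
      convert this using 4)
  -- the contribution of the primes at the additional positions
  have hbad : ∑ n ∈ (SI X b).filter (fun n => ∃ u ∈ U \ B, (n + u).Prime), w n ≤
      A / (16 * T) := by
    calc ∑ n ∈ (SI X b).filter (fun n => ∃ u ∈ U \ B, (n + u).Prime), w n ≤
        ∑ n ∈ (SI X b).filter (fun n => ∃ u ∈ U \ B, (n + u).Prime),
          ∑ u ∈ U \ B, (if (n + u).Prime then w n else 0) := by
          apply sum_le_sum
          intro n hn
          rw [mem_filter] at hn
          obtain ⟨hn1, u, hu, hp⟩ := hn
          calc w n = if (n + u).Prime then w n else 0 := by rw [if_pos hp]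
            _ ≤ _ := single_le_sum (f := fun u => if (n + u).Prime then w n else 0)
              (fun v _ => by
                split_ifs
                · exact (hw n hn1).1
                · exact le_rfl) hu
      _ ≤ ∑ n ∈ SI X b, ∑ u ∈ U \ B, (if (n + u).Prime then w n else 0) := by
          apply sum_le_sum_of_subset_of_nonneg (filter_subset _ _)
          intro n hn _
          apply sum_nonneg
          intro v _
          split_ifs
          · exact (hw n hn).1
          · exact le_rfl
      _ = ∑ u ∈ U \ B, ∑ n ∈ SP X b u, w n := by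
          rw [sum_comm]
          apply sum_congr rfl
          intro u _
          rw [hSP, sum_filter]
      _ ≤ ∑ _u ∈ U \ B, ε * A := by
          apply sum_le_sum
          intro u hu
          rw [mem_sdiff] at hu
          exact h3 u hu.1 hu.2
      _ = (U \ B).card * (ε * A) := by rw [sum_const, nsmul_eq_mul]
      _ ≤ (M + 1) * (ε * A) := by
          apply mul_le_mul_of_nonneg_right _ (by positivity)
          have : ((U \ B).card : ℝ) ≤ M := by exact_mod_cast hUB
          linarith
      _ = A / (16 * T) := by
          rw [hε]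
          field_simp
  -- upper bound of the sum by the number of hits
  have hub : ∑ n ∈ (SI X b).filter (fun n =>
      T ≤ 4 * ((univ : Finset (Fin T)).filter (fun g => ∃ i, (n + H g i).Prime)).card), w n ≤
      M₀ * ((HSx δ X b H U).card : ℝ) +
        ∑ n ∈ (SI X b).filter (fun n => ∃ u ∈ U \ B, (n + u).Prime), w n := by
    have e1 : ∑ n ∈ (SI X b).filter (fun n =>
        T ≤ 4 * ((univ : Finset (Fin T)).filter (fun g => ∃ i, (n + H g i).Prime)).card), w n ≤
        ∑ n ∈ (SI X b).filter (fun n =>
        T ≤ 4 * ((univ : Finset (Fin T)).filter (fun g => ∃ i, (n + H g i).Prime)).card),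
          ((if n ∈ HSx δ X b H U then M₀ else 0) +
            (if ∃ u ∈ U \ B, (n + u).Prime then w n else 0)) := by
      apply Finset.sum_le_sum
      intro n hn
      have hnS := (Finset.mem_filter.mp hn).1
      have hnT := (Finset.mem_filter.mp hn).2
      obtain ⟨hw0, hwn⟩ := hw n hnS
      by_cases hbd : ∃ u ∈ U \ B, (n + u).Prime
      · rw [if_pos hbd]
        have : (0 : ℝ) ≤ if n ∈ HSx δ X b H U then M₀ else 0 := by
          split_ifs
          · exact hM₀.le
          · exact le_rfl
        linarith
      · rw [if_neg hbd, add_zero]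
        by_cases hr : ∀ u ∈ U, rg (P1 (HH X) (JJ δ X)) u n = 1
        · have hmem' : n ∈ HSx δ X b H U := by
            unfold HSx HS
            rw [mem_filter, mem_filter]
            refine ⟨⟨hnS, hr, ?_⟩, ?_⟩
            · convert hnT using 4
            · intro u hu hp
              by_contra hcon
              apply hbd
              refine ⟨u, ?_, hp⟩
              rw [mem_sdiff]
              refine ⟨hu, fun huB => hcon ?_⟩
              rw [hBdef, mem_image] at huB
              obtain ⟨x, -, hx⟩ := huB
              exact ⟨x.1, x.2, hx⟩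
          rw [if_pos hmem']
          calc w n ≤ M₀ * rU δ X U n := hwn
            _ ≤ M₀ * 1 := mul_le_mul_of_nonneg_left (Pool.Agent.W67.HR.rU_le δ X U n) hM₀.le
            _ = M₀ := mul_one _
        · have : rU δ X U n = 0 := Pool.Agent.W67.HR.rU_zero _ _ _ _ hr
          rw [this, mul_zero] at hwn
          refine hwn.trans ?_
          split_ifs
          · exact hM₀.le
          · exact le_rfl
    refine le_trans e1 ?_
    rw [Finset.sum_add_distrib]
    apply add_le_add
    · rw [← Finset.sum_filter, Finset.sum_const, nsmul_eq_mul, mul_comm]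
      apply mul_le_mul_of_nonneg_left _ hM₀.le
      apply Nat.cast_le.2
      apply card_le_card
      intro n hn
      exact (mem_filter.1 hn).2
    · rw [← Finset.sum_filter]
      apply sum_le_sum_of_subset_of_nonneg
      · intro n hn
        rw [mem_filter, mem_filter] at hn
        rw [mem_filter]
        exact ⟨hn.1.1, hn.2⟩
      · intro n hn _
        rw [mem_filter] at hn
        exact (hw n hn.1).1
  have hcs' : A / (8 * (T : ℝ)) ≤ M₀ * ((HSx δ X b H U).card : ℝ) + A / (16 * T) := by
    refine (le_trans (le_of_le_of_eq hcs (Finset.sum_congr ?_ (fun _ _ => rfl))) hub).trans ?_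
    · ext n
      simp only [Finset.mem_filter]
      refine and_congr_right (fun _ => ?_)
      constructor
      · intro h
        convert h using 3
        ext g
        simp only [Finset.mem_filter]
      · intro h
        convert h using 3
        ext g
        simp only [Finset.mem_filter]
    · linarith
  have hcs'' : A / (16 * T) ≤ M₀ * ((HSx δ X b H U).card : ℝ) := by
    have : A / (8 * (T : ℝ)) = A / (16 * T) + A / (16 * T) := by
      field_simp
      ring
    linarith
  calc 1 / (16 * (T : ℝ) * M₀) * Om δ X U.card ≤ 1 / (16 * (T : ℝ) * M₀) * A :=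
        mul_le_mul_of_nonneg_left hOm (by positivity)
    _ = A / (16 * (T : ℝ)) / M₀ := by field_simp
    _ ≤ _ := by
        rw [div_le_iff₀ hM₀]
        linarith

end Pool.Agent.TH882.HX
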