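import Pool.Agent.TH882.X2
import Pool.Agent.TH882.R8
import Pool.Agent.TH882.Clu

/-! Runs of consecutive primes all of which have almost prime companions. -/

set_option autoImplicit false

open Finset Filter Topology Polynomial

namespace Pool.Agent.TH882.HX

open Pool.Agent.H361R2.PP
open Pool.Agent.W70.HR
open Pool.Agent.TH882.UB
open Pool.Agent.TH882.HE
open Pool.Agent.TH882.PG (Hq Uq Hq_mem Hqa_mem Hq_inj Uq_card Uq_pos Hqa_pos Hq_ge)
open Pool.Agent.TH882.RQ (LocQ exists_classQ)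
open Pool.Agent.TH882.AG (AP rough_ap)

/-- `0` and the elements of `S` are admissible together -/
def Adm (S : Finset ℤ) : Prop := ∀ l : ℕ, l.Prime → ∃ x : ℤ, ¬ (l : ℤ) ∣ x ∧ ∀ a ∈ S, ¬ (l : ℤ) ∣ x + a

/-- all primes in `(n, n + C]` have almost prime companions, and there are at least `m` of them -/
def Run (S : Finset ℤ) (m R C n : ℕ) : Prop :=
  m ≤ ((Icc 1 C).filter (fun w => (n + w).Prime)).card ∧
    ∀ w ∈ Icc 1 C, (n + w).Prime → AP S R (n + w)

/-- the primes for the cover -/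
noncomputable def pvs (B v : ℕ) : ℕ := Nat.nth Nat.Prime (B + v)

lemma pvs_prime (B v : ℕ) : (pvs B v).Prime := Nat.prime_nth_prime _

lemma pvs_gt (B v : ℕ) : B < pvs B v := by
  have := Nat.add_two_le_nth_prime (B + v)
  unfold pvs
  omega

lemma pvs_inj (B : ℕ) : Function.Injective (pvs B) := by
  intro v v' he
  have := Nat.nth_injective Nat.infinite_setOf_prime he
  omega

/-- the positions are admissible -/
lemma adm_Uq (S : Finset ℤ) (hS : Adm S) (T K : ℕ) :
    LocQ (fun j : Fin 0 => (0 : ℤ[X])) (Uq S T K 0) (fun _ => 0) := by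
  intro l hl
  obtain ⟨x, hx⟩ := Pool.Agent.TH882.RF.one_primeR (fun j : Fin 0 => (0 : ℤ[X]))
    (fun j => j.elim0) (fun j => j.elim0) S T K 0 (by simp) (fun j => j.elim0) (fun _ => 0)
    (by
      intro l hl
      obtain ⟨x, h1, h2⟩ := hS l hl
      exact ⟨x, h1, fun j => j.elim0, h2⟩) l hl
  refine ⟨x, ?_, fun j => j.elim0⟩
  intro u hu
  unfold Uq at hu
  rw [mem_union, mem_image, mem_image] at hu
  rcases hu with ⟨y, -, rfl⟩ | ⟨y, hy, rfl⟩
  · exact (hx y.1 y.2).1
  · rw [mem_product] at hy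
    have e1 := Hqa_pos S T K 0 y.1.1 y.1.2 y.2 hy.2
    rw [Int.toNat_of_nonneg e1.le]
    exact (hx y.1.1 y.1.2).2.2 y.2 hy.2

theorem runs (S : Finset ℤ) (hS : Adm S) (m : ℕ) (hm : 1 ≤ m) : ∃ R C D : ℕ, ∃ X₀ : ℕ,
    ∀ X : ℕ, X₀ ≤ X → ∃ A ⊆ Ico X (2 * X), (∀ n ∈ A, Run S m R C n) ∧
      (X : ℝ) / Real.log X ^ D ≤ (A.card : ℝ) := by
  classical
  set T : ℕ := 4 * m with hTd
  have hT1 : 1 ≤ T := by omega
  obtain ⟨K, hK, hmte⟩ := mtx T hT1
  obtain ⟨δ, c, hδ, hδ8, hc, X1, h1⟩ := hmte 1 (T * K * S.card) one_pos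
  have hδ1 : δ ≤ 1 := by linarith
  set U := Uq S T K 0 with hU
  set L : ℕ := U.card with hL
  set A0 : ℕ := U.sup id with hA0
  have hUA : ∀ u ∈ U, u ≤ A0 := fun u hu => Finset.le_sup (f := id) hu
  set V : Finset ℕ := Icc 1 A0 \ U with hV
  obtain ⟨X2, h2⟩ := rough_ap δ hδ hδ1
  obtain ⟨X3, h3⟩ := Om_lower δ hδ hδ1 L
  obtain ⟨X4, hHH⟩ := eventually_atTop.1 (HH_tendsto.eventually_ge_atTop (V.sup (pvs A0)))
  have hlogt : Tendsto (fun X : ℕ => Real.log (X : ℝ)) atTop atTop :=
    Real.tendsto_log_atTop.comp tendsto_natCast_atTop_atTop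
  obtain ⟨X5, h5⟩ := eventually_atTop.1 (hlogt.eventually_ge_atTop (max (1 / c) (A0 + 1)))
  refine ⟨⌊4 / δ⌋₊, A0, 2 * L + 2,
    max (max (max X1 X2) (max X3 X4)) (max X5 (max 16 (max A0 (V.sup (pvs A0) + 1)))), ?_⟩
  intro X hX
  have hX1 : X1 ≤ X := by omega
  have hX2 : X2 ≤ X := by omega
  have hX3 : X3 ≤ X := by omega
  have hX4 : X4 ≤ X := by omega
  have hX16 : 16 ≤ X := by omega
  have hXA : A0 ≤ X := by omega
  have hXV : V.sup (pvs A0) + 1 ≤ X := by omega
  have hH4 := hHH X hX4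
  have hll := h5 X (by omega)
  have hl1 : 1 / c ≤ Real.log X := (le_max_left _ _).trans hll
  have hl2 : (A0 : ℝ) + 1 ≤ Real.log X := (le_max_right _ _).trans hll
  have hX0 : (0 : ℝ) < X := by
    have : 0 < X := by omega
    exact_mod_cast this
  have hA00 : (0 : ℝ) ≤ A0 := Nat.cast_nonneg _
  have hl0 : 0 < Real.log X := by linarith
  obtain ⟨b, hb1, hb2, -, hb4⟩ := exists_classQ (fun j : Fin 0 => (0 : ℤ[X])) U V (pvs A0)
    (fun v _ => pvs_prime A0 v) ((pvs_inj A0).injOn) (by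
      intro v hv u hu hd
      rw [hV, Finset.mem_sdiff, mem_Icc] at hv
      have e1 := hUA u hu
      have e2 := pvs_gt A0 v
      have e3 : (u : ℤ) - v ≠ 0 := by
        intro h0
        have : u = v := by omega
        exact hv.2 (this ▸ hu)
      have e4 := Int.le_of_dvd (abs_pos.2 e3) ((dvd_abs _ _).2 hd)
      have e5 : |(u : ℤ) - v| ≤ A0 := by
        rw [abs_le]
        constructor <;> omega
      omega) (fun _ => 0) X (adm_Uq S hS T K) (fun v _ j => j.elim0)
  obtain ⟨hV0, hHS⟩ := h1 X hX1 b hb1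
  have hUB : U ⊆ Bw 1 X b := by
    intro u hu
    unfold Bw BB
    rw [mem_filter, mem_Icc]
    refine ⟨⟨Uq_pos S T K 0 u hu, ?_⟩, hb2 u hu⟩
    apply Nat.le_floor
    have e1 : (u : ℝ) ≤ A0 := by exact_mod_cast hUA u hu
    rw [one_mul]
    linarith
  have hHS2 := hHS (Hq S T K 0) U (fun g i => Hq_mem S T K 0 g i) (Hq_inj S T K 0) hUB
    (Uq_card S T K 0)
  refine ⟨HSx δ X b (Hq S T K 0) U, ?_, ?_, ?_⟩
  · intro n hn
    unfold HSx HS at hn
    rw [mem_filter, mem_filter, mem_SI] at hn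
    rw [mem_Ico]
    exact ⟨hn.1.1.1, hn.1.1.2.1⟩
  · intro n hn
    unfold HSx HS at hn
    rw [mem_filter, mem_filter] at hn
    obtain ⟨⟨hnS, hrg, hcnt⟩, honly⟩ := hn
    have hnS' := mem_SI.1 hnS
    obtain ⟨hn1, hn2, hn3⟩ := hnS'
    have hap : ∀ g i, AP S ⌊4 / δ⌋₊ (n + Hq S T K 0 g i) := by
      intro g i a ha
      have e1 := Hqa_pos S T K 0 g i a ha
      have e2 := Hqa_mem S T K 0 g i a ha
      have e3 : ((n + Hq S T K 0 g i : ℕ) : ℤ) + a =
          ((n + ((Hq S T K 0 g i : ℤ) + a).toNat : ℕ) : ℤ) := by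
        push_cast
        rw [Int.toNat_of_nonneg e1.le]
        ring
      refine ⟨?_, ?_⟩
      · push_cast
        omega
      · rw [e3, Int.toNat_natCast]
        exact h2 X hX2 b n _ hb1 hnS (hb2 _ e2) ((hUA _ e2).trans hXA) (hrg _ e2)
    constructor
    · -- the number of primes
      set G := (univ : Finset (Fin T)).filter (fun g => ∃ i, (n + Hq S T K 0 g i).Prime) with hG
      have hG2 : m ≤ G.card := by
        have : T ≤ 4 * G.card := by
          convert hcnt
        omega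
      have i0 : Fin K := ⟨0, by omega⟩
      have hex : ∀ g : Fin T, ∃ i : Fin K, g ∈ G → (n + Hq S T K 0 g i).Prime := by
        intro g
        by_cases hg : g ∈ G
        · have e1 := hg
          rw [hG, mem_filter] at e1
          obtain ⟨i, hi⟩ := e1.2
          exact ⟨i, fun _ => hi⟩
        · exact ⟨i0, fun h => absurd h hg⟩
      choose j hj using hex
      have hsub : G.image (fun g => Hq S T K 0 g (j g)) ⊆
          (Icc 1 A0).filter (fun w => (n + w).Prime) := by
        intro w hw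
        rw [mem_image] at hw
        obtain ⟨g, hg, rfl⟩ := hw
        rw [mem_filter, mem_Icc]
        exact ⟨⟨Uq_pos S T K 0 _ (Hq_mem S T K 0 g (j g)), hUA _ (Hq_mem S T K 0 g (j g))⟩, hj g hg⟩
      have hcard : (G.image (fun g => Hq S T K 0 g (j g))).card = G.card := by
        apply card_image_of_injOn
        intro g _ g' _ h
        have e2 := @Hq_inj S T K 0 (g, j g) (g', j g') h
        exact (Prod.ext_iff.1 e2).1
      calc m ≤ G.card := hG2
        _ = _ := hcard.symm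
        _ ≤ _ := card_le_card hsub
    · intro w hw hp
      by_cases hwU : w ∈ U
      · obtain ⟨g, i, hgi⟩ := honly w hwU hp
        rw [← hgi]
        exact hap g i
      · exfalso
        have hwV : w ∈ V := by
          rw [hV, Finset.mem_sdiff]
          exact ⟨hw, hwU⟩
        have hle : pvs A0 w ≤ V.sup (pvs A0) := Finset.le_sup (f := pvs A0) hwV
        have hpw := pvs_prime A0 w
        have hW2 : pvs A0 w ∣ Wm X := by
          unfold Wm
          exact hpw.dvd_primorial_iff.2 (hle.trans hH4)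
        have e5 : n ≡ b [MOD pvs A0 w] := by
          rw [← hn3]
          exact ((Nat.mod_modEq _ _).of_dvd hW2).symm
        have e6 : pvs A0 w ∣ n + w :=
          ((e5.add_right w).dvd_iff dvd_rfl).2 (hb4 w hwV (hle.trans hH4))
        have e7 := (Nat.prime_dvd_prime_iff_eq hpw hp).1 e6
        omega
  · refine le_trans ?_ hHS2
    obtain ⟨-, hOm⟩ := h3 X hX3
    calc (X : ℝ) / Real.log X ^ (2 * L + 2) = (1 / Real.log X) * (X / Real.log X ^ (2 * L + 1)) := by
          rw [pow_succ]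
          field_simp
      _ ≤ c * (X / Real.log X ^ (2 * L + 1)) := by
          apply mul_le_mul_of_nonneg_right _ (by positivity)
          rw [div_le_iff₀ hl0]
          rw [div_le_iff₀ hc] at hl1
          linarith
      _ ≤ c * Om δ X L := mul_le_mul_of_nonneg_left hOm hc.le

end Pool.Agent.TH882.HX
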