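import Pool.Agent.TH882.X3

/-! The indices of the primes of the runs. -/

set_option autoImplicit false

open Finset Filter Topology

namespace Pool.Agent.TH882.HX

open Pool.Agent.TH882.AG (AP)

/-- the number of primes in `(n, n + C]` in terms of the counting function -/
lemma count_run (n C : ℕ) :
    Nat.count Nat.Prime (n + 1) + ((Icc 1 C).filter (fun w => (n + w).Prime)).card =
      Nat.count Nat.Prime (n + 1 + C) := by
  classical
  rw [Nat.count_add Nat.Prime (n + 1) C]
  congr 1
  rw [Nat.count_eq_card_filter_range]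
  apply card_bij (fun w _ => w - 1)
  · intro w hw
    rw [mem_filter, mem_Icc] at hw
    rw [mem_filter, mem_range]
    refine ⟨by omega, ?_⟩
    have : n + 1 + (w - 1) = n + w := by omega
    rw [this]
    exact hw.2
  · intro w hw w' hw' h
    rw [mem_filter, mem_Icc] at hw hw'
    omega
  · intro w hw
    rw [mem_filter, mem_range] at hw
    refine ⟨w + 1, ?_, by omega⟩
    rw [mem_filter, mem_Icc]
    refine ⟨by omega, ?_⟩
    have : n + (w + 1) = n + 1 + w := by omega
    rw [this]
    exact hw.2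

/-- the primes with index between the number of primes up to `n` and up to `n + C` -/
lemma nth_between (n C i : ℕ) (h1 : Nat.count Nat.Prime (n + 1) ≤ i)
    (h2 : i < Nat.count Nat.Prime (n + 1 + C)) :
    ∃ w ∈ Icc 1 C, Nat.nth Nat.Prime i = n + w := by
  have e1 : Nat.nth Nat.Prime i < n + 1 + C := Nat.nth_lt_of_lt_count h2
  have e2 : n + 1 ≤ Nat.nth Nat.Prime i := by
    by_contra hcon
    push Not at hcon
    have e3 : Nat.nth Nat.Prime i + 1 ≤ n + 1 := by omega
    have e4 := Nat.count_monotone Nat.Prime e3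
    rw [Nat.count_nth_succ_of_infinite Nat.infinite_setOfPred_prime] at e4
    omega
  refine ⟨Nat.nth Nat.Prime i - n, ?_, by omega⟩
  rw [mem_Icc]
  omega

/-- runs contain `r + 1` consecutive primes the first of which has an index divisible by `k` -/
lemma run_index (S : Finset ℤ) (k r R C n : ℕ) (hk : 1 ≤ k) (h : Run S (k + r) R C n) :
    ∃ j : ℕ, 1 ≤ j ∧ ∀ i ≤ r, n < Nat.nth Nat.Prime (j * k + i - 1) ∧
      Nat.nth Nat.Prime (j * k + i - 1) ≤ n + C ∧ AP S R (Nat.nth Nat.Prime (j * k + i - 1)) := by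
  classical
  obtain ⟨h1, h2⟩ := h
  have h3 := count_run n C
  set c := Nat.count Nat.Prime (n + 1) with hc
  set j := c / k + 1 with hj
  have e1 : c / k * k ≤ c := Nat.div_mul_le_self c k
  have e3 : j * k = c / k * k + k := by rw [hj]; ring
  have e2 : c < j * k := by
    have e5 := Nat.div_add_mod c k
    have e4 := Nat.mod_lt c hk
    rw [e3, mul_comm (c / k) k]
    omega
  refine ⟨j, Nat.succ_pos _, ?_⟩
  intro i hi
  have e4 : c ≤ j * k + i - 1 := by omega
  have e5 : j * k + i - 1 < Nat.count Nat.Prime (n + 1 + C) := by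
    rw [← h3]
    have : j * k + i ≤ c + (k + r) := by omega
    omega
  obtain ⟨w, hw, hnw⟩ := nth_between n C (j * k + i - 1) e4 e5
  have hp : (n + w).Prime := by
    rw [← hnw]
    exact Nat.prime_nth_prime _
  have hw' := mem_Icc.1 hw
  refine ⟨by omega, by omega, ?_⟩
  rw [hnw]
  exact h2 w hw hp

/-- many multiples of `k` among the indices -/
theorem indices (S : Finset ℤ) (hS : Adm S) (k r : ℕ) (hk : 1 ≤ k) : ∃ R D : ℕ, ∃ x₀ : ℕ,
    ∀ x : ℕ, x₀ ≤ x → (x : ℝ) / Real.log x ^ D ≤
      (({j : ℕ | 1 ≤ j ∧ Nat.nth Nat.Prime (j * k + r - 1) ≤ x ∧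
        ∀ i ≤ r, AP S R (Nat.nth Nat.Prime (j * k + i - 1))}.ncard : ℕ) : ℝ) := by
  classical
  obtain ⟨R, C, D, X0, h⟩ := runs S hS (k + r) (by omega)
  have hlogt : Tendsto (fun X : ℕ => Real.log (X : ℝ)) atTop atTop :=
    Real.tendsto_log_atTop.comp tendsto_natCast_atTop_atTop
  obtain ⟨X5, h5⟩ := eventually_atTop.1 (hlogt.eventually_ge_atTop (4 * (C + 1)))
  refine ⟨R, D + 1, 3 * (X0 + X5 + C + 3), ?_⟩
  intro x hx
  set X : ℕ := x / 3 with hX
  have hXx : 3 * X ≤ x := by omega
  have hXx2 : x < 3 * X + 3 := by omega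
  have hXX : X0 + X5 + C + 3 ≤ X := by omega
  obtain ⟨A, hA1, hA2, hA3⟩ := h X (by omega)
  set J := {j : ℕ | 1 ≤ j ∧ Nat.nth Nat.Prime (j * k + r - 1) ≤ x ∧
        ∀ i ≤ r, AP S R (Nat.nth Nat.Prime (j * k + i - 1))} with hJ
  have hJfin : J.Finite := by
    apply (finite_toSet (range (x + 1))).subset
    rintro j ⟨h1, h2, -⟩
    rw [mem_coe, mem_range]
    have e1 := Nat.add_two_le_nth_prime (j * k + r - 1)
    have e2 : j * 1 ≤ j * k := Nat.mul_le_mul_left j hk
    omega
  choose! f hf using fun (n : ℕ) (hn : n ∈ A) => run_index S k r R C n hk (hA2 n hn)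
  have hmaps : ∀ n ∈ A, f n ∈ hJfin.toFinset := by
    intro n hn
    rw [Set.Finite.mem_toFinset]
    obtain ⟨e1, e2⟩ := hf n hn
    have e3 := mem_Ico.1 (hA1 hn)
    refine ⟨e1, ?_, fun i hi => (e2 i hi).2.2⟩
    have := (e2 r le_rfl).2.1
    omega
  have hfib : ∀ j ∈ hJfin.toFinset, (A.filter (fun n => f n = j)).card ≤ C := by
    intro j _
    set q := Nat.nth Nat.Prime (j * k + 0 - 1) with hq
    have hsub : A.filter (fun n => f n = j) ⊆ Ico (q - C) q := by
      intro n hn
      rw [mem_filter] at hn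
      obtain ⟨hn1, hn2⟩ := hn
      have e2 := (hf n hn1).2 0 (Nat.zero_le _)
      rw [hn2] at e2
      rw [mem_Ico]
      omega
    refine (card_le_card hsub).trans ?_
    rw [Nat.card_Ico]
    omega
  have hcard : A.card ≤ C * hJfin.toFinset.card :=
    card_le_mul_card_image_of_maps_to hmaps C hfib
  have hJc : J.ncard = hJfin.toFinset.card := Set.ncard_eq_toFinset_card _ hJfin
  rw [hJc]
  have hX0 : (0 : ℝ) < X := by
    have : 0 < X := by omega
    exact_mod_cast this
  have hx0 : (0 : ℝ) < x := by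
    have : 0 < x := by omega
    exact_mod_cast this
  have hC0 : (0 : ℝ) < C + 1 := by positivity
  have hlx : 4 * ((C : ℝ) + 1) ≤ Real.log x := h5 x (by omega)
  have hlX : 4 * ((C : ℝ) + 1) ≤ Real.log X := h5 X (by omega)
  have hlx0 : 0 < Real.log x := by linarith
  have hlX0 : 0 < Real.log X := by linarith
  have hll : Real.log X ≤ Real.log x := Real.log_le_log hX0 (by exact_mod_cast (by omega : X ≤ x))
  have hx4 : (x : ℝ) ≤ 4 * X := by
    have : x ≤ 4 * X := by omega
    exact_mod_cast this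
  have h6 : (A.card : ℝ) ≤ (C + 1) * (hJfin.toFinset.card : ℝ) := by
    have : (A.card : ℝ) ≤ C * (hJfin.toFinset.card : ℝ) := by exact_mod_cast hcard
    have h0 : (0 : ℝ) ≤ (hJfin.toFinset.card : ℝ) := Nat.cast_nonneg _
    nlinarith
  have h7 : (x : ℝ) / Real.log x ^ (D + 1) ≤ X / Real.log X ^ D / (C + 1) := by
    rw [div_div, div_le_div_iff₀ (by positivity) (by positivity)]
    calc (x : ℝ) * (Real.log X ^ D * (C + 1)) ≤ (4 * X) * (Real.log x ^ D * (C + 1)) := by
          apply mul_le_mul hx4 _ (by positivity) (by positivity)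
          apply mul_le_mul_of_nonneg_right _ hC0.le
          exact pow_le_pow_left₀ hlX0.le hll D
      _ = X * (Real.log x ^ D * (4 * (C + 1))) := by ring
      _ ≤ X * (Real.log x ^ D * Real.log x) := by
          apply mul_le_mul_of_nonneg_left _ hX0.le
          exact mul_le_mul_of_nonneg_left hlx (by positivity)
      _ = X * Real.log x ^ (D + 1) := by rw [pow_succ]
  refine h7.trans ?_
  rw [div_le_iff₀ hC0]
  linarith

end Pool.Agent.TH882.HX
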