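import Pool.Agent.TH882.X2

/-! Weights for the coloured Maynard-Tao theorem for which further primes nearby are rare. -/

set_option autoImplicit false

open Finset

namespace Pool.Agent.TH882.HY

open Pool.Agent.H361R2.PP
open Pool.Agent.W70.HR
open Pool.Agent.H410R2.AC (wt GG cfg term WW pos Inj coef)

/-- the number of admissible shifts -/
theorem Bw_card (Λ : ℝ) (hΛ : 0 < Λ) : ∃ X₀ : ℕ, ∀ X : ℕ, X₀ ≤ X → ∀ b : ℕ,
    ((Bw Λ X b).card : ℝ) ≤ 2 * (Λ * Real.log X * (Nat.totient (Wm X) / Wm X)) := by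
  obtain ⟨X2, h2⟩ := Pool.Agent.H363R2.PPCnt.cnt 1 Λ Λ one_pos hΛ hΛ
  refine ⟨max X2 3, fun X hX b => ?_⟩
  have hX2 : X2 ≤ X := (le_max_left _ _).trans hX
  have hX3 : 3 ≤ X := (le_max_right _ _).trans hX
  have hL : 0 < Real.log X := Real.log_pos (by
    have : 1 < X := by omega
    exact_mod_cast this)
  have h5 := h2 X hX2 b 0 (Λ * Real.log X) le_rfl (by rw [zero_add]) le_rfl
  rw [sub_zero, one_mul] at h5
  have h6 : (BB X b ⌊Λ * Real.log X⌋₊).filter
      (fun a : ℕ => (0 : ℝ) < a ∧ (a : ℝ) ≤ Λ * Real.log X) = BB X b ⌊Λ * Real.log X⌋₊ := by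
    apply filter_true_of_mem
    intro a ha
    rw [mem_BB] at ha
    refine ⟨by exact_mod_cast ha.1, ?_⟩
    exact (Nat.le_floor_iff (by positivity)).1 ha.2.1
  rw [h6] at h5
  unfold Bw
  linarith [(abs_le.1 h5).2]

/-- good weights with few further primes in the window -/
def S_WTI : Prop := ∀ (T : ℕ) (μ s : ℝ), 1 ≤ T → 0 < μ → 0 < s → ∃ K : ℕ, 1 ≤ K ∧
  ∀ (Λ : ℝ) (N₁ : ℕ), 0 < Λ → ∃ δ : ℝ, 0 < δ ∧ δ ≤ 1 / 8 ∧ ∃ (M₀ : ℝ) (X₀ : ℕ), 0 < M₀ ∧
  ∀ X : ℕ, X₀ ≤ X → ∀ b : ℕ, b < Wm X →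
  0 < VV δ X ∧
  (∀ U ⊆ Bw Λ X b, U.card ≤ N₁ → ∑ n ∈ SI X b, rU δ X U n ≤ 2 * Om δ X U.card) ∧
  ∀ B ⊆ Bw Λ X b, B.card = T * K → ∃ (w : ℕ → ℝ) (A : ℝ),
    (∀ n ∈ SI X b, 0 ≤ w n ∧ w n ≤ M₀ * rU δ X B n) ∧ Om δ X (T * K) ≤ A ∧
    ∑ n ∈ SI X b, w n ≤ (1 + s) * A ∧
    (∀ a ∈ B, (1 - s) * (μ / K) * A ≤ ∑ n ∈ SP X b a, w n ∧
      ∑ n ∈ SP X b a, w n ≤ (1 + s) * (μ / K) * A) ∧
    (∀ a ∈ B, ∀ a' ∈ B, a ≠ a' →
      ∑ n ∈ (SP X b a).filter (fun n => (n + a').Prime), w n ≤ (4 + s) * (μ / K) ^ 2 * A) ∧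
    ∑ a ∈ Bw Λ X b \ B, ∑ n ∈ SP X b a, w n ≤ 8 * Λ * A

theorem wti_of (hML : S_ML) (hSM : S_SM) (hPT : S_PT) (hPAR : S_PAR) (hCol : Col) (hCob : Cob)
    (hMni : Mni) (hWtx : Wtx) : S_WTI := by
  intro T μ s hT hμ hs
  set σ : ℝ := min s 1 / 10 with hσ
  have hσ0 : 0 < σ := by rw [hσ]; positivity
  have hσs : 10 * σ ≤ s := by
    rw [hσ]
    have := min_le_left s 1
    linarith
  have hσ1 : 10 * σ ≤ 1 := by
    rw [hσ]
    have := min_le_right s 1
    linarith
  obtain ⟨θ, t, K, u, β, hθ0, hθ, hK, hub, hβ1, hu, δa, hδa, hpar⟩ := hPAR T μ σ hT hμ hσ0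
  refine ⟨K, hK, fun Λ N₁ hΛ => ?_⟩
  obtain ⟨δb, hδb, hsm⟩ := hSM (T * K) 2 t u β Λ θ σ hub hβ1 hu hΛ hθ0 hθ hσ0
  obtain ⟨δc, hδc, hrough⟩ := rough_of hML Λ N₁ hΛ
  obtain ⟨δ, hδ⟩ : ∃ δ : ℝ, δ = min (min δa δb) (min δc (1 / 8)) := ⟨_, rfl⟩
  have hδ0 : 0 < δ := by rw [hδ]; positivity
  have h1 : δ ≤ δa := by rw [hδ]; exact (min_le_left _ _).trans (min_le_left _ _)
  have h2 : δ ≤ δb := by rw [hδ]; exact (min_le_left _ _).trans (min_le_right _ _)
  have h3 : δ ≤ δc := by rw [hδ]; exact (min_le_right _ _).trans (min_le_left _ _)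
  have h4 : δ ≤ 1 / 8 := by rw [hδ]; exact (min_le_right _ _).trans (min_le_right _ _)
  obtain ⟨Xa, hpar⟩ := hpar δ hδ0 h1
  obtain ⟨Xb, hsm⟩ := hsm δ hδ0 h2
  obtain ⟨Xc, hrough⟩ := hrough δ hδ0 h3
  obtain ⟨M₁, hM₁, Xd, hpt⟩ := hPT Λ δ hΛ hδ0 h4
  obtain ⟨Xe, hwtx⟩ := hWtx.2 δ hδ0 (by linarith)
  obtain ⟨Xf, hcnt⟩ := Bw_card Λ hΛ
  obtain ⟨Xg, hpnt⟩ := Pool.Agent.H325R2.pnt 1 one_pos
  set Q : ℝ := 1 + (1 / δ) ^ 2 * M₁ with hQ
  have hQ1 : 1 ≤ Q := by
    rw [hQ]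
    have : 0 ≤ (1 / δ) ^ 2 * M₁ := by positivity
    linarith
  set M₀ : ℝ := ((((T * K : ℕ) : ℝ) + 1) ^ t * Q ^ t) ^ 2 with hM₀
  have hM₀0 : 0 < M₀ := by positivity
  refine ⟨δ, hδ0, h4, M₀,
    max (max (max (max Xa Xb) (max Xc Xd)) (max Xe 3)) (max Xf Xg), hM₀0, ?_⟩
  intro X hX' b hb
  have hX : max (max (max Xa Xb) (max Xc Xd)) (max Xe 3) ≤ X := (le_max_left _ _).trans hX'
  have hXf : Xf ≤ X := (le_max_left _ _).trans ((le_max_right _ _).trans hX')
  have hXg : Xg ≤ X := (le_max_right _ _).trans ((le_max_right _ _).trans hX')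
  have hXa : Xa ≤ X := ((le_max_left _ _).trans ((le_max_left _ _).trans (le_max_left _ _))).trans hX
  have hXb : Xb ≤ X := ((le_max_right _ _).trans ((le_max_left _ _).trans (le_max_left _ _))).trans hX
  have hXc : Xc ≤ X := ((le_max_left _ _).trans ((le_max_right _ _).trans (le_max_left _ _))).trans hX
  have hXd : Xd ≤ X := ((le_max_right _ _).trans ((le_max_right _ _).trans (le_max_left _ _))).trans hX
  have hXe : Xe ≤ X := ((le_max_left _ _).trans (le_max_right _ _)).trans hX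
  have hX3 : 3 ≤ X := ((le_max_right _ _).trans (le_max_right _ _)).trans hX
  have hX1 : 1 ≤ X := by omega
  obtain ⟨S, γ, hFam, hS0, hSd, hSG, hγ0, hγ1, hV, hvp, hγμ, hη, hq, hG1, hG2⟩ := hpar X hXa
  have hPJ : 2 ^ 2 ^ JJ δ X ≤ X := by
    have h5 := (hwtx X hXe).1
    have h6 : (X : ℝ) ^ δ ≤ (X : ℝ) ^ (1 : ℝ) := by
      apply Real.rpow_le_rpow_of_exponent_le _ (by linarith)
      exact_mod_cast hX1
    rw [Real.rpow_one] at h6
    have h7 := h5.trans h6
    exact_mod_cast h7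
  have hSMb : SMb Λ δ θ σ γ X b (T * K) β S := by
    intro U hU hN B hB c hc
    exact hsm X hXb b hb S hFam hS0 hSd hSG γ hγ0 hγ1 U hU hN B hB c hc
  have hst : Wst Λ δ θ σ σ γ X b (T * K) β S :=
    { sm := hSMb
      s0 := hσ0.le
      γ0 := hγ0
      β0 := fun τ => (hub τ).2.le
      β1 := hβ1
      gg := hSG
      hS := fun τ R hR => (hFam τ R hR).1
      η0 := hσ0.le
      hη := fun τ => by
        have := hη τ
        push_cast
        exact this
      hq := hq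
      pJ := hPJ
      v0 := hV
      hX := hX1
      g1 := hG1 }
  refine ⟨hV, fun U hU hN => hrough X hXc hV b hb U hU hN, fun B hBs hB => ?_⟩
  have hZ := (mni_of hMni hst hB).1
  have hOm := Om_pos hst (T * K)
  set A : ℝ := Om δ X (T * K) * ZB γ β S B with hA
  have hA0 : 0 < A := by rw [hA]; positivity
  have hμK : 0 < μ / K := by
    have : (0 : ℝ) < K := by exact_mod_cast hK
    positivity
  refine ⟨ww δ γ X β S B, A, fun n hn => ⟨ww_nonneg B n, ?_⟩, ?_, ?_, fun a ha => ?_,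
    fun a ha a' ha' hne => ?_, ?_⟩
  · have hW : |WW B (fun _ => 1) (xh γ β S n)| ≤ (((T * K : ℕ) : ℝ) + 1) ^ t * Q ^ t := by
      have := WW_bound (t := t) (B := B) (x := xh γ β S n) hQ1 (by
        intro τ a ha
        have ha' := hBs ha
        have haΛ : (a : ℝ) ≤ Λ * Real.log X := by
          have h5 : a ≤ ⌊Λ * Real.log X⌋₊ := (mem_BB.1 ha').2.1
          have h6 : 0 ≤ Λ * Real.log X := by
            have : 0 ≤ Real.log X := Real.log_nonneg (by exact_mod_cast hX1)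
            positivity
          exact (Nat.le_floor_iff h6).1 h5
        have h5 := hpt X hXd b n a hn (mem_Bw1 ha') haΛ (S τ) (fun R hR => (hFam τ R hR).1)
        unfold xh
        have hg := hSG τ
        have hβ := hub τ
        have hβ1' : β τ ≤ 1 := by
          rw [← hβ1]
          exact single_le_sum (f := β) (fun τ _ => (hub τ).2.le) (mem_univ τ)
        have hbg : 0 ≤ β τ / GG (S τ) := div_nonneg hβ.2.le (by linarith)
        rw [abs_mul, abs_mul, abs_of_nonneg hγ0, abs_of_nonneg hbg]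
        have h6 : β τ / GG (S τ) ≤ 1 := by
          rw [div_le_one (by linarith)]
          linarith
        have h7 : γ ≤ (1 / δ) ^ 2 := by linarith
        have h8 : β τ / GG (S τ) * |FS (S τ) a n| ≤ M₁ := by
          calc β τ / GG (S τ) * |FS (S τ) a n| ≤ 1 * M₁ := by
                apply mul_le_mul h6 h5 (abs_nonneg _) zero_le_one
            _ = M₁ := one_mul _
        calc γ * (β τ / GG (S τ) * |FS (S τ) a n|) ≤ (1 / δ) ^ 2 * M₁ := by
              apply mul_le_mul h7 h8 _ (by positivity)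
              exact mul_nonneg hbg (abs_nonneg _)
          _ ≤ Q := by rw [hQ]; linarith)
      rw [hB] at this
      exact this
    unfold ww
    rw [mul_comm]
    apply mul_le_mul_of_nonneg_right _ (rU_nonneg B n)
    rw [hM₀, ← sq_abs]
    exact pow_le_pow_left₀ (abs_nonneg _) hW 2
  · rw [hA]
    nlinarith
  · refine (W1 hMni hst hB hBs).trans ?_
    rw [← hA]
    apply mul_le_mul_of_nonneg_right _ hA0.le
    linarith
  · obtain ⟨h5, h6⟩ := W2 hCol hCob hMni hst hB hBs ha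
    rw [hγμ, ← hA] at h5 h6
    have h7 : 0 < μ / K * A := by positivity
    constructor
    · refine le_trans ?_ h5
      rw [mul_assoc]
      apply mul_le_mul_of_nonneg_right _ h7.le
      linarith
    · refine h6.trans ?_
      rw [mul_assoc (1 + s)]
      apply mul_le_mul_of_nonneg_right _ h7.le
      linarith
  · refine (W3 hCol hCob hMni hst hB hBs ha ha' hne).trans ?_
    rw [← hA]
    have h5 : vp δ X * (1 / GG (S1 δ θ X)) * (1 + γ) ^ 4 ≤ (4 + σ) * (μ / K) ^ 2 := by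
      rw [← hγμ]
      calc vp δ X * (1 / GG (S1 δ θ X)) * (1 + γ) ^ 4 ≤
          vp δ X * ((4 + σ) * vp δ X) * (1 + γ) ^ 4 := by
            apply mul_le_mul_of_nonneg_right _ (by positivity)
            exact mul_le_mul_of_nonneg_left hG2 hvp.le
        _ = _ := by ring
    calc (1 + σ) * (vp δ X * (1 / GG (S1 δ θ X)) * (1 + γ) ^ 4 * A) ≤
        (1 + σ) * ((4 + σ) * (μ / K) ^ 2 * A) := by
          apply mul_le_mul_of_nonneg_left _ (by linarith)
          exact mul_le_mul_of_nonneg_right h5 hA0.le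
      _ = (1 + σ) * (4 + σ) * ((μ / K) ^ 2 * A) := by ring
      _ ≤ (4 + s) * ((μ / K) ^ 2 * A) := by
          apply mul_le_mul_of_nonneg_right _ (by positivity)
          nlinarith
      _ = _ := by ring
  · -- further primes
    have hX0 : (0 : ℝ) < X := by exact_mod_cast hX1
    have hL : 0 < Real.log X := Real.log_pos (by
      have : 1 < X := by omega
      exact_mod_cast this)
    have hW0 : (0 : ℝ) < Wm X := by exact_mod_cast Pool.Agent.H361R2.PP.Wm_pos X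
    have hφ0 : (0 : ℝ) < Nat.totient (Wm X) := by
      exact_mod_cast Nat.totient_pos.2 (Pool.Agent.H361R2.PP.Wm_pos X)
    have hP := (abs_le.1 (hpnt X hXg)).2
    have hPr : Pr X * Real.log X ≤ 2 * X := by linarith
    have hOP0 : 0 ≤ OmP δ X (T * K) := OmP_nonneg hst _
    have e0 : ∑ σ ∈ cfg t B, (1 : ℝ) ^ 2 * term (qh γ β S) σ = ZB γ β S B := by
      unfold ZB
      refine sum_congr rfl fun σ _ => by ring
    have h5 : ∀ a ∈ Bw Λ X b \ B, ∑ n ∈ SP X b a, ww δ γ X β S B n ≤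
        2 * (OmP δ X (T * K) * ZB γ β S B) := by
      intro a ha
      have h6 := ((hst.sm B hBs hB.le B Subset.rfl (fun _ => 1) (fun σ => by
        rw [abs_one]; nlinarith)).2 a ha).1
      rw [e0, hB] at h6
      have h7 := (abs_le.1 h6).2
      have h8 : σ * OmP δ X (T * K) ≤ OmP δ X (T * K) * ZB γ β S B := by
        calc σ * OmP δ X (T * K) ≤ 1 * OmP δ X (T * K) := by
              apply mul_le_mul_of_nonneg_right _ hOP0
              linarith
          _ = OmP δ X (T * K) * 1 := by ring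
          _ ≤ _ := mul_le_mul_of_nonneg_left hZ hOP0
      unfold ww
      linarith
    have h9 : OmP δ X (T * K) * ZB γ β S B ≤
        2 / Real.log X * ((Wm X : ℝ) / Nat.totient (Wm X)) * A := by
      have e1 : OmP δ X (T * K) * ZB γ β S B =
          (Pr X / X) * ((Wm X : ℝ) / Nat.totient (Wm X)) * A := by
        rw [hA]
        unfold OmP Om
        field_simp
      rw [e1]
      apply mul_le_mul_of_nonneg_right _ hA0.le
      apply mul_le_mul_of_nonneg_right _ (by positivity)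
      rw [div_le_div_iff₀ hX0 hL]
      linarith
    have hsub : ((Bw Λ X b \ B).card : ℝ) ≤ 2 * (Λ * Real.log X * (Nat.totient (Wm X) / Wm X)) := by
      refine le_trans ?_ (hcnt X hXf b)
      exact_mod_cast card_le_card sdiff_subset
    calc ∑ a ∈ Bw Λ X b \ B, ∑ n ∈ SP X b a, ww δ γ X β S B n ≤
        ∑ _a ∈ Bw Λ X b \ B, 2 * (2 / Real.log X * ((Wm X : ℝ) / Nat.totient (Wm X)) * A) := by
          apply sum_le_sum
          intro a ha
          exact (h5 a ha).trans (mul_le_mul_of_nonneg_left h9 (by norm_num))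
      _ = ((Bw Λ X b \ B).card : ℝ) *
          (2 * (2 / Real.log X * ((Wm X : ℝ) / Nat.totient (Wm X)) * A)) := by
          rw [sum_const, nsmul_eq_mul]
      _ ≤ 2 * (Λ * Real.log X * (Nat.totient (Wm X) / Wm X)) *
          (2 * (2 / Real.log X * ((Wm X : ℝ) / Nat.totient (Wm X)) * A)) :=
          mul_le_mul_of_nonneg_right hsub (by positivity)
      _ = 8 * Λ * A := by
          field_simp
          ring

theorem wti : S_WTI :=
  wti_of ml sm pt par Pool.Agent.H872R2.PPCol.col Pool.Agent.H872R2.PPCol.cob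
    Pool.Agent.H433R2.PPMni.mni Pool.Agent.H325R2.wtx

end Pool.Agent.TH882.HY
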