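import Pool.Agent.TH882.Y2
import Pool.Agent.TH882.J4

/-! Windows with several primes, all in prescribed positions. -/

set_option autoImplicit false

open Finset

namespace Pool.Agent.TH882.HY

open Pool.Agent.H361R2.PP
open Pool.Agent.W70.HR

/-- the length of the windows is `lam M * log X` -/
noncomputable def lam (M : ℕ) : ℝ := 1 / (512 * M)

lemma lam_pos (M : ℕ) (hM : 1 ≤ M) : 0 < lam M := by
  unfold lam
  have : (0 : ℝ) < M := by exact_mod_cast hM
  positivity

open Classical in
/-- the points of the class whose window contains at least `M` primes of `V` and no other prime -/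
noncomputable def GX (M : ℕ) (X b : ℕ) (V : Finset ℕ) : Finset ℕ :=
  (SI X b).filter (fun n => M ≤ (V.filter (fun a => (n + a).Prime)).card ∧
    ∀ a ∈ Bw (lam M) X b, (n + a).Prime → a ∈ V)

theorem one_classX (M : ℕ) (hM : 1 ≤ M) (η : ℝ) (hη : 0 < η) : ∃ c : ℝ, 0 < c ∧ ∃ X₀ : ℕ,
    ∀ X : ℕ, X₀ ≤ X → ∀ b : ℕ, b < Wm X → ∀ V ⊆ Bw (lam M) X b,
    η * (Real.log X * (Nat.totient (Wm X) / Wm X)) ≤ (V.card : ℝ) →
    c * ((X : ℝ) / Wm X) ≤ ((GX M X b V).card : ℝ) := by
  classical
  have hM0 : (0 : ℝ) < M := by exact_mod_cast hM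
  have hΛ := lam_pos M hM
  set T : ℕ := 4 * M with hTd
  have hT1 : 1 ≤ T := by omega
  obtain ⟨K, hK, hmti⟩ := mti T hT1
  set N : ℕ := T * K with hN
  obtain ⟨δ, c0, hδ, hδ8, hc0, X1, h1⟩ := hmti (lam M) (2 * N) hΛ (by
    unfold lam
    rw [hTd]
    push_cast
    field_simp
    norm_num)
  obtain ⟨Cm, X2, hCm, h2⟩ := rm (2 * N) (lam M) δ hΛ hδ hδ8
  obtain ⟨cv, hcv, hmv⟩ := mv
  obtain ⟨X3, h3⟩ := hmv δ hδ (by linarith)
  obtain ⟨X5, h5⟩ : ∃ X5 : ℕ, ∀ X : ℕ, X5 ≤ X →
      2 * (N : ℝ) ≤ η * (Real.log X * (Nat.totient (Wm X) / Wm X)) := by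
    have hlogt : Filter.Tendsto (fun X : ℕ => Real.log (X : ℝ)) Filter.atTop Filter.atTop :=
      Real.tendsto_log_atTop.comp tendsto_natCast_atTop_atTop
    obtain ⟨X6, h6⟩ := Filter.eventually_atTop.1
      (hlogt.eventually_ge_atTop (max 1 ((2 * (N : ℝ) / η) ^ 2)))
    refine ⟨max X6 16, fun X hX => ?_⟩
    have h7 := h6 X ((le_max_left _ _).trans hX)
    have hX16 : 16 ≤ X := (le_max_right _ _).trans hX
    have hl1 : 1 ≤ Real.log X := (le_max_left _ _).trans h7
    have hl2 : (2 * (N : ℝ) / η) ^ 2 ≤ Real.log X := (le_max_right _ _).trans h7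
    have hl0 : 0 < Real.log X := by linarith
    have hW0 : (0 : ℝ) < Wm X := by exact_mod_cast Wm_pos X
    have hφ1 : (1 : ℝ) ≤ Nat.totient (Wm X) := by exact_mod_cast Nat.totient_pos.2 (Wm_pos X)
    have hWs : (Wm X : ℝ) ≤ Real.sqrt (Real.log X) := by
      refine (Pool.Agent.H325R2.wtx1 X hX16).trans ?_
      rw [Real.sqrt_eq_rpow]
      exact Real.rpow_le_rpow_of_exponent_le hl1 (by norm_num)
    have hs0 : 0 < Real.sqrt (Real.log X) := Real.sqrt_pos.2 hl0
    have e1 : 2 * (N : ℝ) / η ≤ Real.sqrt (Real.log X) := Real.le_sqrt_of_sq_le hl2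
    have e2 : Real.sqrt (Real.log X) ≤ Real.log X * (Nat.totient (Wm X) / Wm X) := by
      have e3 : Real.sqrt (Real.log X) * Real.sqrt (Real.log X) = Real.log X :=
        Real.mul_self_sqrt hl0.le
      calc Real.sqrt (Real.log X) ≤ Real.log X / Wm X := by
            rw [le_div_iff₀ hW0]
            calc Real.sqrt (Real.log X) * Wm X ≤ Real.sqrt (Real.log X) * Real.sqrt (Real.log X) :=
                  mul_le_mul_of_nonneg_left hWs hs0.le
              _ = Real.log X := e3
        _ = Real.log X * (1 / Wm X) := by ring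
        _ ≤ _ := by
            apply mul_le_mul_of_nonneg_left _ hl0.le
            exact div_le_div_of_nonneg_right hφ1 hW0.le
    rw [div_le_iff₀ hη] at e1
    calc 2 * (N : ℝ) ≤ Real.sqrt (Real.log X) * η := e1
      _ ≤ Real.log X * (Nat.totient (Wm X) / Wm X) * η := mul_le_mul_of_nonneg_right e2 hη.le
      _ = _ := mul_comm _ _
  set c1 : ℝ := (η / 2) ^ N * c0 * (cv / δ) ^ N with hc1
  have hc10 : 0 < c1 := by rw [hc1]; positivity
  refine ⟨c1 ^ 2 / Cm, by positivity, max (max X1 X2) (max X3 (max X5 16)), ?_⟩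
  intro X hX b hb V hV hVc
  have hX1 : X1 ≤ X := by omega
  have hX2 : X2 ≤ X := by omega
  have hX3 : X3 ≤ X := by omega
  have hX5 : X5 ≤ X := by omega
  have hX16 : 16 ≤ X := by omega
  have hXr : (16 : ℝ) ≤ X := by exact_mod_cast hX16
  have hX0 : (0 : ℝ) < X := by linarith
  have hL : 0 < Real.log X := Real.log_pos (by linarith)
  have hW0 : (0 : ℝ) < Wm X := by exact_mod_cast Wm_pos X
  have hφ0 : (0 : ℝ) < Nat.totient (Wm X) := by exact_mod_cast Nat.totient_pos.2 (Wm_pos X)
  obtain ⟨hV0, hU, hH⟩ := h1 X hX1 b hb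
  have hmom := h2 X hX2 b hb hU
  have hmvX := h3 X hX3
  have h5X := h5 X hX5
  set G := GX M X b V with hG
  set R : ℕ → ℝ := fun n => ∑ a ∈ Bw (lam M) X b, rg (P1 (HH X) (JJ δ X)) a n with hR
  have hrg01 : ∀ a n, rg (P1 (HH X) (JJ δ X)) a n = 0 ∨ rg (P1 (HH X) (JJ δ X)) a n = 1 := by
    intro a n
    unfold rg
    split_ifs
    · exact Or.inr rfl
    · exact Or.inl rfl
  have hR_eq : ∀ n, R n = (((Bw (lam M) X b).filter
      (fun a => rg (P1 (HH X) (JJ δ X)) a n = 1)).card : ℝ) := by
    intro n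
    rw [hR, card_filter]
    push_cast
    apply sum_congr rfl
    intro a _
    rcases hrg01 a n with h | h <;> rw [h] <;> simp
  have hR0 : ∀ n, 0 ≤ R n := fun n => by rw [hR_eq]; exact Nat.cast_nonneg _
  -- the embeddings
  have hEc : Fintype.card ((Fin T × Fin K) ↪ {a // a ∈ V}) = V.card.descFactorial N := by
    rw [Fintype.card_embedding_eq, Fintype.card_prod, Fintype.card_fin, Fintype.card_fin,
      Fintype.card_coe]
  set E := (Fin T × Fin K) ↪ {a // a ∈ V} with hE
  have hVN : 2 * N ≤ V.card := by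
    have : (2 * (N : ℝ)) ≤ V.card := h5X.trans hVc
    exact_mod_cast this
  have hElow : (η / 2 * (Real.log X * (Nat.totient (Wm X) / Wm X))) ^ N ≤ (Fintype.card E : ℝ) := by
    rw [hEc]
    have e1 : (V.card + 1 - N) ^ N ≤ V.card.descFactorial N := Nat.pow_sub_le_descFactorial _ _
    have e2 : (((V.card + 1 - N) ^ N : ℕ) : ℝ) ≤ (V.card.descFactorial N : ℝ) := by exact_mod_cast e1
    refine le_trans ?_ e2
    push_cast
    apply pow_le_pow_left₀ (by positivity)
    have e3 : V.card ≤ 2 * (V.card + 1 - N) := by omega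
    have e4 : (V.card : ℝ) ≤ 2 * ((V.card + 1 - N : ℕ) : ℝ) := by exact_mod_cast e3
    linarith
  set Hf : E → Fin T → Fin K → ℕ := fun e g i => (e (g, i)).1 with hHf
  have hHlow : ∀ e : E, c0 * Om δ X N ≤ ((HSi (lam M) δ X b (Hf e)).card : ℝ) := by
    intro e
    apply hH
    · intro g i
      exact hV (e (g, i)).2
    · intro x y hxy
      simp only [hHf] at hxy
      exact e.injective (Subtype.ext hxy)
  -- each point is in the good set
  have hmemG : ∀ e : E, ∀ n ∈ HSi (lam M) δ X b (Hf e), n ∈ G := by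
    intro e n hn
    unfold HSi at hn
    rw [mem_filter] at hn
    obtain ⟨hnS, hrgh, hcnt, honly⟩ := hn
    rw [hG]
    unfold GX
    rw [mem_filter]
    refine ⟨hnS, ?_, ?_⟩
    · set Q := (univ : Finset (Fin T)).filter (fun g => ∃ i, (n + Hf e g i).Prime) with hQ
      have hQ2 : M ≤ Q.card := by
        have : T ≤ 4 * Q.card := by
          convert hcnt
        omega
      have i0 : Fin K := ⟨0, by omega⟩
      have hex : ∀ g : Fin T, ∃ i : Fin K, g ∈ Q → (n + Hf e g i).Prime := by
        intro g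
        by_cases hg : g ∈ Q
        · have e1 := hg
          rw [hQ, mem_filter] at e1
          obtain ⟨i, hi⟩ := e1.2
          exact ⟨i, fun _ => hi⟩
        · exact ⟨i0, fun h => absurd h hg⟩
      choose j hj using hex
      calc M ≤ Q.card := hQ2
        _ = (Q.image (fun g => Hf e g (j g))).card := by
            symm
            apply card_image_of_injOn
            intro g _ g' _ h
            simp only [hHf] at h
            have e2 := e.injective (Subtype.ext h)
            exact (Prod.ext_iff.1 e2).1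
        _ ≤ _ := by
            apply card_le_card
            intro w hw
            rw [mem_image] at hw
            obtain ⟨g, hg, rfl⟩ := hw
            rw [mem_filter]
            exact ⟨(e (g, j g)).2, hj g hg⟩
    · intro a ha hp
      obtain ⟨g, i, rfl⟩ := honly a ha hp
      exact (e (g, i)).2
  -- double counting
  have hdc : (Fintype.card E : ℝ) * (c0 * Om δ X N) ≤ ∑ n ∈ G, R n ^ N := by
    calc (Fintype.card E : ℝ) * (c0 * Om δ X N) = ∑ _e : E, c0 * Om δ X N := by
          rw [sum_const, nsmul_eq_mul, card_univ]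
      _ ≤ ∑ e : E, ((HSi (lam M) δ X b (Hf e)).card : ℝ) := sum_le_sum fun e _ => hHlow e
      _ = ∑ e : E, ∑ n ∈ G, (if n ∈ HSi (lam M) δ X b (Hf e) then (1 : ℝ) else 0) := by
          apply sum_congr rfl
          intro e _
          rw [← sum_filter, sum_const, nsmul_eq_mul, mul_one]
          congr 2
          ext n
          rw [mem_filter]
          exact ⟨fun h => ⟨hmemG e n h, h⟩, fun h => h.2⟩
      _ = ∑ n ∈ G, ∑ e : E, (if n ∈ HSi (lam M) δ X b (Hf e) then (1 : ℝ) else 0) := sum_comm
      _ ≤ ∑ n ∈ G, R n ^ N := by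
          apply sum_le_sum
          intro n _
          rw [← sum_filter, sum_const, nsmul_eq_mul, mul_one, hR_eq]
          set P := (Bw (lam M) X b).filter (fun a => rg (P1 (HH X) (JJ δ X)) a n = 1) with hP
          have e1 : ((univ : Finset E).filter (fun e => n ∈ HSi (lam M) δ X b (Hf e))).card ≤
              (Fintype.piFinset (fun _ : Fin T × Fin K => P)).card := by
            apply card_le_card_of_injOn (fun e x => (e x).1)
            · intro e he
              rw [mem_coe, mem_filter] at he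
              rw [mem_coe, Fintype.mem_piFinset]
              intro x
              rw [hP, mem_filter]
              have h6 := he.2
              unfold HSi at h6
              rw [mem_filter] at h6
              exact ⟨hV (e x).2, h6.2.1 x.1 x.2⟩
            · intro e _ e' _ h
              ext x
              exact congrFun h x
          rw [Fintype.card_piFinset, prod_const, card_univ, Fintype.card_prod, Fintype.card_fin,
            Fintype.card_fin, ← hN] at e1
          exact_mod_cast e1
  have hm1 : c1 * ((X : ℝ) / Wm X) ≤ ∑ n ∈ G, R n ^ N := by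
    refine le_trans ?_ hdc
    have e1 : cv / δ ≤ VV δ X * (Real.log X * (Nat.totient (Wm X) / Wm X)) := by
      rw [div_le_iff₀ hδ]
      refine hmvX.trans (le_of_eq ?_)
      ring
    calc c1 * ((X : ℝ) / Wm X) = (η / 2) ^ N * (c0 * ((X : ℝ) / Wm X * (cv / δ) ^ N)) := by
          rw [hc1]
          ring
      _ ≤ (η / 2) ^ N * (c0 * ((X : ℝ) / Wm X *
          (VV δ X * (Real.log X * (Nat.totient (Wm X) / Wm X))) ^ N)) := by
          apply mul_le_mul_of_nonneg_left _ (by positivity)
          apply mul_le_mul_of_nonneg_left _ hc0.le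
          apply mul_le_mul_of_nonneg_left _ (by positivity)
          exact pow_le_pow_left₀ (by positivity) e1 N
      _ = (η / 2 * (Real.log X * (Nat.totient (Wm X) / Wm X))) ^ N * (c0 * Om δ X N) := by
          unfold Om
          rw [mul_pow (η / 2), mul_pow (VV δ X)]
          ring
      _ ≤ _ := by
          apply mul_le_mul_of_nonneg_right hElow
          unfold Om
          positivity
  -- Cauchy-Schwarz
  have hCS : (∑ n ∈ G, R n ^ N) ^ 2 ≤ (G.card : ℝ) * (Cm * ((X : ℝ) / Wm X)) := by
    have e1 := sum_mul_sq_le_sq_mul_sq G (fun _ => (1 : ℝ)) (fun n => R n ^ N)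
    simp only [one_mul, one_pow, sum_const, nsmul_eq_mul, mul_one] at e1
    refine e1.trans ?_
    apply mul_le_mul_of_nonneg_left _ (Nat.cast_nonneg _)
    refine le_trans ?_ hmom
    calc ∑ n ∈ G, (R n ^ N) ^ 2 = ∑ n ∈ G, R n ^ (2 * N) := by
          apply sum_congr rfl
          intro n _
          rw [← pow_mul]
          congr 1
          ring
      _ ≤ _ := sum_le_sum_of_subset_of_nonneg (filter_subset _ _) fun n _ _ => by
          exact pow_nonneg (hR0 n) _
  have hXW : 0 < (X : ℝ) / Wm X := by positivity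
  have e1 : (c1 * ((X : ℝ) / Wm X)) ^ 2 ≤ (G.card : ℝ) * (Cm * ((X : ℝ) / Wm X)) :=
    (pow_le_pow_left₀ (by positivity) hm1 2).trans hCS
  have e2 : c1 ^ 2 / Cm * ((X : ℝ) / Wm X) * (Cm * ((X : ℝ) / Wm X)) =
      (c1 * ((X : ℝ) / Wm X)) ^ 2 := by
    field_simp
  rw [← e2] at e1
  exact le_of_mul_le_mul_right e1 (by positivity)

end Pool.Agent.TH882.HY
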