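import Pool.Agent.TH882.X3

/-! Runs of consecutive primes in a residue class all of which have rough companions. -/

set_option autoImplicit false

open Finset Filter Topology Polynomial

namespace Pool.Agent.TH882.HZ

open Pool.Agent.H361R2.PP
open Pool.Agent.W70.HR
open Pool.Agent.TH882.UB
open Pool.Agent.TH882.HE
open Pool.Agent.TH882.HX
open Pool.Agent.TH882.PG (Hq Uq Hq_mem Hqa_mem Hq_inj Uq_card Uq_pos Hqa_pos Hq_ge l1)
open Pool.Agent.TH882.RQ (LocQ exists_classQ)
open Pool.Agent.TH882.AG (pow_cardFactors_le)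

/-- the local condition: the class `a` modulo `q` and the shifts `S` -/
def AdmC (S : Finset ℤ) (q : ℕ) (a : ℤ) : Prop := ∀ l : ℕ, l.Prime → ∃ x : ℤ, ¬ (l : ℤ) ∣ x ∧
  (∀ s ∈ S, ¬ (l : ℤ) ∣ x + s) ∧ (l ∣ q → (l : ℤ) ∣ x - a)

/-- the numbers `p + s`, `s ∈ S`, have at most `R` prime factors, all at least `y` -/
def APr (S : Finset ℤ) (R : ℕ) (y : ℝ) (p : ℕ) : Prop :=
  ∀ s ∈ S, 0 < (p : ℤ) + s ∧ ArithmeticFunction.cardFactors ((p : ℤ) + s).toNat ≤ R ∧
    ∀ l : ℕ, l.Prime → l ∣ ((p : ℤ) + s).toNat → y ≤ l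

lemma rough_both (δ : ℝ) (hδ : 0 < δ) (hδ1 : δ ≤ 1) : ∃ X₀ : ℕ, ∀ X : ℕ, X₀ ≤ X → ∀ b n u : ℕ,
    b < Wm X → n ∈ SI X b → (b + u).Coprime (Wm X) → u ≤ X →
    rg (P1 (HH X) (JJ δ X)) u n = 1 → ArithmeticFunction.cardFactors (n + u) ≤ ⌊4 / δ⌋₊ ∧
      ∀ l : ℕ, l.Prime → l ∣ n + u → (X : ℝ) ^ (δ / 2) ≤ l := by
  obtain ⟨X1, h1⟩ := JJ_size δ hδ hδ1 0 0 (by simp)
  refine ⟨max X1 3, ?_⟩
  intro X hX b n u hb hn hcop hu hr
  have hX1 : X1 ≤ X := le_trans (le_max_left _ _) hX
  have hX3 : 3 ≤ X := le_trans (le_max_right _ _) hX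
  obtain ⟨-, -, hHJ, hsz⟩ := h1 X hX1
  have hXr : (3 : ℝ) ≤ X := by exact_mod_cast hX3
  have hX0 : (0 : ℝ) < X := by linarith
  unfold SI at hn
  rw [mem_filter, mem_Ico] at hn
  obtain ⟨⟨hn1, hn2⟩, hnb⟩ := hn
  have hne : n + u ≠ 0 := by omega
  rw [rg_one] at hr
  have hpf : ∀ l : ℕ, l.Prime → l ∣ n + u → (X : ℝ) ^ (δ / 2) ≤ l := by
    intro l hl hd
    by_contra hcon
    push Not at hcon
    have e1 : (l : ℝ) < ((2 ^ 2 ^ JJ δ X : ℕ) : ℝ) := lt_of_lt_of_le hcon hsz
    have e2 : l < 2 ^ 2 ^ JJ δ X := by exact_mod_cast e1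
    by_cases hlH : HH X < l
    · apply hr l _ hd
      unfold P1
      rw [mem_filter, mem_range]
      exact ⟨e2, hl, hlH⟩
    · push Not at hlH
      have e3 : l ∣ Wm X := by
        unfold Wm
        exact hl.dvd_primorial_iff.2 hlH
      have e4 : n ≡ b [MOD l] := by
        have : b ≡ n [MOD l] := by
          rw [← hnb]
          exact (Nat.mod_modEq _ _).of_dvd e3
        exact this.symm
      have e5 : l ∣ b + u := ((e4.add_right u).dvd_iff dvd_rfl).1 hd
      have e6 := Nat.dvd_gcd e5 e3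
      rw [Nat.coprime_iff_gcd_eq_one] at hcop
      rw [hcop] at e6
      exact hl.one_lt.ne' (Nat.dvd_one.1 e6)
  refine ⟨?_, hpf⟩
  have h2 := pow_cardFactors_le ((X : ℝ) ^ (δ / 2)) (by positivity) (n + u) hne hpf
  have h3 : ((n + u : ℕ) : ℝ) ≤ (X : ℝ) ^ (2 : ℝ) := by
    have e1 : ((n + u : ℕ) : ℝ) ≤ 3 * X := by
      have : n + u ≤ 3 * X := by omega
      exact_mod_cast this
    rw [show (2 : ℝ) = ((2 : ℕ) : ℝ) by norm_num, Real.rpow_natCast]
    nlinarith
  have h4 := h2.trans h3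
  rw [← Real.rpow_natCast, ← Real.rpow_mul hX0.le] at h4
  have h5 := (Real.rpow_le_rpow_left_iff (by linarith)).1 h4
  apply Nat.le_floor
  rw [le_div_iff₀ hδ]
  linarith

/-- positions of `U` modulo a small prime -/
lemma Uq_mod (S : Finset ℤ) (T K q : ℕ) (l : ℕ) (hl : l.Prime) (h : l ≤ l1 S T K q) (u : ℕ)
    (hu : u ∈ Uq S T K q) : (l : ℤ) ∣ u ∨ ∃ s ∈ S, (l : ℤ) ∣ u - s := by
  have hd : ∀ j i, (l : ℤ) ∣ Hq S T K q j i := by
    intro j i
    have h4 : l ∣ primorial (l1 S T K q) := hl.dvd_primorial_iff.2 h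
    have h5 : l ∣ Hq S T K q j i := by
      unfold Hq
      exact h4.mul_right _
    exact_mod_cast h5
  unfold Uq at hu
  rw [mem_union, mem_image, mem_image] at hu
  rcases hu with ⟨y, -, rfl⟩ | ⟨y, hy, rfl⟩
  · exact Or.inl (hd y.1 y.2)
  · rw [mem_product] at hy
    have e1 := Hqa_pos S T K q y.1.1 y.1.2 y.2 hy.2
    refine Or.inr ⟨y.2, hy.2, ?_⟩
    rw [Int.toNat_of_nonneg e1.le]
    have : (Hq S T K q y.1.1 y.1.2 : ℤ) + y.2 - y.2 = Hq S T K q y.1.1 y.1.2 := by ring
    rw [this]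
    exact hd _ _

lemma adm_UC (S : Finset ℤ) (q : ℕ) (a : ℤ) (hS : AdmC S q a) (T K : ℕ) :
    LocQ (fun j : Fin 0 => (0 : ℤ[X])) (Uq S T K q) (fun _ => 0) := by
  classical
  intro l hl
  have hl0 : (0 : ℤ) < l := by exact_mod_cast hl.pos
  by_cases h : l ≤ l1 S T K q
  · obtain ⟨x, h1, h2, -⟩ := hS l hl
    refine ⟨x, ?_, fun j => j.elim0⟩
    intro u hu hd
    rcases Uq_mod S T K q l hl h u hu with h3 | ⟨s, hs, h3⟩
    · exact h1 ((dvd_add_left h3).1 hd)
    · apply h2 s hs
      have : x + s = (x + u) - (u - s) := by ring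
      rw [this]
      exact hd.sub h3
  · push Not at h
    set bad : Finset ℕ := (Uq S T K q).image (fun u : ℕ => ((-(u : ℤ)) % l).toNat) with hbad
    have hcard : bad.card < (range l).card := by
      rw [card_range]
      refine lt_of_le_of_lt ?_ h
      have e1 : bad.card ≤ (Uq S T K q).card := card_image_le
      refine e1.trans ((Uq_card S T K q).trans ?_)
      unfold l1
      nlinarith [Nat.zero_le (T * K * q)]
    obtain ⟨r, hr1, hr2⟩ := exists_mem_notMem_of_card_lt_card hcard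
    refine ⟨r, ?_, fun j => j.elim0⟩
    intro u hu hd
    apply hr2
    rw [hbad, mem_image]
    refine ⟨u, hu, ?_⟩
    rw [mem_range] at hr1
    have e1 : (-(u : ℤ)) % l = (r : ℤ) % l := by
      apply Int.ModEq.symm
      rw [Int.modEq_iff_dvd]
      have : -(u : ℤ) - r = -(r + u) := by ring
      rw [this]
      exact hd.neg_right
    rw [e1, Int.emod_eq_of_lt (by positivity) (by exact_mod_cast hr1)]
    simp

/-- the additional covering positions -/
noncomputable def vq (M : ℕ) (a : ℤ) (l : ℕ) : ℕ := ((-a) % l).toNat + l * M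

lemma vq_div (M : ℕ) (a : ℤ) (l : ℕ) (hl : 0 < l) (hM : l < M) : vq M a l / M = l := by
  unfold vq
  have h1 : ((-a) % l).toNat < M := by
    have h2 := Int.emod_lt_of_pos (-a) (by exact_mod_cast hl : (0 : ℤ) < l)
    omega
  rw [Nat.add_mul_div_right _ _ (by omega), Nat.div_eq_of_lt h1, Nat.zero_add]

lemma vq_ge (M : ℕ) (a : ℤ) (l : ℕ) (hl : 0 < l) : M ≤ vq M a l := by
  unfold vq
  nlinarith [Nat.zero_le ((-a) % l).toNat]

lemma vq_mod (M : ℕ) (a : ℤ) (l : ℕ) (hl : 0 < l) : (l : ℤ) ∣ (vq M a l : ℤ) + a := by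
  unfold vq
  have hl0 : (l : ℤ) ≠ 0 := by exact_mod_cast hl.ne'
  push_cast
  rw [Int.toNat_of_nonneg (Int.emod_nonneg _ hl0)]
  have h1 := Int.emod_add_mul_ediv (-a) l
  have : (-a) % l + (l : ℤ) * M + a = l * (M - (-a) / l) := by linarith
  rw [this]
  exact dvd_mul_right _ _

theorem runsq (S : Finset ℤ) (m : ℕ) (hm : 1 ≤ m) : ∃ (δ : ℝ) (R D : ℕ), 0 < δ ∧
    ∀ (q : ℕ) (a : ℤ), Squarefree q → AdmC S q a → ∃ C X₀ : ℕ,
    ∀ X : ℕ, X₀ ≤ X → ∃ A ⊆ Ico X (2 * X), (∀ n ∈ A, (q : ℤ) ∣ (n : ℤ) - a ∧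
      m ≤ ((Icc 1 C).filter (fun w => (n + w).Prime)).card ∧
      ∀ w ∈ Icc 1 C, (n + w).Prime → (q : ℤ) ∣ ((n + w : ℕ) : ℤ) - a ∧
        APr S R ((X : ℝ) ^ δ) (n + w)) ∧
      (X : ℝ) / Real.log X ^ D ≤ (A.card : ℝ) := by
  classical
  set T : ℕ := 4 * m with hTd
  have hT1 : 1 ≤ T := by omega
  obtain ⟨K, hK, hmte⟩ := mtx T hT1
  obtain ⟨δ, c, hδ, hδ8, hc, X1, h1⟩ := hmte 1 (T * K * S.card) one_pos
  have hδ1 : δ ≤ 1 := by linarith
  set L0 : ℕ := T * K + T * K * S.card with hL0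
  refine ⟨δ / 2, ⌊4 / δ⌋₊, 2 * L0 + 2, by positivity, ?_⟩
  intro q a hq hS
  have hq0 : 0 < q := Nat.pos_of_ne_zero hq.ne_zero
  set U := Uq S T K q with hU
  set L : ℕ := U.card with hL
  have hLL : L ≤ L0 := Uq_card S T K q
  set A0 : ℕ := U.sup id with hA0
  have hUA : ∀ u ∈ U, u ≤ A0 := fun u hu => Finset.le_sup (f := id) hu
  set V : Finset ℕ := Icc 1 A0 \ U with hV
  set M : ℕ := A0 + q + 1 with hM
  set V' : Finset ℕ := V ∪ q.primeFactors.image (vq M a) with hV'
  set pv : ℕ → ℕ := fun v => if v ≤ A0 then pvs (A0 + q) v else v / M with hpv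
  have hlq : ∀ l ∈ q.primeFactors, 0 < l ∧ l < M ∧ l ≤ q := fun l hl => by
    have h2 := Nat.le_of_mem_primeFactors hl
    have h3 := (Nat.prime_of_mem_primeFactors hl).pos
    omega
  have hpvV : ∀ v ∈ V, pv v = pvs (A0 + q) v := fun v hv => by
    rw [hV, Finset.mem_sdiff, mem_Icc] at hv
    rw [hpv]
    simp only
    rw [if_pos hv.1.2]
  have hpvQ : ∀ l ∈ q.primeFactors, pv (vq M a l) = l := fun l hl => by
    obtain ⟨e1, e2, e3⟩ := hlq l hl
    have e4 := vq_ge M a l e1
    rw [hpv]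
    simp only
    rw [if_neg (by omega), vq_div M a l e1 e2]
  obtain ⟨X2, h2⟩ := rough_both δ hδ hδ1
  obtain ⟨X3, h3⟩ := Om_lower δ hδ hδ1 L
  obtain ⟨X4, hHH⟩ := eventually_atTop.1 (HH_tendsto.eventually_ge_atTop (V'.sup pv))
  have hlogt : Tendsto (fun X : ℕ => Real.log (X : ℝ)) atTop atTop :=
    Real.tendsto_log_atTop.comp tendsto_natCast_atTop_atTop
  obtain ⟨X5, h5⟩ := eventually_atTop.1 (hlogt.eventually_ge_atTop (max (1 / c) (A0 + 1)))
  refine ⟨A0, max (max (max X1 X2) (max X3 X4)) (max X5 (max 16 (max A0 (V'.sup pv + 1)))), ?_⟩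
  intro X hX
  have hX1 : X1 ≤ X := by omega
  have hX2 : X2 ≤ X := by omega
  have hX3 : X3 ≤ X := by omega
  have hX4 : X4 ≤ X := by omega
  have hX16 : 16 ≤ X := by omega
  have hXA : A0 ≤ X := by omega
  have hXV : V'.sup pv + 1 ≤ X := by omega
  have hH4 := hHH X hX4
  have hll := h5 X (by omega)
  have hl1 : 1 / c ≤ Real.log X := (le_max_left _ _).trans hll
  have hl2 : (A0 : ℝ) + 1 ≤ Real.log X := (le_max_right _ _).trans hll
  have hX0 : (0 : ℝ) < X := by
    have : 0 < X := by omega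
    exact_mod_cast this
  have hA00 : (0 : ℝ) ≤ A0 := Nat.cast_nonneg _
  have hl0 : 0 < Real.log X := by linarith
  have hprime : ∀ v ∈ V', (pv v).Prime := by
    intro v hv
    rw [hV', mem_union, mem_image] at hv
    rcases hv with hv | ⟨l, hl, rfl⟩
    · rw [hpvV v hv]
      exact pvs_prime _ _
    · rw [hpvQ l hl]
      exact Nat.prime_of_mem_primeFactors hl
  have hinj : Set.InjOn pv V' := by
    intro v hv v' hv' he
    rw [mem_coe, hV', mem_union, mem_image] at hv hv'
    rcases hv with hv | ⟨l, hl, rfl⟩ <;> rcases hv' with hv' | ⟨l', hl', rfl⟩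
    · rw [hpvV v hv, hpvV v' hv'] at he
      exact pvs_inj _ he
    · rw [hpvV v hv, hpvQ l' hl'] at he
      have e1 := pvs_gt (A0 + q) v
      have e2 := (hlq l' hl').2.2
      omega
    · rw [hpvV v' hv', hpvQ l hl] at he
      have e1 := pvs_gt (A0 + q) v'
      have e2 := (hlq l hl).2.2
      omega
    · rw [hpvQ l hl, hpvQ l' hl'] at he
      rw [he]
  obtain ⟨b, hb1, hb2, -, hb4⟩ := exists_classQ (fun j : Fin 0 => (0 : ℤ[X])) U V' pv
    hprime hinj (by
      intro v hv u hu hd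
      rw [hV', mem_union, mem_image] at hv
      rcases hv with hv | ⟨l, hl, rfl⟩
      · rw [hpvV v hv] at hd
        rw [hV, Finset.mem_sdiff, mem_Icc] at hv
        have e1 := hUA u hu
        have e2 := pvs_gt (A0 + q) v
        have e3 : (u : ℤ) - v ≠ 0 := by
          intro h0
          have : u = v := by omega
          exact hv.2 (this ▸ hu)
        have e4 := Int.le_of_dvd (abs_pos.2 e3) ((dvd_abs _ _).2 hd)
        have e5 : |(u : ℤ) - v| ≤ A0 := by
          rw [abs_le]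
          constructor <;> omega
        omega
      · rw [hpvQ l hl] at hd
        have hlp := Nat.prime_of_mem_primeFactors hl
        have hld := Nat.dvd_of_mem_primeFactors hl
        obtain ⟨x, hx1, hx2, hx3⟩ := hS l hlp
        have hx4 := hx3 hld
        have hvm := vq_mod M a l (hlq l hl).1
        have hll1 : l ≤ l1 S T K q := by
          have := (hlq l hl).2.2
          unfold l1
          omega
        rcases Uq_mod S T K q l hlp hll1 u hu with h6 | ⟨s, hs, h6⟩
        · apply hx1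
          have : x = (x - a) + ((vq M a l : ℤ) + a) + ((u : ℤ) - vq M a l) - u := by ring
          rw [this]
          exact ((hx4.add hvm).add hd).sub h6
        · apply hx2 s hs
          have : x + s = (x - a) + ((vq M a l : ℤ) + a) + ((u : ℤ) - vq M a l) - (u - s) := by
            ring
          rw [this]
          exact ((hx4.add hvm).add hd).sub h6) (fun _ => 0) X (adm_UC S q a hS T K)
    (fun v _ j => j.elim0)
  obtain ⟨hV0, hHS⟩ := h1 X hX1 b hb1
  have hUB : U ⊆ Bw 1 X b := by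
    intro u hu
    unfold Bw BB
    rw [mem_filter, mem_Icc]
    refine ⟨⟨Uq_pos S T K q u hu, ?_⟩, hb2 u hu⟩
    apply Nat.le_floor
    have e1 : (u : ℝ) ≤ A0 := by exact_mod_cast hUA u hu
    rw [one_mul]
    linarith
  have hHS2 := hHS (Hq S T K q) U (fun g i => Hq_mem S T K q g i) (Hq_inj S T K q) hUB
    (Uq_card S T K q)
  have hcover : ∀ n, n % Wm X = b → ∀ v ∈ V', pv v ∣ n + v ∧ pv v ≤ V'.sup pv := by
    intro n hn v hv
    have hle : pv v ≤ V'.sup pv := Finset.le_sup (f := pv) hv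
    have hW2 : pv v ∣ Wm X := by
      unfold Wm
      exact (hprime v hv).dvd_primorial_iff.2 (hle.trans hH4)
    have e5 : n ≡ b [MOD pv v] := by
      rw [← hn]
      exact ((Nat.mod_modEq _ _).of_dvd hW2).symm
    exact ⟨((e5.add_right v).dvd_iff dvd_rfl).2 (hb4 v hv (hle.trans hH4)), hle⟩
  refine ⟨HSx δ X b (Hq S T K q) U, ?_, ?_, ?_⟩
  · intro n hn
    unfold HSx HS at hn
    rw [mem_filter, mem_filter, mem_SI] at hn
    rw [mem_Ico]
    exact ⟨hn.1.1.1, hn.1.1.2.1⟩
  · intro n hn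
    unfold HSx HS at hn
    rw [mem_filter, mem_filter] at hn
    obtain ⟨⟨hnS, hrg, hcnt⟩, honly⟩ := hn
    have hnS' := mem_SI.1 hnS
    obtain ⟨hn1, hn2, hn3⟩ := hnS'
    have hsq : ∀ Z : ℤ, (∀ l ∈ q.primeFactors, (l : ℤ) ∣ Z) → (q : ℤ) ∣ Z := by
      intro Z hz
      have h7 : (∏ l ∈ q.primeFactors, l) ∣ Z.natAbs := by
        apply Finset.prod_primes_dvd
        · intro l hl
          exact (Nat.prime_of_mem_primeFactors hl).prime
        · intro l hl
          exact Int.natCast_dvd.1 (hz l hl)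
      rw [Nat.prod_primeFactors_of_squarefree hq] at h7
      exact Int.natCast_dvd.2 h7
    have hna : ∀ l ∈ q.primeFactors, (l : ℤ) ∣ (n : ℤ) - a := by
      intro l hl
      have e1 := (hcover n hn3 (vq M a l) (mem_union_right _ (mem_image_of_mem _ hl))).1
      rw [hpvQ l hl] at e1
      have e2 := vq_mod M a l (hlq l hl).1
      have e4 : (l : ℤ) ∣ ((n + vq M a l : ℕ) : ℤ) := by exact_mod_cast e1
      have : (n : ℤ) - a = ((n + vq M a l : ℕ) : ℤ) - ((vq M a l : ℤ) + a) := by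
        push_cast
        ring
      rw [this]
      exact e4.sub e2
    have hap : ∀ g i, APr S ⌊4 / δ⌋₊ ((X : ℝ) ^ (δ / 2)) (n + Hq S T K q g i) := by
      intro g i s hs
      have e1 := Hqa_pos S T K q g i s hs
      have e2 := Hqa_mem S T K q g i s hs
      have e3 : ((n + Hq S T K q g i : ℕ) : ℤ) + s =
          ((n + ((Hq S T K q g i : ℤ) + s).toNat : ℕ) : ℤ) := by
        push_cast
        rw [Int.toNat_of_nonneg e1.le]
        ring
      refine ⟨?_, ?_⟩
      · push_cast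
        omega
      · rw [e3, Int.toNat_natCast]
        exact h2 X hX2 b n _ hb1 hnS (hb2 _ e2) ((hUA _ e2).trans hXA) (hrg _ e2)
    refine ⟨hsq _ hna, ?_, ?_⟩
    · -- the number of primes
      set G := (univ : Finset (Fin T)).filter (fun g => ∃ i, (n + Hq S T K q g i).Prime) with hG
      have hG2 : m ≤ G.card := by
        have : T ≤ 4 * G.card := by
          convert hcnt
        omega
      have i0 : Fin K := ⟨0, by omega⟩
      have hex : ∀ g : Fin T, ∃ i : Fin K, g ∈ G → (n + Hq S T K q g i).Prime := by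
        intro g
        by_cases hg : g ∈ G
        · have e1 := hg
          rw [hG, mem_filter] at e1
          obtain ⟨i, hi⟩ := e1.2
          exact ⟨i, fun _ => hi⟩
        · exact ⟨i0, fun h => absurd h hg⟩
      choose j hj using hex
      have hsub : G.image (fun g => Hq S T K q g (j g)) ⊆
          (Icc 1 A0).filter (fun w => (n + w).Prime) := by
        intro w hw
        rw [mem_image] at hw
        obtain ⟨g, hg, rfl⟩ := hw
        rw [mem_filter, mem_Icc]
        exact ⟨⟨Uq_pos S T K q _ (Hq_mem S T K q g (j g)), hUA _ (Hq_mem S T K q g (j g))⟩, hj g hg⟩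
      have hcard : (G.image (fun g => Hq S T K q g (j g))).card = G.card := by
        apply card_image_of_injOn
        intro g _ g' _ h
        have e2 := @Hq_inj S T K q (g, j g) (g', j g') h
        exact (Prod.ext_iff.1 e2).1
      calc m ≤ G.card := hG2
        _ = _ := hcard.symm
        _ ≤ _ := card_le_card hsub
    · intro w hw hp
      by_cases hwU : w ∈ U
      · obtain ⟨g, i, hgi⟩ := honly w hwU hp
        subst hgi
        refine ⟨?_, hap g i⟩
        -- the residue class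
        apply hsq
        intro l hl
        have hlp := Nat.prime_of_mem_primeFactors hl
        have e3 : (l : ℤ) ∣ Hq S T K q g i := by
          have h4 : l ∣ primorial (l1 S T K q) := by
            refine hlp.dvd_primorial_iff.2 ?_
            have := (hlq l hl).2.2
            unfold l1
            omega
          have h5 : l ∣ Hq S T K q g i := by
            unfold Hq
            exact h4.mul_right _
          exact_mod_cast h5
        have : ((n + Hq S T K q g i : ℕ) : ℤ) - a = ((n : ℤ) - a) + Hq S T K q g i := by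
          push_cast
          ring
        rw [this]
        exact (hna l hl).add e3
      · exfalso
        have hwV : w ∈ V := by
          rw [hV, Finset.mem_sdiff]
          exact ⟨hw, hwU⟩
        obtain ⟨e6, hle⟩ := hcover n hn3 w (mem_union_left _ hwV)
        rw [hpvV w hwV] at e6 hle
        have hpw := pvs_prime (A0 + q) w
        have e7 := (Nat.prime_dvd_prime_iff_eq hpw hp).1 e6
        omega
  · refine le_trans ?_ hHS2
    obtain ⟨-, hOm⟩ := h3 X hX3
    have hlge1 : 1 ≤ Real.log X := by linarith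
    calc (X : ℝ) / Real.log X ^ (2 * L0 + 2) ≤ X / Real.log X ^ (2 * L + 2) := by
          apply div_le_div_of_nonneg_left hX0.le (by positivity)
          exact pow_le_pow_right₀ hlge1 (by omega)
      _ = (1 / Real.log X) * (X / Real.log X ^ (2 * L + 1)) := by
          rw [pow_succ]
          field_simp
      _ ≤ c * (X / Real.log X ^ (2 * L + 1)) := by
          apply mul_le_mul_of_nonneg_right _ (by positivity)
          rw [div_le_iff₀ hl0]
          rw [div_le_iff₀ hc] at hl1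
          linarith
      _ ≤ c * Om δ X L := mul_le_mul_of_nonneg_left hOm hc.le

end Pool.Agent.TH882.HZ
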