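import Pool.Agent.TH882.Y4

/-! Primes with a property that one of `M` neighbouring primes always has: all but few reduced
classes. -/

set_option autoImplicit false

open Finset

namespace Pool.Agent.TH882.HZ2

open Pool.Agent.H361R2.PP
open Pool.Agent.W70.HR
open Pool.Agent.TH882.UB (ev_pow)
open Pool.Agent.TH882.JS (VC sum_VC Rd Rd_card MostDense)
open Pool.Agent.TH882.HX (count_run nth_between)
open Pool.Agent.TH882.HY (lam lam_pos GX one_classX Bw_card Syn)

open Classical in
/-- the primes of a class with the property -/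
noncomputable def IQ (Q : ℕ → ℕ → Prop) (X b : ℕ) : Finset ℕ :=
  (SI X b).filter (fun p => p.Prime ∧ Q X p)

/-- in every short window with at least `M` primes one of the primes has the property -/
def Sel (M : ℕ) (Q : ℕ → ℕ → Prop) : Prop := ∃ X₁ : ℕ, ∀ X : ℕ, X₁ ≤ X → ∀ n : ℕ, X ≤ n →
  n < 2 * X → M ≤ ((Icc 1 ⌊lam M * Real.log X⌋₊).filter (fun w => (n + w).Prime)).card →
  ∃ w ∈ Icc 1 ⌊lam M * Real.log X⌋₊, (n + w).Prime ∧ Q X (n + w)

theorem dens_Q (M : ℕ) (hM : 1 ≤ M) (Q : ℕ → ℕ → Prop) (hQ : Sel M Q) (η : ℝ) (hη : 0 < η) :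
    ∃ c : ℝ, 0 < c ∧ ∃ X₀ : ℕ,
    ∀ X : ℕ, X₀ ≤ X → ∀ C ⊆ Rd X, η * Nat.totient (Wm X) ≤ (C.card : ℝ) →
    c * ((X : ℝ) / Real.log X) ≤ ∑ b ∈ C, ((IQ Q X b).card : ℝ) := by
  classical
  set ε : ℝ := lam M with hεd
  have hε : 0 < ε := lam_pos M hM
  obtain ⟨X6, hQ6⟩ := hQ
  obtain ⟨c1, hc1, X1, h1⟩ := one_classX M hM (η * ε / 4) (by positivity)
  obtain ⟨X2, h2⟩ := Bw_card ε hε
  obtain ⟨X3, h3⟩ := ev_pow 1 (16 * ε / (η * c1)) (by norm_num) 1
  have hlogt : Filter.Tendsto (fun X : ℕ => Real.log (X : ℝ)) Filter.atTop Filter.atTop :=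
    Real.tendsto_log_atTop.comp tendsto_natCast_atTop_atTop
  obtain ⟨X4, h4⟩ := Filter.eventually_atTop.1 (hlogt.eventually_ge_atTop (2 / ε))
  refine ⟨η * c1 / (16 * ε), by positivity, max (max X1 X2) (max X3 (max X4 (max X6 16))), ?_⟩
  intro X hX C hC hCc
  have hX1 : X1 ≤ X := by omega
  have hX2 : X2 ≤ X := by omega
  have hX3 : X3 ≤ X := by omega
  have hX4 : X4 ≤ X := by omega
  have hX6 : X6 ≤ X := by omega
  have hX16 : 16 ≤ X := by omega
  have hXr : (16 : ℝ) ≤ X := by exact_mod_cast hX16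
  have hX0 : (0 : ℝ) < X := by linarith
  set L := Real.log X with hLd
  have hL : 0 < L := Real.log_pos (by linarith)
  have hL2 : 2 ≤ ε * L := by
    have := h4 X hX4
    rw [div_le_iff₀ hε] at this
    linarith
  have hWp := Wm_pos X
  have hW0 : (0 : ℝ) < Wm X := by exact_mod_cast hWp
  set φ : ℝ := (Nat.totient (Wm X) : ℝ) with hφ
  have hφ0 : 0 < φ := by
    rw [hφ]
    exact_mod_cast Nat.totient_pos.2 hWp
  set N := ⌊ε * L⌋₊ with hN
  have hNle : (N : ℝ) ≤ ε * L := Nat.floor_le (by positivity)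
  have hNlt : ε * L < N + 1 := Nat.lt_floor_add_one _
  have hNN : ⌊ε * Real.log (X : ℝ)⌋₊ = N := rfl
  have hNp : 1 ≤ N := by
    have : (1 : ℝ) < N + 1 := by linarith
    have : (0 : ℝ) < N := by linarith
    exact_mod_cast this
  have hCR : C ⊆ range (Wm X) := hC.trans (filter_subset _ _)
  -- the primes of the modulus are small
  have hHX : HH X < X := by
    have e1 : (HH X : ℝ) ≤ Real.log (Real.log X) / 4 := by
      unfold HH
      apply Nat.floor_le
      have : 0 ≤ Real.log (Real.log X) := Real.log_nonneg (by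
        rw [Real.le_log_iff_exp_le hX0]
        have := Real.exp_one_lt_d9
        linarith)
      linarith
    have e2 : Real.log (Real.log X) ≤ Real.log X - 1 := Real.log_le_sub_one_of_pos hL
    have e3 : Real.log X ≤ X - 1 := Real.log_le_sub_one_of_pos hX0
    have e4 : (HH X : ℝ) < X := by
      have : 0 < Real.log X := hL
      linarith
    exact_mod_cast e4
  have hcopW : ∀ q : ℕ, q.Prime → X ≤ q → q.Coprime (Wm X) := by
    intro q hq hqX
    rw [hq.coprime_iff_not_dvd]
    intro hd
    unfold Wm at hd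
    have := hq.dvd_primorial_iff.1 hd
    omega
  set Bg := (range (Wm X)).filter
    (fun b => η * ε / 4 * (L * (φ / Wm X)) ≤ ((VC ε X b C).card : ℝ)) with hBg
  have hup : ∀ b, ((VC ε X b C).card : ℝ) ≤ 2 * (ε * L * (φ / Wm X)) := by
    intro b
    have e1 : ((VC ε X b C).card : ℝ) ≤ ((Bw ε X b).card : ℝ) := by
      exact_mod_cast card_le_card (filter_subset _ _)
    exact e1.trans (h2 X hX2 b)
  have hsum := sum_VC ε X C hC
  have hBgc : η / 8 * Wm X ≤ (Bg.card : ℝ) := by
    have e1 : (N : ℝ) * C.card = ∑ b ∈ range (Wm X), ((VC ε X b C).card : ℝ) := by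
      exact_mod_cast hsum.symm
    have e2 : ε * L / 2 * (η * φ) ≤ (N : ℝ) * C.card :=
      mul_le_mul (by linarith) hCc (by positivity) (Nat.cast_nonneg _)
    have e3 : ∑ b ∈ range (Wm X), ((VC ε X b C).card : ℝ) ≤
        (Bg.card : ℝ) * (2 * (ε * L * (φ / Wm X))) + Wm X * (η * ε / 4 * (L * (φ / Wm X))) := by
      rw [← sum_filter_add_sum_filter_not (range (Wm X))
        (fun b => η * ε / 4 * (L * (φ / Wm X)) ≤ ((VC ε X b C).card : ℝ))]
      apply add_le_add
      · rw [← nsmul_eq_mul, ← sum_const]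
        exact sum_le_sum fun b _ => hup b
      · calc ∑ b ∈ (range (Wm X)).filter
              (fun b => ¬ η * ε / 4 * (L * (φ / Wm X)) ≤ ((VC ε X b C).card : ℝ)),
              ((VC ε X b C).card : ℝ) ≤ ∑ _b ∈ (range (Wm X)).filter
              (fun b => ¬ η * ε / 4 * (L * (φ / Wm X)) ≤ ((VC ε X b C).card : ℝ)),
              (η * ε / 4 * (L * (φ / Wm X))) := by
                apply sum_le_sum
                intro b hb
                rw [mem_filter] at hb
                push Not at hb
                exact hb.2.le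
          _ ≤ _ := by
                rw [sum_const, nsmul_eq_mul]
                apply mul_le_mul_of_nonneg_right _ (by positivity)
                have : ((range (Wm X)).filter
                  (fun b => ¬ η * ε / 4 * (L * (φ / Wm X)) ≤ ((VC ε X b C).card : ℝ))).card ≤ Wm X := by
                  refine (card_filter_le _ _).trans ?_
                  rw [card_range]
                exact_mod_cast this
    have e4 : (Wm X : ℝ) * (η * ε / 4 * (L * (φ / Wm X))) = η * ε / 4 * L * φ := by
      field_simp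
    have e5 : η * ε / 4 * L * φ ≤ (Bg.card : ℝ) * (2 * (ε * L * (φ / Wm X))) := by
      rw [e4] at e3
      have e6 : ε * L / 2 * (η * φ) = 2 * (η * ε / 4 * L * φ) := by ring
      linarith
    have e6 : η * ε / 4 * L * φ = (η / 8 * Wm X) * (2 * (ε * L * (φ / Wm X))) := by
      field_simp
      ring
    rw [e6] at e5
    exact le_of_mul_le_mul_right e5 (by positivity)
  set Gb : ℕ → Finset ℕ := fun b => GX M X b (VC ε X b C) with hGb
  set S := Bg.biUnion Gb with hS
  have hGS : ∀ b, ∀ n ∈ Gb b, n ∈ SI X b := by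
    intro b n hn
    rw [hGb] at hn
    simp only at hn
    unfold GX at hn
    exact (mem_filter.1 hn).1
  have hScard : η / 8 * c1 * X ≤ (S.card : ℝ) := by
    have e1 : S.card = ∑ b ∈ Bg, (Gb b).card := by
      rw [hS]
      apply card_biUnion
      intro b hb b' hb' hne
      change Disjoint _ _
      rw [Finset.disjoint_left]
      intro n hn hn'
      apply hne
      rw [← (mem_SI.1 (hGS b n hn)).2.2, ← (mem_SI.1 (hGS b' n hn')).2.2]
    rw [e1]
    push_cast
    calc η / 8 * c1 * X = (η / 8 * Wm X) * (c1 * (X / Wm X)) := by field_simp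
      _ ≤ (Bg.card : ℝ) * (c1 * (X / Wm X)) := mul_le_mul_of_nonneg_right hBgc (by positivity)
      _ = ∑ _b ∈ Bg, (c1 * ((X : ℝ) / Wm X)) := by rw [sum_const, nsmul_eq_mul]
      _ ≤ _ := by
          apply sum_le_sum
          intro b hb
          rw [hBg, mem_filter, mem_range] at hb
          exact h1 X hX1 b hb.1 (VC ε X b C) (filter_subset _ _) hb.2
  -- the prime attached to a point
  have hch : ∀ n : ℕ, ∃ a : ℕ, n ∈ S → (1 ≤ a ∧ a ≤ N ∧ (n + a).Prime ∧ (n + a) % Wm X ∈ C ∧
      Q X (n + a)) := by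
    intro n
    by_cases hn : n ∈ S
    · rw [hS, mem_biUnion] at hn
      obtain ⟨b, hb, hn⟩ := hn
      have hnS := hGS b n hn
      rw [hGb] at hn
      simp only at hn
      unfold GX at hn
      rw [mem_filter] at hn
      obtain ⟨-, hnT, hnO⟩ := hn
      have hnb := (mem_SI.1 hnS).2.2
      rw [hBg, mem_filter, mem_range] at hb
      have hmod : n ≡ b [MOD Wm X] := by
        rw [Nat.ModEq, hnb, Nat.mod_eq_of_lt hb.1]
      have hcount : M ≤ ((Icc 1 N).filter (fun w => (n + w).Prime)).card := by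
        refine hnT.trans (card_le_card ?_)
        intro a ha
        rw [mem_filter] at ha
        have h9 := ha.1
        unfold VC Bw at h9
        rw [mem_filter, mem_BB, hNN] at h9
        rw [mem_filter, mem_Icc]
        exact ⟨⟨h9.1.1, h9.1.2.1⟩, ha.2⟩
      obtain ⟨w, hw, hp, hKw⟩ := hQ6 X hX6 n (mem_SI.1 hnS).1 (mem_SI.1 hnS).2.1 hcount
      refine ⟨w, fun _ => ?_⟩
      rw [mem_Icc] at hw
      refine ⟨hw.1, hw.2, hp, ?_, hKw⟩
      have hcop : (b + w).Coprime (Wm X) := by
        have e1 := hcopW (n + w) hp (by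
          have := (mem_SI.1 hnS).1
          omega)
        have e2 : n + w ≡ b + w [MOD Wm X] := hmod.add_right w
        unfold Nat.Coprime at e1 ⊢
        rw [← e2.gcd_eq]
        exact e1
      have hwB : w ∈ Bw ε X b := by
        unfold Bw
        rw [mem_BB, hNN]
        exact ⟨hw.1, hw.2, hcop⟩
      have hwV := hnO w hwB hp
      unfold VC at hwV
      rw [mem_filter] at hwV
      have e1 : (n + w) % Wm X = (b + w) % Wm X := hmod.add_right w
      rw [e1]
      exact hwV.2
    · exact ⟨0, fun h => absurd h hn⟩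
  choose f hf using hch
  set P := C.biUnion (fun b => IQ Q X b) with hP
  have hPc : (P.card : ℝ) ≤ ∑ b ∈ C, ((IQ Q X b).card : ℝ) := by
    exact_mod_cast card_biUnion_le
  set S' := S.filter (fun n => n + N < 2 * X) with hS'
  have hSr : ∀ n ∈ S, X ≤ n ∧ n < 2 * X := by
    intro n hn
    rw [hS, mem_biUnion] at hn
    obtain ⟨b, hb, hn⟩ := hn
    have := mem_SI.1 (hGS b n hn)
    exact ⟨this.1, this.2.1⟩
  have hS'c : S.card ≤ S'.card + N := by
    have e1 : S'.card + (S.filter (fun n => ¬ n + N < 2 * X)).card = S.card :=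
      card_filter_add_card_filter_not _
    have e2 : (S.filter (fun n => ¬ n + N < 2 * X)).card ≤ N := by
      calc _ ≤ (Ico (2 * X - N) (2 * X)).card := by
            apply card_le_card
            intro n hn
            rw [mem_filter] at hn
            have := hSr n hn.1
            rw [mem_Ico]
            omega
        _ ≤ N := by
            rw [Nat.card_Ico]
            omega
    omega
  have hS'P : S'.card ≤ N * P.card := by
    have e1 : S'.card ≤ N * (S'.image (fun n => n + f n)).card := by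
      apply card_le_mul_card_image
      intro p hp
      calc (S'.filter (fun n => n + f n = p)).card ≤ (Ico (p - N) p).card := by
            apply card_le_card
            intro n hn
            rw [mem_filter, hS', mem_filter] at hn
            have := hf n hn.1.1
            rw [mem_Ico]
            omega
        _ ≤ N := by
            rw [Nat.card_Ico]
            omega
    refine e1.trans (Nat.mul_le_mul_left _ (card_le_card ?_))
    intro p hp
    rw [mem_image] at hp
    obtain ⟨n, hn, rfl⟩ := hp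
    rw [hS', mem_filter] at hn
    have h9 := hf n hn.1
    have h10 := hSr n hn.1
    rw [hP, mem_biUnion]
    refine ⟨(n + f n) % Wm X, h9.2.2.2.1, ?_⟩
    unfold IQ
    rw [mem_filter, mem_SI]
    exact ⟨⟨by omega, by omega, rfl⟩, h9.2.2.1, h9.2.2.2.2⟩
  have hfin : (S.card : ℝ) ≤ N * (P.card + 1) := by
    have : S.card ≤ N * (P.card + 1) := by
      rw [mul_add, mul_one]
      omega
    exact_mod_cast this
  have hPn : (0 : ℝ) ≤ (P.card : ℝ) + 1 := by
    have : (0 : ℝ) ≤ (P.card : ℝ) := Nat.cast_nonneg _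
    linarith
  have e1 : η / 8 * c1 * X ≤ ε * L * (P.card + 1) := by
    refine hScard.trans (hfin.trans ?_)
    exact mul_le_mul_of_nonneg_right hNle hPn
  have e2 : 2 * (η * c1 / (16 * ε) * (X / L)) ≤ P.card + 1 := by
    have e3 : 2 * (η * c1 / (16 * ε) * (X / L)) = (η / 8 * c1 * X) / (ε * L) := by
      field_simp
      ring
    rw [e3, div_le_iff₀ (by positivity)]
    linarith
  have e3 : 1 ≤ η * c1 / (16 * ε) * (X / L) := by
    have e4 := h3 X hX3
    rw [Real.rpow_one, pow_one] at e4
    have e5 : η * c1 / (16 * ε) * (X / L) = X / (16 * ε / (η * c1) * L) := by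
      field_simp
    rw [e5, one_le_div (by positivity)]
    exact e4
  linarith

/-- **the primes with the property are dense in most classes** -/
theorem IQ_most (M : ℕ) (hM : 1 ≤ M) (Q : ℕ → ℕ → Prop) (hQ : Sel M Q) : MostDense (IQ Q) := by
  classical
  refine ⟨?_, ?_⟩
  · intro X b n hn
    unfold IQ at hn
    rw [mem_filter] at hn ⊢
    exact ⟨hn.1, hn.2.1⟩
  intro η hη
  obtain ⟨c, hc, X1, h1⟩ := dens_Q M hM Q hQ η hη
  refine ⟨c / 2, by positivity, max X1 16, ?_⟩
  intro X hX
  have hX1 : X1 ≤ X := by omega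
  have hX16 : 16 ≤ X := by omega
  have hXr : (16 : ℝ) ≤ X := by exact_mod_cast hX16
  have hX0 : (0 : ℝ) < X := by linarith
  have hL : 0 < Real.log X := Real.log_pos (by linarith)
  have hφ0 : (0 : ℝ) < Nat.totient (Wm X) := by exact_mod_cast Nat.totient_pos.2 (Wm_pos X)
  set C := (Rd X).filter (fun b =>
      ((IQ Q X b).card : ℝ) < c / 2 * (X / (Nat.totient (Wm X) * Real.log X))) with hC
  by_contra hcon
  push Not at hcon
  have h2 := h1 X hX1 C (filter_subset _ _) hcon.le
  have h3 : ∑ b ∈ C, ((IQ Q X b).card : ℝ) ≤ (C.card : ℝ) *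
      (c / 2 * (X / (Nat.totient (Wm X) * Real.log X))) := by
    rw [← nsmul_eq_mul, ← sum_const]
    apply sum_le_sum
    intro b hb
    rw [hC, mem_filter] at hb
    exact hb.2.le
  have h4 : (C.card : ℝ) ≤ Nat.totient (Wm X) := by
    rw [← Rd_card]
    exact_mod_cast card_le_card (filter_subset _ _)
  have h5 : (C.card : ℝ) * (c / 2 * (X / (Nat.totient (Wm X) * Real.log X))) ≤
      Nat.totient (Wm X) * (c / 2 * (X / (Nat.totient (Wm X) * Real.log X))) :=
    mul_le_mul_of_nonneg_right h4 (by positivity)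
  have h6 : (Nat.totient (Wm X) : ℝ) * (c / 2 * (X / (Nat.totient (Wm X) * Real.log X))) =
      c / 2 * (X / Real.log X) := by
    field_simp
  have h7 : 0 < c * (X / Real.log X) := by positivity
  linarith

/-- a prime with index in `K` followed by `m` further primes of the window -/
lemma exists_index_run (M m : ℕ) (K : Set ℕ) (hK : Syn M K) (n N : ℕ)
    (h : M + m ≤ ((Icc 1 N).filter (fun w => (n + w).Prime)).card) :
    ∃ w ∈ Icc 1 N, (n + w).Prime ∧ Nat.primeCounting (n + w) ∈ K ∧
      Nat.nth Nat.Prime (Nat.primeCounting (n + w) - 1 + m) ≤ n + N := by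
  have h3 := count_run n N
  set c := Nat.count Nat.Prime (n + 1) with hc
  obtain ⟨i, hi, hiK⟩ := hK (c + 1) (by omega)
  obtain ⟨w, hw, hnw⟩ := nth_between n N (c + i) (by omega) (by rw [← h3]; omega)
  obtain ⟨w', hw', hnw'⟩ := nth_between n N (c + i + m) (by omega) (by rw [← h3]; omega)
  have e1 : Nat.primeCounting (n + w) = c + i + 1 := by
    rw [← hnw]
    unfold Nat.primeCounting Nat.primeCounting'
    exact Nat.count_nth_succ_of_infinite Nat.infinite_setOfPred_prime _
  refine ⟨w, hw, ?_, ?_, ?_⟩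
  · rw [← hnw]
    exact Nat.prime_nth_prime _
  · rw [e1]
    have : c + i + 1 = c + 1 + i := by ring
    rw [this]
    exact hiK
  · rw [e1]
    have e2 : c + i + 1 - 1 + m = c + i + m := by omega
    rw [e2, hnw']
    rw [mem_Icc] at hw'
    omega

/-- index in `K`, and the next `m` primes within `ε log X` -/
def QK (K : Set ℕ) (m : ℕ) (ε : ℝ) (X p : ℕ) : Prop :=
  Nat.primeCounting p ∈ K ∧
    (Nat.nth Nat.Prime (Nat.primeCounting p - 1 + m) : ℝ) ≤ p + ε * Real.log X

theorem sel_K (M m : ℕ) (K : Set ℕ) (hK : Syn M K) (ε : ℝ) (hε : 0 < ε) :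
    Sel (M + m + ⌈1 / (512 * ε)⌉₊) (QK K m ε) := by
  refine ⟨1, fun X hX n hn1 hn2 h => ?_⟩
  set M' := M + m + ⌈1 / (512 * ε)⌉₊ with hM'
  have hlam : lam M' ≤ ε := by
    unfold lam
    have h1 : 1 / (512 * ε) ≤ (M' : ℝ) := by
      refine (Nat.le_ceil _).trans ?_
      rw [hM']
      push_cast
      have : (0 : ℝ) ≤ (M : ℝ) + m := by positivity
      linarith
    have h0 : 0 < 1 / (512 * ε) := by positivity
    have h2 : 0 < (M' : ℝ) := lt_of_lt_of_le h0 h1
    rw [div_le_iff₀ (by positivity)] at h1 ⊢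
    linarith
  have hL : 0 ≤ Real.log X := Real.log_natCast_nonneg X
  obtain ⟨w, hw, hp, h1, h2⟩ := exists_index_run M m K hK n _ ((by omega : M + m ≤ M').trans h)
  refine ⟨w, hw, hp, h1, ?_⟩
  have h3 : ((⌊lam M' * Real.log X⌋₊ : ℕ) : ℝ) ≤ ε * Real.log X := by
    by_cases h0 : 0 ≤ lam M' * Real.log X
    · exact (Nat.floor_le h0).trans (mul_le_mul_of_nonneg_right hlam hL)
    · push Not at h0
      rw [Nat.floor_of_nonpos h0.le]
      push_cast
      positivity
  have h4 : (Nat.nth Nat.Prime (Nat.primeCounting (n + w) - 1 + m) : ℝ) ≤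
      (n : ℝ) + (⌊lam M' * Real.log X⌋₊ : ℕ) := by exact_mod_cast h2
  push_cast
  have h5 : (0 : ℝ) ≤ (w : ℝ) := Nat.cast_nonneg _
  linarith

theorem QK_most (M m : ℕ) (hM : 1 ≤ M) (K : Set ℕ) (hK : Syn M K) (ε : ℝ) (hε : 0 < ε) :
    MostDense (IQ (QK K m ε)) :=
  IQ_most _ (by omega) _ (sel_K M m K hK ε hε)

end Pool.Agent.TH882.HZ2
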